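import Mathlib
import Pool.Agent.N852.Div

/-!
# Tuples of integers whose product has few primes dividing it exactly once
-/

set_option autoImplicit false

namespace Pool.Agent.L0h11

open Finset

/-- the product of the primes which divide `n` exactly once -/
noncomputable def exc (n : ℕ) : ℕ := ∏ p ∈ n.primeFactors.filter (fun p => n.factorization p = 1), p

lemma exc_pos (n : ℕ) : 0 < exc n :=
  prod_pos fun _ hp => (Nat.prime_of_mem_primeFactors (mem_filter.1 hp).1).pos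

lemma exc_dvd {n m : ℕ} (h : ∀ p : ℕ, p.Prime → n.factorization p = 1 → p ∣ m) : exc n ∣ m := by
  apply Finset.prod_primes_dvd
  · intro p hp
    exact (Nat.prime_of_mem_primeFactors (mem_filter.1 hp).1).prime
  · intro p hp
    exact h p (Nat.prime_of_mem_primeFactors (mem_filter.1 hp).1) (mem_filter.1 hp).2

lemma exc_decomp {n : ℕ} (hn : n ≠ 0) : ∃ a b : ℕ, n = exc n * b ^ 3 * a ^ 2 := by
  obtain ⟨t, s, hst, ht⟩ := Nat.sq_mul_squarefree n
  have ht0 : t ≠ 0 := ht.ne_zero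
  have hs0 : s ≠ 0 := by
    rintro rfl
    apply hn
    rw [← hst]
    ring
  have hv : ∀ p : ℕ, n.factorization p = 2 * s.factorization p + t.factorization p := by
    intro p
    rw [← hst, Nat.factorization_mul (pow_ne_zero 2 hs0) ht0, Nat.factorization_pow]
    simp
  have htv : ∀ p : ℕ, t.factorization p ≤ 1 := fun p => ht.natFactorization_le_one p
  set A := t.primeFactors.filter (fun p => n.factorization p = 1) with hA
  set Bs := t.primeFactors.filter (fun p => ¬ n.factorization p = 1) with hB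
  have h1 : n.primeFactors.filter (fun p => n.factorization p = 1) = A := by
    ext p
    rw [hA, mem_filter, mem_filter]
    constructor
    · rintro ⟨h1, h2⟩
      refine ⟨?_, h2⟩
      have h3 := hv p
      have h4 : t.factorization p ≠ 0 := by omega
      rw [← Nat.support_factorization, Finsupp.mem_support_iff]
      exact h4
    · rintro ⟨h1, h2⟩
      refine ⟨?_, h2⟩
      rw [← Nat.support_factorization, Finsupp.mem_support_iff, h2]
      exact one_ne_zero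
  have h2 : t = exc n * ∏ p ∈ Bs, p := by
    unfold exc
    rw [h1, hA, hB, prod_filter_mul_prod_filter_not, Nat.prod_primeFactors_of_squarefree ht]
  have h3 : (∏ p ∈ Bs, p) ∣ s := by
    apply Finset.prod_primes_dvd
    · intro p hp
      exact (Nat.prime_of_mem_primeFactors (mem_filter.1 hp).1).prime
    · intro p hp
      obtain ⟨h4, h5⟩ := mem_filter.1 hp
      have h6 := hv p
      have h7 := htv p
      have h8 : t.factorization p ≠ 0 := by
        rw [← Nat.support_factorization, Finsupp.mem_support_iff] at h4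
        exact h4
      have h9 : s.factorization p ≠ 0 := by omega
      exact Nat.dvd_of_factorization_pos h9
  obtain ⟨a, ha⟩ := h3
  refine ⟨a, ∏ p ∈ Bs, p, ?_⟩
  calc n = s ^ 2 * t := hst.symm
    _ = ((∏ p ∈ Bs, p) * a) ^ 2 * (exc n * ∏ p ∈ Bs, p) := by rw [← ha, ← h2]
    _ = _ := by ring

/-- the numbers up to `X` with `exc n ≤ Y` -/
noncomputable def AS (X Y : ℕ) : Finset ℕ := (Icc 1 X).filter (fun n => exc n ≤ Y)

lemma sum_inv_sqrt (Y : ℕ) : ∑ y ∈ Icc 1 Y, 1 / Real.sqrt y ≤ 2 * Real.sqrt Y := by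
  induction Y with
  | zero => simp
  | succ Y ih =>
    rw [sum_Icc_succ_top (by omega)]
    have h1 : (0 : ℝ) < ((Y + 1 : ℕ) : ℝ) := by positivity
    have h2 := Real.sqrt_pos.2 h1
    have h3 : Real.sqrt Y ≤ Real.sqrt ((Y + 1 : ℕ) : ℝ) := Real.sqrt_le_sqrt (by push_cast; linarith)
    have h4 : Real.sqrt ((Y + 1 : ℕ) : ℝ) ^ 2 = Y + 1 := by rw [Real.sq_sqrt h1.le]; push_cast; rfl
    have h5 : Real.sqrt (Y : ℝ) ^ 2 = Y := Real.sq_sqrt (Nat.cast_nonneg _)
    have h6 : 1 / Real.sqrt ((Y + 1 : ℕ) : ℝ) ≤ 2 * Real.sqrt ((Y + 1 : ℕ) : ℝ) - 2 * Real.sqrt Y := by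
      rw [div_le_iff₀ h2]
      nlinarith [Real.sqrt_nonneg (Y : ℝ)]
    linarith

lemma summable_b : Summable fun b : ℕ => 1 / Real.sqrt ((b : ℝ) ^ 3) := by
  have h1 := Real.summable_one_div_nat_rpow.2 (by norm_num : (1 : ℝ) < 3 / 2)
  refine h1.congr fun b => ?_
  congr 1
  rw [Real.sqrt_eq_rpow, ← Real.rpow_natCast, ← Real.rpow_mul (Nat.cast_nonneg _)]
  norm_num

theorem card_AS (X Y : ℕ) : ((AS X Y).card : ℝ) ≤
    (2 * ∑' b : ℕ, 1 / Real.sqrt ((b : ℝ) ^ 3)) * Real.sqrt X * Real.sqrt Y := by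
  classical
  have hsub : AS X Y ⊆ (Icc 1 Y).biUnion fun y => (Icc 1 X).biUnion fun b =>
      (Icc 1 (Nat.sqrt (X / (y * b ^ 3)))).image fun a => y * b ^ 3 * a ^ 2 := by
    intro n hn
    unfold AS at hn
    rw [mem_filter, mem_Icc] at hn
    obtain ⟨⟨h1, h2⟩, h3⟩ := hn
    obtain ⟨a, b, hab⟩ := exc_decomp (by omega : n ≠ 0)
    have ha : 0 < a := by
      rcases Nat.eq_zero_or_pos a with h | h
      · rw [h] at hab
        simp at hab
        omega
      · exact h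
    have hb : 0 < b := by
      rcases Nat.eq_zero_or_pos b with h | h
      · rw [h] at hab
        simp at hab
        omega
      · exact h
    have hy := exc_pos n
    rw [mem_biUnion]
    refine ⟨exc n, mem_Icc.2 ⟨hy, h3⟩, ?_⟩
    rw [mem_biUnion]
    have hbn : b ≤ n := by
      have h4 : b ∣ n := by
        rw [hab]
        exact ((dvd_pow_self b (by norm_num)).mul_left _).mul_right _
      exact Nat.le_of_dvd (by omega) h4
    refine ⟨b, mem_Icc.2 ⟨hb, hbn.trans h2⟩, ?_⟩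
    rw [mem_image]
    refine ⟨a, mem_Icc.2 ⟨ha, ?_⟩, hab.symm⟩
    rw [Nat.le_sqrt', Nat.le_div_iff_mul_le (Nat.mul_pos hy (pow_pos hb 3)), mul_comm, ← hab]
    exact h2
  have h1 : ((AS X Y).card : ℝ) ≤ ∑ y ∈ Icc 1 Y, ∑ b ∈ Icc 1 X,
      (1 / Real.sqrt y) * ((1 / Real.sqrt ((b : ℝ) ^ 3)) * Real.sqrt X) := by
    have h2 : (AS X Y).card ≤ ∑ y ∈ Icc 1 Y, ∑ b ∈ Icc 1 X, Nat.sqrt (X / (y * b ^ 3)) := by
      refine (card_le_card hsub).trans ?_
      refine card_biUnion_le.trans (sum_le_sum fun y _ => ?_)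
      refine card_biUnion_le.trans (sum_le_sum fun b _ => ?_)
      refine card_image_le.trans ?_
      rw [Nat.card_Icc, Nat.add_sub_cancel]
    have h3 : ((AS X Y).card : ℝ) ≤
        ((∑ y ∈ Icc 1 Y, ∑ b ∈ Icc 1 X, Nat.sqrt (X / (y * b ^ 3)) : ℕ) : ℝ) := by exact_mod_cast h2
    refine h3.trans ?_
    push_cast
    refine sum_le_sum fun y _ => sum_le_sum fun b _ => ?_
    refine (Real.nat_sqrt_le_real_sqrt).trans ?_
    have h4 : ((X / (y * b ^ 3) : ℕ) : ℝ) ≤ (X : ℝ) / ((y : ℝ) * (b : ℝ) ^ 3) := by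
      have := @Nat.cast_div_le ℝ _ _ _ X (y * b ^ 3)
      push_cast at this
      exact this
    refine (Real.sqrt_le_sqrt h4).trans ?_
    rw [Real.sqrt_div (Nat.cast_nonneg _), Real.sqrt_mul (Nat.cast_nonneg _)]
    apply le_of_eq
    rw [div_eq_mul_inv, mul_inv, one_div, one_div]
    ring
  refine h1.trans ?_
  have h2 : ∑ y ∈ Icc 1 Y, ∑ b ∈ Icc 1 X, (1 / Real.sqrt y) * ((1 / Real.sqrt ((b : ℝ) ^ 3)) *
      Real.sqrt X) = (∑ y ∈ Icc 1 Y, 1 / Real.sqrt y) *
        ((∑ b ∈ Icc 1 X, 1 / Real.sqrt ((b : ℝ) ^ 3)) * Real.sqrt X) := by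
    rw [sum_mul]
    refine sum_congr rfl fun y _ => ?_
    rw [sum_mul, mul_sum]
  rw [h2]
  have h3 := sum_inv_sqrt Y
  have h4 : ∑ b ∈ Icc 1 X, 1 / Real.sqrt ((b : ℝ) ^ 3) ≤ ∑' b : ℕ, 1 / Real.sqrt ((b : ℝ) ^ 3) :=
    summable_b.sum_le_tsum _ fun b _ => by positivity
  have h5 : 0 ≤ ∑ b ∈ Icc 1 X, 1 / Real.sqrt ((b : ℝ) ^ 3) := sum_nonneg fun b _ => by positivity
  have h6 : 0 ≤ ∑' b : ℕ, 1 / Real.sqrt ((b : ℝ) ^ 3) := h5.trans h4
  calc _ ≤ (2 * Real.sqrt Y) * ((∑' b : ℕ, 1 / Real.sqrt ((b : ℝ) ^ 3)) * Real.sqrt X) := by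
        apply mul_le_mul h3 _ (by positivity) (by positivity)
        exact mul_le_mul_of_nonneg_right h4 (Real.sqrt_nonneg _)
    _ = _ := by ring

/-- the divisors of `n` with both signs -/
def Dv (n : ℕ) : Finset ℤ :=
  n.divisors.image (fun d : ℕ => (d : ℤ)) ∪ n.divisors.image (fun d : ℕ => -(d : ℤ))

lemma card_Dv (n : ℕ) : (Dv n).card ≤ 2 * n.divisors.card := by
  unfold Dv
  refine (card_union_le _ _).trans ?_
  have h1 : (n.divisors.image (fun d : ℕ => (d : ℤ))).card ≤ n.divisors.card := card_image_le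
  have h2 : (n.divisors.image (fun d : ℕ => -(d : ℤ))).card ≤ n.divisors.card := card_image_le
  omega

/-- **few tuples have a product with few primes dividing it exactly once** -/
theorem card_exc (N : ℕ) {ε : ℝ} (hε : 0 < ε) : ∃ C : ℝ, 0 < C ∧ ∀ B Y : ℕ, 1 ≤ B →
    ∀ T : Set (Fin N → ℤ), (∀ c ∈ T, ∀ i, c i ≠ 0 ∧ |c i| ≤ B) →
    (∀ c ∈ T, exc (∏ i, (c i).natAbs) ≤ Y) →
    T.Finite ∧ (Nat.card T : ℝ) ≤ C * (B : ℝ) ^ ((N : ℝ) / 2 + ε) * (Y : ℝ) ^ ((1 : ℝ) / 2) := by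
  classical
  set δ : ℝ := ε / ((N : ℝ) * N + 1) with hδ
  have hδ0 : 0 < δ := by positivity
  obtain ⟨K, hK0, hK⟩ := Pool.Agent.N852.divisor_bound δ hδ0
  set Z : ℝ := ∑' b : ℕ, 1 / Real.sqrt ((b : ℝ) ^ 3) with hZ
  have hZ0 : 0 ≤ Z := tsum_nonneg fun b => by positivity
  refine ⟨(2 * (Z + 1)) * (2 * K) ^ N, by positivity, ?_⟩
  intro B Y hB T hT1 hT2
  have hBR : (1 : ℝ) ≤ B := by exact_mod_cast hB
  set U : Finset (Fin N → ℤ) := (AS (B ^ N) Y).biUnion fun n => Fintype.piFinset fun _ : Fin N => Dv n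
    with hU
  have hsub : T ⊆ ↑U := by
    intro c hc
    rw [hU, mem_coe, mem_biUnion]
    have h1 : ∀ i, 0 < (c i).natAbs := fun i => Int.natAbs_pos.2 (hT1 c hc i).1
    refine ⟨∏ i, (c i).natAbs, ?_, ?_⟩
    · unfold AS
      rw [mem_filter, mem_Icc]
      refine ⟨⟨prod_pos fun i _ => h1 i, ?_⟩, hT2 c hc⟩
      calc ∏ i, (c i).natAbs ≤ ∏ _i : Fin N, B := by
            refine prod_le_prod' fun i _ => ?_
            have h2 := (hT1 c hc i).2
            rw [Int.abs_eq_natAbs] at h2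
            exact_mod_cast h2
        _ = B ^ N := by rw [prod_const, card_univ, Fintype.card_fin]
    · rw [Fintype.mem_piFinset]
      intro i
      unfold Dv
      rw [mem_union, mem_image, mem_image]
      have h2 : (c i).natAbs ∈ (∏ i, (c i).natAbs).divisors := by
        rw [Nat.mem_divisors]
        exact ⟨dvd_prod_of_mem _ (mem_univ i), (prod_pos fun i _ => h1 i).ne'⟩
      rcases Int.natAbs_eq (c i) with h | h
      · exact Or.inl ⟨_, h2, h.symm⟩
      · exact Or.inr ⟨_, h2, h.symm⟩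
  have hfin : T.Finite := U.finite_toSet.subset hsub
  refine ⟨hfin, ?_⟩
  have h1 : Nat.card T ≤ U.card := by
    have h2 := Nat.card_mono U.finite_toSet hsub
    rw [Nat.card_coe_set_eq] at h2 ⊢
    rwa [Nat.card_coe_set_eq, Set.ncard_coe_finset] at h2
  have h2 : (U.card : ℝ) ≤ ∑ n ∈ AS (B ^ N) Y, (2 * K) ^ N * (B : ℝ) ^ ε := by
    have h3 : U.card ≤ ∑ n ∈ AS (B ^ N) Y, ((Dv n).card) ^ N := by
      refine card_biUnion_le.trans (sum_le_sum fun n _ => ?_)
      rw [Fintype.card_piFinset, prod_const, card_univ, Fintype.card_fin]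
    have h4 : (U.card : ℝ) ≤ ((∑ n ∈ AS (B ^ N) Y, ((Dv n).card) ^ N : ℕ) : ℝ) := by exact_mod_cast h3
    refine h4.trans ?_
    push_cast
    refine sum_le_sum fun n hn => ?_
    unfold AS at hn
    rw [mem_filter, mem_Icc] at hn
    obtain ⟨⟨h5, h6⟩, -⟩ := hn
    have hn1 : (1 : ℝ) ≤ n := by exact_mod_cast h5
    have h7 : ((Dv n).card : ℝ) ≤ 2 * K * (n : ℝ) ^ δ := by
      have h8 : ((Dv n).card : ℝ) ≤ 2 * (n.divisors.card : ℝ) := by exact_mod_cast card_Dv n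
      have h9 := hK n (by omega)
      linarith
    calc ((Dv n).card : ℝ) ^ N ≤ (2 * K * (n : ℝ) ^ δ) ^ N :=
          pow_le_pow_left₀ (Nat.cast_nonneg _) h7 N
      _ = (2 * K) ^ N * ((n : ℝ) ^ δ) ^ N := mul_pow _ _ _
      _ ≤ (2 * K) ^ N * (B : ℝ) ^ ε := by
        apply mul_le_mul_of_nonneg_left _ (by positivity)
        have h8 : (n : ℝ) ≤ (B : ℝ) ^ (N : ℝ) := by
          rw [Real.rpow_natCast]
          exact_mod_cast h6
        calc ((n : ℝ) ^ δ) ^ N ≤ (((B : ℝ) ^ (N : ℝ)) ^ δ) ^ N := by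
              apply pow_le_pow_left₀ (by positivity)
              exact Real.rpow_le_rpow (by positivity) h8 hδ0.le
          _ = (B : ℝ) ^ ((N : ℝ) * δ * N) := by
              rw [← Real.rpow_mul (by positivity), ← Real.rpow_natCast, ← Real.rpow_mul (by positivity)]
          _ ≤ (B : ℝ) ^ ε := by
              apply Real.rpow_le_rpow_of_exponent_le hBR
              rw [hδ]
              have h9 : 0 < (N : ℝ) * N + 1 := by positivity
              rw [mul_div_assoc', div_mul_eq_mul_div, div_le_iff₀ h9]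
              nlinarith
  rw [sum_const, nsmul_eq_mul] at h2
  have h3 := card_AS (B ^ N) Y
  have h4 : Real.sqrt ((B ^ N : ℕ) : ℝ) = (B : ℝ) ^ ((N : ℝ) / 2) := by
    push_cast
    rw [Real.sqrt_eq_rpow, ← Real.rpow_natCast, ← Real.rpow_mul (by positivity)]
    congr 1
    ring
  rw [h4, Real.sqrt_eq_rpow, ← hZ] at h3
  have h5 : (Nat.card T : ℝ) ≤ (U.card : ℝ) := by exact_mod_cast h1
  have hYn : (0 : ℝ) ≤ (Y : ℝ) ^ ((1 : ℝ) / 2) := by positivity
  have hBn : (0 : ℝ) ≤ (B : ℝ) ^ ((N : ℝ) / 2) := by positivity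
  have hBe : (0 : ℝ) ≤ (B : ℝ) ^ ε := by positivity
  calc (Nat.card T : ℝ) ≤ ((AS (B ^ N) Y).card : ℝ) * ((2 * K) ^ N * (B : ℝ) ^ ε) := h5.trans h2
    _ ≤ (2 * Z * (B : ℝ) ^ ((N : ℝ) / 2) * (Y : ℝ) ^ ((1 : ℝ) / 2)) * ((2 * K) ^ N * (B : ℝ) ^ ε) :=
        mul_le_mul_of_nonneg_right h3 (by positivity)
    _ ≤ (2 * (Z + 1) * (B : ℝ) ^ ((N : ℝ) / 2) * (Y : ℝ) ^ ((1 : ℝ) / 2)) *
        ((2 * K) ^ N * (B : ℝ) ^ ε) := by
        apply mul_le_mul_of_nonneg_right _ (by positivity)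
        apply mul_le_mul_of_nonneg_right _ hYn
        apply mul_le_mul_of_nonneg_right _ hBn
        linarith
    _ = (2 * (Z + 1) * (2 * K) ^ N) * (B : ℝ) ^ ((N : ℝ) / 2 + ε) * (Y : ℝ) ^ ((1 : ℝ) / 2) := by
        rw [Real.rpow_add (by linarith)]
        ring

end Pool.Agent.L0h11
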