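import Mathlib
import Pool.Agent.H916K.Defs
import Pool.Agent.Y2.Cv.Defs

/-!
# Diagonal hypersurfaces over the rational numbers and their L-functions: definitions

Let `c_0, ..., c_(N-1)` be nonzero integers, `N` even, and let `X` be the diagonal hypersurface
`c_0 * x_0 ^ m + ... + c_(N-1) * x_(N-1) ^ m = 0` of dimension `n = N - 2`.
-/

set_option autoImplicit false

namespace Pool.Agent.L0h11

open scoped LinearAlgebra.Projectivization

/-- The number of points of `X` over the field `F`. -/
noncomputable def points (m : ℕ) {N : ℕ} (c : Fin N → ℤ) (F : Type) [Field F] : ℕ :=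
  Nat.card {P : ℙ F (Fin N → F) // ∑ i, (c i : F) * P.rep i ^ m = 0}

/-- The trace of the Frobenius endomorphism over a field `F` with `q` elements (in which `m` and all
`c_i` are not zero) on the cohomology `H ^ n` of `X`, by the trace formula of Lefschetz and
Grothendieck: the number of points minus the sum of the `q ^ j` with `0 ≤ j ≤ n` and `j ≠ n / 2`
(the other even cohomology groups `H ^ (2 * j)` have dimension one and the odd ones are zero). -/
noncomputable def trace (m : ℕ) {N : ℕ} (c : Fin N → ℤ) (F : Type) [Field F] : ℝ :=
  (points m c F : ℝ) - ∑ j ∈ (Finset.range (N - 1)).erase (N / 2 - 1), (Nat.card F : ℝ) ^ j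

instance factPrime (p : Nat.Primes) : Fact (p : ℕ).Prime := ⟨p.2⟩

/-- The Euler factor `det (1 - Frob_p * p ^ (-s) | H ^ n) ^ (-1)` of `X` at a prime `p` of good
reduction, written as `exp (∑ tr (Frob_p ^ k | H ^ n) * p ^ (-k * s) / k)`, where the sum is over
`k ≥ 1` (here `k + 1`). -/
noncomputable def localFactor (m : ℕ) {N : ℕ} (c : Fin N → ℤ) (p : Nat.Primes) (s : ℂ) : ℂ :=
  Complex.exp (∑' k : ℕ, (trace m c (GaloisField p (k + 1)) : ℂ) *
    ((p : ℕ) : ℂ) ^ (-(((k + 1 : ℕ) : ℂ) * s)) / ((k + 1 : ℕ) : ℂ))

/-- The L-function of `H ^ n (X)` with the Euler factors `(P_p (p ^ (-s))) ^ (-1)` at the primes `p`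
of the finite set `S`. -/
noncomputable def LFunction (m : ℕ) {N : ℕ} (c : Fin N → ℤ) (S : Finset Nat.Primes)
    (P : Nat.Primes → Polynomial ℂ) (s : ℂ) : ℂ :=
  ∏' p : Nat.Primes, if p ∈ S then ((P p).eval (((p : ℕ) : ℂ) ^ (-s)))⁻¹ else localFactor m c p s

/-- An eigenline of exact level `M`: the tuples `b` of `N` nonzero residues modulo `M` with sum zero
which do not come from a proper divisor of `M`. The tuple `b` belongs to the line `V(a)` in the
cohomology of `X`, where `a = (m / M) * b`. -/
def IsLine (M : ℕ) {N : ℕ} (b : Fin N → ZMod M) : Prop :=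
  (∀ i, b i ≠ 0) ∧ ∑ i, b i = 0 ∧ ∀ k : ℕ, (∀ i, (k : ZMod M) * b i = 0) → M ∣ k

/-- the multiset of the pairs `(b_i, c_i)` -/
def pairs {M N : ℕ} (c : Fin N → ℤ) (b : Fin N → ZMod M) : Multiset (ZMod M × ℤ) :=
  Finset.univ.val.map fun i => (b i, c i)

/-- One plus the number of the orbits of the lines with trivial Galois action: the Galois group of the
field of `M`-th roots of unity acts trivially on the line of `b` (twisted by `n / 2`) if and only if
`RationalClass M (pairs c b)` holds; the group of the units modulo `M` permutes these lines, and it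
acts freely, so that the number of its orbits is the number of lines divided by `φ(M)`. The
additional `1` is for the class of the intersection of `n / 2` hyperplanes. -/
noncomputable def rho (m : ℕ) {N : ℕ} (c : Fin N → ℤ) : ℕ :=
  1 + ∑ M ∈ m.divisors, Nat.card {b : Fin N → ZMod M //
    IsLine M b ∧ Pool.Agent.H916K.RationalClass M (pairs c b)} / M.totient

/-- The line of `b` is algebraic, by the following theorems: for a multiple `m'` of `M` the multiset
of the residues `(m' / M) * b_i` belongs to the smallest family of multisets of residues modulo `m'`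
which contains the Hodge characters with four entries and the curve products (unions of two
characters of curves, or of Fermat threefolds with empty Fine interior, which are Hodge
characters), the pairs `{a, -a}` and the standard characters of Aoki and Shioda, and which is closed
under union and under removing a pair `{a, -a}`. -/
def AlgebraicLine (M : ℕ) {N : ℕ} (b : Fin N → ZMod M) : Prop :=
  ∃ m' : ℕ, 0 < m' ∧ M ∣ m' ∧ Pool.Agent.H916R2.Generated m'
    (Pool.Agent.Y2.Cv.SurfaceOrCurveProduct m')
    (Finset.univ.val.map fun i => ((m' / M * (b i).val : ℕ) : ZMod m'))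

end Pool.Agent.L0h11
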