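import Mathlib
import Pool.Agent.N172.HS.Mn
import Pool.Agent.N134.HS.Nvq

/-!
# Hecke L-functions at `s = 1`
-/

set_option autoImplicit false
set_option linter.unusedSectionVars false

namespace Pool.Agent.L0h11

open Finset NumberField IsDedekindDomain Filter Topology Complex
open Pool.Agent.N172.HS (IsHecke StNvq EV EV_finsupp log_LI continuation_one nonvanishing)
open Pool.Agent.Y773 (LI)
open Pool.Agent.W540.BE (nm)
open Pool.Agent.H341R2 (sysK)

variable {K : Type} [Field K] [NumberField K]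

lemma finite_dvd {𝔣 : Ideal (𝓞 K)} (h : 𝔣 ≠ ⊥) :
    {v : HeightOneSpectrum (𝓞 K) | v.asIdeal ∣ 𝔣}.Finite := Ideal.finite_factors h

lemma hecke_norm_le {𝔣 : Ideal (𝓞 K)} {k : (K →+* ℂ) → ℤ} {t : (K →+* ℂ) → ℝ}
    {ψ : Ideal (𝓞 K) →*₀ ℂ} (h : IsHecke 𝔣 k t ψ) (𝔞 : Ideal (𝓞 K)) : ‖ψ 𝔞‖ ≤ 1 := by
  by_cases h0 : ψ 𝔞 = 0
  · rw [h0, norm_zero]; exact zero_le_one
  · exact (h.unit 𝔞 h0).le

lemma psi_eq_zero {𝔣 : Ideal (𝓞 K)} {k : (K →+* ℂ) → ℤ} {t : (K →+* ℂ) → ℝ}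
    {ψ : Ideal (𝓞 K) →*₀ ℂ} (h : IsHecke 𝔣 k t ψ) (v : HeightOneSpectrum (𝓞 K)) :
    ψ v.asIdeal = 0 ↔ v.asIdeal ∣ 𝔣 := by
  have h1 := h.supp v.asIdeal v.ne_bot
  rw [← not_iff_not, ← Ne, h1]
  constructor
  · intro h2 h3
    rw [Ideal.isCoprime_iff_sup_eq, sup_eq_left.2 (Ideal.dvd_iff_le.1 h3)] at h2
    exact v.isPrime.ne_top h2
  · intro h2
    rw [Ideal.isCoprime_iff_sup_eq]
    by_contra h3
    apply h2
    rw [Ideal.dvd_iff_le]
    have h4 := v.isMaximal.eq_of_le h3 le_sup_left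
    rw [h4]
    exact le_sup_right

/-- **the simple pole** of the L-function of a principal character -/
theorem principal_pole {𝔣 : Ideal (𝓞 K)} {k : (K →+* ℂ) → ℤ} {t : (K →+* ℂ) → ℝ}
    {ψ : Ideal (𝓞 K) →*₀ ℂ} (h : IsHecke 𝔣 k t ψ) (h1 : ∀ 𝔞, ψ 𝔞 ≠ 0 → ψ 𝔞 = 1) :
    ∃ G : ℂ → ℂ, AnalyticAt ℂ G 1 ∧ G 1 ≠ 0 ∧
      ∀ᶠ s : ℂ in 𝓝 1, 1 < s.re → G s = LI ψ s * (s - 1) := by
  classical
  obtain ⟨G, hG, hGL⟩ := continuation_one h h1
  refine ⟨G, hG, ?_, hGL⟩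
  intro hG0
  obtain ⟨C1, hC1⟩ := log_LI (hecke_norm_le h)
  obtain ⟨C2, hC2⟩ := (sysK K).lam_bounded
  -- the difference between the sums
  have hT := finite_dvd h.ne_bot
  set T := hT.toFinset with hTdef
  have h3 : ∀ ε : ℝ, 0 < ε → |EV K ε (fun v => (ψ v.asIdeal).re) - (sysK K).lam ε| ≤ T.card * 1 := by
    intro ε hε
    have h4 : (fun v : HeightOneSpectrum (𝓞 K) => (ψ v.asIdeal).re) =
        fun v => 1 + ((ψ v.asIdeal).re - 1) := by
      funext v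
      ring
    have hb : ∀ v : HeightOneSpectrum (𝓞 K), |(ψ v.asIdeal).re - 1| ≤ 1 := by
      intro v
      by_cases h0 : ψ v.asIdeal = 0
      · rw [h0]; norm_num
      · rw [h1 _ h0]; norm_num
    have h5 : EV K ε (fun v => (ψ v.asIdeal).re) =
        (sysK K).lam ε + EV K ε (fun v => (ψ v.asIdeal).re - 1) := by
      rw [h4]
      have h6 := (sysK K).E_add hε (φ := fun _ => 1) (ψ := fun v => (ψ v.asIdeal).re - 1)
        (B := 1) (B' := 1) (fun _ => by norm_num) hb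
      have h7 : (sysK K).E ε (fun _ => 1) = (sysK K).lam ε := by
        unfold Pool.Agent.H341R2.NormSys.E Pool.Agent.H341R2.NormSys.lam
        exact tsum_congr fun p => one_mul _
      rw [h7] at h6
      exact h6
    rw [h5, add_sub_cancel_left]
    refine EV_finsupp T (fun x hx => ?_) hb hε
    rw [hTdef, Set.Finite.mem_toFinset, Set.mem_setOf_eq, ← psi_eq_zero h] at hx
    rw [h1 _ hx]
    norm_num
  -- `G` vanishes to first order
  obtain ⟨p, hp⟩ := hG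
  have hdiff : DifferentiableAt ℂ G 1 := (hp.analyticAt).differentiableAt
  have hO := hdiff.hasDerivAt.isBigO_sub
  rw [hG0] at hO
  obtain ⟨C3, hC3⟩ := hO.bound
  have hpath : Tendsto (fun ε : ℝ => (1 : ℂ) + (ε : ℂ)) (𝓝[>] 0) (𝓝 (1 : ℂ)) := by
    have : Continuous (fun ε : ℝ => (1 : ℂ) + (ε : ℂ)) := by fun_prop
    have h0 := this.tendsto 0
    simp only [Complex.ofReal_zero, add_zero] at h0
    exact h0.mono_left nhdsWithin_le_nhds
  have hLL : Tendsto (fun ε : ℝ => -Real.log ε) (𝓝[>] 0) atTop := by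
    exact tendsto_neg_atBot_atTop.comp Real.tendsto_log_nhdsGT_zero
  have hev : ∀ᶠ ε : ℝ in 𝓝[>] 0, False := by
    filter_upwards [hpath.eventually hC3, hpath.eventually hGL, hC2, self_mem_nhdsWithin,
      hLL.eventually_gt_atTop (C1 + T.card * 1 + C2 + Real.log (|C3| + 1))] with ε e1 e2 e3 e4 e5
    have hε : (0 : ℝ) < ε := e4
    have e6 := e2 (by rw [add_re, one_re, ofReal_re]; linarith)
    rw [e6, sub_zero] at e1
    have e7 : ‖(1 : ℂ) + (ε : ℂ) - 1‖ = ε := by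
      rw [add_sub_cancel_left, Complex.norm_real, Real.norm_of_nonneg hε.le]
    rw [norm_mul, e7] at e1
    have e8 : ‖LI ψ (1 + (ε : ℂ))‖ ≤ |C3| + 1 := by
      have := le_of_mul_le_mul_right (e1.trans (mul_le_mul_of_nonneg_right (le_abs_self C3) hε.le)) hε
      linarith
    have e9 := hC1 ε hε
    have e10 := h3 ε hε
    by_cases hz : ‖LI ψ (1 + (ε : ℂ))‖ = 0
    · rw [hz, Real.log_zero, zero_sub, abs_neg] at e9
      have h7 := abs_le.1 e3
      have h8 := abs_le.1 e10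
      have h9 := (abs_le.1 e9)
      have h10 : 0 ≤ Real.log (|C3| + 1) := Real.log_nonneg (by linarith [abs_nonneg C3])
      linarith [h7.1, h8.1, h9.2]
    · have hpos : 0 < ‖LI ψ (1 + (ε : ℂ))‖ := lt_of_le_of_ne (norm_nonneg _) (Ne.symm hz)
      have h6 := Real.log_le_log hpos e8
      have h7 := abs_le.1 e3
      have h8 := abs_le.1 e10
      have h9 := abs_le.1 e9
      linarith [h7.1, h8.1, h9.1]
  obtain ⟨x, hx⟩ := hev.exists
  exact hx

/-- the Riemann zeta function near `1` -/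
theorem zeta_pole : ∃ G : ℂ → ℂ, AnalyticAt ℂ G 1 ∧ G 1 ≠ 0 ∧
    ∀ᶠ s : ℂ in 𝓝 1, 1 < s.re → G s = riemannZeta s * (s - 1) := by
  refine ⟨Function.update (fun s => (s - 1) * riemannZeta s) 1 1, ?_, ?_, ?_⟩
  · apply Complex.analyticAt_of_differentiable_on_punctured_nhds_of_continuousAt
    · rw [eventually_nhdsWithin_iff]
      refine Eventually.of_forall fun s hs => ?_
      have hs' : s ≠ 1 := hs
      have h1 : DifferentiableAt ℂ (fun s => (s - 1) * riemannZeta s) s :=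
        (differentiableAt_id.sub_const 1).mul (differentiableAt_riemannZeta hs')
      refine h1.congr_of_eventuallyEq ?_
      filter_upwards [isOpen_ne.mem_nhds hs'] with w hw
      exact Function.update_of_ne hw _ _
    · rw [continuousAt_update_same]
      exact riemannZeta_residue_one
  · rw [Function.update_self]
    exact one_ne_zero
  · refine Eventually.of_forall fun s hs => ?_
    have : s ≠ 1 := by
      rintro rfl
      rw [one_re] at hs
      exact lt_irrefl _ hs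
    rw [Function.update_of_ne this]
    ring

/-- the behaviour at `s = 1` of the L-function of a Hecke character -/
theorem hecke_pole {𝔣 : Ideal (𝓞 K)} {k : (K →+* ℂ) → ℤ} {t : (K →+* ℂ) → ℝ}
    {ψ : Ideal (𝓞 K) →*₀ ℂ} (h : IsHecke 𝔣 k t ψ) (r : ℕ)
    (hr : ((∀ 𝔞, ψ 𝔞 ≠ 0 → ψ 𝔞 = 1) ∧ r = 1) ∨ ((∃ 𝔞, ψ 𝔞 ≠ 0 ∧ ψ 𝔞 ≠ 1) ∧ r = 0)) :
    ∃ G : ℂ → ℂ, AnalyticAt ℂ G 1 ∧ G 1 ≠ 0 ∧
      ∀ᶠ s : ℂ in 𝓝 1, 1 < s.re → G s = LI ψ s * (s - 1) ^ r := by
  rcases hr with ⟨h1, rfl⟩ | ⟨h1, rfl⟩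
  · simp only [pow_one]
    exact principal_pole h h1
  · obtain ⟨G, hG, hG1, hGL⟩ := nonvanishing Pool.Agent.N134.HS.t_nvq h h1
    exact ⟨G, hG, hG1, Eventually.of_forall fun s hs => by rw [pow_zero, mul_one, hGL s hs]⟩

end Pool.Agent.L0h11
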