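import Mathlib
import Pool.Agent.L0h11.Pol
import Pool.Agent.Y773.HK.Eul

/-!
# The analytic core: from point counts to the order of the pole
-/

set_option autoImplicit false
set_option linter.unusedSectionVars false

namespace Pool.Agent.L0h11

open Finset NumberField IsDedekindDomain Filter Topology Complex
open Pool.Agent.N172.HS (IsHecke)
open Pool.Agent.Y773 (LI Ov zz prime_of_Ov Ov_iff bl bl_iff hasSum_log norm_zz_lt)
open Pool.Agent.Y772.DK (LI_eq_exp LA ee)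

section

variable (K : Type) [Field K] [NumberField K]

lemma finite_Ov (p : Nat.Primes) : (Ov K p).Finite := by
  have h4 : Ov K p ⊆ {𝔭 | 𝔭 ∣ Ideal.span {((p : ℕ) : 𝓞 K)}} := by
    intro 𝔭 h𝔭
    change 𝔭 ∣ _
    rw [Ideal.dvd_span_singleton]
    exact h𝔭.2
  refine (Pool.Agent.Y772.DK.finite_dvd ?_).subset h4
  rw [Ne, Ideal.zero_eq_bot, Ideal.span_singleton_eq_bot]
  exact_mod_cast p.2.ne_zero

/-- the primes above `p` -/
noncomputable def ov (p : Nat.Primes) : Finset (Ideal (𝓞 K)) := (finite_Ov K p).toFinset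

variable {K}

lemma mem_ov {p : Nat.Primes} {𝔭 : Ideal (𝓞 K)} : 𝔭 ∈ ov K p ↔ 𝔭 ∈ Ov K p := by
  unfold ov
  rw [Set.Finite.mem_toFinset]

lemma card_ov (p : Nat.Primes) : (ov K p).card ≤ Module.finrank ℚ K := by
  have hp0 : Ideal.span {((p : ℕ) : ℤ)} ≠ ⊥ := by
    rw [Ne, Ideal.span_singleton_eq_bot]
    exact_mod_cast p.2.ne_zero
  have hmax : (Ideal.span {((p : ℕ) : ℤ)}).IsMaximal :=
    PrincipalIdealRing.isMaximal_of_irreducible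
      (Nat.prime_iff_prime_int.mp p.2).irreducible
  have h1 : ov K p = IsDedekindDomain.primesOverFinset (Ideal.span {((p : ℕ) : ℤ)}) (𝓞 K) := by
    ext 𝔭
    rw [mem_ov, ← Finset.mem_coe, IsDedekindDomain.coe_primesOverFinset hp0]
    constructor
    · intro h
      exact (Ov_iff p.2 (prime_of_Ov p.2 h)).1 h
    · intro h
      have h2 : 𝔭.IsPrime := h.1
      have h3 : 𝔭 ≠ ⊥ := by
        rintro rfl
        have h4 := h.2.over
        apply hp0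
        rw [h4, Ideal.under, Ideal.comap_bot_of_injective]
        exact FaithfulSMul.algebraMap_injective ℤ (𝓞 K)
      exact (Ov_iff p.2 (Ideal.prime_of_isPrime h3 h2)).2 h
  rw [h1]
  have h2 := Ideal.card_primesOverFinset_le_finrank (R := ℤ) (S := 𝓞 K) ℚ K hp0
  exact h2

lemma absNorm_ov {p : Nat.Primes} {𝔭 : Ideal (𝓞 K)} (h : 𝔭 ∈ ov K p) :
    Ideal.absNorm 𝔭 = p ∨ (p : ℕ) ^ 2 ≤ Ideal.absNorm 𝔭 := by
  have h1 := (Ov_iff p.2 (prime_of_Ov p.2 (mem_ov.1 h))).1 (mem_ov.1 h)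
  have := h1.2
  have h2 : 𝔭.IsPrime := h1.1
  have hne : 𝔭 ≠ ⊥ := (prime_of_Ov p.2 (mem_ov.1 h)).ne_zero
  have : 𝔭.IsMaximal := h2.isMaximal hne
  have h3 : Ideal.absNorm 𝔭 ∣ (p : ℕ) ^ Module.finrank ℤ (𝓞 K) := by
    have h4 : 𝔭 ∣ Ideal.span {((p : ℕ) : 𝓞 K)} := by
      rw [Ideal.dvd_span_singleton]
      exact (mem_ov.1 h).2
    have h5 := map_dvd Ideal.absNorm h4
    rw [Ideal.absNorm_span_singleton] at h5
    have h6 : (Algebra.norm ℤ ((p : ℕ) : 𝓞 K)) = ((p : ℕ) : ℤ) ^ Module.finrank ℤ (𝓞 K) := by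
      have := Algebra.norm_algebraMap (R := ℤ) (S := 𝓞 K) (((p : ℕ) : ℤ))
      simpa using this
    rw [h6, Int.natAbs_pow, Int.natAbs_natCast] at h5
    exact h5
  obtain ⟨k, -, hk⟩ := (Nat.dvd_prime_pow p.2).1 h3
  have hk0 : k ≠ 0 := by
    rintro rfl
    rw [pow_zero, Ideal.absNorm_eq_one_iff] at hk
    exact h2.ne_top hk
  by_cases hk1 : k = 1
  · left
    rw [hk, hk1, pow_one]
  · right
    rw [hk]
    exact Nat.pow_le_pow_right p.2.pos (by omega)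

lemma hasSum_logs {ψ : Ideal (𝓞 K) →*₀ ℂ} (hψ : ∀ 𝔞, ‖ψ 𝔞‖ ≤ 1) {s : ℂ} (hs : 1 < s.re) :
    HasSum (fun p : Nat.Primes => ∑ 𝔭 ∈ ov K p, -Complex.log (1 - zz ψ s 𝔭)) (LA (ee ψ) s) := by
  classical
  have h1 := hasSum_log hψ hs
  have h2 := h1.tsum_fiberwise bl
  refine h2.congr_fun fun p => ?_
  have hfin' : Finite (Ov K p) := finite_Ov K p
  let e : (bl ⁻¹' {p} : Set {𝔭 : Ideal (𝓞 K) // Prime 𝔭}) ≃ ov K p :=
    { toFun := fun 𝔭 => ⟨𝔭.1.1, mem_ov.2 ((bl_iff 𝔭.1 p).mp 𝔭.2)⟩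
      invFun := fun x => ⟨⟨x.1, prime_of_Ov p.2 (mem_ov.1 x.2)⟩, (bl_iff _ p).mpr (mem_ov.1 x.2)⟩
      left_inv := fun 𝔭 => rfl
      right_inv := fun x => rfl }
  have hfin2 : Finite (bl ⁻¹' {p} : Set {𝔭 : Ideal (𝓞 K) // Prime 𝔭}) := Finite.of_equiv _ e.symm
  have := Fintype.ofFinite (bl ⁻¹' {p} : Set {𝔭 : Ideal (𝓞 K) // Prime 𝔭})
  rw [tsum_fintype, ← Finset.sum_coe_sort (ov K p), ← Equiv.sum_comp e]
  rfl

end

/-! ### Local estimates -/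

/-- the logarithm of the local factor -/
noncomputable def TT (τ : ℕ → ℂ) (x : ℂ) : ℂ := ∑' k : ℕ, τ (k + 1) * x ^ (k + 1) / ((k + 1 : ℕ) : ℂ)

lemma TT_bound_term {τ : ℕ → ℂ} {C : ℝ} (hC : ∀ k, 1 ≤ k → ‖τ k‖ ≤ C) (x : ℂ) (k : ℕ) :
    ‖τ (k + 1) * x ^ (k + 1) / ((k + 1 : ℕ) : ℂ)‖ ≤ C * ‖x‖ ^ (k + 1) := by
  rw [norm_div, norm_mul, norm_pow, Complex.norm_natCast]
  have h0 : 0 ≤ C := (norm_nonneg _).trans (hC 1 le_rfl)
  have h1 : (1 : ℝ) ≤ ((k + 1 : ℕ) : ℝ) := by exact_mod_cast Nat.le_add_left 1 k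
  calc ‖τ (k + 1)‖ * ‖x‖ ^ (k + 1) / ((k + 1 : ℕ) : ℝ) ≤ ‖τ (k + 1)‖ * ‖x‖ ^ (k + 1) :=
        div_le_self (by positivity) h1
    _ ≤ C * ‖x‖ ^ (k + 1) := by
        gcongr
        exact hC _ (by omega)

lemma TT_summable {τ : ℕ → ℂ} {C : ℝ} (hC : ∀ k, 1 ≤ k → ‖τ k‖ ≤ C) {x : ℂ} (hx : ‖x‖ < 1) :
    Summable fun k : ℕ => τ (k + 1) * x ^ (k + 1) / ((k + 1 : ℕ) : ℂ) := by
  refine Summable.of_norm_bounded (g := fun k => C * ‖x‖ ^ (k + 1)) ?_ (TT_bound_term hC x)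
  exact (((summable_geometric_of_lt_one (norm_nonneg _) hx).mul_right ‖x‖).mul_left C)

lemma TT_est {τ : ℕ → ℂ} {C : ℝ} (hC : ∀ k, 1 ≤ k → ‖τ k‖ ≤ C) {x : ℂ} (hx : ‖x‖ ≤ 3 / 5) :
    ‖TT τ x - τ 1 * x‖ ≤ 3 * C * ‖x‖ ^ 2 := by
  have hx1 : ‖x‖ < 1 := by linarith
  have h0 : 0 ≤ C := (norm_nonneg _).trans (hC 1 le_rfl)
  have h1 := TT_summable hC hx1
  unfold TT
  rw [h1.tsum_eq_zero_add]
  simp only [zero_add, pow_one, Nat.cast_one, div_one, add_sub_cancel_left]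
  have h2 : ∀ k : ℕ, ‖τ (k + 1 + 1) * x ^ (k + 1 + 1) / ((k + 1 + 1 : ℕ) : ℂ)‖ ≤
      C * ‖x‖ ^ 2 * ‖x‖ ^ k := by
    intro k
    refine (TT_bound_term hC x (k + 1)).trans (le_of_eq ?_)
    ring
  have h3 : HasSum (fun k : ℕ => C * ‖x‖ ^ 2 * ‖x‖ ^ k) (C * ‖x‖ ^ 2 * (1 - ‖x‖)⁻¹) :=
    (hasSum_geometric_of_lt_one (norm_nonneg _) hx1).mul_left _
  refine (tsum_of_norm_bounded h3 h2).trans ?_
  have h4 : (1 - ‖x‖)⁻¹ ≤ 3 := by
    rw [inv_le_comm₀ (by linarith) (by norm_num)]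
    linarith
  nlinarith [mul_nonneg h0 (sq_nonneg ‖x‖)]

lemma log_est {x : ℂ} (hx : ‖x‖ ≤ 3 / 5) : ‖Complex.log (1 - x) + x‖ ≤ 2 * ‖x‖ ^ 2 := by
  have h1 := Complex.norm_log_one_add_sub_self_le (z := -x) (by rw [norm_neg]; linarith)
  rw [norm_neg] at h1
  have h2 : Complex.log (1 + -x) - -x = Complex.log (1 - x) + x := by
    rw [← sub_eq_add_neg, sub_neg_eq_add]
  rw [h2] at h1
  refine h1.trans ?_
  have h4 : (1 - ‖x‖)⁻¹ ≤ 3 := by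
    rw [inv_le_comm₀ (by linarith) (by norm_num)]
    linarith
  nlinarith [sq_nonneg ‖x‖]

lemma log_est' {x : ℂ} (hx : ‖x‖ ≤ 3 / 5) : ‖Complex.log (1 - x)‖ ≤ 3 * ‖x‖ := by
  have h1 := log_est hx
  have h2 : ‖Complex.log (1 - x)‖ ≤ ‖Complex.log (1 - x) + x‖ + ‖x‖ := by
    have := norm_sub_le (Complex.log (1 - x) + x) x
    rwa [add_sub_cancel_right] at this
  nlinarith [norm_nonneg x]

/-- norms of the local parameters -/
lemma norm_par {n : ℕ} (hn : 2 ≤ n) {z : ℂ} (hz : 3 / 4 ≤ z.re) {a : ℂ} (ha : ‖a‖ ≤ 1) :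
    ‖a * (n : ℂ) ^ (-z)‖ ≤ (n : ℝ) ^ (-(3 / 4) : ℝ) := by
  rw [norm_mul, Complex.norm_natCast_cpow_of_pos (by omega)]
  calc ‖a‖ * (n : ℝ) ^ (-z).re ≤ 1 * (n : ℝ) ^ (-z).re := by gcongr
    _ = (n : ℝ) ^ (-z).re := one_mul _
    _ ≤ (n : ℝ) ^ (-(3 / 4) : ℝ) := by
        apply Real.rpow_le_rpow_of_exponent_le
        · exact_mod_cast (by omega : 1 ≤ n)
        · rw [neg_re]; linarith

lemma par_le {n : ℕ} (hn : 2 ≤ n) : (n : ℝ) ^ (-(3 / 4) : ℝ) ≤ 3 / 5 := by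
  have h1 : (n : ℝ) ^ (-(3 / 4) : ℝ) ≤ (2 : ℝ) ^ (-(3 / 4) : ℝ) := by
    apply Real.rpow_le_rpow_of_nonpos (by norm_num) (by exact_mod_cast hn) (by norm_num)
  refine h1.trans ?_
  rw [Real.rpow_neg (by norm_num)]
  rw [inv_le_comm₀ (by positivity) (by norm_num)]
  have h2 : ((3 / 5 : ℝ)⁻¹) ^ (4 : ℝ) ≤ ((2 : ℝ) ^ (3 / 4 : ℝ)) ^ (4 : ℝ) := by
    rw [← Real.rpow_mul (by norm_num)]
    norm_num
  exact (Real.rpow_le_rpow_iff (by norm_num) (by positivity) (by norm_num)).1 h2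

lemma par_sq {n : ℕ} : ((n : ℝ) ^ (-(3 / 4) : ℝ)) ^ 2 = (n : ℝ) ^ (-(3 / 2) : ℝ) := by
  rw [← Real.rpow_natCast, ← Real.rpow_mul (Nat.cast_nonneg n)]
  norm_num

lemma par_sq' {p n : ℕ} (hp : 2 ≤ p) (hn : p ^ 2 ≤ n) :
    (n : ℝ) ^ (-(3 / 4) : ℝ) ≤ (p : ℝ) ^ (-(3 / 2) : ℝ) := by
  have h1 : (n : ℝ) ^ (-(3 / 4) : ℝ) ≤ ((p ^ 2 : ℕ) : ℝ) ^ (-(3 / 4) : ℝ) := by
    apply Real.rpow_le_rpow_of_nonpos (by positivity) (by exact_mod_cast hn) (by norm_num)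
  refine h1.trans (le_of_eq ?_)
  rw [Nat.cast_pow, ← Real.rpow_natCast, ← Real.rpow_mul (Nat.cast_nonneg p)]
  norm_num

lemma TT_diff {τ : ℕ → ℂ} {C : ℝ} (hC : ∀ k, 1 ≤ k → ‖τ k‖ ≤ C) :
    DifferentiableOn ℂ (TT τ) (Metric.ball 0 (4 / 5)) := by
  have h0 : 0 ≤ C := (norm_nonneg _).trans (hC 1 le_rfl)
  refine differentiableOn_tsum_of_summable_norm (u := fun k => C * (4 / 5 : ℝ) ^ (k + 1)) ?_ ?_
    Metric.isOpen_ball ?_
  · simp_rw [pow_succ]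
    exact (((summable_geometric_of_lt_one (by norm_num) (by norm_num)).mul_right _).mul_left C)
  · intro k
    fun_prop
  · intro k x hx
    rw [Metric.mem_ball, dist_zero_right] at hx
    refine (TT_bound_term hC x k).trans ?_
    gcongr

section

variable {ι : Type} [Fintype ι] (K : ι → Type) [∀ i, Field (K i)] [∀ i, NumberField (K i)]
  (ψ : ∀ i, Ideal (𝓞 (K i)) →*₀ ℂ) (τ : Nat.Primes → ℕ → ℂ) (S : Finset ℕ) (a : ℕ)

/-- the logarithm of the quotient of the local factors -/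
noncomputable def lp (p : Nat.Primes) (z : ℂ) : ℂ :=
  (if (p : ℕ) ∈ S then 0 else TT (τ p) (((p : ℕ) : ℂ) ^ (-z))) +
    (a : ℂ) * Complex.log (1 - ((p : ℕ) : ℂ) ^ (-z)) +
    ∑ i, ∑ 𝔭 ∈ ov (K i) p, Complex.log (1 - zz (ψ i) z 𝔭)

lemma norm_p (p : Nat.Primes) {z : ℂ} (hz : 3 / 4 ≤ z.re) :
    ‖((p : ℕ) : ℂ) ^ (-z)‖ ≤ ((p : ℕ) : ℝ) ^ (-(3 / 4) : ℝ) := by
  have := norm_par p.2.two_le hz (a := 1) (by rw [norm_one])
  rwa [one_mul] at this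

lemma norm_zz {K : Type} [Field K] [NumberField K] {ψ : Ideal (𝓞 K) →*₀ ℂ}
    (hψ : ∀ 𝔞, ‖ψ 𝔞‖ ≤ 1) {p : Nat.Primes} {𝔭 : Ideal (𝓞 K)} (h : 𝔭 ∈ ov K p) {z : ℂ}
    (hz : 3 / 4 ≤ z.re) : ‖zz ψ z 𝔭‖ ≤ ((Ideal.absNorm 𝔭 : ℕ) : ℝ) ^ (-(3 / 4) : ℝ) := by
  have h2 : 2 ≤ Ideal.absNorm 𝔭 := by
    rcases absNorm_ov h with h1 | h1
    · rw [h1]; exact p.2.two_le
    · have := p.2.two_le
      nlinarith
  exact norm_par h2 hz (hψ 𝔭)

lemma norm_zz' {K : Type} [Field K] [NumberField K] {ψ : Ideal (𝓞 K) →*₀ ℂ}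
    (hψ : ∀ 𝔞, ‖ψ 𝔞‖ ≤ 1) {p : Nat.Primes} {𝔭 : Ideal (𝓞 K)} (h : 𝔭 ∈ ov K p) {z : ℂ}
    (hz : 3 / 4 ≤ z.re) : ‖zz ψ z 𝔭‖ ≤ 3 / 5 := by
  have h2 : 2 ≤ Ideal.absNorm 𝔭 := by
    rcases absNorm_ov h with h1 | h1
    · rw [h1]; exact p.2.two_le
    · have := p.2.two_le
      nlinarith
  exact (norm_zz hψ h hz).trans (par_le h2)

variable {ψ}

/-- the constant for the bad primes -/
lemma lp_bad {C : ℝ} (hψ : ∀ i 𝔞, ‖ψ i 𝔞‖ ≤ 1) (p : Nat.Primes)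
    (hC : ∀ k, 1 ≤ k → ‖τ p k‖ ≤ C)
    {z : ℂ} (hz : 3 / 4 ≤ z.re) :
    ‖lp K ψ τ S a p z‖ ≤ 5 * C + a * 2 + ∑ i, (Module.finrank ℚ (K i) : ℝ) * 2 := by
  unfold lp
  have hp := (norm_p p hz).trans (par_le p.2.two_le)
  have h0 : 0 ≤ C := (norm_nonneg _).trans (hC 1 le_rfl)
  refine norm_add₃_le.trans ?_
  gcongr
  · split_ifs
    · rw [norm_zero]; positivity
    · have h1 := TT_est hC hp
      have h2 : ‖TT (τ p) (((p : ℕ) : ℂ) ^ (-z))‖ ≤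
          ‖TT (τ p) (((p : ℕ) : ℂ) ^ (-z)) - τ p 1 * ((p : ℕ) : ℂ) ^ (-z)‖ +
            ‖τ p 1 * ((p : ℕ) : ℂ) ^ (-z)‖ := by
        have := norm_add_le (TT (τ p) (((p : ℕ) : ℂ) ^ (-z)) - τ p 1 * ((p : ℕ) : ℂ) ^ (-z))
          (τ p 1 * ((p : ℕ) : ℂ) ^ (-z))
        rwa [sub_add_cancel] at this
      rw [norm_mul] at h2
      have h3 := hC 1 le_rfl
      have h4 : ‖τ p 1‖ * ‖((p : ℕ) : ℂ) ^ (-z)‖ ≤ C * 1 := by
        apply mul_le_mul h3 (hp.trans (by norm_num)) (norm_nonneg _) h0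
      have h5 : ‖((p : ℕ) : ℂ) ^ (-z)‖ ^ 2 ≤ 1 := by
        apply pow_le_one₀ (norm_nonneg _) (hp.trans (by norm_num))
      nlinarith [mul_le_mul_of_nonneg_left h5 (mul_nonneg (by norm_num : (0:ℝ) ≤ 3) h0)]
  · rw [norm_mul, Complex.norm_natCast]
    gcongr
    refine (log_est' hp).trans ?_
    linarith
  · refine (norm_sum_le _ _).trans ?_
    gcongr with i
    refine (norm_sum_le _ _).trans ?_
    calc ∑ 𝔭 ∈ ov (K i) p, ‖Complex.log (1 - zz (ψ i) z 𝔭)‖ ≤ ∑ 𝔭 ∈ ov (K i) p, (2 : ℝ) := by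
          refine sum_le_sum fun 𝔭 h𝔭 => ?_
          have h1 := norm_zz' (hψ i) h𝔭 hz
          refine (log_est' h1).trans ?_
          linarith
      _ = (ov (K i) p).card * 2 := by rw [sum_const, nsmul_eq_mul]
      _ ≤ (Module.finrank ℚ (K i) : ℝ) * 2 := by
          gcongr
          exact card_ov p

lemma lp_good {C : ℝ} (hψ : ∀ i 𝔞, ‖ψ i 𝔞‖ ≤ 1) (p : Nat.Primes) (hp : (p : ℕ) ∉ S)
    (hC : ∀ k, 1 ≤ k → ‖τ p k‖ ≤ C)
    (hτ : τ p 1 = a + ∑ i, ∑ 𝔭 ∈ (ov (K i) p).filter (fun 𝔭 => Ideal.absNorm 𝔭 = p), ψ i 𝔭)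
    {z : ℂ} (hz : 3 / 4 ≤ z.re) :
    ‖lp K ψ τ S a p z‖ ≤ (3 * C + a * 2 + ∑ i, (Module.finrank ℚ (K i) : ℝ) * 3) *
      ((p : ℕ) : ℝ) ^ (-(3 / 2) : ℝ) := by
  classical
  set x : ℂ := ((p : ℕ) : ℂ) ^ (-z) with hx
  have hx1 := norm_p p hz
  have hx2 : ‖x‖ ≤ 3 / 5 := hx1.trans (par_le p.2.two_le)
  have hx3 : ‖x‖ ^ 2 ≤ ((p : ℕ) : ℝ) ^ (-(3 / 2) : ℝ) := by
    rw [← par_sq]
    exact pow_le_pow_left₀ (norm_nonneg _) hx1 2
  have h0 : 0 ≤ C := (norm_nonneg _).trans (hC 1 le_rfl)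
  have e1 : lp K ψ τ S a p z = (TT (τ p) x - τ p 1 * x) + (a : ℂ) * (Complex.log (1 - x) + x) +
      ∑ i, ∑ 𝔭 ∈ ov (K i) p, (Complex.log (1 - zz (ψ i) z 𝔭) +
        if Ideal.absNorm 𝔭 = p then ψ i 𝔭 * x else 0) := by
    unfold lp
    rw [if_neg hp, hτ]
    simp_rw [sum_add_distrib, ← sum_filter, ← sum_mul]
    rw [← hx]
    ring
  rw [e1, add_mul, add_mul]
  refine norm_add₃_le.trans ?_
  gcongr
  · refine (TT_est hC hx2).trans ?_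
    gcongr
  · rw [norm_mul, Complex.norm_natCast, mul_assoc]
    gcongr
    refine (log_est hx2).trans ?_
    gcongr
  · refine (norm_sum_le _ _).trans ?_
    rw [sum_mul]
    gcongr with i
    refine (norm_sum_le _ _).trans ?_
    calc ∑ 𝔭 ∈ ov (K i) p, ‖Complex.log (1 - zz (ψ i) z 𝔭) +
        (if Ideal.absNorm 𝔭 = p then ψ i 𝔭 * x else 0)‖
        ≤ ∑ 𝔭 ∈ ov (K i) p, 3 * ((p : ℕ) : ℝ) ^ (-(3 / 2) : ℝ) := by
          refine sum_le_sum fun 𝔭 h𝔭 => ?_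
          rcases absNorm_ov h𝔭 with h1 | h1
          · rw [if_pos h1]
            have h2 : ψ i 𝔭 * x = zz (ψ i) z 𝔭 := by
              unfold zz
              rw [h1]
            rw [h2]
            refine (log_est (norm_zz' (hψ i) h𝔭 hz)).trans ?_
            have h3 := norm_zz (hψ i) h𝔭 hz
            rw [h1] at h3
            have h4 : ‖zz (ψ i) z 𝔭‖ ^ 2 ≤ ((p : ℕ) : ℝ) ^ (-(3 / 2) : ℝ) := by
              rw [← par_sq]
              exact pow_le_pow_left₀ (norm_nonneg _) h3 2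
            nlinarith [sq_nonneg ‖zz (ψ i) z 𝔭‖]
          · have h2 : Ideal.absNorm 𝔭 ≠ p := by
              intro h3
              rw [h3] at h1
              have := p.2.two_le
              nlinarith
            rw [if_neg h2, add_zero]
            refine (log_est' (norm_zz' (hψ i) h𝔭 hz)).trans ?_
            gcongr
            exact (norm_zz (hψ i) h𝔭 hz).trans (par_sq' p.2.two_le h1)
      _ = (ov (K i) p).card * (3 * ((p : ℕ) : ℝ) ^ (-(3 / 2) : ℝ)) := by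
          rw [sum_const, nsmul_eq_mul]
      _ ≤ (Module.finrank ℚ (K i) : ℝ) * (3 * ((p : ℕ) : ℝ) ^ (-(3 / 2) : ℝ)) := by
          gcongr
          exact card_ov p
      _ = (Module.finrank ℚ (K i) : ℝ) * 3 * ((p : ℕ) : ℝ) ^ (-(3 / 2) : ℝ) := by ring

lemma slit {x : ℂ} (hx : ‖x‖ < 1) : 1 - x ∈ Complex.slitPlane := by
  have := Complex.mem_slitPlane_of_norm_lt_one (z := -x) (by rwa [norm_neg])
  rwa [← sub_eq_add_neg] at this

lemma lp_diff {C : ℝ} (hψ : ∀ i 𝔞, ‖ψ i 𝔞‖ ≤ 1) (p : Nat.Primes)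
    (hC : ∀ k, 1 ≤ k → ‖τ p k‖ ≤ C) :
    DifferentiableOn ℂ (lp K ψ τ S a p) {z | 3 / 4 < z.re} := by
  have hpar : ∀ n : ℕ, 2 ≤ n → Differentiable ℂ (fun z : ℂ => (n : ℂ) ^ (-z)) := by
    intro n hn z
    apply DifferentiableAt.const_cpow (by fun_prop)
    left
    exact_mod_cast (by omega : n ≠ 0)
  unfold lp
  intro z hz
  have hz' : 3 / 4 ≤ z.re := le_of_lt hz
  have hp := (norm_p p hz').trans (par_le p.2.two_le)
  apply DifferentiableAt.differentiableWithinAt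
  refine DifferentiableAt.fun_add (DifferentiableAt.fun_add ?_ ?_) ?_
  · split_ifs
    · fun_prop
    · refine DifferentiableAt.comp (g := TT (τ p)) z ?_ (hpar p p.2.two_le z)
      exact (TT_diff hC).differentiableAt (Metric.isOpen_ball.mem_nhds (by
        rw [Metric.mem_ball, dist_zero_right]; linarith))
  · have h1 : DifferentiableAt ℂ (fun z : ℂ => Complex.log (1 - ((p : ℕ) : ℂ) ^ (-z))) z := by
      refine DifferentiableAt.clog ?_ (slit (by linarith))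
      exact (differentiableAt_const _).sub (hpar p p.2.two_le z)
    exact h1.const_mul (a : ℂ)
  · refine DifferentiableAt.fun_sum fun i _ => DifferentiableAt.fun_sum fun 𝔭 h𝔭 => ?_
    have h2 : 2 ≤ Ideal.absNorm 𝔭 := by
      rcases absNorm_ov h𝔭 with h1 | h1
      · rw [h1]; exact p.2.two_le
      · have := p.2.two_le
        nlinarith
    refine DifferentiableAt.clog ?_ (slit ?_)
    · unfold zz
      exact (differentiableAt_const _).sub ((differentiableAt_const _).mul (hpar _ h2 z))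
    · have := norm_zz' (hψ i) h𝔭 hz'
      linarith

/-- the sum of the logarithms is analytic to the right of `3 / 4` -/
lemma core_aux {C : ℝ} (hψ : ∀ i 𝔞, ‖ψ i 𝔞‖ ≤ 1)
    (hC : ∀ p : Nat.Primes, ∀ k, 1 ≤ k → ‖τ p k‖ ≤ C)
    (hτ : ∀ p : Nat.Primes, (p : ℕ) ∉ S → τ p 1 = a + ∑ i,
      ∑ 𝔭 ∈ (ov (K i) p).filter (fun 𝔭 => Ideal.absNorm 𝔭 = p), ψ i 𝔭) :
    (∀ z : ℂ, 3 / 4 < z.re → Summable fun p => lp K ψ τ S a p z) ∧
      DifferentiableOn ℂ (fun z => ∑' p, lp K ψ τ S a p z) {z | 3 / 4 < z.re} := by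
  classical
  have h0 : 0 ≤ C := (norm_nonneg _).trans (hC ⟨2, Nat.prime_two⟩ 1 le_rfl)
  set B : ℝ := 5 * C + a * 2 + ∑ i, (Module.finrank ℚ (K i) : ℝ) * 2 with hB
  set D : ℝ := 3 * C + a * 2 + ∑ i, (Module.finrank ℚ (K i) : ℝ) * 3 with hD
  have hD0 : 0 ≤ D := by positivity
  have hB0 : 0 ≤ B := by positivity
  set u : Nat.Primes → ℝ := fun p => (if (p : ℕ) ∈ S then B else 0) +
    D * ((p : ℕ) : ℝ) ^ (-(3 / 2) : ℝ) with hu
  have hsu : Summable u := by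
    refine Summable.add ?_ ?_
    · apply summable_of_hasFiniteSupport
      have hfin : Set.Finite {p : Nat.Primes | (p : ℕ) ∈ S} := by
        have : Set.InjOn (fun p : Nat.Primes => (p : ℕ)) ((fun p : Nat.Primes => (p : ℕ)) ⁻¹' (S : Set ℕ)) :=
          fun a _ b _ h => Subtype.ext h
        exact S.finite_toSet.preimage this
      refine hfin.subset fun p hp => ?_
      rw [Function.mem_support] at hp
      by_contra h
      exact hp (if_neg h)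
    · exact ((Nat.Primes.summable_rpow).2 (by norm_num)).mul_left D
  have hb : ∀ p (z : ℂ), z ∈ {z : ℂ | 3 / 4 < z.re} → ‖lp K ψ τ S a p z‖ ≤ u p := by
    intro p z hz
    have hz' : 3 / 4 ≤ z.re := le_of_lt hz
    by_cases hp : (p : ℕ) ∈ S
    · rw [hu]
      simp only [if_pos hp]
      have := lp_bad K τ S a hψ p (hC p) hz'
      have h2 : 0 ≤ D * ((p : ℕ) : ℝ) ^ (-(3 / 2) : ℝ) := by positivity
      linarith
    · rw [hu]
      simp only [if_neg hp, zero_add]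
      exact lp_good K τ S a hψ p hp (hC p) (hτ p hp) hz'
  refine ⟨fun z hz => Summable.of_norm_bounded hsu (fun p => hb p z hz), ?_⟩
  refine differentiableOn_tsum_of_summable_norm hsu (fun p => lp_diff K τ S a hψ p (hC p)) ?_ hb
  exact isOpen_lt continuous_const continuous_re

theorem core {𝔣 : ∀ i, Ideal (𝓞 (K i))} {kk : ∀ i, (K i →+* ℂ) → ℤ} {tt : ∀ i, (K i →+* ℂ) → ℝ}
    (h : ∀ i, IsHecke (𝔣 i) (kk i) (tt i) (ψ i)) (r : ι → ℕ)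
    (hr : ∀ i, ((∀ 𝔞, ψ i 𝔞 ≠ 0 → ψ i 𝔞 = 1) ∧ r i = 1) ∨
      ((∃ 𝔞, ψ i 𝔞 ≠ 0 ∧ ψ i 𝔞 ≠ 1) ∧ r i = 0)) {C : ℝ}
    (hC : ∀ p : Nat.Primes, (p : ℕ) ∉ S → ∀ k, 1 ≤ k → ‖τ p k‖ ≤ C)
    (hτ : ∀ p : Nat.Primes, (p : ℕ) ∉ S → τ p 1 = a + ∑ i,
      ∑ 𝔭 ∈ (ov (K i) p).filter (fun 𝔭 => Ideal.absNorm 𝔭 = p), ψ i 𝔭) :
    (∀ z : ℂ, 1 < z.re → Multipliable fun p : Nat.Primes =>
      if (p : ℕ) ∈ S then (1 : ℂ) else Complex.exp (TT (τ p) (((p : ℕ) : ℂ) ^ (-z)))) ∧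
    ∃ G : ℂ → ℂ, AnalyticAt ℂ G 1 ∧ G 1 ≠ 0 ∧ ∀ᶠ z : ℂ in 𝓝 1, 1 < z.re →
      (∏' p : Nat.Primes, if (p : ℕ) ∈ S then (1 : ℂ) else
        Complex.exp (TT (τ p) (((p : ℕ) : ℂ) ^ (-z)))) * (z - 1) ^ (a + ∑ i, r i) = G z := by
  classical
  have hψ : ∀ i 𝔞, ‖ψ i 𝔞‖ ≤ 1 := fun i => hecke_norm_le (h i)
  -- change `τ` at the bad primes
  set τ' : Nat.Primes → ℕ → ℂ := fun p k => if (p : ℕ) ∈ S then 0 else τ p k with hτ'
  have hτe : ∀ p : Nat.Primes, (p : ℕ) ∉ S → τ' p = τ p := by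
    intro p hp
    funext k
    rw [hτ']
    simp only [if_neg hp]
  have hC' : ∀ p : Nat.Primes, ∀ k, 1 ≤ k → ‖τ' p k‖ ≤ max C 0 := by
    intro p k hk
    by_cases hp : (p : ℕ) ∈ S
    · rw [hτ']
      simp only [if_pos hp, norm_zero]
      exact le_max_right _ _
    · rw [hτe _ hp]
      exact (hC p hp k hk).trans (le_max_left _ _)
  obtain ⟨hs1, hs2⟩ := core_aux K τ' S a hψ hC' (fun p hp => by rw [hτe _ hp]; exact hτ p hp)
  set Lf : ℂ → ℂ := fun z => ∑' p, lp K ψ τ' S a p z with hLf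
  have key : ∀ z : ℂ, 1 < z.re → HasProd (fun p : Nat.Primes =>
      if (p : ℕ) ∈ S then (1 : ℂ) else Complex.exp (TT (τ p) (((p : ℕ) : ℂ) ^ (-z))))
      (Complex.exp (Lf z) * riemannZeta z ^ a * ∏ i, LI (ψ i) z) := by
    intro z hz
    have h1 : HasSum (fun p => lp K ψ τ' S a p z) (Lf z) := (hs1 z (by linarith)).hasSum
    have h2 : HasSum (fun p : Nat.Primes => -Complex.log (1 - ((p : ℕ) : ℂ) ^ (-z)))
        (∑' p : Nat.Primes, -Complex.log (1 - ((p : ℕ) : ℂ) ^ (-z))) := by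
      apply Summable.hasSum
      have h3 := DirichletCharacter.summable_neg_log_one_sub_mul_prime_cpow
        (1 : DirichletCharacter ℂ 1) hz
      refine h3.congr fun p => ?_
      rw [MulChar.one_apply (isUnit_of_subsingleton _), one_mul]
    have h3 : HasSum (fun p : Nat.Primes => ∑ i, ∑ 𝔭 ∈ ov (K i) p,
        -Complex.log (1 - zz (ψ i) z 𝔭)) (∑ i, LA (ee (ψ i)) z) :=
      hasSum_sum fun i _ => hasSum_logs (hψ i) hz
    have h4 := (h1.add ((h2.mul_left (a : ℂ)).add h3)).cexp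
    rw [Complex.exp_add, Complex.exp_add, Complex.exp_nat_mul, riemannZeta_eulerProduct_exp_log hz,
      Complex.exp_sum, ← mul_assoc] at h4
    have h5 : ∏ i, Complex.exp (LA (ee (ψ i)) z) = ∏ i, LI (ψ i) z :=
      prod_congr rfl fun i _ => (LI_eq_exp (ψ i) (hψ i) hz).symm
    rw [h5] at h4
    refine h4.congr_fun fun p => ?_
    simp only [Function.comp_apply]
    unfold lp
    simp_rw [sum_neg_distrib]
    by_cases hp : (p : ℕ) ∈ S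
    · rw [if_pos hp, if_pos hp]
      rw [eq_comm, Complex.exp_eq_one_iff]
      exact ⟨0, by push_cast; ring⟩
    · rw [if_neg hp, if_neg hp, hτe _ hp]
      congr 1
      ring
  refine ⟨fun z hz => (key z hz).multipliable, ?_⟩
  obtain ⟨G0, hG0, hG01, hG0L⟩ := zeta_pole
  choose G hG hG1 hGL using fun i => hecke_pole (h i) (r i) (hr i)
  refine ⟨fun z => Complex.exp (Lf z) * G0 z ^ a * ∏ i, G i z, ?_, ?_, ?_⟩
  · refine AnalyticAt.fun_mul (AnalyticAt.fun_mul (AnalyticAt.cexp ?_) (hG0.fun_pow a)) ?_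
    · refine hs2.analyticAt (IsOpen.mem_nhds (isOpen_lt continuous_const continuous_re) ?_)
      rw [Set.mem_ofPred_eq, one_re]
      norm_num
    · exact Finset.analyticAt_fun_prod _ fun i _ => hG i
  · refine mul_ne_zero (mul_ne_zero (Complex.exp_ne_zero _) (pow_ne_zero _ hG01)) ?_
    exact prod_ne_zero_iff.2 fun i _ => hG1 i
  · have hall : ∀ᶠ z : ℂ in 𝓝 1, ∀ i, 1 < z.re → G i z = LI (ψ i) z * (z - 1) ^ r i :=
      eventually_all.2 hGL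
    filter_upwards [hG0L, hall] with z hz1 hz2 hz
    rw [(key z hz).tprod_eq, hz1 hz, prod_congr rfl fun i _ => hz2 i hz, prod_mul_distrib,
      prod_pow_eq_pow_sum, pow_add, mul_pow]
    ring

end

end Pool.Agent.L0h11
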