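import Mathlib

/-!
# Cyclotomic fields of arbitrary conductor: decomposition groups, residue degrees, transitivity
-/

set_option autoImplicit false
set_option linter.style.haveILetI false

namespace Pool.Agent.L0h11

open NumberField IsDedekindDomain Polynomial

/-- the facts about the `M`-th cyclotomic field that are used -/
structure Cy (M : ℕ) (K : Type) [Field K] [NumberField K] where
  z : K
  prim : IsPrimitiveRoot z M
  σ : (ZMod M)ˣ →* (K ≃ₐ[ℚ] K)
  σ_z : ∀ t, σ t z = z ^ (t : ZMod M).val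
  all : ∀ τ : K ≃ₐ[ℚ] K, ∃ t, σ t = τ
  gen : ∀ x : K, IsIntegral ℤ x → ∃ f : Polynomial ℤ, x = Polynomial.aeval z f
  rank : Module.finrank ℚ K = M.totient
  unram : ∀ (P : HeightOneSpectrum (𝓞 K)) (q : ℕ), q.Prime → ¬ q ∣ M →
    ((q : ℕ) : 𝓞 K) ∈ P.asIdeal → ((q : ℕ) : 𝓞 K) ∉ P.asIdeal ^ 2

section constr

variable (M : ℕ) [NeZero M]

/-- the integers of the cyclotomic field are polynomials in the root of unity -/
theorem gen_aux (K : Type) [Field K] [NumberField K] [IsCyclotomicExtension {M} ℚ K] (z : K)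
    (hz : IsPrimitiveRoot z M) (x : K) (hx : IsIntegral ℤ x) :
    ∃ f : Polynomial ℤ, x = Polynomial.aeval z f := by
  have h := IsCyclotomicExtension.Rat.isIntegralClosure_adjoin_singleton (n := M) (K := K) hz
  obtain ⟨y, hy⟩ := h.isIntegral_iff.1 hx
  have hy2 : (y : K) ∈ (Polynomial.aeval (R := ℤ) z).range := by
    rw [← Algebra.adjoin_singleton_eq_range_aeval]
    exact y.2
  obtain ⟨f, hf⟩ := hy2
  refine ⟨f, ?_⟩
  rw [← hy]
  exact hf.symm

/-- a prime number not dividing `M` is not ramified -/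
theorem unram_aux (K : Type) [Field K] [NumberField K] [IsCyclotomicExtension {M} ℚ K]
    (P : HeightOneSpectrum (𝓞 K)) (q : ℕ) (hq : q.Prime) (hnd : ¬ q ∣ M)
    (h1 : ((q : ℕ) : 𝓞 K) ∈ P.asIdeal) : ((q : ℕ) : 𝓞 K) ∉ P.asIdeal ^ 2 := by
  have : Fact q.Prime := ⟨hq⟩
  have := P.isPrime
  have hlo : P.asIdeal.LiesOver (Ideal.span {(q : ℤ)}) := by
    constructor
    have hmax : (Ideal.span {(q : ℤ)}).IsMaximal := by
      apply PrincipalIdealRing.isMaximal_of_irreducible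
      exact (Nat.prime_iff_prime_int.mp hq).irreducible
    refine (hmax.eq_of_le ?_ ?_)
    · exact (Ideal.IsPrime.under ℤ P.asIdeal).ne_top
    · rw [Ideal.span_singleton_le_iff_mem, Ideal.mem_comap]
      simpa using h1
  have hr := IsCyclotomicExtension.Rat.ramificationIdx_eq_of_not_dvd q K P.asIdeal (m := M) hnd
  have hne : (Ideal.span {(q : ℤ)}).map (algebraMap ℤ (𝓞 K)) ≠ ⊥ := by
    rw [Ideal.map_span, Set.image_singleton]
    intro h
    rw [Ideal.span_singleton_eq_bot] at h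
    simp only [algebraMap_int_eq, eq_intCast, Int.cast_natCast, Nat.cast_eq_zero] at h
    exact hq.ne_zero h
  rw [Ideal.IsDedekindDomain.ramificationIdx_eq_multiplicity (Ideal.span {(q : ℤ)}) P.asIdeal hne]
    at hr
  intro h2
  have hdvd : P.asIdeal ^ 2 ∣ (Ideal.span {(q : ℤ)}).map (algebraMap ℤ (𝓞 K)) := by
    rw [Ideal.dvd_iff_le, Ideal.map_span, Set.image_singleton, Ideal.span_singleton_le_iff_mem]
    simpa using h2
  have hfin : FiniteMultiplicity P.asIdeal ((Ideal.span {(q : ℤ)}).map (algebraMap ℤ (𝓞 K))) := by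
    apply FiniteMultiplicity.of_prime_left
    · exact Ideal.prime_of_isPrime P.ne_bot P.isPrime
    · exact hne
  have := hfin.le_multiplicity_of_pow_dvd hdvd
  omega

/-- every cyclotomic extension has all the bundled properties -/
theorem cy_aux (K : Type) [Field K] [NumberField K] [hC : IsCyclotomicExtension {M} ℚ K] :
    Nonempty (Cy M K) := by
  have hirr : Irreducible (Polynomial.cyclotomic M ℚ) :=
    Polynomial.cyclotomic.irreducible_rat (NeZero.pos M)
  have hz : IsPrimitiveRoot (IsCyclotomicExtension.zeta M ℚ K) M :=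
    IsCyclotomicExtension.zeta_spec M ℚ K
  let e : (K ≃ₐ[ℚ] K) ≃* (ZMod M)ˣ := IsCyclotomicExtension.autEquivPow K hirr
  refine ⟨?_⟩
  refine
    { z := IsCyclotomicExtension.zeta M ℚ K
      prim := hz
      σ := e.symm.toMonoidHom
      σ_z := ?_
      all := ?_
      gen := gen_aux M K _ hz
      rank := IsCyclotomicExtension.finrank K hirr
      unram := unram_aux M K }
  · intro t
    have h := hz.autToPow_spec ℚ (e.symm t)
    have h2 : hz.autToPow ℚ (e.symm t) = t := e.apply_symm_apply t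
    rw [h2] at h
    exact h.symm
  · intro τ
    exact ⟨e τ, e.symm_apply_apply τ⟩

theorem exists_cy : ∃ (K : Type) (_ : Field K) (_ : NumberField K), Nonempty (Cy M K) := by
  have : NeZero ((M : ℕ) : ℚ) := ⟨by exact_mod_cast (NeZero.ne M)⟩
  have h := CyclotomicField.isCyclotomicExtension M ℚ
  have h2 : @IsCyclotomicExtension {M} ℚ (CyclotomicField M ℚ) _ _ DivisionRing.toRatAlgebra := by
    have e : (DivisionRing.toRatAlgebra : Algebra ℚ (CyclotomicField M ℚ)) =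
        CyclotomicField.algebra M ℚ := Subsingleton.elim _ _
    rw [e]
    exact h
  exact ⟨CyclotomicField M ℚ, inferInstance, inferInstance,
    cy_aux M (CyclotomicField M ℚ) (hC := h2)⟩

end constr

section

variable {M : ℕ} {K : Type} [Field K] [NumberField K]

/-- the ring isomorphism of the integers induced by `σ t` -/
noncomputable def rs (c : Cy M K) (t : (ZMod M)ˣ) : 𝓞 K ≃+* 𝓞 K :=
  RingOfIntegers.mapRingEquiv (c.σ t).toRingEquiv

/-- the preimage of a prime ideal under `σ t` -/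
noncomputable def act (c : Cy M K) (t : (ZMod M)ˣ) (P : HeightOneSpectrum (𝓞 K)) :
    HeightOneSpectrum (𝓞 K) where
  asIdeal := P.asIdeal.comap (rs c t : 𝓞 K →+* 𝓞 K)
  isPrime := P.isPrime.comap _
  ne_bot := by
    intro h
    apply P.ne_bot
    rw [eq_bot_iff]
    intro x hx
    have h1 : (rs c t).symm x ∈ P.asIdeal.comap (rs c t : 𝓞 K →+* 𝓞 K) := by
      rw [Ideal.mem_comap]
      simpa using hx
    rw [h, Ideal.mem_bot] at h1
    rw [Ideal.mem_bot]
    simpa using congrArg (rs c t) h1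

lemma rs_coe (c : Cy M K) (t : (ZMod M)ˣ) (x : 𝓞 K) : ((rs c t x : 𝓞 K) : K) = c.σ t x := by
  rfl

lemma rs_mul (c : Cy M K) (s t : (ZMod M)ˣ) (x : 𝓞 K) : rs c (s * t) x = rs c s (rs c t x) := by
  apply RingOfIntegers.ext
  rw [rs_coe, rs_coe, rs_coe, map_mul]
  rfl

lemma rs_one (c : Cy M K) (x : 𝓞 K) : rs c 1 x = x := by
  apply RingOfIntegers.ext
  rw [rs_coe, map_one]
  rfl

lemma mem_act (c : Cy M K) (t : (ZMod M)ˣ) (P : HeightOneSpectrum (𝓞 K)) (x : 𝓞 K) :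
    x ∈ (act c t P).asIdeal ↔ rs c t x ∈ P.asIdeal := Iff.rfl

lemma act_act (c : Cy M K) (s t : (ZMod M)ˣ) (P : HeightOneSpectrum (𝓞 K)) :
    act c s (act c t P) = act c (t * s) P := by
  apply HeightOneSpectrum.ext
  ext x
  rw [mem_act, mem_act, mem_act, rs_mul]

lemma act_one (c : Cy M K) (P : HeightOneSpectrum (𝓞 K)) : act c 1 P = P := by
  apply HeightOneSpectrum.ext
  ext x
  rw [mem_act, rs_one]

variable [NeZero M]

/-- the root of unity as an integer -/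
noncomputable def zz (c : Cy M K) : 𝓞 K :=
  ⟨c.z, c.prim.isIntegral (NeZero.pos M)⟩

lemma zz_coe (c : Cy M K) : ((zz c : 𝓞 K) : K) = c.z := rfl

lemma zz_prim (c : Cy M K) : IsPrimitiveRoot (zz c) M :=
  IsPrimitiveRoot.of_map_of_injective (f := algebraMap (𝓞 K) K) c.prim
    (RingOfIntegers.coe_injective)

lemma rs_zz (c : Cy M K) (t : (ZMod M)ˣ) : rs c t (zz c) = zz c ^ (t : ZMod M).val := by
  apply RingOfIntegers.ext
  rw [rs_coe, zz_coe, c.σ_z]
  exact (map_pow (algebraMap (𝓞 K) K) (zz c) _).symm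

lemma gen_zz (c : Cy M K) (x : 𝓞 K) : ∃ f : Polynomial ℤ,
    x = eval₂ (Int.castRingHom (𝓞 K)) (zz c) f := by
  obtain ⟨f, hf⟩ := c.gen x (RingOfIntegers.isIntegral_coe x)
  refine ⟨f, ?_⟩
  apply RingOfIntegers.ext
  rw [hf]
  have h1 := hom_eval₂ f (Int.castRingHom (𝓞 K)) (algebraMap (𝓞 K) K) (zz c)
  rw [aeval_def]
  exact h1.symm

lemma pow_modEq {E : Type*} [Field E] {w : E} {p : ℕ} (hp : p ≠ 0) (hw : IsPrimitiveRoot w p)
    {a b : ℕ} (h : w ^ a = w ^ b) : a ≡ b [MOD p] := by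
  obtain ⟨u, rfl⟩ := hw.isUnit hp
  have h1 : u ^ a = u ^ b := Units.ext (by simpa using h)
  have h2 := pow_eq_pow_iff_modEq.1 h1
  rwa [← orderOf_units, ← hw.eq_orderOf] at h2

lemma hom_ev {A B : Type*} [CommRing A] [CommRing B] (φ : A →+* B) (x : A) (f : Polynomial ℤ) :
    φ (eval₂ (Int.castRingHom A) x f) = eval₂ (Int.castRingHom B) (φ x) f := by
  rw [hom_eval₂]
  congr 1
  exact Subsingleton.elim _ _

/-- Frobenius on values of integral polynomials -/
lemma frob_ev {E : Type*} [Field E] {q : ℕ} [Fact q.Prime] [CharP E q] (w : E)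
    (f : Polynomial ℤ) : (eval₂ (Int.castRingHom E) w f) ^ q =
      eval₂ (Int.castRingHom E) (w ^ q) f := hom_ev (frobenius E q) w f

/-- the image of a root of unity of order `M` in a field in which `M ≠ 0` has order `M` -/
lemma prim_map {A E : Type*} [CommRing A] [IsDomain A] [Field E] (μ : A →+* E) {w : A}
    (hw : IsPrimitiveRoot w M) (hM : ((M : ℕ) : E) ≠ 0) : IsPrimitiveRoot (μ w) M := by
  have h1 : (μ w) ^ M = 1 := by rw [← map_pow, hw.pow_eq_one, map_one]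
  refine IsPrimitiveRoot.iff_orderOf.2 ?_
  have hdvd : orderOf (μ w) ∣ M := orderOf_dvd_of_pow_eq_one h1
  by_contra hne
  have hlt : orderOf (μ w) < M := lt_of_le_of_ne (Nat.le_of_dvd (NeZero.pos M) hdvd) hne
  have hpos : 0 < orderOf (μ w) := Nat.pos_of_dvd_of_pos hdvd (NeZero.pos M)
  obtain ⟨n, hn⟩ : ∃ n, M = n + 1 := ⟨M - 1, by have := NeZero.pos M; omega⟩
  have hw' : IsPrimitiveRoot w (n + 1) := hn ▸ hw
  have h2 := hw'.prod_one_sub_pow_eq_order
  have h3 := congrArg μ h2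
  rw [map_prod] at h3
  apply hM
  rw [hn]
  push_cast
  rw [map_add, map_natCast, map_one] at h3
  rw [← h3]
  apply Finset.prod_eq_zero (i := orderOf (μ w) - 1) (Finset.mem_range.2 (by omega))
  rw [map_sub, map_one, map_pow, Nat.sub_add_cancel hpos, pow_orderOf_eq_one, sub_self]

variable (c : Cy M K) (P : HeightOneSpectrum (𝓞 K)) (q : ℕ) [Fact q.Prime]
  (g : (ZMod M)ˣ) (hg : (g : ZMod M) = q) {E : Type} [Field E] [Finite E] [CharP E q]
  (μ : 𝓞 K →+* E) (hμ : ∀ x, μ x = 0 ↔ x ∈ P.asIdeal) (hs : Function.Surjective μ)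

include hg

omit [NeZero M] in
lemma not_dvd : ¬ q ∣ M := by
  intro h
  have h1 : (q : ℕ).Coprime M := by
    rw [← ZMod.isUnit_iff_coprime, ← hg]
    exact g.isUnit
  have h2 := Nat.Coprime.eq_one_of_dvd h1 h
  exact (Fact.out : q.Prime).one_lt.ne' h2

omit [Finite E] in
/-- the image of the root of unity has order `M` -/
lemma w_prim : IsPrimitiveRoot (μ (zz c)) M := by
  apply prim_map μ (zz_prim c)
  rw [Ne, CharP.cast_eq_zero_iff E q]
  exact not_dvd q g hg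

omit [Finite E] in
/-- the decomposition automorphism is the Frobenius -/
lemma mk_rs (x : 𝓞 K) : μ (rs c g x) = (μ x) ^ q := by
  have hw := w_prim c q g hg μ
  obtain ⟨f, rfl⟩ := gen_zz c x
  have h1 := hom_ev (rs c g : 𝓞 K →+* 𝓞 K) (zz c) f
  have h1' : rs c g (eval₂ (Int.castRingHom (𝓞 K)) (zz c) f) =
    eval₂ (Int.castRingHom (𝓞 K)) (rs c g (zz c)) f := h1
  rw [h1', hom_ev, hom_ev, frob_ev, rs_zz, map_pow]
  congr 1
  have h2 : (g : ZMod M).val = q % M := by rw [hg, ZMod.val_natCast]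
  rw [h2, ← pow_mod_orderOf, ← pow_mod_orderOf (μ (zz c)) q, ← hw.eq_orderOf, Nat.mod_mod]

omit [Finite E] in
lemma mk_rs_pow (s : ℕ) (x : 𝓞 K) : μ (rs c (g ^ s) x) = (μ x) ^ (q ^ s) := by
  induction s with
  | zero => rw [pow_zero, rs_one, pow_zero, pow_one]
  | succ s ih => rw [pow_succ', rs_mul, mk_rs c q g hg μ, ih, ← pow_mul, pow_succ]

include hμ

omit [Finite E] in
lemma stab1 (t : (ZMod M)ˣ) (ht : t ∈ Subgroup.zpowers g) : act c t P = P := by
  obtain ⟨s, rfl⟩ := (Submonoid.mem_powers_iff _ _).1 (mem_powers_iff_mem_zpowers.2 ht)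
  apply HeightOneSpectrum.ext
  ext x
  rw [mem_act, ← hμ, mk_rs_pow c q g hg μ, pow_eq_zero_iff (pow_ne_zero _
    (Fact.out : q.Prime).ne_zero), hμ]

include hs

lemma stab2 (t : (ZMod M)ˣ) (ht : act c t P = P) : t ∈ Subgroup.zpowers g := by
  have hw := w_prim c q g hg μ
  have hle : RingHom.ker μ ≤ RingHom.ker (μ.comp (rs c t : 𝓞 K →+* 𝓞 K)) := by
    intro x hx
    rw [RingHom.mem_ker, hμ] at hx
    rw [RingHom.mem_ker]
    show μ (rs c t x) = 0
    rw [hμ, ← mem_act, ht]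
    exact hx
  let τ0 : E →+* E := RingHom.liftOfSurjective μ hs ⟨μ.comp (rs c t : 𝓞 K →+* 𝓞 K), hle⟩
  have hτ : ∀ x, τ0 (μ x) = μ (rs c t x) := fun x =>
    RingHom.liftOfRightInverse_comp_apply μ _ (Function.rightInverse_surjInv hs)
      ⟨μ.comp (rs c t : 𝓞 K →+* 𝓞 K), hle⟩ x
  let _ : Algebra (ZMod q) E := ZMod.algebra _ q
  let τ : E →ₐ[ZMod q] E :=
    { τ0 with
      commutes' := fun r => RingHom.congr_fun (Subsingleton.elim
        (τ0.comp (algebraMap (ZMod q) E)) (algebraMap (ZMod q) E)) r }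
  obtain ⟨n, hn⟩ := (FiniteField.bijective_frobeniusAlgHom_pow (ZMod q) E).2 τ
  have h1 : τ (μ (zz c)) = (μ (zz c)) ^ (q ^ (n : ℕ)) := by
    rw [← hn]
    show ((FiniteField.frobeniusAlgHom (ZMod q) E) ^ (n : ℕ)) (μ (zz c)) = _
    rw [AlgHom.coe_pow, FiniteField.coe_frobeniusAlgHom, pow_iterate, ZMod.card]
  have h2 : τ (μ (zz c)) = (μ (zz c)) ^ (t : ZMod M).val := by
    show τ0 (μ (zz c)) = _
    rw [hτ, rs_zz, map_pow]
  rw [h2] at h1
  have h3 := pow_modEq (NeZero.ne M) hw h1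
  have h4 : (t : ZMod M) = ((q ^ (n : ℕ) : ℕ) : ZMod M) := by
    rw [← ZMod.natCast_zmod_val (t : ZMod M)]
    exact (ZMod.natCast_eq_natCast_iff _ _ _).2 h3
  refine Subgroup.mem_zpowers_iff.2 ⟨(n : ℕ), ?_⟩
  apply Units.ext
  rw [zpow_natCast, Units.val_pow_eq_pow_val, hg, h4]
  push_cast
  rfl

omit hμ in
include c in
lemma card1 : Nat.card E = q ^ orderOf g := by
  have hw := w_prim c q g hg μ
  have : Fintype E := Fintype.ofFinite _
  obtain ⟨F, hq', hF⟩ := FiniteField.card E q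
  rw [Nat.card_eq_fintype_card, hF]
  have hf0 : 0 < orderOf g := orderOf_pos g
  -- the order divides `F`
  have h1 : orderOf g ∣ (F : ℕ) := by
    apply orderOf_dvd_of_pow_eq_one
    have h2 : (μ (zz c)) ^ (q ^ (F : ℕ)) = (μ (zz c)) ^ 1 := by
      rw [← hF, FiniteField.pow_card, pow_one]
    have h3 := pow_modEq (NeZero.ne M) hw h2
    apply Units.ext
    rw [Units.val_pow_eq_pow_val, hg]
    have h4 := (ZMod.natCast_eq_natCast_iff _ _ _).2 h3
    push_cast at h4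
    rw [h4]
    rfl
  -- all the elements are roots
  have h5 : ∀ x : E, x ^ (q ^ orderOf g) = x := by
    intro x
    obtain ⟨y, rfl⟩ := hs x
    rw [← mk_rs_pow c q g hg μ, pow_orderOf_eq_one, rs_one]
  have h6 : Fintype.card E ≤ q ^ orderOf g := by
    have hq1 : 1 < q ^ orderOf g := Nat.one_lt_pow hf0.ne' (Fact.out : q.Prime).one_lt
    have h7 : (X ^ (q ^ orderOf g) - X : E[X]) ≠ 0 := FiniteField.X_pow_card_sub_X_ne_zero _ hq1
    have h8 := Polynomial.card_le_degree_of_subset_roots (R := E)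
      (p := X ^ (q ^ orderOf g) - X) (Z := Finset.univ) (by
        intro x _
        rw [mem_roots h7]
        simp [h5 x])
    rwa [FiniteField.X_pow_card_sub_X_natDegree_eq _ hq1, Finset.card_univ] at h8
  rw [hF] at h6
  have h9 : (F : ℕ) ≤ orderOf g := (Nat.pow_le_pow_iff_right (Fact.out : q.Prime).one_lt).1 h6
  rw [Nat.le_antisymm h9 (Nat.le_of_dvd F.pos h1)]

end

section trans

variable {M : ℕ} [NeZero M] {K : Type} [Field K] [NumberField K]

lemma sigma_inj (c : Cy M K) : Function.Injective c.σ := by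
  intro s t h
  have h1 : c.z ^ (s : ZMod M).val = c.z ^ (t : ZMod M).val := by
    rw [← c.σ_z, ← c.σ_z, h]
  have h2 := pow_modEq (NeZero.ne M) c.prim h1
  have h3 := Nat.ModEq.eq_of_lt_of_lt h2 (ZMod.val_lt _) (ZMod.val_lt _)
  exact Units.ext (ZMod.val_injective M h3)

lemma isGal (c : Cy M K) : IsGalois ℚ K := by
  have h1 : Nat.card (ZMod M)ˣ = M.totient := by
    rw [Nat.card_eq_fintype_card, ZMod.card_units_eq_totient]
  have h2 : Nat.card (ZMod M)ˣ = Nat.card (K ≃ₐ[ℚ] K) :=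
    Nat.card_congr (Equiv.ofBijective c.σ ⟨sigma_inj c, c.all⟩)
  apply IsGalois.of_card_aut_eq_finrank
  rw [c.rank, ← h1, h2]

lemma trans1 (c : Cy M K) (P P' : HeightOneSpectrum (𝓞 K)) (q : ℕ) (hq : q.Prime)
    (hP : ((q : ℕ) : 𝓞 K) ∈ P.asIdeal) (hP' : ((q : ℕ) : 𝓞 K) ∈ P'.asIdeal) :
    ∃ t : (ZMod M)ˣ, act c t P = P' := by
  have hgal := isGal c
  have hinv : Algebra.IsInvariant ℤ (𝓞 K) (𝓞 K ≃ₐ[ℤ] 𝓞 K) :=
    Algebra.isInvariant_of_isGalois' ℤ ℚ K (𝓞 K)
  have hu : ∀ Q : HeightOneSpectrum (𝓞 K), ((q : ℕ) : 𝓞 K) ∈ Q.asIdeal →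
      Q.asIdeal.under ℤ = Ideal.span {(q : ℤ)} := by
    intro Q hQ
    have hmax : (Ideal.span {(q : ℤ)}).IsMaximal :=
      PrincipalIdealRing.isMaximal_of_irreducible (Nat.prime_iff_prime_int.1 hq).irreducible
    refine (hmax.eq_of_le (Ideal.IsPrime.under ℤ Q.asIdeal).ne_top ?_).symm
    rw [Ideal.span_singleton_le_iff_mem, Ideal.mem_comap]
    simpa using hQ
  have hfin : Finite (𝓞 K ≃ₐ[ℤ] 𝓞 K) :=
    Finite.of_equiv _ (galRestrict ℤ ℚ K (𝓞 K)).toEquiv
  obtain ⟨τ, hτ⟩ := Algebra.IsInvariant.exists_smul_of_under_eq ℤ (𝓞 K) (𝓞 K ≃ₐ[ℤ] 𝓞 K)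
    P.asIdeal P'.asIdeal ((hu P hP).trans (hu P' hP').symm)
  obtain ⟨τ', rfl⟩ := (galRestrict ℤ ℚ K (𝓞 K)).surjective τ
  obtain ⟨t, rfl⟩ := c.all τ'
  refine ⟨t⁻¹, ?_⟩
  apply HeightOneSpectrum.ext
  rw [hτ]
  ext x
  rw [mem_act, Ideal.mem_pointwise_smul_iff_inv_smul_mem, ← map_inv, ← map_inv]
  have h1 : rs c t⁻¹ x = galRestrict ℤ ℚ K (𝓞 K) (c.σ t⁻¹) x := by
    apply RingOfIntegers.ext
    rw [rs_coe]
    exact (algebraMap_galRestrict_apply ℤ (c.σ t⁻¹) x).symm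
  rw [h1]
  rfl

/-- **decomposition groups** -/
theorem stab (c : Cy M K) (P : HeightOneSpectrum (𝓞 K)) (q : ℕ) (hq : q.Prime)
    (hqP : ((q : ℕ) : 𝓞 K) ∈ P.asIdeal) (g : (ZMod M)ˣ) (hg : (g : ZMod M) = q) :
    (∀ t : (ZMod M)ˣ, act c t P = P ↔ t ∈ Subgroup.zpowers g) ∧
    Nat.card (𝓞 K ⧸ P.asIdeal) = q ^ orderOf g := by
  have : Fact q.Prime := ⟨hq⟩
  have hmax := P.isMaximal
  let _ : Field (𝓞 K ⧸ P.asIdeal) := Ideal.Quotient.field P.asIdeal
  have hfin : Finite (𝓞 K ⧸ P.asIdeal) := Ideal.finiteQuotientOfFreeOfNeBot P.asIdeal P.ne_bot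
  have hμ : ∀ x, Ideal.Quotient.mk P.asIdeal x = 0 ↔ x ∈ P.asIdeal :=
    fun x => Ideal.Quotient.eq_zero_iff_mem
  have hs : Function.Surjective (Ideal.Quotient.mk P.asIdeal) := Ideal.Quotient.mk_surjective
  have hc : CharP (𝓞 K ⧸ P.asIdeal) q := by
    refine (CharP.charP_iff_prime_eq_zero hq).2 ?_
    have := (hμ _).2 hqP
    rwa [map_natCast] at this
  refine ⟨fun t => ⟨stab2 c P q g hg (Ideal.Quotient.mk P.asIdeal) hμ hs t,
    stab1 c P q g hg (Ideal.Quotient.mk P.asIdeal) hμ t⟩,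
    card1 c q g hg (Ideal.Quotient.mk P.asIdeal) hs⟩

end trans

end Pool.Agent.L0h11
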