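import Mathlib
import Pool.Agent.L0h11.Cy
import Pool.Agent.W528.HB.Est

/-!
# Power residue characters of a finite field and their Jacobi sums
-/

set_option autoImplicit false
set_option linter.unusedSectionVars false

namespace Pool.Agent.L0h11

open Finset

section

variable {M : ℕ} [NeZero M] {E : Type} [Field E] [Fintype E]

open Classical in
/-- the index modulo `M` with respect to the root of unity `w` -/
noncomputable def lg (M : ℕ) {E : Type} [Field E] [Fintype E] (w x : E) : ZMod M :=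
  if h : ∃ i : ZMod M, w ^ i.val = x ^ ((Fintype.card E - 1) / M) then h.choose else 0

variable {w : E} (hw : IsPrimitiveRoot w M)

include hw

lemma dvd_card : M ∣ Fintype.card E - 1 :=
  Pool.Agent.W528.HB.dvd_card_of_root hw (NeZero.pos M)

lemma pow_val_inj {i j : ZMod M} (h : w ^ i.val = w ^ j.val) : i = j :=
  ZMod.val_injective M ((pow_modEq (NeZero.ne M) hw h).eq_of_lt_of_lt (ZMod.val_lt _)
    (ZMod.val_lt _))

lemma pow_val_add (i j : ZMod M) : w ^ (i + j).val = w ^ i.val * w ^ j.val := by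
  rw [← pow_add]
  have := (AddChar.zmodChar M hw.pow_eq_one).map_add_eq_mul i j
  rw [AddChar.zmodChar_apply, AddChar.zmodChar_apply, AddChar.zmodChar_apply, ← pow_add] at this
  exact this

lemma lg_spec {x : E} (hx : x ≠ 0) :
    w ^ (lg M w x).val = x ^ ((Fintype.card E - 1) / M) := by
  classical
  have h1 : (x ^ ((Fintype.card E - 1) / M)) ^ M = 1 := by
    rw [← pow_mul, Nat.div_mul_cancel (dvd_card hw), FiniteField.pow_card_sub_one_eq_one x hx]
  obtain ⟨i, hi, hi2⟩ := hw.eq_pow_of_pow_eq_one h1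
  have h2 : ∃ i : ZMod M, w ^ i.val = x ^ ((Fintype.card E - 1) / M) := by
    refine ⟨(i : ZMod M), ?_⟩
    rw [ZMod.val_natCast, Nat.mod_eq_of_lt hi, hi2]
  unfold lg
  rw [dif_pos h2]
  exact h2.choose_spec

lemma lg_eq {x : E} (hx : x ≠ 0) {i : ZMod M} (h : w ^ i.val = x ^ ((Fintype.card E - 1) / M)) :
    lg M w x = i := pow_val_inj hw ((lg_spec hw hx).trans h.symm)

lemma lg_one : lg M w 1 = 0 := by
  apply lg_eq hw one_ne_zero
  rw [ZMod.val_zero, pow_zero, one_pow]

lemma lg_mul {x y : E} (hx : x ≠ 0) (hy : y ≠ 0) : lg M w (x * y) = lg M w x + lg M w y := by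
  apply lg_eq hw (mul_ne_zero hx hy)
  rw [pow_val_add hw, lg_spec hw hx, lg_spec hw hy, mul_pow]

lemma exists_lg (i : ZMod M) : ∃ x : E, x ≠ 0 ∧ lg M w x = i := by
  obtain ⟨y, hy, hy2⟩ := Pool.Agent.W528.HB.exists_pow_eq' E (NeZero.pos M) (dvd_card hw)
    (z := w ^ i.val) (by rw [← pow_mul, mul_comm, pow_mul, hw.pow_eq_one, one_pow])
  exact ⟨y, hy, lg_eq hw hy hy2.symm⟩

variable {R : Type*} [CommRing R] (e : AddChar (ZMod M) R)

open Classical in
/-- the character `x ↦ e (a * lg x)` -/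
noncomputable def ch (a : ZMod M) : MulChar E R where
  toFun x := if x = 0 then 0 else e (a * lg M w x)
  map_one' := by
    rw [if_neg one_ne_zero, lg_one hw, mul_zero, AddChar.map_zero_eq_one]
  map_mul' x y := by
    by_cases hx : x = 0
    · rw [hx, zero_mul, if_pos rfl, zero_mul]
    · by_cases hy : y = 0
      · rw [hy, mul_zero, if_pos rfl, mul_zero]
      · rw [if_neg (mul_ne_zero hx hy), if_neg hx, if_neg hy, lg_mul hw hx hy, mul_add,
          AddChar.map_add_eq_mul]
  map_nonunit' x hx := by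
    rw [if_pos]
    by_contra h
    exact hx (isUnit_iff_ne_zero.2 h)

lemma ch_apply {a : ZMod M} {x : E} (hx : x ≠ 0) : ch hw e a x = e (a * lg M w x) := if_neg hx

lemma ch_zero : ch hw e 0 = 1 := by
  ext x
  rw [ch_apply hw e x.ne_zero, zero_mul, AddChar.map_zero_eq_one, MulChar.one_apply_coe]

lemma ch_add (a b : ZMod M) : ch hw e (a + b) = ch hw e a * ch hw e b := by
  ext x
  rw [MulChar.mul_apply, ch_apply hw e x.ne_zero, ch_apply hw e x.ne_zero,
    ch_apply hw e x.ne_zero, add_mul, AddChar.map_add_eq_mul]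

lemma ch_neg (a : ZMod M) : ch hw e (-a) = (ch hw e a)⁻¹ := by
  rw [eq_inv_iff_mul_eq_one, ← ch_add, neg_add_cancel, ch_zero]

lemma ch_nsmul (a : ZMod M) (n : ℕ) : ch hw e (n * a) = ch hw e a ^ n := by
  induction n with
  | zero => rw [Nat.cast_zero, zero_mul, ch_zero, pow_zero]
  | succ n ih => rw [Nat.cast_succ, add_mul, one_mul, ch_add, ih, pow_succ]

lemma ch_eq_one_iff (he : ∀ i : ZMod M, e i = 1 → i = 0) {a : ZMod M} :
    ch hw e a = 1 ↔ a = 0 := by
  constructor
  · intro h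
    obtain ⟨x, hx, hx2⟩ := exists_lg hw (1 : ZMod M)
    have h1 : ch hw e a x = 1 := by
      rw [h]
      exact MulChar.one_apply (isUnit_iff_ne_zero.2 hx)
    rw [ch_apply hw e hx, hx2, mul_one] at h1
    exact he a h1
  · rintro rfl
    exact ch_zero hw e

lemma ch_map {R' : Type*} [CommRing R'] (φ : R →+* R') (a : ZMod M) :
    (ch hw e a).ringHomComp φ = ch hw ((φ : R →* R').compAddChar e) a := by
  ext x
  rw [MulChar.ringHomComp_apply, ch_apply hw e x.ne_zero, ch_apply hw _ x.ne_zero]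
  rfl

/-- multiplication by `t` on `ZMod M` composed with `e` -/
noncomputable def mulE (t : ZMod M) (e : AddChar (ZMod M) R) : AddChar (ZMod M) R :=
  e.compAddMonoidHom (AddMonoidHom.mulLeft t)

omit [NeZero M] hw in
lemma mulE_apply (t : ZMod M) (e : AddChar (ZMod M) R) (i : ZMod M) :
    mulE t e i = e (t * i) := rfl

lemma ch_mulE (t a : ZMod M) : ch hw (mulE t e) a = ch hw e (t * a) := by
  ext x
  rw [ch_apply hw _ x.ne_zero, ch_apply hw _ x.ne_zero, mulE_apply, mul_assoc]

lemma pow_unit_prim (t : (ZMod M)ˣ) : IsPrimitiveRoot (w ^ (t : ZMod M).val) M :=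
  hw.pow_of_coprime _ (ZMod.val_coe_unit_coprime t)

/-- change of the root of unity -/
lemma lg_pow (t : (ZMod M)ˣ) {x : E} (hx : x ≠ 0) :
    lg M (w ^ (t : ZMod M).val) x = (t⁻¹ : (ZMod M)ˣ) * lg M w x := by
  apply lg_eq (pow_unit_prim hw t) hx
  rw [← lg_spec hw hx, ← pow_mul]
  have h1 : ∀ n : ℕ, w ^ n = w ^ (n : ZMod M).val := by
    intro n
    rw [ZMod.val_natCast]
    conv_lhs => rw [← pow_mod_orderOf, ← hw.eq_orderOf]
  rw [h1]
  congr 2
  rw [Nat.cast_mul, ZMod.natCast_zmod_val, ZMod.natCast_zmod_val, ← mul_assoc, ← Units.val_mul,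
    mul_inv_cancel, Units.val_one, one_mul]

lemma ch_pow_unit (t : (ZMod M)ˣ) (a : ZMod M) :
    ch (pow_unit_prim hw t) e a = ch hw e ((t⁻¹ : (ZMod M)ˣ) * a) := by
  ext x
  rw [ch_apply _ _ x.ne_zero, ch_apply _ _ x.ne_zero, lg_pow hw t x.ne_zero]
  congr 1
  ring

/-- the Jacobi sums -/
noncomputable def JS (a b : ZMod M) : R := jacobiSum (ch hw e a) (ch hw e b)

lemma JS_map {R' : Type*} [CommRing R'] (φ : R →+* R') (a b : ZMod M) :
    φ (JS hw e a b) = JS hw ((φ : R →* R').compAddChar e) a b := by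
  unfold JS
  rw [← jacobiSum_ringHomComp, ch_map, ch_map]

lemma JS_mulE (t a b : ZMod M) : JS hw (mulE t e) a b = JS hw e (t * a) (t * b) := by
  unfold JS
  rw [ch_mulE, ch_mulE]

lemma JS_pow_unit (t : (ZMod M)ˣ) (a b : ZMod M) : JS (pow_unit_prim hw t) e a b =
    JS hw e ((t⁻¹ : (ZMod M)ˣ) * a) ((t⁻¹ : (ZMod M)ˣ) * b) := by
  unfold JS
  rw [ch_pow_unit, ch_pow_unit]

lemma JS_zero_zero [IsDomain R] : JS hw e 0 0 = Fintype.card E - 2 := by
  unfold JS
  rw [ch_zero]
  exact jacobiSum_one_one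

lemma JS_comm (a b : ZMod M) : JS hw e a b = JS hw e b a := jacobiSum_comm _ _

lemma JS_zero_left [IsDomain R] (he : ∀ i : ZMod M, e i = 1 → i = 0) {a : ZMod M} (ha : a ≠ 0) :
    JS hw e 0 a = -1 := by
  unfold JS
  rw [ch_zero]
  exact jacobiSum_one_nontrivial ((ch_eq_one_iff hw e he).not.2 ha)

lemma JS_neg [IsDomain R] (he : ∀ i : ZMod M, e i = 1 → i = 0) {a : ZMod M} (ha : a ≠ 0) :
    JS hw e a (-a) = - ch hw e a (-1) := by
  unfold JS
  rw [ch_neg]
  exact jacobiSum_nontrivial_inv ((ch_eq_one_iff hw e he).not.2 ha)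

open Classical in
/-- the coefficients of the Jacobi sums -/
noncomputable def nn (M : ℕ) {E : Type} [Field E] [Fintype E] (w : E) (u v : ZMod M) : ℤ :=
  ((univ : Finset E).filter fun x => x ≠ 0 ∧ 1 - x ≠ 0 ∧ lg M w x = u ∧ lg M w (1 - x) = v).card

lemma JS_eq_sum (a b : ZMod M) : JS hw e a b =
    ∑ u : ZMod M, ∑ v : ZMod M, (nn M w u v : R) * e (a * u + b * v) := by
  classical
  unfold JS jacobiSum
  have h1 : ∀ x : E, ch hw e a x * ch hw e b (1 - x) =
      ∑ u : ZMod M, ∑ v : ZMod M, if (x ≠ 0 ∧ 1 - x ≠ 0 ∧ lg M w x = u ∧ lg M w (1 - x) = v)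
        then e (a * u + b * v) else 0 := by
    intro x
    by_cases hx : x = 0
    · rw [hx, MulChar.map_zero, zero_mul]
      simp
    · by_cases hx1 : 1 - x = 0
      · rw [hx1, MulChar.map_zero, mul_zero]
        simp
      · rw [ch_apply hw e hx, ch_apply hw e hx1, ← AddChar.map_add_eq_mul]
        simp [hx, hx1]
        rw [sum_eq_single (lg M w x)]
        · rw [sum_eq_single (lg M w (1 - x))]
          · simp
          · intro v _ hv
            rw [if_neg]
            rintro ⟨-, h⟩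
            exact hv h.symm
          · simp
        · intro u _ hu
          apply sum_eq_zero
          intro v _
          rw [if_neg]
          rintro ⟨h, -⟩
          exact hu h.symm
        · simp
  rw [sum_congr rfl fun x _ => h1 x, sum_comm]
  refine sum_congr rfl fun u _ => ?_
  rw [sum_comm]
  refine sum_congr rfl fun v _ => ?_
  rw [← sum_filter, sum_const, nsmul_eq_mul]
  unfold nn
  push_cast
  rfl

end

end Pool.Agent.L0h11
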