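import Mathlib
import Pool.Agent.L0h11.Chi
import Pool.Agent.Y145.DI.Stick

/-!
# The norms of Jacobi sums in an algebraic closure of the `q`-adic numbers
-/

set_option autoImplicit false
set_option linter.unusedSectionVars false

namespace Pool.Agent.L0h11

open Finset Pool.Agent.Y145.DI Pool.Agent.W528.HB

theorem add_mod_ite {p x y : ℕ} (hx : x < p) (hy : y < p) (h : (x + y) % p ≠ 0) :
    x + y = (x + y) % p + if p < x + y then p else 0 := by
  rcases lt_trichotomy (x + y) p with h1 | h1 | h1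
  · rw [Nat.mod_eq_of_lt h1, if_neg (by omega), add_zero]
  · rw [h1, Nat.mod_self] at h
    exact absurd rfl h
  · have h3 : (x + y) % p = x + y - p := by
      rw [Nat.mod_eq_sub_mod h1.le, Nat.mod_eq_of_lt (by omega)]
    rw [if_pos h1, h3]
    omega

/-- the norm of a Jacobi sum of powers of the Teichmüller character -/
theorem norm_jac {q : ℕ} [Fact q.Prime] {E : Type} [Field E] [Fintype E] [DecidableEq E]
    [CharP E q] (w : MulChar E (PadicAlgCl q)) (ψ : AddChar E (PadicAlgCl q)) (hψ : ψ.IsPrimitive)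
    (hψc : ∀ y, ψ (y ^ q) = ψ y)
    (hw : ‖((q : ℕ) : PadicAlgCl q)‖ ≤ ‖gaussSum w⁻¹ ψ‖ ^ (q - 1))
    (ho : orderOf w = Fintype.card E - 1) {N F : ℕ} (hF : Fintype.card E = q ^ F)
    (hN : N ∣ Fintype.card E - 1) (hF0 : 0 < F) {a b : ℕ} (ha0 : 0 < a) (ha : a < N)
    (hb0 : 0 < b) (hb : b < N) (hab : (a + b) % N ≠ 0) :
    ‖jacobiSum ((w ^ ((Fintype.card E - 1) / N)) ^ a)⁻¹ ((w ^ ((Fintype.card E - 1) / N)) ^ b)⁻¹‖ =
      ‖((q : ℕ) : PadicAlgCl q)‖ ^ ((range F).filter fun s =>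
        N < (a * q ^ s) % N + (b * q ^ s) % N).card := by
  obtain ⟨hq0, -⟩ := norm_p_lt (p := q)
  have hN0 : 0 < N := by omega
  set T := w ^ ((Fintype.card E - 1) / N) with hT
  have hQ1 : 1 < Fintype.card E := Fintype.one_lt_card
  have hTo : orderOf T = N := by
    have hd : (Fintype.card E - 1) / N ≠ 0 := by
      have := Nat.div_pos (Nat.le_of_dvd (by omega) hN) hN0
      omega
    rw [hT, orderOf_pow_of_dvd hd (by rw [ho]; exact Nat.div_dvd_of_dvd hN), ho,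
      Nat.div_div_self hN (by omega)]
  have hG : ∀ c, 0 < c → c < N → ‖gaussSum (T ^ c)⁻¹ ψ‖ ^ N =
      ‖((q : ℕ) : PadicAlgCl q)‖ ^ expo q N F c := by
    intro c hc0 hc
    exact norm_gauss_eq w ψ hψ hψc hw ho hF hN hF0 c hc0 hc
  have hcop : Nat.Coprime (q ^ F) N := by
    have h1 : N ∣ q ^ F - 1 := hF ▸ hN
    have h2 : 1 ≤ q ^ F := Nat.one_le_pow _ _ (Fact.out : q.Prime).pos
    have h3 : Nat.Coprime (q ^ F) (q ^ F - 1) := by
      rw [Nat.coprime_iff_gcd_eq_one, Nat.gcd_comm, ← Nat.coprime_iff_gcd_eq_one]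
      have h4 := Nat.coprime_self_add_left (m := q ^ F - 1) (n := 1)
      rw [Nat.sub_add_cancel h2] at h4
      exact ((h4.2 (Nat.coprime_one_left _))).symm
    exact h3.coprime_dvd_right h1
  have hqN : Nat.Coprime q N := (Nat.coprime_pow_left_iff hF0 _ _).1 hcop
  obtain ⟨c3, hc3⟩ : ∃ c3, c3 = (a + b) % N := ⟨_, rfl⟩
  have hc30 : 0 < c3 := by
    rw [hc3]
    exact Nat.pos_of_ne_zero hab
  have hc3p : c3 < N := by
    rw [hc3]
    exact Nat.mod_lt _ hN0
  have hTT : (T ^ a)⁻¹ * (T ^ b)⁻¹ = (T ^ c3)⁻¹ := by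
    rw [← mul_inv, ← pow_add, hc3]
    have h2 := pow_mod_orderOf T (a + b)
    rw [hTo] at h2
    rw [h2]
  have hne : (T ^ a)⁻¹ * (T ^ b)⁻¹ ≠ 1 := by
    rw [hTT]
    intro h
    rw [inv_eq_one] at h
    have h1 := orderOf_dvd_of_pow_eq_one h
    rw [hTo] at h1
    exact absurd (Nat.le_of_dvd hc30 h1) (by omega)
  have hJ := jacobiSum_mul_nontrivial hne ψ
  rw [hTT] at hJ
  have h1 : ‖gaussSum (T ^ c3)⁻¹ ψ‖ ^ N * ‖jacobiSum (T ^ a)⁻¹ (T ^ b)⁻¹‖ ^ N =
      ‖gaussSum (T ^ a)⁻¹ ψ‖ ^ N * ‖gaussSum (T ^ b)⁻¹ ψ‖ ^ N := by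
    rw [← mul_pow, ← mul_pow, ← norm_mul, ← norm_mul, hJ]
  rw [hG c3 hc30 hc3p, hG a ha0 ha, hG b hb0 hb, ← pow_add] at h1
  have h2 : expo q N F a + expo q N F b = expo q N F c3 +
      ((Finset.range F).filter fun s =>
        N < (a * q ^ s) % N + (b * q ^ s) % N).card * N := by
    unfold expo
    rw [card_filter, sum_mul, ← sum_add_distrib, ← sum_add_distrib]
    refine sum_congr rfl fun s _ => ?_
    have e3 : (c3 * q ^ s) % N = ((a * q ^ s) % N + (b * q ^ s) % N) % N := by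
      rw [hc3, Nat.mod_mul_mod, ← Nat.add_mod]
      congr 1
      ring
    have h4 : ((a * q ^ s) % N + (b * q ^ s) % N) % N ≠ 0 := by
      rw [← e3, hc3, Nat.mod_mul_mod]
      intro h
      have h5 := Nat.dvd_of_mod_eq_zero h
      have h6 : Nat.Coprime N (q ^ s) := (hqN.symm).pow_right s
      have h7 := h6.dvd_of_dvd_mul_right h5
      exact hab (Nat.mod_eq_zero_of_dvd h7)
    rw [e3]
    refine (add_mod_ite (Nat.mod_lt _ hN0) (Nat.mod_lt _ hN0) h4).trans ?_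
    congr 1
    split_ifs
    · rw [one_mul]
    · rw [zero_mul]
  rw [h2, pow_add, pow_mul] at h1
  have h3 := mul_left_cancel₀ (pow_pos hq0 _).ne' h1
  exact (pow_left_inj₀ (norm_nonneg _) (pow_nonneg hq0.le _) hN0.ne').1 h3

/-- the Teichmüller character compatible with a given embedding of the finite field in the residue
field -/
theorem exists_wp' {q : ℕ} [Fact q.Prime] {k : Type} [Field k] {R : Subring (PadicAlgCl q)}
    {res : R →+* k} (hR : IsRes q R res) (E : Type) [Field E] [Fintype E] [DecidableEq E]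
    [CharP E q] (e : E →+* k) :
    ∃ (w : MulChar E (PadicAlgCl q)) (ψ : AddChar E (PadicAlgCl q)), IsW q R res e w ∧
      ψ.IsPrimitive ∧ (∀ y, ψ (y ^ q) = ψ y) ∧
      ‖((q : ℕ) : PadicAlgCl q)‖ ≤ ‖gaussSum w⁻¹ ψ‖ ^ (q - 1) ∧
      orderOf w = Fintype.card E - 1 := by
  classical
  obtain ⟨w, hw⟩ := Pool.Agent.W400.HB.TT.main q k R res hR E e
  obtain ⟨⟨ψ, hψ⟩, hprop⟩ := Pool.Agent.W271.HB.AY.main q E
  obtain ⟨hψ1, hψ2⟩ := hprop ψ hψ
  have hgo := Pool.Agent.W540.HB.GO.main q k R res hR E e w hw ψ hψ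
  refine ⟨w, ψ, hw, hψ1, hψ2, hgo, ?_⟩
  apply Nat.dvd_antisymm w.orderOf_dvd_card_sub_one
  obtain ⟨g, hg⟩ := IsCyclic.exists_generator (α := Eˣ)
  have h1 : orderOf g = Fintype.card E - 1 := by
    rw [orderOf_eq_card_of_forall_mem_zpowers hg, Nat.card_eq_fintype_card, Fintype.card_units]
  rw [← h1]
  apply orderOf_dvd_of_pow_eq_one
  have h2 : w ((g : E) ^ orderOf w) = 1 := by
    rw [map_pow, ← MulChar.pow_apply_coe, pow_orderOf_eq_one, MulChar.one_apply_coe]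
  obtain ⟨h3, h4⟩ := hw ((g : E) ^ orderOf w)
  have h5 : (⟨w ((g : E) ^ orderOf w), h3⟩ : R) = 1 := Subtype.ext h2
  rw [h5, map_one] at h4
  have h6 : e ((g : E) ^ orderOf w) = e 1 := by
    rw [map_one]
    exact h4.symm
  have h7 := e.injective h6
  apply Units.ext
  rw [Units.val_pow_eq_pow_val, Units.val_one]
  exact h7

end Pool.Agent.L0h11
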