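import Mathlib
import Pool.Agent.L0h11.Pad
import Pool.Agent.Y941.WQ.BR
import Pool.Agent.W999.HB.TP

/-!
# Stickelberger's theorem for Jacobi sums, cyclotomic fields of arbitrary conductor
-/

set_option autoImplicit false
set_option linter.unusedSectionVars false

namespace Pool.Agent.L0h11

open Finset NumberField IsDedekindDomain Pool.Agent.W528.HB
open Pool.Agent.Y941.WQ (PP PI norm_int q_mem val_q norm_one_of_notMem)

section

variable {C : Type} [Field C] [NumberField C] {q : ℕ} [Fact q.Prime]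

theorem norm_of_val (τ : C →+* PadicAlgCl q) (hun : ((q : ℕ) : 𝓞 C) ∉ (PP τ).asIdeal ^ 2)
    (x : C) (k : ℤ) (hx : (PP τ).valuation C x = WithZero.exp (-k)) :
    ‖τ x‖ = ‖((q : ℕ) : PadicAlgCl q)‖ ^ k := by
  have hq0 : ((q : ℕ) : C) ≠ 0 := by
    exact_mod_cast (Fact.out : q.Prime).ne_zero
  obtain ⟨u, hu⟩ : ∃ u : C, u = x / ((q : ℕ) : C) ^ k := ⟨_, rfl⟩
  have hxu : x = u * ((q : ℕ) : C) ^ k := by
    rw [hu]
    field_simp
  have hvu : (PP τ).valuation C u = 1 := by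
    rw [hu, map_div₀, map_zpow₀, val_q τ hun, hx, ← WithZero.exp_zsmul, ← WithZero.exp_sub]
    simp
  obtain ⟨n, d, hnd⟩ := HeightOneSpectrum.exists_primeCompl_mul_eq_of_integer (PP τ) u hvu.le
  have hd : (d : 𝓞 C) ∉ (PP τ).asIdeal := d.2
  have hn : n ∉ (PP τ).asIdeal := by
    have h1 := congrArg ((PP τ).valuation C) hnd
    rw [map_mul, hvu, one_mul, (HeightOneSpectrum.valuation_eq_one_iff_notMem (PP τ)).2 hd] at h1
    exact (HeightOneSpectrum.valuation_eq_one_iff_notMem (PP τ)).1 h1.symm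
  have h2 := congrArg (fun y => ‖τ y‖) hnd
  simp only [map_mul, norm_mul] at h2
  have h3 : ‖τ (algebraMap (𝓞 C) C d)‖ = 1 := norm_one_of_notMem τ hd
  have h4 : ‖τ (algebraMap (𝓞 C) C n)‖ = 1 := norm_one_of_notMem τ hn
  rw [h3, h4, mul_one] at h2
  rw [hxu, map_mul, norm_mul, h2, one_mul, map_zpow₀, norm_zpow, map_natCast]

theorem mem_pow_of_norm (τ : C →+* PadicAlgCl q) (hun : ((q : ℕ) : 𝓞 C) ∉ (PP τ).asIdeal ^ 2)
    (x : 𝓞 C) (n : ℕ) (hx : ‖τ x‖ ≤ ‖((q : ℕ) : PadicAlgCl q)‖ ^ n) : x ∈ (PP τ).asIdeal ^ n := by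
  by_cases hx0 : x = 0
  · rw [hx0]
    exact zero_mem _
  rw [← HeightOneSpectrum.intValuation_le_pow_iff_mem]
  have h0 : (PP τ).valuation C (x : C) ≠ 0 := by
    rw [Ne, map_eq_zero]
    exact fun h => hx0 (RingOfIntegers.coe_injective (h.trans (map_zero _).symm))
  obtain ⟨k, hk⟩ : ∃ k : ℤ, (PP τ).valuation C (x : C) = WithZero.exp (-k) :=
    ⟨-(WithZero.log ((PP τ).valuation C (x : C))), by rw [neg_neg, WithZero.exp_log h0]⟩
  have h1 := norm_of_val τ hun _ k hk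
  have hq0 := Pool.Agent.Y941.WQ.norm_q_pos q
  have hq1 := Pool.Agent.Y941.WQ.norm_q_lt q
  rw [h1, ← zpow_natCast] at hx
  have h2 : (n : ℤ) ≤ k := by
    by_contra h
    push Not at h
    exact absurd hx (not_le.2 (zpow_lt_zpow_right_of_lt_one₀ hq0 hq1 h))
  have h3 : (PP τ).intValuation x = WithZero.exp (-k) := by
    rw [← hk]
    exact (HeightOneSpectrum.valuation_of_algebraMap (K := C) (PP τ) x).symm
  rw [h3, WithZero.exp_le_exp]
  omega

end

section

variable {M : ℕ} [NeZero M] {K : Type} [Field K] [NumberField K] (c : Cy M K)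

/-- the standard additive character of `ZMod M` with values in the cyclotomic integers -/
noncomputable def e0 : AddChar (ZMod M) (𝓞 K) := AddChar.zmodChar M (zz_prim c).pow_eq_one

lemma e0_apply (i : ZMod M) : e0 c i = zz c ^ i.val := AddChar.zmodChar_apply _ _

lemma e0_inj (i : ZMod M) (h : e0 c i = 1) : i = 0 := by
  rw [e0_apply] at h
  have h1 := (zz_prim c).dvd_of_pow_eq_one _ h
  have h2 := Nat.eq_zero_of_dvd_of_lt h1 (ZMod.val_lt i)
  exact (ZMod.val_eq_zero i).1 h2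

lemma rs_e0 (t : (ZMod M)ˣ) (i : ZMod M) : rs c t (e0 c i) = e0 c (t * i) := by
  rw [e0_apply, map_pow, rs_zz, ← pow_mul, e0_apply]
  have h1 : ∀ n : ℕ, zz c ^ n = zz c ^ (n : ZMod M).val := by
    intro n
    rw [ZMod.val_natCast]
    conv_lhs => rw [← pow_mod_orderOf, ← (zz_prim c).eq_orderOf]
  rw [h1]
  congr 2
  rw [Nat.cast_mul, ZMod.natCast_zmod_val, ZMod.natCast_zmod_val]

/-- the Stickelberger set -/
def Th (a b : ZMod M) : Finset (ZMod M)ˣ :=
  univ.filter fun u => ((u : ZMod M) * a).val + ((u : ZMod M) * b).val < M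

omit [NeZero M] in
lemma q_mem_P (P : HeightOneSpectrum (𝓞 K)) (q : ℕ) {E : Type} [Field E] [CharP E q]
    (μ : 𝓞 K →+* E) (hμ : ∀ x, μ x = 0 ↔ x ∈ P.asIdeal) : ((q : ℕ) : 𝓞 K) ∈ P.asIdeal := by
  rw [← hμ, map_natCast]
  exact CharP.cast_eq_zero E q

/-- a `q`-adic embedding with the given prime -/
lemma exists_tau (c : Cy M K) (P : HeightOneSpectrum (𝓞 K)) (q : ℕ) [Fact q.Prime]
    (hqP : ((q : ℕ) : 𝓞 K) ∈ P.asIdeal) : ∃ τ : K →+* PadicAlgCl q, PP τ = P := by
  obtain ⟨τ₀⟩ : Nonempty (K →ₐ[ℚ] PadicAlgCl q) := ⟨IsAlgClosed.lift⟩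
  obtain ⟨t, ht⟩ := trans1 c (PP (τ₀ : K →+* PadicAlgCl q)) P q Fact.out (q_mem _) hqP
  refine ⟨(τ₀ : K →+* PadicAlgCl q).comp (c.σ t : K →+* K), ?_⟩
  rw [← ht]
  rfl

lemma J_mem (c : Cy M K) (P : HeightOneSpectrum (𝓞 K)) (q : ℕ) [Fact q.Prime]
    (g : (ZMod M)ˣ) (hg : (g : ZMod M) = q) {E : Type} [Field E] [Fintype E] [CharP E q]
    (μ : 𝓞 K →+* E) (hμ : ∀ x, μ x = 0 ↔ x ∈ P.asIdeal) (hs : Function.Surjective μ)
    (hw : IsPrimitiveRoot (μ (zz c)) M) {a b : ZMod M} (ha : a ≠ 0) (hb : b ≠ 0)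
    (hab : a + b ≠ 0) (t : (ZMod M)ˣ) :
    JS hw (e0 c) a b ∈ (act c t P).asIdeal ^ ((range (orderOf g)).filter fun s =>
      ((t * g ^ s : (ZMod M)ˣ) * a).val + ((t * g ^ s : (ZMod M)ˣ) * b).val < M).card := by
  classical
  have hqP := q_mem_P P q μ hμ
  obtain ⟨τ, hτ⟩ := exists_tau c P q hqP
  obtain ⟨k, _, R, res, -, hch, hR⟩ := Pool.Agent.W999.HB.TP.main q
  -- the reduction
  let ρ : 𝓞 K →+* R := (τ.comp (algebraMap (𝓞 K) K)).codRestrict R
    (fun x => (hR.1 _).2 (norm_int τ x))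
  have hρ : ∀ x, ((ρ x : R) : PadicAlgCl q) = τ x := fun x => rfl
  have hker : ∀ x, res (ρ x) = 0 ↔ x ∈ P.asIdeal := by
    intro x
    rw [hR.2, hρ, ← hτ]
    rfl
  let e : E →+* k := RingHom.liftOfSurjective μ hs ⟨res.comp ρ, by
    intro x hx
    rw [RingHom.mem_ker] at hx ⊢
    exact (hker x).2 ((hμ x).1 hx)⟩
  have he : ∀ x, e (μ x) = res (ρ x) := fun x =>
    RingHom.liftOfRightInverse_comp_apply μ _ (Function.rightInverse_surjInv hs) ⟨res.comp ρ, _⟩ x
  obtain ⟨w, ψ, hW, hψ, hψc, hwn, ho⟩ := exists_wp' hR E e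
  have hM : ((M : ℕ) : k) ≠ 0 := by
    rw [Ne, CharP.cast_eq_zero_iff k q]
    exact not_dvd q g hg
  set eτ : AddChar (ZMod M) (PadicAlgCl q) :=
    (((τ.comp (algebraMap (𝓞 K) K)) : 𝓞 K →+* PadicAlgCl q) : 𝓞 K →* PadicAlgCl q).compAddChar
      (e0 c) with heτ
  have heτa : ∀ i, eτ i = τ (c.z) ^ i.val := by
    intro i
    show τ (algebraMap (𝓞 K) K (e0 c i)) = _
    rw [e0_apply, map_pow, map_pow]
    rfl
  set n := (Fintype.card E - 1) / M with hn
  have hcard : Fintype.card E = q ^ orderOf g := by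
    rw [← Nat.card_eq_fintype_card]
    exact card1 c q g hg μ hs
  have hdvd := dvd_card hw
  have hn0 : n ≠ 0 := by
    have h1 : 1 < Fintype.card E := Fintype.one_lt_card
    have := Nat.div_pos (Nat.le_of_dvd (by omega) hdvd) (NeZero.pos M)
    omega
  -- comparison with the Teichmüller character
  have hT : w ^ n = ch hw eτ 1 := by
    ext x
    have hx : (x : E) ≠ 0 := x.ne_zero
    rw [MulChar.pow_apply' w hn0, ch_apply hw _ hx, one_mul, heτa]
    obtain ⟨h1, h2⟩ := hW (x : E)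
    have h3 : (⟨w x, h1⟩ : R) ^ n = (ρ (zz c)) ^ (lg M (μ (zz c)) (x : E)).val := by
      apply root_unique' (NeZero.pos M) hM
      · rw [← pow_mul, Nat.div_mul_cancel hdvd]
        apply Subtype.ext
        show (w x) ^ _ = 1
        rw [← map_pow, FiniteField.pow_card_sub_one_eq_one _ hx, map_one]
      · rw [← pow_mul, mul_comm, pow_mul, ← map_pow, (zz_prim c).pow_eq_one, map_one, one_pow]
      · rw [map_pow, h2, map_pow, ← he, ← map_pow, ← map_pow, lg_spec hw hx]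
    have h4 := congrArg Subtype.val h3
    exact h4
  have hTv : ∀ b : ZMod M, ch hw eτ b = (w ^ n) ^ b.val := by
    intro b
    rw [hT, ← ch_nsmul, ZMod.natCast_zmod_val, mul_one]
  -- the embedding of the prime `act c t P`
  set τt : K →+* PadicAlgCl q := τ.comp (c.σ t : K →+* K) with hτt
  have hPP : PP τt = act c t P := by
    rw [← hτ]
    rfl
  have hτz : τt c.z = τ c.z ^ (t : ZMod M).val := by
    rw [hτt, RingHom.comp_apply]
    show τ (c.σ t c.z) = _
    rw [c.σ_z, map_pow]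
  have hJ : τt (algebraMap (𝓞 K) K (JS hw (e0 c) a b)) = JS hw eτ (t * a) (t * b) := by
    rw [← JS_mulE]
    have h1 := JS_map hw (e0 c) (τt.comp (algebraMap (𝓞 K) K)) a b
    have h2 : ((((τt.comp (algebraMap (𝓞 K) K)) : 𝓞 K →+* PadicAlgCl q)) : 𝓞 K →* PadicAlgCl q).compAddChar
      (e0 c) = mulE (t : ZMod M) eτ := by
      ext i
      show τt (algebraMap (𝓞 K) K (e0 c i)) = eτ (t * i)
      rw [e0_apply, map_pow, map_pow, heτa]
      have h3 : τt (algebraMap (𝓞 K) K (zz c)) = τt c.z := rfl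
      rw [h3, hτz, ← pow_mul]
      have h4 : ∀ n : ℕ, τ c.z ^ n = τ c.z ^ (n : ZMod M).val := by
        intro n
        have h5 := c.prim.map_of_injective τ.injective
        rw [ZMod.val_natCast]
        conv_lhs => rw [← pow_mod_orderOf, ← h5.eq_orderOf]
      rw [h4]
      congr 2
      rw [Nat.cast_mul, ZMod.natCast_zmod_val, ZMod.natCast_zmod_val]
    rw [← h2]
    exact h1
  have hta : (t : ZMod M) * a ≠ 0 := by
    intro h
    exact ha ((Units.mul_right_eq_zero t).1 h)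
  have htb : (t : ZMod M) * b ≠ 0 := by
    intro h
    exact hb ((Units.mul_right_eq_zero t).1 h)
  have htab : (t : ZMod M) * a + (t : ZMod M) * b ≠ 0 := by
    rw [← mul_add]
    intro h
    exact hab ((Units.mul_right_eq_zero t).1 h)
  have hinv : ∀ b : ZMod M, ch hw eτ b = ((w ^ n) ^ (-b).val)⁻¹ := by
    intro b
    rw [← hTv, ch_neg, inv_inv]
  have hnorm : ‖JS hw eτ (t * a) (t * b)‖ = ‖((q : ℕ) : PadicAlgCl q)‖ ^
      ((range (orderOf g)).filter fun s =>
        M < ((-(t * a : ZMod M)).val * q ^ s) % M + ((-(t * b : ZMod M)).val * q ^ s) % M).card := by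
    unfold JS
    rw [hinv (t * a), hinv (t * b)]
    refine norm_jac w ψ hψ hψc hwn ho hcard hdvd (orderOf_pos g) ?_ (ZMod.val_lt _) ?_
      (ZMod.val_lt _) ?_
    · rw [ZMod.val_pos]
      exact neg_ne_zero.2 hta
    · rw [ZMod.val_pos]
      exact neg_ne_zero.2 htb
    · rw [← ZMod.val_add, Ne, ZMod.val_eq_zero, ← neg_add, neg_eq_zero]
      exact htab
  have hset : ((range (orderOf g)).filter fun s =>
        M < ((-(t * a : ZMod M)).val * q ^ s) % M + ((-(t * b : ZMod M)).val * q ^ s) % M) =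
      ((range (orderOf g)).filter fun s =>
      ((t * g ^ s : (ZMod M)ˣ) * a).val + ((t * g ^ s : (ZMod M)ˣ) * b).val < M) := by
    apply filter_congr
    intro s _
    have key : ∀ a : ZMod M, a ≠ 0 → ((-(t * a : ZMod M)).val * q ^ s) % M +
        ((t * g ^ s : (ZMod M)ˣ) * a).val = M := by
      intro a ha
      have h1 : ((-(t * a : ZMod M)).val * q ^ s) % M = (-(((t * g ^ s : (ZMod M)ˣ)) * a : ZMod M)).val := by
        rw [← ZMod.val_natCast]
        congr 1
        push_cast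
        rw [ZMod.natCast_zmod_val, hg]
        ring
      have h2 : (((t * g ^ s : (ZMod M)ˣ)) * a : ZMod M) ≠ 0 := by
        intro h
        exact ha ((Units.mul_right_eq_zero _).1 h)
      have : NeZero (((t * g ^ s : (ZMod M)ˣ)) * a : ZMod M) := ⟨h2⟩
      rw [h1, ZMod.val_neg_of_ne_zero]
      have := ZMod.val_lt (((t * g ^ s : (ZMod M)ˣ)) * a : ZMod M)
      omega
    have k1 := key a ha
    have k2 := key b hb
    omega
  rw [hset] at hnorm
  rw [← hPP]
  apply mem_pow_of_norm τt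
  · apply c.unram _ q Fact.out (not_dvd q g hg)
    exact q_mem τt
  · rw [← hnorm, ← hJ]

end

end Pool.Agent.L0h11
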