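import Mathlib
import Pool.Agent.L0h11.Val

/-!
# Stickelberger's theorem: the ideals of the Jacobi sums, and independence of the residue field
-/

set_option autoImplicit false
set_option linter.unusedSectionVars false

namespace Pool.Agent.L0h11

open Finset NumberField IsDedekindDomain

section

variable {M : ℕ} [NeZero M] {K : Type} [Field K] [NumberField K] (c : Cy M K)

lemma coprime_spec {P Q : HeightOneSpectrum (𝓞 K)} (h : P ≠ Q) (m n : ℕ) :
    IsCoprime (P.asIdeal ^ m) (Q.asIdeal ^ n) := by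
  apply IsCoprime.pow
  rw [Ideal.isCoprime_iff_sup_eq]
  apply Ideal.IsMaximal.coprime_of_ne P.isMaximal Q.isMaximal
  intro h1
  exact h (HeightOneSpectrum.ext h1)

lemma stick_dvd (c : Cy M K) (P : HeightOneSpectrum (𝓞 K)) (q : ℕ) [Fact q.Prime]
    (g : (ZMod M)ˣ) (hg : (g : ZMod M) = q) {E : Type} [Field E] [Fintype E] [CharP E q]
    (μ : 𝓞 K →+* E) (hμ : ∀ x, μ x = 0 ↔ x ∈ P.asIdeal) (hs : Function.Surjective μ)
    (hw : IsPrimitiveRoot (μ (zz c)) M) {a b : ZMod M} (ha : a ≠ 0) (hb : b ≠ 0)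
    (hab : a + b ≠ 0) :
    (∏ u ∈ Th a b, (act c u P).asIdeal) ∣ Ideal.span {JS hw (e0 c) a b} := by
  classical
  have h1 := Finset.prod_comp (s := Th a b) (fun Q : HeightOneSpectrum (𝓞 K) => Q.asIdeal)
    (fun u => act c u P)
  rw [h1]
  apply Finset.prod_dvd_of_coprime
  · intro Q _ Q' _ hne
    exact coprime_spec hne _ _
  · intro Q hQ
    obtain ⟨t, -, rfl⟩ := mem_image.1 hQ
    rw [Ideal.dvd_iff_le, Ideal.span_singleton_le_iff_mem]
    have h2 := J_mem c P q g hg μ hμ hs hw ha hb hab t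
    refine Ideal.pow_le_pow_right ?_ h2
    have hqP := q_mem_P P q μ hμ
    obtain ⟨hst, -⟩ := stab c P q Fact.out hqP g hg
    apply Finset.card_le_card_of_injOn (fun u => if h : ∃ s < orderOf g, u = t * g ^ s
      then h.choose else 0)
    · intro u hu
      simp only [Finset.coe_filter, Set.mem_setOf_eq] at hu
      obtain ⟨hu1, hu2⟩ := hu
      have h3 : act c (u * t⁻¹) P = P := by
        have h4 := congrArg (act c t⁻¹) hu2
        rw [act_act, act_act, mul_inv_cancel, act_one] at h4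
        exact h4
      have h5 := (hst _).1 h3
      rw [← mem_powers_iff_mem_zpowers, Submonoid.mem_powers_iff] at h5
      obtain ⟨s, hs⟩ := h5
      have h6 : ∃ s < orderOf g, u = t * g ^ s := by
        refine ⟨s % orderOf g, Nat.mod_lt _ (orderOf_pos g), ?_⟩
        rw [pow_mod_orderOf, hs, mul_comm, inv_mul_cancel_right]
      simp only [coe_filter, Set.mem_setOf_eq, mem_range]
      rw [dif_pos h6]
      refine ⟨h6.choose_spec.1, ?_⟩
      rw [← h6.choose_spec.2]
      unfold Th at hu1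
      rw [mem_filter] at hu1
      exact hu1.2
    · intro u hu v hv huv
      simp only [Finset.coe_filter, Set.mem_setOf_eq] at hu hv
      have key : ∀ u, (u ∈ Th a b ∧ act c u P = act c t P) → ∃ s < orderOf g, u = t * g ^ s := by
        intro u hu
        obtain ⟨hu1, hu2⟩ := hu
        have h3 : act c (u * t⁻¹) P = P := by
          have h4 := congrArg (act c t⁻¹) hu2
          rw [act_act, act_act, mul_inv_cancel, act_one] at h4
          exact h4
        have h5 := (hst _).1 h3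
        rw [← mem_powers_iff_mem_zpowers, Submonoid.mem_powers_iff] at h5
        obtain ⟨s, hs⟩ := h5
        refine ⟨s % orderOf g, Nat.mod_lt _ (orderOf_pos g), ?_⟩
        rw [pow_mod_orderOf, hs, mul_comm, inv_mul_cancel_right]
      have hu6 := key u hu
      have hv6 := key v hv
      simp only at huv
      rw [dif_pos hu6, dif_pos hv6] at huv
      rw [hu6.choose_spec.2, hv6.choose_spec.2, huv]

end

section transport

variable {M : ℕ} [NeZero M] {E E' : Type} [Field E] [Fintype E] [Field E'] [Fintype E']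
  {R : Type*} [CommRing R]

lemma lg_equiv (f : E ≃+* E') {w : E} (hw : IsPrimitiveRoot w M) {w' : E'}
    (hw' : IsPrimitiveRoot w' M) (hf : f w = w') {x : E} (hx : x ≠ 0) :
    lg M w' (f x) = lg M w x := by
  apply lg_eq hw' ((map_ne_zero f).2 hx)
  rw [← hf, ← map_pow, lg_spec hw hx, map_pow, Fintype.card_congr f.toEquiv]

lemma ch_equiv (f : E ≃+* E') {w : E} (hw : IsPrimitiveRoot w M) {w' : E'}
    (hw' : IsPrimitiveRoot w' M) (hf : f w = w') (e : AddChar (ZMod M) R) (a : ZMod M) (x : E) :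
    ch hw' e a (f x) = ch hw e a x := by
  by_cases hx : x = 0
  · rw [hx, map_zero, MulChar.map_zero, MulChar.map_zero]
  · rw [ch_apply _ _ ((map_ne_zero f).2 hx), ch_apply _ _ hx, lg_equiv f hw hw' hf hx]

lemma JS_equiv (f : E ≃+* E') {w : E} (hw : IsPrimitiveRoot w M) {w' : E'}
    (hw' : IsPrimitiveRoot w' M) (hf : f w = w') (e : AddChar (ZMod M) R) (a b : ZMod M) :
    JS hw' e a b = JS hw e a b := by
  unfold JS jacobiSum
  symm
  apply Fintype.sum_equiv f.toEquiv
  intro x
  have h1 : f.toEquiv x = f x := rfl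
  rw [h1, ch_equiv f hw hw' hf, ← map_one f, ← map_sub, ch_equiv f hw hw' hf]

end transport

section

variable {M : ℕ} [NeZero M] {K : Type} [Field K] [NumberField K] (c : Cy M K)

omit [NeZero M] in
/-- two surjections with the same kernel -/
lemma exists_equiv {E E' : Type} [Field E] [Field E'] (μ : 𝓞 K →+* E) (μ' : 𝓞 K →+* E')
    (hs : Function.Surjective μ) (hs' : Function.Surjective μ')
    (h : RingHom.ker μ = RingHom.ker μ') : ∃ f : E ≃+* E', ∀ x, f (μ x) = μ' x := by
  let e1 := RingHom.quotientKerEquivOfSurjective hs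
  let e2 := RingHom.quotientKerEquivOfSurjective hs'
  let e3 := Ideal.quotEquivOfEq h
  refine ⟨(e1.symm.trans e3).trans e2, fun x => ?_⟩
  have h1 : e1.symm (μ x) = Ideal.Quotient.mk _ x := by
    rw [RingEquiv.symm_apply_eq]
    rfl
  show e2 (e3 (e1.symm (μ x))) = μ' x
  rw [h1]
  rfl

omit [NeZero M] in
lemma cast_ne_mk {P : Ideal (𝓞 K)} (hM : ((M : ℕ) : 𝓞 K) ∉ P) :
    (((M : ℕ) : 𝓞 K ⧸ P)) ≠ 0 := by
  intro h
  apply hM
  rw [← Ideal.Quotient.eq_zero_iff_mem, map_natCast]
  exact h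

open Classical in
/-- the Jacobi sum attached to a prime ideal -/
noncomputable def JI (a b : ZMod M) (P : Ideal (𝓞 K)) : 𝓞 K :=
  if h : P.IsMaximal ∧ P ≠ ⊥ ∧ ((M : ℕ) : 𝓞 K) ∉ P then
    letI : P.IsMaximal := h.1
    letI : Field (𝓞 K ⧸ P) := Ideal.Quotient.field P
    letI : Finite (𝓞 K ⧸ P) := Ideal.finiteQuotientOfFreeOfNeBot P h.2.1
    letI : Fintype (𝓞 K ⧸ P) := Fintype.ofFinite _
    JS (prim_map (Ideal.Quotient.mk P) (zz_prim c) (cast_ne_mk h.2.2)) (e0 c) a b
  else 0

lemma JI_eq {P : Ideal (𝓞 K)} {E : Type} [Field E] [Fintype E] (μ : 𝓞 K →+* E)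
    (hs : Function.Surjective μ) (hμ : RingHom.ker μ = P) (hw : IsPrimitiveRoot (μ (zz c)) M)
    (hM : ((M : ℕ) : E) ≠ 0) (a b : ZMod M) :
    JI c a b P = JS hw (e0 c) a b := by
  classical
  have hmax : P.IsMaximal := by
    rw [← hμ]
    exact RingHom.ker_isMaximal_of_surjective μ hs
  have hMP : ((M : ℕ) : 𝓞 K) ∉ P := by
    rw [← hμ, RingHom.mem_ker, map_natCast]
    exact hM
  have hbot : P ≠ ⊥ := by
    rintro rfl
    have h1 : Function.Injective μ := (RingHom.injective_iff_ker_eq_bot μ).2 hμ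
    have h2 : Finite (𝓞 K) := Finite.of_injective μ h1
    exact not_finite (𝓞 K)
  unfold JI
  rw [dif_pos ⟨hmax, hbot, hMP⟩]
  letI : Field (𝓞 K ⧸ P) := Ideal.Quotient.field P
  letI : Finite (𝓞 K ⧸ P) := Ideal.finiteQuotientOfFreeOfNeBot P hbot
  letI : Fintype (𝓞 K ⧸ P) := Fintype.ofFinite _
  obtain ⟨f, hf⟩ := exists_equiv (Ideal.Quotient.mk P) μ Ideal.Quotient.mk_surjective hs
    (by rw [Ideal.mk_ker, hμ])
  exact (JS_equiv f _ hw (hf _) (e0 c) a b).symm

end

end Pool.Agent.L0h11
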