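import Mathlib
import Pool.Agent.L0h11.Stk

/-!
# A rigidity lemma: unimodular integral families with integral Fourier transform
-/

set_option autoImplicit false
set_option linter.unusedSectionVars false

namespace Pool.Agent.L0h11

open Finset NumberField

section orth

variable {M : ℕ} [NeZero M] {R : Type*} [CommRing R] [IsDomain R]

lemma prim_of_inj {e : AddChar (ZMod M) R} (he : ∀ i, e i = 1 → i = 0) : e.IsPrimitive := by
  intro a ha h
  apply ha
  apply he
  have h1 := DFunLike.congr_fun h 1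
  rw [AddChar.mulShift_apply, mul_one, AddChar.one_apply] at h1
  exact h1

lemma sum_e {e : AddChar (ZMod M) R} (he : ∀ i, e i = 1 → i = 0) (b : ZMod M) :
    ∑ x : ZMod M, e (x * b) = if b = 0 then (M : R) else 0 := by
  classical
  rw [AddChar.sum_mulShift b (prim_of_inj he), ZMod.card]
  split_ifs <;> simp

/-- Fourier inversion -/
lemma inv1 {e : AddChar (ZMod M) R} (he : ∀ i, e i = 1 → i = 0) (f : ZMod M → R) (a : ZMod M) :
    ∑ u : ZMod M, (∑ x : ZMod M, f x * e (-(x * u))) * e (a * u) = M * f a := by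
  have h1 : ∀ u : ZMod M, (∑ x : ZMod M, f x * e (-(x * u))) * e (a * u) =
      ∑ x : ZMod M, f x * e (u * (a - x)) := by
    intro u
    rw [sum_mul]
    refine sum_congr rfl fun x _ => ?_
    rw [mul_assoc, ← AddChar.map_add_eq_mul]
    congr 2
    ring
  rw [sum_congr rfl fun u _ => h1 u, sum_comm]
  have h2 : ∀ x : ZMod M, ∑ u : ZMod M, f x * e (u * (a - x)) = if x = a then M * f a else 0 := by
    intro x
    rw [← mul_sum, sum_e he]
    by_cases h : x = a
    · rw [if_pos h, if_pos (by rw [h, sub_self]), h, mul_comm]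
    · rw [if_neg h, if_neg (fun h' => h (sub_eq_zero.1 h').symm), mul_zero]
  rw [sum_congr rfl fun x _ => h2 x, sum_ite_eq' univ a, if_pos (mem_univ _)]

end orth

section complex

variable {M : ℕ} [NeZero M]

lemma conj_e (e : AddChar (ZMod M) ℂ) (i : ZMod M) : (starRingEnd ℂ) (e i) = e (-i) := by
  rw [AddChar.map_neg_eq_conj]

/-- Parseval -/
lemma par1 {e : AddChar (ZMod M) ℂ} (he : ∀ i, e i = 1 → i = 0) (f : ZMod M → ℂ) :
    ∑ u : ZMod M, ‖∑ x : ZMod M, f x * e (-(x * u))‖ ^ 2 = M * ∑ x : ZMod M, ‖f x‖ ^ 2 := by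
  have h1 : ∀ z : ℂ, ((‖z‖ ^ 2 : ℝ) : ℂ) = z * (starRingEnd ℂ) z := by
    intro z
    rw [Complex.mul_conj, Complex.normSq_eq_norm_sq]
  have h2 : ((∑ u : ZMod M, ‖∑ x : ZMod M, f x * e (-(x * u))‖ ^ 2 : ℝ) : ℂ) =
      ((M * ∑ x : ZMod M, ‖f x‖ ^ 2 : ℝ) : ℂ) := by
    push_cast
    simp only [← Complex.ofReal_pow, h1]
    have h3 : ∀ u : ZMod M, (∑ x : ZMod M, f x * e (-(x * u))) *
        (starRingEnd ℂ) (∑ x : ZMod M, f x * e (-(x * u))) =
        ∑ y : ZMod M, (starRingEnd ℂ) (f y) *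
          ((∑ x : ZMod M, f x * e (-(x * u))) * e (y * u)) := by
      intro u
      rw [map_sum, mul_sum]
      refine sum_congr rfl fun y _ => ?_
      rw [map_mul, conj_e, neg_neg]
      ring
    rw [sum_congr rfl fun u _ => h3 u, sum_comm, mul_sum]
    refine sum_congr rfl fun y _ => ?_
    rw [← mul_sum, inv1 he]
    ring
  exact_mod_cast h2

lemma par2 {e : AddChar (ZMod M) ℂ} (he : ∀ i, e i = 1 → i = 0) (f : ZMod M → ZMod M → ℂ) :
    ∑ u : ZMod M, ∑ v : ZMod M, ‖∑ x : ZMod M, ∑ y : ZMod M, f x y * e (-(x * u + y * v))‖ ^ 2 =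
      M ^ 2 * ∑ x : ZMod M, ∑ y : ZMod M, ‖f x y‖ ^ 2 := by
  have h1 : ∀ u v : ZMod M, ∑ x : ZMod M, ∑ y : ZMod M, f x y * e (-(x * u + y * v)) =
      ∑ y : ZMod M, (∑ x : ZMod M, f x y * e (-(x * u))) * e (-(y * v)) := by
    intro u v
    rw [sum_comm]
    refine sum_congr rfl fun y _ => ?_
    rw [sum_mul]
    refine sum_congr rfl fun x _ => ?_
    rw [mul_assoc, ← AddChar.map_add_eq_mul]
    congr 2
    ring
  have h2 : ∀ u : ZMod M, ∑ v : ZMod M,
      ‖∑ x : ZMod M, ∑ y : ZMod M, f x y * e (-(x * u + y * v))‖ ^ 2 =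
        M * ∑ y : ZMod M, ‖∑ x : ZMod M, f x y * e (-(x * u))‖ ^ 2 := by
    intro u
    rw [← par1 he]
    exact sum_congr rfl fun v _ => by rw [h1]
  rw [sum_congr rfl fun u _ => h2 u, ← mul_sum, sum_comm,
    sum_congr rfl fun y _ => par1 he (fun x => f x y), ← mul_sum, sum_comm]
  ring

end complex

section inversion

variable {M : ℕ} [NeZero M] {R : Type*} [CommRing R] [IsDomain R]

lemma inv2 {e : AddChar (ZMod M) R} (he : ∀ i, e i = 1 → i = 0) (f : ZMod M → ZMod M → R)
    (a b : ZMod M) :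
    ∑ u : ZMod M, ∑ v : ZMod M,
      (∑ x : ZMod M, ∑ y : ZMod M, f x y * e (-(x * u + y * v))) * e (a * u + b * v) =
      M ^ 2 * f a b := by
  have h1 : ∀ u v : ZMod M,
      (∑ x : ZMod M, ∑ y : ZMod M, f x y * e (-(x * u + y * v))) * e (a * u + b * v) =
      ((∑ y : ZMod M, (∑ x : ZMod M, f x y * e (-(x * u))) * e (-(y * v))) * e (b * v)) *
        e (a * u) := by
    intro u v
    have h2 : ∑ x : ZMod M, ∑ y : ZMod M, f x y * e (-(x * u + y * v)) =
        ∑ y : ZMod M, (∑ x : ZMod M, f x y * e (-(x * u))) * e (-(y * v)) := by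
      rw [sum_comm]
      refine sum_congr rfl fun y _ => ?_
      rw [sum_mul]
      refine sum_congr rfl fun x _ => ?_
      rw [mul_assoc, ← AddChar.map_add_eq_mul]
      congr 2
      ring
    rw [h2, AddChar.map_add_eq_mul]
    ring
  have h2 : ∀ u : ZMod M, ∑ v : ZMod M,
      (∑ x : ZMod M, ∑ y : ZMod M, f x y * e (-(x * u + y * v))) * e (a * u + b * v) =
      M * ((∑ x : ZMod M, f x b * e (-(x * u))) * e (a * u)) := by
    intro u
    rw [sum_congr rfl fun v _ => h1 u v, ← sum_mul,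
      inv1 he (fun y => ∑ x : ZMod M, f x y * e (-(x * u))) b]
    ring
  rw [sum_congr rfl fun u _ => h2 u, ← mul_sum, inv1 he (fun x => f x b) a]
  ring

end inversion

section rigid

variable {M : ℕ} [NeZero M] {K : Type} [Field K] [NumberField K] (c : Cy M K)

lemma e0_map_inj {R : Type*} [CommRing R] (φ : 𝓞 K →+* R) (hφ : Function.Injective φ)
    (i : ZMod M) (h : ((φ : 𝓞 K →* R).compAddChar (e0 c)) i = 1) : i = 0 := by
  apply e0_inj c
  apply hφ
  rw [map_one]
  exact h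

/-- **rigidity** -/
theorem rigid (ε : ZMod M → ZMod M → 𝓞 K) (n : ZMod M → ZMod M → ℤ)
    (h1 : ∀ φ : K →+* ℂ, ∀ a b, ‖φ (ε a b)‖ = 1)
    (h2 : ∀ a b, ((M : 𝓞 K) ^ 2) ∣ ε a b - ∑ u, ∑ v, (n u v : 𝓞 K) * e0 c (a * u + b * v))
    (h3 : ∀ a, ε a 0 = 1) (h4 : ∀ b, ε 0 b = 1) (a b : ZMod M) : ε a b = 1 := by
  classical
  have hM0 : ((M : ℕ) : 𝓞 K) ≠ 0 := by exact_mod_cast NeZero.ne M
  -- the transform
  set C : ZMod M → ZMod M → 𝓞 K := fun u v =>
    ∑ x : ZMod M, ∑ y : ZMod M, ε x y * e0 c (-(x * u + y * v)) with hC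
  have hdvd : ∀ u v, ((M : 𝓞 K) ^ 2) ∣ C u v := by
    intro u v
    have e1 : C u v = ∑ x : ZMod M, ∑ y : ZMod M,
        (ε x y - ∑ u, ∑ v, (n u v : 𝓞 K) * e0 c (x * u + y * v)) * e0 c (-(x * u + y * v)) +
        ∑ x : ZMod M, ∑ y : ZMod M,
        (∑ u', ∑ v', (n (-u') (-v') : 𝓞 K) * e0 c (-(u' * x + v' * y))) *
          e0 c (-u * x + -v * y) := by
      rw [hC]
      simp only
      rw [← sum_add_distrib]
      refine sum_congr rfl fun x _ => ?_
      rw [← sum_add_distrib]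
      refine sum_congr rfl fun y _ => ?_
      have e2 : ∑ u' : ZMod M, ∑ v' : ZMod M, (n (-u') (-v') : 𝓞 K) * e0 c (-(u' * x + v' * y)) =
          ∑ u, ∑ v, (n u v : 𝓞 K) * e0 c (x * u + y * v) := by
        rw [← Equiv.sum_comp (Equiv.neg (ZMod M))]
        refine sum_congr rfl fun u _ => ?_
        rw [← Equiv.sum_comp (Equiv.neg (ZMod M))]
        refine sum_congr rfl fun v _ => ?_
        simp only [Equiv.neg_apply, neg_neg]
        congr 2
        ring
      rw [e2]
      have e3 : -u * x + -v * y = -(x * u + y * v) := by ring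
      rw [e3]
      ring
    rw [e1, inv2 (e0_inj c) (fun u v => (n (-u) (-v) : 𝓞 K)) (-u) (-v)]
    apply dvd_add
    · exact dvd_sum fun x _ => dvd_sum fun y _ => (h2 x y).mul_right _
    · exact dvd_mul_right _ _
  choose C' hC' using hdvd
  -- Parseval
  have hpar : ∀ φ : K →+* ℂ, ∑ u, ∑ v, ‖φ (C' u v)‖ ^ 2 = 1 := by
    intro φ
    have hinj : Function.Injective (φ.comp (algebraMap (𝓞 K) K)) :=
      φ.injective.comp RingOfIntegers.coe_injective
    have e1 := par2 (e0_map_inj c (φ.comp (algebraMap (𝓞 K) K)) hinj) (fun x y => φ (ε x y))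
    have e2 : ∀ u v, ∑ x : ZMod M, ∑ y : ZMod M, φ (ε x y) *
        (((φ.comp (algebraMap (𝓞 K) K) : 𝓞 K →+* ℂ) : 𝓞 K →* ℂ).compAddChar (e0 c))
          (-(x * u + y * v)) = (M : ℂ) ^ 2 * φ (C' u v) := by
      intro u v
      have e3 : (M : ℂ) ^ 2 * φ (C' u v) = (φ.comp (algebraMap (𝓞 K) K)) (C u v) := by
        rw [hC' u v, map_mul, map_pow, map_natCast]
        rfl
      rw [e3, hC]
      simp only [map_sum, map_mul]
      rfl
    simp only [e2, h1, norm_mul, norm_pow, Complex.norm_natCast, one_pow, sum_const, card_univ,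
      ZMod.card, nsmul_eq_mul, mul_one] at e1
    have hMr : (M : ℝ) ≠ 0 := by exact_mod_cast NeZero.ne M
    have e4 : ∑ u : ZMod M, ∑ v : ZMod M, ((M : ℝ) ^ 2 * ‖φ (C' u v)‖) ^ 2 =
        (M : ℝ) ^ 4 * ∑ u, ∑ v, ‖φ (C' u v)‖ ^ 2 := by
      rw [mul_sum]
      refine sum_congr rfl fun u _ => ?_
      rw [mul_sum]
      refine sum_congr rfl fun v _ => ?_
      ring
    rw [e4] at e1
    have e5 : (M : ℝ) ^ 4 ≠ 0 := pow_ne_zero _ hMr
    apply mul_left_cancel₀ e5
    rw [e1]
    ring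
  have hle : ∀ u v, ∀ φ : K →+* ℂ, ‖φ (C' u v)‖ ≤ 1 := by
    intro u v φ
    have e1 := hpar φ
    have e2 : ‖φ (C' u v)‖ ^ 2 ≤ ∑ u, ∑ v, ‖φ (C' u v)‖ ^ 2 := by
      refine le_trans ?_ (single_le_sum (f := fun u => ∑ v, ‖φ (C' u v)‖ ^ 2)
        (fun u _ => sum_nonneg fun v _ => by positivity) (mem_univ u))
      exact single_le_sum (f := fun v => ‖φ (C' u v)‖ ^ 2) (fun v _ => by positivity) (mem_univ v)
    rw [e1] at e2
    nlinarith [norm_nonneg (φ (C' u v))]
  have hone : ∀ u v, C' u v ≠ 0 → ∀ φ : K →+* ℂ, ‖φ (C' u v)‖ = 1 := by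
    intro u v h0 φ
    have h0' : ((C' u v : 𝓞 K) : K) ≠ 0 := by
      intro h
      exact h0 (RingOfIntegers.coe_injective (h.trans (map_zero _).symm))
    obtain ⟨m, hm0, hm⟩ := Embeddings.pow_eq_one_of_norm_le_one (K := K) (A := ℂ) h0'
      (RingOfIntegers.isIntegral_coe _) (hle u v)
    have e1 := congrArg φ hm
    rw [map_pow, map_one] at e1
    exact Complex.norm_eq_one_of_pow_eq_one e1 hm0.ne'
  obtain ⟨φ0⟩ : Nonempty (K →+* ℂ) := inferInstance
  -- exactly one nonzero coefficient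
  obtain ⟨u0, v0, h0⟩ : ∃ u0 v0, C' u0 v0 ≠ 0 := by
    by_contra h
    push Not at h
    have e1 := hpar φ0
    simp [h] at e1
  have huniq : ∀ u v, C' u v ≠ 0 → u = u0 ∧ v = v0 := by
    intro u v h
    by_contra hne
    have e1 := hpar φ0
    rw [← Finset.sum_product' univ univ (fun u v => ‖φ0 (C' u v)‖ ^ 2)] at e1
    have e2 : ({(u, v), (u0, v0)} : Finset (ZMod M × ZMod M)) ⊆ univ ×ˢ univ := by
      intro x _
      simp
    have e3 := sum_le_sum_of_subset_of_nonneg e2 (f := fun x : ZMod M × ZMod M =>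
      ‖φ0 (C' x.1 x.2)‖ ^ 2) (fun x _ _ => by positivity)
    rw [e1, sum_pair (by
      intro h'
      exact hne ⟨congrArg Prod.fst h', congrArg Prod.snd h'⟩)] at e3
    simp only [hone u v h, hone u0 v0 h0] at e3
    norm_num at e3
  have hε : ∀ a b, ε a b = C' u0 v0 * e0 c (a * u0 + b * v0) := by
    intro a b
    have e1 := inv2 (e0_inj c) ε a b
    have e2 : ∑ u : ZMod M, ∑ v : ZMod M,
      (∑ x : ZMod M, ∑ y : ZMod M, ε x y * e0 c (-(x * u + y * v))) * e0 c (a * u + b * v) =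
      (M : 𝓞 K) ^ 2 * (C' u0 v0 * e0 c (a * u0 + b * v0)) := by
      rw [sum_eq_single u0]
      · rw [sum_eq_single v0]
        · have e3 := hC' u0 v0
          rw [hC] at e3
          simp only at e3
          rw [e3]
          ring
        · intro v _ hv
          have e3 := hC' u0 v
          rw [hC] at e3
          simp only at e3
          rw [e3]
          have e4 : C' u0 v = 0 := by
            by_contra h
            exact hv (huniq _ _ h).2
          rw [e4]
          ring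
        · intro h
          exact absurd (mem_univ _) h
      · intro u _ hu
        apply sum_eq_zero
        intro v _
        have e3 := hC' u v
        rw [hC] at e3
        simp only at e3
        rw [e3]
        have e4 : C' u v = 0 := by
          by_contra h
          exact hu (huniq _ _ h).1
        rw [e4]
        ring
      · intro h
        exact absurd (mem_univ _) h
    rw [e2] at e1
    exact (mul_left_cancel₀ (pow_ne_zero 2 hM0) e1).symm
  have k1 := hε 0 0
  rw [h3, zero_mul, zero_mul, add_zero, AddChar.map_zero_eq_one, mul_one] at k1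
  have k2 := hε 1 0
  rw [h3, ← k1, one_mul, one_mul, zero_mul, add_zero] at k2
  have k3 := hε 0 1
  rw [h4, ← k1, one_mul, one_mul, zero_mul, zero_add] at k3
  have k4 := e0_inj c _ k2.symm
  have k5 := e0_inj c _ k3.symm
  rw [hε, ← k1, k4, k5, mul_zero, mul_zero, add_zero, AddChar.map_zero_eq_one, one_mul]

end rigid

end Pool.Agent.L0h11
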