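import Mathlib
import Pool.Agent.L0h11.Par

/-!
# Multiplicative functions on ideals; Jacobi sums of ideals
-/

set_option autoImplicit false
set_option linter.unusedSectionVars false

namespace Pool.Agent.L0h11

open Finset NumberField IsDedekindDomain UniqueFactorizationMonoid

section ext

variable {K : Type} [Field K] [NumberField K] {R : Type*} [CommMonoidWithZero R]

open Classical in
/-- the completely multiplicative function on ideals with given values at the primes -/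
noncomputable def ext (v : Ideal (𝓞 K) → R) : Ideal (𝓞 K) →*₀ R where
  toFun I := if I = 0 then 0 else ((normalizedFactors I).map v).prod
  map_zero' := if_pos rfl
  map_one' := by
    rw [if_neg one_ne_zero, normalizedFactors_one, Multiset.map_zero, Multiset.prod_zero]
  map_mul' I J := by
    by_cases hI : I = 0
    · rw [if_pos (by rw [hI, zero_mul]), if_pos hI, zero_mul]
    · by_cases hJ : J = 0
      · rw [if_pos (by rw [hJ, mul_zero]), if_pos hJ, mul_zero]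
      · rw [if_neg (mul_ne_zero hI hJ), if_neg hI, if_neg hJ, normalizedFactors_mul hI hJ,
          Multiset.map_add, Multiset.prod_add]

lemma ext_prime (v : Ideal (𝓞 K) → R) (P : HeightOneSpectrum (𝓞 K)) :
    ext v P.asIdeal = v P.asIdeal := by
  classical
  have h1 : Prime P.asIdeal := P.prime
  show (if P.asIdeal = 0 then (0 : R) else _) = _
  rw [if_neg h1.ne_zero, normalizedFactors_irreducible h1.irreducible, Multiset.map_singleton,
    Multiset.prod_singleton, normalize_eq]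

lemma ext_ne_zero [NoZeroDivisors R] [Nontrivial R] (v : Ideal (𝓞 K) → R) {I : Ideal (𝓞 K)} :
    ext v I ≠ 0 ↔ I ≠ 0 ∧ ∀ P : HeightOneSpectrum (𝓞 K), P.asIdeal ∣ I → v P.asIdeal ≠ 0 := by
  classical
  constructor
  · intro h
    have hI : I ≠ 0 := by
      rintro rfl
      exact h (map_zero _)
    refine ⟨hI, ?_⟩
    rintro P ⟨J, rfl⟩ h0
    apply h
    rw [map_mul, ext_prime, h0, zero_mul]
  · rintro ⟨hI, h⟩
    revert hI h
    induction I using UniqueFactorizationMonoid.induction_on_prime with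
    | h₁ => intro h; exact absurd rfl h
    | h₂ I hI =>
      intro _ _
      rw [isUnit_iff_eq_one.1 hI, map_one]
      exact one_ne_zero
    | h₃ I P hI hP ih =>
      intro _ h
      rw [map_mul]
      have hP' : P.IsPrime := Ideal.isPrime_of_prime hP
      have h1 := ext_prime v ⟨P, hP', hP.ne_zero⟩
      refine mul_ne_zero ?_ (ih hI fun Q hQ => h Q (hQ.mul_left P))
      rw [h1]
      exact h ⟨P, hP', hP.ne_zero⟩ (dvd_mul_right P I)

end ext

section induct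

variable {M : ℕ} {K : Type} [Field K] [NumberField K]

/-- prime to `M` -/
def Cop (M : ℕ) (I : Ideal (𝓞 K)) : Prop := I ≠ 0 ∧ IsCoprime I (Ideal.span {((M : ℕ) : 𝓞 K)})

lemma Cop.left {I J : Ideal (𝓞 K)} (h : Cop M (I * J)) : Cop M I :=
  ⟨left_ne_zero_of_mul h.1, (IsCoprime.mul_left_iff.1 h.2).1⟩

lemma Cop.right {I J : Ideal (𝓞 K)} (h : Cop M (I * J)) : Cop M J :=
  ⟨right_ne_zero_of_mul h.1, (IsCoprime.mul_left_iff.1 h.2).2⟩

lemma Cop.mul {I J : Ideal (𝓞 K)} (h : Cop M I) (h' : Cop M J) : Cop M (I * J) :=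
  ⟨mul_ne_zero h.1 h'.1, IsCoprime.mul_left_iff.2 ⟨h.2, h'.2⟩⟩

lemma cop_prime (P : HeightOneSpectrum (𝓞 K)) : Cop M P.asIdeal ↔ ((M : ℕ) : 𝓞 K) ∉ P.asIdeal := by
  constructor
  · rintro ⟨-, h⟩ h1
    rw [Ideal.isCoprime_iff_sup_eq, sup_eq_left.2 ((Ideal.span_singleton_le_iff_mem _).2 h1)] at h
    exact P.isPrime.ne_top h
  · intro h
    refine ⟨P.ne_bot, ?_⟩
    rw [Ideal.isCoprime_iff_sup_eq]
    by_contra h1
    have h2 : P.asIdeal ⊔ Ideal.span {((M : ℕ) : 𝓞 K)} = P.asIdeal :=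
      ((P.isMaximal.eq_of_le h1 le_sup_left)).symm
    apply h
    rw [← h2]
    exact Ideal.mem_sup_right (Ideal.mem_span_singleton_self _)

lemma ind_cop (p : Ideal (𝓞 K) → Prop) (h1 : p 1) (h2 : ∀ I J, Cop M I → Cop M J → p I → p J → p (I * J))
    (h3 : ∀ P : HeightOneSpectrum (𝓞 K), ((M : ℕ) : 𝓞 K) ∉ P.asIdeal → p P.asIdeal)
    {I : Ideal (𝓞 K)} (hI : Cop M I) : p I := by
  revert hI
  induction I using UniqueFactorizationMonoid.induction_on_prime with
  | h₁ => intro h; exact absurd rfl h.1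
  | h₂ I hI =>
    intro _
    rw [isUnit_iff_eq_one.1 hI]
    exact h1
  | h₃ I P hI hP ih =>
    intro h
    have hP' : P.IsPrime := Ideal.isPrime_of_prime hP
    refine h2 P I h.left h.right ?_ (ih h.right)
    exact h3 ⟨P, hP', hP.ne_zero⟩ ((cop_prime (M := M) ⟨P, hP', hP.ne_zero⟩).1 h.left)

lemma cop_of_congr {x : 𝓞 K} (hx : x ≠ 0) {N : ℕ} (hMN : M ∣ N)
    (h : x - 1 ∈ Ideal.span {((N : ℕ) : 𝓞 K)}) : Cop M (Ideal.span {x}) := by
  refine ⟨by rwa [Ne, Ideal.zero_eq_bot, Ideal.span_singleton_eq_bot], ?_⟩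
  rw [Ideal.isCoprime_span_singleton_iff]
  obtain ⟨y, hy⟩ := Ideal.mem_span_singleton'.1 h
  obtain ⟨d, rfl⟩ := hMN
  refine ⟨1, -y * d, ?_⟩
  push_cast at hy
  linear_combination -hy

/-- the residue field of a prime ideal -/
lemma exists_model [NeZero M] (P : HeightOneSpectrum (𝓞 K)) (hM : ((M : ℕ) : 𝓞 K) ∉ P.asIdeal) :
    ∃ (E : Type) (_ : Field E) (_ : Fintype E) (q : ℕ) (_ : Fact q.Prime) (_ : CharP E q)
      (μ : 𝓞 K →+* E) (g : (ZMod M)ˣ), Function.Surjective μ ∧ (∀ x, μ x = 0 ↔ x ∈ P.asIdeal) ∧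
      RingHom.ker μ = P.asIdeal ∧ ((M : ℕ) : E) ≠ 0 ∧ (g : ZMod M) = q ∧
      Fintype.card E = Ideal.absNorm P.asIdeal := by
  have hfin : Finite (𝓞 K ⧸ P.asIdeal) := Ideal.finiteQuotientOfFreeOfNeBot _ P.ne_bot
  have := P.isMaximal
  let hf : Field (𝓞 K ⧸ P.asIdeal) := Ideal.Quotient.field P.asIdeal
  let hft : Fintype (𝓞 K ⧸ P.asIdeal) := Fintype.ofFinite _
  have hq : Fact (ringChar (𝓞 K ⧸ P.asIdeal)).Prime := ⟨CharP.char_is_prime (𝓞 K ⧸ P.asIdeal) _⟩
  have hM' : ((M : ℕ) : 𝓞 K ⧸ P.asIdeal) ≠ 0 := cast_ne_mk hM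
  have hcop : (ringChar (𝓞 K ⧸ P.asIdeal)).Coprime M := by
    rw [hq.1.coprime_iff_not_dvd]
    intro h
    exact hM' ((CharP.cast_eq_zero_iff _ _ _).2 h)
  refine ⟨𝓞 K ⧸ P.asIdeal, hf, hft, ringChar (𝓞 K ⧸ P.asIdeal), hq, ringChar.charP _,
    Ideal.Quotient.mk _, ZMod.unitOfCoprime _ hcop, Ideal.Quotient.mk_surjective,
    fun x => Ideal.Quotient.eq_zero_iff_mem, Ideal.mk_ker, hM', ZMod.coe_unitOfCoprime _ _, ?_⟩
  rw [Ideal.absNorm_apply, Submodule.cardQuot_apply, Nat.card_eq_fintype_card]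

end induct

section jac

variable {E : Type} [Field E] [Fintype E]

/-- absolute value of a Jacobi sum -/
lemma arch_jacobi2 {χ ψ : MulChar E ℂ} (h1 : χ ≠ 1) (h1' : ψ ≠ 1) (h2 : χ * ψ ≠ 1) :
    ‖jacobiSum χ ψ‖ ^ 2 = Fintype.card E := by
  have h3 : ∀ χ : MulChar E ℂ, χ.ringHomComp (starRingEnd ℂ) = χ⁻¹ := by
    intro χ
    ext x
    rw [MulChar.ringHomComp_apply, MulChar.inv_apply_eq_inv']
    have h4 : ‖χ x‖ = 1 := by
      have h5 : (χ x) ^ (orderOf χ) = 1 := by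
        rw [← MulChar.pow_apply' χ (orderOf_pos χ).ne', pow_orderOf_eq_one]
        exact MulChar.one_apply x.isUnit
      exact Complex.norm_eq_one_of_pow_eq_one h5 (orderOf_pos χ).ne'
    rw [Complex.inv_def, Complex.normSq_eq_norm_sq, h4]
    simp
  have h4 : (starRingEnd ℂ) (jacobiSum χ ψ) = jacobiSum χ⁻¹ ψ⁻¹ := by
    rw [← h3, ← h3, jacobiSum_ringHomComp]
  have hchar : ringChar ℂ ≠ ringChar E := by
    rw [ringChar.eq_zero]
    intro h
    exact CharP.char_ne_zero_of_finite E (ringChar E) h.symm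
  have h5 := jacobiSum_mul_jacobiSum_inv hchar h1 h1' h2
  rw [← h4, Complex.mul_conj, Complex.normSq_eq_norm_sq] at h5
  exact_mod_cast h5

end jac

section props

variable {M : ℕ} [NeZero M] {K : Type} [Field K] [NumberField K] (c : Cy M K)

/-- the additive character composed with an embedding -/
noncomputable def eC (φ : K →+* ℂ) : AddChar (ZMod M) ℂ :=
  ((φ.comp (algebraMap (𝓞 K) K) : 𝓞 K →+* ℂ) : 𝓞 K →* ℂ).compAddChar (e0 c)

lemma eC_apply (φ : K →+* ℂ) (i : ZMod M) : eC c φ i = φ (e0 c i) := rfl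

lemma eC_inj (φ : K →+* ℂ) (i : ZMod M) (h : eC c φ i = 1) : i = 0 :=
  e0_map_inj c (φ.comp (algebraMap (𝓞 K) K)) (φ.injective.comp RingOfIntegers.coe_injective) i h

lemma norm_JS {E : Type} [Field E] [Fintype E] {w : E} (hw : IsPrimitiveRoot w M) {a b : ZMod M}
    (ha : a ≠ 0) (hb : b ≠ 0) (hab : a + b ≠ 0) (φ : K →+* ℂ) :
    ‖φ ((JS hw (e0 c) a b : 𝓞 K) : K)‖ ^ 2 = Fintype.card E := by
  have h1 : φ ((JS hw (e0 c) a b : 𝓞 K) : K) = JS hw (eC c φ) a b :=
    JS_map hw (e0 c) (φ.comp (algebraMap (𝓞 K) K)) a b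
  rw [h1]
  unfold JS
  apply arch_jacobi2
  · exact (ch_eq_one_iff hw _ (eC_inj c φ)).not.2 ha
  · exact (ch_eq_one_iff hw _ (eC_inj c φ)).not.2 hb
  · rw [← ch_add]
    exact (ch_eq_one_iff hw _ (eC_inj c φ)).not.2 hab

/-- absolute values -/
lemma norm_ext {a b : ZMod M} (ha : a ≠ 0) (hb : b ≠ 0) (hab : a + b ≠ 0) (φ : K →+* ℂ)
    {I : Ideal (𝓞 K)} (hI : Cop M I) : ‖φ (ext (JI c a b) I)‖ ^ 2 = Ideal.absNorm I := by
  refine ind_cop (M := M) (fun I => ‖φ (ext (JI c a b) I)‖ ^ 2 = Ideal.absNorm I) ?_ ?_ ?_ hI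
  · simp only [map_one, norm_one, one_pow, Nat.cast_one]
  · intro I J _ _ h1 h2
    simp only [map_mul, norm_mul, mul_pow]
    rw [h1, h2]
    push_cast
    ring
  · intro P hP
    obtain ⟨E, _, _, q, _, _, μ, g, hs, hμ, hk, hM, hg, hcard⟩ := exists_model P hP
    have hw := w_prim c q g hg μ
    rw [ext_prime, JI_eq c μ hs hk hw hM, norm_JS c hw ha hb hab, hcard]

/-- **the ideals of the Jacobi sums** -/
lemma dvd_ext {a b : ZMod M} (ha : a ≠ 0) (hb : b ≠ 0) (hab : a + b ≠ 0)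
    {I : Ideal (𝓞 K)} (hI : Cop M I) :
    (∏ u ∈ Th a b, I.map (rs c u⁻¹ : 𝓞 K →+* 𝓞 K)) ∣ Ideal.span {ext (JI c a b) I} := by
  refine ind_cop (M := M) (fun I => (∏ u ∈ Th a b, I.map (rs c u⁻¹ : 𝓞 K →+* 𝓞 K)) ∣
    Ideal.span {ext (JI c a b) I}) ?_ ?_ ?_ hI
  · have h0 : ∀ u : (ZMod M)ˣ, (1 : Ideal (𝓞 K)).map (rs c u⁻¹ : 𝓞 K →+* 𝓞 K) = 1 := by
      intro u
      rw [Ideal.one_eq_top, Ideal.map_top]
    rw [prod_congr rfl fun u _ => h0 u, prod_const_one]
    exact one_dvd _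
  · intro I J _ _ h1 h2
    simp only [map_mul, Ideal.map_mul, prod_mul_distrib, ← Ideal.span_singleton_mul_span_singleton]
    exact mul_dvd_mul h1 h2
  · intro P hP
    obtain ⟨E, _, _, q, _, _, μ, g, hs, hμ, hk, hM, hg, hcard⟩ := exists_model P hP
    have hw := w_prim c q g hg μ
    rw [ext_prime, JI_eq c μ hs hk hw hM]
    have h1 := stick_dvd c P q g hg μ hμ hs hw ha hb hab
    have h2 : ∀ u ∈ Th a b, (act c u P).asIdeal = P.asIdeal.map (rs c u⁻¹ : 𝓞 K →+* 𝓞 K) := by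
      intro u _
      ext x
      constructor
      · intro hx
        have h3 : rs c u x ∈ P.asIdeal := hx
        have h4 := Ideal.mem_map_of_mem (rs c u⁻¹ : 𝓞 K →+* 𝓞 K) h3
        have h5 : (rs c u⁻¹ : 𝓞 K →+* 𝓞 K) (rs c u x) = x := by
          show rs c u⁻¹ (rs c u x) = x
          rw [← rs_mul, inv_mul_cancel, rs_one]
        rwa [h5] at h4
      · intro hx
        have h3 : P.asIdeal.map (rs c u⁻¹ : 𝓞 K →+* 𝓞 K) ≤ (act c u P).asIdeal := by
          rw [Ideal.map_le_iff_le_comap]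
          intro y hy
          rw [Ideal.mem_comap, mem_act]
          show rs c u (rs c u⁻¹ y) ∈ _
          rw [← rs_mul, mul_inv_cancel, rs_one]
          exact hy
        exact h3 hx
    rw [← prod_congr rfl h2]
    exact h1

/-- the Jacobi sums are values of integral elements of the group ring -/
lemma nn_ext {I : Ideal (𝓞 K)} (hI : Cop M I) : ∃ n : ZMod M → ZMod M → ℤ, ∀ a b,
    ext (JI c a b) I = ∑ u, ∑ v, (n u v : 𝓞 K) * e0 c (a * u + b * v) := by
  refine ind_cop (M := M) (fun I => ∃ n : ZMod M → ZMod M → ℤ, ∀ a b,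
    ext (JI c a b) I = ∑ u, ∑ v, (n u v : 𝓞 K) * e0 c (a * u + b * v)) ?_ ?_ ?_ hI
  · refine ⟨fun u v => if u = 0 ∧ v = 0 then 1 else 0, fun a b => ?_⟩
    rw [map_one, sum_eq_single 0, sum_eq_single 0]
    · simp
    · intro v _ hv
      simp only
      rw [if_neg (fun h => hv h.2), Int.cast_zero, zero_mul]
    · intro h
      exact absurd (mem_univ _) h
    · intro u _ hu
      apply sum_eq_zero
      intro v _
      simp only
      rw [if_neg (fun h => hu h.1), Int.cast_zero, zero_mul]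
    · intro h
      exact absurd (mem_univ _) h
  · rintro I J _ _ ⟨n, hn⟩ ⟨m, hm⟩
    refine ⟨fun u v => ∑ u', ∑ v', n u' v' * m (u - u') (v - v'), fun a b => ?_⟩
    rw [map_mul, hn, hm, sum_mul]
    have h1 : ∀ u v : ZMod M, (((∑ u', ∑ v', n u' v' * m (u - u') (v - v') : ℤ)) : 𝓞 K) *
        e0 c (a * u + b * v) = ∑ u', ∑ v', ((n u' v' : 𝓞 K) * e0 c (a * u' + b * v')) *
          ((m (u - u') (v - v') : 𝓞 K) * e0 c (a * (u - u') + b * (v - v'))) := by
      intro u v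
      push_cast
      rw [sum_mul]
      refine sum_congr rfl fun u' _ => ?_
      rw [sum_mul]
      refine sum_congr rfl fun v' _ => ?_
      have h2 : a * u + b * v = (a * u' + b * v') + (a * (u - u') + b * (v - v')) := by ring
      rw [h2, AddChar.map_add_eq_mul]
      ring
    rw [sum_congr rfl fun u _ => sum_congr rfl fun v _ => h1 u v]
    have h3 : ∑ u : ZMod M, ∑ v : ZMod M, ∑ u' : ZMod M, ∑ v' : ZMod M,
        ((n u' v' : 𝓞 K) * e0 c (a * u' + b * v')) *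
          ((m (u - u') (v - v') : 𝓞 K) * e0 c (a * (u - u') + b * (v - v'))) =
        ∑ u' : ZMod M, ∑ v' : ZMod M, ∑ u : ZMod M, ∑ v : ZMod M,
        ((n u' v' : 𝓞 K) * e0 c (a * u' + b * v')) *
          ((m (u - u') (v - v') : 𝓞 K) * e0 c (a * (u - u') + b * (v - v'))) := by
      rw [sum_congr rfl fun u _ => sum_comm, sum_comm]
      refine sum_congr rfl fun u' _ => ?_
      rw [sum_congr rfl fun u _ => sum_comm, sum_comm]
    rw [h3]
    refine sum_congr rfl fun u' _ => ?_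
    rw [sum_mul]
    refine sum_congr rfl fun v' _ => ?_
    rw [mul_sum]
    rw [← Equiv.sum_comp (Equiv.subRight u')]
    refine sum_congr rfl fun u _ => ?_
    rw [mul_sum, ← Equiv.sum_comp (Equiv.subRight v')]
    refine sum_congr rfl fun v _ => ?_
    simp only [Equiv.subRight_apply]
  · intro P hP
    obtain ⟨E, _, _, q, _, _, μ, g, hs, hμ, hk, hM, hg, hcard⟩ := exists_model P hP
    have hw := w_prim c q g hg μ
    refine ⟨nn M (μ (zz c)), fun a b => ?_⟩
    rw [ext_prime, JI_eq c μ hs hk hw hM, JS_eq_sum]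

/-- the sign -/
noncomputable def sg (I : Ideal (𝓞 K)) : ℤ := ext (fun _ => (-1 : ℤ)) I

lemma sg_one : sg (1 : Ideal (𝓞 K)) = 1 := map_one (ext (fun _ => (-1 : ℤ)))

lemma sg_mul (I J : Ideal (𝓞 K)) : sg (I * J) = sg I * sg J := map_mul (ext (fun _ => (-1 : ℤ))) I J

lemma sg_prime (P : HeightOneSpectrum (𝓞 K)) : sg P.asIdeal = -1 := ext_prime _ P

lemma sg_mul_self {I : Ideal (𝓞 K)} (hI : I ≠ 0) : sg I * sg I = 1 := by
  have h0 : Ideal.span {((1 : ℕ) : 𝓞 K)} = 1 := by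
    rw [Nat.cast_one, Ideal.span_singleton_one, Ideal.one_eq_top]
  have h1 : Cop 1 I := by
    refine ⟨hI, ?_⟩
    rw [h0]
    exact isCoprime_one_right
  refine ind_cop (M := 1) (fun I => sg I * sg I = 1) ?_ ?_ ?_ h1
  · rw [sg_one, one_mul]
  · intro I J _ _ h1 h2
    rw [sg_mul, mul_mul_mul_comm, h1, h2, one_mul]
  · intro P _
    rw [sg_prime]
    norm_num

lemma ext_zero_left {b : ZMod M} (hb : b ≠ 0) {I : Ideal (𝓞 K)} (hI : Cop M I) :
    ext (JI c 0 b) I = (sg I : 𝓞 K) := by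
  refine ind_cop (M := M) (fun I => ext (JI c 0 b) I = (sg I : 𝓞 K)) ?_ ?_ ?_ hI
  · rw [map_one, sg_one, Int.cast_one]
  · intro I J _ _ h1 h2
    rw [map_mul, sg_mul, h1, h2, Int.cast_mul]
  · intro P hP
    obtain ⟨E, _, _, q, _, _, μ, g, hs, hμ, hk, hM, hg, hcard⟩ := exists_model P hP
    have hw := w_prim c q g hg μ
    rw [ext_prime, sg_prime, JI_eq c μ hs hk hw hM, JS_zero_left hw _ (e0_inj c) hb]
    push_cast
    rfl

lemma ext_comm (a b : ZMod M) {I : Ideal (𝓞 K)} (hI : Cop M I) :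
    ext (JI c a b) I = ext (JI c b a) I := by
  refine ind_cop (M := M) (fun I => ext (JI c a b) I = ext (JI c b a) I) ?_ ?_ ?_ hI
  · rw [map_one, map_one]
  · intro I J _ _ h1 h2
    rw [map_mul, map_mul, h1, h2]
  · intro P hP
    obtain ⟨E, _, _, q, _, _, μ, g, hs, hμ, hk, hM, hg, hcard⟩ := exists_model P hP
    have hw := w_prim c q g hg μ
    rw [ext_prime, ext_prime, JI_eq c μ hs hk hw hM, JI_eq c μ hs hk hw hM, JS_comm]

lemma ext_zero_zero {I : Ideal (𝓞 K)} (hI : Cop M I) :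
    (M : ℤ) ∣ Ideal.absNorm I - 1 ∧
    ((M : 𝓞 K) ^ 2) ∣ ext (JI c 0 0) I - sg I * (2 - Ideal.absNorm I) := by
  refine ind_cop (M := M) (fun I => (M : ℤ) ∣ Ideal.absNorm I - 1 ∧
    ((M : 𝓞 K) ^ 2) ∣ ext (JI c 0 0) I - sg I * (2 - Ideal.absNorm I)) ?_ ?_ ?_ hI
  · refine ⟨by rw [map_one, Nat.cast_one, sub_self]; exact dvd_zero _, ?_⟩
    have h1 : ext (JI c 0 0) (1 : Ideal (𝓞 K)) -
        ((sg (1 : Ideal (𝓞 K)) : ℤ) : 𝓞 K) * (2 - (Ideal.absNorm (1 : Ideal (𝓞 K)) : 𝓞 K)) = 0 := by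
      rw [sg_one, map_one, map_one]
      push_cast
      ring
    rw [h1]
    exact dvd_zero _
  · rintro I J _ _ ⟨⟨i, hi⟩, ⟨x, hx⟩⟩ ⟨⟨j, hj⟩, ⟨y, hy⟩⟩
    constructor
    · refine ⟨i + j + M * i * j, ?_⟩
      rw [map_mul]
      push_cast
      linear_combination (1 + (M : ℤ) * j) * hi + (Ideal.absNorm I : ℤ) * hj
    · have hi' : (Ideal.absNorm I : 𝓞 K) = 1 + M * i := by
        have := congrArg (Int.cast : ℤ → 𝓞 K) hi
        push_cast at this
        linear_combination this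
      have hj' : (Ideal.absNorm J : 𝓞 K) = 1 + M * j := by
        have := congrArg (Int.cast : ℤ → 𝓞 K) hj
        push_cast at this
        linear_combination this
      have hsg : ((sg (I * J) : ℤ) : 𝓞 K) = (sg I : 𝓞 K) * (sg J : 𝓞 K) := by
        rw [sg_mul, Int.cast_mul]
      rw [hsg]
      simp only [map_mul]
      push_cast
      rw [hi'] at hx ⊢
      rw [hj'] at hy ⊢
      refine ⟨(sg I : 𝓞 K) * (1 - M * i) * y + ext (JI c 0 0) J * x +
        2 * (sg I : 𝓞 K) * (sg J : 𝓞 K) * i * j, ?_⟩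
      linear_combination ext (JI c 0 0) J * hx + (sg I : 𝓞 K) * (1 - M * i) * hy
  · intro P hP
    obtain ⟨E, _, _, q, _, _, μ, g, hs, hμ, hk, hM, hg, hcard⟩ := exists_model P hP
    have hw := w_prim c q g hg μ
    constructor
    · have h1 := dvd_card hw
      rw [hcard] at h1
      have h2 : 1 ≤ Ideal.absNorm P.asIdeal := by
        rw [← hcard]
        exact Fintype.card_pos
      have h3 : ((Ideal.absNorm P.asIdeal - 1 : ℕ) : ℤ) = Ideal.absNorm P.asIdeal - 1 := by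
        push_cast [Nat.cast_sub h2]
        rfl
      rw [← h3]
      exact_mod_cast h1
    · rw [ext_prime, sg_prime, JI_eq c μ hs hk hw hM, JS_zero_zero, hcard]
      refine ⟨0, ?_⟩
      push_cast
      ring

end props

end Pool.Agent.L0h11
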