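import Mathlib
import Pool.Agent.L0h11.Ext

/-!
# Weil's theorem: Jacobi sums as Hecke characters, for cyclotomic fields of arbitrary conductor
-/

set_option autoImplicit false
set_option linter.unusedSectionVars false

namespace Pool.Agent.L0h11

open Finset NumberField IsDedekindDomain UniqueFactorizationMonoid

section aux

variable {M : ℕ} [NeZero M] {K : Type} [Field K] [NumberField K] (c : Cy M K)

lemma norm_e0 (φ : K →+* ℂ) (i : ZMod M) : ‖φ ((e0 c i : 𝓞 K) : K)‖ = 1 := by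
  apply Complex.norm_eq_one_of_pow_eq_one (n := M) _ (NeZero.ne M)
  rw [e0_apply]
  have h1 : (((zz c ^ i.val : 𝓞 K) : K)) = c.z ^ i.val := by
    rw [← zz_coe]
    exact map_pow (algebraMap (𝓞 K) K) _ _
  rw [h1, map_pow, ← pow_mul, mul_comm, pow_mul, ← map_pow, c.prim.pow_eq_one, map_one, one_pow]

lemma zz_eq : zz c = e0 c 1 := by
  have h1 := rs_zz c 1
  rw [rs_one] at h1
  rw [e0_apply]
  exact h1

lemma rs_zz' (t : (ZMod M)ˣ) : rs c t (zz c) = e0 c t := by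
  rw [rs_zz, e0_apply]

lemma conj_rs (φ : K →+* ℂ) (x : 𝓞 K) :
    (starRingEnd ℂ) (φ (x : K)) = φ ((rs c (-1) x : 𝓞 K) : K) := by
  obtain ⟨f, rfl⟩ := gen_zz c x
  have h1 := hom_ev ((starRingEnd ℂ).comp (φ.comp (algebraMap (𝓞 K) K))) (zz c) f
  have h2 := hom_ev ((φ.comp (algebraMap (𝓞 K) K)).comp (rs c (-1) : 𝓞 K →+* 𝓞 K)) (zz c) f
  have h3 : (starRingEnd ℂ) (φ ((Polynomial.eval₂ (Int.castRingHom (𝓞 K)) (zz c) f : 𝓞 K) : K)) =
    Polynomial.eval₂ (Int.castRingHom ℂ)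
      (((starRingEnd ℂ).comp (φ.comp (algebraMap (𝓞 K) K))) (zz c)) f := h1
  have h4 : φ ((rs c (-1) (Polynomial.eval₂ (Int.castRingHom (𝓞 K)) (zz c) f) : 𝓞 K) : K) =
    Polynomial.eval₂ (Int.castRingHom ℂ)
      (((φ.comp (algebraMap (𝓞 K) K)).comp (rs c (-1) : 𝓞 K →+* 𝓞 K)) (zz c)) f := h2
  rw [h3, h4]
  congr 1
  show (starRingEnd ℂ) (φ ((zz c : 𝓞 K) : K)) = φ ((rs c (-1) (zz c) : 𝓞 K) : K)
  rw [rs_zz', zz_eq, ← eC_apply, ← eC_apply, conj_e]
  congr 1

omit [NeZero M] in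
lemma prod_half {R : Type*} [CommMonoid R] {M : ℕ} [NeZero M] (H : Finset (ZMod M)ˣ)
    (hH : ∀ u, u ∈ H ↔ -u ∉ H) (f : (ZMod M)ˣ → R) :
    (∏ u ∈ H, f u) * (∏ u ∈ H, f (-u)) = ∏ u, f u := by
  classical
  have h1 : ∏ u ∈ H, f (-u) = ∏ u ∈ Hᶜ, f u := by
    refine prod_bij (fun u _ => -u) ?_ ?_ ?_ ?_
    · intro u hu
      rw [mem_compl]
      exact (hH u).1 hu
    · intro u _ v _ h
      exact neg_injective h
    · intro u hu
      rw [mem_compl] at hu
      refine ⟨-u, ?_, neg_neg u⟩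
      rw [hH, neg_neg]
      exact hu
    · intro u _
      rfl
  rw [h1, prod_mul_prod_compl]

lemma Th_neg {a b : ZMod M} (ha : a ≠ 0) (hb : b ≠ 0) (hab : a + b ≠ 0) (u : (ZMod M)ˣ) :
    u ∈ Th a b ↔ -u ∉ Th a b := by
  unfold Th
  simp only [mem_filter, mem_univ, true_and]
  have key : ∀ a : ZMod M, a ≠ 0 → ((-u : (ZMod M)ˣ) * a : ZMod M).val = M - ((u : ZMod M) * a).val := by
    intro a ha
    have h1 : ((-u : (ZMod M)ˣ) * a : ZMod M) = -((u : ZMod M) * a) := by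
      rw [Units.val_neg]
      ring
    have : NeZero ((u : ZMod M) * a) := ⟨fun h => ha ((Units.mul_right_eq_zero u).1 h)⟩
    rw [h1, ZMod.val_neg_of_ne_zero]
  rw [key a ha, key b hb]
  have h1 := ZMod.val_lt ((u : ZMod M) * a)
  have h2 := ZMod.val_lt ((u : ZMod M) * b)
  have h3 : ((u : ZMod M) * a).val + ((u : ZMod M) * b).val ≠ M := by
    intro h
    have h4 : ((u : ZMod M) * a + (u : ZMod M) * b).val = 0 := by
      rw [ZMod.val_add, h, Nat.mod_self]
    rw [ZMod.val_eq_zero, ← mul_add] at h4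
    exact hab ((Units.mul_right_eq_zero u).1 h4)
  omega

lemma norm_prod (α : 𝓞 K) : ((Algebra.norm ℤ α : ℤ) : 𝓞 K) = ∏ u : (ZMod M)ˣ, rs c u α := by
  have := isGal c
  apply RingOfIntegers.coe_injective
  rw [map_intCast, map_prod]
  have h1 := Algebra.norm_eq_prod_automorphisms ℚ (α : K)
  have h2 : algebraMap ℚ K (Algebra.norm ℚ (α : K)) = ((Algebra.norm ℤ α : ℤ) : K) := by
    rw [← Algebra.coe_norm_int]
    simp
  rw [← h2, h1]
  symm
  apply Fintype.prod_bijective c.σ ⟨sigma_inj c, c.all⟩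
  intro u
  rfl

lemma norm_th {a b : ZMod M} (ha : a ≠ 0) (hb : b ≠ 0) (hab : a + b ≠ 0) (α : 𝓞 K)
    (φ : K →+* ℂ) : ((‖φ ((∏ u ∈ Th a b, rs c u⁻¹ α : 𝓞 K) : K)‖ ^ 2 : ℝ) : ℂ) =
      ((Algebra.norm ℤ α : ℤ) : ℂ) := by
  have h1 : ∀ z : ℂ, ((‖z‖ ^ 2 : ℝ) : ℂ) = z * (starRingEnd ℂ) z := by
    intro z
    rw [Complex.mul_conj, Complex.normSq_eq_norm_sq]
  rw [h1, conj_rs c]
  set ψ : 𝓞 K →+* ℂ := φ.comp (algebraMap (𝓞 K) K) with hψ
  have h2 : ψ (∏ u ∈ Th a b, rs c u⁻¹ α) * ψ (rs c (-1) (∏ u ∈ Th a b, rs c u⁻¹ α)) =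
      ψ ((Algebra.norm ℤ α : ℤ) : 𝓞 K) := by
    rw [← map_mul, map_prod, norm_prod c]
    congr 1
    have h3 : ∀ u ∈ Th a b, rs c (-1) (rs c u⁻¹ α) = rs c (-u)⁻¹ α := by
      intro u _
      rw [← rs_mul]
      congr 1
      rw [neg_one_mul, inv_neg]
    rw [prod_congr rfl h3, prod_half (Th a b) (Th_neg ha hb hab) (fun u => rs c u⁻¹ α)]
    exact Equiv.prod_comp (Equiv.inv (ZMod M)ˣ) (fun u => rs c u α)
  rw [map_intCast] at h2
  exact h2

lemma dvd_prod_sub_one {ι R : Type*} [CommRing R] (s : Finset ι) (f : ι → R) (N : R)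
    (h : ∀ i ∈ s, N ∣ f i - 1) : N ∣ ∏ i ∈ s, f i - 1 := by
  classical
  induction s using Finset.induction_on with
  | empty => rw [prod_empty, sub_self]; exact dvd_zero _
  | insert i s hi ih =>
    rw [prod_insert hi]
    have h1 : f i * ∏ i ∈ s, f i - 1 = (f i - 1) * ∏ i ∈ s, f i + (∏ i ∈ s, f i - 1) := by ring
    rw [h1]
    exact dvd_add ((h i (mem_insert_self _ _)).mul_right _)
      (ih fun j hj => h j (mem_insert_of_mem hj))

lemma dvd_rs_sub_one {N : ℕ} {α : 𝓞 K} (h : (N : 𝓞 K) ∣ α - 1) (u : (ZMod M)ˣ) :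
    (N : 𝓞 K) ∣ rs c u α - 1 := by
  obtain ⟨x, hx⟩ := h
  refine ⟨rs c u x, ?_⟩
  rw [← map_natCast (rs c u) N, ← map_mul, ← hx, map_sub, map_one]

lemma norm_ext_neg {a : ZMod M} (ha : a ≠ 0) (φ : K →+* ℂ)
    {I : Ideal (𝓞 K)} (hI : Cop M I) : ‖φ (ext (JI c a (-a)) I)‖ = 1 := by
  refine ind_cop (M := M) (fun I => ‖φ (ext (JI c a (-a)) I)‖ = 1) ?_ ?_ ?_ hI
  · simp only [map_one, norm_one]
  · intro I J _ _ h1 h2
    simp only [map_mul, norm_mul]
    rw [h1, h2, one_mul]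
  · intro P hP
    obtain ⟨E, _, _, q, _, _, μ, g, hs, hμ, hk, hM, hg, hcard⟩ := exists_model P hP
    have hw := w_prim c q g hg μ
    have hneg : (-1 : E) ≠ 0 := neg_ne_zero.2 one_ne_zero
    rw [ext_prime, JI_eq c μ hs hk hw hM, JS_neg hw _ (e0_inj c) ha, ch_apply hw _ hneg]
    have h1 := norm_e0 c φ (a * lg M (μ (zz c)) (-1))
    have h2 : ((-(e0 c (a * lg M (μ (zz c)) (-1))) : 𝓞 K) : K) =
        -((e0 c (a * lg M (μ (zz c)) (-1)) : 𝓞 K) : K) := map_neg (algebraMap (𝓞 K) K) _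
    rw [h2, map_neg, norm_neg, h1]

end aux

section weil

variable {M : ℕ} [NeZero M] {K : Type} [Field K] [NumberField K] (c : Cy M K)

/-- the Stickelberger set, empty in the degenerate cases -/
def Th' (a b : ZMod M) : Finset (ZMod M)ˣ :=
  if a = 0 ∨ b = 0 ∨ a + b = 0 then ∅ else Th a b

/-- **Weil's theorem** -/
theorem weil {α : 𝓞 K} (hα : α ≠ 0) (h1 : ((M ^ 2 : ℕ) : 𝓞 K) ∣ α - 1)
    (hpos : 0 < Algebra.norm ℤ α) {a b : ZMod M} (hab : ¬ (a = 0 ∧ b = 0)) :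
    ext (JI c a b) (Ideal.span {α}) =
      (sg (Ideal.span {α}) : 𝓞 K) * ∏ u ∈ Th' a b, rs c u⁻¹ α := by
  classical
  set I : Ideal (𝓞 K) := Ideal.span {α} with hI
  have hcop : Cop M I := cop_of_congr hα (N := M ^ 2) (dvd_pow_self M (by norm_num))
    (Ideal.mem_span_singleton.2 h1)
  have hsg : (sg I : 𝓞 K) * (sg I : 𝓞 K) = 1 := by
    rw [← Int.cast_mul, sg_mul_self hcop.1, Int.cast_one]
  have hnorm : (Ideal.absNorm I : ℤ) = Algebra.norm ℤ α := by
    rw [hI, Ideal.absNorm_span_singleton, Int.natAbs_of_nonneg hpos.le]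
  -- divisibility
  have hdiv : ∀ a b : ZMod M, a ≠ 0 → b ≠ 0 → a + b ≠ 0 →
      (∏ u ∈ Th a b, rs c u⁻¹ α) ∣ ext (JI c a b) I := by
    intro a b ha hb hab
    have h2 := dvd_ext c ha hb hab hcop
    have h3 : (∏ u ∈ Th a b, I.map (rs c u⁻¹ : 𝓞 K →+* 𝓞 K)) =
        Ideal.span {∏ u ∈ Th a b, rs c u⁻¹ α} := by
      rw [← Ideal.prod_span_singleton]
      refine prod_congr rfl fun u _ => ?_
      rw [hI, Ideal.map_span, Set.image_singleton]
      rfl
    rw [h3, Ideal.dvd_iff_le, Ideal.span_singleton_le_span_singleton] at h2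
    exact h2
  have hex : ∀ a b : ZMod M, ∃ y : 𝓞 K, (a ≠ 0 → b ≠ 0 → a + b ≠ 0 →
      ext (JI c a b) I = (∏ u ∈ Th a b, rs c u⁻¹ α) * y) := by
    intro a b
    by_cases h : a ≠ 0 ∧ b ≠ 0 ∧ a + b ≠ 0
    · obtain ⟨y, hy⟩ := hdiv a b h.1 h.2.1 h.2.2
      exact ⟨y, fun _ _ _ => hy⟩
    · exact ⟨0, fun h1 h2 h3 => absurd ⟨h1, h2, h3⟩ h⟩
  choose y hy using hex
  obtain ⟨n, hn⟩ := nn_ext c hcop
  set ε : ZMod M → ZMod M → 𝓞 K := fun a b =>
    if a = 0 ∨ b = 0 then 1 else if a + b = 0 then (sg I : 𝓞 K) * ext (JI c a b) I else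
      (sg I : 𝓞 K) * y a b with hε
  have hsgn : ∀ φ : K →+* ℂ, ‖φ (((sg I : ℤ) : 𝓞 K) : K)‖ = 1 := by
    intro φ
    have h2 : ((((sg I : ℤ) : 𝓞 K)) : K) = ((sg I : ℤ) : K) := map_intCast (algebraMap (𝓞 K) K) _
    have h4 : ‖((sg I : ℤ) : ℂ)‖ ^ 2 = 1 := by
      rw [← norm_pow, pow_two, ← Int.cast_mul, sg_mul_self hcop.1, Int.cast_one, norm_one]
    rw [h2, map_intCast]
    nlinarith [norm_nonneg ((sg I : ℤ) : ℂ)]
  have key := rigid c ε (fun u v => sg I * n u v) ?_ ?_ ?_ ?_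
  · unfold Th'
    by_cases ha : a = 0
    · have hb : b ≠ 0 := fun h => hab ⟨ha, h⟩
      rw [if_pos (Or.inl ha), prod_empty, mul_one, ha]
      exact ext_zero_left c hb hcop
    · by_cases hb : b = 0
      · rw [if_pos (Or.inr (Or.inl hb)), prod_empty, mul_one, hb, ext_comm c a 0 hcop]
        exact ext_zero_left c ha hcop
      · have h2 := key a b
        rw [hε] at h2
        simp only at h2
        rw [if_neg (by tauto)] at h2
        by_cases hab' : a + b = 0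
        · rw [if_pos (Or.inr (Or.inr hab')), prod_empty, mul_one]
          rw [if_pos hab'] at h2
          calc ext (JI c a b) I = ((sg I : 𝓞 K) * (sg I : 𝓞 K)) * ext (JI c a b) I := by
                rw [hsg, one_mul]
            _ = (sg I : 𝓞 K) := by rw [mul_assoc, h2, mul_one]
        · rw [if_neg (by tauto)]
          rw [if_neg hab'] at h2
          rw [hy a b ha hb hab']
          have h5 : y a b = (sg I : 𝓞 K) := by
            calc y a b = ((sg I : 𝓞 K) * (sg I : 𝓞 K)) * y a b := by rw [hsg, one_mul]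
              _ = (sg I : 𝓞 K) := by rw [mul_assoc, h2, mul_one]
          rw [h5, mul_comm]
  · -- absolute values
    intro φ a b
    rw [hε]
    simp only
    split_ifs with h2 h3
    · simp only [map_one, norm_one]
    · push Not at h2
      have h4 : b = -a := (neg_eq_of_add_eq_zero_right h3).symm
      simp only [map_mul, norm_mul]
      rw [hsgn, h4, norm_ext_neg c h2.1 φ hcop, one_mul]
    · push Not at h2
      simp only [map_mul, norm_mul]
      rw [hsgn, one_mul]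
      have h5 := norm_ext c h2.1 h2.2 h3 φ hcop
      rw [hy a b h2.1 h2.2 h3] at h5
      simp only [map_mul, norm_mul, mul_pow] at h5
      have h6 := norm_th c h2.1 h2.2 h3 α φ
      rw [← hnorm] at h6
      have h7 : ‖φ ((∏ u ∈ Th a b, rs c u⁻¹ α : 𝓞 K) : K)‖ ^ 2 = (Ideal.absNorm I : ℝ) := by
        exact_mod_cast h6
      rw [h7] at h5
      have h8 : (Ideal.absNorm I : ℝ) ≠ 0 := by
        have : (Ideal.absNorm I : ℤ) ≠ 0 := by
          rw [hnorm]
          exact hpos.ne'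
        exact_mod_cast this
      have h9 : ‖φ (y a b)‖ ^ 2 = 1 := by
        have h10 : (Ideal.absNorm I : ℝ) * ‖φ (y a b)‖ ^ 2 = (Ideal.absNorm I : ℝ) * 1 := by
          rw [h5, mul_one]
        exact mul_left_cancel₀ h8 h10
      nlinarith [norm_nonneg (φ (y a b))]
  · -- congruences
    intro a b
    have h2 : ∑ u, ∑ v, ((sg I * n u v : ℤ) : 𝓞 K) * e0 c (a * u + b * v) =
        (sg I : 𝓞 K) * ext (JI c a b) I := by
      rw [hn, mul_sum]
      refine sum_congr rfl fun u _ => ?_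
      rw [mul_sum]
      refine sum_congr rfl fun v _ => ?_
      push_cast
      ring
    rw [h2, hε]
    simp only
    by_cases ha : a = 0
    · rw [if_pos (Or.inl ha), ha]
      by_cases hb : b = 0
      · rw [hb]
        obtain ⟨-, x, hx⟩ := ext_zero_zero c hcop
        have h3 : ((M ^ 2 : ℕ) : 𝓞 K) ∣ (Ideal.absNorm I : 𝓞 K) - 1 := by
          have h4 : (Ideal.absNorm I : 𝓞 K) = ∏ u : (ZMod M)ˣ, rs c u α := by
            rw [← norm_prod c, ← hnorm]
            push_cast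
            rfl
          rw [h4]
          exact dvd_prod_sub_one _ _ _ fun u _ => dvd_rs_sub_one c h1 u
        obtain ⟨z, hz⟩ := h3
        push_cast at hz
        refine ⟨z - (sg I : 𝓞 K) * x, ?_⟩
        linear_combination hz - (sg I : 𝓞 K) * hx + ((Ideal.absNorm I : 𝓞 K) - 2) * hsg
      · rw [ext_zero_left c hb hcop, hsg, sub_self]
        exact dvd_zero _
    · by_cases hb : b = 0
      · rw [if_pos (Or.inr hb), hb, ext_comm c a 0 hcop, ext_zero_left c ha hcop, hsg, sub_self]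
        exact dvd_zero _
      · rw [if_neg (by tauto)]
        by_cases hab' : a + b = 0
        · rw [if_pos hab', sub_self]
          exact dvd_zero _
        · rw [if_neg hab', hy a b ha hb hab']
          have h3 : ((M ^ 2 : ℕ) : 𝓞 K) ∣ (∏ u ∈ Th a b, rs c u⁻¹ α) - 1 :=
            dvd_prod_sub_one _ _ _ fun u _ => dvd_rs_sub_one c h1 u⁻¹
          obtain ⟨z, hz⟩ := h3
          push_cast at hz
          refine ⟨-(sg I : 𝓞 K) * y a b * z, ?_⟩
          linear_combination -(sg I : 𝓞 K) * y a b * hz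
  · intro a
    exact if_pos (Or.inr rfl)
  · intro b
    exact if_pos (Or.inl rfl)

end weil

end Pool.Agent.L0h11
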