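import Mathlib
import Pool.Agent.L0h11.Weil

/-!
# Gauss sums attached to prime ideals
-/

set_option autoImplicit false
set_option linter.unusedSectionVars false

namespace Pool.Agent.L0h11

open Finset NumberField IsDedekindDomain UniqueFactorizationMonoid

section ind

variable {K : Type} [Field K] [NumberField K]

lemma ind_S (S : HeightOneSpectrum (𝓞 K) → Prop) (p : Ideal (𝓞 K) → Prop) (h1 : p 1)
    (h2 : ∀ I J, p I → p J → p (I * J)) (h3 : ∀ P : HeightOneSpectrum (𝓞 K), S P → p P.asIdeal)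
    {I : Ideal (𝓞 K)} (hI : I ≠ 0) (hS : ∀ P : HeightOneSpectrum (𝓞 K), P.asIdeal ∣ I → S P) :
    p I := by
  revert hI hS
  induction I using UniqueFactorizationMonoid.induction_on_prime with
  | h₁ => intro h; exact absurd rfl h
  | h₂ I hI =>
    intro _ _
    rw [isUnit_iff_eq_one.1 hI]
    exact h1
  | h₃ I P hI hP ih =>
    intro _ h
    have hP' : P.IsPrime := Ideal.isPrime_of_prime hP
    exact h2 P I (h3 ⟨P, hP', hP.ne_zero⟩ (h ⟨P, hP', hP.ne_zero⟩ (dvd_mul_right P I)))
      (ih hI fun Q hQ => h Q (hQ.mul_left P))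

end ind

section gauss

variable {M : ℕ} [NeZero M] {E : Type} [Field E] [Fintype E] {w : E} (hw : IsPrimitiveRoot w M)
  {A : Type*} [CommRing A] [IsDomain A] (e : AddChar (ZMod M) A) (he : ∀ i, e i = 1 → i = 0)
  (ψ : AddChar E A)

/-- the Gauss sums -/
noncomputable def GG (a : ZMod M) : A := -gaussSum (ch hw e a) ψ

include he

lemma GG_zero (hψ : ψ.IsPrimitive) : GG hw e ψ 0 = 1 := by
  unfold GG
  have h1 : ψ ≠ 1 := by
    intro h
    have h2 := hψ one_ne_zero
    rw [AddChar.mulShift_one] at h2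
    exact h2 h
  rw [ch_zero, gaussSum_one_left h1, neg_neg]

lemma GG_mul {a b : ZMod M} (hab : a + b ≠ 0) :
    GG hw e ψ a * GG hw e ψ b = -JS hw e a b * GG hw e ψ (a + b) := by
  unfold GG JS
  have h1 : ch hw e a * ch hw e b ≠ 1 := by
    rw [← ch_add]
    exact (ch_eq_one_iff hw e he).not.2 hab
  have h2 := jacobiSum_mul_nontrivial h1 ψ
  rw [← ch_add] at h2
  linear_combination -h2

lemma GG_neg (hψ : ψ.IsPrimitive) {a : ZMod M} (ha : a ≠ 0) :
    GG hw e ψ a * GG hw e ψ (-a) = -JS hw e a (-a) * Fintype.card E := by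
  have h1 : ch hw e a ≠ 1 := (ch_eq_one_iff hw e he).not.2 ha
  have h2 := gaussSum_mul_gaussSum_pow_orderOf_sub_one h1 hψ
  have h3 : ch hw e a ^ (orderOf (ch hw e a) - 1) = ch hw e (-a) := by
    have h4 : ch hw e a ^ (orderOf (ch hw e a) - 1) * ch hw e a = ch hw e (-a) * ch hw e a := by
      rw [← pow_succ, Nat.sub_add_cancel (orderOf_pos _), pow_orderOf_eq_one, ← ch_add,
        neg_add_cancel, ch_zero]
    exact mul_right_cancel h4
  rw [h3] at h2
  rw [JS_neg hw e he ha]
  unfold GG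
  linear_combination h2

omit he in
/-- the action of a ring homomorphism -/
lemma GG_frob (τ : A →+* A) (t : ZMod M) (ht : ∀ i, τ (e i) = e (t * i)) (r : ℕ)
    (hr : (r : E) ≠ 0) (hψ : ∀ x, τ (ψ x) = ψ x ^ r) (a : ZMod M) :
    e (t * a * lg M w (r : E)) * τ (GG hw e ψ a) = GG hw e ψ (t * a) := by
  unfold GG
  have h1 : τ (gaussSum (ch hw e a) ψ) = gaussSum (ch hw e (t * a)) (ψ.mulShift (r : E)) := by
    unfold gaussSum
    rw [map_sum]
    refine sum_congr rfl fun x _ => ?_
    rw [map_mul, hψ, AddChar.mulShift_apply]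
    congr 1
    · by_cases hx : x = 0
      · rw [hx, MulChar.map_zero, MulChar.map_zero, map_zero]
      · rw [ch_apply hw e hx, ch_apply hw e hx, ht, mul_assoc]
    · rw [← AddChar.map_nsmul_eq_pow, nsmul_eq_mul]
  have h2 := gaussSum_mulShift (ch hw e (t * a)) ψ (Units.mk0 (r : E) hr)
  rw [Units.val_mk0, ch_apply hw e hr] at h2
  rw [map_neg, h1, ← h2]
  ring

end gauss

section char

/-- a primitive additive character with values in a ring containing the roots of unity of order
`p` -/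
lemma exists_psi {A : Type*} [CommRing A] [IsDomain A] (p : ℕ) [Fact p.Prime] {η : A}
    (hη : IsPrimitiveRoot η p) (E : Type) [Field E] [Finite E] [CharP E p] :
    ∃ ψ : AddChar E A, ψ.IsPrimitive ∧ ∀ x, ψ x ^ p = 1 := by
  obtain rfl : ringChar E = p := ringChar.eq E p
  let _ := ZMod.algebra E (ringChar E)
  set ψ' : AddChar (ZMod (ringChar E)) A := AddChar.zmodChar _ hη.pow_eq_one with hψ'
  have hp := (Fact.out : (ringChar E).Prime)
  refine ⟨ψ'.compAddMonoidHom (Algebra.trace (ZMod (ringChar E)) E).toAddMonoidHom, ?_, ?_⟩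
  · apply AddChar.IsPrimitive.of_ne_one
    obtain ⟨a, ha⟩ := FiniteField.trace_to_zmod_nondegenerate E one_ne_zero
    rw [one_mul] at ha
    rw [AddChar.ne_one_iff]
    refine ⟨a, fun h => ha ?_⟩
    have h1 : ψ' (Algebra.trace (ZMod (ringChar E)) E a) = 1 := h
    rw [hψ', AddChar.zmodChar_apply] at h1
    have h2 := hη.dvd_of_pow_eq_one _ h1
    exact (ZMod.val_eq_zero _).1 (Nat.eq_zero_of_dvd_of_lt h2 (ZMod.val_lt _))
  · intro x
    rw [AddChar.compAddMonoidHom_apply, hψ', AddChar.zmodChar_apply, ← pow_mul, mul_comm, pow_mul,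
      hη.pow_eq_one, one_pow]

end char

end Pool.Agent.L0h11
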