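import Mathlib
import Pool.Agent.L0h11.Gs

/-!
# Power residue symbols of rational integers (Kummer characters)
-/

set_option autoImplicit false
set_option linter.unusedSectionVars false

namespace Pool.Agent.L0h11

open Finset NumberField IsDedekindDomain UniqueFactorizationMonoid

section KI

variable {M : ℕ} [NeZero M] {K : Type} [Field K] [NumberField K] (c : Cy M K)

open Classical in
/-- the power residue symbol of an integer -/
noncomputable def KI (r : ℤ) (P : Ideal (𝓞 K)) : 𝓞 K :=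
  if h : P.IsMaximal ∧ P ≠ ⊥ ∧ ((M : ℕ) : 𝓞 K) ∉ P then
    letI : P.IsMaximal := h.1
    letI : Field (𝓞 K ⧸ P) := Ideal.Quotient.field P
    letI : Finite (𝓞 K ⧸ P) := Ideal.finiteQuotientOfFreeOfNeBot P h.2.1
    letI : Fintype (𝓞 K ⧸ P) := Fintype.ofFinite _
    ch (prim_map (Ideal.Quotient.mk P) (zz_prim c) (cast_ne_mk h.2.2)) (e0 c) 1
      (Ideal.Quotient.mk P (r : 𝓞 K))
  else 0

lemma KI_eq {P : Ideal (𝓞 K)} {E : Type} [Field E] [Fintype E] (μ : 𝓞 K →+* E)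
    (hs : Function.Surjective μ) (hμ : RingHom.ker μ = P) (hw : IsPrimitiveRoot (μ (zz c)) M)
    (hM : ((M : ℕ) : E) ≠ 0) (r : ℤ) :
    KI c r P = ch hw (e0 c) 1 (r : E) := by
  classical
  have hmax : P.IsMaximal := by
    rw [← hμ]
    exact RingHom.ker_isMaximal_of_surjective μ hs
  have hMP : ((M : ℕ) : 𝓞 K) ∉ P := by
    rw [← hμ, RingHom.mem_ker, map_natCast]
    exact hM
  have hbot : P ≠ ⊥ := by
    rintro rfl
    have h1 : Function.Injective μ := (RingHom.injective_iff_ker_eq_bot μ).2 hμ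
    have h2 : Finite (𝓞 K) := Finite.of_injective μ h1
    exact not_finite (𝓞 K)
  unfold KI
  rw [dif_pos ⟨hmax, hbot, hMP⟩]
  let _ : Field (𝓞 K ⧸ P) := Ideal.Quotient.field P
  let _ : Finite (𝓞 K ⧸ P) := Ideal.finiteQuotientOfFreeOfNeBot P hbot
  let _ : Fintype (𝓞 K ⧸ P) := Fintype.ofFinite _
  obtain ⟨f, hf⟩ := exists_equiv (Ideal.Quotient.mk P) μ Ideal.Quotient.mk_surjective hs
    (by rw [Ideal.mk_ker, hμ])
  have h1 := ch_equiv f (prim_map (Ideal.Quotient.mk P) (zz_prim c) (cast_ne_mk hMP)) hw (hf _)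
    (e0 c) 1 (Ideal.Quotient.mk P (r : 𝓞 K))
  rw [hf, map_intCast] at h1
  exact h1.symm

lemma KI_mul (r s : ℤ) {P : HeightOneSpectrum (𝓞 K)} (hP : ((M : ℕ) : 𝓞 K) ∉ P.asIdeal) :
    KI c (r * s) P.asIdeal = KI c r P.asIdeal * KI c s P.asIdeal := by
  obtain ⟨E, _, _, q, _, _, μ, g, hs, hμ, hk, hM, hg, hcard⟩ := exists_model P hP
  have hw := w_prim c q g hg μ
  rw [KI_eq c μ hs hk hw hM, KI_eq c μ hs hk hw hM, KI_eq c μ hs hk hw hM, Int.cast_mul, map_mul]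

lemma KI_zero_iff (r : ℤ) {P : HeightOneSpectrum (𝓞 K)} (hP : ((M : ℕ) : 𝓞 K) ∉ P.asIdeal) :
    KI c r P.asIdeal = 0 ↔ (r : 𝓞 K) ∈ P.asIdeal := by
  obtain ⟨E, _, _, q, _, _, μ, g, hs, hμ, hk, hM, hg, hcard⟩ := exists_model P hP
  have hw := w_prim c q g hg μ
  rw [KI_eq c μ hs hk hw hM, ← hμ, map_intCast μ]
  by_cases h : (r : E) = 0
  · rw [h, MulChar.map_zero]
    simp
  · rw [ch_apply hw _ h]
    refine ⟨fun h1 => absurd h1 ?_, fun h1 => absurd h1 h⟩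
    rw [e0_apply]
    exact pow_ne_zero _ ((zz_prim c).ne_zero (NeZero.ne M))

lemma ext_KI_mul (r s : ℤ) {I : Ideal (𝓞 K)} (hI : Cop M I) :
    ext (KI c (r * s)) I = ext (KI c r) I * ext (KI c s) I := by
  refine ind_cop (M := M) (fun I => ext (KI c (r * s)) I = ext (KI c r) I * ext (KI c s) I)
    ?_ ?_ ?_ hI
  · rw [map_one, map_one, map_one, one_mul]
  · intro I J _ _ h1 h2
    rw [map_mul, map_mul, map_mul, h1, h2]
    ring
  · intro P hP
    rw [ext_prime, ext_prime, ext_prime, KI_mul c r s hP]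

/-- values are roots of unity -/
lemma ext_KI_root (r : ℤ) {I : Ideal (𝓞 K)} (hI : I ≠ 0)
    (hS : ∀ P : HeightOneSpectrum (𝓞 K), P.asIdeal ∣ I →
      ((M : ℕ) : 𝓞 K) ∉ P.asIdeal ∧ (r : 𝓞 K) ∉ P.asIdeal) :
    ∃ i : ZMod M, ext (KI c r) I = e0 c i := by
  refine ind_S (fun P => ((M : ℕ) : 𝓞 K) ∉ P.asIdeal ∧ (r : 𝓞 K) ∉ P.asIdeal)
    (fun I => ∃ i : ZMod M, ext (KI c r) I = e0 c i) ?_ ?_ ?_ hI hS
  · exact ⟨0, by rw [map_one, AddChar.map_zero_eq_one]⟩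
  · rintro I J ⟨i, hi⟩ ⟨j, hj⟩
    exact ⟨i + j, by rw [map_mul, hi, hj, AddChar.map_add_eq_mul]⟩
  · rintro P ⟨hP, hr⟩
    obtain ⟨E, _, _, q, _, _, μ, g, hs, hμ, hk, hM, hg, hcard⟩ := exists_model P hP
    have hw := w_prim c q g hg μ
    have h1 : (r : E) ≠ 0 := by
      rw [← map_intCast μ, Ne, hμ]
      exact hr
    exact ⟨_, by rw [ext_prime, KI_eq c μ hs hk hw hM, ch_apply hw _ h1]⟩

end KI

section G

variable {M : ℕ} [NeZero M] {K : Type} [Field K] [NumberField K] (c : Cy M K)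
  {A : Type*} [CommRing A] [IsDomain A] (ι : 𝓞 K →+* A) (hι : Function.Injective ι)

include hι in
/-- a system of Gauss sums at the prime `P` -/
lemma exists_G (P : HeightOneSpectrum (𝓞 K)) (hP : ((M : ℕ) : 𝓞 K) ∉ P.asIdeal) (p : ℕ)
    (hp : p.Prime) (hpP : ((p : ℕ) : 𝓞 K) ∈ P.asIdeal) (hη : ∃ η : A, IsPrimitiveRoot η p) :
    ∃ G : ZMod M → A, G 0 = 1 ∧
      (∀ a b, a + b ≠ 0 → G a * G b = ι (-JI c a b P.asIdeal) * G (a + b)) ∧
      (∀ a, a ≠ 0 → G a * G (-a) = ι (-JI c a (-a) P.asIdeal * (Ideal.absNorm P.asIdeal : 𝓞 K))) ∧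
      ∀ (r : ℕ) (τ : A →+* A) (t : ZMod M), (r : 𝓞 K) ∉ P.asIdeal →
        (∀ i, τ (ι (e0 c i)) = ι (e0 c (t * i))) → (∀ η : A, η ^ p = 1 → τ η = η ^ r) →
        ∀ a, ι (KI c r P.asIdeal) ^ (t * a).val * τ (G a) = G (t * a) := by
  obtain ⟨E, _, _, q, _, _, μ, g, hs, hμ, hk, hM, hg, hcard⟩ := exists_model P hP
  have hw := w_prim c q g hg μ
  have hpq : p = q := by
    have h1 : ((p : ℕ) : E) = 0 := by
      rw [← map_natCast μ, hμ]
      exact hpP
    have h2 := (CharP.cast_eq_zero_iff E q p).1 h1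
    exact ((Nat.prime_dvd_prime_iff_eq (Fact.out) hp).1 h2).symm
  subst hpq
  obtain ⟨η, hη⟩ := hη
  obtain ⟨ψ, hψ, hψp⟩ := exists_psi p hη E
  set e : AddChar (ZMod M) A := ((ι : 𝓞 K →* A)).compAddChar (e0 c) with he
  have hei : ∀ i, e i = 1 → i = 0 := e0_map_inj c ι hι
  refine ⟨GG hw e ψ, GG_zero hw e hei ψ hψ, ?_, ?_, ?_⟩
  · intro a b hab
    rw [GG_mul hw e hei ψ hab, JI_eq c μ hs hk hw hM, map_neg, JS_map]
  · intro a ha
    rw [GG_neg hw e hei ψ hψ ha, JI_eq c μ hs hk hw hM, map_mul, map_neg, JS_map, map_natCast,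
      hcard]
  · intro r τ t hr hτ hτη a
    have hr' : (r : E) ≠ 0 := by
      rw [← map_natCast μ, Ne, hμ]
      exact hr
    have h1 := GG_frob hw e ψ τ t (fun i => hτ i) r hr' (fun x => hτη _ (hψp x)) a
    rw [← h1, KI_eq c μ hs hk hw hM]
    congr 1
    have h2 : (((r : ℕ) : ℤ) : E) = (r : E) := by push_cast; rfl
    rw [h2, ch_apply hw _ hr', one_mul, ← map_pow, e0_apply, ← pow_mul]
    show _ = ι (e0 c (t * a * lg M (μ (zz c)) (r : E)))
    congr 1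
    rw [e0_apply]
    have h4 : ∀ n : ℕ, zz c ^ n = zz c ^ (n : ZMod M).val := by
      intro n
      rw [ZMod.val_natCast]
      conv_lhs => rw [← pow_mod_orderOf, ← (zz_prim c).eq_orderOf]
    rw [h4]
    congr 2
    rw [Nat.cast_mul, ZMod.natCast_zmod_val, ZMod.natCast_zmod_val]
    ring

end G

section ideal

variable {M : ℕ} [NeZero M] {K : Type} [Field K] [NumberField K] (c : Cy M K)
  {A : Type*} [CommRing A] [IsDomain A] (ι : 𝓞 K →+* A) (hι : Function.Injective ι)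

include hι in
/-- products of Gauss sums over the prime factors of an ideal -/
lemma exists_GI (N : ℕ) (hη : ∀ p : ℕ, p.Prime → p ∣ N → ∃ η : A, IsPrimitiveRoot η p)
    {I : Ideal (𝓞 K)} (hI : I ≠ 0) (r : ℕ) (hIN : Ideal.absNorm I ∣ N)
    (hS : ∀ P : HeightOneSpectrum (𝓞 K), P.asIdeal ∣ I →
      ((M : ℕ) : 𝓞 K) ∉ P.asIdeal ∧ (r : 𝓞 K) ∉ P.asIdeal) (τ : A →+* A) (t : ZMod M)
    (hτ : ∀ i, τ (ι (e0 c i)) = ι (e0 c (t * i)))
    (hτη : ∀ p : ℕ, p.Prime → p ∣ N → ∀ η : A, η ^ p = 1 → τ η = η ^ r) :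
    ∃ G : ZMod M → A, G 0 = 1 ∧
      (∀ a b, a + b ≠ 0 → G a * G b = ι (sg I * ext (JI c a b) I) * G (a + b)) ∧
      (∀ a, a ≠ 0 → G a * G (-a) =
        ι (sg I * ext (JI c a (-a)) I * (Ideal.absNorm I : 𝓞 K))) ∧
      ∀ a, ι (ext (KI c r) I) ^ (t * a).val * τ (G a) = G (t * a) := by
  refine ind_S (fun P => Ideal.absNorm P.asIdeal ∣ N ∧
    ((M : ℕ) : 𝓞 K) ∉ P.asIdeal ∧ (r : 𝓞 K) ∉ P.asIdeal)
    (fun I => ∃ G : ZMod M → A, G 0 = 1 ∧
      (∀ a b, a + b ≠ 0 → G a * G b = ι (sg I * ext (JI c a b) I) * G (a + b)) ∧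
      (∀ a, a ≠ 0 → G a * G (-a) =
        ι (sg I * ext (JI c a (-a)) I * (Ideal.absNorm I : 𝓞 K))) ∧
      ∀ a, ι (ext (KI c r) I) ^ (t * a).val * τ (G a) = G (t * a)) ?_ ?_ ?_ hI ?_
  · refine ⟨fun _ => 1, rfl, ?_, ?_, ?_⟩
    · intro a b _
      simp only [sg_one, map_one, Int.cast_one, mul_one]
    · intro a _
      simp only [sg_one, map_one, Int.cast_one, mul_one, Nat.cast_one]
    · intro a
      simp only [map_one, one_pow, mul_one]
  · rintro I J ⟨G, g0, g1, g2, g3⟩ ⟨H, h0, h1, h2, h3⟩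
    refine ⟨fun a => G a * H a, by simp only; rw [g0, h0, one_mul], ?_, ?_, ?_⟩
    · intro a b hab
      have e1 := g1 a b hab
      have e2 := h1 a b hab
      rw [sg_mul, map_mul]
      simp only [Int.cast_mul, map_mul] at e1 e2 ⊢
      calc G a * H a * (G b * H b) = (G a * G b) * (H a * H b) := by ring
        _ = _ := by
          rw [e1, e2]
          ring
    · intro a ha
      have e1 := g2 a ha
      have e2 := h2 a ha
      rw [sg_mul, map_mul, map_mul]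
      simp only [Int.cast_mul, map_mul, Nat.cast_mul] at e1 e2 ⊢
      calc G a * H a * (G (-a) * H (-a)) = (G a * G (-a)) * (H a * H (-a)) := by ring
        _ = _ := by
          rw [e1, e2]
          ring
    · intro a
      rw [map_mul, map_mul, mul_pow, map_mul]
      calc _ = (ι (ext (KI c r) I) ^ (t * a).val * τ (G a)) *
            (ι (ext (KI c r) J) ^ (t * a).val * τ (H a)) := by ring
        _ = _ := by rw [g3, h3]
  · rintro P ⟨hN, hP, hr⟩
    obtain ⟨E, _, _, q, hq, _, μ, g, hs, hμ, hk, hM, hg, hcard⟩ := exists_model P hP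
    have hqN : q ∣ N := by
      refine dvd_trans ?_ hN
      rw [← hcard]
      obtain ⟨n, hq', hn⟩ := FiniteField.card E q
      rw [hn]
      exact dvd_pow_self q n.ne_zero
    have hqP : ((q : ℕ) : 𝓞 K) ∈ P.asIdeal := q_mem_P P q μ hμ
    obtain ⟨G, g0, g1, g2, g3⟩ := exists_G c ι hι P hP q Fact.out hqP (hη q Fact.out hqN)
    refine ⟨G, g0, ?_, ?_, ?_⟩
    · intro a b hab
      rw [g1 a b hab, sg_prime, ext_prime]
      push_cast
      rw [neg_one_mul]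
    · intro a ha
      rw [g2 a ha, sg_prime, ext_prime]
      push_cast
      rw [neg_one_mul]
    · intro a
      rw [ext_prime]
      exact g3 r τ t hr hτ (hτη q Fact.out hqN) a
  · intro P hP
    obtain ⟨h1, h2⟩ := hS P hP
    exact ⟨(map_dvd Ideal.absNorm hP).trans hIN, h1, h2⟩

end ideal

end Pool.Agent.L0h11
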