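import Mathlib
import Pool.Agent.L0h11.Kum

/-!
# Power reciprocity for rational integers
-/

set_option autoImplicit false
set_option linter.unusedSectionVars false

namespace Pool.Agent.L0h11

open Finset NumberField IsDedekindDomain UniqueFactorizationMonoid

section iota

variable {M : ℕ} [NeZero M] {K : Type} [Field K] [NumberField K] (c : Cy M K)
  {M' : ℕ} [NeZero M'] {F : Type} [Field F] [NumberField F] (c' : Cy M' F)

include c c' in
/-- the inclusion of cyclotomic rings -/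
lemma exists_iota (h : M ∣ M') : ∃ ι : 𝓞 K →+* 𝓞 F, Function.Injective ι := by
  obtain ⟨φ⟩ : Nonempty (K →+* ℂ) := inferInstance
  obtain ⟨φ'⟩ : Nonempty (F →+* ℂ) := inferInstance
  set α : 𝓞 K →+* ℂ := φ.comp (algebraMap (𝓞 K) K) with hα
  set β : 𝓞 F →+* ℂ := φ'.comp (algebraMap (𝓞 F) F) with hβ
  have hαi : Function.Injective α := φ.injective.comp RingOfIntegers.coe_injective
  have hβi : Function.Injective β := φ'.injective.comp RingOfIntegers.coe_injective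
  have h1 := (zz_prim c).map_of_injective hαi
  have h2 := (zz_prim c').map_of_injective hβi
  obtain ⟨d, rfl⟩ := h
  have h3 : (α (zz c)) ^ (M * d) = 1 := by rw [pow_mul, h1.pow_eq_one, one_pow]
  obtain ⟨k, -, hk⟩ := h2.eq_pow_of_pow_eq_one h3
  have h4 : ∀ x : 𝓞 K, ∃ y : 𝓞 F, β y = α x := by
    intro x
    obtain ⟨f, rfl⟩ := gen_zz c x
    refine ⟨Polynomial.eval₂ (Int.castRingHom (𝓞 F)) (zz c' ^ k) f, ?_⟩
    rw [hom_ev, hom_ev, map_pow, hk]
  choose g hg using h4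
  refine ⟨⟨⟨⟨g, ?_⟩, ?_⟩, ?_, ?_⟩, ?_⟩
  · apply hβi
    rw [hg, map_one, map_one]
  · intro x y
    apply hβi
    simp only
    rw [map_mul, hg, hg, hg, map_mul]
  · apply hβi
    simp only
    rw [hg, map_zero, map_zero]
  · intro x y
    apply hβi
    simp only
    rw [map_add, hg, hg, hg, map_add]
  · intro x y hxy
    apply hαi
    have h5 : g x = g y := hxy
    rw [← hg x, ← hg y, h5]

end iota

section frob

variable {M : ℕ} [NeZero M] {F : Type} [Field F] [NumberField F] (c : Cy M F)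

include c in
/-- a Frobenius automorphism at a prime above `r` -/
lemma exists_frob (r : ℕ) (hr : r.Prime) : ∃ (Q : HeightOneSpectrum (𝓞 F)) (τ : 𝓞 F →+* 𝓞 F),
    ((r : ℕ) : 𝓞 F) ∈ Q.asIdeal ∧ Function.Injective τ ∧ (∀ y ∈ Q.asIdeal, τ y ∈ Q.asIdeal) ∧
    ∀ (η : 𝓞 F) (m : ℕ), η ^ m = 1 → (m : 𝓞 F) ∉ Q.asIdeal → τ η = η ^ r := by
  have hgal := isGal c
  have hinv : Algebra.IsInvariant ℤ (𝓞 F) (𝓞 F ≃ₐ[ℤ] 𝓞 F) :=
    Algebra.isInvariant_of_isGalois' ℤ ℚ F (𝓞 F)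
  have hfin : Finite (𝓞 F ≃ₐ[ℤ] 𝓞 F) :=
    Finite.of_equiv _ (galRestrict ℤ ℚ F (𝓞 F)).toEquiv
  have hne : Ideal.span {((r : ℕ) : 𝓞 F)} ≠ ⊤ := by
    intro h
    rw [Ideal.span_singleton_eq_top] at h
    have h1 : IsUnit (((r : ℕ) : ℤ) : 𝓞 F) := by
      push_cast
      exact h
    have h2 := h1.map (Algebra.norm ℤ)
    rw [← eq_intCast (algebraMap ℤ (𝓞 F)), Algebra.norm_algebraMap, isUnit_pow_iff
      (Module.finrank_pos).ne'] at h2
    rw [Int.isUnit_iff] at h2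
    have := hr.two_le
    omega
  obtain ⟨m, hm, hle⟩ := Ideal.exists_le_maximal _ hne
  have hrm : ((r : ℕ) : 𝓞 F) ∈ m := hle (Ideal.mem_span_singleton_self _)
  have hbot : m ≠ ⊥ := by
    rintro rfl
    rw [Ideal.mem_bot] at hrm
    exact hr.ne_zero (by exact_mod_cast hrm)
  let Q : HeightOneSpectrum (𝓞 F) := ⟨m, hm.isPrime, hbot⟩
  have hQf : Finite (𝓞 F ⧸ Q.asIdeal) := Ideal.finiteQuotientOfFreeOfNeBot Q.asIdeal Q.ne_bot
  have hQp : Q.asIdeal.IsPrime := Q.isPrime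
  obtain ⟨σ, hσ⟩ := IsArithFrobAt.exists_of_isInvariant ℤ (𝓞 F ≃ₐ[ℤ] 𝓞 F) Q.asIdeal
  have hcard : Nat.card (ℤ ⧸ Q.asIdeal.under ℤ) = r := by
    have h1 : Q.asIdeal.under ℤ = Ideal.span {((r : ℕ) : ℤ)} := by
      have hmax : (Ideal.span {(r : ℤ)}).IsMaximal :=
        PrincipalIdealRing.isMaximal_of_irreducible (Nat.prime_iff_prime_int.1 hr).irreducible
      refine (hmax.eq_of_le (Ideal.IsPrime.under ℤ Q.asIdeal).ne_top ?_).symm
      rw [Ideal.span_singleton_le_iff_mem, Ideal.mem_comap]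
      simpa using hrm
    rw [h1]
    have := Nat.card_congr (Int.quotientSpanNatEquivZMod r).toEquiv
    rw [this, Nat.card_zmod]
  refine ⟨Q, ((MulSemiringAction.toAlgHom ℤ (𝓞 F) σ : 𝓞 F →ₐ[ℤ] 𝓞 F) : 𝓞 F →+* 𝓞 F), hrm, ?_,
    ?_, ?_⟩
  · intro x y hxy
    have h1 : σ • x = σ • y := hxy
    exact (MulAction.injective σ) h1
  · intro y hy
    have h1 := hσ.le_comap hy
    exact h1
  · intro η k hη hk
    have h1 := hσ.apply_of_pow_eq_one hη hk
    rw [hcard] at h1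
    exact h1

end frob

section val

variable {F : Type} [Field F] [NumberField F] (Q : HeightOneSpectrum (𝓞 F))

lemma val_arg {M : ℕ} [NeZero M] {ζ : 𝓞 F} (hζ : IsPrimitiveRoot ζ M) (x : 𝓞 F) (n : ℕ)
    (h : x ^ M - 1 ∈ Q.asIdeal ^ (n * M)) : ∃ j : ℕ, x - ζ ^ j ∈ Q.asIdeal ^ n := by
  classical
  by_contra hcon
  push Not at hcon
  have h1 : x ^ M - 1 = ∏ η ∈ Polynomial.nthRootsFinset M (1 : 𝓞 F), (x - η) := by
    have h2 := congrArg (Polynomial.eval x) (Polynomial.X_pow_sub_one_eq_prod (NeZero.pos M) hζ)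
    rw [Polynomial.eval_sub, Polynomial.eval_pow, Polynomial.eval_X, Polynomial.eval_one,
      Polynomial.eval_prod] at h2
    rw [h2]
    refine prod_congr rfl fun η _ => ?_
    rw [Polynomial.eval_sub, Polynomial.eval_X, Polynomial.eval_C]
  have h2 : ∀ η ∈ Polynomial.nthRootsFinset M (1 : 𝓞 F), ∃ k : ℤ, -(n : ℤ) + 1 ≤ k ∧
      Q.intValuation (x - η) = WithZero.exp k := by
    intro η hη
    rw [Polynomial.mem_nthRootsFinset (NeZero.pos M)] at hη
    obtain ⟨j, -, hj⟩ := hζ.eq_pow_of_pow_eq_one hη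
    have h3 := hcon j
    rw [hj] at h3
    have h4 : Q.intValuation (x - η) ≠ 0 := by
      apply HeightOneSpectrum.intValuation_ne_zero
      intro h5
      apply h3
      rw [h5]
      exact zero_mem _
    refine ⟨WithZero.log (Q.intValuation (x - η)), ?_, (WithZero.exp_log h4).symm⟩
    by_contra h5
    apply h3
    rw [← HeightOneSpectrum.intValuation_le_pow_iff_mem, ← WithZero.exp_log h4,
      WithZero.exp_le_exp]
    omega
  choose! k hk1 hk2 using h2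
  rw [← HeightOneSpectrum.intValuation_le_pow_iff_mem, h1, map_prod, prod_congr rfl hk2] at h
  have h3 : ∏ η ∈ Polynomial.nthRootsFinset M (1 : 𝓞 F), WithZero.exp (k η) =
      WithZero.exp (∑ η ∈ Polynomial.nthRootsFinset M (1 : 𝓞 F), k η) := by
    induction (Polynomial.nthRootsFinset M (1 : 𝓞 F)) using Finset.induction_on with
    | empty => simp
    | insert a s ha ih => rw [prod_insert ha, sum_insert ha, ih, WithZero.exp_add]
  rw [h3, WithZero.exp_le_exp] at h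
  have h4 : ∑ η ∈ Polynomial.nthRootsFinset M (1 : 𝓞 F), (-(n : ℤ) + 1) ≤
      ∑ η ∈ Polynomial.nthRootsFinset M (1 : 𝓞 F), k η := sum_le_sum hk1
  rw [sum_const, hζ.card_nthRootsFinset, nsmul_eq_mul] at h4
  have h5 : (0 : ℤ) < M := by exact_mod_cast NeZero.pos M
  push_cast at h
  nlinarith

lemma pow_mem_of_ring {τ : 𝓞 F →+* 𝓞 F} (hτ : ∀ y ∈ Q.asIdeal, τ y ∈ Q.asIdeal) (n : ℕ)
    {y : 𝓞 F} (hy : y ∈ Q.asIdeal ^ n) : τ y ∈ Q.asIdeal ^ n := by
  have h1 : Ideal.map τ Q.asIdeal ≤ Q.asIdeal := by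
    rw [Ideal.map_le_iff_le_comap]
    exact hτ
  have h2 : Ideal.map τ (Q.asIdeal ^ n) ≤ Q.asIdeal ^ n := by
    rw [Ideal.map_pow]
    exact Ideal.pow_right_mono h1 n
  exact h2 (Ideal.mem_map_of_mem τ hy)

end val

section main

variable {M : ℕ} [NeZero M] {K : Type} [Field K] [NumberField K] (c : Cy M K)

lemma pow_sub_pow_mem {A : Type*} [CommRing A] (I : Ideal A) {x y : A} (h : x - y ∈ I) (n : ℕ) :
    x ^ n - y ^ n ∈ I := by
  obtain ⟨z, hz⟩ := sub_dvd_pow_sub_pow x y n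
  rw [hz]
  exact I.mul_mem_right _ h

/-- **power reciprocity** for a prime number `r`, with a modulus of a known shape -/
theorem rec_prime_pow (r : ℕ) (hr : r.Prime) : ∃ n : ℕ, ∀ α : 𝓞 K, α ≠ 0 →
    ((M ^ 2 * r ^ n : ℕ) : 𝓞 K) ∣ α - 1 → 0 < Algebra.norm ℤ α →
      ext (KI c r) (Ideal.span {α}) = 1 := by
  classical
  obtain ⟨v, M', hM', hMv⟩ := Nat.exists_eq_pow_mul_and_not_dvd (NeZero.ne M) r hr.ne_one
  set K0 := (v + 1) * M with hK0
  refine ⟨K0, ?_⟩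
  intro α hα hdvd hpos
  set I : Ideal (𝓞 K) := Ideal.span {α} with hI
  have hd1 : ((M ^ 2 : ℕ) : 𝓞 K) ∣ α - 1 :=
    (Nat.cast_dvd_cast (dvd_mul_right _ _)).trans hdvd
  have hd2 : ((r ^ K0 : ℕ) : 𝓞 K) ∣ α - 1 :=
    (Nat.cast_dvd_cast (dvd_mul_left _ _)).trans hdvd
  have hcop : Cop M I := cop_of_congr hα (N := M ^ 2) (dvd_pow_self M (by norm_num))
    (Ideal.mem_span_singleton.2 hd1)
  have hsgn : (sg I : 𝓞 K) * (sg I : 𝓞 K) = 1 := by
    rw [← Int.cast_mul, sg_mul_self hcop.1, Int.cast_one]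
  have hnorm : (Ideal.absNorm I : ℤ) = Algebra.norm ℤ α := by
    rw [hI, Ideal.absNorm_span_singleton, Int.natAbs_of_nonneg hpos.le]
  set Nn := Ideal.absNorm I with hNn
  have hNn0 : Nn ≠ 0 := by
    intro h
    rw [h] at hnorm
    exact hpos.ne hnorm
  have : NeZero (M * Nn) := ⟨mul_ne_zero (NeZero.ne M) hNn0⟩
  -- the primes dividing `I`
  have hK0pos : 0 < K0 := Nat.mul_pos (Nat.succ_pos v) (NeZero.pos M)
  have hnotmem : ∀ P : HeightOneSpectrum (𝓞 K), P.asIdeal ∣ I → ∀ m : ℕ, (m : 𝓞 K) ∣ α - 1 →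
      (m : 𝓞 K) ∉ P.asIdeal := by
    intro P hP m hm hmP
    apply P.isPrime.ne_top
    rw [Ideal.eq_top_iff_one]
    have h1 : α ∈ P.asIdeal := by
      rw [Ideal.dvd_iff_le] at hP
      exact hP (Ideal.mem_span_singleton_self α)
    have h2 : α - 1 ∈ P.asIdeal := P.asIdeal.mem_of_dvd hm hmP
    have h3 := P.asIdeal.sub_mem h1 h2
    rwa [sub_sub_cancel] at h3
  have hrd : ((r : ℕ) : 𝓞 K) ∣ α - 1 :=
    (Nat.cast_dvd_cast (dvd_pow_self r hK0pos.ne')).trans hd2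
  have hMd : ((M : ℕ) : 𝓞 K) ∣ α - 1 :=
    (Nat.cast_dvd_cast (dvd_pow_self M (by norm_num))).trans hd1
  have hS : ∀ P : HeightOneSpectrum (𝓞 K), P.asIdeal ∣ I →
      ((M : ℕ) : 𝓞 K) ∉ P.asIdeal ∧ (r : 𝓞 K) ∉ P.asIdeal :=
    fun P hP => ⟨hnotmem P hP M hMd, hnotmem P hP r hrd⟩
  -- the big field
  obtain ⟨F, _, _, ⟨c'⟩⟩ := exists_cy (M * Nn)
  obtain ⟨ι, hι⟩ := exists_iota c c' (dvd_mul_right M Nn)
  obtain ⟨Q, τ, hrQ, hτi, hτQ, hτη⟩ := exists_frob c' r hr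
  -- the norm is `1` modulo `r ^ K0`
  have hth : ∀ (N : ℕ), (N : 𝓞 K) ∣ α - 1 → (N : 𝓞 K) ∣ (Nn : 𝓞 K) - 1 := by
    intro N hN
    have h4 : (Nn : 𝓞 K) = ∏ u : (ZMod M)ˣ, rs c u α := by
      rw [← norm_prod c, ← hnorm]
      push_cast
      rfl
    rw [h4]
    exact dvd_prod_sub_one _ _ _ fun u _ => dvd_rs_sub_one c hN u
  have hprQ : ∀ p : ℕ, p.Prime → p ∣ Nn → (p : 𝓞 F) ∉ Q.asIdeal := by
    intro p hp hpN hpQ
    have h1 := hth _ hrd
    have h2 : ((r : ℕ) : 𝓞 F) ∣ (Nn : 𝓞 F) - 1 := by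
      have h3 := map_dvd ι h1
      rwa [map_natCast, map_sub, map_natCast, map_one] at h3
    have h3 : (Nn : 𝓞 F) ∈ Q.asIdeal := Q.asIdeal.mem_of_dvd (Nat.cast_dvd_cast hpN) hpQ
    have h4 : (Nn : 𝓞 F) - 1 ∈ Q.asIdeal := Q.asIdeal.mem_of_dvd h2 hrQ
    have h5 := Q.asIdeal.sub_mem h3 h4
    rw [sub_sub_cancel] at h5
    exact Q.isPrime.ne_top ((Ideal.eq_top_iff_one _).2 h5)
  have hη : ∀ p : ℕ, p.Prime → p ∣ Nn → ∃ η : 𝓞 F, IsPrimitiveRoot η p := by
    intro p hp hpN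
    obtain ⟨d, hd⟩ := hpN
    refine ⟨zz c' ^ (M * d), (zz_prim c').pow (NeZero.pos _) ?_⟩
    rw [hd]
    ring
  -- the action on the `M`-th roots of unity
  have hζ : IsPrimitiveRoot (ι (zz c)) M := (zz_prim c).map_of_injective hι
  obtain ⟨k, -, hk⟩ := hζ.eq_pow_of_pow_eq_one (ξ := τ (ι (zz c)))
    (by rw [← map_pow, ← map_pow, (zz_prim c).pow_eq_one, map_one, map_one])
  set t : ZMod M := (k : ZMod M) with ht
  have hpv : ∀ n : ℕ, zz c ^ n = e0 c (n : ZMod M) := by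
    intro n
    rw [e0_apply, ZMod.val_natCast]
    conv_lhs => rw [← pow_mod_orderOf, ← (zz_prim c).eq_orderOf]
  have hτt : ∀ i, τ (ι (e0 c i)) = ι (e0 c (t * i)) := by
    intro i
    rw [e0_apply, map_pow, map_pow, ← hk, ← map_pow, ← map_pow, ← pow_mul, hpv]
    congr 2
    rw [Nat.cast_mul, ZMod.natCast_zmod_val]
  obtain ⟨G, g0, g1, g2, g3⟩ := exists_GI c ι hι Nn hη hcop.1 r dvd_rfl hS τ t hτt
    (fun p hp hpN η hη1 => hτη η p hη1 (hprQ p hp hpN))
  -- congruences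
  have hcong : ∀ a b : ZMod M, ((r ^ K0 : ℕ) : 𝓞 F) ∣ G a * G b - G (a + b) := by
    intro a b
    have hW : ¬ (a = 0 ∧ b = 0) → ((r ^ K0 : ℕ) : 𝓞 K) ∣ (sg I : 𝓞 K) * ext (JI c a b) I - 1 := by
      intro hab
      rw [hI, weil c hα hd1 hpos hab, ← mul_assoc, ← hI, hsgn, one_mul]
      exact dvd_prod_sub_one _ _ _ fun u _ => dvd_rs_sub_one c hd2 u⁻¹
    by_cases hab : a + b = 0
    · by_cases ha : a = 0
      · have hb : b = 0 := by rw [ha, zero_add] at hab; exact hab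
        rw [ha, hb, add_zero, g0, mul_one, sub_self]
        exact dvd_zero _
      · have hb : b = -a := (neg_eq_of_add_eq_zero_right hab).symm
        have h1 := hW (fun h => ha h.1)
        have h2 := hth _ hd2
        rw [hb] at h1 ⊢
        rw [add_neg_cancel, g0, g2 a ha]
        have h3 : ((r ^ K0 : ℕ) : 𝓞 K) ∣
            (sg I : 𝓞 K) * ext (JI c a (-a)) I * (Nn : 𝓞 K) - 1 := by
          have h4 : (sg I : 𝓞 K) * ext (JI c a (-a)) I * (Nn : 𝓞 K) - 1 =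
              ((sg I : 𝓞 K) * ext (JI c a (-a)) I - 1) * (Nn : 𝓞 K) + ((Nn : 𝓞 K) - 1) := by ring
          rw [h4]
          exact dvd_add (h1.mul_right _) h2
        have h5 := map_dvd ι h3
        rwa [map_natCast, map_sub, map_one] at h5
    · rw [g1 a b hab]
      have h1 := map_dvd ι (hW (fun h => hab (by rw [h.1, h.2, add_zero])))
      rw [map_natCast, map_sub, map_one] at h1
      have h2 : ι ((sg I : 𝓞 K) * ext (JI c a b) I) * G (a + b) - G (a + b) =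
          (ι ((sg I : 𝓞 K) * ext (JI c a b) I) - 1) * G (a + b) := by ring
      rw [h2]
      exact h1.mul_right _
  have hpow : ∀ n : ℕ, ((r ^ K0 : ℕ) : 𝓞 F) ∣ G 1 ^ n - G (n : ZMod M) := by
    intro n
    induction n with
    | zero =>
      rw [pow_zero, Nat.cast_zero, g0, sub_self]
      exact dvd_zero _
    | succ n ih =>
      have h1 : G 1 ^ (n + 1) - G ((n + 1 : ℕ) : ZMod M) =
          (G 1 ^ n - G (n : ZMod M)) * G 1 + (G (n : ZMod M) * G 1 - G ((n : ZMod M) + 1)) := by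
        push_cast
        ring
      rw [h1]
      exact dvd_add (ih.mul_right _) (hcong _ _)
  -- valuations
  have hr0 : ((r : ℕ) : 𝓞 F) ≠ 0 := by exact_mod_cast hr.ne_zero
  have hvr : Q.intValuation ((r : ℕ) : 𝓞 F) ≠ 0 := HeightOneSpectrum.intValuation_ne_zero _ _ hr0
  obtain ⟨e, he⟩ : ∃ e : ℤ, Q.intValuation ((r : ℕ) : 𝓞 F) = WithZero.exp (-e) :=
    ⟨-(WithZero.log (Q.intValuation ((r : ℕ) : 𝓞 F))), by rw [neg_neg, WithZero.exp_log hvr]⟩
  have he0 : 1 ≤ e := by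
    have h1 : ((r : ℕ) : 𝓞 F) ∈ Q.asIdeal ^ 1 := by rwa [pow_one]
    rw [← HeightOneSpectrum.intValuation_le_pow_iff_mem, he, WithZero.exp_le_exp] at h1
    push_cast at h1
    omega
  obtain ⟨e', rfl⟩ := Int.eq_ofNat_of_zero_le (by omega : 0 ≤ e)
  have hre : ((r : ℕ) : 𝓞 F) ∈ Q.asIdeal ^ e' := by
    rw [← HeightOneSpectrum.intValuation_le_pow_iff_mem, he]
  have hrK : ((r ^ K0 : ℕ) : 𝓞 F) ∈ Q.asIdeal ^ (e' * (v + 1) * M) := by
    push_cast
    have h1 := Ideal.pow_mem_pow hre K0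
    rwa [← pow_mul, hK0, ← mul_assoc] at h1
  have hrK' : ((r ^ K0 : ℕ) : 𝓞 F) ∈ Q.asIdeal ^ (e' * (v + 1)) :=
    Ideal.pow_le_pow_right (Nat.le_mul_of_pos_right _ (NeZero.pos M)) hrK
  have hx : G 1 ^ M - 1 ∈ Q.asIdeal ^ (e' * (v + 1) * M) := by
    have h1 := hpow M
    rw [ZMod.natCast_self, g0] at h1
    exact (Q.asIdeal ^ _).mem_of_dvd h1 hrK
  obtain ⟨j, hj⟩ := val_arg Q hζ (G 1) _ hx
  have hjj : ι (zz c) ^ j = ι (e0 c (j : ZMod M)) := by rw [← map_pow, hpv]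
  rw [hjj] at hj
  -- apply Frobenius
  have h1 := pow_mem_of_ring Q hτQ _ hj
  rw [map_sub, hτt] at h1
  have h2 := g3 1
  rw [mul_one] at h2
  have h3 : G 1 ^ t.val - G t ∈ Q.asIdeal ^ (e' * (v + 1)) := by
    have h4 := hpow t.val
    rw [ZMod.natCast_zmod_val] at h4
    exact (Q.asIdeal ^ _).mem_of_dvd h4 hrK'
  have h4 := pow_sub_pow_mem _ hj t.val
  have h5 : ι (e0 c (j : ZMod M)) ^ t.val = ι (e0 c (t * (j : ZMod M))) := by
    rw [← hpv j, ← map_pow, ← pow_mul, hpv]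
    congr 2
    rw [Nat.cast_mul, ZMod.natCast_zmod_val, mul_comm]
  rw [h5] at h4
  obtain ⟨i0, hi0⟩ := ext_KI_root c (r : ℤ) hcop.1 (fun P hP => by
    obtain ⟨h, h'⟩ := hS P hP
    exact ⟨h, by push_cast; exact h'⟩)
  have h6 : ι (ext (KI c r) I) ^ t.val = ι (e0 c (t * i0)) := by
    rw [hi0, ← map_pow, e0_apply, ← pow_mul, hpv]
    congr 2
    rw [Nat.cast_mul, ZMod.natCast_zmod_val, ZMod.natCast_zmod_val, mul_comm]
  rw [h6] at h2
  have h7 : ι (e0 c (t * i0)) - 1 ∈ Q.asIdeal ^ (e' * (v + 1)) := by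
    have h8 : ι (e0 c (t * i0)) - 1 = ι (e0 c (-(t * (j : ZMod M)))) *
        (-(ι (e0 c (t * i0)) * (τ (G 1) - ι (e0 c (t * (j : ZMod M))))) +
        -(G 1 ^ t.val - G t) + (G 1 ^ t.val - ι (e0 c (t * (j : ZMod M))))) := by
      have h9 : ι (e0 c (-(t * (j : ZMod M)))) * ι (e0 c (t * (j : ZMod M))) = 1 := by
        rw [← map_mul, ← AddChar.map_add_eq_mul, neg_add_cancel, AddChar.map_zero_eq_one, map_one]
      rw [← h2]
      linear_combination (1 - ι (e0 c (t * i0))) * h9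
    rw [h8]
    apply Ideal.mul_mem_left
    refine Ideal.add_mem _ (Ideal.add_mem _ ?_ ?_) h4
    · exact neg_mem (Ideal.mul_mem_left _ _ h1)
    · exact neg_mem h3
  -- conclusion
  have h8 : t * i0 = 0 := by
    by_contra hne
    obtain ⟨m, hm⟩ : ∃ m, M = m + 1 := ⟨M - 1, by have := NeZero.pos M; omega⟩
    have hζ' : IsPrimitiveRoot (ι (zz c)) (m + 1) := by rw [← hm]; exact hζ
    have h9 := hζ'.prod_one_sub_pow_eq_order
    have h10 : (0 : ℕ) < (t * i0).val := by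
      rw [ZMod.val_pos]
      exact hne
    have h11 := ZMod.val_lt (t * i0)
    have h12 : ((M : ℕ) : 𝓞 F) ∈ Q.asIdeal ^ (e' * (v + 1)) := by
      have h13 : (1 - ι (zz c) ^ ((t * i0).val - 1 + 1)) ∣ ((m + 1 : ℕ) : 𝓞 F) := by
        have h14 := dvd_prod_of_mem (fun i => 1 - ι (zz c) ^ (i + 1))
          (mem_range.2 (by omega : (t * i0).val - 1 < m))
        rw [h9] at h14
        push_cast
        exact h14
      rw [← hm, Nat.sub_add_cancel h10] at h13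
      apply (Q.asIdeal ^ _).mem_of_dvd h13
      have h15 : ι (zz c) ^ (t * i0).val = ι (e0 c (t * i0)) := by rw [e0_apply, map_pow]
      rw [h15, ← neg_sub]
      exact neg_mem h7
    have hM'Q : ((M' : ℕ) : 𝓞 F) ∉ Q.asIdeal := by
      intro h
      have hcop' : Nat.Coprime r M' := (hr.coprime_iff_not_dvd).2 hM'
      have h13 : IsCoprime ((r : ℕ) : ℤ) ((M' : ℕ) : ℤ) := Nat.isCoprime_iff_coprime.2 hcop'
      obtain ⟨x, y, hxy⟩ := h13
      have h14 := congrArg (Int.cast : ℤ → 𝓞 F) hxy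
      push_cast at h14
      apply Q.isPrime.ne_top
      rw [Ideal.eq_top_iff_one, ← h14]
      exact Ideal.add_mem _ (Ideal.mul_mem_left _ _ hrQ) (Ideal.mul_mem_left _ _ h)
    rw [← HeightOneSpectrum.intValuation_le_pow_iff_mem, hMv] at h12
    push_cast at h12
    rw [map_mul, map_pow, he, HeightOneSpectrum.intValuation_eq_one_iff.2 hM'Q, mul_one,
      ← WithZero.exp_nsmul, WithZero.exp_le_exp] at h12
    rw [nsmul_eq_mul] at h12
    push_cast at h12
    nlinarith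
  have h9 : i0 = 0 := by
    apply e0_inj c
    apply hι
    apply hτi
    rw [hτt, h8, AddChar.map_zero_eq_one, map_one, map_one]
  rw [hi0, h9, AddChar.map_zero_eq_one]

/-- **power reciprocity** for a prime number `r` -/
theorem rec_prime (r : ℕ) (hr : r.Prime) : ∃ N : ℕ, 0 < N ∧ ∀ α : 𝓞 K, α ≠ 0 →
    ((N : ℕ) : 𝓞 K) ∣ α - 1 → 0 < Algebra.norm ℤ α → ext (KI c r) (Ideal.span {α}) = 1 := by
  obtain ⟨n, hn⟩ := rec_prime_pow c r hr
  exact ⟨M ^ 2 * r ^ n, Nat.mul_pos (pow_pos (NeZero.pos M) 2) (pow_pos hr.pos _), hn⟩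

/-- power reciprocity holds for the integer `r` -/
def Rcp (r : ℤ) : Prop := ∃ N : ℕ, 0 < N ∧ ∀ α : 𝓞 K, α ≠ 0 →
    ((N : ℕ) : 𝓞 K) ∣ α - 1 → 0 < Algebra.norm ℤ α → ext (KI c r) (Ideal.span {α}) = 1

lemma Rcp.mul {r s : ℤ} (hr : Rcp c r) (hs : Rcp c s) : Rcp c (r * s) := by
  obtain ⟨N, hN, h⟩ := hr
  obtain ⟨N', hN', h'⟩ := hs
  refine ⟨N * N' * M, Nat.mul_pos (Nat.mul_pos hN hN') (NeZero.pos M), fun α hα hd hp => ?_⟩
  have hd1 : ((N : ℕ) : 𝓞 K) ∣ α - 1 :=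
    (Nat.cast_dvd_cast ((dvd_mul_right N N').mul_right M)).trans hd
  have hd2 : ((N' : ℕ) : 𝓞 K) ∣ α - 1 :=
    (Nat.cast_dvd_cast ((dvd_mul_left N' N).mul_right M)).trans hd
  have hcop : Cop M (Ideal.span {α}) := cop_of_congr hα (N := N * N' * M) (dvd_mul_left _ _)
    (Ideal.mem_span_singleton.2 hd)
  rw [ext_KI_mul c r s hcop, h α hα hd1 hp, h' α hα hd2 hp, one_mul]

lemma rcp_neg_one : Rcp c (-1) := by
  refine ⟨M ^ 2, pow_pos (NeZero.pos M) 2, fun α hα hd hp => ?_⟩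
  have hcop : Cop M (Ideal.span {α}) := cop_of_congr hα (N := M ^ 2)
    (dvd_pow_self M (by norm_num)) (Ideal.mem_span_singleton.2 hd)
  by_cases hM1 : M = 1
  · subst hM1
    obtain ⟨i, hi⟩ := ext_KI_root c (-1) hcop.1 (fun P hP => by
      have h1 : P.asIdeal ≠ ⊤ := P.isPrime.ne_top
      constructor
      · rw [Nat.cast_one, ← Ideal.eq_top_iff_one]
        exact h1
      · intro h2
        apply h1
        rw [Ideal.eq_top_iff_one]
        have h3 := neg_mem h2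
        push_cast at h3
        rwa [neg_neg] at h3)
    rw [hi, Subsingleton.elim i 0, AddChar.map_zero_eq_one]
  · have h10 : (1 : ZMod M) ≠ 0 := by
      have : Fact (1 < M) := ⟨by have := NeZero.pos M; omega⟩
      exact one_ne_zero
    have h1 := weil c hα hd hp (a := 1) (b := -1) (fun h => h10 h.1)
    unfold Th' at h1
    rw [if_pos (Or.inr (Or.inr (add_neg_cancel 1))), prod_empty, mul_one] at h1
    have h2 : ext (JI c 1 (-1)) (Ideal.span {α}) =
        (sg (Ideal.span {α}) : 𝓞 K) * ext (KI c (-1)) (Ideal.span {α}) := by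
      refine ind_cop (M := M) (fun I => ext (JI c 1 (-1)) I = (sg I : 𝓞 K) * ext (KI c (-1)) I)
        ?_ ?_ ?_ hcop
      · rw [map_one, map_one, sg_one, Int.cast_one, one_mul]
      · intro I J _ _ h3 h4
        rw [map_mul, map_mul, sg_mul, h3, h4]
        push_cast
        ring
      · intro P hP
        obtain ⟨E, _, _, q, _, _, μ, g, hs, hμ, hk, hM, hg, hcard⟩ := exists_model P hP
        have hw := w_prim c q g hg μ
        rw [ext_prime, ext_prime, sg_prime, JI_eq c μ hs hk hw hM, KI_eq c μ hs hk hw hM,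
          JS_neg hw _ (e0_inj c) h10]
        push_cast
        ring
    rw [h1] at h2
    have hsgn : (sg (Ideal.span {α}) : 𝓞 K) * (sg (Ideal.span {α}) : 𝓞 K) = 1 := by
      rw [← Int.cast_mul, sg_mul_self hcop.1, Int.cast_one]
    calc ext (KI c (-1)) (Ideal.span {α}) =
        ((sg (Ideal.span {α}) : 𝓞 K) * (sg (Ideal.span {α}) : 𝓞 K)) *
          ext (KI c (-1)) (Ideal.span {α}) := by rw [hsgn, one_mul]
      _ = 1 := by rw [mul_assoc, ← h2, hsgn]

lemma rcp_one : Rcp c 1 := by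
  have h := (rcp_neg_one c).mul c (rcp_neg_one c)
  norm_num at h
  exact h

/-- **power reciprocity** for rational integers -/
theorem rcp_int {r : ℤ} (hr : r ≠ 0) : Rcp c r := by
  have h1 : ∀ n : ℕ, n ≠ 0 → Rcp c (n : ℤ) := by
    intro n
    induction n using Nat.recOnMul with
    | zero => intro h; exact absurd rfl h
    | one => intro _; rw [Nat.cast_one]; exact rcp_one c
    | prime p hp => intro _; exact rec_prime c p hp
    | mul a b ha hb =>
      intro h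
      rw [Nat.cast_mul]
      exact (ha (left_ne_zero_of_mul h)).mul c (hb (right_ne_zero_of_mul h))
  rcases Int.natAbs_eq r with h | h
  · rw [h]
    exact h1 _ (Int.natAbs_ne_zero.2 hr)
  · rw [h, ← neg_one_mul]
    exact (rcp_neg_one c).mul c (h1 _ (Int.natAbs_ne_zero.2 hr))

end main

end Pool.Agent.L0h11
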