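import Mathlib
import Pool.Agent.L0h11.Rec
import Pool.Agent.N172.HS.Nrm

/-!
# The Hecke characters of diagonal hypersurfaces
-/

set_option autoImplicit false
set_option linter.unusedSectionVars false

namespace Pool.Agent.L0h11

open Finset NumberField IsDedekindDomain UniqueFactorizationMonoid
open Pool.Agent.N172.HS (TotPos arch IsHecke arch_add arch_zero totPos_norm coe_intNorm)

section HT

variable {K : Type} [Field K] [NumberField K]

lemma norm_pos_of_totPos {x : 𝓞 K} (hx : x ≠ 0) (h : TotPos x) : 0 < Algebra.norm ℤ x := by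
  have h1 := totPos_norm (F := ℚ) hx h (Rat.castHom ℝ)
  rw [coe_intNorm, ← Algebra.coe_norm_int] at h1
  simp only [eq_ratCast, Rat.cast_intCast] at h1
  exact_mod_cast h1

lemma natAbs_mem (P : Ideal (𝓞 K)) {r : ℤ} (h : (r : 𝓞 K) ∈ P) : ((r.natAbs : ℕ) : 𝓞 K) ∈ P := by
  have h1 : r ∣ (r.natAbs : ℤ) := Int.dvd_natAbs.2 dvd_rfl
  have h2 := Int.cast_dvd_cast (α := 𝓞 K) _ _ h1
  rw [Int.cast_natCast] at h2
  exact P.mem_of_dvd h2 h

/-- the function `v` on primes defines a Hecke character -/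
def HT (v : Ideal (𝓞 K) → ℂ) : Prop := ∃ (N : ℕ) (k : (K →+* ℂ) → ℤ), 0 < N ∧
  (∀ P : HeightOneSpectrum (𝓞 K), (N : 𝓞 K) ∉ P.asIdeal → ‖v P.asIdeal‖ = 1) ∧
  ∀ α : 𝓞 K, α ≠ 0 → (N : 𝓞 K) ∣ α - 1 → TotPos α →
    ext v (Ideal.span {α}) = arch k 0 (α : K)

lemma ext_mul_fun {R : Type*} [CommMonoidWithZero R] (v v' : Ideal (𝓞 K) → R) {I : Ideal (𝓞 K)}
    (hI : I ≠ 0) : ext (fun P => v P * v' P) I = ext v I * ext v' I := by
  refine ind_S (fun _ => True) (fun I => ext (fun P => v P * v' P) I = ext v I * ext v' I)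
    ?_ ?_ ?_ hI (fun _ _ => trivial)
  · rw [map_one, map_one, map_one, one_mul]
  · intro I J h1 h2
    rw [map_mul, map_mul, map_mul, h1, h2, mul_mul_mul_comm]
  · intro P _
    rw [ext_prime, ext_prime, ext_prime]

lemma ext_congr {R : Type*} [CommMonoidWithZero R] (v v' : Ideal (𝓞 K) → R) {I : Ideal (𝓞 K)}
    (hI : I ≠ 0) (h : ∀ P : HeightOneSpectrum (𝓞 K), P.asIdeal ∣ I → v P.asIdeal = v' P.asIdeal) :
    ext v I = ext v' I := by
  refine ind_S (fun P => v P.asIdeal = v' P.asIdeal) (fun I => ext v I = ext v' I)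
    ?_ ?_ ?_ hI h
  · rw [map_one, map_one]
  · intro I J h1 h2
    rw [map_mul, map_mul, h1, h2]
  · intro P hP
    rw [ext_prime, ext_prime, hP]

lemma HT.mul {v v' : Ideal (𝓞 K) → ℂ} (h : HT v) (h' : HT v') : HT (fun P => v P * v' P) := by
  obtain ⟨N, k, hN, hn, hr⟩ := h
  obtain ⟨N', k', hN', hn', hr'⟩ := h'
  refine ⟨N * N', k + k', Nat.mul_pos hN hN', ?_, ?_⟩
  · intro P hP
    have h1 : (N : 𝓞 K) ∉ P.asIdeal := fun h => hP (by push_cast; exact P.asIdeal.mul_mem_right _ h)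
    have h2 : (N' : 𝓞 K) ∉ P.asIdeal := fun h => hP (by push_cast; exact P.asIdeal.mul_mem_left _ h)
    rw [norm_mul, hn P h1, hn' P h2, one_mul]
  · intro α hα hd hp
    have h1 : (N : 𝓞 K) ∣ α - 1 := (Nat.cast_dvd_cast (dvd_mul_right _ _)).trans hd
    have h2 : (N' : 𝓞 K) ∣ α - 1 := (Nat.cast_dvd_cast (dvd_mul_left _ _)).trans hd
    have h3 : Ideal.span {α} ≠ 0 := by
      rwa [Ne, Ideal.zero_eq_bot, Ideal.span_singleton_eq_bot]
    have h4 := arch_add (k := k) (t := 0) (l := k') (u := 0) hα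
    rw [add_zero] at h4
    rw [ext_mul_fun v v' h3, hr α hα h1 hp, hr' α hα h2 hp, h4]

lemma HT.one : HT (fun _ : Ideal (𝓞 K) => (1 : ℂ)) := by
  refine ⟨1, 0, one_pos, fun P _ => norm_one, fun α hα _ _ => ?_⟩
  have h3 : Ideal.span {α} ≠ 0 := by
    rwa [Ne, Ideal.zero_eq_bot, Ideal.span_singleton_eq_bot]
  rw [arch_zero]
  refine ind_S (fun _ => True) (fun I => ext (fun _ => (1 : ℂ)) I = 1) ?_ ?_ ?_ h3
    (fun _ _ => trivial)
  · rw [map_one]
  · intro I J h1 h2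
    rw [map_mul, h1, h2, one_mul]
  · intro P _
    rw [ext_prime]

lemma HT.pow {v : Ideal (𝓞 K) → ℂ} (h : HT v) (n : ℕ) : HT (fun P => v P ^ n) := by
  induction n with
  | zero => simp only [pow_zero]; exact HT.one
  | succ n ih => simp only [pow_succ]; exact ih.mul h

lemma HT.prod {ι : Type*} (s : Finset ι) {v : ι → Ideal (𝓞 K) → ℂ} (h : ∀ i ∈ s, HT (v i)) :
    HT (fun P => ∏ i ∈ s, v i P) := by
  classical
  induction s using Finset.induction_on with
  | empty => simp only [prod_empty]; exact HT.one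
  | insert i s hi ih =>
    simp only [prod_insert hi]
    exact (h i (mem_insert_self _ _)).mul (ih fun j hj => h j (mem_insert_of_mem hj))

open Classical in
/-- the Hecke character -/
noncomputable def hk (v : Ideal (𝓞 K) → ℂ) (N : ℕ) : Ideal (𝓞 K) →*₀ ℂ :=
  ext (fun P => if (N : 𝓞 K) ∈ P then 0 else v P)

lemma hk_prime (v : Ideal (𝓞 K) → ℂ) (N : ℕ) (P : HeightOneSpectrum (𝓞 K))
    (hP : (N : 𝓞 K) ∉ P.asIdeal) : hk v N P.asIdeal = v P.asIdeal := by
  unfold hk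
  rw [ext_prime, if_neg hP]

theorem HT.hecke {v : Ideal (𝓞 K) → ℂ} (h : HT v) (N0 : ℕ) (hN0 : 0 < N0) :
    ∃ (N : ℕ) (k : (K →+* ℂ) → ℤ), 0 < N ∧ N0 ∣ N ∧
      IsHecke (Ideal.span {(N : 𝓞 K)}) k 0 (hk v N) := by
  classical
  obtain ⟨N, k, hN, hn, hr⟩ := h
  have hNN : 0 < N * N0 := Nat.mul_pos hN hN0
  refine ⟨N * N0, k, hNN, dvd_mul_left _ _, ?_⟩
  have hsub : ∀ P : HeightOneSpectrum (𝓞 K), ((N * N0 : ℕ) : 𝓞 K) ∉ P.asIdeal →
      (N : 𝓞 K) ∉ P.asIdeal := fun P hP h => hP (by push_cast; exact P.asIdeal.mul_mem_right _ h)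
  constructor
  · rw [Ne, Ideal.span_singleton_eq_bot]
    exact_mod_cast hNN.ne'
  · intro I hI
    unfold hk
    rw [ext_ne_zero]
    constructor
    · rintro ⟨-, h1⟩
      rw [Ideal.isCoprime_iff_sup_eq]
      by_contra hcon
      obtain ⟨m, hm, hle⟩ := Ideal.exists_le_maximal _ hcon
      have hIm : I ≤ m := le_sup_left.trans hle
      have hbot : m ≠ ⊥ := by
        rintro rfl
        exact hI (le_bot_iff.1 hIm)
      have h2 := h1 ⟨m, hm.isPrime, hbot⟩ (Ideal.dvd_iff_le.2 hIm)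
      apply h2
      rw [if_pos]
      exact hle (Ideal.mem_sup_right (Ideal.mem_span_singleton_self _))
    · intro h1
      refine ⟨hI, fun P hP => ?_⟩
      have h2 : ((N * N0 : ℕ) : 𝓞 K) ∉ P.asIdeal := by
        intro h3
        rw [Ideal.isCoprime_iff_sup_eq] at h1
        apply P.isPrime.ne_top
        rw [eq_top_iff, ← h1]
        exact sup_le (Ideal.dvd_iff_le.1 hP) ((Ideal.span_singleton_le_iff_mem _).2 h3)
      rw [if_neg h2]
      intro h3
      have h4 := hn P (hsub P h2)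
      rw [h3, norm_zero] at h4
      exact zero_ne_one h4
  · intro I h0
    have h0' := h0
    unfold hk at h0
    rw [ext_ne_zero] at h0
    obtain ⟨hI, hS⟩ := h0
    refine ind_S (fun P => (if ((N * N0 : ℕ) : 𝓞 K) ∈ P.asIdeal then (0 : ℂ) else v P.asIdeal) ≠ 0)
      (fun I => ‖hk v (N * N0) I‖ = 1) ?_ ?_ ?_ hI hS
    · rw [map_one, norm_one]
    · intro I J h1 h2
      rw [map_mul, norm_mul, h1, h2, one_mul]
    · intro P hP
      have h2 : ((N * N0 : ℕ) : 𝓞 K) ∉ P.asIdeal := by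
        intro h3
        rw [if_pos h3] at hP
        exact hP rfl
      rw [hk_prime v _ P h2, hn P (hsub P h2)]
  · intro α hα h1 hp
    have h3 : Ideal.span {α} ≠ 0 := by
      rwa [Ne, Ideal.zero_eq_bot, Ideal.span_singleton_eq_bot]
    have hd : ((N * N0 : ℕ) : 𝓞 K) ∣ α - 1 := Ideal.mem_span_singleton.1 h1
    have hd1 : ((N : ℕ) : 𝓞 K) ∣ α - 1 := (Nat.cast_dvd_cast (dvd_mul_right _ _)).trans hd
    rw [← hr α hα hd1 hp]
    unfold hk
    apply ext_congr _ _ h3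
    intro P hP
    rw [if_neg]
    intro hmP
    apply P.isPrime.ne_top
    rw [Ideal.eq_top_iff_one]
    have h4 : α ∈ P.asIdeal := by
      rw [Ideal.dvd_iff_le] at hP
      exact hP (Ideal.mem_span_singleton_self α)
    have h5 : α - 1 ∈ P.asIdeal := P.asIdeal.mem_of_dvd hd hmP
    have h6 := P.asIdeal.sub_mem h4 h5
    rwa [sub_sub_cancel] at h6

end HT

section jt

variable {M : ℕ} [NeZero M] {K : Type} [Field K] [NumberField K] (c : Cy M K) (φ : K →+* ℂ)

/-- the normalised Jacobi sums -/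
noncomputable def jt (a s : ZMod M) (P : Ideal (𝓞 K)) : ℂ :=
  if a = 0 ∨ s = 0 then 1 else
    -φ (JI c a s P) / (if a + s = 0 then 1 else (Real.sqrt (Ideal.absNorm P) : ℂ))

lemma map_sg (I : Ideal (𝓞 K)) : φ (((sg I : ℤ) : 𝓞 K) : K) = ((sg I : ℤ) : ℂ) := by
  have h2 : ((((sg I : ℤ) : 𝓞 K)) : K) = ((sg I : ℤ) : K) := map_intCast (algebraMap (𝓞 K) K) _
  rw [h2, map_intCast]

lemma absNorm_pos' {I : Ideal (𝓞 K)} (hI : I ≠ 0) : 0 < (Ideal.absNorm I : ℝ) := by
  have : Ideal.absNorm I ≠ 0 := by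
    rw [Ne, Ideal.absNorm_eq_zero_iff]
    exact hI
  positivity

lemma ht_jt (a s : ZMod M) : HT (jt c φ a s) := by
  classical
  by_cases h0 : a = 0 ∨ s = 0
  · have h1 : jt c φ a s = fun _ => 1 := by
      funext P
      unfold jt
      rw [if_pos h0]
    rw [h1]
    exact HT.one
  have hne : ¬ (a = 0 ∧ s = 0) := fun h => h0 (Or.inl h.1)
  push Not at h0
  refine ⟨M ^ 2, fun ρ => ((Th' a s).filter fun u => φ.comp (c.σ u⁻¹ : K →+* K) = ρ).card,
    pow_pos (NeZero.pos M) 2, ?_, ?_⟩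
  · intro P hP
    have hP' : ((M : ℕ) : 𝓞 K) ∉ P.asIdeal := by
      intro h
      apply hP
      push_cast
      exact Ideal.pow_mem_of_mem _ h 2 (by norm_num)
    unfold jt
    rw [if_neg (by tauto)]
    have hcop := (cop_prime (M := M) P).2 hP'
    by_cases h1 : a + s = 0
    · rw [if_pos h1, div_one, norm_neg]
      have h2 : s = -a := (neg_eq_of_add_eq_zero_right h1).symm
      have h3 := norm_ext_neg c h0.1 φ hcop
      rw [ext_prime, ← h2] at h3
      exact h3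
    · rw [if_neg h1, norm_div, norm_neg]
      have h3 := norm_ext c h0.1 h0.2 h1 φ hcop
      rw [ext_prime] at h3
      have h4 : ‖φ (JI c a s P.asIdeal)‖ = Real.sqrt (Ideal.absNorm P.asIdeal) := by
        rw [← h3, Real.sqrt_sq (norm_nonneg _)]
      rw [h4, Complex.norm_real, Real.norm_of_nonneg (Real.sqrt_nonneg _), div_self]
      exact (Real.sqrt_pos.2 (absNorm_pos' P.ne_bot)).ne'
  · intro α hα hd hp
    have hpos := norm_pos_of_totPos hα hp
    set I : Ideal (𝓞 K) := Ideal.span {α} with hI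
    have hcop : Cop M I := cop_of_congr hα (N := M ^ 2) (dvd_pow_self M (by norm_num))
      (Ideal.mem_span_singleton.2 hd)
    have hnorm : (Ideal.absNorm I : ℤ) = Algebra.norm ℤ α := by
      rw [hI, Ideal.absNorm_span_singleton, Int.natAbs_of_nonneg hpos.le]
    have hw := weil c hα hd hpos hne
    rw [← hI] at hw
    -- the product
    have h1 : ext (jt c φ a s) I = ((sg I : ℤ) : ℂ) * φ (ext (JI c a s) I) /
        (if a + s = 0 then 1 else (Real.sqrt (Ideal.absNorm I) : ℂ)) := by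
      refine ind_cop (M := M) (fun I => ext (jt c φ a s) I = ((sg I : ℤ) : ℂ) *
        φ (ext (JI c a s) I) / (if a + s = 0 then 1 else (Real.sqrt (Ideal.absNorm I) : ℂ)))
        ?_ ?_ ?_ hcop
      · simp only [map_one, sg_one, Nat.cast_one, Real.sqrt_one, Int.cast_one, Complex.ofReal_one,
          ite_self, mul_one, div_one]
      · intro I J _ _ h3 h4
        simp only [map_mul, sg_mul, h3, h4]
        push_cast
        by_cases h5 : a + s = 0
        · simp only [if_pos h5]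
          ring
        · simp only [if_neg h5]
          rw [Real.sqrt_mul (Nat.cast_nonneg _)]
          push_cast
          ring
      · intro P _
        rw [ext_prime, ext_prime, sg_prime]
        unfold jt
        rw [if_neg (by tauto)]
        push_cast
        rw [neg_one_mul]
    rw [h1, hw]
    have hsgn : ((sg I : ℤ) : ℂ) * ((sg I : ℤ) : ℂ) = 1 := by
      rw [← Int.cast_mul, sg_mul_self hcop.1, Int.cast_one]
    have h2 : φ (((sg I : 𝓞 K) * ∏ u ∈ Th' a s, rs c u⁻¹ α : 𝓞 K) : K) =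
        ((sg I : ℤ) : ℂ) * φ ((∏ u ∈ Th' a s, rs c u⁻¹ α : 𝓞 K) : K) := by
      rw [← map_sg φ I, ← map_mul]
      congr 1
    rw [h2, ← mul_assoc, hsgn, one_mul]
    -- the archimedean factor
    have h3 : arch (fun ρ => (((Th' a s).filter fun u => φ.comp (c.σ u⁻¹ : K →+* K) = ρ).card : ℤ))
        0 (α : K) = ∏ u ∈ Th' a s, (φ ((rs c u⁻¹ α : 𝓞 K) : K) /
          (‖φ ((rs c u⁻¹ α : 𝓞 K) : K)‖ : ℂ)) := by
      unfold arch
      have h4 : ∀ ρ : K →+* ℂ, ((ρ (α : K) / (‖ρ (α : K)‖ : ℂ)) ^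
          ((((Th' a s).filter fun u => φ.comp (c.σ u⁻¹ : K →+* K) = ρ).card : ℤ)) *
          Complex.exp ((((0 : (K →+* ℂ) → ℝ) ρ) * Real.log ‖ρ (α : K)‖ : ℝ) * Complex.I)) =
          ∏ u ∈ (Th' a s).filter fun u => φ.comp (c.σ u⁻¹ : K →+* K) = ρ,
            (φ ((rs c u⁻¹ α : 𝓞 K) : K) / (‖φ ((rs c u⁻¹ α : 𝓞 K) : K)‖ : ℂ)) := by
        intro ρ
        rw [Pi.zero_apply, zero_mul, Complex.ofReal_zero, zero_mul, Complex.exp_zero, mul_one,
          zpow_natCast, ← prod_const]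
        refine prod_congr rfl fun u hu => ?_
        rw [mem_filter] at hu
        rw [← hu.2]
        rfl
      rw [prod_congr rfl fun ρ _ => h4 ρ]
      exact prod_fiberwise (Th' a s) (fun u => φ.comp (c.σ u⁻¹ : K →+* K)) _
    rw [h3, prod_div_distrib]
    have h5 : φ ((∏ u ∈ Th' a s, rs c u⁻¹ α : 𝓞 K) : K) =
        ∏ u ∈ Th' a s, φ ((rs c u⁻¹ α : 𝓞 K) : K) :=
      map_prod (φ.comp (algebraMap (𝓞 K) K)) _ _
    rw [h5]
    congr 1
    by_cases h6 : a + s = 0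
    · unfold Th'
      rw [if_pos h6, if_pos (Or.inr (Or.inr h6)), prod_empty]
    · rw [if_neg h6]
      have h7 : Th' a s = Th a s := by
        unfold Th'
        rw [if_neg (by tauto)]
      rw [h7] at h5 ⊢
      have h8 := norm_th c h0.1 h0.2 h6 α φ
      rw [← hnorm, h5] at h8
      have h9 : ‖∏ u ∈ Th a s, φ ((rs c u⁻¹ α : 𝓞 K) : K)‖ ^ 2 = (Ideal.absNorm I : ℝ) := by
        exact_mod_cast h8
      rw [← h9, Real.sqrt_sq (norm_nonneg _), _root_.norm_prod]
      push_cast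
      rfl

lemma ht_KI {r : ℤ} (hr : r ≠ 0) : HT (fun P => φ (KI c r P)) := by
  obtain ⟨N, hN, h⟩ := rcp_int c hr
  refine ⟨N * (M * r.natAbs), 0, Nat.mul_pos hN (Nat.mul_pos (NeZero.pos M)
    (Int.natAbs_pos.2 hr)), ?_, ?_⟩
  · intro P hP
    have h1 : ((M : ℕ) : 𝓞 K) ∉ P.asIdeal := by
      intro h1
      apply hP
      rw [Nat.cast_mul, Nat.cast_mul]
      exact P.asIdeal.mul_mem_left _ (P.asIdeal.mul_mem_right _ h1)
    have h2 : ((r : ℤ) : 𝓞 K) ∉ P.asIdeal := by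
      intro h2
      apply hP
      rw [Nat.cast_mul, Nat.cast_mul]
      exact P.asIdeal.mul_mem_left _ (P.asIdeal.mul_mem_left _ (natAbs_mem _ h2))
    obtain ⟨i, hi⟩ := ext_KI_root c r (I := P.asIdeal) P.ne_bot (fun Q hQ => by
      have h3 : Q = P := by
        apply HeightOneSpectrum.ext
        exact (P.isMaximal.eq_of_le Q.isPrime.ne_top (Ideal.dvd_iff_le.1 hQ)).symm
      rw [h3]
      exact ⟨h1, h2⟩)
    rw [ext_prime] at hi
    simp only
    rw [hi]
    exact norm_e0 c φ i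
  · intro α hα hd hp
    have hd1 : ((N : ℕ) : 𝓞 K) ∣ α - 1 := (Nat.cast_dvd_cast (dvd_mul_right _ _)).trans hd
    have hd2 : ((M : ℕ) : 𝓞 K) ∣ α - 1 :=
      (Nat.cast_dvd_cast ((dvd_mul_right M _).mul_left N)).trans hd
    have h1 := h α hα hd1 (norm_pos_of_totPos hα hp)
    have h3 : Ideal.span {α} ≠ 0 := by
      rwa [Ne, Ideal.zero_eq_bot, Ideal.span_singleton_eq_bot]
    have h2 : ext (fun P => φ (KI c r P)) (Ideal.span {α}) = φ (ext (KI c r) (Ideal.span {α})) := by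
      refine ind_S (fun _ => True) (fun I => ext (fun P => φ (KI c r P)) I = φ (ext (KI c r) I))
        ?_ ?_ ?_ h3 (fun _ _ => trivial)
      · simp only [map_one]
      · intro I J h3 h4
        simp only [map_mul, h3, h4]
      · intro P _
        rw [ext_prime, ext_prime]
    rw [h2, h1, arch_zero]
    simp only [map_one]

end jt

section main

variable {M : ℕ} [NeZero M] {K : Type} [Field K] [NumberField K] (c : Cy M K) (φ : K →+* ℂ)

/-- the normalised Gauss sums -/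
noncomputable def GC {E : Type} [Field E] [Fintype E] {w : E} (hw : IsPrimitiveRoot w M)
    (ψ : AddChar E ℂ) (a : ZMod M) : ℂ :=
  if a = 0 then 1 else GG hw (eC c φ) ψ a / (Real.sqrt (Fintype.card E) : ℂ)

lemma GC_mul {E : Type} [Field E] [Fintype E] (μ : 𝓞 K →+* E) (hs : Function.Surjective μ)
    {P : Ideal (𝓞 K)} (hk : RingHom.ker μ = P) (hw : IsPrimitiveRoot (μ (zz c)) M)
    (hM : ((M : ℕ) : E) ≠ 0) (hcard : Fintype.card E = Ideal.absNorm P)
    (ψ : AddChar E ℂ) (hψ : ψ.IsPrimitive) (a s : ZMod M) :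
    GC c φ hw ψ a * GC c φ hw ψ s = jt c φ a s P * GC c φ hw ψ (a + s) := by
  have hq : (Real.sqrt (Fintype.card E) : ℂ) ≠ 0 := by
    have : (0 : ℝ) < Fintype.card E := by exact_mod_cast Fintype.card_pos
    exact_mod_cast (Real.sqrt_pos.2 this).ne'
  have hq2 : (Real.sqrt (Fintype.card E) : ℂ) * (Real.sqrt (Fintype.card E) : ℂ) =
      Fintype.card E := by
    rw [← Complex.ofReal_mul, Real.mul_self_sqrt (Nat.cast_nonneg _)]
    push_cast
    rfl
  have hJ : ∀ a b : ZMod M, φ ((JI c a b P : 𝓞 K) : K) = JS hw (eC c φ) a b := by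
    intro a b
    rw [JI_eq c μ hs hk hw hM]
    exact JS_map hw (e0 c) (φ.comp (algebraMap (𝓞 K) K)) a b
  unfold jt GC
  by_cases ha : a = 0
  · rw [if_pos ha, if_pos (Or.inl ha), ha, zero_add]
  · by_cases hs' : s = 0
    · rw [if_pos hs', if_pos (Or.inr hs'), hs', add_zero, if_neg ha]
      ring
    · rw [if_neg ha, if_neg hs', if_neg (by tauto), ← hcard, hJ]
      by_cases has : a + s = 0
      · rw [if_pos has, if_pos has, div_one, mul_one]
        have h1 : s = -a := (neg_eq_of_add_eq_zero_right has).symm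
        have h2 := GG_neg hw (eC c φ) (eC_inj c φ) ψ hψ ha
        rw [← h1] at h2
        rw [div_mul_div_comm, h2, hq2, mul_div_assoc, div_self, mul_one]
        rw [← hq2]
        exact mul_ne_zero hq hq
      · rw [if_neg has, if_neg has, div_mul_div_comm, div_mul_div_comm,
          GG_mul hw (eC c φ) (eC_inj c φ) ψ has]

/-- products of normalised Gauss sums -/
lemma exists_prod {ι : Type*} (b : ι → ZMod M) (S : Finset ι) : ∃ v : Ideal (𝓞 K) → ℂ, HT v ∧
    ∀ (E : Type) [Field E] [Fintype E] (μ : 𝓞 K →+* E), Function.Surjective μ →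
    ∀ (P : Ideal (𝓞 K)), RingHom.ker μ = P → ∀ (hw : IsPrimitiveRoot (μ (zz c)) M),
    ((M : ℕ) : E) ≠ 0 → Fintype.card E = Ideal.absNorm P →
    ∀ (ψ : AddChar E ℂ), ψ.IsPrimitive →
      ∏ i ∈ S, GC c φ hw ψ (b i) = v P * GC c φ hw ψ (∑ i ∈ S, b i) := by
  classical
  induction S using Finset.induction_on with
  | empty =>
    refine ⟨fun _ => 1, HT.one, ?_⟩
    intro E _ _ μ hs P hk hw hM hcard ψ hψ
    rw [prod_empty, sum_empty, one_mul]
    unfold GC
    rw [if_pos rfl]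
  | insert i S hi ih =>
    obtain ⟨v, hv, h⟩ := ih
    refine ⟨fun P => jt c φ (b i) (∑ i ∈ S, b i) P * v P, (ht_jt c φ _ _).mul hv, ?_⟩
    intro E _ _ μ hs P hk hw hM hcard ψ hψ
    rw [prod_insert hi, sum_insert hi, h E μ hs P hk hw hM hcard ψ hψ]
    have h1 := GC_mul c φ μ hs hk hw hM hcard ψ hψ (b i) (∑ i ∈ S, b i)
    calc GC c φ hw ψ (b i) * (v P * GC c φ hw ψ (∑ i ∈ S, b i)) =
        (GC c φ hw ψ (b i) * GC c φ hw ψ (∑ i ∈ S, b i)) * v P := by ring
      _ = _ := by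
        rw [h1]
        ring

/-- **the Hecke characters of diagonal hypersurfaces** -/
theorem exists_hecke {ι : Type*} [Fintype ι] (b : ι → ZMod M) (hb : ∑ i, b i = 0) (r : ι → ℤ)
    (hr : ∀ i, r i ≠ 0) (N0 : ℕ) (hN0 : 0 < N0) : ∃ (N : ℕ) (k : (K →+* ℂ) → ℤ)
    (χ : Ideal (𝓞 K) →*₀ ℂ), 0 < N ∧ N0 ∣ N ∧ IsHecke (Ideal.span {(N : 𝓞 K)}) k 0 χ ∧
    ∀ (E : Type) [Field E] [Fintype E] (μ : 𝓞 K →+* E), Function.Surjective μ →
    ∀ (P : HeightOneSpectrum (𝓞 K)), RingHom.ker μ = P.asIdeal → (N : 𝓞 K) ∉ P.asIdeal →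
    ∀ (hw : IsPrimitiveRoot (μ (zz c)) M), ((M : ℕ) : E) ≠ 0 →
    Fintype.card E = Ideal.absNorm P.asIdeal → ∀ (ψ : AddChar E ℂ), ψ.IsPrimitive →
      χ P.asIdeal = ∏ i, (GC c φ hw ψ (b i) * ch hw (eC c φ) (-(b i)) (r i : E)) := by
  classical
  obtain ⟨v, hv, h⟩ := exists_prod c φ b univ
  have h1 : HT (fun P => v P * ∏ i, (φ (KI c (r i) P)) ^ (-(b i)).val) :=
    hv.mul (HT.prod univ fun i _ => (ht_KI c φ (hr i)).pow _)
  have hprod : 0 < N0 * (M * ∏ i, (r i).natAbs) := by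
    refine Nat.mul_pos hN0 (Nat.mul_pos (NeZero.pos M) (prod_pos fun i _ => ?_))
    exact Int.natAbs_pos.2 (hr i)
  obtain ⟨N, k, hN, hdvd, hH⟩ := h1.hecke _ hprod
  refine ⟨N, k, _, hN, (dvd_mul_right _ _).trans hdvd, hH, ?_⟩
  intro E _ _ μ hs P hkP hNP hw hM hcard ψ hψ
  rw [hk_prime _ _ P hNP, prod_mul_distrib, h E μ hs P.asIdeal hkP hw hM hcard ψ hψ, hb]
  have h2 : GC c φ hw ψ 0 = 1 := if_pos rfl
  rw [h2, mul_one]
  congr 1
  refine prod_congr rfl fun i _ => ?_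
  have hri : ((r i : ℤ) : E) ≠ 0 := by
    intro h0
    apply hNP
    have h3 : ((r i : ℤ) : 𝓞 K) ∈ P.asIdeal := by
      rw [← hkP, RingHom.mem_ker, map_intCast]
      exact h0
    have h4 : (((r i).natAbs : ℕ) : 𝓞 K) ∈ P.asIdeal := natAbs_mem _ h3
    refine P.asIdeal.mem_of_dvd ?_ h4
    apply Nat.cast_dvd_cast
    exact ((dvd_prod_of_mem (fun i => (r i).natAbs) (mem_univ i)).mul_left M).mul_left N0 |>.trans
      hdvd
  rw [KI_eq c μ hs hkP hw hM, ch_apply hw _ hri, ch_apply hw _ hri, one_mul, eC_apply]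
  have h5 : ∀ (x : 𝓞 K) (n : ℕ), (φ (x : K)) ^ n = φ ((x ^ n : 𝓞 K) : K) := by
    intro x n
    exact (map_pow (φ.comp (algebraMap (𝓞 K) K)) x n).symm
  rw [h5, ← AddChar.map_nsmul_eq_pow, nsmul_eq_mul, ZMod.natCast_zmod_val]

end main

end Pool.Agent.L0h11
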