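import Mathlib
import Pool.Agent.L0h11.Gs

/-!
# The number of points of diagonal hypersurfaces (Weil)
-/

set_option autoImplicit false
set_option linter.unusedSectionVars false

namespace Pool.Agent.L0h11

open Finset

section

variable {F : Type} [Field F] [Fintype F]

open Classical in
/-- the number of points of the affine cone `∑ c_i x_i ^ m = 0` -/
noncomputable def cone (m : ℕ) {ι : Type*} [Fintype ι] (c : ι → ℤ) (F : Type) [Field F]
    [Fintype F] : ℕ :=
  Fintype.card {x : ι → F // ∑ i, (c i : F) * x i ^ m = 0}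

lemma gcd_dvd (m : ℕ) : Nat.gcd m (Fintype.card F - 1) ∣ Fintype.card F - 1 := Nat.gcd_dvd_right _ _

lemma gcd_pos' {m : ℕ} (hm : 0 < m) : 0 < Nat.gcd m (Fintype.card F - 1) :=
  Nat.gcd_pos_of_pos_left _ hm

lemma exists_w {d : ℕ} (hd : d ∣ Fintype.card F - 1) : ∃ w : F, IsPrimitiveRoot w d := by
  classical
  obtain ⟨g, hg⟩ := IsCyclic.exists_generator (α := Fˣ)
  have h1 : orderOf g = Fintype.card F - 1 := by
    rw [orderOf_eq_card_of_forall_mem_zpowers hg, Nat.card_eq_fintype_card, Fintype.card_units]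
  have hpos : 0 < Fintype.card F - 1 := by
    have := Fintype.one_lt_card (α := F)
    omega
  obtain ⟨k, hk⟩ := hd
  have h2 : IsPrimitiveRoot g (Fintype.card F - 1) := by
    rw [← h1]
    exact IsPrimitiveRoot.orderOf g
  have h3 := h2.pow hpos (by rw [hk, mul_comm] : Fintype.card F - 1 = k * d)
  exact ⟨((g ^ k : Fˣ) : F), IsPrimitiveRoot.coe_units_iff.2 h3⟩

variable {m : ℕ} (hm : 0 < m) {d : ℕ} [NeZero d] (hd : d = Nat.gcd m (Fintype.card F - 1))
  {w : F} (hw : IsPrimitiveRoot w d)

include hd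

omit [NeZero d] in
lemma pow_eq_one_iff' {y : F} (hy : y ≠ 0) : y ^ m = 1 ↔ y ^ d = 1 := by
  have h1 : y ^ (Fintype.card F - 1) = 1 := FiniteField.pow_card_sub_one_eq_one y hy
  rw [hd]
  constructor
  · intro h
    exact pow_gcd_eq_one.2 ⟨h, h1⟩
  · intro h
    exact (pow_gcd_eq_one.1 h).1

include hw

lemma lg_zero_iff {u : F} (hu : u ≠ 0) : lg d w u = 0 ↔ ∃ y : F, y ≠ 0 ∧ y ^ m = u := by
  have hQ : 0 < Fintype.card F - 1 := by
    have := Fintype.one_lt_card (α := F)
    omega
  have hdd : d ∣ Fintype.card F - 1 := by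
    rw [hd]
    exact Nat.gcd_dvd_right _ _
  have hdm : d ∣ m := by
    rw [hd]
    exact Nat.gcd_dvd_left _ _
  have hd0 : 0 < d := NeZero.pos d
  constructor
  · intro h
    have h1 := lg_spec hw hu
    rw [h, ZMod.val_zero, pow_zero] at h1
    have h2 : (Fintype.card F - 1) / d ∣ Fintype.card F - 1 := Nat.div_dvd_of_dvd hdd
    have h3 : 1 ≤ (Fintype.card F - 1) / d := Nat.div_pos (Nat.le_of_dvd hQ hdd) hd0
    obtain ⟨y, hy, hyu⟩ := Pool.Agent.W528.HB.exists_pow_eq' F h3 h2 h1.symm
    rw [Nat.div_div_self hdd (by omega)] at hyu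
    -- Bezout
    obtain ⟨Y, hY⟩ : ∃ Y : Fˣ, (Y : F) = y := ⟨Units.mk0 y hy, rfl⟩
    have h4 : Y ^ (Fintype.card F - 1) = 1 := by
      apply Units.ext
      rw [Units.val_pow_eq_pow_val, hY, Units.val_one]
      exact FiniteField.pow_card_sub_one_eq_one y hy
    have h5 : (d : ℤ) = m * Nat.gcdA m (Fintype.card F - 1) +
        ((Fintype.card F - 1 : ℕ) : ℤ) * Nat.gcdB m (Fintype.card F - 1) := by
      rw [hd]
      exact Nat.gcd_eq_gcd_ab m (Fintype.card F - 1)
    refine ⟨((Y ^ (Nat.gcdA m (Fintype.card F - 1)) : Fˣ) : F), Units.ne_zero _, ?_⟩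
    rw [← hyu, ← Units.val_pow_eq_pow_val]
    have h6 : (Y ^ (Nat.gcdA m (Fintype.card F - 1))) ^ m = Y ^ d := by
      rw [← zpow_natCast Y d, h5, zpow_add, zpow_mul Y ((Fintype.card F - 1 : ℕ) : ℤ), zpow_natCast,
        h4, one_zpow, mul_one, mul_comm, zpow_mul, zpow_natCast]
    rw [h6, Units.val_pow_eq_pow_val, hY]
  · rintro ⟨y, hy, rfl⟩
    apply lg_eq hw (pow_ne_zero m hy)
    rw [ZMod.val_zero, pow_zero, ← pow_mul]
    obtain ⟨k, hk⟩ := hdm
    have h1 : m * ((Fintype.card F - 1) / d) = (Fintype.card F - 1) * k := by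
      obtain ⟨l, hl⟩ := hdd
      rw [hl, Nat.mul_div_cancel_left _ hd0, hk]
      ring
    rw [h1, pow_mul, FiniteField.pow_card_sub_one_eq_one y hy, one_pow]

include hm in
open Classical in
/-- the number of `m`-th roots -/
lemma card_roots {e : AddChar (ZMod d) ℂ} (he : ∀ i, e i = 1 → i = 0) {u : F} (hu : u ≠ 0) :
    (((univ : Finset F).filter fun y => y ^ m = u).card : ℂ) = ∑ b : ZMod d, ch hw e b u := by
  have h1 : ∀ b : ZMod d, ch hw e b u = e (b * lg d w u) := fun b => ch_apply hw e hu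
  rw [sum_congr rfl fun b _ => h1 b, sum_e he]
  by_cases hl : lg d w u = 0
  · rw [if_pos hl]
    obtain ⟨y0, hy0, hy0u⟩ := (lg_zero_iff hd hw hu).1 hl
    have h2 : ((univ : Finset F).filter fun y => y ^ m = u).card =
        (Polynomial.nthRootsFinset d (1 : F)).card := by
      refine card_bij (fun y _ => y / y0) ?_ ?_ ?_
      · intro y hy
        rw [mem_filter] at hy
        have hy' : y ≠ 0 := by
          rintro rfl
          rw [zero_pow hm.ne'] at hy
          exact hu hy.2.symm
        rw [Polynomial.mem_nthRootsFinset (NeZero.pos d), ← pow_eq_one_iff' hd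
          (div_ne_zero hy' hy0), div_pow, hy.2, hy0u, div_self hu]
      · intro y _ z _ h
        exact (div_left_inj' hy0).1 h
      · intro z hz
        rw [Polynomial.mem_nthRootsFinset (NeZero.pos d)] at hz
        have hz0 : z ≠ 0 := by
          rintro rfl
          rw [zero_pow (NeZero.ne d)] at hz
          exact zero_ne_one hz
        refine ⟨z * y0, ?_, mul_div_cancel_right₀ z hy0⟩
        rw [mem_filter]
        refine ⟨mem_univ _, ?_⟩
        rw [mul_pow, (pow_eq_one_iff' hd hz0).2 hz, one_mul, hy0u]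
    rw [h2, hw.card_nthRootsFinset]
  · rw [if_neg hl, card_eq_zero.2, Nat.cast_zero]
    rw [filter_eq_empty_iff]
    intro y _ hy
    apply hl
    rw [lg_zero_iff hd hw hu]
    refine ⟨y, ?_, hy⟩
    rintro rfl
    rw [zero_pow hm.ne'] at hy
    exact hu hy.symm

include hm in
/-- the exponential sums -/
lemma sum_psi {e : AddChar (ZMod d) ℂ}
    (he : ∀ i, e i = 1 → i = 0) {ψ : AddChar F ℂ} (hψ : ψ.IsPrimitive) {a : F} (ha : a ≠ 0) :
    ∑ y : F, ψ (a * y ^ m) = ∑ b ∈ (univ : Finset (ZMod d)).erase 0,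
        ch hw e (-b) a * gaussSum (ch hw e b) ψ := by
  classical
  have h1 : ∑ y : F, ψ (a * y ^ m) =
      ∑ u : F, (((univ : Finset F).filter fun y => y ^ m = u).card : ℂ) * ψ (a * u) := by
    rw [← sum_fiberwise univ (fun y : F => y ^ m)]
    refine sum_congr rfl fun u _ => ?_
    rw [← nsmul_eq_mul, ← sum_const]
    refine sum_congr rfl fun y hy => ?_
    rw [mem_filter] at hy
    rw [hy.2]
  have h2 : ∀ u : F, (((univ : Finset F).filter fun y => y ^ m = u).card : ℂ) * ψ (a * u) =
      (if u = 0 then 1 else 0) + ∑ b : ZMod d, ch hw e b u * ψ (a * u) := by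
    intro u
    by_cases hu : u = 0
    · rw [hu, if_pos rfl]
      have h3 : ((univ : Finset F).filter fun y => y ^ m = 0) = {0} := by
        ext y
        rw [mem_filter, mem_singleton]
        simp [pow_eq_zero_iff hm.ne']
      rw [h3, card_singleton, mul_zero, AddChar.map_zero_eq_one]
      have h4 : ∑ b : ZMod d, ch hw e b 0 * (1 : ℂ) = 0 := by
        apply sum_eq_zero
        intro b _
        rw [MulChar.map_zero, zero_mul]
      rw [h4]
      simp
    · rw [if_neg hu, zero_add, card_roots hm hd hw he hu, sum_mul]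
  rw [h1, sum_congr rfl fun u _ => h2 u, sum_add_distrib, sum_ite_eq' univ (0 : F),
    if_pos (mem_univ _), sum_comm]
  have h3 : ∀ b : ZMod d, ∑ u : F, ch hw e b u * ψ (a * u) =
      ch hw e (-b) a * gaussSum (ch hw e b) ψ := by
    intro b
    have h4 := gaussSum_mulShift_eq (ch hw e b) ψ (Units.mk0 a ha)
    rw [Units.val_mk0, ← ch_neg] at h4
    rw [← h4]
    unfold gaussSum
    exact sum_congr rfl fun u _ => by rw [AddChar.mulShift_apply]
  rw [sum_congr rfl fun b _ => h3 b, ← add_sum_erase univ _ (mem_univ (0 : ZMod d)), neg_zero,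
    ch_zero, MulChar.one_apply (isUnit_iff_ne_zero.2 ha), one_mul]
  have h5 : ψ ≠ 1 := by
    intro h
    have h2 := hψ one_ne_zero
    rw [AddChar.mulShift_one] at h2
    exact h2 h
  rw [gaussSum_one_left h5]
  ring

include hm in
/-- **Weil's formula** for the cone -/
theorem cone_eq {e : AddChar (ZMod d) ℂ}
    (he : ∀ i, e i = 1 → i = 0) {ψ : AddChar F ℂ} (hψ : ψ.IsPrimitive) {ι : Type} [Fintype ι]
    [DecidableEq ι] (c : ι → ℤ) (hc : ∀ i, (c i : F) ≠ 0) :
    (Fintype.card F : ℂ) * cone m c F = (Fintype.card F : ℂ) ^ (Fintype.card ι) +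
      (Fintype.card F - 1) * ∑ b ∈ (Fintype.piFinset fun _ : ι =>
        (univ : Finset (ZMod d)).erase 0).filter fun b => ∑ i, b i = 0,
        ∏ i, (ch hw e (-(b i)) (c i : F) * gaussSum (ch hw e (b i)) ψ) := by
  classical
  -- orthogonality
  have h1 : (Fintype.card F : ℂ) * cone m c F =
      ∑ a : F, ∑ x : ι → F, ψ (a * ∑ i, (c i : F) * x i ^ m) := by
    rw [sum_comm]
    have h2 : ∀ x : ι → F, ∑ a : F, ψ (a * ∑ i, (c i : F) * x i ^ m) =
        if ∑ i, (c i : F) * x i ^ m = 0 then (Fintype.card F : ℂ) else 0 := by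
      intro x
      rw [AddChar.sum_mulShift _ hψ]
      split_ifs <;> simp
    rw [sum_congr rfl fun x _ => h2 x, ← sum_filter, sum_const, nsmul_eq_mul, mul_comm]
    congr 2
    unfold cone
    rw [Fintype.card_subtype]
  have hprod : ∀ (s : Finset ι) (f : ι → F), ψ (∑ i ∈ s, f i) = ∏ i ∈ s, ψ (f i) := by
    intro s f
    induction s using Finset.induction_on with
    | empty => rw [sum_empty, prod_empty, AddChar.map_zero_eq_one]
    | insert i s hi ih => rw [sum_insert hi, prod_insert hi, AddChar.map_add_eq_mul, ih]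
  have h2 : ∀ a : F, ∑ x : ι → F, ψ (a * ∑ i, (c i : F) * x i ^ m) =
      ∏ i, ∑ y : F, ψ (a * c i * y ^ m) := by
    intro a
    have e1 : ∀ x : ι → F, ψ (a * ∑ i, (c i : F) * x i ^ m) = ∏ i, ψ (a * c i * x i ^ m) := by
      intro x
      rw [mul_sum, hprod]
      exact prod_congr rfl fun i _ => by rw [mul_assoc]
    rw [sum_congr rfl fun x _ => e1 x, prod_univ_sum, Fintype.piFinset_univ]
  rw [h1, sum_congr rfl fun a _ => h2 a, ← add_sum_erase univ _ (mem_univ (0 : F))]
  congr 1
  · simp only [zero_mul, AddChar.map_zero_eq_one, sum_const, card_univ, nsmul_eq_mul, mul_one,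
      prod_const]
  · have h3 : ∀ a ∈ (univ : Finset F).erase 0, ∏ i, ∑ y : F, ψ (a * c i * y ^ m) =
        ∑ b ∈ Fintype.piFinset fun _ : ι => (univ : Finset (ZMod d)).erase 0,
          ch hw e (-∑ i, b i) a *
            ∏ i, (ch hw e (-(b i)) (c i : F) * gaussSum (ch hw e (b i)) ψ) := by
      intro a ha
      have ha' : a ≠ 0 := ne_of_mem_erase ha
      have e1 : ∀ i, ∑ y : F, ψ (a * c i * y ^ m) =
          ∑ b ∈ (univ : Finset (ZMod d)).erase 0,
            ch hw e (-b) (a * c i) * gaussSum (ch hw e b) ψ :=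
        fun i => sum_psi hm hd hw he hψ (mul_ne_zero ha' (hc i))
      rw [prod_congr rfl fun i _ => e1 i, prod_univ_sum]
      refine sum_congr rfl fun b _ => ?_
      have e2 : ch hw e (-∑ i, b i) a = ∏ i, ch hw e (-(b i)) a := by
        have e3 : ∀ s : Finset ι, ch hw e (-∑ i ∈ s, b i) a = ∏ i ∈ s, ch hw e (-(b i)) a := by
          intro s
          induction s using Finset.induction_on with
          | empty =>
            rw [sum_empty, prod_empty, neg_zero, ch_zero,
              MulChar.one_apply (isUnit_iff_ne_zero.2 ha')]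
          | insert i s hi ih =>
            rw [sum_insert hi, prod_insert hi, neg_add, ch_add, MulChar.mul_apply, ih]
        exact e3 univ
      rw [e2, ← prod_mul_distrib]
      refine prod_congr rfl fun i _ => ?_
      rw [map_mul]
      ring
    rw [sum_congr rfl h3, sum_comm, mul_sum, sum_filter]
    refine sum_congr rfl fun b _ => ?_
    rw [← sum_mul]
    by_cases hb : ∑ i, b i = 0
    · rw [if_pos hb, hb, neg_zero, ch_zero]
      congr 1
      have e4 : ∀ a ∈ (univ : Finset F).erase 0, (1 : MulChar F ℂ) a = 1 := fun a ha =>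
        MulChar.one_apply (isUnit_iff_ne_zero.2 (ne_of_mem_erase ha))
      rw [sum_congr rfl e4, sum_const, card_erase_of_mem (mem_univ _), card_univ, nsmul_eq_mul,
        mul_one, Nat.cast_sub Fintype.card_pos, Nat.cast_one]
    · rw [if_neg hb]
      have e5 : ch hw e (-∑ i, b i) ≠ 1 := by
        rw [Ne, ch_eq_one_iff hw e he, neg_eq_zero]
        exact hb
      have e6 := MulChar.sum_eq_zero_of_ne_one e5
      rw [← add_sum_erase univ _ (mem_univ (0 : F)), MulChar.map_zero, zero_add] at e6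
      rw [e6, zero_mul]

end

end Pool.Agent.L0h11
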