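import Mathlib
import Pool.Agent.L0h11.Cnt

/-!
# The trace of Frobenius on the middle cohomology of a diagonal hypersurface
-/

set_option autoImplicit false
set_option linter.unusedSectionVars false

namespace Pool.Agent.L0h11

open Finset

/-- the trace of Frobenius on the cohomology of the middle degree `n = N - 2` of the diagonal
hypersurface `∑ c_i x_i ^ m = 0` in the projective space of dimension `N - 1`, `N` even, over the
field `F` with `q` elements: the number of points minus `∑ q ^ j` over `0 ≤ j ≤ n`, `j ≠ n / 2` -/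
noncomputable def tra (m : ℕ) {N : ℕ} (c : Fin N → ℤ) (F : Type) [Field F] [Fintype F] : ℝ :=
  ((cone m c F : ℝ) - 1) / ((Fintype.card F : ℝ) - 1) -
    ∑ j ∈ (range (N - 1)).erase (N / 2 - 1), (Fintype.card F : ℝ) ^ j

section

variable {F : Type} [Field F] [Fintype F] {M : ℕ} [NeZero M]

/-- the normalised Gauss sums -/
noncomputable def GE {w : F} (hw : IsPrimitiveRoot w M) (e : AddChar (ZMod M) ℂ)
    (ψ : AddChar F ℂ) (a : ZMod M) : ℂ :=
  if a = 0 then 1 else GG hw e ψ a / (Real.sqrt (Fintype.card F) : ℂ)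

/-- the normalised Frobenius eigenvalue -/
noncomputable def lam {w : F} (hw : IsPrimitiveRoot w M) (e : AddChar (ZMod M) ℂ)
    (ψ : AddChar F ℂ) {ι : Type} [Fintype ι] (c : ι → ℤ) (b : ι → ZMod M) : ℂ :=
  ∏ i, (GE hw e ψ (b i) * ch hw e (-(b i)) (c i : F))

lemma sqrt_ne : (Real.sqrt (Fintype.card F) : ℂ) ≠ 0 := by
  have : (0 : ℝ) < Fintype.card F := by exact_mod_cast Fintype.card_pos
  exact_mod_cast (Real.sqrt_pos.2 this).ne'

lemma sqrt_mul : (Real.sqrt (Fintype.card F) : ℂ) * (Real.sqrt (Fintype.card F) : ℂ) =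
    Fintype.card F := by
  rw [← Complex.ofReal_mul, Real.mul_self_sqrt (Nat.cast_nonneg _)]
  push_cast
  rfl

lemma norm_ch_le {w : F} (hw : IsPrimitiveRoot w M) (e : AddChar (ZMod M) ℂ) (a : ZMod M) (x : F) :
    ‖ch hw e a x‖ ≤ 1 := by
  by_cases hx : x = 0
  · rw [hx, MulChar.map_zero, norm_zero]
    exact zero_le_one
  · rw [ch_apply hw e hx]
    have h1 : (e (a * lg M w x)) ^ M = 1 := by
      rw [← AddChar.map_nsmul_eq_pow, nsmul_eq_mul, ZMod.natCast_self, zero_mul,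
        AddChar.map_zero_eq_one]
    exact (Complex.norm_eq_one_of_pow_eq_one h1 (NeZero.ne M)).le

lemma conj_gauss (χ : MulChar F ℂ) (ψ : AddChar F ℂ) :
    (starRingEnd ℂ) (gaussSum χ ψ) = gaussSum χ⁻¹ ψ⁻¹ := by
  unfold gaussSum
  rw [map_sum]
  refine sum_congr rfl fun x _ => ?_
  rw [map_mul, AddChar.inv_apply, AddChar.map_neg_eq_conj]
  congr 1
  by_cases hx : x = 0
  · rw [hx, MulChar.map_zero, MulChar.map_zero, map_zero]
  · have h5 : (χ x) ^ (orderOf χ) = 1 := by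
      rw [← MulChar.pow_apply' χ (orderOf_pos χ).ne', pow_orderOf_eq_one]
      exact MulChar.one_apply (isUnit_iff_ne_zero.2 hx)
    have h4 : ‖χ x‖ = 1 := Complex.norm_eq_one_of_pow_eq_one h5 (orderOf_pos χ).ne'
    rw [MulChar.inv_apply_eq_inv', Complex.inv_def, Complex.normSq_eq_norm_sq, h4]
    simp

lemma norm_gauss_sq {χ : MulChar F ℂ} (hχ : χ ≠ 1) {ψ : AddChar F ℂ} (hψ : ψ.IsPrimitive) :
    ‖gaussSum χ ψ‖ ^ 2 = Fintype.card F := by
  have h1 := gaussSum_mul_gaussSum_eq_card hχ hψ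
  rw [← conj_gauss, Complex.mul_conj, Complex.normSq_eq_norm_sq] at h1
  exact_mod_cast h1

lemma norm_GE {w : F} (hw : IsPrimitiveRoot w M) {e : AddChar (ZMod M) ℂ}
    (he : ∀ i, e i = 1 → i = 0) {ψ : AddChar F ℂ} (hψ : ψ.IsPrimitive) (a : ZMod M) :
    ‖GE hw e ψ a‖ = 1 := by
  unfold GE
  split_ifs with ha
  · exact norm_one
  · unfold GG
    have h1 := norm_gauss_sq ((ch_eq_one_iff hw e he).not.2 ha) hψ
    have h2 : ‖gaussSum (ch hw e a) ψ‖ = Real.sqrt (Fintype.card F) := by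
      rw [← h1, Real.sqrt_sq (norm_nonneg _)]
    rw [norm_div, norm_neg, h2, Complex.norm_real, Real.norm_of_nonneg (Real.sqrt_nonneg _),
      div_self]
    have : (0 : ℝ) < Fintype.card F := by exact_mod_cast Fintype.card_pos
    exact (Real.sqrt_pos.2 this).ne'

lemma norm_lam_le {w : F} (hw : IsPrimitiveRoot w M) {e : AddChar (ZMod M) ℂ}
    (he : ∀ i, e i = 1 → i = 0) {ψ : AddChar F ℂ} (hψ : ψ.IsPrimitive) {ι : Type} [Fintype ι]
    (c : ι → ℤ) (b : ι → ZMod M) : ‖lam hw e ψ c b‖ ≤ 1 := by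
  unfold lam
  rw [_root_.norm_prod]
  apply prod_le_one (fun i _ => norm_nonneg _)
  intro i _
  rw [norm_mul, norm_GE hw he hψ, one_mul]
  exact norm_ch_le hw e _ _

/-- the product in terms of Gauss sums -/
lemma lam_eq' {w : F} (hw : IsPrimitiveRoot w M) (e : AddChar (ZMod M) ℂ)
    (ψ : AddChar F ℂ) {ι : Type} [Fintype ι] (c : ι → ℤ) (b : ι → ZMod M)
    (hb : ∀ i, b i ≠ 0) :
    ∏ i, (ch hw e (-(b i)) (c i : F) * gaussSum (ch hw e (b i)) ψ) =
      (-(Real.sqrt (Fintype.card F) : ℂ)) ^ (Fintype.card ι) * lam hw e ψ c b := by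
  unfold lam
  have h1 : ∀ i, ch hw e (-(b i)) (c i : F) * gaussSum (ch hw e (b i)) ψ =
      (-(Real.sqrt (Fintype.card F) : ℂ)) * (GE hw e ψ (b i) * ch hw e (-(b i)) (c i : F)) := by
    intro i
    unfold GE GG
    rw [if_neg (hb i)]
    have := sqrt_ne (F := F)
    field_simp
  rw [prod_congr rfl fun i _ => h1 i, prod_mul_distrib, prod_const, card_univ]

lemma lam_eq {w : F} (hw : IsPrimitiveRoot w M) (e : AddChar (ZMod M) ℂ)
    (ψ : AddChar F ℂ) {ι : Type} [Fintype ι] (hN : Even (Fintype.card ι)) (c : ι → ℤ)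
    (b : ι → ZMod M) (hb : ∀ i, b i ≠ 0) :
    ∏ i, (ch hw e (-(b i)) (c i : F) * gaussSum (ch hw e (b i)) ψ) =
      (Fintype.card F : ℂ) ^ (Fintype.card ι / 2) * lam hw e ψ c b := by
  obtain ⟨n, hn⟩ := hN
  have hn2 : Fintype.card ι / 2 = n := by omega
  rw [lam_eq' hw e ψ c b hb, hn2, hn, ← two_mul, pow_mul, neg_sq, pow_two, sqrt_mul]

/-- the index set of the eigenlines -/
def LL (M N : ℕ) [NeZero M] : Finset (Fin N → ZMod M) :=
  (Fintype.piFinset fun _ : Fin N => (univ : Finset (ZMod M)).erase 0).filter fun b => ∑ i, b i = 0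

lemma mem_LL {N : ℕ} (b : Fin N → ZMod M) : b ∈ LL M N ↔ (∀ i, b i ≠ 0) ∧ ∑ i, b i = 0 := by
  unfold LL
  rw [mem_filter, Fintype.mem_piFinset]
  simp

/-- **Weil's formula** for the trace -/
theorem tra_eq {m : ℕ} (hm : 0 < m) (hd : M = Nat.gcd m (Fintype.card F - 1))
    {w : F} (hw : IsPrimitiveRoot w M) {e : AddChar (ZMod M) ℂ}
    (he : ∀ i, e i = 1 → i = 0) {ψ : AddChar F ℂ} (hψ : ψ.IsPrimitive) {N : ℕ} (hN : Even N)
    (hN2 : 2 ≤ N) (c : Fin N → ℤ) (hc : ∀ i, (c i : F) ≠ 0) :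
    ((tra m c F : ℝ) : ℂ) = (Fintype.card F : ℂ) ^ (N / 2 - 1) *
      (1 + ∑ b ∈ LL M N, lam hw e ψ c b) := by
  classical
  have h1 := cone_eq hm hd hw he hψ c hc
  have h2 : ∑ b ∈ (Fintype.piFinset fun _ : Fin N =>
        (univ : Finset (ZMod M)).erase 0).filter fun b => ∑ i, b i = 0,
        ∏ i, (ch hw e (-(b i)) (c i : F) * gaussSum (ch hw e (b i)) ψ) =
      (Fintype.card F : ℂ) ^ (N / 2) * ∑ b ∈ LL M N, lam hw e ψ c b := by
    rw [mul_sum]
    refine sum_congr rfl fun b hb => ?_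
    have h0 := lam_eq hw e ψ (by rwa [Fintype.card_fin]) c b ((mem_LL b).1 hb).1
    rwa [Fintype.card_fin] at h0
  rw [h2, Fintype.card_fin] at h1
  set q : ℂ := (Fintype.card F : ℂ) with hq
  have hq0 : q ≠ 0 := by
    rw [hq]
    exact_mod_cast Fintype.card_ne_zero
  have hq1 : q - 1 ≠ 0 := by
    rw [hq, sub_ne_zero]
    have := Fintype.one_lt_card (α := F)
    exact_mod_cast this.ne'
  set T := ∑ b ∈ LL M N, lam hw e ψ c b with hT
  unfold tra
  push_cast
  rw [← hq]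
  obtain ⟨n, hn⟩ := hN
  have hn2 : N / 2 = n := by omega
  have hmem : N / 2 - 1 ∈ range (N - 1) := by
    rw [mem_range]
    omega
  have h3 := add_sum_erase (range (N - 1)) (fun j => q ^ j) hmem
  have h4 : ∑ j ∈ (range (N - 1)).erase (N / 2 - 1), q ^ j =
      (q ^ (N - 1) - 1) / (q - 1) - q ^ (N / 2 - 1) := by
    rw [← geom_sum_eq (sub_ne_zero.1 hq1), ← h3]
    ring
  rw [h4]
  have h5 : q ^ N = q * q ^ (N - 1) := by
    rw [← pow_succ', Nat.sub_add_cancel (by omega)]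
  have h6 : q ^ (N / 2) = q * q ^ (N / 2 - 1) := by
    rw [← pow_succ', Nat.sub_add_cancel (by omega)]
  rw [h5, h6] at h1
  have h7 : (cone m c F : ℂ) = q ^ (N - 1) + (q - 1) * (q ^ (N / 2 - 1) * T) := by
    apply mul_left_cancel₀ hq0
    rw [h1]
    ring
  rw [h7]
  field_simp
  ring

/-- the bound for the trace -/
theorem tra_bound {m : ℕ} (hm : 0 < m) {N : ℕ} (hN : Even N)
    (hN2 : 2 ≤ N) (c : Fin N → ℤ) (hc : ∀ i, (c i : F) ≠ 0) :
    |tra m c F| ≤ (1 + (m : ℝ) ^ N) * (Fintype.card F : ℝ) ^ (N / 2 - 1) := by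
  classical
  have hpos : 0 < Nat.gcd m (Fintype.card F - 1) := Nat.gcd_pos_of_pos_left _ hm
  have : NeZero (Nat.gcd m (Fintype.card F - 1)) := ⟨hpos.ne'⟩
  obtain ⟨w, hw⟩ := exists_w (F := F) (Nat.gcd_dvd_right m (Fintype.card F - 1))
  obtain ⟨ζ, hζ⟩ : ∃ ζ : ℂ, IsPrimitiveRoot ζ (Nat.gcd m (Fintype.card F - 1)) :=
    ⟨_, Complex.isPrimitiveRoot_exp _ hpos.ne'⟩
  set e : AddChar (ZMod (Nat.gcd m (Fintype.card F - 1))) ℂ := AddChar.zmodChar _ hζ.pow_eq_one
    with he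
  have hei : ∀ i, e i = 1 → i = 0 := by
    intro i hi
    rw [he, AddChar.zmodChar_apply] at hi
    have h1 := hζ.dvd_of_pow_eq_one _ hi
    exact (ZMod.val_eq_zero i).1 (Nat.eq_zero_of_dvd_of_lt h1 (ZMod.val_lt i))
  have hch : ringChar ℂ ≠ ringChar F := by
    rw [ringChar.eq_zero]
    intro h
    exact CharP.char_ne_zero_of_finite F (ringChar F) h.symm
  obtain ⟨ψ, hψ⟩ : ∃ ψ : AddChar F ℂ, ψ.IsPrimitive := by
    have hp : Fact (ringChar F).Prime := ⟨CharP.char_is_prime F _⟩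
    obtain ⟨ψ, hψ, -⟩ := exists_psi (A := ℂ) (ringChar F)
      (Complex.isPrimitiveRoot_exp _ hp.1.ne_zero) F
    exact ⟨ψ, hψ⟩
  have h1 := tra_eq hm rfl hw hei hψ hN hN2 c hc
  have h2 : |tra m c F| = ‖((tra m c F : ℝ) : ℂ)‖ := by
    rw [Complex.norm_real, Real.norm_eq_abs]
  rw [h2, h1, norm_mul, norm_pow, Complex.norm_natCast, mul_comm]
  refine mul_le_mul_of_nonneg_right ?_ (by positivity)
  refine (norm_add_le _ _).trans ?_
  rw [norm_one]
  refine add_le_add_right ?_ 1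
  refine (norm_sum_le _ _).trans ?_
  refine (sum_le_sum fun b _ => norm_lam_le hw hei hψ c b).trans ?_
  rw [sum_const, nsmul_eq_mul, mul_one]
  have h3 : (LL (Nat.gcd m (Fintype.card F - 1)) N).card ≤
      (Nat.gcd m (Fintype.card F - 1)) ^ N := by
    refine (card_le_univ _).trans ?_
    rw [Fintype.card_fun, ZMod.card, Fintype.card_fin]
  have h4 : (Nat.gcd m (Fintype.card F - 1)) ^ N ≤ m ^ N :=
    Nat.pow_le_pow_left (Nat.le_of_dvd hm (Nat.gcd_dvd_left _ _)) N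
  exact_mod_cast h3.trans h4

end

end Pool.Agent.L0h11
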