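import Mathlib
import Pool.Agent.L0h11.Trc
import Pool.Agent.L0h11.Hk

/-!
# Levels and orbits
-/

set_option autoImplicit false
set_option linter.unusedSectionVars false

namespace Pool.Agent.L0h11

open Finset NumberField IsDedekindDomain

/-! ### Change of level -/

section level

variable {M d : ℕ} [NeZero M] [NeZero d]

/-- multiplication by `d / M` from `ZMod M` to `ZMod d` -/
def up (h : M ∣ d) : ZMod M →+ ZMod d :=
  ZMod.lift M ⟨zmultiplesHom (ZMod d) ((d / M : ℕ) : ZMod d), by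
    rw [zmultiplesHom_apply, natCast_zsmul, nsmul_eq_mul, ← Nat.cast_mul, Nat.mul_div_cancel' h,
      ZMod.natCast_self]⟩

lemma up_natCast (h : M ∣ d) (n : ℕ) : up h (n : ZMod M) = (n : ZMod d) * ((d / M : ℕ) : ZMod d) := by
  unfold up
  have := ZMod.lift_coe M ⟨zmultiplesHom (ZMod d) ((d / M : ℕ) : ZMod d), by
    rw [zmultiplesHom_apply, natCast_zsmul, nsmul_eq_mul, ← Nat.cast_mul, Nat.mul_div_cancel' h,
      ZMod.natCast_self]⟩ (n : ℤ)
  rw [Int.cast_natCast] at this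
  rw [this, zmultiplesHom_apply, natCast_zsmul, nsmul_eq_mul]

lemma up_apply (h : M ∣ d) (a : ZMod M) : up h a = (a.val : ZMod d) * ((d / M : ℕ) : ZMod d) := by
  conv_lhs => rw [← ZMod.natCast_zmod_val a]
  exact up_natCast h _

lemma up_inj (h : M ∣ d) : Function.Injective (up h) := by
  rw [injective_iff_map_eq_zero]
  intro a ha
  rw [up_apply, ← Nat.cast_mul, ZMod.natCast_eq_zero_iff] at ha
  have h1 : d / M ∣ d := Nat.div_dvd_of_dvd h
  have h2 : M * (d / M) ∣ a.val * (d / M) := by rwa [Nat.mul_div_cancel' h]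
  have h3 : 0 < d / M := Nat.div_pos (Nat.le_of_dvd (NeZero.pos d) h) (NeZero.pos M)
  have h4 := Nat.dvd_of_mul_dvd_mul_right h3 h2
  exact (ZMod.val_eq_zero a).1 (Nat.eq_zero_of_dvd_of_lt h4 (ZMod.val_lt a))

lemma up_eq_zero (h : M ∣ d) {a : ZMod M} : up h a = 0 ↔ a = 0 := by
  rw [← map_zero (up h)]
  exact (up_inj h).eq_iff

lemma up_mul (h : M ∣ d) (a : ZMod M) (y : ZMod d) :
    up h a * y = up h (a * (y.val : ZMod M)) := by
  have h1 : a * (y.val : ZMod M) = ((a.val * y.val : ℕ) : ZMod M) := by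
    rw [Nat.cast_mul, ZMod.natCast_zmod_val]
  rw [h1, up_natCast, up_apply]
  conv_lhs => rw [← ZMod.natCast_zmod_val y]
  push_cast
  ring

lemma up_range (h : M ∣ d) {x : ZMod d} (hx : (M : ZMod d) * x = 0) : ∃ a, up h a = x := by
  have h1 : d ∣ M * x.val := by
    rw [← ZMod.natCast_eq_zero_iff, Nat.cast_mul, ZMod.natCast_zmod_val, hx]
  have h2 : M * (d / M) ∣ M * x.val := by rwa [Nat.mul_div_cancel' h]
  obtain ⟨k, hk⟩ := Nat.dvd_of_mul_dvd_mul_left (NeZero.pos M) h2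
  refine ⟨(k : ZMod M), ?_⟩
  rw [up_natCast, ← Nat.cast_mul, mul_comm, ← hk, ZMod.natCast_zmod_val]

variable {F : Type} [Field F] [Fintype F]

lemma prim_div (h : M ∣ d) {w : F} (hw : IsPrimitiveRoot w d) : IsPrimitiveRoot (w ^ (d / M)) M :=
  hw.pow (NeZero.pos d) (Nat.div_mul_cancel h).symm

lemma lg_div (h : M ∣ d) {w : F} (hw : IsPrimitiveRoot w d) {x : F} (hx : x ≠ 0) :
    lg M (w ^ (d / M)) x = ((lg d w x).val : ZMod M) := by
  apply lg_eq (prim_div h hw) hx
  have h1 := lg_spec hw hx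
  have h2 : ∀ n : ℕ, (w ^ (d / M)) ^ (n : ZMod M).val = (w ^ (d / M)) ^ n := by
    intro n
    rw [ZMod.val_natCast]
    conv_rhs => rw [← pow_mod_orderOf, ← (prim_div h hw).eq_orderOf]
  rw [h2, ← pow_mul, mul_comm, pow_mul, h1, ← pow_mul]
  congr 1
  obtain ⟨k, hk⟩ := dvd_card hw
  rw [hk, Nat.mul_div_cancel_left _ (NeZero.pos d)]
  obtain ⟨l, hl⟩ := h
  rw [hl, Nat.mul_div_cancel_left _ (NeZero.pos M), mul_assoc,
    Nat.mul_div_cancel_left _ (NeZero.pos M), mul_comm]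

/-- the induced additive character of the lower level -/
noncomputable def eup (h : M ∣ d) (e : AddChar (ZMod d) ℂ) : AddChar (ZMod M) ℂ :=
  e.compAddMonoidHom (up h)

lemma eup_apply (h : M ∣ d) (e : AddChar (ZMod d) ℂ) (a : ZMod M) : eup h e a = e (up h a) := rfl

lemma eup_inj (h : M ∣ d) {e : AddChar (ZMod d) ℂ} (he : ∀ i, e i = 1 → i = 0) :
    ∀ i, eup h e i = 1 → i = 0 := fun _ hi => (up_eq_zero h).1 (he _ hi)

lemma ch_up (h : M ∣ d) {w : F} (hw : IsPrimitiveRoot w d) (e : AddChar (ZMod d) ℂ) (a : ZMod M) :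
    ch hw e (up h a) = ch (prim_div h hw) (eup h e) a := by
  ext x
  rw [ch_apply _ _ x.ne_zero, ch_apply _ _ x.ne_zero, lg_div h hw x.ne_zero, eup_apply, up_mul]

lemma lam_up (h : M ∣ d) {w : F} (hw : IsPrimitiveRoot w d) (e : AddChar (ZMod d) ℂ)
    (ψ : AddChar F ℂ) {ι : Type} [Fintype ι] (c : ι → ℤ) (b : ι → ZMod M) :
    lam hw e ψ c (fun i => up h (b i)) = lam (prim_div h hw) (eup h e) ψ c b := by
  unfold lam
  refine prod_congr rfl fun i _ => ?_
  rw [← map_neg, ch_up]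
  congr 1
  unfold GE GG
  rw [ch_up]
  simp only [up_eq_zero]

end level

/-! ### Primitive lines -/

section prim

/-- the lines of exact level `M` -/
def IsPrm (M : ℕ) {ι : Type} (b : ι → ZMod M) : Prop :=
  ∀ k : ℕ, (∀ i, (k : ZMod M) * b i = 0) → M ∣ k

open Classical in
/-- the set of the lines of exact level `M` -/
noncomputable def PP (M N : ℕ) [NeZero M] : Finset (Fin N → ZMod M) :=
  (LL M N).filter fun b => IsPrm M b

lemma mem_PP {M N : ℕ} [NeZero M] (b : Fin N → ZMod M) : b ∈ PP M N ↔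
    (∀ i, b i ≠ 0) ∧ ∑ i, b i = 0 ∧ IsPrm M b := by
  classical
  unfold PP
  rw [mem_filter, mem_LL, and_assoc]

variable {d : ℕ} [NeZero d]

lemma lvl_iff {M : ℕ} {ι : Type} [NeZero M] (h : M ∣ d) (b : ι → ZMod M) :
    addOrderOf (fun i => up h (b i)) = M ↔ IsPrm M b := by
  have h0 : ∀ k : ℕ, (k • (fun i => up h (b i)) : ι → ZMod d) = 0 ↔
      ∀ i, (k : ZMod M) * b i = 0 := by
    intro k
    rw [funext_iff]
    refine forall_congr' fun i => ?_
    rw [Pi.smul_apply, Pi.zero_apply, ← map_nsmul, up_eq_zero, nsmul_eq_mul]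
  constructor
  · intro h1 k hk
    rw [← h1]
    exact addOrderOf_dvd_of_nsmul_eq_zero ((h0 k).2 hk)
  · intro h1
    apply Nat.dvd_antisymm
    · apply addOrderOf_dvd_of_nsmul_eq_zero
      rw [h0]
      intro i
      rw [ZMod.natCast_self, zero_mul]
    · apply h1
      rw [← h0]
      exact addOrderOf_nsmul_eq_zero _

/-- decomposition according to the level -/
lemma sum_levels {N : ℕ} (f : (Fin N → ZMod d) → ℂ) :
    ∑ b ∈ LL d N, f b = ∑ M ∈ d.divisors.attach, ∑ b ∈ @PP M.1 N ⟨(Nat.pos_of_mem_divisors M.2).ne'⟩,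
      f (fun i => up (Nat.dvd_of_mem_divisors M.2) (b i)) := by
  classical
  have h1 : ∀ b ∈ LL d N, addOrderOf b ∈ d.divisors := by
    intro b _
    rw [Nat.mem_divisors]
    refine ⟨addOrderOf_dvd_of_nsmul_eq_zero ?_, NeZero.ne d⟩
    funext i
    rw [Pi.smul_apply, nsmul_eq_mul, ZMod.natCast_self, zero_mul, Pi.zero_apply]
  rw [← sum_fiberwise_of_maps_to h1, ← sum_attach]
  refine sum_congr rfl fun M _ => ?_
  obtain ⟨M, hM⟩ := M
  have hMd := Nat.dvd_of_mem_divisors hM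
  have : NeZero M := ⟨(Nat.pos_of_mem_divisors hM).ne'⟩
  symm
  refine sum_nbij (fun b i => up hMd (b i)) ?_ ?_ ?_ ?_
  · intro b hb
    rw [mem_PP] at hb
    rw [mem_filter, mem_LL]
    refine ⟨⟨fun i => (up_eq_zero hMd).not.2 (hb.1 i), ?_⟩, (lvl_iff hMd b).2 hb.2.2⟩
    rw [← map_sum, hb.2.1, map_zero]
  · intro b _ b' _ h
    funext i
    exact up_inj hMd (congrFun h i)
  · intro b hb
    rw [mem_coe, mem_filter, mem_LL] at hb
    have h2 : ∀ i, ∃ a, up hMd a = b i := by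
      intro i
      apply up_range
      have h3 := addOrderOf_nsmul_eq_zero b
      rw [hb.2] at h3
      have h4 := congrFun h3 i
      rwa [Pi.smul_apply, nsmul_eq_mul] at h4
    choose a ha using h2
    have ha' : (fun i => up hMd (a i)) = b := funext ha
    refine ⟨a, ?_, ha'⟩
    rw [mem_coe, mem_PP]
    refine ⟨fun i h => hb.1.1 i ?_, ?_, ?_⟩
    · rw [← ha i, h, map_zero]
    · apply up_inj hMd
      rw [map_sum, map_zero, ← hb.1.2]
      exact sum_congr rfl fun i _ => ha i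
    · rw [← lvl_iff hMd, ha', hb.2]
  · intro b _
    rfl

end prim

/-! ### Orbits -/

section orb

variable {M : ℕ} [NeZero M] {N : ℕ} {ι : Type}

/-- multiplication by a unit -/
def tb (t : (ZMod M)ˣ) (b : ι → ZMod M) : ι → ZMod M := fun i => (t : ZMod M) * b i

lemma tb_one (b : ι → ZMod M) : tb 1 b = b := by
  funext i
  simp [tb]

lemma tb_tb (s t : (ZMod M)ˣ) (b : ι → ZMod M) : tb s (tb t b) = tb (s * t) b := by
  funext i
  simp [tb, mul_assoc]

lemma prm_tb (t : (ZMod M)ˣ) {b : ι → ZMod M} (h : IsPrm M b) : IsPrm M (tb t b) := by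
  intro k hk
  apply h
  intro i
  have h1 := hk i
  unfold tb at h1
  rw [mul_left_comm] at h1
  exact (Units.mul_right_eq_zero t).1 h1

lemma tb_mem (t : (ZMod M)ˣ) {b : Fin N → ZMod M} (h : b ∈ PP M N) : tb t b ∈ PP M N := by
  rw [mem_PP] at h ⊢
  refine ⟨fun i hi => h.1 i ((Units.mul_right_eq_zero t).1 hi), ?_, prm_tb t h.2.2⟩
  unfold tb
  rw [← mul_sum, h.2.1, mul_zero]

lemma tb_inj {b : ι → ZMod M} (h : IsPrm M b) {s t : (ZMod M)ˣ} (hst : tb s b = tb t b) :
    s = t := by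
  have h1 : ∀ i, ((((s : ZMod M) - (t : ZMod M)).val : ℕ) : ZMod M) * b i = 0 := by
    intro i
    rw [ZMod.natCast_zmod_val, sub_mul, sub_eq_zero]
    exact congrFun hst i
  have h2 := h _ h1
  have h3 := (ZMod.val_eq_zero ((s : ZMod M) - (t : ZMod M))).1 (Nat.eq_zero_of_dvd_of_lt h2 (ZMod.val_lt _))
  exact Units.ext (sub_eq_zero.1 h3)

/-- the orbit relation -/
def orbS (M N : ℕ) [NeZero M] : Setoid (Fin N → ZMod M) where
  r b b' := ∃ t : (ZMod M)ˣ, tb t b = b'
  iseqv := by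
    refine ⟨fun b => ⟨1, tb_one b⟩, ?_, ?_⟩
    · rintro b b' ⟨t, rfl⟩
      exact ⟨t⁻¹, by rw [tb_tb, inv_mul_cancel, tb_one]⟩
    · rintro b b' b'' ⟨t, rfl⟩ ⟨s, rfl⟩
      exact ⟨s * t, (tb_tb s t b).symm⟩

/-- representatives of the orbits -/
lemma exists_reps (M N : ℕ) [NeZero M] : ∃ R : Finset (Fin N → ZMod M), R ⊆ PP M N ∧
    ∀ {A : Type} [AddCommMonoid A] (f : (Fin N → ZMod M) → A), ∑ b ∈ PP M N, f b =
      ∑ b ∈ R, ∑ t : (ZMod M)ˣ, f (tb t b) := by
  classical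
  let rep : (Fin N → ZMod M) → (Fin N → ZMod M) := fun b => (Quotient.mk (orbS M N) b).out
  have hrep : ∀ b, ∃ t : (ZMod M)ˣ, tb t (rep b) = b := by
    intro b
    exact Quotient.mk_out (s := orbS M N) b
  have hrep2 : ∀ b (t : (ZMod M)ˣ), rep (tb t b) = rep b := by
    intro b t
    have : Quotient.mk (orbS M N) (tb t b) = Quotient.mk (orbS M N) b :=
      Quotient.sound ⟨t⁻¹, by rw [tb_tb, inv_mul_cancel, tb_one]⟩
    exact congrArg Quotient.out this
  have hmem : ∀ b ∈ PP M N, rep b ∈ PP M N := by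
    intro b hb
    obtain ⟨t, ht⟩ := hrep b
    have : rep b = tb t⁻¹ b := by
      conv_rhs => rw [← ht]
      rw [tb_tb, inv_mul_cancel, tb_one]
    rw [this]
    exact tb_mem _ hb
  refine ⟨(PP M N).image rep, ?_, ?_⟩
  · intro b hb
    rw [mem_image] at hb
    obtain ⟨b', hb', rfl⟩ := hb
    exact hmem b' hb'
  · intro A _ f
    rw [← sum_fiberwise_of_maps_to (t := (PP M N).image rep) (g := rep)
      (fun b hb => mem_image_of_mem rep hb)]
    refine sum_congr rfl fun r hr => ?_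
    rw [mem_image] at hr
    obtain ⟨b', hb', rfl⟩ := hr
    have hr2 := hmem b' hb'
    have hrr : rep (rep b') = rep b' := by
      obtain ⟨t, ht⟩ := hrep b'
      have h1 := hrep2 (rep b') t
      rw [ht] at h1
      exact h1.symm
    symm
    refine sum_nbij (fun t => tb t (rep b')) ?_ ?_ ?_ ?_
    · intro t _
      rw [mem_filter]
      exact ⟨tb_mem t hr2, by rw [hrep2, hrr]⟩
    · intro s _ t _ hst
      exact tb_inj ((mem_PP _).1 hr2).2.2 hst
    · intro b hb
      rw [mem_coe, mem_filter] at hb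
      obtain ⟨t, ht⟩ := hrep b
      rw [hb.2] at ht
      exact ⟨t, mem_coe.2 (mem_univ t), ht⟩
    · intro t _
      rfl

end orb

end Pool.Agent.L0h11
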