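import Mathlib
import Pool.Agent.L0h11.Lev
import Pool.Agent.L0h11.An

/-!
# Sums over the primes above `p`
-/

set_option autoImplicit false
set_option linter.unusedSectionVars false

namespace Pool.Agent.L0h11

open Finset NumberField IsDedekindDomain

section change

variable {M : ℕ} [NeZero M] {F : Type} [Field F] [Fintype F] {w : F} (hw : IsPrimitiveRoot w M)

omit [NeZero M] in
lemma lam_congr {w' : F} (h : w = w') (hw' : IsPrimitiveRoot w' M) [NeZero M]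
    (e : AddChar (ZMod M) ℂ) (ψ : AddChar F ℂ) {ι : Type} [Fintype ι] (c : ι → ℤ) (b : ι → ZMod M) :
    lam hw e ψ c b = lam hw' e ψ c b := by
  subst h
  rfl

lemma lam_pow_unit (t : (ZMod M)ˣ) (e : AddChar (ZMod M) ℂ) (ψ : AddChar F ℂ) {ι : Type} [Fintype ι]
    (c : ι → ℤ) (b : ι → ZMod M) :
    lam (pow_unit_prim hw t) e ψ c b = lam hw e ψ c (tb t⁻¹ b) := by
  unfold lam
  refine prod_congr rfl fun i _ => ?_
  unfold GE GG
  rw [ch_pow_unit hw, ch_pow_unit hw]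
  have h1 : ((t⁻¹ : (ZMod M)ˣ) : ZMod M) * b i = 0 ↔ b i = 0 := Units.mul_right_eq_zero _
  unfold tb
  simp only [h1, mul_neg]

lemma lam_mulE (t : (ZMod M)ˣ) (e : AddChar (ZMod M) ℂ) (ψ : AddChar F ℂ) {ι : Type} [Fintype ι]
    (c : ι → ℤ) (b : ι → ZMod M) :
    lam hw (mulE (t : ZMod M) e) ψ c b = lam hw e ψ c (tb t b) := by
  unfold lam
  refine prod_congr rfl fun i _ => ?_
  unfold GE GG
  rw [ch_mulE, ch_mulE]
  have h1 : (t : ZMod M) * b i = 0 ↔ b i = 0 := Units.mul_right_eq_zero _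
  unfold tb
  simp only [h1, mul_neg]

omit [Fintype F] in
include hw in
lemma exists_unit_pow {w' : F} (hw' : IsPrimitiveRoot w' M) :
    ∃ t : (ZMod M)ˣ, w' = w ^ (t : ZMod M).val := by
  obtain ⟨i, hi, hi2⟩ := hw.eq_pow_of_pow_eq_one hw'.pow_eq_one
  have h1 : IsPrimitiveRoot (w ^ i) M := by rw [hi2]; exact hw'
  rw [hw.pow_iff_coprime (NeZero.pos M)] at h1
  refine ⟨ZMod.unitOfCoprime i h1, ?_⟩
  rw [ZMod.coe_unitOfCoprime, ZMod.val_natCast, Nat.mod_eq_of_lt hi, hi2]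

omit [Fintype F] in
lemma e_prim {e : AddChar (ZMod M) ℂ} (he : ∀ i, e i = 1 → i = 0) : IsPrimitiveRoot (e 1) M := by
  constructor
  · rw [← AddChar.map_nsmul_eq_pow, nsmul_eq_mul, mul_one, ZMod.natCast_self,
      AddChar.map_zero_eq_one]
  · intro l hl
    rw [← AddChar.map_nsmul_eq_pow, nsmul_eq_mul, mul_one] at hl
    rw [← ZMod.natCast_eq_zero_iff]
    exact he _ hl

lemma e_ext {e e' : AddChar (ZMod M) ℂ} (h : e 1 = e' 1) : e = e' := by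
  ext i
  rw [← ZMod.natCast_zmod_val i]
  have h1 : ∀ f : AddChar (ZMod M) ℂ, f ((i.val : ℕ) : ZMod M) = (f 1) ^ i.val := by
    intro f
    rw [← AddChar.map_nsmul_eq_pow, nsmul_eq_mul, mul_one]
  rw [h1, h1, h]

lemma exists_unit_e {e e' : AddChar (ZMod M) ℂ} (he : ∀ i, e i = 1 → i = 0)
    (he' : ∀ i, e' i = 1 → i = 0) : ∃ t : (ZMod M)ˣ, e' = mulE (t : ZMod M) e := by
  obtain ⟨t, ht⟩ := exists_unit_pow (e_prim he) (e_prim he')
  refine ⟨t, e_ext ?_⟩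
  rw [ht, mulE_apply, mul_one, ← AddChar.map_nsmul_eq_pow, nsmul_eq_mul, mul_one,
    ZMod.natCast_zmod_val]

/-- the dependence on the choices -/
lemma lam_any {w' : F} (hw' : IsPrimitiveRoot w' M) {e e' : AddChar (ZMod M) ℂ}
    (he : ∀ i, e i = 1 → i = 0) (he' : ∀ i, e' i = 1 → i = 0) (ψ : AddChar F ℂ) :
    ∃ s : (ZMod M)ˣ, ∀ {ι : Type} [Fintype ι] (c : ι → ℤ) (b : ι → ZMod M),
      lam hw' e' ψ c b = lam hw e ψ c (tb s b) := by
  obtain ⟨t, ht⟩ := exists_unit_pow hw hw'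
  obtain ⟨u, rfl⟩ := exists_unit_e he he'
  refine ⟨t⁻¹ * u, fun c b => ?_⟩
  rw [lam_congr hw' ht (pow_unit_prim hw t), lam_pow_unit, lam_mulE, tb_tb, mul_comm]

end change

section primes

variable {M : ℕ} [NeZero M] {K : Type} [Field K] [NumberField K] (c : Cy M K)

lemma exists_above (p : Nat.Primes) : ∃ P : HeightOneSpectrum (𝓞 K), ((p : ℕ) : 𝓞 K) ∈ P.asIdeal := by
  have h1 : Ideal.span {((p : ℕ) : 𝓞 K)} ≠ ⊤ := by
    intro h
    rw [Ideal.span_singleton_eq_top] at h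
    have h2 : IsUnit (((p : ℕ) : ℤ)) := by
      have h3 := (h.map (Algebra.norm ℤ))
      have h4 : (Algebra.norm ℤ ((p : ℕ) : 𝓞 K)) = ((p : ℕ) : ℤ) ^ Module.finrank ℤ (𝓞 K) := by
        have := Algebra.norm_algebraMap (R := ℤ) (S := 𝓞 K) (((p : ℕ) : ℤ))
        simpa using this
      rw [h4] at h3
      refine (isUnit_pow_iff ?_).1 h3
      exact Module.finrank_pos.ne'
    exact (Nat.prime_iff_prime_int.1 p.2).not_isUnit h2
  obtain ⟨P, hP, hle⟩ := Ideal.exists_le_maximal _ h1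
  have h2 : ((p : ℕ) : 𝓞 K) ∈ P := hle (Ideal.mem_span_singleton_self _)
  refine ⟨⟨P, hP.isPrime, ?_⟩, h2⟩
  rintro rfl
  rw [Ideal.mem_bot] at h2
  exact p.2.ne_zero (by exact_mod_cast h2)

lemma act_above (t : (ZMod M)ˣ) {P : HeightOneSpectrum (𝓞 K)} {p : ℕ}
    (h : ((p : ℕ) : 𝓞 K) ∈ P.asIdeal) : ((p : ℕ) : 𝓞 K) ∈ (act c t P).asIdeal := by
  rw [mem_act, map_natCast]
  exact h

include c in
lemma no_primes (p : Nat.Primes) (hpM : ¬ (p : ℕ) ∣ M) (hp1 : ((p : ℕ) : ZMod M) ≠ 1) :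
    (ov K p).filter (fun 𝔭 => Ideal.absNorm 𝔭 = p) = ∅ := by
  classical
  rw [filter_eq_empty_iff]
  intro 𝔭 h𝔭 hn
  have hcop : (p : ℕ).Coprime M := (Nat.Prime.coprime_iff_not_dvd p.2).2 hpM
  set g : (ZMod M)ˣ := ZMod.unitOfCoprime (p : ℕ) hcop with hg
  have hg1 : (g : ZMod M) = (p : ℕ) := ZMod.coe_unitOfCoprime _ _
  have hP := Pool.Agent.Y773.prime_of_Ov p.2 (mem_ov.1 h𝔭)
  let P : HeightOneSpectrum (𝓞 K) := ⟨𝔭, (mem_ov.1 h𝔭).1, hP.ne_zero⟩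
  have h1 := (stab c P p p.2 (mem_ov.1 h𝔭).2 g hg1).2
  have h2 : Ideal.absNorm 𝔭 = (p : ℕ) ^ orderOf g := by
    rw [← h1]
    rfl
  rw [h2] at hn
  have h3 : orderOf g = 1 := by
    have := Nat.pow_right_injective p.2.two_le (hn.trans (pow_one (p : ℕ)).symm)
    exact this
  rw [orderOf_eq_one_iff] at h3
  apply hp1
  rw [← hg1, h3, Units.val_one]

/-- the primes above a prime `p ≡ 1` modulo `M` -/
theorem sum_primes (p : Nat.Primes) (hp1 : ((p : ℕ) : ZMod M) = 1) (E : Type) [Field E]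
    [Fintype E] (hE : Fintype.card E = p) : ∃ (P0 : HeightOneSpectrum (𝓞 K)) (μ0 : 𝓞 K →+* E),
    Function.Surjective μ0 ∧ RingHom.ker μ0 = P0.asIdeal ∧ ((p : ℕ) : 𝓞 K) ∈ P0.asIdeal ∧
    (∀ t : (ZMod M)ˣ, Ideal.absNorm (act c t P0).asIdeal = p) ∧
    ∀ f : Ideal (𝓞 K) → ℂ, ∑ 𝔭 ∈ (ov K p).filter (fun 𝔭 => Ideal.absNorm 𝔭 = p), f 𝔭 =
      ∑ t : (ZMod M)ˣ, f (act c t P0).asIdeal := by
  classical
  obtain ⟨P0, hP0⟩ := exists_above (K := K) p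
  have hg1 : ((1 : (ZMod M)ˣ) : ZMod M) = (p : ℕ) := by rw [hp1, Units.val_one]
  have hnorm : ∀ P : HeightOneSpectrum (𝓞 K), ((p : ℕ) : 𝓞 K) ∈ P.asIdeal →
      Ideal.absNorm P.asIdeal = p := by
    intro P hP
    have h1 := (stab c P p p.2 hP 1 hg1).2
    rw [orderOf_one, pow_one] at h1
    rw [← h1]
    rfl
  have hmax := P0.isMaximal
  let _ : Field (𝓞 K ⧸ P0.asIdeal) := Ideal.Quotient.field P0.asIdeal
  have hfin : Finite (𝓞 K ⧸ P0.asIdeal) := Ideal.finiteQuotientOfFreeOfNeBot P0.asIdeal P0.ne_bot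
  let _ : Fintype (𝓞 K ⧸ P0.asIdeal) := Fintype.ofFinite _
  have hcard : Fintype.card (𝓞 K ⧸ P0.asIdeal) = Fintype.card E := by
    rw [hE, ← hnorm P0 hP0, ← Nat.card_eq_fintype_card]
    rfl
  let r : (𝓞 K ⧸ P0.asIdeal) ≃+* E := FiniteField.ringEquivOfCardEq hcard
  refine ⟨P0, (r : (𝓞 K ⧸ P0.asIdeal) →+* E).comp (Ideal.Quotient.mk P0.asIdeal), ?_, ?_, hP0, ?_, ?_⟩
  · rw [RingHom.coe_comp]
    exact r.surjective.comp Ideal.Quotient.mk_surjective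
  · ext x
    rw [RingHom.mem_ker, RingHom.comp_apply]
    have h1 : (r : (𝓞 K ⧸ P0.asIdeal) →+* E) (Ideal.Quotient.mk P0.asIdeal x) = 0 ↔
      Ideal.Quotient.mk P0.asIdeal x = 0 := map_eq_zero_iff r r.injective
    rw [h1, Ideal.Quotient.eq_zero_iff_mem]
  · intro t
    exact hnorm _ (act_above c t hP0)
  · intro f
    symm
    refine sum_nbij (fun t => (act c t P0).asIdeal) ?_ ?_ ?_ ?_
    · intro t _
      rw [mem_filter, mem_ov]
      exact ⟨⟨(act c t P0).isPrime, act_above c t hP0⟩, hnorm _ (act_above c t hP0)⟩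
    · intro s _ t _ hst
      have h1 : act c s P0 = act c t P0 := HeightOneSpectrum.ext hst
      have h2 : act c (s * t⁻¹) P0 = P0 := by
        have h3 := congrArg (act c t⁻¹) h1
        rw [act_act, act_act, mul_inv_cancel, act_one] at h3
        exact h3
      have h3 := ((stab c P0 p p.2 hP0 1 hg1).1 _).1 h2
      rw [Subgroup.zpowers_one_eq_bot, Subgroup.mem_bot, mul_inv_eq_one] at h3
      exact h3
    · intro 𝔭 h𝔭
      rw [mem_coe, mem_filter] at h𝔭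
      have hP := Pool.Agent.Y773.prime_of_Ov p.2 (mem_ov.1 h𝔭.1)
      let P : HeightOneSpectrum (𝓞 K) := ⟨𝔭, (mem_ov.1 h𝔭.1).1, hP.ne_zero⟩
      obtain ⟨t, ht⟩ := trans1 c P0 P p p.2 hP0 (mem_ov.1 h𝔭.1).2
      exact ⟨t, mem_coe.2 (mem_univ t), congrArg HeightOneSpectrum.asIdeal ht⟩
    · intro t _
      rfl

/-- the image of the root of unity under a conjugate residue map -/
lemma mu_zz {E : Type} [Field E] (μ : 𝓞 K →+* E) (t : (ZMod M)ˣ) :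
    (μ.comp (rs c t : 𝓞 K →+* 𝓞 K)) (zz c) = (μ (zz c)) ^ (t : ZMod M).val := by
  rw [RingHom.comp_apply]
  have : (rs c t : 𝓞 K →+* 𝓞 K) (zz c) = rs c t (zz c) := rfl
  rw [this, rs_zz, map_pow]

lemma not_mem_of_coprime {P : Ideal (𝓞 K)} (hP : P.IsPrime) {p N : ℕ} (hp : p.Prime)
    (h : ((p : ℕ) : 𝓞 K) ∈ P) (hN : ¬ p ∣ N) : ((N : ℕ) : 𝓞 K) ∉ P := by
  intro h1
  have hcop : Nat.Coprime p N := (Nat.Prime.coprime_iff_not_dvd hp).2 hN
  obtain ⟨u, v, huv⟩ := Nat.isCoprime_iff_coprime.mpr hcop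
  have h4 : (1 : 𝓞 K) ∈ P := by
    have h5 : ((u * (p : ℕ) + v * (N : ℕ) : ℤ) : 𝓞 K) = 1 := by rw [huv]; simp
    rw [← h5]
    push_cast
    exact P.add_mem (Ideal.mul_mem_left _ _ h) (Ideal.mul_mem_left _ _ h1)
  exact hP.ne_top ((Ideal.eq_top_iff_one _).mpr h4)

variable (φ : K →+* ℂ)

/-- the data of the Hecke character of a line -/
structure HD {ι : Type} [Fintype ι] (r : ι → ℤ) (b : ι → ZMod M) where
  N1 : ℕ
  k : (K →+* ℂ) → ℤ
  χ : Ideal (𝓞 K) →*₀ ℂ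
  pos : 0 < N1
  hecke : Pool.Agent.N172.HS.IsHecke (Ideal.span {(N1 : 𝓞 K)}) k 0 χ
  dvd : (M * ∏ i, (r i).natAbs) ∣ N1
  val : ∀ (E : Type) [Field E] [Fintype E] (μ : 𝓞 K →+* E), Function.Surjective μ →
    ∀ (P : HeightOneSpectrum (𝓞 K)), RingHom.ker μ = P.asIdeal → (N1 : 𝓞 K) ∉ P.asIdeal →
    ∀ (hw : IsPrimitiveRoot (μ (zz c)) M), ((M : ℕ) : E) ≠ 0 →
    Fintype.card E = Ideal.absNorm P.asIdeal → ∀ (ψ : AddChar E ℂ), ψ.IsPrimitive →
      χ P.asIdeal = lam hw (eC c φ) ψ r b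

lemma exists_HD {ι : Type} [Fintype ι] (r : ι → ℤ) (hr : ∀ i, r i ≠ 0) (b : ι → ZMod M)
    (hb : ∑ i, b i = 0) : Nonempty (HD c φ r b) := by
  have hpos : 0 < M * ∏ i, (r i).natAbs :=
    Nat.mul_pos (NeZero.pos M) (prod_pos fun i _ => Int.natAbs_pos.2 (hr i))
  obtain ⟨N1, k, χ, h1, h2, h3, h4⟩ := exists_hecke c φ b hb r hr _ hpos
  exact ⟨⟨N1, k, χ, h1, h3, h2, h4⟩⟩

/-- **the sum of the values of the Hecke character above `p`** -/
theorem sum_HD {ι : Type} [Fintype ι] {r : ι → ℤ} {b : ι → ZMod M} (D : HD c φ r b)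
    (p : Nat.Primes) (hp : ¬ (p : ℕ) ∣ D.N1) (hp1 : ((p : ℕ) : ZMod M) = 1) (E : Type) [Field E]
    [Fintype E] (hE : Fintype.card E = p) {w : E} (hw : IsPrimitiveRoot w M)
    {e : AddChar (ZMod M) ℂ} (he : ∀ i, e i = 1 → i = 0) {ψ : AddChar E ℂ} (hψ : ψ.IsPrimitive) :
    ∑ 𝔭 ∈ (ov K p).filter (fun 𝔭 => Ideal.absNorm 𝔭 = p), D.χ 𝔭 =
      ∑ t : (ZMod M)ˣ, lam hw e ψ r (tb t b) := by
  classical
  obtain ⟨P0, μ0, hs, hk, hP0, hn, hsum⟩ := sum_primes c p hp1 E hE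
  have hpM : ¬ (p : ℕ) ∣ M := fun h => hp ((h.trans (dvd_mul_right _ _)).trans D.dvd)
  have hM : ((M : ℕ) : E) ≠ 0 := by
    intro h0
    have h1 : ((M : ℕ) : 𝓞 K) ∈ P0.asIdeal := by
      rw [← hk, RingHom.mem_ker, map_natCast]
      exact h0
    exact not_mem_of_coprime P0.isPrime p.2 hP0 hpM h1
  have hw0 : IsPrimitiveRoot (μ0 (zz c)) M := prim_map μ0 (zz_prim c) hM
  rw [hsum]
  obtain ⟨s, hs'⟩ := lam_any hw0 hw (eC_inj c φ) he ψ
  have h1 : ∀ t : (ZMod M)ˣ, D.χ (act c t P0).asIdeal = lam hw0 (eC c φ) ψ r (tb t⁻¹ b) := by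
    intro t
    have hwt : IsPrimitiveRoot ((μ0.comp (rs c t : 𝓞 K →+* 𝓞 K)) (zz c)) M := by
      rw [mu_zz]
      exact pow_unit_prim hw0 t
    rw [D.val E (μ0.comp (rs c t : 𝓞 K →+* 𝓞 K)) ?_ (act c t P0) ?_ ?_ hwt hM ?_ ψ hψ,
      lam_congr hwt (mu_zz c μ0 t) (pow_unit_prim hw0 t), lam_pow_unit]
    · rw [RingHom.coe_comp]
      exact hs.comp (rs c t).surjective
    · ext x
      rw [mem_act, ← hk]
      rfl
    · exact not_mem_of_coprime (act c t P0).isPrime p.2 (act_above c t hP0) hp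
    · rw [hE, hn t]
  rw [sum_congr rfl fun t _ => h1 t, sum_congr rfl fun t _ => hs' r (tb t b)]
  rw [← Equiv.sum_comp (Equiv.inv (ZMod M)ˣ)]
  simp only [Equiv.inv_apply, inv_inv]
  rw [← Equiv.sum_comp (Equiv.mulLeft s) (fun t => lam hw0 (eC c φ) ψ r (tb t b))]
  refine sum_congr rfl fun t _ => ?_
  rw [tb_tb]
  rfl

end primes

end Pool.Agent.L0h11
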