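import Mathlib
import Pool.Agent.L0h11.Pr
import Pool.Agent.H916K.Defs

/-!
# Rational classes and principal Hecke characters
-/

set_option autoImplicit false
set_option linter.unusedSectionVars false

namespace Pool.Agent.L0h11

open Finset NumberField IsDedekindDomain Filter Topology
open Pool.Agent.N172.HS (IsHecke)
open Pool.Agent.H916K (RationalClass)

/-- a Hecke character is principal -/
def Princ {K : Type} [Field K] [NumberField K] (ψ : Ideal (𝓞 K) →*₀ ℂ) : Prop :=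
  ∀ 𝔞, ψ 𝔞 ≠ 0 → ψ 𝔞 = 1

/-- a Hecke character which is trivial at almost all primes of degree one is principal -/
theorem princ_of_deg1 {K : Type} [Field K] [NumberField K] {𝔣 : Ideal (𝓞 K)}
    {k : (K →+* ℂ) → ℤ} {t : (K →+* ℂ) → ℝ} {ψ : Ideal (𝓞 K) →*₀ ℂ} (h : IsHecke 𝔣 k t ψ)
    (h1 : ∀ᶠ v : HeightOneSpectrum (𝓞 K) in cofinite,
      (Ideal.absNorm v.asIdeal).Prime → ψ v.asIdeal = 1) : Princ ψ := by
  unfold Princ
  by_contra hne
  push Not at hne
  have h2 := Pool.Agent.N172.HS.meanH_zero Pool.Agent.N134.HS.t_nvq h hne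
  have h3 := Pool.Agent.N172.HS.meanH_one (K := K) (g := fun v => (ψ v.asIdeal).re)
    (fun v => (Complex.abs_re_le_norm _).trans (h.norm_le _)) (by
      filter_upwards [h1] with v hv hp
      rw [hv hp, Complex.one_re])
  have h4 := h2.sub h3
  have h5 : (fun ε => Pool.Agent.W353.TP.LL ε) =o[𝓝[>] (0 : ℝ)] Pool.Agent.W353.TP.LL := by
    refine h4.congr_left fun ε => ?_
    have : (fun x : Pool.Agent.W353.TP.HX K => (ψ (Pool.Agent.W353.NF.vx x).asIdeal).re) =
      fun x => (Pool.Agent.N172.HS.hv ψ x).re := rfl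
    rw [this]
    ring
  have h6 := h5.bound (c := 1 / 2) (by norm_num)
  obtain ⟨ε, h7, h8⟩ := (h6.and (Pool.Agent.W353.TP.LL_tendsto.eventually_gt_atTop 0)).exists
  rw [Real.norm_of_nonneg h8.le] at h7
  linarith

section

variable {M : ℕ} [NeZero M] {F : Type} [Field F] [Fintype F] {w : F} (hw : IsPrimitiveRoot w M)

lemma ch_pow_val (e : AddChar (ZMod M) ℂ) (a : ZMod M) : (ch hw e 1) ^ a.val = ch hw e a := by
  rw [← ch_nsmul, mul_one, ZMod.natCast_zmod_val]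

lemma order_ch {e : AddChar (ZMod M) ℂ} (he : ∀ i, e i = 1 → i = 0) : orderOf (ch hw e 1) = M := by
  apply Nat.dvd_antisymm
  · apply orderOf_dvd_of_pow_eq_one
    rw [← ch_nsmul, ZMod.natCast_self, zero_mul, ch_zero]
  · have h1 := pow_orderOf_eq_one (ch hw e 1)
    rw [← ch_nsmul, mul_one, ch_eq_one_iff hw e he, ZMod.natCast_eq_zero_iff] at h1
    exact h1

/-- every character of order `M` is a power residue character -/
lemma exists_e {χ : MulChar F ℂ} (hχ : orderOf χ = M) : ∃ e : AddChar (ZMod M) ℂ,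
    (∀ i, e i = 1 → i = 0) ∧ χ = ch hw e 1 := by
  classical
  obtain ⟨x, hx, hx1⟩ := exists_lg hw (1 : ZMod M)
  have hM : χ ^ M = 1 := by rw [← hχ, pow_orderOf_eq_one]
  have hζ : (χ x) ^ M = 1 := by
    rw [← MulChar.pow_apply' χ (NeZero.ne M), hM]
    exact MulChar.one_apply (isUnit_iff_ne_zero.2 hx)
  -- the values depend on the index only
  have hker : ∀ y : F, y ≠ 0 → lg M w y = 0 → χ y = 1 := by
    intro y hy h0
    have h1 := lg_spec hw hy
    rw [h0, ZMod.val_zero, pow_zero] at h1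
    obtain ⟨z, hz, hz2⟩ : ∃ z : F, z ≠ 0 ∧ z ^ M = y := by
      obtain ⟨g, hg⟩ := IsCyclic.exists_generator (α := Fˣ)
      obtain ⟨n, hn⟩ := (Submonoid.mem_powers_iff _ _).1
        (mem_powers_iff_mem_zpowers.2 (hg (Units.mk0 y hy)))
      have hn' : (g : F) ^ n = y := by
        rw [← Units.val_pow_eq_pow_val, hn, Units.val_mk0]
      have hord : orderOf g = Fintype.card F - 1 := by
        rw [orderOf_eq_card_of_forall_mem_zpowers hg, Nat.card_units, Nat.card_eq_fintype_card]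
      have h2 : g ^ (n * ((Fintype.card F - 1) / M)) = 1 := by
        apply Units.ext
        rw [Units.val_pow_eq_pow_val, pow_mul, hn', ← h1, Units.val_one]
      have h3 := orderOf_dvd_of_pow_eq_one h2
      rw [hord] at h3
      have h4 : M * ((Fintype.card F - 1) / M) ∣ n * ((Fintype.card F - 1) / M) := by
        rwa [Nat.mul_div_cancel' (dvd_card hw)]
      have h5 : 0 < (Fintype.card F - 1) / M := by
        apply Nat.div_pos (Nat.le_of_dvd _ (dvd_card hw)) (NeZero.pos M)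
        have := Fintype.one_lt_card (α := F)
        omega
      obtain ⟨k, hk⟩ := Nat.dvd_of_mul_dvd_mul_right h5 h4
      refine ⟨((g ^ k : Fˣ) : F), Units.ne_zero _, ?_⟩
      rw [← hn', hk, Units.val_pow_eq_pow_val, ← pow_mul, mul_comm]
    rw [← hz2, map_pow, ← MulChar.pow_apply' χ (NeZero.ne M), hM]
    exact MulChar.one_apply (isUnit_iff_ne_zero.2 hz)
  set e : AddChar (ZMod M) ℂ := AddChar.zmodChar M hζ with he
  have heq : χ = ch hw e 1 := by
    ext y
    rw [ch_apply hw e y.ne_zero, one_mul, he, AddChar.zmodChar_apply]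
    -- compare `y` and a power of `x`
    have hxn : x ^ (lg M w (y : F)).val ≠ 0 := pow_ne_zero _ hx
    have hlgp : ∀ n : ℕ, lg M w (x ^ n) = n := by
      intro n
      induction n with
      | zero => rw [pow_zero, lg_one hw, Nat.cast_zero]
      | succ n ih => rw [pow_succ, lg_mul hw (pow_ne_zero _ hx) hx, ih, hx1, Nat.cast_succ]
    have h2 : lg M w ((y : F) * (x ^ (lg M w (y : F)).val)⁻¹) = 0 := by
      have h3 := lg_mul hw (mul_ne_zero y.ne_zero (inv_ne_zero hxn)) hxn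
      rw [inv_mul_cancel_right₀ hxn, hlgp, ZMod.natCast_zmod_val] at h3
      exact (add_eq_right.1 h3.symm)
    have h3 := hker _ (mul_ne_zero y.ne_zero (inv_ne_zero hxn)) h2
    rw [map_mul] at h3
    have h4 : χ (x ^ (lg M w (y : F)).val)⁻¹ * χ (x ^ (lg M w (y : F)).val) = 1 := by
      rw [← map_mul, inv_mul_cancel₀ hxn, map_one]
    calc χ (y : F) = χ (y : F) * (χ (x ^ (lg M w (y : F)).val)⁻¹ * χ (x ^ (lg M w (y : F)).val)) := by
          rw [h4, mul_one]
      _ = (χ x) ^ (lg M w (y : F)).val := by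
          rw [← mul_assoc, h3, one_mul, map_pow]
  refine ⟨e, ?_, heq⟩
  intro i hi
  have h1 : χ ^ i.val = 1 := by
    rw [heq, ch_pow_val]
    ext y
    have h2 : ∀ j : ZMod M, e (i * j) = 1 := by
      intro j
      rw [← ZMod.natCast_zmod_val j, mul_comm, ← nsmul_eq_mul, AddChar.map_nsmul_eq_pow, hi, one_pow]
    rw [ch_apply hw e y.ne_zero, h2, MulChar.one_apply_coe]
  have h2 := orderOf_dvd_of_pow_eq_one h1
  rw [hχ] at h2
  exact (ZMod.val_eq_zero i).1 (Nat.eq_zero_of_dvd_of_lt h2 (ZMod.val_lt i))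

/-- the pairs of a line -/
def prs {ι : Type} [Fintype ι] (c : ι → ℤ) (b : ι → ZMod M) : Multiset (ZMod M × ℤ) :=
  univ.val.map fun i => (b i, c i)

omit [NeZero M] in
lemma card_prs {ι : Type} [Fintype ι] (c : ι → ℤ) (b : ι → ZMod M) :
    Multiset.card (prs c b) = Fintype.card ι := by
  unfold prs
  rw [Multiset.card_map, card_val, card_univ]

/-- the value one -/
lemma lam_eq_one_iff {ι : Type} [Fintype ι] (hN : Even (Fintype.card ι)) {e : AddChar (ZMod M) ℂ} (ψ : AddChar F ℂ)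
    (c : ι → ℤ) (hc : ∀ i, (c i : F) ≠ 0) (b : ι → ZMod M) (hb : ∀ i, b i ≠ 0) :
    lam hw e ψ c b = 1 ↔ ((prs c b).map fun z => gaussSum ((ch hw e 1) ^ z.1.val) ψ).prod =
      (Fintype.card F : ℂ) ^ (Multiset.card (prs c b) / 2) *
        ((prs c b).map fun z => ((ch hw e 1) ^ z.1.val) (z.2 : F)).prod := by
  rw [card_prs]
  unfold prs
  rw [Multiset.map_map, Multiset.map_map]
  have h1 := lam_eq hw e ψ hN c b hb
  rw [prod_mul_distrib] at h1
  have h2 : (∏ i, ch hw e (-(b i)) (c i : F)) * ∏ i, ch hw e (b i) (c i : F) = 1 := by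
    rw [← prod_mul_distrib]
    refine prod_eq_one fun i _ => ?_
    rw [← MulChar.mul_apply, ← ch_add, neg_add_cancel, ch_zero]
    exact MulChar.one_apply (isUnit_iff_ne_zero.2 (hc i))
  have h3 : (Fintype.card F : ℂ) ^ (Fintype.card ι / 2) ≠ 0 := pow_ne_zero _ (by
    exact_mod_cast Fintype.card_ne_zero)
  have e1 : (Multiset.map ((fun z : ZMod M × ℤ => gaussSum ((ch hw e 1) ^ z.1.val) ψ) ∘
      fun i => (b i, c i)) univ.val).prod = ∏ i, gaussSum (ch hw e (b i)) ψ := by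
    refine prod_congr rfl fun i _ => ?_
    simp only [Function.comp_apply]
    rw [ch_pow_val]
  have e2 : (Multiset.map ((fun z : ZMod M × ℤ => ((ch hw e 1) ^ z.1.val) (z.2 : F)) ∘
      fun i => (b i, c i)) univ.val).prod = ∏ i, ch hw e (b i) (c i : F) := by
    refine prod_congr rfl fun i _ => ?_
    simp only [Function.comp_apply]
    rw [ch_pow_val]
  rw [e1, e2]
  set A := ∏ i, ch hw e (-(b i)) (c i : F)
  set B := ∏ i, ch hw e (b i) (c i : F)
  set G := ∏ i, gaussSum (ch hw e (b i)) ψ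
  set Q := (Fintype.card F : ℂ) ^ (Fintype.card ι / 2)
  constructor
  · intro h
    rw [h, mul_one] at h1
    calc G = (A * B) * G := by rw [h2, one_mul]
      _ = (A * G) * B := by ring
      _ = Q * B := by rw [h1]
  · intro h
    apply mul_left_cancel₀ h3
    rw [← h1, h, mul_one]
    calc A * (Q * B) = Q * (A * B) := by ring
      _ = Q := by rw [h2, mul_one]

end

section

variable {M : ℕ} [NeZero M] {K : Type} [Field K] [NumberField K] (c : Cy M K) (φ : K →+* ℂ)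

lemma HD_ne_zero {ι : Type} [Fintype ι] {r : ι → ℤ} {b : ι → ZMod M} (D : HD c φ r b)
    {v : HeightOneSpectrum (𝓞 K)} (hv : ((D.N1 : ℕ) : 𝓞 K) ∉ v.asIdeal) : D.χ v.asIdeal ≠ 0 := by
  intro h
  rw [psi_eq_zero D.hecke, Ideal.dvd_span_singleton] at h
  exact hv h

include c in
lemma card_residue {q : ℕ} (hq : q.Prime) (hqM : ¬ q ∣ M) {P : HeightOneSpectrum (𝓞 K)}
    (hP : ((q : ℕ) : 𝓞 K) ∈ P.asIdeal) :
    Nat.card (𝓞 K ⧸ P.asIdeal) = q ^ orderOf ((q : ℕ) : ZMod M) := by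
  have hcop : q.Coprime M := (Nat.Prime.coprime_iff_not_dvd hq).2 hqM
  have h1 := (stab c P q hq hP (ZMod.unitOfCoprime q hcop) (ZMod.coe_unitOfCoprime _ _)).2
  rw [h1, ← orderOf_units, ZMod.coe_unitOfCoprime]

/-- the values of a principal Hecke character -/
theorem lam_of_princ {ι : Type} [Fintype ι] {r : ι → ℤ} {b : ι → ZMod M} (D : HD c φ r b)
    (h : Princ D.χ) {q : ℕ} (hq : q.Prime) (hqN : ¬ q ∣ D.N1) (F : Type) [Field F] [Fintype F]
    (hF : Fintype.card F = q ^ orderOf ((q : ℕ) : ZMod M)) {w : F} (hw : IsPrimitiveRoot w M)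
    {e : AddChar (ZMod M) ℂ} (he : ∀ i, e i = 1 → i = 0) {ψ : AddChar F ℂ} (hψ : ψ.IsPrimitive) :
    lam hw e ψ r b = 1 := by
  classical
  have hqM : ¬ q ∣ M := fun h => hqN ((h.trans (dvd_mul_right _ _)).trans D.dvd)
  obtain ⟨P0, hP0⟩ := exists_above (K := K) ⟨q, hq⟩
  have hmax := P0.isMaximal
  let _ : Field (𝓞 K ⧸ P0.asIdeal) := Ideal.Quotient.field P0.asIdeal
  have hfin : Finite (𝓞 K ⧸ P0.asIdeal) := Ideal.finiteQuotientOfFreeOfNeBot P0.asIdeal P0.ne_bot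
  let _ : Fintype (𝓞 K ⧸ P0.asIdeal) := Fintype.ofFinite _
  have hcard : Fintype.card (𝓞 K ⧸ P0.asIdeal) = Fintype.card F := by
    rw [hF, ← card_residue c hq hqM hP0, Nat.card_eq_fintype_card]
  let ρ : (𝓞 K ⧸ P0.asIdeal) ≃+* F := FiniteField.ringEquivOfCardEq hcard
  set μ0 : 𝓞 K →+* F := (ρ : (𝓞 K ⧸ P0.asIdeal) →+* F).comp (Ideal.Quotient.mk P0.asIdeal) with hμ0
  have hs : Function.Surjective μ0 := by
    rw [hμ0, RingHom.coe_comp]
    exact ρ.surjective.comp Ideal.Quotient.mk_surjective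
  have hk : RingHom.ker μ0 = P0.asIdeal := by
    ext x
    rw [RingHom.mem_ker, hμ0, RingHom.comp_apply]
    have h1 : (ρ : (𝓞 K ⧸ P0.asIdeal) →+* F) (Ideal.Quotient.mk P0.asIdeal x) = 0 ↔
      Ideal.Quotient.mk P0.asIdeal x = 0 := map_eq_zero_iff ρ ρ.injective
    rw [h1, Ideal.Quotient.eq_zero_iff_mem]
  have hM : ((M : ℕ) : F) ≠ 0 := by
    intro h0
    have h1 : ((M : ℕ) : 𝓞 K) ∈ P0.asIdeal := by
      rw [← hk, RingHom.mem_ker, map_natCast]
      exact h0
    exact not_mem_of_coprime P0.isPrime hq hP0 hqM h1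
  have hw0 : IsPrimitiveRoot (μ0 (zz c)) M := prim_map μ0 (zz_prim c) hM
  obtain ⟨s, hs'⟩ := lam_any hw0 hw (eC_inj c φ) he ψ
  rw [hs']
  have hwt : IsPrimitiveRoot ((μ0.comp (rs c s⁻¹ : 𝓞 K →+* 𝓞 K)) (zz c)) M := by
    rw [mu_zz]
    exact pow_unit_prim hw0 s⁻¹
  have hN1 : ((D.N1 : ℕ) : 𝓞 K) ∉ (act c s⁻¹ P0).asIdeal :=
    not_mem_of_coprime (act c s⁻¹ P0).isPrime hq (act_above c s⁻¹ hP0) hqN
  have h1 : D.χ (act c s⁻¹ P0).asIdeal = lam hw0 (eC c φ) ψ r (tb s b) := by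
    rw [D.val F (μ0.comp (rs c s⁻¹ : 𝓞 K →+* 𝓞 K)) ?_ (act c s⁻¹ P0) ?_ hN1 hwt hM ?_ ψ hψ,
      lam_congr hwt (mu_zz c μ0 s⁻¹) (pow_unit_prim hw0 s⁻¹), lam_pow_unit, inv_inv]
    · rw [RingHom.coe_comp]
      exact hs.comp (rs c s⁻¹).surjective
    · ext x
      rw [mem_act, ← hk]
      rfl
    · rw [hF, ← card_residue c hq hqM (act_above c s⁻¹ hP0)]
      rfl
  rw [← h1]
  exact h _ (HD_ne_zero c φ D hN1)

lemma psi_prim {F : Type} [Field F] [Fintype F] : ∃ ψ : AddChar F ℂ, ψ.IsPrimitive := by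
  have hp : Fact (ringChar F).Prime := ⟨CharP.char_is_prime F _⟩
  obtain ⟨ψ, hψ, -⟩ := exists_psi (A := ℂ) (ringChar F)
    (Complex.isPrimitiveRoot_exp _ hp.1.ne_zero) F
  exact ⟨ψ, hψ⟩

lemma prime_below (v : HeightOneSpectrum (𝓞 K)) : ∃ q : ℕ, q.Prime ∧ ((q : ℕ) : 𝓞 K) ∈ v.asIdeal := by
  have hfin : Finite (𝓞 K ⧸ v.asIdeal) := Ideal.finiteQuotientOfFreeOfNeBot v.asIdeal v.ne_bot
  have hmax := v.isMaximal
  let _ : Field (𝓞 K ⧸ v.asIdeal) := Ideal.Quotient.field v.asIdeal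
  refine ⟨ringChar (𝓞 K ⧸ v.asIdeal), CharP.char_is_prime (𝓞 K ⧸ v.asIdeal) _, ?_⟩
  rw [← Ideal.Quotient.eq_zero_iff_mem, map_natCast]
  exact CharP.cast_eq_zero (𝓞 K ⧸ v.asIdeal) _

/-- the value at a prime in the residue field -/
lemma val_residue {ι : Type} [Fintype ι] {r : ι → ℤ} {b : ι → ZMod M} (D : HD c φ r b)
    {v : HeightOneSpectrum (𝓞 K)} {q : ℕ} (hq : q.Prime) (hqv : ((q : ℕ) : 𝓞 K) ∈ v.asIdeal)
    (hqN : ¬ q ∣ D.N1) : ∃ (F : Type) (_ : Field F) (_ : Fintype F) (w : F)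
      (hw : IsPrimitiveRoot w M) (ψ : AddChar F ℂ), ψ.IsPrimitive ∧
      Fintype.card F = q ^ orderOf ((q : ℕ) : ZMod M) ∧ Fintype.card F = Ideal.absNorm v.asIdeal ∧
      (∀ x : ℤ, (x : F) = 0 ↔ (x : 𝓞 K) ∈ v.asIdeal) ∧
      D.χ v.asIdeal = lam hw (eC c φ) ψ r b := by
  have hqM : ¬ q ∣ M := fun h => hqN ((h.trans (dvd_mul_right _ _)).trans D.dvd)
  have hmax := v.isMaximal
  let _ : Field (𝓞 K ⧸ v.asIdeal) := Ideal.Quotient.field v.asIdeal
  have hfin : Finite (𝓞 K ⧸ v.asIdeal) := Ideal.finiteQuotientOfFreeOfNeBot v.asIdeal v.ne_bot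
  let _ : Fintype (𝓞 K ⧸ v.asIdeal) := Fintype.ofFinite _
  have hM : ((M : ℕ) : 𝓞 K ⧸ v.asIdeal) ≠ 0 := by
    intro h0
    have h1 : ((M : ℕ) : 𝓞 K) ∈ v.asIdeal := by
      rw [← Ideal.Quotient.eq_zero_iff_mem, map_natCast]
      exact h0
    exact not_mem_of_coprime v.isPrime hq hqv hqM h1
  have hw0 : IsPrimitiveRoot (Ideal.Quotient.mk v.asIdeal (zz c)) M :=
    prim_map (Ideal.Quotient.mk v.asIdeal) (zz_prim c) hM
  obtain ⟨ψ, hψ⟩ := psi_prim (F := 𝓞 K ⧸ v.asIdeal)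
  have hcard : Fintype.card (𝓞 K ⧸ v.asIdeal) = Ideal.absNorm v.asIdeal := by
    rw [← Nat.card_eq_fintype_card]
    rfl
  refine ⟨_, _, _, _, hw0, ψ, hψ, ?_, hcard, ?_, ?_⟩
  · rw [← card_residue c hq hqM hqv, Nat.card_eq_fintype_card]
  · intro x
    rw [← Ideal.Quotient.eq_zero_iff_mem, map_intCast]
  · refine D.val _ (Ideal.Quotient.mk v.asIdeal) Ideal.Quotient.mk_surjective v Ideal.mk_ker ?_
      hw0 hM hcard ψ hψ
    exact not_mem_of_coprime v.isPrime hq hqv hqN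

lemma coeff_ne {ι : Type} [Fintype ι] {r : ι → ℤ} {b : ι → ZMod M} (D : HD c φ r b)
    {q : ℕ} (hq : q.Prime) (hqN : ¬ q ∣ D.N1) (F : Type) [Field F] [Fintype F] {n : ℕ}
    (hF : Fintype.card F = q ^ n) (i : ι) : ((r i : ℤ) : F) ≠ 0 := by
  have hn : n ≠ 0 := by
    rintro rfl
    rw [pow_zero] at hF
    have := Fintype.one_lt_card (α := F)
    omega
  have hc : CharP F q := by
    refine (CharP.charP_iff_prime_eq_zero hq).2 ?_
    have h1 : (((Fintype.card F : ℕ)) : F) = 0 := FiniteField.cast_card_eq_zero F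
    rw [hF, Nat.cast_pow] at h1
    exact (pow_eq_zero_iff hn).1 h1
  intro h0
  have h1 : (((r i).natAbs : ℕ) : F) = 0 := by
    rcases Int.natAbs_eq (r i) with h | h
    · rw [h, Int.cast_natCast] at h0
      exact h0
    · rw [h, Int.cast_neg, Int.cast_natCast, neg_eq_zero] at h0
      exact h0
  rw [CharP.cast_eq_zero_iff F q] at h1
  exact hqN (((h1.trans (dvd_prod_of_mem (fun i => (r i).natAbs) (mem_univ i))).trans
    (dvd_mul_left _ _)).trans D.dvd)

/-- the value at almost all primes determines whether the character is principal -/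
theorem princ_of_vals {ι : Type} [Fintype ι] {r : ι → ℤ} {b : ι → ZMod M} (D : HD c φ r b) (B : ℕ)
    (h : ∀ q : ℕ, B < q → q.Prime → ¬ q ∣ D.N1 → ∀ (F : Type) [Field F] [Fintype F],
      Fintype.card F = q → Fintype.card F = q ^ orderOf ((q : ℕ) : ZMod M) →
      ∀ (w : F) (hw : IsPrimitiveRoot w M) (ψ : AddChar F ℂ),
      ψ.IsPrimitive → lam hw (eC c φ) ψ r b = 1) : Princ D.χ := by
  apply princ_of_deg1 D.hecke
  rw [Filter.eventually_cofinite]
  have hne : Ideal.span {((D.N1 * (B.factorial) : ℕ) : 𝓞 K)} ≠ ⊥ := by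
    rw [Ne, Ideal.span_singleton_eq_bot]
    exact_mod_cast (Nat.mul_pos D.pos (Nat.factorial_pos B)).ne'
  refine (finite_dvd hne).subset fun v hv => ?_
  have hv' : ¬ ((Ideal.absNorm v.asIdeal).Prime → D.χ v.asIdeal = 1) := hv
  push Not at hv'
  obtain ⟨hp, hne1⟩ := hv'
  show v.asIdeal ∣ _
  rw [Ideal.dvd_span_singleton]
  by_contra hmem
  apply hne1
  set q := Ideal.absNorm v.asIdeal with hq
  have hqv : ((q : ℕ) : 𝓞 K) ∈ v.asIdeal := Ideal.absNorm_mem _
  have hqd : ¬ q ∣ D.N1 * B.factorial := by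
    intro h1
    exact hmem (v.asIdeal.mem_of_dvd (Nat.cast_dvd_cast h1) hqv)
  have hqN : ¬ q ∣ D.N1 := fun h1 => hqd (h1.mul_right _)
  have hqB : B < q := by
    by_contra h1
    exact hqd ((Nat.dvd_factorial hp.pos (not_lt.1 h1)).mul_left _)
  obtain ⟨F, _, _, w, hw, ψ, hψ, h1, h2, -, h3⟩ := val_residue c φ D hp hqv hqN
  rw [h3]
  exact h q hqB hp hqN F (h2.trans hq.symm) h1 w hw ψ hψ

/-- **Rational classes correspond to principal characters** -/
theorem rational_iff {ι : Type} [Fintype ι] (hN : Even (Fintype.card ι)) {r : ι → ℤ} {b : ι → ZMod M}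
    (hb : ∀ i, b i ≠ 0) (D : HD c φ r b) : RationalClass M (prs r b) ↔ Princ D.χ := by
  constructor
  · rintro ⟨B, hB⟩
    refine princ_of_vals c φ D B ?_
    intro q hqB hq hqN F _ _ hF1 hF2 w hw ψ hψ
    rw [lam_eq_one_iff hw hN ψ r (fun i => coeff_ne c φ D hq hqN F hF2 i) b hb]
    refine hB q hqB hq F hF2 _ ψ (order_ch hw (eC_inj c φ)) ?_
    intro h1
    have := hψ (one_ne_zero (α := F))
    rw [AddChar.mulShift_one] at this
    exact this h1
  · intro h
    refine ⟨D.N1, ?_⟩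
    intro q hqN hq F _ _ hF χ ψ hχ hψ
    have hqN' : ¬ q ∣ D.N1 := fun h1 => by
      have := Nat.le_of_dvd D.pos h1
      omega
    have hψ' : ψ.IsPrimitive := AddChar.IsPrimitive.of_ne_one hψ
    obtain ⟨w, hw⟩ := exists_w (F := F) (d := M) (by
      have hqM : ¬ q ∣ M := fun h => hqN' ((h.trans (dvd_mul_right _ _)).trans D.dvd)
      have hcop : q.Coprime M := (Nat.Prime.coprime_iff_not_dvd hq).2 hqM
      have h1 : ((q : ℕ) : ZMod M) ^ orderOf ((q : ℕ) : ZMod M) = 1 := pow_orderOf_eq_one _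
      rw [← Nat.cast_pow, ← hF] at h1
      have h2 := Fintype.one_lt_card (α := F)
      rw [← ZMod.natCast_eq_zero_iff, Nat.cast_sub h2.le, h1, Nat.cast_one, sub_self])
    obtain ⟨e, he, rfl⟩ := exists_e hw hχ
    rw [← lam_eq_one_iff hw hN ψ r (fun i => coeff_ne c φ D hq hqN' F hF i) b hb]
    exact lam_of_princ c φ D h hq hqN' F hF hw he hψ'

end

end Pool.Agent.L0h11
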