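import Mathlib
import Pool.Agent.L0h11.Rec

/-!
# The power residue symbol of a prime number at an ideal, as a function of a generator
-/

set_option autoImplicit false
set_option linter.unusedSectionVars false

namespace Pool.Agent.L0h11

open Finset NumberField IsDedekindDomain UniqueFactorizationMonoid

section frob2

variable {M : ℕ} [NeZero M] {F : Type} [Field F] [NumberField F] (c : Cy M F)

include c in
/-- the Frobenius automorphism at a given prime above `r` -/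
lemma exists_frob2 (r : ℕ) (hr : r.Prime) (Q : HeightOneSpectrum (𝓞 F))
    (hrm : ((r : ℕ) : 𝓞 F) ∈ Q.asIdeal) : ∃ τ : 𝓞 F →+* 𝓞 F,
    (∀ y, τ y - y ^ r ∈ Q.asIdeal) ∧
    ∀ (η : 𝓞 F) (m : ℕ), η ^ m = 1 → (m : 𝓞 F) ∉ Q.asIdeal → τ η = η ^ r := by
  have hgal := isGal c
  have hinv : Algebra.IsInvariant ℤ (𝓞 F) (𝓞 F ≃ₐ[ℤ] 𝓞 F) :=
    Algebra.isInvariant_of_isGalois' ℤ ℚ F (𝓞 F)
  have hfin : Finite (𝓞 F ≃ₐ[ℤ] 𝓞 F) :=
    Finite.of_equiv _ (galRestrict ℤ ℚ F (𝓞 F)).toEquiv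
  have hQf : Finite (𝓞 F ⧸ Q.asIdeal) := Ideal.finiteQuotientOfFreeOfNeBot Q.asIdeal Q.ne_bot
  have hQp : Q.asIdeal.IsPrime := Q.isPrime
  obtain ⟨σ, hσ⟩ := IsArithFrobAt.exists_of_isInvariant ℤ (𝓞 F ≃ₐ[ℤ] 𝓞 F) Q.asIdeal
  have hcard : Nat.card (ℤ ⧸ Q.asIdeal.under ℤ) = r := by
    have h1 : Q.asIdeal.under ℤ = Ideal.span {((r : ℕ) : ℤ)} := by
      have hmax : (Ideal.span {(r : ℤ)}).IsMaximal :=
        PrincipalIdealRing.isMaximal_of_irreducible (Nat.prime_iff_prime_int.1 hr).irreducible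
      refine (hmax.eq_of_le (Ideal.IsPrime.under ℤ Q.asIdeal).ne_top ?_).symm
      rw [Ideal.span_singleton_le_iff_mem, Ideal.mem_comap]
      simpa using hrm
    rw [h1]
    have := Nat.card_congr (Int.quotientSpanNatEquivZMod r).toEquiv
    rw [this, Nat.card_zmod]
  refine ⟨((MulSemiringAction.toAlgHom ℤ (𝓞 F) σ : 𝓞 F →ₐ[ℤ] 𝓞 F) : 𝓞 F →+* 𝓞 F), ?_, ?_⟩
  · intro y
    have h1 := hσ y
    rw [hcard] at h1
    exact h1
  · intro η k hη hk
    have h1 := hσ.apply_of_pow_eq_one hη hk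
    rw [hcard] at h1
    exact h1

end frob2

section overp

variable {K F : Type} [Field K] [NumberField K] [Field F] [NumberField F]

/-- a prime above a given one -/
lemma exists_over (ι : 𝓞 K →+* 𝓞 F) (hι : Function.Injective ι) (P : HeightOneSpectrum (𝓞 K)) :
    ∃ Q : HeightOneSpectrum (𝓞 F), ∀ x, ι x ∈ Q.asIdeal ↔ x ∈ P.asIdeal := by
  let _ : Algebra (𝓞 K) (𝓞 F) := ι.toAlgebra
  have : Algebra.IsIntegral (𝓞 K) (𝓞 F) := ⟨fun x =>
    (Algebra.IsIntegral.isIntegral (R := ℤ) x).tower_top⟩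
  have hP := P.isPrime
  obtain ⟨Q, hQ1, hQ2⟩ := Ideal.exists_ideal_over_prime_of_isIntegral_of_isDomain (S := 𝓞 F)
    P.asIdeal (by
      have h1 : RingHom.ker (algebraMap (𝓞 K) (𝓞 F)) = ⊥ := (RingHom.injective_iff_ker_eq_bot _).1 hι
      rw [h1]
      exact bot_le)
  refine ⟨⟨Q, hQ1, ?_⟩, ?_⟩
  · rintro rfl
    apply P.ne_bot
    rw [← hQ2]
    exact Ideal.comap_bot_of_injective _ hι
  · intro x
    have h1 : x ∈ Ideal.comap (algebraMap (𝓞 K) (𝓞 F)) Q ↔ x ∈ P.asIdeal := by rw [hQ2]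
    exact h1

end overp

section main

variable {M : ℕ} [NeZero M] {K : Type} [Field K] [NumberField K] (c : Cy M K)

/-- the exponents -/
def ee (M : ℕ) (n : ℕ) (u : (ZMod M)ˣ) : ℕ := n * (-(u : ZMod M)).val / M

omit [NeZero M] in
lemma ee_zero (u : (ZMod M)ˣ) : ee M 0 u = 0 := by
  unfold ee
  rw [zero_mul, Nat.zero_div]

lemma mul_val (n : ℕ) (u : (ZMod M)ˣ) : (-(u : ZMod M) * (n : ZMod M)).val =
    n * (-(u : ZMod M)).val % M := by
  have h1 : -(u : ZMod M) * (n : ZMod M) = ((n * (-(u : ZMod M)).val : ℕ) : ZMod M) := by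
    rw [Nat.cast_mul, ZMod.natCast_zmod_val]
    ring
  rw [h1, ZMod.val_natCast]

lemma ee_spec (n : ℕ) (u : (ZMod M)ˣ) :
    M * ee M n u + (-(u : ZMod M) * (n : ZMod M)).val = n * (-(u : ZMod M)).val := by
  rw [mul_val]
  unfold ee
  exact Nat.div_add_mod _ _

lemma ee_succ (n : ℕ) (u : (ZMod M)ˣ) : ee M (n + 1) u = ee M n u +
    if M ≤ (-(u : ZMod M) * (n : ZMod M)).val + (-(u : ZMod M)).val then 1 else 0 := by
  have h1 := ee_spec n u
  have h2 := ee_spec (n + 1) u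
  have h3 := ZMod.val_lt (-(u : ZMod M) * (n : ZMod M))
  have h4 := ZMod.val_lt (-(u : ZMod M) * ((n + 1 : ℕ) : ZMod M))
  have h5 := ZMod.val_lt (-(u : ZMod M))
  have hM := NeZero.pos M
  have h6 : M * ee M (n + 1) u + (-(u : ZMod M) * ((n + 1 : ℕ) : ZMod M)).val =
      M * ee M n u + ((-(u : ZMod M) * (n : ZMod M)).val + (-(u : ZMod M)).val) := by
    rw [h2, ← add_assoc, h1]
    ring
  split_ifs with h
  · have h7 : M * ee M (n + 1) u + (-(u : ZMod M) * ((n + 1 : ℕ) : ZMod M)).val =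
      M * (ee M n u + 1) + ((-(u : ZMod M) * (n : ZMod M)).val + (-(u : ZMod M)).val - M) := by
      rw [h6, mul_add, mul_one]
      omega
    have h8 := congrArg (· / M) h7
    simp only [Nat.mul_add_div hM, Nat.div_eq_of_lt h4] at h8
    rw [Nat.div_eq_of_lt (by omega)] at h8
    simpa using h8
  · have h8 := congrArg (· / M) h6
    simp only [Nat.mul_add_div hM, Nat.div_eq_of_lt h4] at h8
    rw [Nat.div_eq_of_lt (by omega)] at h8
    simpa using h8

/-- the values of Weil's products -/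
lemma th_ind {a b : ZMod M} (hab : a + b ≠ 0) (u : (ZMod M)ˣ) : u ∈ Th' a b ↔
    M ≤ (-(u : ZMod M) * a).val + (-(u : ZMod M) * b).val := by
  unfold Th'
  have hpos := NeZero.pos M
  have key : ∀ a : ZMod M, a ≠ 0 → (-(u : ZMod M) * a).val = M - ((u : ZMod M) * a).val := by
    intro a ha
    have : NeZero ((u : ZMod M) * a) := ⟨fun h => ha ((Units.mul_right_eq_zero u).1 h)⟩
    rw [neg_mul, ZMod.val_neg_of_ne_zero]
  by_cases ha : a = 0
  · rw [if_pos (Or.inl ha), ha, mul_zero, ZMod.val_zero, zero_add]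
    have := ZMod.val_lt (-(u : ZMod M) * b)
    simp only [notMem_empty, false_iff]
    omega
  by_cases hb : b = 0
  · rw [if_pos (Or.inr (Or.inl hb)), hb, mul_zero, ZMod.val_zero, add_zero]
    have := ZMod.val_lt (-(u : ZMod M) * a)
    simp only [notMem_empty, false_iff]
    omega
  rw [if_neg (by tauto), key a ha, key b hb]
  unfold Th
  simp only [mem_filter, mem_univ, true_and]
  have h1 := ZMod.val_lt ((u : ZMod M) * a)
  have h2 := ZMod.val_lt ((u : ZMod M) * b)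
  have h3 : ((u : ZMod M) * a).val + ((u : ZMod M) * b).val ≠ M := by
    intro h
    have h4 : ((u : ZMod M) * a + (u : ZMod M) * b).val = 0 := by
      rw [ZMod.val_add, h, Nat.mod_self]
    rw [ZMod.val_eq_zero, ← mul_add] at h4
    exact hab ((Units.mul_right_eq_zero u).1 h4)
  omega

/-- the power residue symbol of the prime number `q`, not dividing `M`, at the ideal `(α)` -/
theorem rec_unram (q : ℕ) (hq : q.Prime) (hqM : ¬ q ∣ M) {α : 𝓞 K} (hα : α ≠ 0)
    (h1 : ((M ^ 2 : ℕ) : 𝓞 K) ∣ α - 1) (hpos : 0 < Algebra.norm ℤ α)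
    (hcq : ∀ P : HeightOneSpectrum (𝓞 K), ((q : ℕ) : 𝓞 K) ∈ P.asIdeal → α ∉ P.asIdeal)
    (P : HeightOneSpectrum (𝓞 K)) (hqP : ((q : ℕ) : 𝓞 K) ∈ P.asIdeal) :
    (∏ u : (ZMod M)ˣ, (rs c u⁻¹ α) ^ ee M q u) *
      ext (KI c q) (Ideal.span {α}) ^ ((q : ℕ) : ZMod M).val - 1 ∈ P.asIdeal := by
  classical
  set I : Ideal (𝓞 K) := Ideal.span {α} with hI
  have hcop : Cop M I := cop_of_congr hα (N := M ^ 2) (dvd_pow_self M (by norm_num))
    (Ideal.mem_span_singleton.2 h1)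
  have hsgn : (sg I : 𝓞 K) * (sg I : 𝓞 K) = 1 := by
    rw [← Int.cast_mul, sg_mul_self hcop.1, Int.cast_one]
  have hnorm : (Ideal.absNorm I : ℤ) = Algebra.norm ℤ α := by
    rw [hI, Ideal.absNorm_span_singleton, Int.natAbs_of_nonneg hpos.le]
  set Nn := Ideal.absNorm I with hNn
  have hNn0 : Nn ≠ 0 := by
    intro h
    rw [h] at hnorm
    exact hpos.ne hnorm
  have : NeZero (M * Nn) := ⟨mul_ne_zero (NeZero.ne M) hNn0⟩
  have hNp : (Nn : 𝓞 K) = ∏ u : (ZMod M)ˣ, rs c u⁻¹ α := by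
    have h2 : (Nn : 𝓞 K) = ∏ u : (ZMod M)ˣ, rs c u α := by
      rw [← norm_prod c, ← hnorm]
      push_cast
      rfl
    rw [h2]
    exact (Equiv.prod_comp (Equiv.inv (ZMod M)ˣ) (fun u => rs c u α)).symm
  have hS : ∀ P : HeightOneSpectrum (𝓞 K), P.asIdeal ∣ I →
      ((M : ℕ) : 𝓞 K) ∉ P.asIdeal ∧ (q : 𝓞 K) ∉ P.asIdeal := by
    intro P hP
    have h2 : α ∈ P.asIdeal := by
      rw [Ideal.dvd_iff_le] at hP
      exact hP (Ideal.mem_span_singleton_self α)
    refine ⟨?_, fun h3 => hcq P h3 h2⟩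
    intro h3
    apply P.isPrime.ne_top
    rw [Ideal.eq_top_iff_one]
    have h4 : α - 1 ∈ P.asIdeal := by
      refine P.asIdeal.mem_of_dvd h1 ?_
      push_cast
      exact Ideal.pow_mem_of_mem _ h3 2 (by norm_num)
    have h5 := P.asIdeal.sub_mem h2 h4
    rwa [sub_sub_cancel] at h5
  -- the big field
  obtain ⟨F, _, _, ⟨c'⟩⟩ := exists_cy (M * Nn)
  obtain ⟨ι, hι⟩ := exists_iota c c' (dvd_mul_right M Nn)
  obtain ⟨Q, hQ⟩ := exists_over ι hι P
  have hqQ : ((q : ℕ) : 𝓞 F) ∈ Q.asIdeal := by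
    rw [← map_natCast ι, hQ]
    exact hqP
  obtain ⟨τ, hτF, hτη⟩ := exists_frob2 c' q hq Q hqQ
  have hNQ : ((Nn : ℕ) : 𝓞 F) ∉ Q.asIdeal := by
    rw [← map_natCast ι, hQ, hNp]
    intro h
    obtain ⟨u, -, hu⟩ := (Ideal.IsPrime.prod_mem_iff (hp := P.isPrime)).1 h
    refine hcq (act c u⁻¹ P) ?_ ?_
    · rw [mem_act, map_natCast]
      exact hqP
    · rw [mem_act]
      exact hu
  have hprQ : ∀ p : ℕ, p.Prime → p ∣ Nn → (p : 𝓞 F) ∉ Q.asIdeal :=
    fun p hp hpN h => hNQ (Q.asIdeal.mem_of_dvd (Nat.cast_dvd_cast hpN) h)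
  have hη : ∀ p : ℕ, p.Prime → p ∣ Nn → ∃ η : 𝓞 F, IsPrimitiveRoot η p := by
    intro p hp hpN
    obtain ⟨d, hd⟩ := hpN
    refine ⟨zz c' ^ (M * d), (zz_prim c').pow (NeZero.pos _) ?_⟩
    rw [hd]
    ring
  -- the action on the `M`-th roots of unity
  have hMQ : ((M : ℕ) : 𝓞 F) ∉ Q.asIdeal := by
    intro h
    have hcop' : Nat.Coprime q M := (hq.coprime_iff_not_dvd).2 hqM
    have h13 : IsCoprime ((q : ℕ) : ℤ) ((M : ℕ) : ℤ) := Nat.isCoprime_iff_coprime.2 hcop'
    obtain ⟨x, y, hxy⟩ := h13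
    have h14 := congrArg (Int.cast : ℤ → 𝓞 F) hxy
    push_cast at h14
    apply Q.isPrime.ne_top
    rw [Ideal.eq_top_iff_one, ← h14]
    exact Ideal.add_mem _ (Ideal.mul_mem_left _ _ hqQ) (Ideal.mul_mem_left _ _ h)
  have hpv : ∀ n : ℕ, zz c ^ n = e0 c (n : ZMod M) := by
    intro n
    rw [e0_apply, ZMod.val_natCast]
    conv_lhs => rw [← pow_mod_orderOf, ← (zz_prim c).eq_orderOf]
  have hτt : ∀ i, τ (ι (e0 c i)) = ι (e0 c (((q : ℕ) : ZMod M) * i)) := by
    intro i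
    rw [hτη (ι (e0 c i)) M ?_ hMQ, ← map_pow, ← AddChar.map_nsmul_eq_pow, nsmul_eq_mul]
    rw [← map_pow, e0_apply, ← pow_mul, mul_comm, pow_mul, (zz_prim c).pow_eq_one, one_pow, map_one]
  obtain ⟨G, g0, g1, g2, g3⟩ := exists_GI c ι hι Nn hη hcop.1 q dvd_rfl hS τ (q : ZMod M) hτt
    (fun p hp hpN η hη1 => hτη η p hη1 (hprQ p hp hpN))
  have hpow : ∀ n : ℕ, G 1 ^ n = ι (∏ u : (ZMod M)ˣ, (rs c u⁻¹ α) ^ ee M n u) * G (n : ZMod M) := by
    intro n
    induction n with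
    | zero =>
      rw [pow_zero, Nat.cast_zero, g0, mul_one]
      have h2 : (∏ u : (ZMod M)ˣ, (rs c u⁻¹ α) ^ ee M 0 u) = 1 :=
        prod_eq_one fun u _ => by rw [ee_zero, pow_zero]
      rw [h2, map_one]
    | succ n ih =>
      have h3 : G (n : ZMod M) * G 1 = ι (∏ u : (ZMod M)ˣ, (rs c u⁻¹ α) ^
          (if M ≤ (-(u : ZMod M) * (n : ZMod M)).val + (-(u : ZMod M)).val then 1 else 0)) *
          G ((n : ZMod M) + 1) := by
        by_cases hM1 : (1 : ZMod M) = 0
        · have h4 : ∀ x : ZMod M, x = 0 := fun x => by rw [← mul_one x, hM1, mul_zero]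
          have h5 : (∏ u : (ZMod M)ˣ, (rs c u⁻¹ α) ^
            (if M ≤ (-(u : ZMod M) * (n : ZMod M)).val + (-(u : ZMod M)).val then 1 else 0)) = 1 := by
            refine prod_eq_one fun u _ => ?_
            rw [h4 (-(u : ZMod M) * (n : ZMod M)), h4 (-(u : ZMod M)), ZMod.val_zero, if_neg,
              pow_zero]
            have := NeZero.pos M
            omega
          rw [h5, h4 (n : ZMod M), h4 1, add_zero, g0, map_one, one_mul]
        by_cases hab : (n : ZMod M) + 1 = 0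
        · have hn : (n : ZMod M) = -1 := eq_neg_of_add_eq_zero_left hab
          have h4 := g2 1 hM1
          rw [hab, g0, mul_one, hn, mul_comm, h4]
          congr 1
          have hw := weil c hα h1 hpos (a := 1) (b := -1) (fun h => hM1 h.1)
          unfold Th' at hw
          rw [if_pos (Or.inr (Or.inr (add_neg_cancel 1))), prod_empty, mul_one] at hw
          rw [← hI] at hw
          rw [hw, hsgn, one_mul, hNp]
          refine prod_congr rfl fun u _ => ?_
          have hne : NeZero (-(u : ZMod M)) := ⟨fun h => by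
            rw [neg_eq_zero] at h
            exact hM1 (by rw [← Units.mul_inv u, h, zero_mul])⟩
          have h5 : -(u : ZMod M) * -1 = -(-(u : ZMod M)) := by ring
          rw [h5, ZMod.val_neg_of_ne_zero, if_pos, pow_one]
          have := ZMod.val_lt (-(u : ZMod M))
          omega
        · rw [g1 _ _ hab, weil c hα h1 hpos (fun h => hM1 h.2), ← hI, ← mul_assoc, hsgn, one_mul]
          congr 2
          rw [← prod_filter_mul_prod_filter_not univ (fun u => u ∈ Th' (n : ZMod M) 1)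
            (fun u => (rs c u⁻¹ α) ^ (if M ≤ (-(u : ZMod M) * (n : ZMod M)).val +
              (-(u : ZMod M)).val then 1 else 0))]
          have h6 : ∀ u : (ZMod M)ˣ, (M ≤ (-(u : ZMod M) * (n : ZMod M)).val + (-(u : ZMod M)).val ↔
              u ∈ Th' (n : ZMod M) 1) := by
            intro u
            rw [th_ind hab, mul_one]
          have h7 : ∏ u ∈ univ.filter (fun u => ¬ u ∈ Th' (n : ZMod M) 1), (rs c u⁻¹ α) ^
              (if M ≤ (-(u : ZMod M) * (n : ZMod M)).val + (-(u : ZMod M)).val then 1 else 0) = 1 := by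
            refine prod_eq_one fun u hu => ?_
            rw [if_neg, pow_zero]
            rw [h6]
            exact (mem_filter.1 hu).2
          rw [h7, mul_one]
          have h8 : univ.filter (fun u => u ∈ Th' (n : ZMod M) 1) = Th' (n : ZMod M) 1 := by
            ext u
            simp
          rw [h8]
          refine prod_congr rfl fun u hu => ?_
          rw [if_pos ((h6 u).2 hu), pow_one]
      rw [pow_succ, ih, mul_assoc, h3, ← mul_assoc, ← map_mul, ← prod_mul_distrib]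
      congr 2
      · refine prod_congr rfl fun u _ => ?_
        rw [← pow_add, ee_succ]
      · rw [Nat.cast_succ]
  -- the unit
  have hG1 : G 1 ∉ Q.asIdeal := by
    intro h
    by_cases hM1 : (1 : ZMod M) = 0
    · rw [hM1, g0] at h
      exact Q.isPrime.ne_top ((Ideal.eq_top_iff_one _).2 h)
    · have h4 := g2 1 hM1
      have hw := weil c hα h1 hpos (a := 1) (b := -1) (fun h => hM1 h.1)
      unfold Th' at hw
      rw [if_pos (Or.inr (Or.inr (add_neg_cancel 1))), prod_empty, mul_one, ← hI] at hw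
      rw [hw, hsgn, one_mul, map_natCast] at h4
      apply hNQ
      rw [← h4]
      exact Q.asIdeal.mul_mem_right _ h
  -- Frobenius
  have h2 := g3 1
  rw [mul_one] at h2
  have h3 := hpow q
  have h4 := hτF (G 1)
  rw [← hQ, map_sub, map_one, map_mul, map_pow]
  set W := ι (∏ u : (ZMod M)ˣ, (rs c u⁻¹ α) ^ ee M q u)
  set k := ι (ext (KI c q) I) ^ ((q : ℕ) : ZMod M).val
  have h5 : (W * k - 1) * (G 1 ^ q) ∈ Q.asIdeal := by
    have h6 : (W * k - 1) * (G 1 ^ q) = W * (k * τ (G 1)) - G 1 ^ q - W * k * (τ (G 1) - G 1 ^ q) := by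
      ring
    rw [h6, h2, ← h3, sub_self, zero_sub]
    exact neg_mem (Ideal.mul_mem_left _ _ h4)
  rcases Q.isPrime.mem_or_mem h5 with h6 | h6
  · exact h6
  · exact absurd (Q.isPrime.mem_of_pow_mem _ h6) hG1

end main

end Pool.Agent.L0h11
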