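import Mathlib
import Pool.Agent.L0h11.Unr
import Pool.Agent.L0h11.Hk

/-!
# Ideals at which the power residue symbol of a prime number has the largest order
-/

set_option autoImplicit false
set_option linter.unusedSectionVars false

namespace Pool.Agent.L0h11

open Finset NumberField IsDedekindDomain UniqueFactorizationMonoid
open Pool.Agent.N172.HS (TotPos)

section tp

variable {K : Type} [Field K] [NumberField K]

/-- making an integer totally positive -/
lemma exists_totPos (x : 𝓞 K) {n : ℕ} (hn : 0 < n) : ∃ k : ℕ, TotPos (x + ((k * n : ℕ) : 𝓞 K)) := by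
  obtain ⟨B, hB⟩ : ∃ B : ℝ, ∀ φ : K →+* ℂ, ‖φ (x : K)‖ ≤ B := by
    refine ⟨∑ φ : K →+* ℂ, ‖φ (x : K)‖, fun φ => ?_⟩
    exact single_le_sum (f := fun φ : K →+* ℂ => ‖φ (x : K)‖) (fun _ _ => norm_nonneg _)
      (mem_univ φ)
  obtain ⟨k, hk⟩ := exists_nat_gt B
  refine ⟨k, fun σ => ?_⟩
  have h1 := hB (Complex.ofRealHom.comp σ)
  have h2 : ‖(Complex.ofRealHom.comp σ) (x : K)‖ = |σ (x : K)| := by
    rw [RingHom.comp_apply]
    exact Complex.norm_real _
  rw [h2] at h1
  have h3 : σ ((x + ((k * n : ℕ) : 𝓞 K) : 𝓞 K) : K) = σ (x : K) + k * n := by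
    have h4 : ((x + ((k * n : ℕ) : 𝓞 K) : 𝓞 K) : K) = (x : K) + ((k * n : ℕ) : K) := by
      have h5 := map_add (algebraMap (𝓞 K) K) x ((k * n : ℕ) : 𝓞 K)
      rw [map_natCast] at h5
      exact h5
    rw [h4, map_add, map_natCast]
    push_cast
    rfl
  rw [h3]
  have h5 := neg_abs_le (σ (x : K))
  have h6 : (1 : ℝ) ≤ n := by exact_mod_cast hn
  have h7 : (0 : ℝ) ≤ k := Nat.cast_nonneg k
  nlinarith

end tp

section main

variable {M : ℕ} [NeZero M] {K : Type} [Field K] [NumberField K] (c : Cy M K)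

lemma neg_one_val' : (-1 : ZMod M).val = M - 1 := by
  obtain ⟨m, hm⟩ : ∃ m, M = m + 1 := ⟨M - 1, by have := NeZero.pos M; omega⟩
  subst hm
  rw [ZMod.val_neg_one, Nat.add_sub_cancel]

/-- **the power residue symbol of a prime number `q` is ramified at `q`** -/
theorem exists_alpha (q : ℕ) (hq : q.Prime) (hqM : ¬ q ∣ M) (C : ℕ) (hC : 0 < C) (hqC : ¬ q ∣ C)
    (hMC : M ^ 2 ∣ C) : ∃ α : 𝓞 K, α ≠ 0 ∧ ((C : ℕ) : 𝓞 K) ∣ α - 1 ∧ TotPos α ∧
      (∀ P : HeightOneSpectrum (𝓞 K), ((q : ℕ) : 𝓞 K) ∈ P.asIdeal → α ∉ P.asIdeal) ∧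
      ∃ i : ZMod M, ext (KI c q) (Ideal.span {α}) = e0 c i ∧ ∀ n : ZMod M, n * i = 0 → n = 0 := by
  classical
  have hfq : Fact q.Prime := ⟨hq⟩
  have hcop : Nat.Coprime q M := (hq.coprime_iff_not_dvd).2 hqM
  -- a prime above `q`
  obtain ⟨P0, hP0⟩ : ∃ P0 : HeightOneSpectrum (𝓞 K), ((q : ℕ) : 𝓞 K) ∈ P0.asIdeal := by
    obtain ⟨Q, τ, h, -⟩ := exists_frob c q hq
    exact ⟨Q, h⟩
  have hMP : ((M : ℕ) : 𝓞 K) ∉ P0.asIdeal := by
    intro h
    have h13 : IsCoprime ((q : ℕ) : ℤ) ((M : ℕ) : ℤ) := Nat.isCoprime_iff_coprime.2 hcop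
    obtain ⟨x, y, hxy⟩ := h13
    have h14 := congrArg (Int.cast : ℤ → 𝓞 K) hxy
    push_cast at h14
    apply P0.isPrime.ne_top
    rw [Ideal.eq_top_iff_one, ← h14]
    exact Ideal.add_mem _ (Ideal.mul_mem_left _ _ hP0) (Ideal.mul_mem_left _ _ h)
  obtain ⟨E, _, _, q', _, _, μ, g, hs, hμ, hk, hM, hg, hcard⟩ := exists_model P0 hMP
  have hqq : q = q' := by
    have h1 : ((q : ℕ) : E) = 0 := by
      rw [← map_natCast μ, hμ]
      exact hP0
    have h2 := (CharP.cast_eq_zero_iff E q' q).1 h1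
    exact ((Nat.prime_dvd_prime_iff_eq (Fact.out) hq).1 h2).symm
  subst hqq
  have hstab := fun t => (stab c P0 q hq hP0 g hg).1 t
  set f := orderOf g with hf
  have hfpos : 0 < f := orderOf_pos g
  have hcE : Fintype.card E = q ^ f := by
    rw [hcard, ← (stab c P0 q hq hP0 g hg).2]
    rfl
  -- the generator
  obtain ⟨γ, hγ⟩ := IsCyclic.exists_generator (α := Eˣ)
  have hγo : orderOf γ = q ^ f - 1 := by
    rw [orderOf_eq_card_of_forall_mem_zpowers hγ, Nat.card_units, Nat.card_eq_fintype_card, hcE]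
  obtain ⟨γ', hγ'⟩ := hs (γ : E)
  -- the other primes
  set J : Ideal (𝓞 K) := Ideal.span {((C : ℕ) : 𝓞 K)} *
    ∏ u ∈ univ.filter (fun u : (ZMod M)ˣ => act c u P0 ≠ P0), (act c u P0).asIdeal with hJ
  have hcopJ : IsCoprime P0.asIdeal J := by
    rw [Ideal.isCoprime_iff_sup_eq]
    by_contra hne
    have hJP : J ≤ P0.asIdeal := by
      have h1 : P0.asIdeal = P0.asIdeal ⊔ J :=
        P0.isMaximal.eq_of_le hne le_sup_left
      rw [h1]
      exact le_sup_right
    rw [hJ] at hJP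
    rcases (Ideal.IsPrime.mul_le P0.isPrime).1 hJP with h1 | h1
    · rw [Ideal.span_singleton_le_iff_mem] at h1
      have h13 : IsCoprime ((q : ℕ) : ℤ) ((C : ℕ) : ℤ) :=
        Nat.isCoprime_iff_coprime.2 ((hq.coprime_iff_not_dvd).2 hqC)
      obtain ⟨x, y, hxy⟩ := h13
      have h14 := congrArg (Int.cast : ℤ → 𝓞 K) hxy
      push_cast at h14
      apply P0.isPrime.ne_top
      rw [Ideal.eq_top_iff_one, ← h14]
      exact Ideal.add_mem _ (Ideal.mul_mem_left _ _ hP0) (Ideal.mul_mem_left _ _ h1)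
    · rw [Ideal.IsPrime.prod_le P0.isPrime] at h1
      obtain ⟨u, hu, h2⟩ := h1
      apply (mem_filter.1 hu).2
      apply HeightOneSpectrum.ext
      exact (act c u P0).isMaximal.eq_of_le P0.isPrime.ne_top h2
  obtain ⟨a, ha, b, hb, hab⟩ := Ideal.isCoprime_iff_exists.1 hcopJ
  obtain ⟨k, hk'⟩ := exists_totPos (a + b * γ') (n := C * q) (Nat.mul_pos hC hq.pos)
  set α : 𝓞 K := a + b * γ' + ((k * (C * q) : ℕ) : 𝓞 K) with hα
  have hμα : μ α = (γ : E) := by
    have h1 : μ a = 0 := (hμ a).2 ha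
    have h2 : μ b = 1 := by
      have := congrArg μ hab
      rw [map_add, h1, zero_add, map_one] at this
      exact this
    have h3 : ((q : ℕ) : E) = 0 := CharP.cast_eq_zero E q
    rw [hα, map_add, map_add, map_mul, h1, h2, hγ', map_natCast]
    push_cast
    rw [h3]
    ring
  have hαJ : ∀ P : HeightOneSpectrum (𝓞 K), ((q : ℕ) : 𝓞 K) ∈ P.asIdeal → P ≠ P0 →
      α - 1 ∈ P.asIdeal := by
    intro P hP hne
    obtain ⟨u, hu⟩ := trans1 c P0 P q hq hP0 hP
    have h1 : J ≤ P.asIdeal := by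
      rw [hJ, ← hu]
      refine Ideal.mul_le_right.trans ?_
      refine Ideal.prod_le_inf.trans ?_
      apply Finset.inf_le
      rw [mem_filter]
      refine ⟨mem_univ _, ?_⟩
      rw [hu]
      exact hne
    have h2 : α - 1 = b * (γ' - 1) + ((k * (C * q) : ℕ) : 𝓞 K) := by
      rw [hα]
      linear_combination hab
    rw [h2]
    refine Ideal.add_mem _ (Ideal.mul_mem_right _ _ (h1 hb)) ?_
    push_cast
    exact Ideal.mul_mem_left _ _ (Ideal.mul_mem_left _ _ hP)
  have hαC : ((C : ℕ) : 𝓞 K) ∣ α - 1 := by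
    have h2 : α - 1 = b * (γ' - 1) + ((k * (C * q) : ℕ) : 𝓞 K) := by
      rw [hα]
      linear_combination hab
    have h1 : ((C : ℕ) : 𝓞 K) ∣ b := by
      rw [← Ideal.mem_span_singleton]
      exact Ideal.mul_le_left hb
    rw [h2]
    refine dvd_add (h1.mul_right _) ?_
    push_cast
    exact (dvd_mul_right _ _).mul_left _
  have hα0 : α ≠ 0 := by
    intro h
    rw [h, map_zero] at hμα
    exact γ.ne_zero hμα.symm
  have hcq : ∀ P : HeightOneSpectrum (𝓞 K), ((q : ℕ) : 𝓞 K) ∈ P.asIdeal → α ∉ P.asIdeal := by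
    intro P hP hαP
    by_cases hne : P = P0
    · rw [hne, ← hμ, hμα] at hαP
      exact γ.ne_zero hαP
    · have h1 := P.asIdeal.sub_mem hαP (hαJ P hP hne)
      rw [sub_sub_cancel] at h1
      exact P.isPrime.ne_top ((Ideal.eq_top_iff_one _).2 h1)
  refine ⟨α, hα0, hαC, hk', hcq, ?_⟩
  have hM2 : ((M ^ 2 : ℕ) : 𝓞 K) ∣ α - 1 := (Nat.cast_dvd_cast hMC).trans hαC
  have hpos := norm_pos_of_totPos hα0 hk'
  have hcopI : Cop M (Ideal.span {α}) := cop_of_congr hα0 (N := M ^ 2)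
    (dvd_pow_self M (by norm_num)) (Ideal.mem_span_singleton.2 hM2)
  obtain ⟨i, hi⟩ := ext_KI_root c (q : ℤ) hcopI.1 (fun P hP => by
    have h2 : α ∈ P.asIdeal := by
      rw [Ideal.dvd_iff_le] at hP
      exact hP (Ideal.mem_span_singleton_self α)
    refine ⟨?_, fun h3 => hcq P (by exact_mod_cast h3) h2⟩
    intro h3
    apply P.isPrime.ne_top
    rw [Ideal.eq_top_iff_one]
    have h4 : α - 1 ∈ P.asIdeal := by
      refine P.asIdeal.mem_of_dvd hM2 ?_
      push_cast
      exact Ideal.pow_mem_of_mem _ h3 2 (by norm_num)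
    have h5 := P.asIdeal.sub_mem h2 h4
    rwa [sub_sub_cancel] at h5)
  refine ⟨i, hi, ?_⟩
  have key := rec_unram c q hq hqM hα0 hM2 hpos hcq P0 hP0
  rw [← hμ, map_sub, map_one, map_mul, map_pow, map_prod, sub_eq_zero, hi] at key
  -- the product
  have hprod : ∏ u : (ZMod M)ˣ, μ ((rs c u⁻¹ α) ^ ee M q u) =
      (γ : E) ^ (∑ j ∈ range f, q ^ (f - j) * ee M q (g ^ j)) := by
    have h1 : ∏ u : (ZMod M)ˣ, μ ((rs c u⁻¹ α) ^ ee M q u) =
        ∏ u ∈ (range f).image (fun j => g ^ j), μ ((rs c u⁻¹ α) ^ ee M q u) := by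
      symm
      apply prod_subset (subset_univ _)
      intro u _ hu
      have h2 : u ∉ Subgroup.zpowers g := by
        intro h2
        apply hu
        obtain ⟨j, hj⟩ := (Submonoid.mem_powers_iff _ _).1 (mem_powers_iff_mem_zpowers.2 h2)
        rw [mem_image]
        refine ⟨j % f, mem_range.2 (Nat.mod_lt _ hfpos), ?_⟩
        rw [pow_mod_orderOf, hj]
      have h3 : act c u⁻¹ P0 ≠ P0 := by
        rw [Ne, hstab]
        intro h4
        exact h2 (by simpa using (Subgroup.zpowers g).inv_mem h4)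
      have h4 := hαJ (act c u⁻¹ P0) (by rw [mem_act, map_natCast]; exact hP0) h3
      rw [mem_act, ← hμ, map_sub, map_sub, map_one, map_one, sub_eq_zero] at h4
      rw [map_pow, h4, one_pow]
    rw [h1, prod_image, ← prod_pow_eq_pow_sum]
    · refine prod_congr rfl fun j hj => ?_
      have hj' := mem_range.1 hj
      have h2 : (g ^ j)⁻¹ = g ^ (f - j) := by
        rw [inv_eq_iff_mul_eq_one, ← pow_add, Nat.add_sub_cancel' hj'.le, hf, pow_orderOf_eq_one]
      rw [map_pow, h2, mk_rs_pow c q g hg μ, hμα, ← pow_mul]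
    · intro a ha b hb h
      exact pow_injOn_Iio_orderOf (by simpa using ha) (by simpa using hb) h
  -- the exponent
  set S := ∑ j ∈ range f, q ^ (f - j) * ee M q (g ^ j) with hS
  have hexp : ∀ n ≤ f, M * ∑ j ∈ range n, q ^ (f - j) * ee M q (g ^ j) +
      q ^ (f - n + 1) * (-((g ^ n : (ZMod M)ˣ) : ZMod M)).val =
      q ^ (f + 1) * (-1 : ZMod M).val := by
    intro n
    induction n with
    | zero => intro _; simp
    | succ n ih =>
      intro hn
      have h1 := ih (by omega)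
      have h2 := ee_spec q (g ^ n)
      have h3 : -((g ^ n : (ZMod M)ˣ) : ZMod M) * ((q : ℕ) : ZMod M) =
          -((g ^ (n + 1) : (ZMod M)ˣ) : ZMod M) := by
        rw [pow_succ, Units.val_mul, hg]
        ring
      rw [h3] at h2
      rw [← h1, sum_range_succ]
      have h4 : f - (n + 1) + 1 = f - n := by omega
      have h5 : q ^ (f - n + 1) = q ^ (f - n) * q := pow_succ _ _
      rw [h4, h5, mul_assoc, ← h2]
      ring
  have hexp' := hexp f le_rfl
  rw [← hS, Nat.sub_self, zero_add, pow_one, hf, pow_orderOf_eq_one, ← hf, Units.val_one] at hexp'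
  obtain ⟨L, hL⟩ : M ∣ q ^ f - 1 := by
    have h1 := dvd_card (E := E) (w_prim c q g hg μ)
    rwa [hcE] at h1
  have hSL : S = ((M - 1) * q) * L := by
    have hMpos := NeZero.pos M
    have h1 : M * S = M * (((M - 1) * q) * L) := by
      have h2 : 1 ≤ q ^ f := Nat.one_le_pow _ _ hq.pos
      have h3 : q ^ f = M * L + 1 := by omega
      rw [neg_one_val', pow_succ, h3] at hexp'
      have h4 : M * S + q * (M - 1) = M * (((M - 1) * q) * L) + q * (M - 1) := by
        rw [hexp']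
        ring
      omega
    exact Nat.eq_of_mul_eq_mul_left hMpos h1
  have hLpos : 0 < L := by
    rcases Nat.eq_zero_or_pos L with h | h
    · rw [h, mul_zero] at hL
      have : 2 ≤ q ^ f := le_trans hq.two_le (Nat.le_self_pow hfpos.ne' q)
      omega
    · exact h
  have hprim1 : IsPrimitiveRoot ((γ : E) ^ L) M := by
    have h1 : IsPrimitiveRoot (γ : E) (q ^ f - 1) := by
      rw [IsPrimitiveRoot.coe_units_iff, ← hγo]
      exact IsPrimitiveRoot.orderOf γ
    refine h1.pow ?_ ?_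
    · rw [hL]
      exact Nat.mul_pos (NeZero.pos M) hLpos
    · rw [hL, mul_comm]
  have hprim2 : IsPrimitiveRoot ((γ : E) ^ S) M := by
    rw [hSL, mul_comm, pow_mul]
    apply hprim1.pow_of_coprime
    apply Nat.Coprime.mul_left
    · have hMpos := NeZero.pos M
      rcases Nat.lt_or_ge 1 M with h | h
      · exact (Nat.coprime_self_sub_left (by omega)).2 (Nat.coprime_one_left M) |>.symm.symm
      · have : M = 1 := by omega
        rw [this]
        exact Nat.coprime_one_right _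
    · exact hcop
  rw [hprod] at key
  intro n hn
  have h1 : μ (e0 c i) ^ n.val = 1 := by
    rw [← map_pow, ← AddChar.map_nsmul_eq_pow, nsmul_eq_mul, ZMod.natCast_zmod_val, hn,
      AddChar.map_zero_eq_one, map_one]
  have h2 : ((γ : E) ^ S) ^ n.val = 1 := by
    have h3 := congrArg (· ^ n.val) key
    simp only [mul_pow, one_pow] at h3
    rw [← pow_mul (μ (e0 c i)), mul_comm ((q : ℕ) : ZMod M).val, pow_mul (μ (e0 c i)), h1, one_pow,
      mul_one] at h3
    exact h3
  have h3 := (hprim2.pow_eq_one_iff_dvd _).1 h2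
  exact (ZMod.val_eq_zero n).1 (Nat.eq_zero_of_dvd_of_lt h3 (ZMod.val_lt n))

end main

end Pool.Agent.L0h11
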