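import Mathlib
import Pool.Agent.L0h11.Rat
import Pool.Agent.L0h11.Unr2

/-!
# Rational lines are unramified: a linear condition on the valuations of the coefficients
-/

set_option autoImplicit false
set_option linter.unusedSectionVars false

namespace Pool.Agent.L0h11

open Finset NumberField IsDedekindDomain UniqueFactorizationMonoid
open Pool.Agent.N172.HS (TotPos arch IsHecke arch_add arch_zero arch_mul arch_close Close)
open Pool.Agent.H916K (RationalClass)

section dense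

variable {K : Type} [Field K] [NumberField K]

lemma arch_nat (k : (K →+* ℂ) → ℤ) {n : ℕ} (hn : 0 < n) : arch k 0 (n : K) = 1 := by
  unfold arch
  refine prod_eq_one fun σ _ => ?_
  rw [map_natCast, Pi.zero_apply, zero_mul, Complex.ofReal_zero, zero_mul, Complex.exp_zero, mul_one,
    Complex.norm_natCast, Complex.ofReal_natCast, div_self, one_zpow]
  exact_mod_cast hn.ne'

/-- an infinity type which is trivial on a ray is trivial on all totally positive integers -/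
theorem arch_dense (k : (K →+* ℂ) → ℤ) {n : ℕ} (hn : 0 < n)
    (h : ∀ α : 𝓞 K, α ≠ 0 → (n : 𝓞 K) ∣ α - 1 → TotPos α → arch k 0 (α : K) = 1) {x : 𝓞 K}
    (hx : x ≠ 0) (hp : TotPos x) : arch k 0 (x : K) = 1 := by
  by_contra hne
  have hd : 0 < ‖arch k 0 (x : K) - 1‖ := norm_pos_iff.2 (sub_ne_zero.2 hne)
  set d := ‖arch k 0 (x : K) - 1‖ with hd'
  set C : ℝ := ∑ σ, (|(k σ : ℝ)| + |(0 : (K →+* ℂ) → ℝ) σ|) with hC
  have hC0 : 0 ≤ C := sum_nonneg fun σ _ => by positivity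
  set δ : ℝ := min (1 / 2) (d / (4 * (C + 1))) with hδ
  have hδ0 : 0 < δ := lt_min (by norm_num) (by positivity)
  have hδ1 : δ ≤ 1 / 2 := min_le_left _ _
  have hδ2 : δ ≤ d / (4 * (C + 1)) := min_le_right _ _
  have hxK : (x : K) ≠ 0 := RingOfIntegers.coe_ne_zero_iff.2 hx
  have hw : ∀ w : InfinitePlace K, 0 < w (x : K) := fun w => InfinitePlace.pos_iff.2 hxK
  obtain ⟨L, hL⟩ := exists_nat_gt (∑ w : InfinitePlace K, 1 / (δ * w (x : K)))
  have hL' : ∀ w : InfinitePlace K, 1 ≤ δ * (L * w (x : K)) := by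
    intro w
    have h1 : 1 / (δ * w (x : K)) ≤ ∑ w : InfinitePlace K, 1 / (δ * w (x : K)) :=
      single_le_sum (f := fun w : InfinitePlace K => 1 / (δ * w (x : K)))
        (fun w _ => by have := hw w; positivity) (mem_univ w)
    have h2 : 1 / (δ * w (x : K)) ≤ L := h1.trans hL.le
    have h3 : 0 < δ * w (x : K) := mul_pos hδ0 (hw w)
    rw [div_le_iff₀ h3] at h2
    linarith
  have hnR : (1 : ℝ) ≤ n := by exact_mod_cast hn
  obtain ⟨w0⟩ : Nonempty (InfinitePlace K) := inferInstance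
  have hLpos : 0 < L := by
    rcases Nat.eq_zero_or_pos L with h0 | h0
    · have h1 := hL' w0
      rw [h0, Nat.cast_zero, zero_mul, mul_zero] at h1
      linarith
    · exact h0
  set y : 𝓞 K := ((n * L : ℕ) : 𝓞 K) * x with hy
  have hyK : (y : K) = ((n * L : ℕ) : K) * (x : K) := by
    have h1 := map_mul (algebraMap (𝓞 K) K) ((n * L : ℕ) : 𝓞 K) x
    rw [map_natCast] at h1
    exact h1
  have hnL : 0 < n * L := Nat.mul_pos hn hLpos
  have hnLK : ((n * L : ℕ) : K) ≠ 0 := by exact_mod_cast hnL.ne'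
  have hyne : (y : K) ≠ 0 := by
    rw [hyK]
    exact mul_ne_zero hnLK hxK
  have hwy : ∀ w : InfinitePlace K, 1 ≤ δ * w (y : K) := by
    intro w
    rw [hyK, map_mul]
    have h1 : w ((n * L : ℕ) : K) = (n : ℝ) * L := by
      rw [← InfinitePlace.norm_embedding_eq, map_natCast, Complex.norm_natCast]
      push_cast
      rfl
    rw [h1]
    have h2 := hL' w
    have h3 : 0 ≤ δ * (L * w (x : K)) := by linarith
    nlinarith
  have hcast : ((y + 1 : 𝓞 K) : K) = (y : K) + 1 := by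
    have h1 := map_add (algebraMap (𝓞 K) K) y 1
    rw [map_one] at h1
    exact h1
  have hclose : Close δ ((y + 1 : 𝓞 K) : K) (y : K) := by
    intro w
    rw [hcast, add_sub_cancel_left, map_one]
    exact hwy w
  have hne1 : (y + 1 : 𝓞 K) ≠ 0 := by
    intro h0
    have h1 : (y : K) = -1 := by
      have h2 : ((y + 1 : 𝓞 K) : K) = 0 := by
        rw [h0]
        exact map_zero (algebraMap (𝓞 K) K)
      rw [hcast] at h2
      exact eq_neg_of_add_eq_zero_left h2
    have h2 := hwy w0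
    rw [h1] at h2
    have h3 : w0 (-1 : K) = 1 := by
      rw [← InfinitePlace.norm_embedding_eq, map_neg, map_one, norm_neg, norm_one]
    rw [h3] at h2
    linarith
  have htp : TotPos (y + 1 : 𝓞 K) := by
    intro σ
    rw [hcast, hyK, map_add, map_mul, map_natCast, map_one]
    have h1 := hp σ
    positivity
  have h1 := h (y + 1) hne1 (by rw [add_sub_cancel_right, hy]; push_cast; exact
    (dvd_mul_right _ _).mul_right _) htp
  have h2 := arch_close k 0 hclose (RingOfIntegers.coe_ne_zero_iff.2 hne1) hyne hδ0.le hδ1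
  rw [h1, hyK, arch_mul k 0 hnLK hxK, arch_nat k hnL, one_mul, norm_sub_rev, ← hd', ← hC] at h2
  have h3 : C * (2 * δ) ≤ d / 2 := by
    have h4 : 0 < 4 * (C + 1) := by positivity
    rw [le_div_iff₀ h4] at hδ2
    nlinarith
  linarith

end dense

section HT2

variable {K : Type} [Field K] [NumberField K]

/-- the function `v` on primes is given by an infinity type on the ray modulo `m` -/
def HT2 (m : ℕ) (v : Ideal (𝓞 K) → ℂ) : Prop := ∃ k : (K →+* ℂ) → ℤ,
  ∀ α : 𝓞 K, α ≠ 0 → (m : 𝓞 K) ∣ α - 1 → TotPos α → ext v (Ideal.span {α}) = arch k 0 (α : K)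

lemma HT2.mul {m : ℕ} {v v' : Ideal (𝓞 K) → ℂ} (h : HT2 m v) (h' : HT2 m v') :
    HT2 m (fun P => v P * v' P) := by
  obtain ⟨k, hr⟩ := h
  obtain ⟨k', hr'⟩ := h'
  refine ⟨k + k', ?_⟩
  intro α hα hd hp
  have h3 : Ideal.span {α} ≠ 0 := by
    rwa [Ne, Ideal.zero_eq_bot, Ideal.span_singleton_eq_bot]
  have h4 := arch_add (k := k) (t := 0) (l := k') (u := 0) hα
  rw [add_zero] at h4
  rw [ext_mul_fun v v' h3, hr α hα hd hp, hr' α hα hd hp, h4]

lemma HT2.one (m : ℕ) : HT2 m (fun _ : Ideal (𝓞 K) => (1 : ℂ)) := by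
  refine ⟨0, fun α hα _ _ => ?_⟩
  have h3 : Ideal.span {α} ≠ 0 := by
    rwa [Ne, Ideal.zero_eq_bot, Ideal.span_singleton_eq_bot]
  rw [arch_zero]
  refine ind_S (fun _ => True) (fun I => ext (fun _ => (1 : ℂ)) I = 1) ?_ ?_ ?_ h3
    (fun _ _ => trivial)
  · rw [map_one]
  · intro I J h1 h2
    rw [map_mul, h1, h2, one_mul]
  · intro P _
    rw [ext_prime]

end HT2

section jt2

variable {M : ℕ} [NeZero M] {K : Type} [Field K] [NumberField K] (c : Cy M K) (φ : K →+* ℂ)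

/-- the conductor of the normalised Jacobi sums -/
lemma ht2_jt (a s : ZMod M) : HT2 (M ^ 2) (jt c φ a s) := by
  classical
  by_cases h0 : a = 0 ∨ s = 0
  · have h1 : jt c φ a s = fun _ => 1 := by
      funext P
      unfold jt
      rw [if_pos h0]
    rw [h1]
    exact HT2.one _
  have hne : ¬ (a = 0 ∧ s = 0) := fun h => h0 (Or.inl h.1)
  push Not at h0
  refine ⟨fun ρ => ((Th' a s).filter fun u => φ.comp (c.σ u⁻¹ : K →+* K) = ρ).card, ?_⟩
  · intro α hα hd hp
    have hpos := norm_pos_of_totPos hα hp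
    set I : Ideal (𝓞 K) := Ideal.span {α} with hI
    have hcop : Cop M I := cop_of_congr hα (N := M ^ 2) (dvd_pow_self M (by norm_num))
      (Ideal.mem_span_singleton.2 hd)
    have hnorm : (Ideal.absNorm I : ℤ) = Algebra.norm ℤ α := by
      rw [hI, Ideal.absNorm_span_singleton, Int.natAbs_of_nonneg hpos.le]
    have hw := weil c hα hd hpos hne
    rw [← hI] at hw
    -- the product
    have h1 : ext (jt c φ a s) I = ((sg I : ℤ) : ℂ) * φ (ext (JI c a s) I) /
        (if a + s = 0 then 1 else (Real.sqrt (Ideal.absNorm I) : ℂ)) := by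
      refine ind_cop (M := M) (fun I => ext (jt c φ a s) I = ((sg I : ℤ) : ℂ) *
        φ (ext (JI c a s) I) / (if a + s = 0 then 1 else (Real.sqrt (Ideal.absNorm I) : ℂ)))
        ?_ ?_ ?_ hcop
      · simp only [map_one, sg_one, Nat.cast_one, Real.sqrt_one, Int.cast_one, Complex.ofReal_one,
          ite_self, mul_one, div_one]
      · intro I J _ _ h3 h4
        simp only [map_mul, sg_mul, h3, h4]
        push_cast
        by_cases h5 : a + s = 0
        · simp only [if_pos h5]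
          ring
        · simp only [if_neg h5]
          rw [Real.sqrt_mul (Nat.cast_nonneg _)]
          push_cast
          ring
      · intro P _
        rw [ext_prime, ext_prime, sg_prime]
        unfold jt
        rw [if_neg (by tauto)]
        push_cast
        rw [neg_one_mul]
    rw [h1, hw]
    have hsgn : ((sg I : ℤ) : ℂ) * ((sg I : ℤ) : ℂ) = 1 := by
      rw [← Int.cast_mul, sg_mul_self hcop.1, Int.cast_one]
    have h2 : φ (((sg I : 𝓞 K) * ∏ u ∈ Th' a s, rs c u⁻¹ α : 𝓞 K) : K) =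
        ((sg I : ℤ) : ℂ) * φ ((∏ u ∈ Th' a s, rs c u⁻¹ α : 𝓞 K) : K) := by
      rw [← map_sg φ I, ← map_mul]
      congr 1
    rw [h2, ← mul_assoc, hsgn, one_mul]
    -- the archimedean factor
    have h3 : arch (fun ρ => (((Th' a s).filter fun u => φ.comp (c.σ u⁻¹ : K →+* K) = ρ).card : ℤ))
        0 (α : K) = ∏ u ∈ Th' a s, (φ ((rs c u⁻¹ α : 𝓞 K) : K) /
          (‖φ ((rs c u⁻¹ α : 𝓞 K) : K)‖ : ℂ)) := by
      unfold arch
      have h4 : ∀ ρ : K →+* ℂ, ((ρ (α : K) / (‖ρ (α : K)‖ : ℂ)) ^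
          ((((Th' a s).filter fun u => φ.comp (c.σ u⁻¹ : K →+* K) = ρ).card : ℤ)) *
          Complex.exp ((((0 : (K →+* ℂ) → ℝ) ρ) * Real.log ‖ρ (α : K)‖ : ℝ) * Complex.I)) =
          ∏ u ∈ (Th' a s).filter fun u => φ.comp (c.σ u⁻¹ : K →+* K) = ρ,
            (φ ((rs c u⁻¹ α : 𝓞 K) : K) / (‖φ ((rs c u⁻¹ α : 𝓞 K) : K)‖ : ℂ)) := by
        intro ρ
        rw [Pi.zero_apply, zero_mul, Complex.ofReal_zero, zero_mul, Complex.exp_zero, mul_one,
          zpow_natCast, ← prod_const]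
        refine prod_congr rfl fun u hu => ?_
        rw [mem_filter] at hu
        rw [← hu.2]
        rfl
      rw [prod_congr rfl fun ρ _ => h4 ρ]
      exact prod_fiberwise (Th' a s) (fun u => φ.comp (c.σ u⁻¹ : K →+* K)) _
    rw [h3, prod_div_distrib]
    have h5 : φ ((∏ u ∈ Th' a s, rs c u⁻¹ α : 𝓞 K) : K) =
        ∏ u ∈ Th' a s, φ ((rs c u⁻¹ α : 𝓞 K) : K) :=
      map_prod (φ.comp (algebraMap (𝓞 K) K)) _ _
    rw [h5]
    congr 1
    by_cases h6 : a + s = 0
    · unfold Th'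
      rw [if_pos h6, if_pos (Or.inr (Or.inr h6)), prod_empty]
    · rw [if_neg h6]
      have h7 : Th' a s = Th a s := by
        unfold Th'
        rw [if_neg (by tauto)]
      rw [h7] at h5 ⊢
      have h8 := norm_th c h0.1 h0.2 h6 α φ
      rw [← hnorm, h5] at h8
      have h9 : ‖∏ u ∈ Th a s, φ ((rs c u⁻¹ α : 𝓞 K) : K)‖ ^ 2 = (Ideal.absNorm I : ℝ) := by
        exact_mod_cast h8
      rw [← h9, Real.sqrt_sq (norm_nonneg _), _root_.norm_prod]
      push_cast
      rfl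

/-- products of normalised Gauss sums -/
lemma exists_prod2 {ι : Type*} (b : ι → ZMod M) (S : Finset ι) : ∃ v : Ideal (𝓞 K) → ℂ,
    HT2 (M ^ 2) v ∧
    ∀ (E : Type) [Field E] [Fintype E] (μ : 𝓞 K →+* E), Function.Surjective μ →
    ∀ (P : Ideal (𝓞 K)), RingHom.ker μ = P → ∀ (hw : IsPrimitiveRoot (μ (zz c)) M),
    ((M : ℕ) : E) ≠ 0 → Fintype.card E = Ideal.absNorm P →
    ∀ (ψ : AddChar E ℂ), ψ.IsPrimitive →
      ∏ i ∈ S, GC c φ hw ψ (b i) = v P * GC c φ hw ψ (∑ i ∈ S, b i) := by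
  classical
  induction S using Finset.induction_on with
  | empty =>
    refine ⟨fun _ => 1, HT2.one _, ?_⟩
    intro E _ _ μ hs P hk hw hM hcard ψ hψ
    rw [prod_empty, sum_empty, one_mul]
    unfold GC
    rw [if_pos rfl]
  | insert i S hi ih =>
    obtain ⟨v, hv, h⟩ := ih
    refine ⟨fun P => jt c φ (b i) (∑ i ∈ S, b i) P * v P, (ht2_jt c φ _ _).mul hv, ?_⟩
    intro E _ _ μ hs P hk hw hM hcard ψ hψ
    rw [prod_insert hi, sum_insert hi, h E μ hs P hk hw hM hcard ψ hψ]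
    have h1 := GC_mul c φ μ hs hk hw hM hcard ψ hψ (b i) (∑ i ∈ S, b i)
    calc GC c φ hw ψ (b i) * (v P * GC c φ hw ψ (∑ i ∈ S, b i)) =
        (GC c φ hw ψ (b i) * GC c φ hw ψ (∑ i ∈ S, b i)) * v P := by ring
      _ = _ := by
        rw [h1]
        ring

end jt2

section rcp

variable {M : ℕ} [NeZero M] {K : Type} [Field K] [NumberField K] (c : Cy M K)

/-- power reciprocity for `r`, with a modulus prime to `q` -/
def RcpQ (q : ℕ) (r : ℤ) : Prop := ∃ N : ℕ, 0 < N ∧ ¬ q ∣ N ∧ ∀ α : 𝓞 K, α ≠ 0 →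
    ((N : ℕ) : 𝓞 K) ∣ α - 1 → 0 < Algebra.norm ℤ α → ext (KI c r) (Ideal.span {α}) = 1

variable {q : ℕ} (hq : q.Prime) (hqM : ¬ q ∣ M)

include hq hqM

lemma RcpQ.mul {r s : ℤ} (hr : RcpQ c q r) (hs : RcpQ c q s) : RcpQ c q (r * s) := by
  obtain ⟨N, hN, hqN, h⟩ := hr
  obtain ⟨N', hN', hqN', h'⟩ := hs
  refine ⟨N * N' * M, Nat.mul_pos (Nat.mul_pos hN hN') (NeZero.pos M), ?_, fun α hα hd hp => ?_⟩
  · intro h1
    rcases (Nat.Prime.dvd_mul hq).1 h1 with h2 | h2
    · rcases (Nat.Prime.dvd_mul hq).1 h2 with h3 | h3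
      · exact hqN h3
      · exact hqN' h3
    · exact hqM h2
  have hd1 : ((N : ℕ) : 𝓞 K) ∣ α - 1 :=
    (Nat.cast_dvd_cast ((dvd_mul_right N N').mul_right M)).trans hd
  have hd2 : ((N' : ℕ) : 𝓞 K) ∣ α - 1 :=
    (Nat.cast_dvd_cast ((dvd_mul_left N' N).mul_right M)).trans hd
  have hcop : Cop M (Ideal.span {α}) := cop_of_congr hα (N := N * N' * M) (dvd_mul_left _ _)
    (Ideal.mem_span_singleton.2 hd)
  rw [ext_KI_mul c r s hcop, h α hα hd1 hp, h' α hα hd2 hp, one_mul]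

lemma not_dvd_sq : ¬ q ∣ M ^ 2 := fun h => hqM (hq.dvd_of_dvd_pow h)

lemma rcpQ_neg_one : RcpQ c q (-1) := by
  obtain ⟨N, hN, h⟩ := rcp_neg_one c
  refine ⟨M ^ 2, pow_pos (NeZero.pos M) 2, not_dvd_sq hq hqM, fun α hα hd hp => ?_⟩
  have hcop : Cop M (Ideal.span {α}) := cop_of_congr hα (N := M ^ 2)
    (dvd_pow_self M (by norm_num)) (Ideal.mem_span_singleton.2 hd)
  by_cases hM1 : M = 1
  · subst hM1
    obtain ⟨i, hi⟩ := ext_KI_root c (-1) hcop.1 (fun P hP => by
      have h1 : P.asIdeal ≠ ⊤ := P.isPrime.ne_top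
      constructor
      · rw [Nat.cast_one, ← Ideal.eq_top_iff_one]
        exact h1
      · intro h2
        apply h1
        rw [Ideal.eq_top_iff_one]
        have h3 := neg_mem h2
        push_cast at h3
        rwa [neg_neg] at h3)
    rw [hi, Subsingleton.elim i 0, AddChar.map_zero_eq_one]
  · have h10 : (1 : ZMod M) ≠ 0 := by
      have : Fact (1 < M) := ⟨by have := NeZero.pos M; omega⟩
      exact one_ne_zero
    have h1 := weil c hα hd hp (a := 1) (b := -1) (fun h => h10 h.1)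
    unfold Th' at h1
    rw [if_pos (Or.inr (Or.inr (add_neg_cancel 1))), prod_empty, mul_one] at h1
    have h2 : ext (JI c 1 (-1)) (Ideal.span {α}) =
        (sg (Ideal.span {α}) : 𝓞 K) * ext (KI c (-1)) (Ideal.span {α}) := by
      refine ind_cop (M := M) (fun I => ext (JI c 1 (-1)) I = (sg I : 𝓞 K) * ext (KI c (-1)) I)
        ?_ ?_ ?_ hcop
      · rw [map_one, map_one, sg_one, Int.cast_one, one_mul]
      · intro I J _ _ h3 h4
        rw [map_mul, map_mul, sg_mul, h3, h4]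
        push_cast
        ring
      · intro P hP
        obtain ⟨E, _, _, q, _, _, μ, g, hs, hμ, hk, hM, hg, hcard⟩ := exists_model P hP
        have hw := w_prim c q g hg μ
        rw [ext_prime, ext_prime, sg_prime, JI_eq c μ hs hk hw hM, KI_eq c μ hs hk hw hM,
          JS_neg hw _ (e0_inj c) h10]
        push_cast
        ring
    rw [h1] at h2
    have hsgn : (sg (Ideal.span {α}) : 𝓞 K) * (sg (Ideal.span {α}) : 𝓞 K) = 1 := by
      rw [← Int.cast_mul, sg_mul_self hcop.1, Int.cast_one]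
    calc ext (KI c (-1)) (Ideal.span {α}) =
        ((sg (Ideal.span {α}) : 𝓞 K) * (sg (Ideal.span {α}) : 𝓞 K)) *
          ext (KI c (-1)) (Ideal.span {α}) := by rw [hsgn, one_mul]
      _ = 1 := by rw [mul_assoc, ← h2, hsgn]

lemma rcpQ_one : RcpQ c q 1 := by
  have h := (rcpQ_neg_one c hq hqM).mul c hq hqM (rcpQ_neg_one c hq hqM)
  norm_num at h
  exact h

lemma rcpQ_prime (r : ℕ) (hr : r.Prime) (hrq : ¬ q ∣ r) : RcpQ c q r := by
  obtain ⟨n, hn⟩ := rec_prime_pow c r hr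
  refine ⟨M ^ 2 * r ^ n, Nat.mul_pos (pow_pos (NeZero.pos M) 2) (pow_pos hr.pos _), ?_, hn⟩
  intro h1
  rcases (Nat.Prime.dvd_mul hq).1 h1 with h2 | h2
  · exact not_dvd_sq hq hqM h2
  · exact hrq (hq.dvd_of_dvd_pow h2)

theorem rcpQ_int {r : ℤ} (hr : ¬ (q : ℤ) ∣ r) : RcpQ c q r := by
  have h1 : ∀ n : ℕ, ¬ q ∣ n → RcpQ c q (n : ℤ) := by
    intro n
    induction n using Nat.recOnMul with
    | zero => intro h; exact absurd (dvd_zero q) h
    | one => intro _; rw [Nat.cast_one]; exact rcpQ_one c hq hqM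
    | prime p hp => intro h; exact rcpQ_prime c hq hqM p hp h
    | mul a b ha hb =>
      intro h
      rw [Nat.cast_mul]
      exact (ha fun h1 => h (h1.mul_right b)).mul c hq hqM (hb fun h1 => h (h1.mul_left a))
  have h2 : ¬ q ∣ r.natAbs := fun h => hr (Int.natCast_dvd.2 h)
  rcases Int.natAbs_eq r with h | h
  · rw [h]
    exact h1 _ h2
  · rw [h, ← neg_one_mul]
    exact (rcpQ_neg_one c hq hqM).mul c hq hqM (h1 _ h2)

end rcp

section main

variable {M : ℕ} [NeZero M] {K : Type} [Field K] [NumberField K] (c : Cy M K) (φ : K →+* ℂ)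

/-- the Hecke character of a line as a product of a Jacobi sum character and power residue symbols -/
lemma chi_prime {ι : Type} [Fintype ι] {r : ι → ℤ} {b : ι → ZMod M} (hsum : ∑ i, b i = 0)
    (D : HD c φ r b) : ∃ v : Ideal (𝓞 K) → ℂ, HT2 (M ^ 2) v ∧ ∀ I : Ideal (𝓞 K), I ≠ 0 →
      (∀ P : HeightOneSpectrum (𝓞 K), P.asIdeal ∣ I → (D.N1 : 𝓞 K) ∉ P.asIdeal) →
      D.χ I = ext v I * ∏ i, (φ (ext (KI c (r i)) I)) ^ (-(b i)).val := by
  classical
  obtain ⟨v, hv, h⟩ := exists_prod2 c φ b univ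
  refine ⟨v, hv, fun I hI hS => ?_⟩
  refine ind_S (fun P => (D.N1 : 𝓞 K) ∉ P.asIdeal)
    (fun I => D.χ I = ext v I * ∏ i, (φ (ext (KI c (r i)) I)) ^ (-(b i)).val) ?_ ?_ ?_ hI hS
  · simp only [map_one, one_pow, prod_const_one, mul_one]
  · intro I J h1 h2
    simp only [map_mul, mul_pow, prod_mul_distrib]
    rw [h1, h2]
    ring
  · intro P hNP
    have hMP : ((M : ℕ) : 𝓞 K) ∉ P.asIdeal := fun h1 =>
      hNP (P.asIdeal.mem_of_dvd (Nat.cast_dvd_cast ((dvd_mul_right _ _).trans D.dvd)) h1)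
    obtain ⟨E, _, _, q, _, _, μ, g, hs, hμ, hkP, hM, hg, hcard⟩ := exists_model P hMP
    have hw := w_prim c q g hg μ
    obtain ⟨ψ, hψ⟩ := psi_prim (F := E)
    rw [D.val E μ hs P hkP hNP hw hM hcard ψ hψ]
    unfold lam
    rw [prod_mul_distrib]
    have h3 := h E μ hs P.asIdeal hkP hw hM hcard ψ hψ
    rw [hsum] at h3
    have h2 : GC c φ hw ψ 0 = 1 := if_pos rfl
    rw [h2, mul_one] at h3
    have h4 : ∏ i, GE hw (eC c φ) ψ (b i) = v P.asIdeal := h3
    rw [h4, ext_prime]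
    congr 1
    refine prod_congr rfl fun i _ => ?_
    have hri : ((r i : ℤ) : E) ≠ 0 := by
      intro h0
      apply hNP
      have h3 : ((r i : ℤ) : 𝓞 K) ∈ P.asIdeal := by
        rw [← hkP, RingHom.mem_ker, map_intCast]
        exact h0
      have h4 : (((r i).natAbs : ℕ) : 𝓞 K) ∈ P.asIdeal := natAbs_mem _ h3
      refine P.asIdeal.mem_of_dvd ?_ h4
      apply Nat.cast_dvd_cast
      exact ((dvd_prod_of_mem (fun i => (r i).natAbs) (mem_univ i)).mul_left M).trans D.dvd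
    rw [ext_prime, KI_eq c μ hs hkP hw hM, ch_apply hw _ hri, ch_apply hw _ hri, one_mul, eC_apply]
    have h5 : ∀ (x : 𝓞 K) (n : ℕ), (φ (x : K)) ^ n = φ ((x ^ n : 𝓞 K) : K) := by
      intro x n
      exact (map_pow (φ.comp (algebraMap (𝓞 K) K)) x n).symm
    rw [h5, ← AddChar.map_nsmul_eq_pow, nsmul_eq_mul, ZMod.natCast_zmod_val]

/-- **a principal line is unramified** -/
theorem unram_princ {ι : Type} [Fintype ι] {r : ι → ℤ} (hr : ∀ i, r i ≠ 0) {b : ι → ZMod M}
    (hsum : ∑ i, b i = 0) (D : HD c φ r b) (hP : Princ D.χ) {q : ℕ} (hq : q.Prime)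
    (hqM : ¬ q ∣ M) : ∑ i, ((padicValInt q (r i) : ℕ) : ZMod M) * b i = 0 := by
  classical
  obtain ⟨v, ⟨kv, hkv⟩, hv⟩ := chi_prime c φ hsum D
  -- the values on principal ideals
  have hval : ∀ α : 𝓞 K, α ≠ 0 → ((M ^ 2 : ℕ) : 𝓞 K) ∣ α - 1 → TotPos α →
      (∀ P : HeightOneSpectrum (𝓞 K), α ∈ P.asIdeal → (D.N1 : 𝓞 K) ∉ P.asIdeal) →
      arch kv 0 (α : K) * ∏ i, (φ (ext (KI c (r i)) (Ideal.span {α}))) ^ (-(b i)).val = 1 := by
    intro α hα hd hp hS
    have hI : Ideal.span {α} ≠ 0 := by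
      rwa [Ne, Ideal.zero_eq_bot, Ideal.span_singleton_eq_bot]
    have hS' : ∀ P : HeightOneSpectrum (𝓞 K), P.asIdeal ∣ Ideal.span {α} →
        (D.N1 : 𝓞 K) ∉ P.asIdeal := by
      intro P hP
      apply hS
      rw [Ideal.dvd_iff_le] at hP
      exact hP (Ideal.mem_span_singleton_self α)
    rw [← hkv α hα hd hp, ← hv _ hI hS']
    apply hP
    have hne := D.hecke.supp (Ideal.span {α}) (by rwa [← Ideal.zero_eq_bot])
    rw [hne, Ideal.isCoprime_iff_sup_eq]
    by_contra hcon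
    obtain ⟨m, hm, hle⟩ := Ideal.exists_le_maximal _ hcon
    have hIm : Ideal.span {α} ≤ m := le_sup_left.trans hle
    have hbot : m ≠ ⊥ := by
      rintro rfl
      exact hI (le_bot_iff.1 hIm)
    exact hS' ⟨m, hm.isPrime, hbot⟩ (Ideal.dvd_iff_le.2 hIm)
      (hle (Ideal.mem_sup_right (Ideal.mem_span_singleton_self _)))
  -- the infinity type is trivial
  choose Nr hNr0 hNr using fun i => rcp_int c (hr i)
  set n0 : ℕ := M ^ 2 * D.N1 * ∏ i, Nr i with hn0
  have hn0pos : 0 < n0 := Nat.mul_pos (Nat.mul_pos (pow_pos (NeZero.pos M) 2) D.pos)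
    (prod_pos fun i _ => hNr0 i)
  have harch : ∀ x : 𝓞 K, x ≠ 0 → TotPos x → arch kv 0 (x : K) = 1 := by
    intro x hx hp
    refine arch_dense kv hn0pos ?_ hx hp
    intro α hα hd hp'
    have hpos := norm_pos_of_totPos hα hp'
    have h1 := hval α hα ((Nat.cast_dvd_cast ((dvd_mul_right _ _).trans (dvd_mul_right _ _))).trans hd)
      hp' ?_
    · have h2 : ∏ i, (φ (ext (KI c (r i)) (Ideal.span {α}))) ^ (-(b i)).val = 1 := by
        refine prod_eq_one fun i _ => ?_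
        rw [hNr i α hα ?_ hpos]
        · simp only [map_one, one_pow]
        · refine (Nat.cast_dvd_cast ?_).trans hd
          exact (dvd_prod_of_mem Nr (mem_univ i)).mul_left _
      rwa [h2, mul_one] at h1
    · intro P hαP hNP
      apply P.isPrime.ne_top
      rw [Ideal.eq_top_iff_one]
      have h3 : α - 1 ∈ P.asIdeal := P.asIdeal.mem_of_dvd
        ((Nat.cast_dvd_cast (((dvd_mul_left _ _)).mul_right _)).trans hd) hNP
      have h4 := P.asIdeal.sub_mem hαP h3
      rwa [sub_sub_cancel] at h4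
  -- the decomposition of the coefficients
  have hdec : ∀ i, ∃ s : ℤ, r i = (q : ℤ) ^ (padicValInt q (r i)) * s ∧ ¬ (q : ℤ) ∣ s := by
    intro i
    have hfin : FiniteMultiplicity (q : ℤ) (r i) := by
      rw [Int.finiteMultiplicity_iff]
      exact ⟨by rw [Int.natAbs_natCast]; exact hq.ne_one, hr i⟩
    obtain ⟨s, hs1, hs2⟩ := hfin.exists_eq_pow_mul_and_not_dvd
    have hpv : padicValInt q (r i) = multiplicity (q : ℤ) (r i) := by
      rw [padicValInt.of_ne_one_ne_zero hq.ne_one (hr i)]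
    refine ⟨s, ?_, hs2⟩
    rw [hpv]
    exact hs1
  choose s hs1 hs2 using hdec
  choose Cs hCs0 hCsq hCs using fun i => rcpQ_int c hq hqM (hs2 i)
  obtain ⟨a, N', hN', hNN⟩ := Nat.exists_eq_pow_mul_and_not_dvd D.pos.ne' q hq.ne_one
  set C : ℕ := M ^ 2 * (N' * ∏ i, Cs i) with hC
  have hN'pos : 0 < N' := Nat.pos_of_ne_zero (fun h => hN' (h ▸ dvd_zero q))
  have hCpos : 0 < C := Nat.mul_pos (pow_pos (NeZero.pos M) 2)
    (Nat.mul_pos hN'pos (prod_pos fun i _ => hCs0 i))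
  have hqC : ¬ q ∣ C := by
    intro h1
    rcases (Nat.Prime.dvd_mul hq).1 h1 with h2 | h2
    · exact not_dvd_sq hq hqM h2
    · rcases (Nat.Prime.dvd_mul hq).1 h2 with h3 | h3
      · exact hN' h3
      · obtain ⟨i, -, h4⟩ := (Prime.dvd_finsetProd_iff hq.prime _).1 h3
        exact hCsq i h4
  obtain ⟨α, hα, hαC, hαp, hαq, i0, hi0, hi0'⟩ := exists_alpha c q hq hqM C hCpos hqC
    (dvd_mul_right _ _)
  have hM2 : ((M ^ 2 : ℕ) : 𝓞 K) ∣ α - 1 := (Nat.cast_dvd_cast (dvd_mul_right _ _)).trans hαC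
  have hpos := norm_pos_of_totPos hα hαp
  have hcop : Cop M (Ideal.span {α}) := cop_of_congr hα (N := M ^ 2)
    (dvd_pow_self M (by norm_num)) (Ideal.mem_span_singleton.2 hM2)
  have h1 := hval α hα hM2 hαp (by
    intro P hαP hNP
    rw [hNN, Nat.cast_mul, Nat.cast_pow] at hNP
    rcases P.isPrime.mem_or_mem hNP with h1 | h1
    · exact hαq P (P.isPrime.mem_of_pow_mem _ h1) hαP
    · apply P.isPrime.ne_top
      rw [Ideal.eq_top_iff_one]
      have h3 : α - 1 ∈ P.asIdeal := P.asIdeal.mem_of_dvd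
        ((Nat.cast_dvd_cast ((dvd_mul_right _ _).mul_left _)).trans hαC) h1
      have h4 := P.asIdeal.sub_mem hαP h3
      rwa [sub_sub_cancel] at h4)
  rw [harch α hα hαp, one_mul] at h1
  have hone : ext (KI c 1) (Ideal.span {α}) = 1 := by
    obtain ⟨N, -, -, hN⟩ := rcpQ_one c hq hqM
    have h2 := ext_KI_mul c 1 1 hcop
    rw [mul_one] at h2
    obtain ⟨j, hj⟩ := ext_KI_root c 1 hcop.1 (fun P hP => by
      have h5 := (cop_prime (M := M) P).1 (by
        obtain ⟨J, hJ⟩ := hP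
        rw [hJ] at hcop
        exact hcop.left)
      refine ⟨h5, ?_⟩
      rw [Int.cast_one, ← Ideal.eq_top_iff_one]
      exact P.isPrime.ne_top)
    rw [hj] at h2 ⊢
    have h3 : e0 c j ≠ 0 := by
      rw [e0_apply]
      exact pow_ne_zero _ ((zz_prim c).ne_zero (NeZero.ne M))
    exact (mul_eq_left₀ h3).1 h2.symm
  have hpowq : ∀ n : ℕ, ext (KI c ((q : ℤ) ^ n)) (Ideal.span {α}) = e0 c (n * i0) := by
    intro n
    induction n with
    | zero => rw [pow_zero, hone, Nat.cast_zero, zero_mul, AddChar.map_zero_eq_one]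
    | succ n ih =>
      rw [pow_succ, ext_KI_mul c _ _ hcop, ih, hi0, ← AddChar.map_add_eq_mul]
      congr 1
      push_cast
      ring
  have hri : ∀ i, ext (KI c (r i)) (Ideal.span {α}) =
      e0 c (((padicValInt q (r i) : ℕ) : ZMod M) * i0) := by
    intro i
    have h2 : ext (KI c (r i)) (Ideal.span {α}) =
        ext (KI c ((q : ℤ) ^ (padicValInt q (r i)) * s i)) (Ideal.span {α}) := by
      rw [← hs1 i]
    rw [h2, ext_KI_mul c _ _ hcop, hpowq, hCs i α hα ?_ hpos, mul_one]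
    refine (Nat.cast_dvd_cast ?_).trans hαC
    exact ((dvd_prod_of_mem Cs (mem_univ i)).mul_left _).mul_left _
  have h5 : ∀ (x : 𝓞 K) (n : ℕ), (φ (x : K)) ^ n = φ ((x ^ n : 𝓞 K) : K) := by
    intro x n
    exact (map_pow (φ.comp (algebraMap (𝓞 K) K)) x n).symm
  have h2 : φ ((e0 c (-(∑ i, ((padicValInt q (r i) : ℕ) : ZMod M) * b i) * i0) : 𝓞 K) : K) = 1 := by
    rw [← h1]
    have h6 : ∀ i, (φ ((ext (KI c (r i)) (Ideal.span {α}) : 𝓞 K) : K)) ^ (-(b i)).val =
        φ ((e0 c (-(((padicValInt q (r i) : ℕ) : ZMod M) * b i) * i0) : 𝓞 K) : K) := by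
      intro i
      rw [hri i, h5, ← AddChar.map_nsmul_eq_pow, nsmul_eq_mul, ZMod.natCast_zmod_val]
      congr 3
      ring
    rw [prod_congr rfl fun i _ => h6 i]
    have h7 : ∀ f : ι → ZMod M, φ ((e0 c (∑ i, f i) : 𝓞 K) : K) = ∏ i, φ ((e0 c (f i) : 𝓞 K) : K) := by
      intro f
      have h8 : e0 c (∑ i, f i) = ∏ i, e0 c (f i) := by
        induction (univ : Finset ι) using Finset.induction_on with
        | empty => rw [sum_empty, prod_empty, AddChar.map_zero_eq_one]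
        | insert i S hi ih => rw [sum_insert hi, prod_insert hi, AddChar.map_add_eq_mul, ih]
      rw [h8]
      exact map_prod (φ.comp (algebraMap (𝓞 K) K)) _ _
    rw [← h7, ← sum_neg_distrib, sum_mul]
  have h3 : eC c φ (-(∑ i, ((padicValInt q (r i) : ℕ) : ZMod M) * b i) * i0) = 1 := h2
  have h4 := eC_inj c φ _ h3
  have h6 := hi0' _ h4
  exact neg_eq_zero.1 h6

end main

/-- **a rational line is unramified outside its level** -/
theorem unram {M : ℕ} [NeZero M] {ι : Type} [Fintype ι] (hN : Even (Fintype.card ι)) {r : ι → ℤ}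
    (hr : ∀ i, r i ≠ 0) {b : ι → ZMod M} (hb : ∀ i, b i ≠ 0) (hsum : ∑ i, b i = 0)
    (hR : RationalClass M (prs r b)) {q : ℕ} (hq : q.Prime) (hqM : ¬ q ∣ M) :
    ∑ i, ((padicValInt q (r i) : ℕ) : ZMod M) * b i = 0 := by
  obtain ⟨K, _, _, ⟨c⟩⟩ := exists_cy M
  obtain ⟨φ⟩ : Nonempty (K →+* ℂ) := inferInstance
  obtain ⟨D⟩ := exists_HD c φ r hr b hsum
  exact unram_princ c φ hr hsum D ((rational_iff c φ hN hb D).1 hR) hq hqM

end Pool.Agent.L0h11
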