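import Mathlib
import Pool.Agent.L0h11.Cn
import Pool.Agent.L0h11.Unr3
import Pool.Agent.L0h11.Dg

/-!
# Coefficients without rational lines
-/

set_option autoImplicit false
set_option linter.unusedSectionVars false

namespace Pool.Agent.L0h11

open Finset
open Pool.Agent.H916K (RationalClass)

/-- a prime which divides exactly one coefficient, and that one exactly once, excludes rational
lines -/
theorem no_line_of_prime {m N : ℕ} (hm : 0 < m) (hN : Even N) (c : Fin N → ℤ) (hc : ∀ i, c i ≠ 0)
    {p : ℕ} (hp : p.Prime) (hpm : ¬ p ∣ m) (h1 : (∏ i, (c i).natAbs).factorization p = 1)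
    {M : ℕ} (hM : M ∣ m) (b : Fin N → ZMod M) (hb : IsLine M b) : ¬ RationalClass M (pairs c b) := by
  intro hR
  have : NeZero M := ⟨fun h => by rw [h, Nat.zero_dvd] at hM; omega⟩
  have h2 := unram (M := M) (ι := Fin N) (by rwa [Fintype.card_fin]) hc hb.1 hb.2.1 hR hp
    (fun h => hpm (h.trans hM))
  have h3 : ∀ i, (c i).natAbs ≠ 0 := fun i => Int.natAbs_ne_zero.2 (hc i)
  rw [Nat.factorization_prod (fun i _ => h3 i), Finsupp.finsetSum_apply] at h1
  have h4 : ∀ i, (c i).natAbs.factorization p = padicValInt p (c i) := fun i =>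
    Nat.factorization_def _ hp
  rw [sum_congr rfl fun i _ => h4 i] at h1
  obtain ⟨i0, -, hi0⟩ : ∃ i ∈ (univ : Finset (Fin N)), padicValInt p (c i) ≠ 0 := by
    by_contra hcon
    push Not at hcon
    rw [sum_eq_zero hcon] at h1
    exact zero_ne_one h1
  have h5 := add_sum_erase univ (fun i => padicValInt p (c i)) (mem_univ i0)
  rw [h1] at h5
  have h6 : padicValInt p (c i0) = 1 := by
    have : padicValInt p (c i0) ≤ 1 := by
      rw [← h5]
      exact Nat.le_add_right _ _
    omega
  have h7 : ∑ i ∈ univ.erase i0, padicValInt p (c i) = 0 := by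
    omega
  have h8 := Finset.sum_eq_zero_iff.1 h7
  rw [← add_sum_erase univ _ (mem_univ i0), h6, Nat.cast_one, one_mul, sum_eq_zero, add_zero] at h2
  · exact hb.1 i0 h2
  · intro i hi
    rw [h8 i hi, Nat.cast_zero, zero_mul]

/-- no rational lines -/
theorem rho_eq_one {m N : ℕ} (c : Fin N → ℤ) (h : ∀ M : ℕ, M ∣ m → ∀ b : Fin N → ZMod M,
    IsLine M b → ¬ RationalClass M (pairs c b)) : rho m c = 1 := by
  unfold rho
  rw [Nat.add_eq_left]
  refine sum_eq_zero fun M hM => ?_
  have h1 : IsEmpty {b : Fin N → ZMod M // IsLine M b ∧ RationalClass M (pairs c b)} :=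
    ⟨fun b => h M (Nat.dvd_of_mem_divisors hM) b.1 b.2.1 b.2.2⟩
  rw [Nat.card_of_isEmpty, Nat.zero_div]

end Pool.Agent.L0h11
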