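import Mathlib
import Pool.Agent.L0h11.Dg
import Pool.Agent.L0h11.Rat

/-!
# Points in projective space and on the cone
-/

set_option autoImplicit false
set_option linter.unusedSectionVars false

namespace Pool.Agent.L0h11

open Finset
open scoped LinearAlgebra.Projectivization

/-- nonzero vectors of a conic set, and points of projective space -/
noncomputable def coneEquiv {F : Type} [Field F] {N : ℕ} (Z : (Fin N → F) → Prop)
    (hZ : ∀ (u : Fˣ) (x : Fin N → F), Z (u • x) ↔ Z x) :
    {x : Fin N → F // x ≠ 0 ∧ Z x} ≃ {P : ℙ F (Fin N → F) // Z P.rep} × Fˣ where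
  toFun x := (⟨Projectivization.mk F x.1 x.2.1, by
      obtain ⟨a, ha⟩ := Projectivization.exists_smul_eq_mk_rep F x.1 x.2.1
      rw [← ha, hZ]
      exact x.2.2⟩, (Projectivization.exists_smul_eq_mk_rep F x.1 x.2.1).choose⁻¹)
  invFun y := ⟨y.2 • y.1.1.rep, by
    rw [Ne, Units.smul_def, smul_eq_zero]
    push Not
    exact ⟨y.2.ne_zero, y.1.1.rep_nonzero⟩, (hZ _ _).2 y.1.2⟩
  left_inv x := by
    apply Subtype.ext
    show (Projectivization.exists_smul_eq_mk_rep F x.1 x.2.1).choose⁻¹ •
      (Projectivization.mk F x.1 x.2.1).rep = x.1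
    rw [inv_smul_eq_iff]
    exact (Projectivization.exists_smul_eq_mk_rep F x.1 x.2.1).choose_spec.symm
  right_inv y := by
    obtain ⟨⟨P, hP⟩, u⟩ := y
    have hne : u • P.rep ≠ 0 := by
      rw [Ne, Units.smul_def, smul_eq_zero]
      push Not
      exact ⟨u.ne_zero, P.rep_nonzero⟩
    have h1 : Projectivization.mk F (u • P.rep) hne = P := by
      conv_rhs => rw [← P.mk_rep]
      rw [Projectivization.mk_eq_mk_iff]
      exact ⟨u, rfl⟩
    have h2 := (Projectivization.exists_smul_eq_mk_rep F (u • P.rep) hne).choose_spec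
    have h3 : (Projectivization.exists_smul_eq_mk_rep F (u • P.rep) hne).choose⁻¹ = u := by
      set a := (Projectivization.exists_smul_eq_mk_rep F (u • P.rep) hne).choose
      have h4 : (Projectivization.mk F (u • P.rep) hne).rep = P.rep := by rw [h1]
      rw [h4, smul_smul] at h2
      have h5 : ((a * u : Fˣ) : F) = 1 := by
        have h6 : ((a * u : Fˣ) : F) • P.rep = (1 : F) • P.rep := by
          rw [one_smul]
          exact h2
        rw [← sub_eq_zero, ← sub_smul, smul_eq_zero, sub_eq_zero] at h6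
        exact h6.resolve_right P.rep_nonzero
      have h7 : a * u = 1 := Units.ext h5
      exact (eq_inv_of_mul_eq_one_right h7).symm
    refine Prod.ext (Subtype.ext h1) h3

theorem points_eq {m : ℕ} (hm : 0 < m) {N : ℕ} (c : Fin N → ℤ) {F : Type} [Field F] [Fintype F] :
    (cone m c F : ℝ) - 1 = (points m c F : ℝ) * ((Fintype.card F : ℝ) - 1) := by
  classical
  set Z : (Fin N → F) → Prop := fun x => ∑ i, (c i : F) * x i ^ m = 0 with hZ
  have hZu : ∀ (u : Fˣ) (x : Fin N → F), Z (u • x) ↔ Z x := by
    intro u x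
    rw [hZ]
    simp only [Pi.smul_apply, Units.smul_def, smul_eq_mul, mul_pow]
    have h1 : ∑ i, (c i : F) * ((u : F) ^ m * x i ^ m) = (u : F) ^ m * ∑ i, (c i : F) * x i ^ m := by
      rw [mul_sum]
      exact sum_congr rfl fun i _ => by ring
    rw [h1, mul_eq_zero]
    simp
  have hZ0 : Z 0 := by
    rw [hZ]
    simp only [Pi.zero_apply, zero_pow hm.ne', mul_zero, sum_const_zero]
  have h1 := Nat.card_congr (coneEquiv Z hZu)
  rw [Nat.card_prod, Nat.card_units] at h1
  have h2 : Nat.card {P : ℙ F (Fin N → F) // Z P.rep} = points m c F := rfl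
  rw [h2] at h1
  have h3 : cone m c F = Nat.card {x : Fin N → F // x ≠ 0 ∧ Z x} + 1 := by
    unfold cone
    rw [Nat.card_eq_fintype_card, Fintype.card_subtype, Fintype.card_subtype]
    have h4 : (univ.filter fun x : Fin N → F => ∑ i, (c i : F) * x i ^ m = 0) =
        insert 0 (univ.filter fun x : Fin N → F => x ≠ 0 ∧ Z x) := by
      ext x
      rw [mem_filter, mem_insert, mem_filter]
      constructor
      · rintro ⟨-, h⟩
        by_cases hx : x = 0
        · exact Or.inl hx
        · exact Or.inr ⟨mem_univ _, hx, h⟩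
      · rintro (rfl | ⟨-, -, h⟩)
        · exact ⟨mem_univ _, hZ0⟩
        · exact ⟨mem_univ _, h⟩
    rw [h4, card_insert_of_notMem]
    rw [mem_filter]
    rintro ⟨-, h, -⟩
    exact h rfl
  have h5 : 1 ≤ Fintype.card F := Fintype.card_pos
  rw [h3, h1, Nat.card_eq_fintype_card]
  push_cast
  rw [Nat.cast_sub h5]
  push_cast
  ring

theorem trace_eq {m : ℕ} (hm : 0 < m) {N : ℕ} (c : Fin N → ℤ) {F : Type} [Field F] [Fintype F] :
    trace m c F = tra m c F := by
  unfold trace tra
  rw [points_eq hm, Nat.card_eq_fintype_card]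
  have h1 : ((Fintype.card F : ℝ) - 1) ≠ 0 := by
    have := Fintype.one_lt_card (α := F)
    have h2 : (1 : ℝ) < Fintype.card F := by exact_mod_cast this
    linarith
  rw [mul_div_assoc, div_self h1, mul_one]

end Pool.Agent.L0h11
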