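import Mathlib
import Pool.Agent.L0h11.Pt

/-!
# The order of the pole
-/

set_option autoImplicit false
set_option linter.unusedSectionVars false

namespace Pool.Agent.L0h11

open Finset NumberField IsDedekindDomain Filter Topology
open Pool.Agent.N172.HS (IsHecke)
open Pool.Agent.H916K (RationalClass)

lemma pairs_eq {M N : ℕ} (c : Fin N → ℤ) (b : Fin N → ZMod M) : pairs c b = prs c b := rfl

lemma isLine_iff {M N : ℕ} [NeZero M] (b : Fin N → ZMod M) : IsLine M b ↔ b ∈ PP M N := by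
  rw [mem_PP]
  rfl

/-- Galois conjugation preserves rational classes -/
lemma rational_tb {M : ℕ} {ι : Type} [Fintype ι] [NeZero M] (hN : Even (Fintype.card ι))
    {r : ι → ℤ} (hr : ∀ i, r i ≠ 0) {b : ι → ZMod M} (hb : ∀ i, b i ≠ 0) (hb0 : ∑ i, b i = 0) (t : (ZMod M)ˣ)
    (h : RationalClass M (prs r b)) : RationalClass M (prs r (tb t b)) := by
  obtain ⟨K, _, _, ⟨c⟩⟩ := exists_cy M
  obtain ⟨φ⟩ : Nonempty (K →+* ℂ) := inferInstance
  obtain ⟨D⟩ := exists_HD c φ r hr b hb0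
  have hb' : ∀ i, tb t b i ≠ 0 := fun i hi => hb i ((Units.mul_right_eq_zero t).1 hi)
  have hb0' : ∑ i, tb t b i = 0 := by
    unfold tb
    rw [← mul_sum, hb0, mul_zero]
  obtain ⟨D'⟩ := exists_HD c φ r hr (tb t b) hb0'
  rw [rational_iff c φ hN hb D] at h
  rw [rational_iff c φ hN hb' D']
  refine princ_of_vals c φ D' D.N1 ?_
  intro q hqB hq _ F _ _ _ hF w hw ψ hψ
  have hqN : ¬ q ∣ D.N1 := fun h1 => by
    have := Nat.le_of_dvd D.pos h1
    omega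
  rw [← lam_mulE]
  refine lam_of_princ c φ D h hq hqN F hF hw ?_ hψ
  intro i hi
  rw [mulE_apply] at hi
  exact (Units.mul_right_eq_zero t).1 (eC_inj c φ _ hi)

lemma rational_tb_iff {M : ℕ} {ι : Type} [Fintype ι] [NeZero M] (hN : Even (Fintype.card ι))
    {r : ι → ℤ} (hr : ∀ i, r i ≠ 0) {b : ι → ZMod M} (hb : ∀ i, b i ≠ 0) (hb0 : ∑ i, b i = 0) (t : (ZMod M)ˣ) :
    RationalClass M (prs r (tb t b)) ↔ RationalClass M (prs r b) := by
  refine ⟨fun h => ?_, rational_tb hN hr hb hb0 t⟩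
  have h1 := rational_tb hN hr (b := tb t b) (fun i hi => hb i ((Units.mul_right_eq_zero t).1 hi))
    (by unfold tb; rw [← mul_sum, hb0, mul_zero]) t⁻¹ h
  rwa [tb_tb, inv_mul_cancel, tb_one] at h1

/-- **Change of level**: a line of level `M ∣ m` with trivial Galois action has trivial Galois action
as a line of level `m` -/
theorem rational_up {M m : ℕ} {ι : Type} [Fintype ι] [NeZero M] [NeZero m] (hMm : M ∣ m)
    (hN : Even (Fintype.card ι)) {r : ι → ℤ} (hr : ∀ i, r i ≠ 0) {b : ι → ZMod M} (hb : ∀ i, b i ≠ 0) (hb0 : ∑ i, b i = 0)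
    (h : RationalClass M (prs r b)) : RationalClass m (prs r fun i => up hMm (b i)) := by
  obtain ⟨K, _, _, ⟨c⟩⟩ := exists_cy M
  obtain ⟨φ⟩ : Nonempty (K →+* ℂ) := inferInstance
  obtain ⟨D⟩ := exists_HD c φ r hr b hb0
  obtain ⟨K', _, _, ⟨c'⟩⟩ := exists_cy m
  obtain ⟨φ'⟩ : Nonempty (K' →+* ℂ) := inferInstance
  have hb' : ∀ i, up hMm (b i) ≠ 0 := fun i hi => hb i ((up_eq_zero hMm).1 hi)
  have hb0' : ∑ i, up hMm (b i) = 0 := by
    rw [← map_sum, hb0, map_zero]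
  obtain ⟨D'⟩ := exists_HD c' φ' r hr (fun i => up hMm (b i)) hb0'
  rw [rational_iff c φ hN hb D] at h
  rw [rational_iff c' φ' hN hb' D']
  refine princ_of_vals c' φ' D' D.N1 ?_
  intro q hqB hq _ F _ _ hF1 hF w hw ψ hψ
  have hqN : ¬ q ∣ D.N1 := fun h1 => by
    have := Nat.le_of_dvd D.pos h1
    omega
  rw [lam_up]
  have ho : orderOf ((q : ℕ) : ZMod m) = 1 := by
    rw [hF1] at hF
    have := Nat.pow_right_injective hq.two_le ((pow_one q).trans hF)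
    exact this.symm
  have h1 : ((q : ℕ) : ZMod M) = 1 := by
    rw [orderOf_eq_one_iff] at ho
    have h2 : (m : ℕ) ∣ q - 1 := by
      rw [← ZMod.natCast_eq_zero_iff, Nat.cast_sub hq.one_lt.le, ho, Nat.cast_one, sub_self]
    have h3 := (ZMod.natCast_eq_zero_iff (q - 1) M).2 (hMm.trans h2)
    rw [Nat.cast_sub hq.one_lt.le, Nat.cast_one, sub_eq_zero] at h3
    exact h3
  refine lam_of_princ c φ D h hq hqN F ?_ (prim_div hMm hw) (eup_inj hMm (eC_inj c' φ')) hψ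
  rw [hF1, h1, orderOf_one, pow_one]

lemma card_rational {M N : ℕ} [NeZero M] (hN : Even N) {r : Fin N → ℤ} (hr : ∀ i, r i ≠ 0)
    {R : Finset (Fin N → ZMod M)} (hR : R ⊆ PP M N)
    (hsum : ∀ f : (Fin N → ZMod M) → ℕ, ∑ b ∈ PP M N, f b =
      ∑ b ∈ R, ∑ t : (ZMod M)ˣ, f (tb t b)) (Q : (Fin N → ZMod M) → Prop) [DecidablePred Q]
    (hQ : ∀ b ∈ R, Q b ↔ RationalClass M (prs r b)) :
    Nat.card {b : Fin N → ZMod M // IsLine M b ∧ RationalClass M (pairs r b)} / M.totient =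
      ∑ b ∈ R, if Q b then 1 else 0 := by
  classical
  have h1 : Nat.card {b : Fin N → ZMod M // IsLine M b ∧ RationalClass M (pairs r b)} =
      ∑ b ∈ PP M N, if RationalClass M (prs r b) then 1 else 0 := by
    rw [Nat.card_eq_fintype_card, Fintype.card_subtype, ← card_filter]
    congr 1
    ext b
    rw [mem_filter, mem_filter, isLine_iff]
    constructor
    · rintro ⟨-, h⟩
      exact h
    · intro h
      exact ⟨mem_univ _, h⟩
  have hN' : Even (Fintype.card (Fin N)) := by rwa [Fintype.card_fin]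
  have h2 : ∀ b ∈ R, ∑ t : (ZMod M)ˣ, (if RationalClass M (prs r (tb t b)) then 1 else 0) =
      M.totient * (if Q b then 1 else 0) := by
    intro b hb
    have hb' := (mem_PP b).1 (hR hb)
    have h3 : ∀ t : (ZMod M)ˣ, (if RationalClass M (prs r (tb t b)) then 1 else 0) =
        (if Q b then 1 else 0) := by
      intro t
      have h4 := rational_tb_iff hN' hr hb'.1 hb'.2.1 t
      by_cases hq : Q b
      · rw [if_pos hq, if_pos (h4.2 ((hQ b hb).1 hq))]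
      · rw [if_neg hq, if_neg fun h => hq ((hQ b hb).2 (h4.1 h))]
    rw [sum_congr rfl fun t _ => h3 t, sum_const, card_univ, ZMod.card_units_eq_totient, smul_eq_mul]
  rw [h1, hsum, sum_congr rfl h2, ← mul_sum,
    Nat.mul_div_cancel_left _ (Nat.totient_pos.2 (NeZero.pos M))]

/-- the normalised traces -/
noncomputable def nt (m : ℕ) {N : ℕ} (c : Fin N → ℤ) (p : Nat.Primes) (k : ℕ) : ℂ :=
  (trace m c (GaloisField p k) : ℂ) / (((p : ℕ) : ℂ) ^ k) ^ (N / 2 - 1)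

lemma GF_card (p : Nat.Primes) {k : ℕ} (hk : k ≠ 0) [Fintype (GaloisField p k)] :
    Fintype.card (GaloisField p k) = (p : ℕ) ^ k := by
  rw [← Nat.card_eq_fintype_card, GaloisField.card _ _ hk]

lemma GF_ne (p : Nat.Primes) (k : ℕ) {x : ℤ} (h : ¬ ((p : ℕ) : ℤ) ∣ x) :
    (x : GaloisField p k) ≠ 0 := by
  rwa [Ne, CharP.intCast_eq_zero_iff (GaloisField p k) (p : ℕ)]

lemma nt_bound {m N : ℕ} (hm : 0 < m) (hN : Even N) (hN2 : 2 ≤ N) (r : Fin N → ℤ)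
    (p : Nat.Primes) (hp : ∀ i, ¬ ((p : ℕ) : ℤ) ∣ r i) {k : ℕ} (hk : 1 ≤ k) :
    ‖nt m r p k‖ ≤ 1 + (m : ℝ) ^ N := by
  have : Fintype (GaloisField p k) := Fintype.ofFinite _
  unfold nt
  rw [trace_eq hm]
  have h1 := tra_bound (F := GaloisField p k) hm hN hN2 r (fun i => GF_ne p k (hp i))
  rw [GF_card p (by omega)] at h1
  rw [norm_div, Complex.norm_real, Real.norm_eq_abs, norm_pow, norm_pow, Complex.norm_natCast]
  have h2 : (0 : ℝ) < (((p : ℕ) : ℝ) ^ k) ^ (N / 2 - 1) := by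
    have : (0 : ℝ) < ((p : ℕ) : ℝ) := by exact_mod_cast p.2.pos
    positivity
  rw [div_le_iff₀ h2]
  push_cast at h1
  exact h1

/-- the first trace -/
lemma nt_one {m N : ℕ} (hm : 0 < m) (hN : Even N) (hN2 : 2 ≤ N) (r : Fin N → ℤ)
    (p : Nat.Primes) (hp : ∀ i, ¬ ((p : ℕ) : ℤ) ∣ r i) (v : ℕ → ℂ)
    (hv : ∀ (M : ℕ) [NeZero M], M ∣ m → ((p : ℕ) : ZMod M) = 1 →
      ∀ (F : Type) [Field F] [Fintype F], Fintype.card F = p → ∀ (w : F) (hw : IsPrimitiveRoot w M)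
      (e : AddChar (ZMod M) ℂ), (∀ i, e i = 1 → i = 0) → ∀ ψ : AddChar F ℂ, ψ.IsPrimitive →
      ∑ b ∈ PP M N, lam hw e ψ r b = v M)
    (hv0 : ∀ M : ℕ, M ∣ m → ((p : ℕ) : ZMod M) ≠ 1 → v M = 0) :
    nt m r p 1 = 1 + ∑ M ∈ m.divisors, v M := by
  classical
  let _ : Fintype (GaloisField p 1) := Fintype.ofFinite _
  have hcard : Fintype.card (GaloisField p 1) = p := by rw [GF_card p one_ne_zero, pow_one]
  unfold nt
  rw [trace_eq hm]
  set d := Nat.gcd m (Fintype.card (GaloisField p 1) - 1) with hd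
  have hdpos : 0 < d := Nat.gcd_pos_of_pos_left _ hm
  have : NeZero d := ⟨hdpos.ne'⟩
  obtain ⟨w, hw⟩ := exists_w (F := GaloisField p 1) (Nat.gcd_dvd_right m _)
  rw [← hd] at hw
  obtain ⟨ζ, hζ⟩ : ∃ ζ : ℂ, IsPrimitiveRoot ζ d := ⟨_, Complex.isPrimitiveRoot_exp _ hdpos.ne'⟩
  set e : AddChar (ZMod d) ℂ := AddChar.zmodChar _ hζ.pow_eq_one with he
  have hei : ∀ i, e i = 1 → i = 0 := by
    intro i hi
    rw [he, AddChar.zmodChar_apply] at hi
    have h1 := hζ.dvd_of_pow_eq_one _ hi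
    exact (ZMod.val_eq_zero i).1 (Nat.eq_zero_of_dvd_of_lt h1 (ZMod.val_lt i))
  obtain ⟨ψ, hψ⟩ := psi_prim (F := GaloisField p 1)
  rw [tra_eq hm hd hw hei hψ hN hN2 r (fun i => GF_ne p 1 (hp i)), hcard, pow_one,
    mul_div_cancel_left₀ _ (pow_ne_zero _ (by exact_mod_cast p.2.ne_zero)), sum_levels]
  congr 1
  -- the divisors of `d`
  have hiff : ∀ M ∈ m.divisors, (M ∈ d.divisors ↔ ((p : ℕ) : ZMod M) = 1) := by
    intro M hM
    have hMm := Nat.dvd_of_mem_divisors hM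
    rw [Nat.mem_divisors, hd, Nat.dvd_gcd_iff, hcard, ← ZMod.natCast_eq_zero_iff ((p : ℕ) - 1) M,
      Nat.cast_sub p.2.one_lt.le, Nat.cast_one, sub_eq_zero]
    constructor
    · rintro ⟨⟨-, h⟩, -⟩
      exact h
    · intro h
      exact ⟨⟨hMm, h⟩, by rw [← hcard]; exact hdpos.ne'⟩
  have hsub : d.divisors ⊆ m.divisors :=
    Nat.divisors_subset_of_dvd hm.ne' (Nat.gcd_dvd_left m _)
  have h1 : ∑ M ∈ m.divisors, v M = ∑ M ∈ d.divisors, v M := by
    symm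
    apply sum_subset hsub
    intro M hM hMd
    exact hv0 M (Nat.dvd_of_mem_divisors hM) fun h => hMd ((hiff M hM).2 h)
  rw [h1, ← sum_attach d.divisors v]
  refine sum_congr rfl fun M _ => ?_
  obtain ⟨M, hM⟩ := M
  have hM0 : M ≠ 0 := (Nat.pos_of_mem_divisors hM).ne'
  have : NeZero M := ⟨hM0⟩
  have hMd := Nat.dvd_of_mem_divisors hM
  have h2 := hv M (Nat.dvd_of_mem_divisors (hsub hM)) ((hiff M (hsub hM)).1 hM)
    (GaloisField p 1) hcard (w ^ (d / M)) (prim_div hMd hw) (eup hMd e) (eup_inj hMd hei) ψ hψ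
  rw [← h2]
  exact sum_congr rfl fun b _ => lam_up hMd hw e ψ r b

/-- the order of the pole for the normalised Euler product -/
theorem core_diag {m N : ℕ} (hm : 0 < m) (hN : Even N) (hN2 : 2 ≤ N) (r : Fin N → ℤ)
    (hr : ∀ i, r i ≠ 0) (S : Finset ℕ) (hS : ∀ p : Nat.Primes, (p : ℕ) ∉ S →
      ¬ (p : ℕ) ∣ m ∧ ∀ i, ¬ ((p : ℕ) : ℤ) ∣ r i) : ∃ S' : Finset ℕ, S ⊆ S' ∧
    (∀ z : ℂ, 1 < z.re → Multipliable fun p : Nat.Primes =>
      if (p : ℕ) ∈ S' then (1 : ℂ) else Complex.exp (TT (nt m r p) (((p : ℕ) : ℂ) ^ (-z)))) ∧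
    ∃ G : ℂ → ℂ, AnalyticAt ℂ G 1 ∧ G 1 ≠ 0 ∧ ∀ᶠ z : ℂ in 𝓝 1, 1 < z.re →
      (∏' p : Nat.Primes, if (p : ℕ) ∈ S' then (1 : ℂ) else
        Complex.exp (TT (nt m r p) (((p : ℕ) : ℂ) ^ (-z)))) * (z - 1) ^ (rho m r) = G z := by
  classical
  have hnz : ∀ M : {M // M ∈ m.divisors}, NeZero M.1 :=
    fun M => ⟨(Nat.pos_of_mem_divisors M.2).ne'⟩
  have e1 : ∀ M : {M // M ∈ m.divisors}, ∃ (K : Type) (_ : Field K) (_ : NumberField K),
    Nonempty (Cy M.1 K) := fun M => exists_cy M.1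
  choose K iF iN hc using e1
  have e2 : ∀ M, Nonempty (K M →+* ℂ) := fun M => inferInstance
  have e3 : ∀ M : {M // M ∈ m.divisors}, ∃ R : Finset (Fin N → ZMod M.1), R ⊆ PP M.1 N ∧
    ∀ {A : Type} [AddCommMonoid A] (f : (Fin N → ZMod M.1) → A), ∑ b ∈ PP M.1 N, f b =
      ∑ b ∈ R, ∑ t : (ZMod M.1)ˣ, f (tb t b) := fun M => exists_reps M.1 N
  choose R hR hRs using e3
  let c : ∀ M, Cy M.1 (K M) := fun M => (hc M).some
  let φ : ∀ M, K M →+* ℂ := fun M => (e2 M).some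
  let ι := Σ M : {M // M ∈ m.divisors}, {b // b ∈ R M}
  have hmem : ∀ x : ι, (∀ i, x.2.1 i ≠ 0) ∧ ∑ i, x.2.1 i = 0 ∧ IsPrm x.1.1 x.2.1 :=
    fun x => (mem_PP _).1 (hR x.1 x.2.2)
  have e4 : ∀ x : ι, Nonempty (HD (c x.1) (φ x.1) r x.2.1) :=
    fun x => exists_HD (c x.1) (φ x.1) r hr x.2.1 (hmem x).2.1
  let D : ∀ x : ι, HD (c x.1) (φ x.1) r x.2.1 := fun x => (e4 x).some
  let S' : Finset ℕ := S ∪ (univ : Finset ι).biUnion fun x => (D x).N1.primeFactors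
  have hS' : ∀ p : Nat.Primes, (p : ℕ) ∉ S' → (p : ℕ) ∉ S ∧ ∀ x : ι, ¬ (p : ℕ) ∣ (D x).N1 := by
    intro p hp
    rw [mem_union, not_or] at hp
    refine ⟨hp.1, fun x hx => hp.2 ?_⟩
    rw [mem_biUnion]
    exact ⟨x, mem_univ _, Nat.mem_primeFactors.2 ⟨p.2, hx, (D x).pos.ne'⟩⟩
  refine ⟨S', subset_union_left, ?_⟩
  let rr : ι → ℕ := fun x => if Princ (D x).χ then 1 else 0
  have hrr : 1 + ∑ x, rr x = rho m r := by
    unfold rho
    congr 1
    rw [Fintype.sum_sigma, ← sum_coe_sort m.divisors]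
    refine sum_congr rfl fun M _ => ?_
    have h1 := card_rational (M := M.1) hN hr (hR M) (fun f => hRs M f)
      (fun b => RationalClass M.1 (prs r b)) (fun b _ => Iff.rfl)
    rw [h1, ← sum_coe_sort (R M)]
    refine sum_congr rfl fun b _ => ?_
    have h2 := rational_iff (c M) (φ M) (by rwa [Fintype.card_fin]) (hmem ⟨M, b⟩).1 (D ⟨M, b⟩)
    show (if Princ (D ⟨M, b⟩).χ then 1 else 0) = _
    by_cases hq : Princ (D ⟨M, b⟩).χ
    · rw [if_pos hq, if_pos (h2.2 hq)]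
    · rw [if_neg hq, if_neg fun h => hq (h2.1 h)]
  have hmain := core (K := fun x : ι => K x.1) (ψ := fun x => (D x).χ) (nt m r) S' 1
    (fun x => (D x).hecke) rr ?_ (C := 1 + (m : ℝ) ^ N) ?_ ?_
  · rw [hrr] at hmain
    exact hmain
  · intro x
    by_cases hq : Princ (D x).χ
    · left
      exact ⟨hq, if_pos hq⟩
    · right
      refine ⟨?_, if_neg hq⟩
      unfold Princ at hq
      push Not at hq
      exact hq
  · intro p hp k hk
    exact nt_bound hm hN hN2 r p (hS p (hS' p hp).1).2 hk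
  · intro p hp
    obtain ⟨hp1, hp2⟩ := hS' p hp
    let v' : {M // M ∈ m.divisors} → ℂ := fun M => ∑ b : {b // b ∈ R M},
      ∑ 𝔭 ∈ (ov (K M) p).filter (fun 𝔭 => Ideal.absNorm 𝔭 = p), (D ⟨M, b⟩).χ 𝔭
    let v : ℕ → ℂ := fun M => if h : M ∈ m.divisors then v' ⟨M, h⟩ else 0
    have hvv : ∀ M (h : M ∈ m.divisors), v M = v' ⟨M, h⟩ := fun M h => dif_pos h
    have h1 := nt_one hm hN hN2 r p (hS p hp1).2 v ?_ ?_
    · rw [h1, Nat.cast_one]
      congr 1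
      rw [Fintype.sum_sigma, ← sum_coe_sort m.divisors]
      refine sum_congr rfl fun M _ => ?_
      rw [hvv M.1 M.2]
    · intro M _ hMm hM1 F _ _ hF w hw e he ψ hψ
      have hM : M ∈ m.divisors := Nat.mem_divisors.2 ⟨hMm, hm.ne'⟩
      rw [hvv M hM]
      have h2 := hRs ⟨M, hM⟩ (fun b => lam hw e ψ r b)
      rw [h2, ← sum_coe_sort (R ⟨M, hM⟩)]
      refine sum_congr rfl fun b _ => ?_
      exact (sum_HD (c ⟨M, hM⟩) (φ ⟨M, hM⟩) (D ⟨⟨M, hM⟩, b⟩) p (hp2 _) hM1 F hF hw he hψ).symm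
    · intro M hMm hM1
      have hM : M ∈ m.divisors := Nat.mem_divisors.2 ⟨hMm, hm.ne'⟩
      rw [hvv M hM]
      apply sum_eq_zero
      intro b _
      rw [no_primes (c ⟨M, hM⟩) p (fun h => (hS p hp1).1 (h.trans hMm)) hM1, sum_empty]

end Pool.Agent.L0h11
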