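import Mathlib
import Pool.Agent.L0h11.Dg

/-!
# Products of diagonal hypersurfaces over the rational numbers: definitions
-/

set_option autoImplicit false

namespace Pool.Agent.L0h11

open Polynomial

/-- The product `X` of the diagonal hypersurfaces
`X_j : c_(j,0) * x_0 ^ (m_j) + ... + c_(j,N_j-1) * x_(N_j-1) ^ (m_j) = 0`, `j < r`, of dimensions
`N_j - 2`. -/
structure DiagProduct where
  r : ℕ
  m : Fin r → ℕ
  N : Fin r → ℕ
  c : ∀ j, Fin (N j) → ℤ
  m_pos : ∀ j, 0 < m j
  N_two : ∀ j, 2 ≤ N j
  c_ne : ∀ j i, c j i ≠ 0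

namespace DiagProduct

variable (X : DiagProduct)

/-- the least common multiple of the degrees -/
def lcm : ℕ := Finset.univ.lcm X.m

/-- The trace of Frobenius on the primitive cohomology of degree `n = N - 2` of one diagonal
hypersurface: `(-1) ^ n` times the number of points minus `1 + q + ... + q ^ n`. -/
noncomputable def primTrace (j : Fin X.r) (F : Type) [Field F] : ℝ :=
  (-1) ^ (X.N j) * ((points (X.m j) (X.c j) F : ℝ) -
    ∑ i ∈ Finset.range (X.N j - 1), (Nat.card F : ℝ) ^ i)

/-- The polynomial whose coefficient of degree `i` is the trace of Frobenius on `H ^ i (X_j)`: the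
cohomology consists of a line in each even degree `2 * i`, `0 ≤ i ≤ N_j - 2`, with eigenvalue
`q ^ i`, and of the primitive cohomology in degree `N_j - 2`. -/
noncomputable def tracePoly (j : Fin X.r) (F : Type) [Field F] : ℝ[X] :=
  (∑ i ∈ Finset.range (X.N j - 1), C ((Nat.card F : ℝ) ^ i) * Polynomial.X ^ (2 * i)) +
    C (X.primTrace j F) * Polynomial.X ^ (X.N j - 2)

/-- The trace of Frobenius on `H ^ (2 * k) (X)`, by the formula of Künneth. -/
noncomputable def trace (k : ℕ) (F : Type) [Field F] : ℝ := (∏ j, X.tracePoly j F).coeff (2 * k)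

/-- The primes dividing a degree or a coefficient. -/
def Bad (p : Nat.Primes) : Prop := ∃ j, (p : ℕ) ∣ X.m j ∨ ∃ i, ((p : ℕ) : ℤ) ∣ X.c j i

/-- The Euler factor `det (1 - Frob_p * p ^ (-s) | H ^ (2 * k) (X)) ^ (-1)` at a prime `p` of good
reduction, as the exponential of the sum over `l ≥ 1` (here `l + 1`) of the traces of the `l`-th
powers. -/
noncomputable def localFactor (k : ℕ) (p : Nat.Primes) (s : ℂ) : ℂ :=
  Complex.exp (∑' l : ℕ, (X.trace k (GaloisField p (l + 1)) : ℂ) *
    ((p : ℕ) : ℂ) ^ (-(((l + 1 : ℕ) : ℂ) * s)) / ((l + 1 : ℕ) : ℂ))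

/-- The L-function of `H ^ (2 * k) (X)` with the Euler factors `(P_p (p ^ (-s))) ^ (-1)` at the
primes `p` of the finite set `S`. -/
noncomputable def LFunction (k : ℕ) (S : Finset Nat.Primes) (P : Nat.Primes → ℂ[X]) (s : ℂ) : ℂ :=
  ∏' p : Nat.Primes, if p ∈ S then ((P p).eval (((p : ℕ) : ℂ) ^ (-s)))⁻¹ else X.localFactor k p s

/-- the indices of the coordinates of the factors `X_j`, `j ∈ J` -/
abbrev Idx (J : Finset (Fin X.r)) : Type := Σ j : {j // j ∈ J}, Fin (X.N j.1)

/-- The lines of level `M` for the set `J` of factors: for each `j ∈ J` an `N_j`-tuple of nonzero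
residues modulo `M`, with sum zero and annihilated by `m_j`, such that all these residues do not come
from a proper divisor of `M`. It belongs to the tensor product of the lines `V(b_j)` in the primitive
cohomology of the `X_j`, `j ∈ J`, and of any line in the cohomology of the other factors which
is spanned by a power of the class of a hyperplane. -/
def IsLine (J : Finset (Fin X.r)) (M : ℕ) (b : X.Idx J → ZMod M) : Prop :=
  ((∀ x, b x ≠ 0) ∧ (∀ j : {j // j ∈ J}, ∑ i, b ⟨j, i⟩ = 0) ∧
    ∀ x : X.Idx J, (X.m x.1.1 : ZMod M) * b x = 0) ∧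
  ∀ k : ℕ, (∀ x, (k : ZMod M) * b x = 0) → M ∣ k

/-- the multiset of the pairs of the entries and the coefficients -/
def pairs {J : Finset (Fin X.r)} {M : ℕ} (b : X.Idx J → ZMod M) : Multiset (ZMod M × ℤ) :=
  Finset.univ.val.map fun x => (b x, X.c x.1.1 x.2)

/-- The number of the ways to complete the primitive cohomology of the factors `X_j`, `j ∈ J`, to
degree `2 * k` by powers of the classes of hyperplanes of the other factors. -/
noncomputable def mult (J : Finset (Fin X.r)) (k : ℕ) : ℕ :=
  ((∏ j ∈ J, Polynomial.X ^ (X.N j - 2)) *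
    ∏ j ∈ Finset.univ \ J, ∑ i ∈ Finset.range (X.N j - 1), Polynomial.X ^ (2 * i) : ℕ[X]).coeff
      (2 * k)

/-- The number of the Galois orbits of lines in `H ^ (2 * k) (X)(k)` with trivial Galois action. The
group of the units modulo `M` acts freely on the lines of level `M` for `J`; the Galois group of the
field of `M`-th roots of unity acts trivially on the line of `b` if and only if
`RationalClass M (X.pairs b)` holds. -/
noncomputable def rho (k : ℕ) : ℕ :=
  ∑ J ∈ (Finset.univ : Finset (Fin X.r)).powerset, X.mult J k *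
    ∑ M ∈ X.lcm.divisors, Nat.card {b : X.Idx J → ZMod M //
      X.IsLine J M b ∧ Pool.Agent.H916K.RationalClass M (X.pairs b)} / M.totient

/-- The line of `b` is algebraic by theorems of Shioda, Katsura, Aoki and the theorem of Lefschetz on
`(1, 1)` classes: for a multiple `m'` of `M` the multiset of the residues `(m' / M) * b_x` belongs to the
smallest family of multisets of residues modulo `m'` which contains the Hodge characters with four
entries, the pairs `{a, -a}` and the standard characters of Aoki and Shioda, and which is closed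
under union and under removing a pair `{a, -a}`. -/
def AlgebraicLine {J : Finset (Fin X.r)} (M : ℕ) (b : X.Idx J → ZMod M) : Prop :=
  ∃ m' : ℕ, 0 < m' ∧ M ∣ m' ∧ Pool.Agent.H916R2.Generated m'
    (Pool.Agent.H916R2.SurfaceCharacter m')
    (Finset.univ.val.map fun x => ((m' / M * (b x).val : ℕ) : ZMod m'))

end DiagProduct

end Pool.Agent.L0h11
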