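import Mathlib
import Pool.Agent.L0h11.An

/-!
# Euler products: shifting the variable and changing finitely many factors
-/

set_option autoImplicit false
set_option linter.unusedSectionVars false

namespace Pool.Agent.L0h11

open Finset Filter Topology

lemma diff_par' (p : Nat.Primes) (a : ℂ) :
    Differentiable ℂ (fun s : ℂ => ((p : ℕ) : ℂ) ^ (-(s - a))) := by
  intro z
  apply DifferentiableAt.const_cpow (by fun_prop)
  left
  exact_mod_cast p.2.ne_zero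

theorem shift {τ : Nat.Primes → ℕ → ℂ} {C : ℝ} {S : Finset Nat.Primes}
    (hC : ∀ p ∉ S, ∀ k, 1 ≤ k → ‖τ p k‖ ≤ C) {S' : Finset ℕ} (hSS : ∀ p ∈ S, (p : ℕ) ∈ S')
    (hmul : ∀ z : ℂ, 1 < z.re → Multipliable fun p : Nat.Primes =>
      if (p : ℕ) ∈ S' then (1 : ℂ) else Complex.exp (TT (τ p) (((p : ℕ) : ℂ) ^ (-z))))
    {ρ : ℕ} {G : ℂ → ℂ} (hG : AnalyticAt ℂ G 1) (hG1 : G 1 ≠ 0)
    (hGL : ∀ᶠ z : ℂ in 𝓝 1, 1 < z.re →
      (∏' p : Nat.Primes, if (p : ℕ) ∈ S' then (1 : ℂ) else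
        Complex.exp (TT (τ p) (((p : ℕ) : ℂ) ^ (-z)))) * (z - 1) ^ ρ = G z)
    (a : ℕ) (P : Nat.Primes → Polynomial ℂ)
    (hP : ∀ p ∈ S, (P p).eval (((p : ℕ) : ℂ) ^ (-((a + 1 : ℕ) : ℂ))) ≠ 0)
    (loc : Nat.Primes → ℂ → ℂ) (hloc : ∀ p ∉ S, ∀ s, loc p s =
      Complex.exp (TT (τ p) (((p : ℕ) : ℂ) ^ (-(s - (a : ℂ)))))) :
    (∀ s : ℂ, ((a + 1 : ℕ) : ℝ) < s.re → Multipliable fun p : Nat.Primes =>
      if p ∈ S then ((P p).eval (((p : ℕ) : ℂ) ^ (-s)))⁻¹ else loc p s) ∧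
    ∃ G' : ℂ → ℂ, AnalyticAt ℂ G' ((a + 1 : ℕ) : ℂ) ∧ G' ((a + 1 : ℕ) : ℂ) ≠ 0 ∧
      ∀ᶠ s : ℂ in 𝓝 ((a + 1 : ℕ) : ℂ), ((a + 1 : ℕ) : ℝ) < s.re →
        (∏' p : Nat.Primes, if p ∈ S then ((P p).eval (((p : ℕ) : ℂ) ^ (-s)))⁻¹ else loc p s) *
          (s - ((a + 1 : ℕ) : ℂ)) ^ ρ = G' s := by
  classical
  have ha1 : ((a + 1 : ℕ) : ℂ) = (a : ℂ) + 1 := by push_cast; ring
  have hre : ∀ s : ℂ, ((a + 1 : ℕ) : ℝ) < s.re → 1 < (s - (a : ℂ)).re := by
    intro s hs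
    rw [Complex.sub_re, Complex.natCast_re]
    push_cast at hs
    linarith
  let S1 : Finset Nat.Primes := S'.subtype Nat.Prime
  have hS1 : ∀ p : Nat.Primes, p ∈ S1 ↔ (p : ℕ) ∈ S' := fun p => mem_subtype
  let fac : Nat.Primes → ℂ → ℂ := fun p s =>
    if p ∈ S then ((P p).eval (((p : ℕ) : ℂ) ^ (-s)))⁻¹ else loc p s
  have hprod : ∀ s : ℂ, ((a + 1 : ℕ) : ℝ) < s.re → HasProd (fun p => fac p s)
      ((∏ p ∈ S1, fac p s) * ∏' p : Nat.Primes, if (p : ℕ) ∈ S' then (1 : ℂ) else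
        Complex.exp (TT (τ p) (((p : ℕ) : ℂ) ^ (-(s - (a : ℂ)))))) := by
    intro s hs
    have h1 := (hmul (s - a) (hre s hs)).hasProd
    have h2 : HasProd (fun p : Nat.Primes => if (p : ℕ) ∈ S' then fac p s else 1)
        (∏ p ∈ S1, fac p s) := by
      have h3 : ∏ p ∈ S1, fac p s = ∏ p ∈ S1, (if (p : ℕ) ∈ S' then fac p s else 1) :=
        prod_congr rfl fun p hp => by rw [if_pos ((hS1 p).1 hp)]
      rw [h3]
      apply hasProd_prod_of_ne_finset_one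
      intro p hp
      rw [if_neg fun h => hp ((hS1 p).2 h)]
    refine (h2.mul h1).congr_fun fun p => ?_
    by_cases hp : (p : ℕ) ∈ S'
    · rw [if_pos hp, if_pos hp, mul_one]
    · rw [if_neg hp, if_neg hp, one_mul]
      have hpS : p ∉ S := fun h => hp (hSS p h)
      show (if p ∈ S then ((P p).eval (((p : ℕ) : ℂ) ^ (-s)))⁻¹ else loc p s) = _
      rw [if_neg hpS, hloc p hpS]
  refine ⟨fun s hs => (hprod s hs).multipliable, ?_⟩
  refine ⟨fun s => (∏ p ∈ S1, fac p s) * G (s - a), ?_, ?_, ?_⟩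
  · refine AnalyticAt.fun_mul (Finset.analyticAt_fun_prod _ fun p _ => ?_) ?_
    · by_cases hp : p ∈ S
      · have h1 : fac p = fun s => ((P p).eval (((p : ℕ) : ℂ) ^ (-s)))⁻¹ := by
          funext s
          exact if_pos hp
        rw [h1]
        refine AnalyticAt.inv ?_ (hP p hp)
        have h2 : Differentiable ℂ (fun s : ℂ => (P p).eval (((p : ℕ) : ℂ) ^ (-s))) := by
          have h3 := diff_par' p 0
          simp only [sub_zero] at h3
          exact (P p).differentiable.comp h3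
        exact h2.analyticAt _
      · have h1 : fac p = fun s => Complex.exp (TT (τ p) (((p : ℕ) : ℂ) ^ (-(s - (a : ℂ))))) := by
          funext s
          rw [← hloc p hp]
          exact if_neg hp
        rw [h1]
        apply AnalyticAt.cexp
        have h2 : AnalyticAt ℂ (fun s : ℂ => ((p : ℕ) : ℂ) ^ (-(s - (a : ℂ))))
            ((a + 1 : ℕ) : ℂ) := (diff_par' p _).analyticAt _
        have h3 : AnalyticAt ℂ (TT (τ p))
            (((p : ℕ) : ℂ) ^ (-(((a + 1 : ℕ) : ℂ) - (a : ℂ)))) := by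
          refine (TT_diff (hC p hp)).analyticAt (Metric.isOpen_ball.mem_nhds ?_)
          rw [ha1, add_sub_cancel_left, Metric.mem_ball, dist_zero_right]
          have := (norm_p p (z := 1) (by rw [Complex.one_re]; norm_num)).trans
            (par_le p.2.two_le)
          linarith
        exact AnalyticAt.fun_comp h3 h2
    · have h1 : AnalyticAt ℂ (fun s : ℂ => s - (a : ℂ)) ((a + 1 : ℕ) : ℂ) := by fun_prop
      have h2 : AnalyticAt ℂ G (((a + 1 : ℕ) : ℂ) - (a : ℂ)) := by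
        rw [ha1, add_sub_cancel_left]
        exact hG
      exact AnalyticAt.fun_comp h2 h1
  · refine mul_ne_zero (prod_ne_zero_iff.2 fun p _ => ?_) ?_
    · by_cases hp : p ∈ S
      · have h1 : fac p ((a + 1 : ℕ) : ℂ) =
          ((P p).eval (((p : ℕ) : ℂ) ^ (-((a + 1 : ℕ) : ℂ))))⁻¹ := if_pos hp
        rw [h1]
        exact inv_ne_zero (hP p hp)
      · have h1 : fac p ((a + 1 : ℕ) : ℂ) = loc p ((a + 1 : ℕ) : ℂ) := if_neg hp
        rw [h1, hloc p hp]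
        exact Complex.exp_ne_zero _
    · simp only [ha1, add_sub_cancel_left]
      exact hG1
  · have hcont : Tendsto (fun s : ℂ => s - (a : ℂ)) (𝓝 ((a + 1 : ℕ) : ℂ)) (𝓝 1) := by
      have h1 : Continuous (fun s : ℂ => s - (a : ℂ)) := by fun_prop
      have h2 := h1.tendsto ((a + 1 : ℕ) : ℂ)
      simp only [ha1, add_sub_cancel_left] at h2
      rw [ha1]
      exact h2
    filter_upwards [hcont.eventually hGL] with s hs hs2
    have h1 := hs (hre s hs2)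
    have h2 : (∏' p : Nat.Primes, if p ∈ S then ((P p).eval (((p : ℕ) : ℂ) ^ (-s)))⁻¹
        else loc p s) = (∏ p ∈ S1, fac p s) *
        ∏' p : Nat.Primes, if (p : ℕ) ∈ S' then (1 : ℂ) else
          Complex.exp (TT (τ p) (((p : ℕ) : ℂ) ^ (-(s - (a : ℂ))))) := (hprod s hs2).tprod_eq
    rw [h2, ← h1, ha1]
    ring

end Pool.Agent.L0h11
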