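import Mathlib
import Pool.Agent.L0h11.Asm

/-!
# Systems of lines
-/

set_option autoImplicit false
set_option linter.unusedSectionVars false

namespace Pool.Agent.L0h11

open Finset NumberField IsDedekindDomain
open Pool.Agent.N172.HS (IsHecke)
open Pool.Agent.H916K (RationalClass)

/-- a system of lines, compatible with the change of the level and the action of the units -/
structure Sys (ι : Type) [Fintype ι] where
  A : ∀ M : ℕ, (ι → ZMod M) → Prop
  nz : ∀ (M : ℕ) (b : ι → ZMod M), A M b → ∀ i, b i ≠ 0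
  sum : ∀ (M : ℕ) (b : ι → ZMod M), A M b → ∑ i, b i = 0
  lvl : ∀ (M d : ℕ) [NeZero M] [NeZero d] (h : M ∣ d) (b : ι → ZMod M),
    A d (fun i => up h (b i)) ↔ A M b
  unit : ∀ (M : ℕ) (t : (ZMod M)ˣ) (b : ι → ZMod M), A M b → A M (tb t b)

section

variable {ι : Type} [Fintype ι] (Y : Sys ι)

open Classical in
/-- the lines of level dividing `d` -/
noncomputable def Sys.L (d : ℕ) [NeZero d] : Finset (ι → ZMod d) := univ.filter fun b => Y.A d b

open Classical in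
/-- the lines of exact level `M` -/
noncomputable def Sys.P (M : ℕ) [NeZero M] : Finset (ι → ZMod M) :=
  univ.filter fun b => Y.A M b ∧ IsPrm M b

lemma Sys.mem_L {d : ℕ} [NeZero d] (b : ι → ZMod d) : b ∈ Y.L d ↔ Y.A d b := by
  classical
  unfold Sys.L
  rw [mem_filter]
  simp

lemma Sys.mem_P {M : ℕ} [NeZero M] (b : ι → ZMod M) : b ∈ Y.P M ↔ Y.A M b ∧ IsPrm M b := by
  classical
  unfold Sys.P
  rw [mem_filter]
  simp

/-- decomposition according to the level -/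
lemma Sys.sum_levels {d : ℕ} [NeZero d] (f : (ι → ZMod d) → ℂ) :
    ∑ b ∈ Y.L d, f b = ∑ M ∈ d.divisors.attach,
      ∑ b ∈ @Sys.P ι _ Y M.1 ⟨(Nat.pos_of_mem_divisors M.2).ne'⟩,
      f (fun i => up (Nat.dvd_of_mem_divisors M.2) (b i)) := by
  classical
  have h1 : ∀ b ∈ Y.L d, addOrderOf b ∈ d.divisors := by
    intro b _
    rw [Nat.mem_divisors]
    refine ⟨addOrderOf_dvd_of_nsmul_eq_zero ?_, NeZero.ne d⟩
    funext i
    rw [Pi.smul_apply, nsmul_eq_mul, ZMod.natCast_self, zero_mul, Pi.zero_apply]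
  rw [← sum_fiberwise_of_maps_to h1, ← sum_attach]
  refine sum_congr rfl fun M _ => ?_
  obtain ⟨M, hM⟩ := M
  have hMd := Nat.dvd_of_mem_divisors hM
  have : NeZero M := ⟨(Nat.pos_of_mem_divisors hM).ne'⟩
  symm
  refine sum_nbij (fun b i => up hMd (b i)) ?_ ?_ ?_ ?_
  · intro b hb
    rw [Sys.mem_P] at hb
    rw [mem_filter, Sys.mem_L]
    exact ⟨(Y.lvl M d hMd b).2 hb.1, (lvl_iff hMd b).2 hb.2⟩
  · intro b _ b' _ h
    funext i
    exact up_inj hMd (congrFun h i)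
  · intro b hb
    rw [mem_coe, mem_filter, Sys.mem_L] at hb
    have h2 : ∀ i, ∃ a, up hMd a = b i := by
      intro i
      apply up_range
      have h3 := addOrderOf_nsmul_eq_zero b
      rw [hb.2] at h3
      have h4 := congrFun h3 i
      rwa [Pi.smul_apply, nsmul_eq_mul] at h4
    choose a ha using h2
    have ha' : (fun i => up hMd (a i)) = b := funext ha
    refine ⟨a, ?_, ha'⟩
    rw [mem_coe, Sys.mem_P]
    refine ⟨?_, ?_⟩
    · rw [← Y.lvl M d hMd a, ha']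
      exact hb.1
    · rw [← lvl_iff hMd, ha', hb.2]
  · intro b _
    rfl

lemma Sys.tb_mem {M : ℕ} [NeZero M] (t : (ZMod M)ˣ) {b : ι → ZMod M} (h : b ∈ Y.P M) :
    tb t b ∈ Y.P M := by
  rw [Sys.mem_P] at h ⊢
  exact ⟨Y.unit M t b h.1, prm_tb t h.2⟩

/-- the orbit relation -/
def orbT (M : ℕ) (ι : Type) [NeZero M] : Setoid (ι → ZMod M) where
  r b b' := ∃ t : (ZMod M)ˣ, tb t b = b'
  iseqv := by
    refine ⟨fun b => ⟨1, tb_one b⟩, ?_, ?_⟩
    · rintro b b' ⟨t, rfl⟩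
      exact ⟨t⁻¹, by rw [tb_tb, inv_mul_cancel, tb_one]⟩
    · rintro b b' b'' ⟨t, rfl⟩ ⟨s, rfl⟩
      exact ⟨s * t, (tb_tb s t b).symm⟩

/-- representatives of the orbits -/
lemma Sys.exists_reps (M : ℕ) [NeZero M] : ∃ R : Finset (ι → ZMod M), R ⊆ Y.P M ∧
    ∀ {A : Type} [AddCommMonoid A] (f : (ι → ZMod M) → A), ∑ b ∈ Y.P M, f b =
      ∑ b ∈ R, ∑ t : (ZMod M)ˣ, f (tb t b) := by
  classical
  let rep : (ι → ZMod M) → (ι → ZMod M) := fun b => (Quotient.mk (orbT M ι) b).out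
  have hrep : ∀ b, ∃ t : (ZMod M)ˣ, tb t (rep b) = b := by
    intro b
    exact Quotient.mk_out (s := orbT M ι) b
  have hrep2 : ∀ b (t : (ZMod M)ˣ), rep (tb t b) = rep b := by
    intro b t
    have : Quotient.mk (orbT M ι) (tb t b) = Quotient.mk (orbT M ι) b :=
      Quotient.sound ⟨t⁻¹, by rw [tb_tb, inv_mul_cancel, tb_one]⟩
    exact congrArg Quotient.out this
  have hmem : ∀ b ∈ Y.P M, rep b ∈ Y.P M := by
    intro b hb
    obtain ⟨t, ht⟩ := hrep b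
    have : rep b = tb t⁻¹ b := by
      conv_rhs => rw [← ht]
      rw [tb_tb, inv_mul_cancel, tb_one]
    rw [this]
    exact Y.tb_mem _ hb
  refine ⟨(Y.P M).image rep, ?_, ?_⟩
  · intro b hb
    rw [mem_image] at hb
    obtain ⟨b', hb', rfl⟩ := hb
    exact hmem b' hb'
  · intro A _ f
    rw [← sum_fiberwise_of_maps_to (t := (Y.P M).image rep) (g := rep)
      (fun b hb => mem_image_of_mem rep hb)]
    refine sum_congr rfl fun r hr => ?_
    rw [mem_image] at hr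
    obtain ⟨b', hb', rfl⟩ := hr
    have hr2 := hmem b' hb'
    have hrr : rep (rep b') = rep b' := by
      obtain ⟨t, ht⟩ := hrep b'
      have h1 := hrep2 (rep b') t
      rw [ht] at h1
      exact h1.symm
    symm
    refine sum_nbij (fun t => tb t (rep b')) ?_ ?_ ?_ ?_
    · intro t _
      rw [mem_filter]
      exact ⟨Y.tb_mem t hr2, by rw [hrep2, hrr]⟩
    · intro s _ t _ hst
      exact tb_inj ((Y.mem_P _).1 hr2).2 hst
    · intro b hb
      rw [mem_coe, mem_filter] at hb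
      obtain ⟨t, ht⟩ := hrep b
      rw [hb.2] at ht
      exact ⟨t, mem_coe.2 (mem_univ t), ht⟩
    · intro t _
      rfl

/-- the number of the orbits of rational lines -/
noncomputable def Sys.cnt (m : ℕ) (c : ι → ℤ) : ℕ :=
  ∑ M ∈ m.divisors, Nat.card {b : ι → ZMod M //
    (Y.A M b ∧ IsPrm M b) ∧ RationalClass M (prs c b)} / M.totient

lemma Sys.card_rational {M : ℕ} [NeZero M] (hN : Even (Fintype.card ι)) {r : ι → ℤ}
    (hr : ∀ i, r i ≠ 0) {R : Finset (ι → ZMod M)} (hR : R ⊆ Y.P M)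
    (hsum : ∀ f : (ι → ZMod M) → ℕ, ∑ b ∈ Y.P M, f b =
      ∑ b ∈ R, ∑ t : (ZMod M)ˣ, f (tb t b)) (Q : (ι → ZMod M) → Prop) [DecidablePred Q]
    (hQ : ∀ b ∈ R, Q b ↔ RationalClass M (prs r b)) :
    Nat.card {b : ι → ZMod M // (Y.A M b ∧ IsPrm M b) ∧ RationalClass M (prs r b)} / M.totient =
      ∑ b ∈ R, if Q b then 1 else 0 := by
  classical
  have h1 : Nat.card {b : ι → ZMod M // (Y.A M b ∧ IsPrm M b) ∧ RationalClass M (prs r b)} =
      ∑ b ∈ Y.P M, if RationalClass M (prs r b) then 1 else 0 := by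
    rw [Nat.card_eq_fintype_card, Fintype.card_subtype, ← card_filter]
    congr 1
    ext b
    rw [mem_filter, mem_filter, Y.mem_P]
    constructor
    · rintro ⟨-, h⟩
      exact h
    · intro h
      exact ⟨mem_univ _, h⟩
  have h2 : ∀ b ∈ R, ∑ t : (ZMod M)ˣ, (if RationalClass M (prs r (tb t b)) then 1 else 0) =
      M.totient * (if Q b then 1 else 0) := by
    intro b hb
    have hb' := (Y.mem_P b).1 (hR hb)
    have h3 : ∀ t : (ZMod M)ˣ, (if RationalClass M (prs r (tb t b)) then 1 else 0) =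
        (if Q b then 1 else 0) := by
      intro t
      have h4 := rational_tb_iff hN hr (Y.nz M b hb'.1) (Y.sum M b hb'.1) t
      by_cases hq : Q b
      · rw [if_pos hq, if_pos (h4.2 ((hQ b hb).1 hq))]
      · rw [if_neg hq, if_neg fun h => hq ((hQ b hb).2 (h4.1 h))]
    rw [sum_congr rfl fun t _ => h3 t, sum_const, card_univ, ZMod.card_units_eq_totient, smul_eq_mul]
  rw [h1, hsum, sum_congr rfl h2, ← mul_sum,
    Nat.mul_div_cancel_left _ (Nat.totient_pos.2 (NeZero.pos M))]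

/-- the Hecke characters of a system of lines -/
structure SD (m : ℕ) (c : ι → ℤ) where
  κ : Type
  ft : Fintype κ
  K : κ → Type
  iF : ∀ x, Field (K x)
  iN : ∀ x, NumberField (K x)
  𝔣 : ∀ x, Ideal (𝓞 (K x))
  kk : ∀ x, (K x →+* ℂ) → ℤ
  ψ : ∀ x, Ideal (𝓞 (K x)) →*₀ ℂ
  hk : ∀ x, IsHecke (𝔣 x) (kk x) 0 (ψ x)
  r : κ → ℕ
  hr : ∀ x, ((∀ 𝔞, ψ x 𝔞 ≠ 0 → ψ x 𝔞 = 1) ∧ r x = 1) ∨
      ((∃ 𝔞, ψ x 𝔞 ≠ 0 ∧ ψ x 𝔞 ≠ 1) ∧ r x = 0)
  cnt : ∑ x, r x = Y.cnt m c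
  S : Finset ℕ
  val : ∀ p : Nat.Primes, (p : ℕ) ∉ S → ∀ (F : Type) [Field F] [Fintype F],
    Fintype.card F = p → ∀ d : ℕ, d = Nat.gcd m (Fintype.card F - 1) → ∀ [NeZero d] (w : F)
      (hw : IsPrimitiveRoot w d) (e : AddChar (ZMod d) ℂ), (∀ i, e i = 1 → i = 0) →
      ∀ ψ' : AddChar F ℂ, ψ'.IsPrimitive → ∑ b ∈ Y.L d, lam hw e ψ' c b =
        ∑ x, ∑ 𝔭 ∈ (ov (K x) p).filter (fun 𝔭 => Ideal.absNorm 𝔭 = p), ψ x 𝔭

theorem Sys.exists_SD {m : ℕ} (hm : 0 < m) (hN : Even (Fintype.card ι)) (r : ι → ℤ)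
    (hr : ∀ i, r i ≠ 0) : Nonempty (SD Y m r) := by
  classical
  have hnz : ∀ M : {M // M ∈ m.divisors}, NeZero M.1 :=
    fun M => ⟨(Nat.pos_of_mem_divisors M.2).ne'⟩
  have e1 : ∀ M : {M // M ∈ m.divisors}, ∃ (K : Type) (_ : Field K) (_ : NumberField K),
    Nonempty (Cy M.1 K) := fun M => exists_cy M.1
  choose K iF iN hc using e1
  have e2 : ∀ M, Nonempty (K M →+* ℂ) := fun M => inferInstance
  have e3 : ∀ M : {M // M ∈ m.divisors}, ∃ R : Finset (ι → ZMod M.1), R ⊆ Y.P M.1 ∧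
    ∀ {A : Type} [AddCommMonoid A] (f : (ι → ZMod M.1) → A), ∑ b ∈ Y.P M.1, f b =
      ∑ b ∈ R, ∑ t : (ZMod M.1)ˣ, f (tb t b) := fun M => Y.exists_reps M.1
  choose R hR hRs using e3
  let c : ∀ M, Cy M.1 (K M) := fun M => (hc M).some
  let φ : ∀ M, K M →+* ℂ := fun M => (e2 M).some
  let κ := Σ M : {M // M ∈ m.divisors}, {b // b ∈ R M}
  have hmem : ∀ x : κ, Y.A x.1.1 x.2.1 ∧ IsPrm x.1.1 x.2.1 :=
    fun x => (Y.mem_P _).1 (hR x.1 x.2.2)
  have e4 : ∀ x : κ, Nonempty (HD (c x.1) (φ x.1) r x.2.1) :=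
    fun x => exists_HD (c x.1) (φ x.1) r hr x.2.1 (Y.sum _ _ (hmem x).1)
  let D : ∀ x : κ, HD (c x.1) (φ x.1) r x.2.1 := fun x => (e4 x).some
  let S' : Finset ℕ := m.primeFactors ∪
    (univ : Finset κ).biUnion fun x => (D x).N1.primeFactors
  have hS' : ∀ p : Nat.Primes, (p : ℕ) ∉ S' → ¬ (p : ℕ) ∣ m ∧ ∀ x : κ, ¬ (p : ℕ) ∣ (D x).N1 := by
    intro p hp
    rw [mem_union, not_or] at hp
    refine ⟨fun h => hp.1 (Nat.mem_primeFactors.2 ⟨p.2, h, hm.ne'⟩), fun x hx => hp.2 ?_⟩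
    rw [mem_biUnion]
    exact ⟨x, mem_univ _, Nat.mem_primeFactors.2 ⟨p.2, hx, (D x).pos.ne'⟩⟩
  refine ⟨{
    κ := κ
    ft := inferInstance
    K := fun x => K x.1
    iF := fun x => iF x.1
    iN := fun x => iN x.1
    𝔣 := fun x => Ideal.span {((D x).N1 : 𝓞 (K x.1))}
    kk := fun x => (D x).k
    ψ := fun x => (D x).χ
    hk := fun x => (D x).hecke
    r := fun x => if Princ (D x).χ then 1 else 0
    hr := ?_
    cnt := ?_
    S := S'
    val := ?_ }⟩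
  · intro x
    by_cases hq : Princ (D x).χ
    · left
      exact ⟨hq, if_pos hq⟩
    · right
      refine ⟨?_, if_neg hq⟩
      unfold Princ at hq
      push Not at hq
      exact hq
  · unfold Sys.cnt
    rw [Fintype.sum_sigma, ← sum_coe_sort m.divisors]
    refine sum_congr rfl fun M _ => ?_
    have h1 := Y.card_rational (M := M.1) hN hr (hR M) (fun f => hRs M f)
      (fun b => RationalClass M.1 (prs r b)) (fun b _ => Iff.rfl)
    rw [h1, ← sum_coe_sort (R M)]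
    refine sum_congr rfl fun b _ => ?_
    have h2 := rational_iff (c M) (φ M) hN (Y.nz _ _ (hmem ⟨M, b⟩).1) (D ⟨M, b⟩)
    show (if Princ (D ⟨M, b⟩).χ then 1 else 0) = _
    by_cases hq : Princ (D ⟨M, b⟩).χ
    · rw [if_pos hq, if_pos (h2.2 hq)]
    · rw [if_neg hq, if_neg fun h => hq (h2.1 h)]
  · intro p hp F _ _ hF d hd _ w hw e he ψ' hψ'
    obtain ⟨hpm, hp2⟩ := hS' p hp
    rw [Y.sum_levels]
    -- the divisors of `d`
    have hdpos : 0 < d := NeZero.pos d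
    have hiff : ∀ M ∈ m.divisors, (M ∈ d.divisors ↔ ((p : ℕ) : ZMod M) = 1) := by
      intro M hM
      have hMm := Nat.dvd_of_mem_divisors hM
      rw [Nat.mem_divisors, hd, Nat.dvd_gcd_iff, hF, ← ZMod.natCast_eq_zero_iff ((p : ℕ) - 1) M,
        Nat.cast_sub p.2.one_lt.le, Nat.cast_one, sub_eq_zero]
      constructor
      · rintro ⟨⟨-, h⟩, -⟩
        exact h
      · intro h
        exact ⟨⟨hMm, h⟩, by rw [← hF, ← hd]; exact hdpos.ne'⟩
    have hsub : d.divisors ⊆ m.divisors :=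
      Nat.divisors_subset_of_dvd hm.ne' (by rw [hd]; exact Nat.gcd_dvd_left m _)
    let v' : {M // M ∈ m.divisors} → ℂ := fun M => ∑ b : {b // b ∈ R M},
      ∑ 𝔭 ∈ (ov (K M) p).filter (fun 𝔭 => Ideal.absNorm 𝔭 = p), (D ⟨M, b⟩).χ 𝔭
    let v : ℕ → ℂ := fun M => if h : M ∈ m.divisors then v' ⟨M, h⟩ else 0
    have hvv : ∀ M (h : M ∈ m.divisors), v M = v' ⟨M, h⟩ := fun M h => dif_pos h
    have hv0 : ∀ M : ℕ, M ∣ m → ((p : ℕ) : ZMod M) ≠ 1 → v M = 0 := by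
      intro M hMm hM1
      have hM : M ∈ m.divisors := Nat.mem_divisors.2 ⟨hMm, hm.ne'⟩
      rw [hvv M hM]
      apply sum_eq_zero
      intro b _
      rw [no_primes (c ⟨M, hM⟩) p (fun h => hpm (h.trans hMm)) hM1, sum_empty]
    have h1 : ∑ M ∈ m.divisors, v M = ∑ M ∈ d.divisors, v M := by
      symm
      apply sum_subset hsub
      intro M hM hMd
      exact hv0 M (Nat.dvd_of_mem_divisors hM) fun h => hMd ((hiff M hM).2 h)
    have h2 : ∑ x : κ, ∑ 𝔭 ∈ (ov (K x.1) p).filter (fun 𝔭 => Ideal.absNorm 𝔭 = p), (D x).χ 𝔭 =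
        ∑ M ∈ m.divisors, v M := by
      rw [Fintype.sum_sigma, ← sum_coe_sort m.divisors]
      refine sum_congr rfl fun M _ => ?_
      rw [hvv M.1 M.2]
    refine Eq.trans ?_ h2.symm
    rw [h1, ← sum_attach d.divisors v]
    refine sum_congr rfl fun M _ => ?_
    obtain ⟨M, hM⟩ := M
    have : NeZero M := ⟨(Nat.pos_of_mem_divisors hM).ne'⟩
    have hMd := Nat.dvd_of_mem_divisors hM
    have hMm := hsub hM
    have hM1 := (hiff M hMm).1 hM
    rw [hvv M hMm]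
    have h3 := hRs ⟨M, hMm⟩ (fun b => lam (prim_div hMd hw) (eup hMd e) ψ' r b)
    have h4 : ∑ b ∈ Y.P M, lam hw e ψ' r (fun i => up hMd (b i)) =
        ∑ b ∈ Y.P M, lam (prim_div hMd hw) (eup hMd e) ψ' r b :=
      sum_congr rfl fun b _ => lam_up hMd hw e ψ' r b
    refine h4.trans (h3.trans ?_)
    rw [← sum_coe_sort (R ⟨M, hMm⟩)]
    refine sum_congr rfl fun b _ => ?_
    exact (sum_HD (c ⟨M, hMm⟩) (φ ⟨M, hMm⟩) (D ⟨⟨M, hMm⟩, b⟩) p (hp2 _) hM1 F hF
      (prim_div hMd hw) (eup_inj hMd he) hψ').symm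

end

end Pool.Agent.L0h11
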