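import Mathlib
import Pool.Agent.L0h11.Sy
import Pool.Agent.L0h11.Sh
import Pool.Agent.L0h11.Dp

/-!
# Products of diagonal hypersurfaces
-/

set_option autoImplicit false
set_option linter.unusedSectionVars false

namespace Pool.Agent.L0h11

open Finset NumberField IsDedekindDomain Filter Topology
open Pool.Agent.H916K (RationalClass)

/-- Weil's formula for the trace on the primitive cohomology -/
lemma prim_gen {F : Type} [Field F] [Fintype F] {m N : ℕ} (hm : 0 < m) (hN2 : 2 ≤ N)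
    (c : Fin N → ℤ) {d : ℕ} [NeZero d] (hd : d = Nat.gcd m (Fintype.card F - 1))
    {w : F} (hw : IsPrimitiveRoot w d) {e : AddChar (ZMod d) ℂ} (he : ∀ i, e i = 1 → i = 0)
    {ψ : AddChar F ℂ} (hψ : ψ.IsPrimitive) (hc : ∀ i, (c i : F) ≠ 0) :
    (((-1) ^ N * ((points m c F : ℝ) - ∑ i ∈ Finset.range (N - 1), (Nat.card F : ℝ) ^ i) : ℝ) : ℂ) =
      (Real.sqrt (Fintype.card F) : ℂ) ^ (N - 2) * ∑ b ∈ LL d N, lam hw e ψ c b := by
  classical
  obtain ⟨n, rfl⟩ : ∃ n, N = n + 2 := ⟨N - 2, by omega⟩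
  have h1 := cone_eq hm hd hw he hψ c hc
  set g : ℂ := (Real.sqrt (Fintype.card F) : ℂ) with hg
  have hg2 : g * g = (Fintype.card F : ℂ) := sqrt_mul
  have h2 : ∑ b ∈ (Fintype.piFinset fun _ : Fin (n + 2) =>
        (univ : Finset (ZMod d)).erase 0).filter fun b => ∑ i, b i = 0,
        ∏ i, (ch hw e (-(b i)) (c i : F) * gaussSum (ch hw e (b i)) ψ) =
      (-g) ^ (n + 2) * ∑ b ∈ LL d (n + 2), lam hw e ψ c b := by
    rw [mul_sum]
    refine Finset.sum_congr rfl fun b hb => ?_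
    have h0 := lam_eq' hw e ψ c b ((mem_LL b).1 hb).1
    rwa [Fintype.card_fin] at h0
  rw [h2, Fintype.card_fin] at h1
  have h3 := points_eq hm c (F := F)
  have h3' : (cone m c F : ℂ) - 1 = (points m c F : ℂ) * ((Fintype.card F : ℂ) - 1) := by
    have := congrArg (fun x : ℝ => (x : ℂ)) h3
    push_cast at this
    exact this
  set T := ∑ b ∈ LL d (n + 2), lam hw e ψ c b with hT
  push_cast
  rw [Nat.card_eq_fintype_card]
  set q : ℂ := (Fintype.card F : ℂ) with hq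
  have hq0 : q ≠ 0 := by
    rw [hq]
    exact_mod_cast Fintype.card_ne_zero
  have hq1 : q - 1 ≠ 0 := by
    rw [hq, sub_ne_zero]
    have := Fintype.one_lt_card (α := F)
    exact_mod_cast this.ne'
  rw [geom_sum_eq (sub_ne_zero.1 hq1)]
  have h5 : (points m c F : ℂ) = ((cone m c F : ℂ) - 1) / (q - 1) := by
    rw [h3']
    field_simp
  have h6 : (cone m c F : ℂ) = q ^ (n + 1) + (q - 1) * ((-1) ^ (n + 2) * g ^ n * T) := by
    apply mul_left_cancel₀ hq0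
    rw [h1]
    have h7 : (-g) ^ (n + 2) = (-1) ^ (n + 2) * (g ^ n * q) := by
      rw [neg_pow, pow_add g, pow_two g, hg2]
    rw [h7]
    ring
  rw [h5, h6]
  have h8 : ((-1 : ℂ) ^ (n + 2)) * ((-1 : ℂ) ^ (n + 2)) = 1 := by
    rw [← mul_pow]
    norm_num
  have h9 : (q ^ (n + 1) + (q - 1) * ((-1) ^ (n + 2) * g ^ n * T) - 1) / (q - 1) -
      (q ^ (n + 1) - 1) / (q - 1) = (-1) ^ (n + 2) * g ^ n * T := by
    field_simp
    ring
  rw [h9]
  linear_combination g ^ n * T * h8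

namespace DiagProduct

variable (X : DiagProduct)

lemma lcm_pos : 0 < X.lcm := by
  unfold DiagProduct.lcm
  rw [Nat.pos_iff_ne_zero, Ne, Finset.lcm_eq_zero_iff]
  rintro ⟨j, -, hj⟩
  exact (X.m_pos j).ne' hj

lemma m_dvd (j : Fin X.r) : X.m j ∣ X.lcm := Finset.dvd_lcm (mem_univ j)

/-- the system of lines of the set `J` of factors -/
def sys (J : Finset (Fin X.r)) : Sys (X.Idx J) where
  A M b := (∀ x, b x ≠ 0) ∧ (∀ j : {j // j ∈ J}, ∑ i, b ⟨j, i⟩ = 0) ∧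
    ∀ x : X.Idx J, (X.m x.1.1 : ZMod M) * b x = 0
  nz M b h := h.1
  sum M b h := by
    rw [Fintype.sum_sigma]
    exact Finset.sum_eq_zero fun j _ => h.2.1 j
  lvl M d _ _ h b := by
    have e1 : (∀ x, up h (b x) ≠ 0) ↔ ∀ x, b x ≠ 0 :=
      forall_congr' fun x => (up_eq_zero h).not
    have e2 : (∀ j : {j // j ∈ J}, ∑ i, up h (b ⟨j, i⟩) = 0) ↔
        ∀ j : {j // j ∈ J}, ∑ i, b ⟨j, i⟩ = 0 :=
      forall_congr' fun j => by rw [← map_sum, up_eq_zero]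
    have e3 : (∀ x : X.Idx J, (X.m x.1.1 : ZMod d) * up h (b x) = 0) ↔
        ∀ x : X.Idx J, (X.m x.1.1 : ZMod M) * b x = 0 :=
      forall_congr' fun x => by
        rw [← nsmul_eq_mul, ← map_nsmul, up_eq_zero, nsmul_eq_mul]
    rw [e1, e2, e3]
  unit M t b h := by
    refine ⟨fun x hx => h.1 x ((Units.mul_right_eq_zero t).1 hx), fun j => ?_, fun x => ?_⟩
    · unfold tb
      rw [← mul_sum, h.2.1 j, mul_zero]
    · unfold tb
      rw [mul_left_comm, h.2.2 x, mul_zero]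

lemma isLine_iff {J : Finset (Fin X.r)} {M : ℕ} (b : X.Idx J → ZMod M) :
    X.IsLine J M b ↔ (X.sys J).A M b ∧ IsPrm M b := Iff.rfl

/-- the coefficients -/
def co (J : Finset (Fin X.r)) : X.Idx J → ℤ := fun x => X.c x.1.1 x.2

lemma pairs_eq {J : Finset (Fin X.r)} {M : ℕ} (b : X.Idx J → ZMod M) :
    X.pairs b = prs (X.co J) b := rfl

/-- the multiplicities vanish in odd degree -/
lemma even_of_mult {J : Finset (Fin X.r)} {k : ℕ} (h : X.mult J k ≠ 0) :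
    Even (Fintype.card (X.Idx J)) := by
  classical
  unfold mult at h
  rw [prod_pow_eq_pow_sum] at h
  have h1 : (∏ j ∈ Finset.univ \ J, ∑ i ∈ Finset.range (X.N j - 1),
      (Polynomial.X : Polynomial ℕ) ^ (2 * i)) =
      Polynomial.expand ℕ 2 (∏ j ∈ Finset.univ \ J, ∑ i ∈ Finset.range (X.N j - 1),
        (Polynomial.X : Polynomial ℕ) ^ i) := by
    rw [map_prod]
    refine prod_congr rfl fun j _ => ?_
    rw [map_sum]
    refine Finset.sum_congr rfl fun i _ => ?_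
    rw [map_pow, Polynomial.expand_X, pow_mul]
  rw [h1, mul_comm, Polynomial.coeff_mul_X_pow'] at h
  split_ifs at h with h2
  · rw [Polynomial.coeff_expand (by norm_num)] at h
    split_ifs at h with h3
    · have h4 : Fintype.card (X.Idx J) = ∑ j ∈ J, X.N j := by
        rw [Fintype.card_sigma, ← sum_coe_sort J]
        exact Finset.sum_congr rfl fun j _ => Fintype.card_fin _
      have h5 : ∑ j ∈ J, X.N j = ∑ j ∈ J, (X.N j - 2) + 2 * J.card := by
        rw [card_eq_sum_ones, mul_sum, ← sum_add_distrib]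
        refine Finset.sum_congr rfl fun j _ => ?_
        have := X.N_two j
        omega
      rw [h4, h5, Nat.even_iff]
      omega
    · exact absurd rfl h
  · exact absurd rfl h

section local_

variable {F : Type} [Field F] [Fintype F]

/-- the lines of one factor -/
noncomputable def L1 (j : Fin X.r) (d : ℕ) [NeZero d] : Finset (Fin (X.N j) → ZMod d) := by
  classical
  exact univ.filter fun b => (∀ i, b i ≠ 0) ∧ ∑ i, b i = 0 ∧ ∀ i, (X.m j : ZMod d) * b i = 0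

lemma mem_L1 (j : Fin X.r) {d : ℕ} [NeZero d] (b : Fin (X.N j) → ZMod d) :
    b ∈ X.L1 j d ↔ (∀ i, b i ≠ 0) ∧ ∑ i, b i = 0 ∧ ∀ i, (X.m j : ZMod d) * b i = 0 := by
  classical
  unfold L1
  rw [mem_filter]
  simp

lemma prim_eq1 (j : Fin X.r) {d : ℕ} [NeZero d] (hd : d = Nat.gcd (X.m j) (Fintype.card F - 1))
    {w : F} (hw : IsPrimitiveRoot w d) {e : AddChar (ZMod d) ℂ} (he : ∀ i, e i = 1 → i = 0)
    {ψ : AddChar F ℂ} (hψ : ψ.IsPrimitive) (hc : ∀ i, (X.c j i : F) ≠ 0) :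
    ((X.primTrace j F : ℝ) : ℂ) = (Real.sqrt (Fintype.card F) : ℂ) ^ (X.N j - 2) *
      ∑ b ∈ LL d (X.N j), lam hw e ψ (X.c j) b := by
  obtain ⟨n, hn⟩ : ∃ n, X.N j = n + 2 := ⟨X.N j - 2, by have := X.N_two j; omega⟩
  unfold primTrace
  exact prim_gen (X.m_pos j) (X.N_two j) (X.c j) hd hw he hψ hc

/-- the primitive trace in terms of the lines of a higher level -/
lemma prim_eq (j : Fin X.r) {m d : ℕ} [NeZero d] (hjm : X.m j ∣ m)
    (hd : d = Nat.gcd m (Fintype.card F - 1)) {w : F} (hw : IsPrimitiveRoot w d)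
    {e : AddChar (ZMod d) ℂ} (he : ∀ i, e i = 1 → i = 0)
    {ψ : AddChar F ℂ} (hψ : ψ.IsPrimitive) (hc : ∀ i, (X.c j i : F) ≠ 0) :
    ((X.primTrace j F : ℝ) : ℂ) = (Real.sqrt (Fintype.card F) : ℂ) ^ (X.N j - 2) *
      ∑ b ∈ X.L1 j d, lam hw e ψ (X.c j) b := by
  classical
  set d' := Nat.gcd (X.m j) (Fintype.card F - 1) with hd'
  have hd'd : d' ∣ d := by
    rw [hd]
    exact Nat.dvd_gcd ((Nat.gcd_dvd_left _ _).trans hjm) (Nat.gcd_dvd_right _ _)
  have : NeZero d' := ⟨(Nat.gcd_pos_of_pos_left _ (X.m_pos j)).ne'⟩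
  rw [X.prim_eq1 j hd' (prim_div hd'd hw) (eup_inj hd'd he) hψ hc]
  congr 1
  refine Finset.sum_nbij (fun b i => up hd'd (b i)) ?_ ?_ ?_ ?_
  · intro b hb
    rw [mem_LL] at hb
    rw [mem_L1]
    refine ⟨fun i => (up_eq_zero hd'd).not.2 (hb.1 i), ?_, fun i => ?_⟩
    · rw [← map_sum, hb.2, map_zero]
    · rw [← nsmul_eq_mul, ← map_nsmul, up_eq_zero, nsmul_eq_mul,
        (ZMod.natCast_eq_zero_iff _ _).2 (Nat.gcd_dvd_left _ _), zero_mul]
  · intro b _ b' _ h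
    funext i
    exact up_inj hd'd (congrFun h i)
  · intro b hb
    rw [mem_coe, mem_L1] at hb
    have h2 : ∀ i, ∃ a, up hd'd a = b i := by
      intro i
      apply up_range
      have h3 : Nat.gcd (X.m j) d = d' := by
        rw [hd, hd', ← Nat.gcd_assoc, Nat.gcd_eq_left hjm]
      have h4 : ((d' : ℕ) : ZMod d) * b i = 0 := by
        have h5 := Nat.gcd_eq_gcd_ab (X.m j) d
        have h6 := congrArg (fun x : ℤ => (x : ZMod d)) h5
        push_cast at h6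
        rw [ZMod.natCast_self, zero_mul, add_zero, h3] at h6
        rw [h6, mul_right_comm, hb.2.2 i, zero_mul]
      exact h4
    choose a ha using h2
    refine ⟨a, ?_, funext ha⟩
    rw [mem_coe, mem_LL]
    refine ⟨fun i h => hb.1 i ?_, ?_⟩
    · rw [← ha i, h, map_zero]
    · apply up_inj hd'd
      rw [map_sum, map_zero, ← hb.2.1]
      exact Finset.sum_congr rfl fun i _ => ha i
  · intro b _
    exact (lam_up hd'd hw e ψ (X.c j) b).symm

/-- the product over the factors in `J` -/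
lemma prod_L1 (J : Finset (Fin X.r)) {d : ℕ} [NeZero d] {w : F} (hw : IsPrimitiveRoot w d)
    (e : AddChar (ZMod d) ℂ) (ψ : AddChar F ℂ) :
    ∏ j ∈ J, ∑ b ∈ X.L1 j d, lam hw e ψ (X.c j) b =
      ∑ b ∈ (X.sys J).L d, lam hw e ψ (X.co J) b := by
  classical
  rw [← prod_coe_sort J, prod_univ_sum]
  refine Finset.sum_nbij' (fun f x => f x.1 x.2) (fun b j i => b ⟨j, i⟩) ?_ ?_ ?_ ?_ ?_
  · intro f hf
    rw [Fintype.mem_piFinset] at hf
    rw [Sys.mem_L]
    refine ⟨fun x => ?_, fun j => ?_, fun x => ?_⟩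
    · exact ((X.mem_L1 x.1.1 _).1 (hf x.1)).1 x.2
    · exact ((X.mem_L1 j.1 _).1 (hf j)).2.1
    · exact ((X.mem_L1 x.1.1 _).1 (hf x.1)).2.2 x.2
  · intro b hb
    rw [Sys.mem_L] at hb
    rw [Fintype.mem_piFinset]
    intro j
    rw [mem_L1]
    exact ⟨fun i => hb.1 ⟨j, i⟩, hb.2.1 j, fun i => hb.2.2 ⟨j, i⟩⟩
  · intro f _
    rfl
  · intro b _
    rfl
  · intro f _
    unfold lam
    rw [Fintype.prod_sigma]
    rfl

/-- the expansion of the trace on `H ^ (2 * k)` -/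
lemma trace_expand (k : ℕ) (u : Fin X.r → ℂ) (hu : ∀ j, ((X.primTrace j F : ℝ) : ℂ) =
      (Real.sqrt (Fintype.card F) : ℂ) ^ (X.N j - 2) * u j) :
    ((X.trace k F : ℝ) : ℂ) = (Fintype.card F : ℂ) ^ k *
      ∑ J ∈ (univ : Finset (Fin X.r)).powerset, (X.mult J k : ℂ) * ∏ j ∈ J, u j := by
  classical
  set g : ℂ := (Real.sqrt (Fintype.card F) : ℂ) with hg
  have hg2 : g * g = (Fintype.card F : ℂ) := sqrt_mul
  let Q : Fin X.r → Polynomial ℂ := fun j => Polynomial.C (u j) * Polynomial.X ^ (X.N j - 2) +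
    ∑ i ∈ Finset.range (X.N j - 1), Polynomial.X ^ (2 * i)
  have h1 : ∀ j, (X.tracePoly j F).map Complex.ofRealHom =
      (Q j).comp (Polynomial.C g * Polynomial.X) := by
    intro j
    unfold tracePoly
    simp only [Q, Polynomial.map_add, Polynomial.map_mul, Polynomial.map_C, Polynomial.map_pow,
      Polynomial.map_X, Polynomial.add_comp, Polynomial.mul_comp, Polynomial.C_comp,
      Polynomial.pow_comp, Polynomial.X_comp, Polynomial.map_sum, Polynomial.sum_comp,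
      Complex.ofRealHom_eq_coe, mul_pow]
    rw [add_comm]
    congr 1
    · rw [hu j, ← Polynomial.C_pow, Polynomial.C_mul]
      ring
    · refine Finset.sum_congr rfl fun i _ => ?_
      congr 1
      rw [← Polynomial.C_pow]
      congr 1
      rw [Nat.card_eq_fintype_card, pow_mul, pow_two, hg2]
      push_cast
      rfl
  have h2 : (∏ j, X.tracePoly j F).map Complex.ofRealHom =
      (∏ j, Q j).comp (Polynomial.C g * Polynomial.X) := by
    rw [Polynomial.map_prod, prod_congr rfl fun j _ => h1 j, Polynomial.prod_comp]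
  unfold trace
  have h3 : (((∏ j, X.tracePoly j F).coeff (2 * k) : ℝ) : ℂ) =
      ((∏ j, X.tracePoly j F).map Complex.ofRealHom).coeff (2 * k) := by
    rw [Polynomial.coeff_map]
    rfl
  rw [h3, h2, Polynomial.comp_C_mul_X_coeff, pow_mul, pow_two, hg2, mul_comm]
  congr 1
  simp only [Q]
  rw [prod_add, Polynomial.finsetSum_coeff]
  refine Finset.sum_congr rfl fun J _ => ?_
  rw [prod_mul_distrib, ← map_prod, mul_assoc, Polynomial.coeff_C_mul, mul_comm]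
  congr 1
  unfold mult
  have h4 : ((∏ j ∈ J, (Polynomial.X : Polynomial ℂ) ^ (X.N j - 2)) *
      ∏ j ∈ Finset.univ \ J, ∑ i ∈ Finset.range (X.N j - 1), Polynomial.X ^ (2 * i)) =
      ((∏ j ∈ J, (Polynomial.X : Polynomial ℕ) ^ (X.N j - 2)) *
      ∏ j ∈ Finset.univ \ J, ∑ i ∈ Finset.range (X.N j - 1), Polynomial.X ^ (2 * i)).map
        (Nat.castRingHom ℂ) := by
    simp [Polynomial.map_mul, Polynomial.map_prod, Polynomial.map_sum]
  rw [h4, Polynomial.coeff_map]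
  rfl

end local_

attribute [local instance] SD.ft SD.iF SD.iN

/-- the constant -/
noncomputable def bnd (k : ℕ) : ℝ := ∑ J ∈ (univ : Finset (Fin X.r)).powerset,
  (X.mult J k : ℝ) * ∏ j ∈ J, ((X.lcm : ℝ) ^ (X.N j))

/-- the choice of the roots of unity and characters -/
lemma exists_wep (F : Type) [Field F] [Fintype F] {m : ℕ} (hm : 0 < m) :
    ∃ (d : ℕ) (_ : NeZero d) (w : F) (_ : IsPrimitiveRoot w d) (e : AddChar (ZMod d) ℂ)
      (ψ : AddChar F ℂ), d = Nat.gcd m (Fintype.card F - 1) ∧ (∀ i, e i = 1 → i = 0) ∧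
        ψ.IsPrimitive := by
  have hpos : 0 < Nat.gcd m (Fintype.card F - 1) := Nat.gcd_pos_of_pos_left _ hm
  have : NeZero (Nat.gcd m (Fintype.card F - 1)) := ⟨hpos.ne'⟩
  obtain ⟨w, hw⟩ := exists_w (F := F) (Nat.gcd_dvd_right m (Fintype.card F - 1))
  obtain ⟨ζ, hζ⟩ : ∃ ζ : ℂ, IsPrimitiveRoot ζ (Nat.gcd m (Fintype.card F - 1)) :=
    ⟨_, Complex.isPrimitiveRoot_exp _ hpos.ne'⟩
  obtain ⟨ψ, hψ⟩ := psi_prim (F := F)
  refine ⟨_, this, w, hw, AddChar.zmodChar _ hζ.pow_eq_one, ψ, rfl, ?_, hψ⟩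
  intro i hi
  rw [AddChar.zmodChar_apply] at hi
  have h1 := hζ.dvd_of_pow_eq_one _ hi
  exact (ZMod.val_eq_zero i).1 (Nat.eq_zero_of_dvd_of_lt h1 (ZMod.val_lt i))

lemma trace_bound (k : ℕ) {F : Type} [Field F] [Fintype F] (hc : ∀ j i, (X.c j i : F) ≠ 0) :
    ‖((X.trace k F : ℝ) : ℂ)‖ ≤ X.bnd k * (Fintype.card F : ℝ) ^ k := by
  classical
  obtain ⟨d, _, w, hw, e, ψ, hd, he, hψ⟩ := exists_wep F X.lcm_pos
  rw [X.trace_expand k (fun j => ∑ b ∈ X.L1 j d, lam hw e ψ (X.c j) b)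
    (fun j => X.prim_eq j (X.m_dvd j) hd hw he hψ (hc j)), norm_mul, norm_pow,
    Complex.norm_natCast, mul_comm]
  refine mul_le_mul_of_nonneg_right ?_ (by positivity)
  unfold bnd
  refine (norm_sum_le _ _).trans (Finset.sum_le_sum fun J _ => ?_)
  rw [norm_mul, Complex.norm_natCast, _root_.norm_prod]
  refine mul_le_mul_of_nonneg_left (prod_le_prod (fun j _ => norm_nonneg _) fun j _ => ?_)
    (Nat.cast_nonneg _)
  refine (norm_sum_le _ _).trans ?_
  refine (Finset.sum_le_sum fun b _ => norm_lam_le hw he hψ (X.c j) b).trans ?_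
  rw [sum_const, nsmul_eq_mul, mul_one]
  have h3 : (X.L1 j d).card ≤ d ^ (X.N j) := by
    refine (card_le_univ _).trans ?_
    rw [Fintype.card_fun, ZMod.card, Fintype.card_fin]
  have h4 : d ^ (X.N j) ≤ X.lcm ^ (X.N j) := by
    apply Nat.pow_le_pow_left
    rw [hd]
    exact Nat.le_of_dvd X.lcm_pos (Nat.gcd_dvd_left _ _)
  exact_mod_cast h3.trans h4

/-- the normalised traces -/
noncomputable def nt (k : ℕ) (p : Nat.Primes) (l : ℕ) : ℂ :=
  (X.trace k (GaloisField p l) : ℂ) / (((p : ℕ) : ℂ) ^ l) ^ k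

lemma nt_bound (k : ℕ) (p : Nat.Primes) (hp : ∀ j i, ¬ ((p : ℕ) : ℤ) ∣ X.c j i) {l : ℕ}
    (hl : 1 ≤ l) : ‖X.nt k p l‖ ≤ X.bnd k := by
  have : Fintype (GaloisField p l) := Fintype.ofFinite _
  unfold nt
  have h1 := X.trace_bound (F := GaloisField p l) k (fun j i => GF_ne p l (hp j i))
  rw [GF_card p (by omega)] at h1
  rw [norm_div, norm_pow, norm_pow, Complex.norm_natCast]
  have h2 : (0 : ℝ) < (((p : ℕ) : ℝ) ^ l) ^ k := by
    have : (0 : ℝ) < ((p : ℕ) : ℝ) := by exact_mod_cast p.2.pos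
    positivity
  rw [div_le_iff₀ h2]
  push_cast at h1
  exact h1

lemma sum_mult {A : Type} [AddCommMonoid A] (k : ℕ) (f : Finset (Fin X.r) → A)
    (hf : ∀ J, X.mult J k = 0 → f J = 0) :
    ∑ J ∈ (univ : Finset (Fin X.r)).powerset, f J =
      ∑ J : {J : Finset (Fin X.r) // X.mult J k ≠ 0}, f J.1 := by
  classical
  rw [powerset_univ, ← Finset.sum_subtype (univ.filter fun J => X.mult J k ≠ 0) (by simp) f]
  symm
  apply Finset.sum_subset (filter_subset _ _)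
  intro J _ hJ
  rw [mem_filter, not_and] at hJ
  by_contra hne
  exact hJ (mem_univ _) (fun h => hne (hf J h))

/-- the order of the pole for the normalised Euler product -/
theorem core_prod (k : ℕ) (S : Finset ℕ) (hS : ∀ p : Nat.Primes, (p : ℕ) ∉ S → ¬ X.Bad p) :
    ∃ S' : Finset ℕ, S ⊆ S' ∧
    (∀ z : ℂ, 1 < z.re → Multipliable fun p : Nat.Primes =>
      if (p : ℕ) ∈ S' then (1 : ℂ) else Complex.exp (TT (X.nt k p) (((p : ℕ) : ℂ) ^ (-z)))) ∧
    ∃ G : ℂ → ℂ, AnalyticAt ℂ G 1 ∧ G 1 ≠ 0 ∧ ∀ᶠ z : ℂ in 𝓝 1, 1 < z.re →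
      (∏' p : Nat.Primes, if (p : ℕ) ∈ S' then (1 : ℂ) else
        Complex.exp (TT (X.nt k p) (((p : ℕ) : ℂ) ^ (-z)))) * (z - 1) ^ (X.rho k) = G z := by
  classical
  let Jt := {J : Finset (Fin X.r) // X.mult J k ≠ 0}
  have e1 : ∀ J : Jt, Nonempty (SD (X.sys J.1) X.lcm (X.co J.1)) := fun J =>
    (X.sys J.1).exists_SD X.lcm_pos (X.even_of_mult J.2) (X.co J.1) (fun x => X.c_ne _ _)
  obtain ⟨D⟩ : Nonempty (∀ J : Jt, SD (X.sys J.1) X.lcm (X.co J.1)) := ⟨fun J => (e1 J).some⟩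
  let κ := Σ J : Jt, Fin (X.mult J.1 k) × (D J).κ
  let S' : Finset ℕ := S ∪ (univ : Finset Jt).biUnion fun J => (D J).S
  have hS' : ∀ p : Nat.Primes, (p : ℕ) ∉ S' → (p : ℕ) ∉ S ∧ ∀ J : Jt, (p : ℕ) ∉ (D J).S := by
    intro p hp
    rw [mem_union, not_or] at hp
    refine ⟨hp.1, fun x hx => hp.2 ?_⟩
    rw [mem_biUnion]
    exact ⟨x, mem_univ _, hx⟩
  refine ⟨S', subset_union_left, ?_⟩
  let rr : κ → ℕ := fun x => (D x.1).r x.2.2
  have hrr : 0 + ∑ x, rr x = X.rho k := by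
    rw [zero_add, Fintype.sum_sigma]
    unfold rho
    rw [X.sum_mult k (fun J => X.mult J k * ∑ M ∈ X.lcm.divisors, Nat.card {b : X.Idx J → ZMod M //
      X.IsLine J M b ∧ RationalClass M (X.pairs b)} / M.totient) (fun J h => by rw [h, zero_mul])]
    refine Finset.sum_congr rfl fun J _ => ?_
    rw [Fintype.sum_prod_type]
    have h1 : ∀ i : Fin (X.mult J.1 k), ∑ y, rr ⟨J, (i, y)⟩ = (X.sys J.1).cnt X.lcm (X.co J.1) :=
      fun i => (D J).cnt
    rw [Finset.sum_congr rfl fun i _ => h1 i, sum_const, card_univ, Fintype.card_fin, smul_eq_mul]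
    rfl
  have hmain := core (K := fun x : κ => (D x.1).K x.2.2) (ψ := fun x => (D x.1).ψ x.2.2)
    (X.nt k) S' 0 (fun x => (D x.1).hk x.2.2) rr (fun x => (D x.1).hr x.2.2) (C := X.bnd k) ?_ ?_
  · rw [hrr] at hmain
    exact hmain
  · intro p hp l hl
    exact X.nt_bound k p (fun j i h => hS p (hS' p hp).1 ⟨j, Or.inr ⟨i, h⟩⟩) hl
  · intro p hp
    obtain ⟨hp1, hp2⟩ := hS' p hp
    let _ : Fintype (GaloisField p 1) := Fintype.ofFinite _
    have hcard : Fintype.card (GaloisField p 1) = p := by rw [GF_card p one_ne_zero, pow_one]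
    obtain ⟨d, _, w, hw, e, ψ, hd, he, hψ⟩ := exists_wep (GaloisField p 1) X.lcm_pos
    have hgood : ∀ j i, (X.c j i : GaloisField p 1) ≠ 0 := fun j i =>
      GF_ne p 1 (fun h => hS p hp1 ⟨j, Or.inr ⟨i, h⟩⟩)
    unfold nt
    rw [X.trace_expand k (fun j => ∑ b ∈ X.L1 j d, lam hw e ψ (X.c j) b)
      (fun j => X.prim_eq j (X.m_dvd j) hd hw he hψ (hgood j)), hcard, pow_one,
      mul_div_cancel_left₀ _ (pow_ne_zero _ (by exact_mod_cast p.2.ne_zero)), Nat.cast_zero,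
      zero_add, X.sum_mult k _ (fun J h => by rw [h, Nat.cast_zero, zero_mul]),
      Fintype.sum_sigma]
    refine Finset.sum_congr rfl fun J _ => ?_
    have h1 := (D J).val p (hp2 J) (GaloisField p 1) hcard d hd w hw e he ψ hψ
    have h2 : ∀ i : Fin (X.mult J.1 k), ∑ y : (D J).κ,
        ∑ 𝔭 ∈ (ov ((D J).K y) p).filter (fun 𝔭 => Ideal.absNorm 𝔭 = p), (D J).ψ y 𝔭 =
        ∑ b ∈ (X.sys J.1).L d, lam hw e ψ (X.co J.1) b := fun i => h1.symm
    rw [X.prod_L1 J.1 hw e ψ]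
    refine Eq.trans ?_ (Fintype.sum_prod_type _).symm
    refine Eq.trans ?_ (Finset.sum_congr rfl fun i _ => h2 i).symm
    rw [sum_const, card_univ, Fintype.card_fin, nsmul_eq_mul]

lemma cpow_shift' (p : Nat.Primes) (n k : ℕ) (s : ℂ) :
    ((p : ℕ) : ℂ) ^ (-(((k + 1 : ℕ) : ℂ) * s)) * ((((p : ℕ) : ℂ) ^ (k + 1)) ^ n) =
      (((p : ℕ) : ℂ) ^ (-(s - (n : ℂ)))) ^ (k + 1) := by
  have hp : ((p : ℕ) : ℂ) ≠ 0 := by exact_mod_cast p.2.ne_zero
  rw [← Complex.cpow_nat_mul, ← pow_mul, ← Complex.cpow_natCast, ← Complex.cpow_add _ _ hp]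
  congr 1
  push_cast
  ring

lemma term_eq (k : ℕ) (p : Nat.Primes) (s : ℂ) (l : ℕ) :
    (X.trace k (GaloisField p (l + 1)) : ℂ) *
      ((p : ℕ) : ℂ) ^ (-(((l + 1 : ℕ) : ℂ) * s)) / ((l + 1 : ℕ) : ℂ) =
    X.nt k p (l + 1) * (((p : ℕ) : ℂ) ^ (-(s - (k : ℂ)))) ^ (l + 1) /
      ((l + 1 : ℕ) : ℂ) := by
  have hp : ((p : ℕ) : ℂ) ≠ 0 := by exact_mod_cast p.2.ne_zero
  rw [← cpow_shift']
  unfold nt
  have h1 : (((p : ℕ) : ℂ) ^ (l + 1)) ^ k ≠ 0 := pow_ne_zero _ (pow_ne_zero _ hp)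
  field_simp

/-- **The poles of the L-functions of a product of diagonal hypersurfaces.** -/
theorem pole (k : ℕ) (S : Finset Nat.Primes) (hS : ∀ p, X.Bad p → p ∈ S)
    (P : Nat.Primes → Polynomial ℂ)
    (hP : ∀ p ∈ S, (P p).eval (((p : ℕ) : ℂ) ^ (-((k + 1 : ℕ) : ℂ))) ≠ 0) :
    (∀ p ∉ S, ∀ s : ℂ, ((k + 1 : ℕ) : ℝ) < s.re → Summable fun l : ℕ =>
      (X.trace k (GaloisField p (l + 1)) : ℂ) *
        ((p : ℕ) : ℂ) ^ (-(((l + 1 : ℕ) : ℂ) * s)) / ((l + 1 : ℕ) : ℂ)) ∧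
    (∀ s : ℂ, ((k + 1 : ℕ) : ℝ) < s.re → Multipliable fun p : Nat.Primes =>
      if p ∈ S then ((P p).eval (((p : ℕ) : ℂ) ^ (-s)))⁻¹ else X.localFactor k p s) ∧
    ∃ G : ℂ → ℂ, AnalyticAt ℂ G ((k + 1 : ℕ) : ℂ) ∧ G ((k + 1 : ℕ) : ℂ) ≠ 0 ∧
      ∀ᶠ s : ℂ in 𝓝 ((k + 1 : ℕ) : ℂ), ((k + 1 : ℕ) : ℝ) < s.re →
        X.LFunction k S P s * (s - ((k + 1 : ℕ) : ℂ)) ^ (X.rho k) = G s := by
  classical
  set S0 : Finset ℕ := S.image (fun p : Nat.Primes => (p : ℕ)) with hS0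
  have hmem0 : ∀ p : Nat.Primes, (p : ℕ) ∈ S0 ↔ p ∈ S := by
    intro p
    rw [hS0, mem_image]
    constructor
    · rintro ⟨p', h1, h2⟩
      have h3 : p' = p := Subtype.ext h2
      rwa [← h3]
    · intro h
      exact ⟨p, h, rfl⟩
  obtain ⟨S', hSS, hmul, G, hG, hG1, hGL⟩ := X.core_prod k S0
    (fun p hp h => hp ((hmem0 p).2 (hS p h)))
  have hC : ∀ p ∉ S, ∀ l, 1 ≤ l → ‖X.nt k p l‖ ≤ X.bnd k := fun p hp l hl =>
    X.nt_bound k p (fun j i h => hp (hS p ⟨j, Or.inr ⟨i, h⟩⟩)) hl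
  obtain ⟨h1, h2⟩ := shift (τ := X.nt k) hC (fun p hp => hSS ((hmem0 p).2 hp)) hmul hG hG1 hGL k P
    hP (X.localFactor k) (fun p _ s => by
      unfold localFactor TT
      congr 1
      exact tsum_congr fun l => X.term_eq k p s l)
  refine ⟨?_, h1, h2⟩
  intro p hp s hs
  have hs' : 3 / 4 ≤ (s - (k : ℂ)).re := by
    rw [Complex.sub_re, Complex.natCast_re]
    push_cast at hs
    linarith
  have h3 := TT_summable (hC p hp) (x := ((p : ℕ) : ℂ) ^ (-(s - (k : ℂ))))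
    (lt_of_le_of_lt ((norm_p p hs').trans (par_le p.2.two_le)) (by norm_num))
  exact h3.congr fun l => (X.term_eq k p s l).symm

end DiagProduct

end Pool.Agent.L0h11
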