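import Mathlib
import Pool.Agent.L0h11.Prd
import Pool.Agent.L0h11.Alg

/-!
# Rational lines on products are algebraic
-/

set_option autoImplicit false
set_option linter.unusedSectionVars false

namespace Pool.Agent.L0h11

open Finset
open Pool.Agent.H916K (RationalClass hodge_of_rational)
open Pool.Agent.H916R2 (Generated IsHodge GoodDegree SurfaceCharacter)
open Pool.Agent.Results.MP_058a58_ag.DiagonalPole (PoleDegree)

/-- rational lines are algebraic in the good degrees -/
theorem gen_of_rational {M m : ℕ} {ι : Type} [Fintype ι] (hm : 0 < m) (hMm : M ∣ m)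
    (hN : Even (Fintype.card ι)) (hne : 0 < Fintype.card ι) (hcov : GoodDegree m ∨ PoleDegree m)
    (r : ι → ℤ) (hr : ∀ i, r i ≠ 0) (b : ι → ZMod M) (hb0 : ∀ i, b i ≠ 0) (hbs : ∑ i, b i = 0)
    (h : RationalClass M (prs r b)) : Generated m (SurfaceCharacter m)
      (univ.val.map fun i => ((m / M * (b i).val : ℕ) : ZMod m)) := by
  have hM0 : 0 < M := Nat.pos_of_dvd_of_pos hMm hm
  have : NeZero M := ⟨hM0.ne'⟩
  have : NeZero m := ⟨hm.ne'⟩
  have h1 := rational_up hMm hN hr hb0 hbs h
  set a : ι → ZMod m := fun i => up hMm (b i) with ha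
  have ha0 : ∀ i, a i ≠ 0 := fun i hi => hb0 i ((up_eq_zero hMm).1 hi)
  have hasum : ∑ i, a i = 0 := by
    rw [ha, ← map_sum, hbs, map_zero]
  have haval : ∀ i, a i = ((m / M * (b i).val : ℕ) : ZMod m) := by
    intro i
    rw [ha]
    simp only
    rw [up_apply, Nat.cast_mul, mul_comm]
  obtain ⟨i0⟩ : Nonempty ι := Fintype.card_pos_iff.1 hne
  have hm2 : 2 ≤ m := by
    by_contra hlt
    have hm1 : m = 1 := by omega
    subst hm1
    exact ha0 i0 (Subsingleton.elim _ _)
  have hz0 : ∀ z ∈ prs r a, z.1 ≠ 0 ∧ z.2 ≠ 0 := by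
    intro z hz
    unfold prs at hz
    obtain ⟨i, -, rfl⟩ := Multiset.mem_map.1 hz
    exact ⟨ha0 i, hr i⟩
  have hcard := card_prs r a
  have hfst : (prs r a).map Prod.fst = univ.val.map a := by
    unfold prs
    rw [Multiset.map_map]
    rfl
  have hsum : ((prs r a).map Prod.fst).sum = 0 := by
    rw [hfst]
    exact hasum
  have hH : IsHodge m (univ.val.map a) := by
    rw [← hfst]
    exact hodge_of_rational hm2 (fun z hz => (hz0 z hz).1) (by rwa [hcard]) hsum
      (fun z hz => (hz0 z hz).2) h1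
  have hcarda : Multiset.card (univ.val.map a) = Fintype.card ι := by
    rw [Multiset.card_map, card_val, card_univ]
  have hne0 : univ.val.map a ≠ 0 := by
    intro h0
    rw [h0, Multiset.card_zero] at hcarda
    omega
  have h3 : univ.val.map a = univ.val.map fun i => ((m / M * (b i).val : ℕ) : ZMod m) :=
    Multiset.map_congr rfl fun i _ => haval i
  rw [← h3]
  rcases hcov with hg | hp
  · exact Pool.Agent.Results.MP_e12fcd_ag.FermatDegrees.result m hm hg _ hH hne0
  · refine gen_mono (base := fun _ => False) (fun s hs => hs.elim) ?_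
    rw [← hfst]
    refine Pool.Agent.Results.MP_058a58_ag.DiagonalPole.result hp ?_ (by rwa [hcard]) hz0 hsum h1
    intro h0
    rw [h0, Multiset.card_zero] at hcard
    omega

theorem DiagProduct.algebraic (X : DiagProduct) (hcov : GoodDegree X.lcm ∨ PoleDegree X.lcm)
    (k : ℕ) (J : Finset (Fin X.r)) (hJ : X.mult J k ≠ 0) (M : ℕ) (hM : M ∣ X.lcm)
    (b : X.Idx J → ZMod M) (hb : X.IsLine J M b) (h : RationalClass M (X.pairs b)) :
    X.AlgebraicLine M b := by
  have hev := X.even_of_mult hJ
  rcases Nat.eq_zero_or_pos (Fintype.card (X.Idx J)) with h0 | hpos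
  · have hemp : IsEmpty (X.Idx J) := Fintype.card_eq_zero_iff.1 h0
    have hM1 : M = 1 := by
      have := hb.2 1 (fun x => (hemp.false x).elim)
      exact Nat.dvd_one.1 this
    refine ⟨2, by norm_num, by rw [hM1]; exact one_dvd 2, ?_⟩
    have h1 : (univ : Finset (X.Idx J)).val.map (fun x => ((2 / M * (b x).val : ℕ) : ZMod 2)) = 0 := by
      rw [univ_eq_empty]
      rfl
    rw [h1]
    exact Generated.cancel (1 : ZMod 2) 0 (Generated.pair 1 (by decide))
  · refine ⟨X.lcm, X.lcm_pos, hM, ?_⟩
    refine gen_of_rational X.lcm_pos hM hev hpos hcov (X.co J) (fun x => X.c_ne _ _) b hb.1.1 ?_ h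
    exact (X.sys J).sum M b hb.1

end Pool.Agent.L0h11
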