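import Mathlib
import Pool.Agent.L0h11.Cnt

/-!
# The kernel `ψ (a x ^ (m - 1) y)` in terms of multiplicative characters
-/

set_option autoImplicit false
set_option linter.unusedSectionVars false

namespace Pool.Agent.L0h11

open Finset

section

variable {F : Type} [Field F] [Fintype F] {d : ℕ} [NeZero d] (hd : d = Fintype.card F - 1)
  {w : F} (hw : IsPrimitiveRoot w d) {e : AddChar (ZMod d) ℂ} (he : ∀ i, e i = 1 → i = 0)
  {ψ : AddChar F ℂ} (hψ : ψ.IsPrimitive)

include hd in
omit [NeZero d] in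
lemma d_cast : (d : ℂ) = (Fintype.card F : ℂ) - 1 := by
  rw [hd, Nat.cast_sub Fintype.card_pos, Nat.cast_one]

include hd hw in
lemma lg_inj {x y : F} (hx : x ≠ 0) (hy : y ≠ 0) (h : lg d w x = lg d w y) : x = y := by
  have h1 := lg_spec hw hx
  have h2 := lg_spec hw hy
  have h3 : (Fintype.card F - 1) / d = 1 := by
    rw [← hd]
    exact Nat.div_self (NeZero.pos d)
  rw [h3, pow_one] at h1 h2
  rw [← h1, ← h2, h]

include hw he in
/-- orthogonality of the multiplicative characters -/
lemma sum_ch (b : ZMod d) (hd : d = Fintype.card F - 1) :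
    ∑ x : F, ch hw e b x = if b = 0 then (Fintype.card F : ℂ) - 1 else 0 := by
  classical
  by_cases hb : b = 0
  · rw [if_pos hb, hb, ch_zero]
    have h := MulChar.sum_one_eq_card_units (R := F) (R' := ℂ)
    rw [h, Fintype.card_units, Nat.cast_sub Fintype.card_pos, Nat.cast_one]
  · rw [if_neg hb]
    apply MulChar.sum_eq_zero_of_ne_one
    rw [Ne, ch_eq_one_iff hw e he]
    exact hb

/-- the factor of a line -/
noncomputable def kap (ψ : AddChar F ℂ) (e : AddChar (ZMod d) ℂ) (a : F) (b : ZMod d) : ℂ :=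
  ch hw e (-b) a * gaussSum (ch hw e b) ψ

include hψ in
lemma kap_zero {a : F} (ha : a ≠ 0) : kap hw ψ e a 0 = -1 := by
  classical
  unfold kap
  rw [neg_zero, ch_zero, MulChar.one_apply (isUnit_iff_ne_zero.2 ha), one_mul]
  have h5 : ψ ≠ 1 := by
    intro h
    have h2 := hψ one_ne_zero
    rw [AddChar.mulShift_one] at h2
    exact h2 h
  exact gaussSum_one_left h5

include hd he in
/-- the additive character in terms of the multiplicative ones -/
lemma psi_expand {z : F} (hz : z ≠ 0) : ((Fintype.card F : ℂ) - 1) * ψ z =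
    ∑ b : ZMod d, ch hw e (-b) z * gaussSum (ch hw e b) ψ := by
  classical
  have h1 : ∀ b : ZMod d, ch hw e (-b) z * gaussSum (ch hw e b) ψ =
      ∑ y : F, (ch hw e (-b) z * ch hw e b y) * ψ y := by
    intro b
    unfold gaussSum
    rw [mul_sum]
    exact sum_congr rfl fun y _ => by ring
  rw [sum_congr rfl fun b _ => h1 b, sum_comm]
  have h2 : ∀ y : F, ∑ b : ZMod d, (ch hw e (-b) z * ch hw e b y) * ψ y =
      if y = z then ((Fintype.card F : ℂ) - 1) * ψ z else 0 := by
    intro y
    rw [← sum_mul]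
    by_cases hy : y = 0
    · rw [hy, if_neg hz.symm]
      rw [sum_eq_zero, zero_mul]
      intro b _
      rw [MulChar.map_zero, mul_zero]
    · have h3 : ∀ b : ZMod d, ch hw e (-b) z * ch hw e b y = e (b * (lg d w y - lg d w z)) := by
        intro b
        rw [ch_apply hw e hz, ch_apply hw e hy, ← AddChar.map_add_eq_mul]
        congr 1
        ring
      rw [sum_congr rfl fun b _ => h3 b, sum_e he]
      by_cases hyz : y = z
      · rw [if_pos hyz, hyz, sub_self, if_pos rfl, d_cast hd]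
      · rw [if_neg hyz, if_neg, zero_mul]
        intro h4
        exact hyz (lg_inj hd hw hy hz (sub_eq_zero.1 h4))
  rw [sum_congr rfl fun y _ => h2 y, sum_ite_eq' univ z, if_pos (mem_univ _)]

/-- the functions of the second variable -/
noncomputable def Wk (e : AddChar (ZMod d) ℂ) (l : Option (ZMod d)) (y : F) : ℂ := by
  classical
  exact l.elim (if y = 0 then 1 else 0) (fun b => ch hw e (-b) y)

/-- the functions of the first variable -/
noncomputable def Uk (ψ : AddChar F ℂ) (e : AddChar (ZMod d) ℂ) (m : ℕ) (a : F)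
    (l : Option (ZMod d)) (x : F) : ℂ := by
  classical
  exact l.elim 1 (fun b => (if b = 0 ∧ x = 0 then 1 else 0) +
    ((Fintype.card F : ℂ) - 1)⁻¹ * (kap hw ψ e a b * ch hw e (-b) (x ^ (m - 1))))

include hd in
omit [NeZero d] in
lemma q1_ne [NeZero d] : (Fintype.card F : ℂ) - 1 ≠ 0 := by
  rw [← d_cast hd]
  exact_mod_cast NeZero.ne d

include hd he in
/-- **the kernel** -/
lemma kernel {m : ℕ} (hm : 2 ≤ m) {a : F} (ha : a ≠ 0) (x y : F) :
    ψ (a * x ^ (m - 1) * y) = ∑ l : Option (ZMod d), Uk hw ψ e m a l x * Wk hw e l y := by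
  classical
  have hm1 : m - 1 ≠ 0 := by omega
  have hq := q1_ne (F := F) hd
  rw [Fintype.sum_option]
  unfold Uk Wk
  simp only [Option.elim_none, Option.elim_some, one_mul]
  by_cases hy : y = 0
  · rw [hy, if_pos rfl, mul_zero, AddChar.map_zero_eq_one, sum_eq_zero, add_zero]
    intro b _
    rw [MulChar.map_zero, mul_zero]
  · rw [if_neg hy, zero_add]
    by_cases hx : x = 0
    · rw [hx, zero_pow hm1, mul_zero, zero_mul, AddChar.map_zero_eq_one,
        sum_eq_single (0 : ZMod d)]
      · rw [if_pos ⟨rfl, rfl⟩, MulChar.map_zero, mul_zero, mul_zero, add_zero, neg_zero, ch_zero,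
          MulChar.one_apply (isUnit_iff_ne_zero.2 hy), one_mul]
      · intro b _ hb
        rw [if_neg (fun h => hb h.1), MulChar.map_zero, mul_zero, mul_zero, add_zero, zero_mul]
      · intro h
        exact absurd (mem_univ _) h
    · have hz : a * x ^ (m - 1) * y ≠ 0 := mul_ne_zero (mul_ne_zero ha (pow_ne_zero _ hx)) hy
      have h1 := psi_expand hd hw he (ψ := ψ) hz
      apply mul_left_cancel₀ hq
      rw [h1, mul_sum]
      refine sum_congr rfl fun b _ => ?_
      rw [if_neg (fun h => hx h.2), zero_add, map_mul, map_mul]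
      unfold kap
      field_simp

/-- the transfer factors -/
noncomputable def Tk (ψ : AddChar F ℂ) (e : AddChar (ZMod d) ℂ) (m : ℕ) (a : F)
    (l l' : Option (ZMod d)) : ℂ := ∑ x : F, Uk hw ψ e m a l x * Wk hw e l' x

lemma Tk_nn (m : ℕ) (a : F) : Tk hw ψ e m a none none = 1 := by
  classical
  unfold Tk Uk Wk
  simp only [Option.elim_none, one_mul]
  rw [sum_ite_eq' univ (0 : F), if_pos (mem_univ _)]

include hd he in
lemma Tk_ns (m : ℕ) (a : F) (b : ZMod d) : Tk hw ψ e m a none (some b) =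
    if b = 0 then (Fintype.card F : ℂ) - 1 else 0 := by
  unfold Tk Uk Wk
  simp only [Option.elim_none, Option.elim_some, one_mul]
  rw [sum_ch hw he _ hd]
  simp only [neg_eq_zero]

lemma Tk_sn {m : ℕ} (hm : 2 ≤ m) (a : F) (b : ZMod d) : Tk hw ψ e m a (some b) none =
    if b = 0 then 1 else 0 := by
  classical
  have hm1 : m - 1 ≠ 0 := by omega
  unfold Tk Uk Wk
  simp only [Option.elim_none, Option.elim_some, mul_ite, mul_one, mul_zero]
  rw [sum_ite_eq' univ (0 : F), if_pos (mem_univ _), zero_pow hm1, MulChar.map_zero, mul_zero,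
    mul_zero, add_zero]
  simp only [and_true]

include hd he in
lemma sum_ch_pow (m : ℕ) (b b' : ZMod d) (hm1 : m - 1 ≠ 0) :
    ∑ x : F, ch hw e (-b) (x ^ (m - 1)) * ch hw e (-b') x =
      if ((m - 1 : ℕ) : ZMod d) * b + b' = 0 then (Fintype.card F : ℂ) - 1 else 0 := by
  have h1 : ∀ x : F, ch hw e (-b) (x ^ (m - 1)) * ch hw e (-b') x =
      ch hw e (-(((m - 1 : ℕ) : ZMod d) * b + b')) x := by
    intro x
    rw [map_pow, ← MulChar.pow_apply' _ hm1, ← ch_nsmul, ← MulChar.mul_apply, ← ch_add]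
    congr 2
    ring
  rw [sum_congr rfl fun x _ => h1 x, sum_ch hw he _ hd]
  simp only [neg_eq_zero]

include hd he in
lemma Tk_ss {m : ℕ} (hm : 2 ≤ m) (a : F) (b b' : ZMod d) : Tk hw ψ e m a (some b) (some b') =
    if ((m - 1 : ℕ) : ZMod d) * b + b' = 0 then kap hw ψ e a b else 0 := by
  classical
  have hm1 : m - 1 ≠ 0 := by omega
  have hq := q1_ne (F := F) hd
  unfold Tk Uk Wk
  simp only [Option.elim_some]
  have h1 : ∀ x : F, ((if b = 0 ∧ x = 0 then (1 : ℂ) else 0) +
      ((Fintype.card F : ℂ) - 1)⁻¹ * (kap hw ψ e a b * ch hw e (-b) (x ^ (m - 1)))) *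
      ch hw e (-b') x = ((Fintype.card F : ℂ) - 1)⁻¹ * kap hw ψ e a b *
        (ch hw e (-b) (x ^ (m - 1)) * ch hw e (-b') x) := by
    intro x
    by_cases hx : x = 0
    · rw [hx, MulChar.map_zero, mul_zero, mul_zero, mul_zero]
    · rw [if_neg (fun h => hx h.2)]
      ring
  rw [sum_congr rfl fun x _ => h1 x, ← mul_sum, sum_ch_pow hd hw he m b b' hm1]
  split_ifs
  · field_simp
  · rw [mul_zero]

include hd he in
/-- the end of a chain -/
lemma sum_end {m : ℕ} (hm : 2 ≤ m) {a : F} (ha : a ≠ 0) (b' : ZMod d) :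
    ∑ y : F, ψ (a * y ^ (m - 1) * y) * ch hw e (-b') y =
      ∑ b : ZMod d, if (m : ZMod d) * b + b' = 0 then kap hw ψ e a b else 0 := by
  classical
  have hm1 : m - 1 ≠ 0 := by omega
  have hq := q1_ne (F := F) hd
  have h1 : ∀ y : F, ψ (a * y ^ (m - 1) * y) * ch hw e (-b') y =
      ∑ b : ZMod d, ((Fintype.card F : ℂ) - 1)⁻¹ * kap hw ψ e a b *
        (ch hw e (-b) (y ^ (m - 1)) * ch hw e (-(b + b')) y) := by
    intro y
    by_cases hy : y = 0
    · rw [hy, MulChar.map_zero, mul_zero, sum_eq_zero]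
      intro b _
      rw [MulChar.map_zero, mul_zero, mul_zero]
    · have hz : a * y ^ (m - 1) * y ≠ 0 := mul_ne_zero (mul_ne_zero ha (pow_ne_zero _ hy)) hy
      have h1 := psi_expand hd hw he (ψ := ψ) hz
      apply mul_left_cancel₀ hq
      rw [← mul_assoc, h1, mul_sum, sum_mul]
      refine sum_congr rfl fun b _ => ?_
      rw [map_mul, map_mul, neg_add, ch_add, MulChar.mul_apply]
      unfold kap
      field_simp
  rw [sum_congr rfl fun y _ => h1 y, sum_comm]
  refine sum_congr rfl fun b _ => ?_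
  rw [← mul_sum, sum_ch_pow hd hw he m b (b + b') hm1]
  have h2 : ((m - 1 : ℕ) : ZMod d) * b + (b + b') = (m : ZMod d) * b + b' := by
    rw [Nat.cast_sub (by omega : 1 ≤ m), Nat.cast_one]
    ring
  rw [h2]
  split_ifs
  · field_simp
  · rw [mul_zero]

end

end Pool.Agent.L0h11
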