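import Mathlib
import Pool.Agent.L0h11.Ke

/-!
# Character sums of chains and loops
-/

set_option autoImplicit false
set_option linter.unusedSectionVars false

namespace Pool.Agent.L0h11

open Finset

section

variable {F : Type} [Field F] [Fintype F] {d : ℕ} [NeZero d] (hd : d = Fintype.card F - 1)
  {w : F} (hw : IsPrimitiveRoot w d) {e : AddChar (ZMod d) ℂ} (he : ∀ i, e i = 1 → i = 0)
  {ψ : AddChar F ℂ} (hψ : ψ.IsPrimitive)

open Classical in
/-- the modified factors -/
noncomputable def kau (ψ : AddChar F ℂ) (e : AddChar (ZMod d) ℂ) (u : ℂ) (a : F) (b : ZMod d) : ℂ :=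
  if b = 0 then u else kap hw ψ e a b

open Classical in
/-- the modified basis functions -/
noncomputable def Wu (e : AddChar (ZMod d) ℂ) (u : ℂ) (b : ZMod d) (y : F) : ℂ :=
  ch hw e (-b) y + if b = 0 ∧ y = 0 then 1 + u else 0

include hd he hψ in
/-- the operator on the basis functions -/
lemma op_Wu {m : ℕ} (hm : 2 ≤ m) {a : F} (ha : a ≠ 0) {u : ℂ} (hu : u * u = Fintype.card F)
    (b' : ZMod d) (y : F) :
    ∑ x : F, Wu hw e u b' x * ψ (a * x ^ (m - 1) * y) =
      ∑ b : ZMod d, if ((m - 1 : ℕ) : ZMod d) * b + b' = 0 then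
        kau hw ψ e u a b * Wu hw e u b y else 0 := by
  classical
  have hm1 : m - 1 ≠ 0 := by omega
  have hq := q1_ne (F := F) hd
  have hz : ψ (a * (0 : F) ^ (m - 1) * y) = 1 := by
    rw [zero_pow hm1, mul_zero, zero_mul, AddChar.map_zero_eq_one]
  -- the part with the multiplicative characters
  have h1 : ∑ x : F, ch hw e (-b') x * ψ (a * x ^ (m - 1) * y) =
      (if y = 0 then (if b' = 0 then (Fintype.card F : ℂ) - 1 else 0) else
        ∑ b : ZMod d, if ((m - 1 : ℕ) : ZMod d) * b + b' = 0 then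
          kap hw ψ e a b * ch hw e (-b) y else 0) := by
    by_cases hy : y = 0
    · rw [if_pos hy]
      have h2 : ∀ x : F, ch hw e (-b') x * ψ (a * x ^ (m - 1) * y) = ch hw e (-b') x := by
        intro x
        rw [hy, mul_zero, AddChar.map_zero_eq_one, mul_one]
      rw [sum_congr rfl fun x _ => h2 x, sum_ch hw he _ hd]
      simp only [neg_eq_zero]
    · rw [if_neg hy]
      have h2 : ∀ x : F, ch hw e (-b') x * ψ (a * x ^ (m - 1) * y) =
          ∑ b : ZMod d, ((Fintype.card F : ℂ) - 1)⁻¹ * (kap hw ψ e a b * ch hw e (-b) y) *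
            (ch hw e (-b) (x ^ (m - 1)) * ch hw e (-b') x) := by
        intro x
        by_cases hx : x = 0
        · rw [hx, MulChar.map_zero, zero_mul, sum_eq_zero]
          intro b _
          rw [mul_zero, mul_zero]
        · have hz : a * x ^ (m - 1) * y ≠ 0 := mul_ne_zero (mul_ne_zero ha (pow_ne_zero _ hx)) hy
          have h1 := psi_expand hd hw he (ψ := ψ) hz
          apply mul_left_cancel₀ hq
          rw [mul_left_comm, h1, mul_sum, mul_sum]
          refine sum_congr rfl fun b _ => ?_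
          rw [map_mul, map_mul]
          unfold kap
          field_simp
      rw [sum_congr rfl fun x _ => h2 x, sum_comm]
      refine sum_congr rfl fun b _ => ?_
      rw [← mul_sum, sum_ch_pow hd hw he m b b' hm1]
      split_ifs
      · field_simp
      · rw [mul_zero]
  have h3 : ∑ x : F, Wu hw e u b' x * ψ (a * x ^ (m - 1) * y) =
      ∑ x : F, ch hw e (-b') x * ψ (a * x ^ (m - 1) * y) + if b' = 0 then 1 + u else 0 := by
    unfold Wu
    have h4 : ∀ x : F, (ch hw e (-b') x + if b' = 0 ∧ x = 0 then 1 + u else 0) *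
        ψ (a * x ^ (m - 1) * y) = ch hw e (-b') x * ψ (a * x ^ (m - 1) * y) +
          if x = 0 then (if b' = 0 then 1 + u else 0) else 0 := by
      intro x
      by_cases hx : x = 0
      · rw [hx, hz]
        simp
      · rw [if_neg (fun h => hx h.2), if_neg hx, add_zero, add_zero]
    rw [sum_congr rfl fun x _ => h4 x, sum_add_distrib, sum_ite_eq' univ (0 : F),
      if_pos (mem_univ _)]
  rw [h3, h1]
  by_cases hy : y = 0
  · rw [if_pos hy, hy]
    unfold Wu kau
    have h5 : ∀ b : ZMod d, (if ((m - 1 : ℕ) : ZMod d) * b + b' = 0 then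
        (if b = 0 then u else kap hw ψ e a b) * (ch hw e (-b) (0 : F) +
          if b = 0 ∧ (0 : F) = 0 then 1 + u else 0) else 0) =
        if b = 0 then (if b' = 0 then u * (1 + u) else 0) else 0 := by
      intro b
      rw [MulChar.map_zero, zero_add]
      by_cases hb : b = 0
      · subst hb
        simp
      · have hf : ¬ (b = 0 ∧ (0 : F) = 0) := fun h => hb h.1
        rw [if_neg hf, mul_zero, if_neg hb, ite_self]
    rw [sum_congr rfl fun b _ => h5 b, sum_ite_eq' univ (0 : ZMod d), if_pos (mem_univ _)]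
    by_cases hb : b' = 0
    · rw [if_pos hb, if_pos hb, if_pos hb, ← hu]
      ring
    · rw [if_neg hb, if_neg hb, if_neg hb, add_zero]
  · rw [if_neg hy]
    unfold Wu kau
    have h5 : ∀ b : ZMod d, (if ((m - 1 : ℕ) : ZMod d) * b + b' = 0 then
        (if b = 0 then u else kap hw ψ e a b) * (ch hw e (-b) y +
          if b = 0 ∧ y = 0 then 1 + u else 0) else 0) =
        (if ((m - 1 : ℕ) : ZMod d) * b + b' = 0 then kap hw ψ e a b * ch hw e (-b) y else 0) +
          if b = 0 then (if b' = 0 then 1 + u else 0) else 0 := by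
      intro b
      have hf : ¬ (b = 0 ∧ y = 0) := fun h => hy h.2
      rw [if_neg hf, add_zero]
      by_cases hb : b = 0
      · subst hb
        rw [if_pos rfl, if_pos rfl, kap_zero hw hψ ha, neg_zero, ch_zero,
          MulChar.one_apply (isUnit_iff_ne_zero.2 hy), mul_zero, zero_add]
        by_cases hb' : b' = 0
        · rw [if_pos hb', if_pos hb', if_pos hb']
          ring
        · rw [if_neg hb', if_neg hb', if_neg hb', add_zero]
      · rw [if_neg hb, if_neg hb, add_zero]
    rw [sum_congr rfl fun b _ => h5 b, sum_add_distrib, sum_ite_eq' univ (0 : ZMod d),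
      if_pos (mem_univ _)]

include hd he hψ in
/-- the end of a chain -/
lemma end_Wu {m : ℕ} (hm : 2 ≤ m) {a : F} (ha : a ≠ 0) (u : ℂ) (b' : ZMod d) :
    ∑ y : F, Wu hw e u b' y * ψ (a * y ^ (m - 1) * y) =
      ∑ b : ZMod d, if (m : ZMod d) * b + b' = 0 then kau hw ψ e u a b else 0 := by
  classical
  have hm1 : m - 1 ≠ 0 := by omega
  have h4 : ∀ x : F, Wu hw e u b' x * ψ (a * x ^ (m - 1) * x) =
      ψ (a * x ^ (m - 1) * x) * ch hw e (-b') x +
        if x = 0 then (if b' = 0 then 1 + u else 0) else 0 := by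
    intro x
    unfold Wu
    by_cases hx : x = 0
    · rw [hx, mul_zero, AddChar.map_zero_eq_one]
      simp
    · rw [if_neg (fun h => hx h.2), if_neg hx, add_zero, add_zero, mul_comm]
  rw [sum_congr rfl fun x _ => h4 x, sum_add_distrib, sum_ite_eq' univ (0 : F),
    if_pos (mem_univ _), sum_end hd hw he hm ha]
  have h5 : ∀ b : ZMod d, (if (m : ZMod d) * b + b' = 0 then kau hw ψ e u a b else 0) =
      (if (m : ZMod d) * b + b' = 0 then kap hw ψ e a b else 0) +
        if b = 0 then (if b' = 0 then 1 + u else 0) else 0 := by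
    intro b
    unfold kau
    by_cases hb : b = 0
    · subst hb
      rw [if_pos rfl, if_pos rfl, kap_zero hw hψ ha, mul_zero, zero_add]
      by_cases hb' : b' = 0
      · rw [if_pos hb', if_pos hb', if_pos hb']
        ring
      · rw [if_neg hb', if_neg hb', if_neg hb', add_zero]
    · rw [if_neg hb, if_neg hb, add_zero]
  rw [sum_congr rfl fun b _ => h5 b, sum_add_distrib, sum_ite_eq' univ (0 : ZMod d),
    if_pos (mem_univ _)]

/-- the sum over the paths -/
noncomputable def Ph (ψ : AddChar F ℂ) (m n : ℕ) (a : Fin n → F) (f h : F → ℂ) : ℂ :=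
  ∑ x : Fin (n + 1) → F, f (x 0) *
    (∏ i : Fin n, ψ (a i * x i.castSucc ^ (m - 1) * x i.succ)) * h (x (Fin.last n))

lemma Ph_zero (m : ℕ) (a : Fin 0 → F) (f h : F → ℂ) : Ph ψ m 0 a f h = ∑ x, f x * h x := by
  classical
  unfold Ph
  rw [← (Equiv.funUnique (Fin 1) F).symm.sum_comp]
  refine sum_congr rfl fun x _ => ?_
  simp

lemma Ph_succ (m n : ℕ) (a : Fin (n + 1) → F) (f h : F → ℂ) : Ph ψ m (n + 1) a f h =
    Ph ψ m n (fun i => a i.succ) (fun y => ∑ x, f x * ψ (a 0 * x ^ (m - 1) * y)) h := by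
  classical
  unfold Ph
  rw [← (Fin.consEquiv fun _ : Fin (n + 2) => F).sum_comp, Fintype.sum_prod_type, sum_comm]
  refine sum_congr rfl fun x _ => ?_
  rw [sum_mul, sum_mul]
  refine sum_congr rfl fun z _ => ?_
  simp only [Fin.consEquiv_apply]
  rw [Fin.prod_univ_succ]
  simp only [Fin.cons_zero, Fin.castSucc_zero, Fin.cons_succ, ← Fin.succ_castSucc,
    ← Fin.succ_last]
  ring

lemma sum_cons' {A : Type} [Fintype A] {n : ℕ} (G : (Fin (n + 1) → A) → ℂ) :
    ∑ γ, G γ = ∑ c : A, ∑ γ : Fin n → A, G (Fin.cons c γ) := by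
  rw [← (Fin.consEquiv fun _ : Fin (n + 1) => A).sum_comp, Fintype.sum_prod_type]
  rfl

lemma sum_cons {A : Type} [Fintype A] {n : ℕ} (b : A) (G : (Fin (n + 1) → A) → ℂ)
    (h : ∀ γ, γ 0 ≠ b → G γ = 0) : ∑ γ, G γ = ∑ γ : Fin n → A, G (Fin.cons b γ) := by
  classical
  rw [← (Fin.consEquiv fun _ : Fin (n + 1) => A).sum_comp, Fintype.sum_prod_type,
    sum_eq_single b]
  · rfl
  · intro c _ hc
    apply sum_eq_zero
    intro γ _
    exact h _ hc
  · intro hb
    exact absurd (mem_univ _) hb

open Classical in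
include hd he hψ in
/-- the sum over the paths in terms of the labels -/
lemma Ph_main {m : ℕ} (hm : 2 ≤ m) {u : ℂ} (hu : u * u = Fintype.card F) (n : ℕ) :
    ∀ (a : Fin n → F), (∀ i, a i ≠ 0) → ∀ (b : ZMod d) (h : F → ℂ),
    Ph ψ m n a (Wu hw e u b) h = ∑ γ : Fin (n + 1) → ZMod d,
      if γ 0 = b ∧ ∀ i : Fin n, ((m - 1 : ℕ) : ZMod d) * γ i.succ + γ i.castSucc = 0 then
        (∏ i : Fin n, kau hw ψ e u (a i) (γ i.succ)) *
          ∑ x, Wu hw e u (γ (Fin.last n)) x * h x else 0 := by
  induction n with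
  | zero =>
    intro a _ b h
    rw [Ph_zero, ← (Equiv.funUnique (Fin 1) (ZMod d)).symm.sum_comp]
    rw [sum_eq_single b]
    · simp
    · intro c _ hc
      rw [if_neg]
      rintro ⟨h1, -⟩
      exact hc (by simpa using h1)
    · intro hb
      exact absurd (mem_univ _) hb
  | succ n ih =>
    intro a ha b h
    rw [Ph_succ]
    have h1 : (fun y => ∑ x, Wu hw e u b x * ψ (a 0 * x ^ (m - 1) * y)) = fun y =>
        ∑ c : ZMod d, if ((m - 1 : ℕ) : ZMod d) * c + b = 0 then
          kau hw ψ e u (a 0) c * Wu hw e u c y else 0 :=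
      funext fun y => op_Wu hd hw he hψ hm (ha 0) hu b y
    rw [h1]
    have h2 : Ph ψ m n (fun i => a i.succ) (fun y => ∑ c : ZMod d,
        if ((m - 1 : ℕ) : ZMod d) * c + b = 0 then kau hw ψ e u (a 0) c * Wu hw e u c y else 0) h =
        ∑ c : ZMod d, if ((m - 1 : ℕ) : ZMod d) * c + b = 0 then kau hw ψ e u (a 0) c *
          Ph ψ m n (fun i => a i.succ) (Wu hw e u c) h else 0 := by
      unfold Ph
      simp_rw [sum_mul]
      rw [sum_comm]
      refine sum_congr rfl fun c _ => ?_
      split_ifs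
      · rw [mul_sum]
        exact sum_congr rfl fun x _ => by ring
      · simp
    rw [h2, sum_cons b _ (fun γ hγ => if_neg fun h => hγ h.1), sum_cons']
    refine sum_congr rfl fun c _ => ?_
    have h3 : ∀ γ : Fin n → ZMod d,
        (∀ i : Fin (n + 1), ((m - 1 : ℕ) : ZMod d) *
          (Fin.cons b (Fin.cons c γ : Fin (n + 1) → ZMod d) : Fin (n + 2) → ZMod d) i.succ +
          (Fin.cons b (Fin.cons c γ : Fin (n + 1) → ZMod d) : Fin (n + 2) → ZMod d) i.castSucc
            = 0) ↔ (((m - 1 : ℕ) : ZMod d) * c + b = 0 ∧ ∀ i : Fin n,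
        ((m - 1 : ℕ) : ZMod d) * (Fin.cons c γ : Fin (n + 1) → ZMod d) i.succ +
          (Fin.cons c γ : Fin (n + 1) → ZMod d) i.castSucc = 0) := by
      intro γ
      rw [Fin.forall_fin_succ]
      simp only [Fin.cons_succ, Fin.castSucc_zero, Fin.cons_zero, ← Fin.succ_castSucc]
    rw [ih _ (fun i => ha i.succ), sum_cons c _ (fun γ hγ => if_neg fun h => hγ h.1)]
    by_cases hc : ((m - 1 : ℕ) : ZMod d) * c + b = 0
    · rw [if_pos hc, mul_sum]
      refine sum_congr rfl fun γ _ => ?_
      simp only [Fin.consEquiv_apply, Fin.cons_zero, true_and]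
      simp only [h3 γ, hc, true_and]
      split_ifs with h4
      · rw [Fin.prod_univ_succ]
        simp only [Fin.cons_succ, Fin.cons_zero, ← Fin.succ_last]
        ring
      · rw [mul_zero]
    · rw [if_neg hc]
      symm
      apply sum_eq_zero
      intro γ _
      simp only [Fin.consEquiv_apply, Fin.cons_zero, true_and]
      simp only [h3 γ, hc, false_and, if_false]

end

end Pool.Agent.L0h11
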