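import Mathlib

/-!
# Chains and loops: definitions
-/

set_option autoImplicit false

namespace Pool.Agent.L0h11

/-- the successor in a chain (`lp = false`, the last element is its own successor) or in a loop
(`lp = true`, the first element is the successor of the last one) -/
def nx (lp : Bool) {r : ℕ} (i : Fin r) : Fin r :=
  if h : i.1 + 1 < r then ⟨i.1 + 1, h⟩ else if lp then ⟨0, i.pos⟩ else i

/-- the multiplicity of a chain or a loop of length `r`, `z` of whose elements are not used -/
def mu (lp : Bool) (r z : ℕ) : ℕ := if Odd z then 0 else if lp = true ∧ z = r then 2 else 1

end Pool.Agent.L0h11
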