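import Mathlib
import Pool.Agent.L0h11.Bk
import Pool.Agent.L0h11.Nx

/-!
# Character sums of chains and loops: the formula
-/

set_option autoImplicit false
set_option linter.unusedSectionVars false

namespace Pool.Agent.L0h11

open Finset

lemma nx_castSucc (lp : Bool) {n : ℕ} (i : Fin n) : nx lp i.castSucc = i.succ := by
  unfold nx
  have : i.castSucc.1 + 1 < n + 1 := by
    rw [Fin.val_castSucc]
    omega
  rw [dif_pos this]
  rfl

lemma nx_last (lp : Bool) (n : ℕ) : nx lp (Fin.last n) = if lp then 0 else Fin.last n := by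
  unfold nx
  have : ¬ (Fin.last n).1 + 1 < n + 1 := by
    rw [Fin.val_last]
    omega
  rw [dif_neg this]
  rfl

/-- the sum over the predecessors -/
lemma sum_nx (lp : Bool) {A : Type} [AddCommMonoid A] {n : ℕ} (β : Fin (n + 1) → A)
    (y : Fin (n + 1)) : ∑ x ∈ univ.filter (fun x => nx lp x = y), β x =
      (Fin.cons 0 β : Fin (n + 2) → A) y.castSucc +
        if (if lp then 0 else Fin.last n) = y then β (Fin.last n) else 0 := by
  rw [sum_filter, Fin.sum_univ_castSucc, nx_last]
  congr 1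
  simp only [nx_castSucc]
  refine Fin.cases ?_ (fun j => ?_) y
  · rw [Fin.castSucc_zero, Fin.cons_zero]
    apply sum_eq_zero
    intro i _
    rw [if_neg (Fin.succ_ne_zero i)]
  · rw [← Fin.succ_castSucc, Fin.cons_succ]
    simp only [Fin.succ_inj]
    rw [sum_ite_eq' univ j, if_pos (mem_univ _)]

section

variable {F : Type} [Field F] [Fintype F] {d : ℕ} [NeZero d] (hd : d = Fintype.card F - 1)
  {w : F} (hw : IsPrimitiveRoot w d) {e : AddChar (ZMod d) ℂ} (he : ∀ i, e i = 1 → i = 0)
  {ψ : AddChar F ℂ} (hψ : ψ.IsPrimitive)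

/-- the relations of a block -/
def relB (m : ℕ) (lp : Bool) {r M : ℕ} (β : Fin r → ZMod M) : Prop :=
  ∀ y, ((m - 1 : ℕ) : ZMod M) * β y + ∑ x ∈ univ.filter (fun x => nx lp x = y), β x = 0

open Classical in
/-- the product of the factors of the nonzero labels -/
noncomputable def kpr (ψ : AddChar F ℂ) (e : AddChar (ZMod d) ℂ) {ι : Type} [Fintype ι]
    (a : ι → F) (β : ι → ZMod d) : ℂ := ∏ i, if β i = 0 then 1 else kap hw ψ e (a i) (β i)

open Classical in
/-- the number of the zeros -/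
noncomputable def zer {ι : Type} [Fintype ι] (β : ι → ZMod d) : ℕ :=
  (univ.filter fun i => β i = 0).card

lemma prod_kau {ι : Type} [Fintype ι] (u : ℂ) (a : ι → F) (β : ι → ZMod d) :
    ∏ i, kau hw ψ e u (a i) (β i) = u ^ (zer β) * kpr hw ψ e a β := by
  classical
  unfold kpr zer
  rw [card_eq_sum_ones, ← prod_pow_eq_pow_sum, prod_filter, ← prod_mul_distrib]
  refine prod_congr rfl fun i _ => ?_
  unfold kau
  split_ifs <;> simp

open Classical in
include hd he hψ in
/-- **the character sum of a chain** -/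
theorem chain_sum {m : ℕ} (hm : 2 ≤ m) {s : ℂ} (hs : s * s = Fintype.card F) {n : ℕ}
    (a : Fin (n + 1) → F) (ha : ∀ i, a i ≠ 0) :
    ∑ x : Fin (n + 1) → F, ∏ i, ψ (a i * x i ^ (m - 1) * x (nx false i)) =
      ∑ β : Fin (n + 1) → ZMod d, if relB m false β then
        (mu false (n + 1) (zer β) : ℂ) * s ^ (zer β) * kpr hw ψ e a β else 0 := by
  have h1 : ∑ x : Fin (n + 1) → F, ∏ i, ψ (a i * x i ^ (m - 1) * x (nx false i)) =
      2⁻¹ * (Ph ψ m n (fun i => a i.castSucc) (Wu hw e s 0)
        (fun y => ψ (a (Fin.last n) * y ^ (m - 1) * y)) +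
      Ph ψ m n (fun i => a i.castSucc) (Wu hw e (-s) 0)
        (fun y => ψ (a (Fin.last n) * y ^ (m - 1) * y))) := by
    unfold Ph
    rw [← sum_add_distrib, mul_sum]
    refine sum_congr rfl fun x _ => ?_
    rw [Fin.prod_univ_castSucc]
    simp only [nx_castSucc, nx_last]
    have h2 : Wu hw e s 0 (x 0) + Wu hw e (-s) 0 (x 0) = 2 := by
      unfold Wu
      rw [neg_zero, ch_zero]
      by_cases h : x 0 = 0
      · rw [h, MulChar.map_zero]
        simp only [and_self, if_true]
        ring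
      · rw [MulChar.one_apply (isUnit_iff_ne_zero.2 h)]
        simp only [h, and_false, if_false]
        ring
    rw [mul_assoc (Wu hw e s 0 (x 0)), mul_assoc (Wu hw e (-s) 0 (x 0)), ← add_mul, h2,
      ← mul_assoc, inv_mul_cancel₀ (two_ne_zero), one_mul]
    simp
  have h3 : ∀ u : ℂ, u * u = Fintype.card F → Ph ψ m n (fun i => a i.castSucc) (Wu hw e u 0)
      (fun y => ψ (a (Fin.last n) * y ^ (m - 1) * y)) =
      ∑ β : Fin (n + 1) → ZMod d, if relB m false β then u ^ (zer β) * kpr hw ψ e a β else 0 := by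
    intro u hu
    rw [Ph_main hd hw he hψ hm hu n _ (fun i => ha _)]
    have h4 : ∀ γ : Fin (n + 1) → ZMod d,
        (if γ 0 = 0 ∧ ∀ i : Fin n, ((m - 1 : ℕ) : ZMod d) * γ i.succ + γ i.castSucc = 0 then
          (∏ i : Fin n, kau hw ψ e u (a i.castSucc) (γ i.succ)) *
            ∑ x, Wu hw e u (γ (Fin.last n)) x * ψ (a (Fin.last n) * x ^ (m - 1) * x) else 0) =
        ∑ b : ZMod d, if γ 0 = 0 ∧ (∀ i : Fin n, ((m - 1 : ℕ) : ZMod d) * γ i.succ +
            γ i.castSucc = 0) ∧ (m : ZMod d) * b + γ (Fin.last n) = 0 then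
          (∏ i : Fin n, kau hw ψ e u (a i.castSucc) (γ i.succ)) *
            kau hw ψ e u (a (Fin.last n)) b else 0 := by
      intro γ
      rw [end_Wu hd hw he hψ hm (ha _) u]
      by_cases h5 : γ 0 = 0 ∧ ∀ i : Fin n, ((m - 1 : ℕ) : ZMod d) * γ i.succ + γ i.castSucc = 0
      · rw [if_pos h5, mul_sum]
        refine sum_congr rfl fun b _ => ?_
        simp only [h5.1, h5.2, implies_true, true_and, mul_ite, mul_zero]
      · rw [if_neg h5]
        symm
        apply sum_eq_zero
        intro b _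
        rw [if_neg]
        rintro ⟨h6, h7, -⟩
        exact h5 ⟨h6, h7⟩
    rw [sum_congr rfl fun γ _ => h4 γ, sum_comm]
    -- the tuples `cons 0 β = snoc γ b`
    let G : (Fin (n + 2) → ZMod d) → ℂ := fun δ =>
      if δ 0 = 0 ∧ (∀ i : Fin n, ((m - 1 : ℕ) : ZMod d) * δ i.succ.castSucc +
            δ i.castSucc.castSucc = 0) ∧ (m : ZMod d) * δ (Fin.last (n + 1)) +
              δ (Fin.last n).castSucc = 0 then
          ∏ i : Fin (n + 1), kau hw ψ e u (a i) (δ i.succ) else 0
    have h5 : ∑ b : ZMod d, ∑ γ : Fin (n + 1) → ZMod d,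
        (if γ 0 = 0 ∧ (∀ i : Fin n, ((m - 1 : ℕ) : ZMod d) * γ i.succ +
            γ i.castSucc = 0) ∧ (m : ZMod d) * b + γ (Fin.last n) = 0 then
          (∏ i : Fin n, kau hw ψ e u (a i.castSucc) (γ i.succ)) *
            kau hw ψ e u (a (Fin.last n)) b else 0) = ∑ δ, G δ := by
      rw [← (Fin.snocEquiv fun _ : Fin (n + 2) => ZMod d).sum_comp, Fintype.sum_prod_type]
      refine sum_congr rfl fun b _ => sum_congr rfl fun γ _ => ?_
      have hz : (Fin.snoc γ b : Fin (n + 2) → ZMod d) 0 = γ 0 := by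
        have h6 := Fin.snoc_castSucc (α := fun _ => ZMod d) b γ (0 : Fin (n + 1))
        rwa [Fin.castSucc_zero] at h6
      simp only [G, Fin.snocEquiv_apply]
      rw [Fin.prod_univ_castSucc (n := n)]
      simp only [hz, Fin.snoc_castSucc, Fin.succ_castSucc, Fin.succ_last, Fin.snoc_last]
    rw [h5, sum_cons (0 : ZMod d) G (fun γ hγ => if_neg fun h => hγ h.1)]
    refine sum_congr rfl fun β _ => ?_
    simp only [G, Fin.cons_zero, true_and, Fin.cons_succ]
    rw [prod_kau hw]
    have h6 : ((∀ i : Fin n, ((m - 1 : ℕ) : ZMod d) *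
        (Fin.cons 0 β : Fin (n + 2) → ZMod d) i.succ.castSucc +
        (Fin.cons 0 β : Fin (n + 2) → ZMod d) i.castSucc.castSucc = 0) ∧
        (m : ZMod d) * (Fin.cons 0 β : Fin (n + 2) → ZMod d) (Fin.last (n + 1)) +
          (Fin.cons 0 β : Fin (n + 2) → ZMod d) (Fin.last n).castSucc = 0) ↔
        relB m false β := by
      unfold relB
      simp only [sum_nx]
      rw [Fin.forall_fin_succ']
      simp only [Fin.succ_castSucc, ← Fin.succ_last, Fin.cons_succ]
      refine and_congr (forall_congr' fun i => ?_) ?_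
      · rw [← Fin.succ_castSucc, Fin.cons_succ]
        simp only [Bool.false_eq_true, if_false]
        rw [if_neg (Fin.castSucc_lt_last i).ne', add_zero]
      · simp only [Bool.false_eq_true, if_false, if_true]
        rw [Nat.cast_sub (by omega : 1 ≤ m), Nat.cast_one]
        have h7 : ∀ x y : ZMod d, ((m : ZMod d) - 1) * x + (y + x) = (m : ZMod d) * x + y := by
          intro x y
          ring
        rw [h7]
    simp only [h6]
  rw [h1, h3 s hs, h3 (-s) (by rw [neg_mul_neg, hs]), ← sum_add_distrib, mul_sum]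
  refine sum_congr rfl fun β _ => ?_
  split_ifs with h
  · unfold mu
    by_cases ho : Odd (zer β)
    · rw [if_pos ho, ho.neg_pow]
      push_cast
      ring
    · rw [if_neg ho, if_neg (by simp), (Nat.not_odd_iff_even.1 ho).neg_pow]
      push_cast
      ring
  · simp

lemma u_ne {u : ℂ} (hu : u * u = Fintype.card F) : u ≠ 0 := by
  rintro rfl
  rw [mul_zero] at hu
  exact Fintype.card_ne_zero (α := F) (by exact_mod_cast hu.symm)

include hd in
lemma u1_ne {u : ℂ} (hu : u * u = Fintype.card F) : u + 1 ≠ 0 := by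
  intro h
  have h1 := q1_ne (F := F) hd
  apply h1
  rw [← hu]
  linear_combination (u - 1) * h

open Classical in
/-- the dual functions for the label zero -/
noncomputable def Du (u : ℂ) (z : F) : ℂ := if z = 0 then (2 * u)⁻¹ else (2 * u * (u + 1))⁻¹

/-- the dual functions for the other labels -/
noncomputable def Dc (e : AddChar (ZMod d) ℂ) (b : ZMod d) (z : F) : ℂ :=
  ((Fintype.card F : ℂ) - 1)⁻¹ * ch hw e b z

open Classical in
include hd he in
/-- the decomposition of the identity -/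
lemma ident {s : ℂ} (hs : s * s = Fintype.card F) (z y : F) :
    (if y = z then (1 : ℂ) else 0) =
      (∑ b : ZMod d, if b = 0 then 0 else Wu hw e s b z * Dc hw e b y) +
        (Wu hw e s 0 z * Du s y + Wu hw e (-s) 0 z * Du (-s) y) := by
  have hq := q1_ne (F := F) hd
  have hs0 := u_ne hs
  have hs1 := u1_ne hd hs
  have hs2 := u1_ne hd (u := -s) (by rw [neg_mul_neg, hs])
  have hq1 : (Fintype.card F : ℂ) - 1 = (s + 1) * (s - 1) := by rw [← hs]; ring
  have hs3 : s - 1 ≠ 0 := fun h => hs2 (by linear_combination -h)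
  have h1 : ∑ b : ZMod d, (if b = 0 then 0 else Wu hw e s b z * Dc hw e b y) =
      ∑ b : ZMod d, ((Fintype.card F : ℂ) - 1)⁻¹ * (ch hw e (-b) z * ch hw e b y) -
        ((Fintype.card F : ℂ) - 1)⁻¹ * (ch hw e 0 z * ch hw e 0 y) := by
    rw [eq_sub_iff_add_eq, ← add_sum_erase _ _ (mem_univ (0 : ZMod d)),
      ← add_sum_erase univ (fun b : ZMod d => ((Fintype.card F : ℂ) - 1)⁻¹ *
        (ch hw e (-b) z * ch hw e b y)) (mem_univ (0 : ZMod d)), if_pos rfl, zero_add, neg_zero,
      add_comm]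
    congr 1
    refine sum_congr rfl fun b hb => ?_
    rw [mem_erase] at hb
    rw [if_neg hb.1]
    unfold Wu Dc
    rw [if_neg (fun h => hb.1 h.1), add_zero]
    ring
  rw [h1, ← mul_sum]
  have h2 : ∑ b : ZMod d, ch hw e (-b) z * ch hw e b y =
      if y = z ∧ z ≠ 0 then (Fintype.card F : ℂ) - 1 else 0 := by
    by_cases hz : z = 0
    · rw [if_neg (fun h => h.2 hz)]
      apply sum_eq_zero
      intro b _
      rw [hz, MulChar.map_zero, zero_mul]
    · by_cases hy : y = 0
      · rw [if_neg (fun h => hz (h.1.symm.trans hy))]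
        apply sum_eq_zero
        intro b _
        rw [hy, MulChar.map_zero, mul_zero]
      · have h3 : ∀ b : ZMod d, ch hw e (-b) z * ch hw e b y = e (b * (lg d w y - lg d w z)) := by
          intro b
          rw [ch_apply hw e hz, ch_apply hw e hy, ← AddChar.map_add_eq_mul]
          congr 1
          ring
        rw [sum_congr rfl fun b _ => h3 b, sum_e he]
        by_cases hyz : y = z
        · have h4 : y = z ∧ z ≠ 0 := ⟨hyz, hz⟩
          rw [if_pos h4, hyz, sub_self, if_pos rfl, d_cast hd]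
        · have h4 : ¬ (y = z ∧ z ≠ 0) := fun h => hyz h.1
          have h5 : ¬ (lg d w y - lg d w z = 0) := fun h => hyz (lg_inj hd hw hy hz (sub_eq_zero.1 h))
          rw [if_neg h4, if_neg h5]
  rw [h2]
  unfold Wu Du
  rw [neg_zero, ch_zero]
  have h5 : -s + 1 ≠ 0 := fun h => hs3 (by linear_combination -h)
  by_cases hz : z = 0
  · subst hz
    simp only [MulChar.map_zero, ne_eq, not_true_eq_false, and_false, if_false, and_self, if_true,
      mul_zero, zero_mul, sub_zero, zero_add]
    by_cases hy : y = 0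
    · simp only [hy, if_true]
      field_simp
      ring
    · simp only [hy, if_false]
      have : 1 - s ≠ 0 := fun h => hs3 (by linear_combination -h)
      field_simp
      ring
  · rw [MulChar.one_apply (isUnit_iff_ne_zero.2 hz)]
    simp only [hz, and_false, if_false, add_zero, ne_eq, not_false_eq_true, and_true]
    by_cases hy : y = 0
    · have hyz : ¬ y = z := fun h => hz (h.symm.trans hy)
      simp only [hy, if_true, MulChar.map_zero]
      rw [if_neg (Ne.symm hz), if_neg (Ne.symm hz)]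
      field_simp
      ring
    · rw [MulChar.one_apply (isUnit_iff_ne_zero.2 hy), hq1]
      simp only [hy, if_false]
      by_cases hyz : y = z
      · simp only [hyz, if_true]
        field_simp
        ring
      · simp only [hyz, if_false]
        field_simp
        ring

include hd he in
lemma pair_Dc (u : ℂ) {b : ZMod d} (hb : b ≠ 0) (b' : ZMod d) [DecidableEq (ZMod d)] :
    ∑ x : F, Wu hw e u b' x * Dc hw e b x = if b' = b then 1 else 0 := by
  classical
  have hq := q1_ne (F := F) hd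
  have h1 : ∀ x : F, Wu hw e u b' x * Dc hw e b x =
      ((Fintype.card F : ℂ) - 1)⁻¹ * ch hw e (b - b') x := by
    intro x
    have hc : ch hw e (b - b') x = ch hw e (-b') x * ch hw e b x := by
      rw [sub_eq_neg_add, ch_add, MulChar.mul_apply]
    unfold Wu Dc
    by_cases hx : x = 0
    · rw [hx, MulChar.map_zero, MulChar.map_zero, MulChar.map_zero]
      ring
    · have hf : ¬ (b' = 0 ∧ x = 0) := fun h => hx h.2
      rw [if_neg hf, add_zero, hc]
      ring
  rw [sum_congr rfl fun x _ => h1 x, ← mul_sum, sum_ch hw he _ hd]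
  by_cases h : b' = b
  · rw [if_pos h, if_pos (by rw [h, sub_self]), inv_mul_cancel₀ hq]
  · rw [if_neg h, if_neg (fun h2 => h (sub_eq_zero.1 h2).symm), mul_zero]

include hd he in
lemma pair_Du {u : ℂ} (hu : u * u = Fintype.card F) (b' : ZMod d) [DecidableEq (ZMod d)] :
    ∑ x : F, Wu hw e u b' x * Du u x = if b' = 0 then 1 else 0 := by
  classical
  have hq := q1_ne (F := F) hd
  have hu0 := u_ne hu
  have hu1 := u1_ne hd hu
  have h1 : ∀ x : F, Wu hw e u b' x * Du u x = (2 * u * (u + 1))⁻¹ * ch hw e (-b') x +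
      if x = 0 then (if b' = 0 then (1 + u) * (2 * u)⁻¹ else 0) else 0 := by
    intro x
    unfold Wu Du
    by_cases hx : x = 0
    · subst hx
      simp only [MulChar.map_zero, and_true, if_true, mul_zero, zero_add]
      split_ifs <;> ring
    · simp only [hx, and_false, if_false, add_zero]
      ring
  rw [sum_congr rfl fun x _ => h1 x, sum_add_distrib, ← mul_sum, sum_ch hw he _ hd,
    sum_ite_eq' univ (0 : F), if_pos (mem_univ _)]
  simp only [neg_eq_zero]
  by_cases h : b' = 0
  · rw [if_pos h, if_pos h, if_pos h, ← hu]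
    field_simp
    ring
  · rw [if_neg h, if_neg h, if_neg h]
    ring

omit [NeZero d] in
lemma down {m k : ℕ} {γ : Fin (k + 1) → ZMod d}
    (h : ∀ i : Fin k, ((m - 1 : ℕ) : ZMod d) * γ i.succ + γ i.castSucc = 0) :
    ∀ (t : ℕ) (i j : Fin (k + 1)), j.val = i.val + t → γ j = 0 → γ i = 0 := by
  intro t
  induction t with
  | zero =>
    intro i j hij hj
    have : i = j := Fin.ext (by omega)
    rw [this, hj]
  | succ t ih =>
    intro i j hij hj
    have hi : i.val < k := by
      have := j.2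
      omega
    have h1 := h ⟨i.val, hi⟩
    have h2 : γ (Fin.succ ⟨i.val, hi⟩) = 0 := by
      apply ih _ j _ hj
      rw [Fin.val_succ]
      simp only
      omega
    rw [h2, mul_zero, zero_add] at h1
    exact h1

open Classical in
include hd he hψ in
/-- **the character sum of a loop** -/
theorem loop_sum {m : ℕ} (hm : 2 ≤ m) {s : ℂ} (hs : s * s = Fintype.card F) {n : ℕ}
    (a : Fin (n + 1) → F) (ha : ∀ i, a i ≠ 0) :
    ∑ x : Fin (n + 1) → F, ∏ i, ψ (a i * x i ^ (m - 1) * x (nx true i)) =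
      ∑ β : Fin (n + 1) → ZMod d, if relB m true β then
        (mu true (n + 1) (zer β) : ℂ) * s ^ (zer β) * kpr hw ψ e a β else 0 := by
  have hs' : (-s) * (-s) = Fintype.card F := by rw [neg_mul_neg, hs]
  -- opening the loop
  have h1 : ∑ x : Fin (n + 1) → F, ∏ i, ψ (a i * x i ^ (m - 1) * x (nx true i)) =
      ∑ x : Fin (n + 2) → F, (if x (Fin.last (n + 1)) = x 0 then (1 : ℂ) else 0) *
        ∏ i : Fin (n + 1), ψ (a i * x i.castSucc ^ (m - 1) * x i.succ) := by
    rw [← (Fin.snocEquiv fun _ : Fin (n + 2) => F).sum_comp, Fintype.sum_prod_type, sum_comm]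
    refine sum_congr rfl fun x _ => ?_
    have hz : ∀ y : F, (Fin.snoc x y : Fin (n + 2) → F) 0 = x 0 := by
      intro y
      have h6 := Fin.snoc_castSucc (α := fun _ => F) y x (0 : Fin (n + 1))
      rwa [Fin.castSucc_zero] at h6
    simp only [Fin.snocEquiv_apply, hz, Fin.snoc_last, Fin.snoc_castSucc, ite_mul, one_mul,
      zero_mul]
    rw [sum_ite_eq' univ (x 0), if_pos (mem_univ _)]
    refine prod_congr rfl fun i _ => ?_
    congr 2
    refine Fin.lastCases ?_ (fun j => ?_) i
    · rw [nx_last, Fin.succ_last, Fin.snoc_last]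
      rfl
    · rw [nx_castSucc, Fin.succ_castSucc, Fin.snoc_castSucc]
  have h2 : ∑ x : Fin (n + 2) → F, (if x (Fin.last (n + 1)) = x 0 then (1 : ℂ) else 0) *
        ∏ i : Fin (n + 1), ψ (a i * x i.castSucc ^ (m - 1) * x i.succ) =
      (∑ b : ZMod d, if b = 0 then 0 else Ph ψ m (n + 1) a (Wu hw e s b) (Dc hw e b)) +
        (Ph ψ m (n + 1) a (Wu hw e s 0) (Du s) + Ph ψ m (n + 1) a (Wu hw e (-s) 0) (Du (-s))) := by
    have h3 : ∀ b : ZMod d, (if b = 0 then 0 else Ph ψ m (n + 1) a (Wu hw e s b) (Dc hw e b)) =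
        ∑ x : Fin (n + 2) → F, (if b = 0 then 0 else
          Wu hw e s b (x 0) * Dc hw e b (x (Fin.last (n + 1)))) *
          ∏ i : Fin (n + 1), ψ (a i * x i.castSucc ^ (m - 1) * x i.succ) := by
      intro b
      split_ifs
      · simp
      · unfold Ph
        exact sum_congr rfl fun x _ => by ring
    rw [sum_congr rfl fun b _ => h3 b, sum_comm]
    unfold Ph
    rw [← sum_add_distrib, ← sum_add_distrib]
    refine sum_congr rfl fun x _ => ?_
    rw [ident hd hw he hs, ← sum_mul]
    ring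
  -- in terms of the labels
  have hp : ∀ (u : ℂ), u * u = Fintype.card F → ∀ (b : ZMod d) (D : F → ℂ),
      (∀ b', ∑ x, Wu hw e u b' x * D x = if b' = b then 1 else 0) →
      Ph ψ m (n + 1) a (Wu hw e u b) D = ∑ γ : Fin (n + 2) → ZMod d,
        if γ 0 = b ∧ γ (Fin.last (n + 1)) = b ∧ ∀ i : Fin (n + 1),
          ((m - 1 : ℕ) : ZMod d) * γ i.succ + γ i.castSucc = 0 then
          (∏ i : Fin (n + 1), kau hw ψ e u (a i) (γ i.succ)) else 0 := by
    intro u hu b D hD
    rw [Ph_main hd hw he hψ hm hu (n + 1) a ha]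
    refine sum_congr rfl fun γ _ => ?_
    rw [hD]
    by_cases h4 : γ 0 = b
    · by_cases h5 : γ (Fin.last (n + 1)) = b
      · simp only [h4, h5, true_and, if_true, mul_one]
      · simp only [h5, false_and, and_false, if_false, mul_zero, ite_self]
    · simp only [h4, false_and, if_false]
  have h4 : (∑ b : ZMod d, if b = 0 then 0 else Ph ψ m (n + 1) a (Wu hw e s b) (Dc hw e b)) =
      ∑ γ : Fin (n + 2) → ZMod d, if γ 0 ≠ 0 ∧ γ 0 = γ (Fin.last (n + 1)) ∧ ∀ i : Fin (n + 1),
          ((m - 1 : ℕ) : ZMod d) * γ i.succ + γ i.castSucc = 0 then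
          (∏ i : Fin (n + 1), kau hw ψ e s (a i) (γ i.succ)) else 0 := by
    have h5 : ∀ b : ZMod d, (if b = 0 then 0 else Ph ψ m (n + 1) a (Wu hw e s b) (Dc hw e b)) =
        ∑ γ : Fin (n + 2) → ZMod d, if γ 0 = b then (if γ 0 ≠ 0 ∧ γ 0 = γ (Fin.last (n + 1)) ∧
          ∀ i : Fin (n + 1), ((m - 1 : ℕ) : ZMod d) * γ i.succ + γ i.castSucc = 0 then
          (∏ i : Fin (n + 1), kau hw ψ e s (a i) (γ i.succ)) else 0) else 0 := by
      intro b
      by_cases hb : b = 0
      · rw [if_pos hb]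
        symm
        apply sum_eq_zero
        intro γ _
        by_cases h6 : γ 0 = b
        · rw [if_pos h6, if_neg]
          rintro ⟨h7, -⟩
          exact h7 (h6.trans hb)
        · rw [if_neg h6]
      · rw [if_neg hb, hp s hs b _ (fun b' => pair_Dc hd hw he s hb b')]
        refine sum_congr rfl fun γ _ => ?_
        by_cases h6 : γ 0 = b
        · rw [if_pos h6]
          have h7 : (γ 0 = b ∧ γ (Fin.last (n + 1)) = b ∧ ∀ i : Fin (n + 1),
              ((m - 1 : ℕ) : ZMod d) * γ i.succ + γ i.castSucc = 0) ↔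
              (γ 0 ≠ 0 ∧ γ 0 = γ (Fin.last (n + 1)) ∧ ∀ i : Fin (n + 1),
              ((m - 1 : ℕ) : ZMod d) * γ i.succ + γ i.castSucc = 0) := by
            rw [h6]
            constructor
            · rintro ⟨-, h8, h9⟩
              exact ⟨hb, h8.symm, h9⟩
            · rintro ⟨-, h8, h9⟩
              exact ⟨rfl, h8.symm, h9⟩
          simp only [h7]
        · rw [if_neg h6, if_neg (fun h => h6 h.1)]
    rw [sum_congr rfl fun b _ => h5 b, sum_comm]
    refine sum_congr rfl fun γ _ => ?_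
    rw [sum_ite_eq univ (γ 0), if_pos (mem_univ _)]
  rw [h1, h2, h4, hp s hs 0 _ (fun b' => pair_Du hd hw he hs b'),
    hp (-s) hs' 0 _ (fun b' => pair_Du hd hw he hs' b'), ← sum_add_distrib, ← sum_add_distrib]
  -- the closed tuples
  let H : (Fin (n + 2) → ZMod d) → ℂ := fun γ =>
    if ∀ i : Fin (n + 1), ((m - 1 : ℕ) : ZMod d) * γ i.succ + γ i.castSucc = 0 then
      (if γ 0 = 0 then (∏ i : Fin (n + 1), kau hw ψ e s (a i) (γ i.succ)) +
        (∏ i : Fin (n + 1), kau hw ψ e (-s) (a i) (γ i.succ)) else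
        (∏ i : Fin (n + 1), kau hw ψ e s (a i) (γ i.succ))) else 0
  have h5 : ∀ γ : Fin (n + 2) → ZMod d,
      ((if γ 0 ≠ 0 ∧ γ 0 = γ (Fin.last (n + 1)) ∧ ∀ i : Fin (n + 1),
          ((m - 1 : ℕ) : ZMod d) * γ i.succ + γ i.castSucc = 0 then
          (∏ i : Fin (n + 1), kau hw ψ e s (a i) (γ i.succ)) else 0) +
        ((if γ 0 = 0 ∧ γ (Fin.last (n + 1)) = 0 ∧ ∀ i : Fin (n + 1),
          ((m - 1 : ℕ) : ZMod d) * γ i.succ + γ i.castSucc = 0 then
          (∏ i : Fin (n + 1), kau hw ψ e s (a i) (γ i.succ)) else 0) +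
        (if γ 0 = 0 ∧ γ (Fin.last (n + 1)) = 0 ∧ ∀ i : Fin (n + 1),
          ((m - 1 : ℕ) : ZMod d) * γ i.succ + γ i.castSucc = 0 then
          (∏ i : Fin (n + 1), kau hw ψ e (-s) (a i) (γ i.succ)) else 0))) =
      if γ (Fin.last (n + 1)) = γ 0 then H γ else 0 := by
    intro γ
    simp only [H]
    by_cases h6 : ∀ i : Fin (n + 1), ((m - 1 : ℕ) : ZMod d) * γ i.succ + γ i.castSucc = 0
    · by_cases h7 : γ 0 = 0
      · have q1 : ¬ (γ 0 ≠ 0 ∧ γ 0 = γ (Fin.last (n + 1)) ∧ ∀ i : Fin (n + 1),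
          ((m - 1 : ℕ) : ZMod d) * γ i.succ + γ i.castSucc = 0) := fun h => h.1 h7
        by_cases h8 : γ (Fin.last (n + 1)) = γ 0
        · have q2 : γ 0 = 0 ∧ γ (Fin.last (n + 1)) = 0 ∧ ∀ i : Fin (n + 1),
            ((m - 1 : ℕ) : ZMod d) * γ i.succ + γ i.castSucc = 0 := ⟨h7, h8.trans h7, h6⟩
          rw [if_neg q1, if_pos q2, if_pos q2, if_pos h8, if_pos h6, if_pos h7, zero_add]
        · have q2 : ¬ (γ 0 = 0 ∧ γ (Fin.last (n + 1)) = 0 ∧ ∀ i : Fin (n + 1),
            ((m - 1 : ℕ) : ZMod d) * γ i.succ + γ i.castSucc = 0) :=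
              fun h => h8 (h.2.1.trans h.1.symm)
          rw [if_neg q1, if_neg q2, if_neg q2, if_neg h8, add_zero, add_zero]
      · have q2 : ¬ (γ 0 = 0 ∧ γ (Fin.last (n + 1)) = 0 ∧ ∀ i : Fin (n + 1),
            ((m - 1 : ℕ) : ZMod d) * γ i.succ + γ i.castSucc = 0) := fun h => h7 h.1
        by_cases h8 : γ (Fin.last (n + 1)) = γ 0
        · have q1 : γ 0 ≠ 0 ∧ γ 0 = γ (Fin.last (n + 1)) ∧ ∀ i : Fin (n + 1),
            ((m - 1 : ℕ) : ZMod d) * γ i.succ + γ i.castSucc = 0 := ⟨h7, h8.symm, h6⟩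
          rw [if_pos q1, if_neg q2, if_neg q2, if_pos h8, if_pos h6, if_neg h7, add_zero, add_zero]
        · have q1 : ¬ (γ 0 ≠ 0 ∧ γ 0 = γ (Fin.last (n + 1)) ∧ ∀ i : Fin (n + 1),
            ((m - 1 : ℕ) : ZMod d) * γ i.succ + γ i.castSucc = 0) := fun h => h8 h.2.1.symm
          rw [if_neg q1, if_neg q2, if_neg q2, if_neg h8, add_zero, add_zero]
    · have q1 : ¬ (γ 0 ≠ 0 ∧ γ 0 = γ (Fin.last (n + 1)) ∧ ∀ i : Fin (n + 1),
        ((m - 1 : ℕ) : ZMod d) * γ i.succ + γ i.castSucc = 0) := fun h => h6 h.2.2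
      have q2 : ¬ (γ 0 = 0 ∧ γ (Fin.last (n + 1)) = 0 ∧ ∀ i : Fin (n + 1),
        ((m - 1 : ℕ) : ZMod d) * γ i.succ + γ i.castSucc = 0) := fun h => h6 h.2.2
      rw [if_neg q1, if_neg q2, if_neg q2, if_neg h6, ite_self, add_zero, add_zero]
  rw [sum_congr rfl fun γ _ => h5 γ, sum_cons', sum_comm]
  refine sum_congr rfl fun β _ => ?_
  have h6 : ∀ c : ZMod d, (Fin.cons c β : Fin (n + 2) → ZMod d) (Fin.last (n + 1)) =
      β (Fin.last n) := by
    intro c
    rw [← Fin.succ_last, Fin.cons_succ]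
  simp only [h6, Fin.cons_zero]
  rw [sum_ite_eq univ (β (Fin.last n)), if_pos (mem_univ _)]
  simp only [H, Fin.cons_zero, Fin.cons_succ]
  have h7 : (∀ i : Fin (n + 1), ((m - 1 : ℕ) : ZMod d) * β i +
      (Fin.cons (β (Fin.last n)) β : Fin (n + 2) → ZMod d) i.castSucc = 0) ↔ relB m true β := by
    unfold relB
    simp only [sum_nx, if_true]
    refine forall_congr' fun i => ?_
    refine Fin.cases ?_ (fun j => ?_) i
    · rw [Fin.castSucc_zero, Fin.cons_zero, Fin.cons_zero, if_pos rfl, zero_add]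
    · rw [← Fin.succ_castSucc, Fin.cons_succ, Fin.cons_succ, if_neg (Fin.succ_ne_zero j).symm,
        add_zero]
  by_cases h8 : relB m true β
  · rw [if_pos (h7.2 h8), if_pos h8]
    have h9 : ∀ i : Fin (n + 1), ((m - 1 : ℕ) : ZMod d) *
        (Fin.cons (β (Fin.last n)) β : Fin (n + 2) → ZMod d) i.succ +
        (Fin.cons (β (Fin.last n)) β : Fin (n + 2) → ZMod d) i.castSucc = 0 := h7.2 h8
    have h10 := down h9
    by_cases h11 : β (Fin.last n) = 0
    · have h12 : ∀ i, β i = 0 := by
        intro i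
        have := h10 (n - i.val) i.succ (Fin.last (n + 1)) (by
          rw [Fin.val_last, Fin.val_succ]
          have := i.2
          omega) (by rw [h6, h11])
        rwa [Fin.cons_succ] at this
      have h13 : zer β = n + 1 := by
        unfold zer
        rw [filter_true_of_mem fun i _ => h12 i, card_univ, Fintype.card_fin]
      have h14 : kpr hw ψ e a β = 1 := by
        unfold kpr
        exact prod_eq_one fun i _ => if_pos (h12 i)
      rw [if_pos h11, prod_kau hw, prod_kau hw, h13, h14]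
      unfold mu
      by_cases ho : Odd (n + 1)
      · rw [if_pos ho, ho.neg_pow]
        push_cast
        ring
      · rw [if_neg ho, if_pos ⟨rfl, rfl⟩, (Nat.not_odd_iff_even.1 ho).neg_pow]
        push_cast
        ring
    · have h12 : ∀ i, β i ≠ 0 := by
        intro i hi
        apply h11
        have h15 := h10 (i.val + 1) 0 i.succ (by
          rw [Fin.val_succ, Fin.val_zero]
          omega) (by rw [Fin.cons_succ, hi])
        rwa [Fin.cons_zero] at h15
      have h13 : zer β = 0 := by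
        unfold zer
        rw [filter_false_of_mem fun i _ => h12 i, card_empty]
      rw [if_neg h11, prod_kau hw, h13]
      unfold mu
      rw [if_neg (by simp), if_neg (by simp)]
      push_cast
      ring
  · rw [if_neg (fun h => h8 (h7.1 h)), if_neg h8]

include hd he hψ in
open Classical in
/-- **the character sum of a block** -/
theorem block_sum {m : ℕ} (hm : 2 ≤ m) {s : ℂ} (hs : s * s = Fintype.card F) (lp : Bool) {r : ℕ}
    (hr : 0 < r) (a : Fin r → F) (ha : ∀ i, a i ≠ 0) :
    ∑ x : Fin r → F, ∏ i, ψ (a i * x i ^ (m - 1) * x (nx lp i)) =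
      ∑ β : Fin r → ZMod d, if relB m lp β then
        (mu lp r (zer β) : ℂ) * s ^ (zer β) * kpr hw ψ e a β else 0 := by
  obtain ⟨n, rfl⟩ : ∃ n, r = n + 1 := ⟨r - 1, by omega⟩
  cases lp
  · exact chain_sum hd hw he hψ hm hs a ha
  · exact loop_sum hd hw he hψ hm hs a ha

end

end Pool.Agent.L0h11
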