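import Mathlib
import Pool.Agent.L0h11.Prd

/-!
# The pole for a finite family of systems of lines
-/

set_option autoImplicit false
set_option linter.unusedSectionVars false

namespace Pool.Agent.L0h11

open Finset NumberField IsDedekindDomain Filter Topology
open Pool.Agent.H916K (RationalClass)

attribute [local instance] SD.ft SD.iF SD.iN

section

variable {κ : Type} [Fintype κ] {ι : κ → Type} [∀ x, Fintype (ι x)]
  (sys : ∀ x, Sys (ι x)) (mult : κ → ℕ) (co : ∀ x, ι x → ℤ) (D a : ℕ)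

/-- the sum of the normalised values of the lines -/
noncomputable def famSum {F : Type} [Field F] [Fintype F] {d : ℕ} [NeZero d] {w : F}
    (hw : IsPrimitiveRoot w d) (e : AddChar (ZMod d) ℂ) (ψ : AddChar F ℂ) : ℂ :=
  (a : ℂ) + ∑ x, (mult x : ℂ) * ∑ b ∈ (sys x).L d, lam hw e ψ (co x) b

/-- the bound -/
noncomputable def famBnd (ι : κ → Type) [∀ x, Fintype (ι x)] (mult : κ → ℕ) (D a : ℕ) : ℝ :=
  (a : ℝ) + ∑ x, (mult x : ℝ) * (D : ℝ) ^ (Fintype.card (ι x))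

lemma famSum_le (hD : 0 < D) {F : Type} [Field F] [Fintype F] {d : ℕ} [NeZero d]
    (hd : d = Nat.gcd D (Fintype.card F - 1)) {w : F}
    (hw : IsPrimitiveRoot w d) {e : AddChar (ZMod d) ℂ} (he : ∀ i, e i = 1 → i = 0)
    {ψ : AddChar F ℂ} (hψ : ψ.IsPrimitive) :
    ‖famSum sys mult co a hw e ψ‖ ≤ famBnd ι mult D a := by
  classical
  unfold famSum famBnd
  refine (norm_add_le _ _).trans (add_le_add ?_ ?_)
  · rw [Complex.norm_natCast]
  · refine (norm_sum_le _ _).trans (Finset.sum_le_sum fun x _ => ?_)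
    rw [norm_mul, Complex.norm_natCast]
    refine mul_le_mul_of_nonneg_left ?_ (Nat.cast_nonneg _)
    refine (norm_sum_le _ _).trans ?_
    refine (Finset.sum_le_sum fun b _ => norm_lam_le hw he hψ (co x) b).trans ?_
    rw [sum_const, nsmul_eq_mul, mul_one]
    have h3 : ((sys x).L d).card ≤ d ^ (Fintype.card (ι x)) := by
      refine (card_le_univ _).trans ?_
      rw [Fintype.card_fun, ZMod.card]
    have h4 : d ^ (Fintype.card (ι x)) ≤ D ^ (Fintype.card (ι x)) := by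
      apply Nat.pow_le_pow_left
      rw [hd]
      exact Nat.le_of_dvd hD (Nat.gcd_dvd_left _ _)
    exact_mod_cast h3.trans h4

/-- the trace formula -/
def TrF (k : ℕ) (tr : (F : Type) → [Field F] → ℝ) (F : Type) [Field F] : Prop :=
  ∀ [Fintype F], ∃ (d : ℕ) (_ : NeZero d) (w : F) (hw : IsPrimitiveRoot w d)
    (e : AddChar (ZMod d) ℂ) (ψ : AddChar F ℂ), d = Nat.gcd D (Fintype.card F - 1) ∧
      (∀ i, e i = 1 → i = 0) ∧ ψ.IsPrimitive ∧
      ((tr F : ℝ) : ℂ) = (Fintype.card F : ℂ) ^ k * famSum sys mult co a hw e ψ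

/-- the normalised traces -/
noncomputable def ntF (k : ℕ) (tr : (F : Type) → [Field F] → ℝ) (p : Nat.Primes) (l : ℕ) : ℂ :=
  (tr (GaloisField p l) : ℂ) / (((p : ℕ) : ℂ) ^ l) ^ k

lemma ntF_bound (hD : 0 < D) (k : ℕ) (tr : (F : Type) → [Field F] → ℝ) (p : Nat.Primes) {l : ℕ}
    (hl : 1 ≤ l) (h : TrF sys mult co D a k tr (GaloisField p l)) :
    ‖ntF k tr p l‖ ≤ famBnd ι mult D a := by
  have : Fintype (GaloisField p l) := Fintype.ofFinite _
  obtain ⟨d, _, w, hw, e, ψ, hd, he, hψ, h1⟩ := h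
  have h2 := famSum_le sys mult co D a hD hd hw he hψ
  unfold ntF
  rw [h1, GF_card p (by omega)]
  have h3 : (((p : ℕ) : ℂ) ^ l) ^ k ≠ 0 := pow_ne_zero _ (pow_ne_zero _
    (by exact_mod_cast p.2.ne_zero))
  push_cast
  rw [mul_div_cancel_left₀ _ h3]
  exact h2

/-- the number of the orbits of rational lines -/
noncomputable def famRho : ℕ := a + ∑ x, mult x * (sys x).cnt D (co x)

lemma sum_mult' {A : Type} [AddCommMonoid A] (f : κ → A) (hf : ∀ x, mult x = 0 → f x = 0) :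
    ∑ x, f x = ∑ x : {x : κ // mult x ≠ 0}, f x.1 := by
  classical
  rw [← Finset.sum_subtype (univ.filter fun x => mult x ≠ 0) (by simp) f]
  symm
  apply Finset.sum_subset (filter_subset _ _)
  intro J _ hJ
  rw [mem_filter, not_and] at hJ
  by_contra hne
  exact hJ (mem_univ _) (fun h => hne (hf J h))

theorem fam_core (hco : ∀ x i, co x i ≠ 0) (heven : ∀ x, mult x ≠ 0 → Even (Fintype.card (ι x)))
    (hD : 0 < D) (k : ℕ) (tr : (F : Type) → [Field F] → ℝ) (S : Finset ℕ)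
    (hS : ∀ p : Nat.Primes, (p : ℕ) ∉ S → ∀ l, 1 ≤ l →
      TrF sys mult co D a k tr (GaloisField p l)) :
    ∃ S' : Finset ℕ, S ⊆ S' ∧
    (∀ z : ℂ, 1 < z.re → Multipliable fun p : Nat.Primes =>
      if (p : ℕ) ∈ S' then (1 : ℂ) else Complex.exp (TT (ntF k tr p) (((p : ℕ) : ℂ) ^ (-z)))) ∧
    ∃ G : ℂ → ℂ, AnalyticAt ℂ G 1 ∧ G 1 ≠ 0 ∧ ∀ᶠ z : ℂ in 𝓝 1, 1 < z.re →
      (∏' p : Nat.Primes, if (p : ℕ) ∈ S' then (1 : ℂ) else
        Complex.exp (TT (ntF k tr p) (((p : ℕ) : ℂ) ^ (-z)))) *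
          (z - 1) ^ (famRho sys mult co D a) = G z := by
  classical
  let Jt := {x : κ // mult x ≠ 0}
  have e1 : ∀ x : Jt, Nonempty (SD (sys x.1) D (co x.1)) := fun x =>
    (sys x.1).exists_SD hD (heven x.1 x.2) (co x.1) (hco x.1)
  obtain ⟨E⟩ : Nonempty (∀ x : Jt, SD (sys x.1) D (co x.1)) := ⟨fun x => (e1 x).some⟩
  let κ' := Σ x : Jt, Fin (mult x.1) × (E x).κ
  let S' : Finset ℕ := S ∪ (univ : Finset Jt).biUnion fun x => (E x).S
  have hS' : ∀ p : Nat.Primes, (p : ℕ) ∉ S' → (p : ℕ) ∉ S ∧ ∀ x : Jt, (p : ℕ) ∉ (E x).S := by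
    intro p hp
    rw [mem_union, not_or] at hp
    refine ⟨hp.1, fun x hx => hp.2 ?_⟩
    rw [mem_biUnion]
    exact ⟨x, mem_univ _, hx⟩
  refine ⟨S', subset_union_left, ?_⟩
  let rr : κ' → ℕ := fun x => (E x.1).r x.2.2
  have hrr : a + ∑ x, rr x = famRho sys mult co D a := by
    rw [Fintype.sum_sigma]
    unfold famRho
    congr 1
    rw [sum_mult' mult (fun x => mult x * (sys x).cnt D (co x)) (fun x h => by rw [h, zero_mul])]
    refine Finset.sum_congr rfl fun x _ => ?_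
    rw [Fintype.sum_prod_type]
    have h1 : ∀ i : Fin (mult x.1), ∑ y, rr ⟨x, (i, y)⟩ = (sys x.1).cnt D (co x.1) :=
      fun i => (E x).cnt
    rw [Finset.sum_congr rfl fun i _ => h1 i, sum_const, card_univ, Fintype.card_fin, smul_eq_mul]
  have hmain := core (K := fun x : κ' => (E x.1).K x.2.2) (ψ := fun x => (E x.1).ψ x.2.2)
    (ntF k tr) S' a (fun x => (E x.1).hk x.2.2) rr (fun x => (E x.1).hr x.2.2)
    (C := famBnd ι mult D a) ?_ ?_
  · rw [hrr] at hmain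
    exact hmain
  · intro p hp l hl
    exact ntF_bound sys mult co D a hD k tr p hl (hS p (hS' p hp).1 l hl)
  · intro p hp
    obtain ⟨hp1, hp2⟩ := hS' p hp
    let _ : Fintype (GaloisField p 1) := Fintype.ofFinite _
    have hcard : Fintype.card (GaloisField p 1) = p := by rw [GF_card p one_ne_zero, pow_one]
    obtain ⟨d, _, w, hw, e, ψ, hd, he, hψ, htr⟩ := hS p hp1 1 le_rfl
    unfold ntF
    rw [htr, hcard, pow_one,
      mul_div_cancel_left₀ _ (pow_ne_zero _ (by exact_mod_cast p.2.ne_zero))]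
    unfold famSum
    congr 1
    rw [sum_mult' mult _ (fun x h => by rw [h, Nat.cast_zero, zero_mul]), Fintype.sum_sigma]
    refine Finset.sum_congr rfl fun x _ => ?_
    have h1 := (E x).val p (hp2 x) (GaloisField p 1) hcard d hd w hw e he ψ hψ
    have h2 : ∀ i : Fin (mult x.1), ∑ y : (E x).κ,
        ∑ 𝔭 ∈ (ov ((E x).K y) p).filter (fun 𝔭 => Ideal.absNorm 𝔭 = p), (E x).ψ y 𝔭 =
        ∑ b ∈ (sys x.1).L d, lam hw e ψ (co x.1) b := fun i => h1.symm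
    refine Eq.trans ?_ (Fintype.sum_prod_type _).symm
    refine Eq.trans ?_ (Finset.sum_congr rfl fun i _ => h2 i).symm
    rw [sum_const, card_univ, Fintype.card_fin, nsmul_eq_mul]

lemma ntF_term (k : ℕ) (tr : (F : Type) → [Field F] → ℝ) (p : Nat.Primes) (s : ℂ) (l : ℕ) :
    (tr (GaloisField p (l + 1)) : ℂ) *
      ((p : ℕ) : ℂ) ^ (-(((l + 1 : ℕ) : ℂ) * s)) / ((l + 1 : ℕ) : ℂ) =
    ntF k tr p (l + 1) * (((p : ℕ) : ℂ) ^ (-(s - (k : ℂ)))) ^ (l + 1) /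
      ((l + 1 : ℕ) : ℂ) := by
  have hp : ((p : ℕ) : ℂ) ≠ 0 := by exact_mod_cast p.2.ne_zero
  rw [← DiagProduct.cpow_shift']
  unfold ntF
  have h1 : (((p : ℕ) : ℂ) ^ (l + 1)) ^ k ≠ 0 := pow_ne_zero _ (pow_ne_zero _ hp)
  field_simp

/-- **The pole of the L-function.** -/
theorem fam_pole (hco : ∀ x i, co x i ≠ 0) (heven : ∀ x, mult x ≠ 0 → Even (Fintype.card (ι x)))
    (hD : 0 < D) (k : ℕ) (tr : (F : Type) → [Field F] → ℝ) (S : Finset Nat.Primes)
    (hS : ∀ p ∉ S, ∀ l, 1 ≤ l → TrF sys mult co D a k tr (GaloisField p l))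
    (P : Nat.Primes → Polynomial ℂ)
    (hP : ∀ p ∈ S, (P p).eval (((p : ℕ) : ℂ) ^ (-((k + 1 : ℕ) : ℂ))) ≠ 0)
    (loc : Nat.Primes → ℂ → ℂ) (hloc : ∀ p s, loc p s = Complex.exp (∑' l : ℕ,
      (tr (GaloisField p (l + 1)) : ℂ) * ((p : ℕ) : ℂ) ^ (-(((l + 1 : ℕ) : ℂ) * s)) /
        ((l + 1 : ℕ) : ℂ))) :
    (∀ p ∉ S, ∀ s : ℂ, ((k + 1 : ℕ) : ℝ) < s.re → Summable fun l : ℕ =>
      (tr (GaloisField p (l + 1)) : ℂ) *
        ((p : ℕ) : ℂ) ^ (-(((l + 1 : ℕ) : ℂ) * s)) / ((l + 1 : ℕ) : ℂ)) ∧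
    (∀ s : ℂ, ((k + 1 : ℕ) : ℝ) < s.re → Multipliable fun p : Nat.Primes =>
      if p ∈ S then ((P p).eval (((p : ℕ) : ℂ) ^ (-s)))⁻¹ else loc p s) ∧
    ∃ G : ℂ → ℂ, AnalyticAt ℂ G ((k + 1 : ℕ) : ℂ) ∧ G ((k + 1 : ℕ) : ℂ) ≠ 0 ∧
      ∀ᶠ s : ℂ in 𝓝 ((k + 1 : ℕ) : ℂ), ((k + 1 : ℕ) : ℝ) < s.re →
        (∏' p : Nat.Primes, if p ∈ S then ((P p).eval (((p : ℕ) : ℂ) ^ (-s)))⁻¹ else loc p s) *
          (s - ((k + 1 : ℕ) : ℂ)) ^ (famRho sys mult co D a) = G s := by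
  classical
  set S0 : Finset ℕ := S.image (fun p : Nat.Primes => (p : ℕ)) with hS0
  have hmem0 : ∀ p : Nat.Primes, (p : ℕ) ∈ S0 ↔ p ∈ S := by
    intro p
    rw [hS0, mem_image]
    constructor
    · rintro ⟨p', h1, h2⟩
      have h3 : p' = p := Subtype.ext h2
      rwa [← h3]
    · intro h
      exact ⟨p, h, rfl⟩
  obtain ⟨S', hSS, hmul, G, hG, hG1, hGL⟩ := fam_core sys mult co D a hco heven hD k tr S0
    (fun p hp l hl => hS p (fun h => hp ((hmem0 p).2 h)) l hl)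
  have hC : ∀ p ∉ S, ∀ l, 1 ≤ l → ‖ntF k tr p l‖ ≤ famBnd ι mult D a := fun p hp l hl =>
    ntF_bound sys mult co D a hD k tr p hl (hS p hp l hl)
  obtain ⟨h1, h2⟩ := shift (τ := ntF k tr) hC (fun p hp => hSS ((hmem0 p).2 hp)) hmul hG hG1 hGL k P
    hP loc (fun p _ s => by
      rw [hloc]
      unfold TT
      congr 1
      exact tsum_congr fun l => ntF_term k tr p s l)
  refine ⟨?_, h1, h2⟩
  intro p hp s hs
  have hs' : 3 / 4 ≤ (s - (k : ℂ)).re := by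
    rw [Complex.sub_re, Complex.natCast_re]
    push_cast at hs
    linarith
  have h3 := TT_summable (hC p hp) (x := ((p : ℕ) : ℂ) ^ (-(s - (k : ℂ))))
    (lt_of_le_of_lt ((norm_p p hs').trans (par_le p.2.two_le)) (by norm_num))
  exact h3.congr fun l => (ntF_term k tr p s l).symm

end

end Pool.Agent.L0h11
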