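import Mathlib
import Pool.Agent.H916K.Defs
import Pool.Agent.Y2.Cv.Defs
import Pool.Agent.L0h11.Nx

/-!
# Hypersurfaces given by invertible polynomials (Delsarte hypersurfaces): definitions

The polynomials are sums of blocks, in separate variables, of degree `m`. A block is a chain
`c_0 * x_0 ^ (m - 1) * x_1 + ... + c_(r-2) * x_(r-2) ^ (m - 1) * x_(r-1) + c_(r-1) * x_(r-1) ^ m`
(for `r = 1` this is `c_0 * x_0 ^ m`) or a loop
`c_0 * x_0 ^ (m - 1) * x_1 + ... + c_(r-2) * x_(r-2) ^ (m - 1) * x_(r-1) + c_(r-1) * x_(r-1) ^ (m - 1) * x_0`.
-/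

set_option autoImplicit false

namespace Pool.Agent.L0h11

open scoped LinearAlgebra.Projectivization

/-- A hypersurface `X` of degree `m ≥ 3` and even dimension `n = N - 2` over the rational numbers: the
sum of the blocks `j < l`, the block `j` being the loop (if `loop j` holds) or the chain of length
`len j`, with nonzero integral coefficients `c`, in the `N = ∑ len j` variables `(j, i)`, `i < len j`.
At least one block has a length greater than one, i.e. `X` is not diagonal in these coordinates. -/
structure Delsarte where
  l : ℕ
  m : ℕ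
  len : Fin l → ℕ
  loop : Fin l → Bool
  c : (Σ j : Fin l, Fin (len j)) → ℤ
  three_le : 3 ≤ m
  len_pos : ∀ j, 0 < len j
  c_ne : ∀ x, c x ≠ 0
  not_diag : ∃ j, 2 ≤ len j
  even : Even (∑ j, len j)

namespace Delsarte

variable (X : Delsarte)

/-- the set of the variables -/
abbrev Idx : Type := Σ j : Fin X.l, Fin (X.len j)

/-- the number of the variables -/
def N : ℕ := ∑ j, X.len j

/-- the successor of a variable in its block -/
def next (x : X.Idx) : X.Idx := ⟨x.1, nx (X.loop x.1) x.2⟩

/-- The number of points of `X` over the field `F`. -/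
noncomputable def points (F : Type) [Field F] : ℕ :=
  Nat.card {P : ℙ F (X.Idx → F) //
    ∑ x, (X.c x : F) * P.rep x ^ (X.m - 1) * P.rep (X.next x) = 0}

/-- The trace of the Frobenius endomorphism over a field `F` with `q` elements (over which `X` is
smooth) on the cohomology `H ^ n (X)`, by the trace formula: the number of points minus the sum of the
`q ^ j` with `0 ≤ j ≤ n` and `j ≠ n / 2`. -/
noncomputable def trace (F : Type) [Field F] : ℝ :=
  (X.points F : ℝ) - ∑ j ∈ (Finset.range (X.N - 1)).erase (X.N / 2 - 1), (Nat.card F : ℝ) ^ j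

/-- The Euler factor `det (1 - Frob_p * p ^ (-s) | H ^ n) ^ (-1)` of `X` at a prime `p` of good
reduction, as the exponential of the sum over `k ≥ 1` (here `k + 1`) of
`tr (Frob_p ^ k | H ^ n) * p ^ (-k * s) / k`. -/
noncomputable def localFactor (p : Nat.Primes) (s : ℂ) : ℂ :=
  have : Fact (p : ℕ).Prime := ⟨p.2⟩
  Complex.exp (∑' k : ℕ, (X.trace (GaloisField p (k + 1)) : ℂ) *
    ((p : ℕ) : ℂ) ^ (-(((k + 1 : ℕ) : ℂ) * s)) / ((k + 1 : ℕ) : ℂ))

/-- The L-function of `H ^ n (X)` with the Euler factors `(P_p (p ^ (-s))) ^ (-1)` at the primes `p`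
of the finite set `S`. -/
noncomputable def LFunction (S : Finset Nat.Primes) (P : Nat.Primes → Polynomial ℂ) (s : ℂ) : ℂ :=
  ∏' p : Nat.Primes, if p ∈ S then ((P p).eval (((p : ℕ) : ℂ) ^ (-s)))⁻¹ else X.localFactor p s

/-- The least common multiple `D` of the determinants (up to the sign) of the matrices of the
exponents of the blocks: `m * (m - 1) ^ (r - 1)` for a chain and `|(1 - m) ^ r - 1|` for a loop of
length `r`. -/
def D : ℕ := Finset.univ.lcm fun j =>
  if X.loop j then ((1 - (X.m : ℤ)) ^ X.len j - 1).natAbs else X.m * (X.m - 1) ^ (X.len j - 1)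

/-- The primes at which `X` is not smooth: those dividing `D` or a coefficient. -/
def Bad (p : Nat.Primes) : Prop := (p : ℕ) ∣ X.D ∨ ∃ x, ((p : ℕ) : ℤ) ∣ X.c x

/-- extension by zero -/
def ext (J : Finset X.Idx) {M : ℕ} (b : {x // x ∈ J} → ZMod M) (x : X.Idx) : ZMod M :=
  if h : x ∈ J then b ⟨x, h⟩ else 0

/-- The lines of exact level `M` with the support `J`: the families `b` of nonzero residues modulo `M`,
indexed by the variables in `J`, with sum zero, such that for the extension `b'` of `b` by zero and
for all variables `y` the sum of `(m - 1) * b' y` and of the `b' x` with `next x = y` is zero, and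
which do not come from a proper divisor of `M`. -/
def IsLine (J : Finset X.Idx) (M : ℕ) (b : {x // x ∈ J} → ZMod M) : Prop :=
  ((∀ x, b x ≠ 0) ∧ ∑ x, b x = 0 ∧ ∀ y, ((X.m - 1 : ℕ) : ZMod M) * X.ext J b y +
    ∑ x ∈ Finset.univ.filter (fun x => X.next x = y), X.ext J b x = 0) ∧
  ∀ k : ℕ, (∀ x, (k : ZMod M) * b x = 0) → M ∣ k

/-- the multiset of the pairs of the entries and the coefficients -/
def pairs {J : Finset X.Idx} {M : ℕ} (b : {x // x ∈ J} → ZMod M) : Multiset (ZMod M × ℤ) :=
  Finset.univ.val.map fun x => (b x, X.c x.1)

/-- The multiplicity of the lines with the support `J` in `H ^ n (X)`: zero if a block contains an odd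
number of variables outside `J`; otherwise `2 ^ a`, where `a` is the number of the loops without
variables in `J`. -/
def mult (J : Finset X.Idx) : ℕ :=
  ∏ j, mu (X.loop j) (X.len j) (Finset.univ.filter fun i => (⟨j, i⟩ : X.Idx) ∉ J).card

/-- The number of the Galois orbits of lines in `H ^ n (X)(n / 2)` with trivial Galois action: the
additional `1` is for the class of the intersection of `n / 2` hyperplanes; the group of the
units modulo `M` acts freely on the lines of exact level `M`, and the Galois group of the field of
`M`-th roots of unity acts trivially on the line of `b` if and only if `RationalClass M (X.pairs b)`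
holds. -/
noncomputable def rho : ℕ :=
  1 + ∑ J : Finset X.Idx, X.mult J * ∑ M ∈ X.D.divisors, Nat.card {b : {x // x ∈ J} → ZMod M //
    X.IsLine J M b ∧ Pool.Agent.H916K.RationalClass M (X.pairs b)} / M.totient

/-- The line of `b` is algebraic, by the following theorems: for a multiple `m'` of `M` the multiset
of the residues `(m' / M) * b_x` belongs to the smallest family of multisets of residues modulo `m'`
which contains the Hodge characters with four entries and the curve products (unions of two
characters of curves, or of Fermat threefolds with empty Fine interior, which are Hodge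
characters), the pairs `{a, -a}` and the standard characters of Aoki and Shioda, and which is closed
under union and under removing a pair `{a, -a}`. -/
def AlgebraicLine {J : Finset X.Idx} (M : ℕ) (b : {x // x ∈ J} → ZMod M) : Prop :=
  ∃ m' : ℕ, 0 < m' ∧ M ∣ m' ∧ Pool.Agent.H916R2.Generated m'
    (Pool.Agent.Y2.Cv.SurfaceOrCurveProduct m')
    (Finset.univ.val.map fun x => ((m' / M * (b x).val : ℕ) : ZMod m'))

end Delsarte

end Pool.Agent.L0h11
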