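import Mathlib
import Pool.Agent.L0h11.Bk2
import Pool.Agent.L0h11.Ld
import Pool.Agent.L0h11.Fam

/-!
# The systems of lines of a Delsarte hypersurface
-/

set_option autoImplicit false
set_option linter.unusedSectionVars false

namespace Pool.Agent.L0h11

open Finset

/-- the determinant of a block -/
def detB (m : ℕ) (lp : Bool) (r : ℕ) : ℕ :=
  if lp then ((1 - (m : ℤ)) ^ r - 1).natAbs else m * (m - 1) ^ (r - 1)

lemma relB_false {m n M : ℕ} (hm : 1 ≤ m) {β : Fin (n + 1) → ZMod M} :
    relB m false β ↔ (∀ i : Fin n, ((m - 1 : ℕ) : ZMod M) * β i.castSucc +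
      (Fin.cons 0 β : Fin (n + 2) → ZMod M) i.castSucc.castSucc = 0) ∧
      (m : ZMod M) * β (Fin.last n) +
        (Fin.cons 0 β : Fin (n + 2) → ZMod M) (Fin.last n).castSucc = 0 := by
  unfold relB
  simp only [sum_nx]
  rw [Fin.forall_fin_succ']
  refine and_congr (forall_congr' fun i => ?_) ?_
  · simp only [Bool.false_eq_true, if_false]
    rw [if_neg (Fin.castSucc_lt_last i).ne', add_zero]
  · simp only [Bool.false_eq_true, if_false, if_true]
    rw [Nat.cast_sub hm, Nat.cast_one]
    have h7 : ∀ x y : ZMod M, ((m : ZMod M) - 1) * x + (y + x) = (m : ZMod M) * x + y := by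
      intro x y
      ring
    rw [h7]

lemma relB_true {m n M : ℕ} {β : Fin (n + 1) → ZMod M} :
    relB m true β ↔ ∀ i : Fin (n + 1), ((m - 1 : ℕ) : ZMod M) * β i +
      (Fin.cons (β (Fin.last n)) β : Fin (n + 2) → ZMod M) i.castSucc = 0 := by
  unfold relB
  simp only [sum_nx, if_true]
  refine forall_congr' fun i => ?_
  refine Fin.cases ?_ (fun j => ?_) i
  · rw [Fin.castSucc_zero, Fin.cons_zero, Fin.cons_zero, if_pos rfl, zero_add]
  · rw [← Fin.succ_castSucc, Fin.cons_succ, Fin.cons_succ, if_neg (Fin.succ_ne_zero j).symm,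
      add_zero]

/-- the determinant kills the solutions -/
lemma detB_mul {m M : ℕ} (hm : 1 ≤ m) (lp : Bool) {r : ℕ} {β : Fin r → ZMod M}
    (h : relB m lp β) (i : Fin r) : (detB m lp r : ZMod M) * β i = 0 := by
  obtain ⟨n, rfl⟩ : ∃ n, r = n + 1 := ⟨r - 1, by have := i.2; omega⟩
  unfold detB
  cases lp
  · -- chains
    simp only [Bool.false_eq_true, if_false, Nat.add_sub_cancel]
    obtain ⟨h1, h2⟩ := (relB_false hm).1 h
    have h3 : ∀ (k : ℕ) (hk : k ≤ n), ((m - 1 : ℕ) : ZMod M) ^ k *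
        (Fin.cons 0 β : Fin (n + 2) → ZMod M) ⟨k, by omega⟩ = 0 := by
      intro k
      induction k with
      | zero =>
        intro _
        have : (⟨0, by omega⟩ : Fin (n + 2)) = 0 := rfl
        rw [this, Fin.cons_zero, mul_zero]
      | succ k ih =>
        intro hk
        have h4 := h1 ⟨k, by omega⟩
        have h5 : (⟨k, by omega⟩ : Fin n).castSucc.castSucc = (⟨k, by omega⟩ : Fin (n + 2)) := rfl
        have h6 : (⟨k + 1, by omega⟩ : Fin (n + 2)) =
          Fin.succ (⟨k, by omega⟩ : Fin n).castSucc := rfl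
        rw [h5] at h4
        rw [h6, Fin.cons_succ, pow_succ, mul_assoc]
        have h7 : ((m - 1 : ℕ) : ZMod M) * β (⟨k, by omega⟩ : Fin n).castSucc =
            -(Fin.cons 0 β : Fin (n + 2) → ZMod M) ⟨k, by omega⟩ := eq_neg_of_add_eq_zero_left h4
        rw [h7, mul_neg, ih (by omega), neg_zero]
    push_cast
    refine Fin.lastCases ?_ (fun j => ?_) i
    · have h4 : (m : ZMod M) * β (Fin.last n) =
          -(Fin.cons 0 β : Fin (n + 2) → ZMod M) (Fin.last n).castSucc :=
        eq_neg_of_add_eq_zero_left h2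
      have h5 := h3 n le_rfl
      have h6 : (⟨n, by omega⟩ : Fin (n + 2)) = (Fin.last n).castSucc := rfl
      rw [h6] at h5
      rw [mul_comm (m : ZMod M), mul_assoc, h4, mul_neg, h5, neg_zero]
    · have h5 := h3 (j.val + 1) (by have := j.2; omega)
      have h6 : (⟨j.val + 1, by omega⟩ : Fin (n + 2)) = Fin.succ j.castSucc := rfl
      rw [h6, Fin.cons_succ] at h5
      have h7 : ((m - 1 : ℕ) : ZMod M) ^ n = ((m - 1 : ℕ) : ZMod M) ^ (n - (j.val + 1)) *
          ((m - 1 : ℕ) : ZMod M) ^ (j.val + 1) := by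
        rw [← pow_add]
        congr 1
        have := j.2
        omega
      rw [h7]
      calc (m : ZMod M) * (((m - 1 : ℕ) : ZMod M) ^ (n - (j.val + 1)) *
          ((m - 1 : ℕ) : ZMod M) ^ (j.val + 1)) * β j.castSucc =
          (m : ZMod M) * ((m - 1 : ℕ) : ZMod M) ^ (n - (j.val + 1)) *
          (((m - 1 : ℕ) : ZMod M) ^ (j.val + 1) * β j.castSucc) := by ring
        _ = 0 := by rw [h5, mul_zero]
  · -- loops
    simp only [if_true]
    have h1 := relB_true.1 h
    set γ : Fin (n + 2) → ZMod M := Fin.cons (β (Fin.last n)) β with hγ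
    have h2 : ∀ i : Fin (n + 1), γ i.castSucc = (1 - (m : ZMod M)) * γ i.succ := by
      intro i
      have h3 := h1 i
      rw [Nat.cast_sub hm, Nat.cast_one] at h3
      have h4 : γ i.succ = β i := by rw [hγ, Fin.cons_succ]
      rw [h4]
      linear_combination h3
    have h3 : ∀ (t : ℕ) (i j : Fin (n + 2)), j.val = i.val + t →
        γ i = (1 - (m : ZMod M)) ^ t * γ j := by
      intro t
      induction t with
      | zero =>
        intro i j hij
        have : i = j := Fin.ext (by omega)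
        rw [this, pow_zero, one_mul]
      | succ t ih =>
        intro i j hij
        have hi : i.val < n + 1 := by
          have := j.2
          omega
        have h4 := h2 ⟨i.val, hi⟩
        have h5 := ih (Fin.succ ⟨i.val, hi⟩) j (by
          rw [Fin.val_succ]
          simp only
          omega)
        rw [h5] at h4
        have h6 : Fin.castSucc (⟨i.val, hi⟩ : Fin (n + 1)) = i := rfl
        rw [h6] at h4
        rw [h4, pow_succ]
        ring
    have hd : ((((1 - (m : ℤ)) ^ (n + 1) - 1).natAbs : ℕ) : ZMod M) * γ (Fin.last (n + 1)) = 0 := by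
      have h4 := h3 (n + 1) 0 (Fin.last (n + 1)) (by
        rw [Fin.val_last, Fin.val_zero]
        omega)
      have h5 : γ 0 = γ (Fin.last (n + 1)) := by
        rw [hγ, Fin.cons_zero, ← Fin.succ_last, Fin.cons_succ]
      rw [h5] at h4
      have h6 : (((1 - (m : ℤ)) ^ (n + 1) - 1 : ℤ) : ZMod M) * γ (Fin.last (n + 1)) = 0 := by
        push_cast
        linear_combination -h4
      rcases Int.natAbs_eq ((1 - (m : ℤ)) ^ (n + 1) - 1) with h7 | h7
      · rw [h7] at h6
        rwa [Int.cast_natCast] at h6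
      · rw [h7, Int.cast_neg, neg_mul, neg_eq_zero, Int.cast_natCast] at h6
        exact h6
    have h4 := h3 (n - i.val) i.succ (Fin.last (n + 1)) (by
      rw [Fin.val_last, Fin.val_succ]
      have := i.2
      omega)
    have h5 : γ i.succ = β i := by rw [hγ, Fin.cons_succ]
    rw [← h5, h4, mul_left_comm, hd, mul_zero]

lemma detB_pos {m : ℕ} (hm : 3 ≤ m) (lp : Bool) {r : ℕ} (hr : 0 < r) : 0 < detB m lp r := by
  unfold detB
  cases lp
  · simp only [Bool.false_eq_true, if_false]
    exact Nat.mul_pos (by omega) (Nat.pow_pos (by omega))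
  · simp only [if_true]
    rw [Int.natAbs_pos, sub_ne_zero]
    intro h
    have h1 : ((1 - (m : ℤ)) ^ r).natAbs = 1 := by rw [h]; rfl
    rw [Int.natAbs_pow] at h1
    have h2 : 2 ≤ (1 - (m : ℤ)).natAbs := by omega
    have h3 : 1 < (1 - (m : ℤ)).natAbs ^ r := Nat.one_lt_pow hr.ne' h2
    omega

namespace Delsarte

variable (X : Delsarte)

lemma D_eq : X.D = univ.lcm fun j => detB X.m (X.loop j) (X.len j) := rfl

lemma D_pos : 0 < X.D := by
  rw [D_eq, Nat.pos_iff_ne_zero, Ne, Finset.lcm_eq_zero_iff]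
  rintro ⟨j, -, hj⟩
  exact (detB_pos X.three_le (X.loop j) (X.len_pos j)).ne' hj

lemma det_dvd (j : Fin X.l) : detB X.m (X.loop j) (X.len j) ∣ X.D := by
  rw [D_eq]
  exact Finset.dvd_lcm (mem_univ j)

/-- the sum over the predecessors -/
lemma sum_next {A : Type} [AddCommMonoid A] (β : X.Idx → A) (y : X.Idx) :
    ∑ x ∈ univ.filter (fun x => X.next x = y), β x =
      ∑ i ∈ univ.filter (fun i => nx (X.loop y.1) i = y.2), β ⟨y.1, i⟩ := by
  classical
  rw [sum_filter, sum_filter, Fintype.sum_sigma, sum_eq_single y.1]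
  · refine Finset.sum_congr rfl fun i _ => ?_
    have h1 : X.next ⟨y.1, i⟩ = y ↔ nx (X.loop y.1) i = y.2 := by
      unfold next
      constructor
      · intro h
        obtain ⟨j, k⟩ := y
        simp only [Sigma.mk.injEq, heq_eq_eq, true_and] at h
        exact h
      · intro h
        obtain ⟨j, k⟩ := y
        simp only [Sigma.mk.injEq, heq_eq_eq, true_and]
        exact h
    by_cases h2 : nx (X.loop y.1) i = y.2
    · rw [if_pos h2, if_pos (h1.2 h2)]
    · rw [if_neg h2, if_neg (fun h => h2 (h1.1 h))]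
  · intro j _ hj
    apply sum_eq_zero
    intro i _
    rw [if_neg]
    intro h
    exact hj (congrArg Sigma.fst h)
  · intro h
    exact absurd (mem_univ _) h

/-- the relations -/
def Rel {M : ℕ} (β : X.Idx → ZMod M) : Prop :=
  ∀ y, ((X.m - 1 : ℕ) : ZMod M) * β y + ∑ x ∈ univ.filter (fun x => X.next x = y), β x = 0

lemma rel_iff {M : ℕ} (β : X.Idx → ZMod M) :
    X.Rel β ↔ ∀ j, relB X.m (X.loop j) (fun i => β ⟨j, i⟩) := by
  unfold Rel relB
  simp only [sum_next]
  constructor
  · intro h j i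
    exact h ⟨j, i⟩
  · intro h y
    exact h y.1 y.2

lemma ext_apply {J : Finset X.Idx} {M : ℕ} (b : {x // x ∈ J} → ZMod M) (x : {x // x ∈ J}) :
    X.ext J b x.1 = b x := by
  unfold ext
  rw [dif_pos x.2]

lemma D_mul {J : Finset X.Idx} {M : ℕ} (b : {x // x ∈ J} → ZMod M) (h : X.Rel (X.ext J b))
    (x : {x // x ∈ J}) : (X.D : ZMod M) * b x = 0 := by
  have h1 := detB_mul (by have := X.three_le; omega) (X.loop x.1.1) ((X.rel_iff _).1 h x.1.1) x.1.2
  have h2 : X.ext J b ⟨x.1.1, x.1.2⟩ = b x := X.ext_apply b x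
  rw [h2] at h1
  obtain ⟨k, hk⟩ := X.det_dvd x.1.1
  rw [hk, Nat.cast_mul, mul_right_comm, h1, zero_mul]

lemma ext_up (J : Finset X.Idx) {M d : ℕ} [NeZero M] [NeZero d] (h : M ∣ d)
    (b : {x // x ∈ J} → ZMod M) (x : X.Idx) :
    X.ext J (fun i => up h (b i)) x = up h (X.ext J b x) := by
  unfold ext
  split_ifs
  · rfl
  · rw [map_zero]

lemma rel_up (J : Finset X.Idx) {M d : ℕ} [NeZero M] [NeZero d] (h : M ∣ d)
    (b : {x // x ∈ J} → ZMod M) : X.Rel (X.ext J fun i => up h (b i)) ↔ X.Rel (X.ext J b) := by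
  unfold Rel
  refine forall_congr' fun y => ?_
  have h1 : ((X.m - 1 : ℕ) : ZMod d) * X.ext J (fun i => up h (b i)) y +
      ∑ x ∈ univ.filter (fun x => X.next x = y), X.ext J (fun i => up h (b i)) x =
      up h (((X.m - 1 : ℕ) : ZMod M) * X.ext J b y +
        ∑ x ∈ univ.filter (fun x => X.next x = y), X.ext J b x) := by
    rw [map_add, map_sum, ← nsmul_eq_mul, ← nsmul_eq_mul, map_nsmul, ext_up]
    congr 1
    exact Finset.sum_congr rfl fun x _ => X.ext_up J h b x
  rw [h1, up_eq_zero]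

lemma rel_tb (J : Finset X.Idx) {M : ℕ} (t : (ZMod M)ˣ) (b : {x // x ∈ J} → ZMod M)
    (h : X.Rel (X.ext J b)) : X.Rel (X.ext J (tb t b)) := by
  intro y
  have h1 : ∀ x, X.ext J (tb t b) x = (t : ZMod M) * X.ext J b x := by
    intro x
    unfold ext tb
    split_ifs
    · rfl
    · rw [mul_zero]
  have h2 := h y
  rw [h1, Finset.sum_congr rfl fun x _ => h1 x, ← mul_sum, mul_left_comm, ← mul_add, h2, mul_zero]

/-- the system of lines with the support `J` -/
def sys (J : Finset X.Idx) : Sys {x // x ∈ J} where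
  A M b := (∀ x, b x ≠ 0) ∧ ∑ x, b x = 0 ∧ X.Rel (X.ext J b)
  nz M b h := h.1
  sum M b h := h.2.1
  lvl M d _ _ h b := by
    have e1 : (∀ x, up h (b x) ≠ 0) ↔ ∀ x, b x ≠ 0 :=
      forall_congr' fun x => (up_eq_zero h).not
    have e2 : ∑ x, up h (b x) = 0 ↔ ∑ x, b x = 0 := by
      rw [← map_sum, up_eq_zero]
    rw [e1, e2, rel_up]
  unit M t b h := by
    refine ⟨fun x hx => h.1 x ((Units.mul_right_eq_zero t).1 hx), ?_, X.rel_tb J t b h.2.2⟩
    unfold tb
    rw [← mul_sum, h.2.1, mul_zero]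

/-- the coefficients -/
def co (J : Finset X.Idx) : {x // x ∈ J} → ℤ := fun x => X.c x.1

lemma isLine_iff {J : Finset X.Idx} {M : ℕ} (b : {x // x ∈ J} → ZMod M) :
    X.IsLine J M b ↔ (X.sys J).A M b ∧ IsPrm M b := Iff.rfl

lemma pairs_eq {J : Finset X.Idx} {M : ℕ} (b : {x // x ∈ J} → ZMod M) :
    X.pairs b = prs (X.co J) b := rfl

lemma rho_eq : X.rho = famRho X.sys X.mult X.co X.D 1 := rfl

/-- the number of the variables outside the support -/
lemma sum_out (J : Finset X.Idx) :
    ∑ j, (univ.filter fun i => (⟨j, i⟩ : X.Idx) ∉ J).card + J.card = X.N := by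
  classical
  have h1 : ∑ j, (univ.filter fun i => (⟨j, i⟩ : X.Idx) ∉ J).card =
      (univ.filter fun x : X.Idx => x ∉ J).card := by
    rw [card_eq_sum_ones, sum_filter, Fintype.sum_sigma]
    refine Finset.sum_congr rfl fun j _ => ?_
    rw [card_eq_sum_ones, sum_filter]
  have h2 : (univ.filter fun x : X.Idx => x ∉ J) = Jᶜ := by
    ext x
    simp
  have h3 : Fintype.card X.Idx = X.N := by
    rw [Fintype.card_sigma]
    exact Finset.sum_congr rfl fun j _ => Fintype.card_fin _
  rw [h1, h2, card_compl, h3]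
  have := card_le_univ J
  rw [h3] at this
  omega

lemma even_of_mult {J : Finset X.Idx} (h : X.mult J ≠ 0) : Even J.card := by
  unfold mult at h
  rw [prod_ne_zero_iff] at h
  have h1 : ∀ j, Even (univ.filter fun i => (⟨j, i⟩ : X.Idx) ∉ J).card := by
    intro j
    have h2 := h j (mem_univ _)
    unfold mu at h2
    rw [← Nat.not_odd_iff_even]
    intro ho
    rw [if_pos ho] at h2
    exact h2 rfl
  have h2 := X.sum_out J
  have h3 : Even (∑ j, (univ.filter fun i => (⟨j, i⟩ : X.Idx) ∉ J).card) :=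
    Finset.even_sum _ fun j _ => h1 j
  have h4 : Even X.N := X.even
  rw [← h2, Nat.even_add] at h4
  exact h4.1 h3

end Delsarte

end Pool.Agent.L0h11
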