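import Mathlib
import Pool.Agent.L0h11.Dl

/-!
# The trace formula for Delsarte hypersurfaces
-/

set_option autoImplicit false
set_option linter.unusedSectionVars false

namespace Pool.Agent.L0h11

open Finset
open scoped LinearAlgebra.Projectivization

/-- nonzero vectors of a conic set, and points of projective space -/
noncomputable def coneEquiv' {F V : Type} [Field F] [AddCommGroup V] [Module F V] (Z : V → Prop)
    (hZ : ∀ (u : Fˣ) (x : V), Z (u • x) ↔ Z x) :
    {x : V // x ≠ 0 ∧ Z x} ≃ {P : ℙ F V // Z P.rep} × Fˣ where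
  toFun x := (⟨Projectivization.mk F x.1 x.2.1, by
      obtain ⟨a, ha⟩ := Projectivization.exists_smul_eq_mk_rep F x.1 x.2.1
      rw [← ha, hZ]
      exact x.2.2⟩, (Projectivization.exists_smul_eq_mk_rep F x.1 x.2.1).choose⁻¹)
  invFun y := ⟨y.2 • y.1.1.rep, by
    rw [Ne, Units.smul_def, smul_eq_zero]
    push Not
    exact ⟨y.2.ne_zero, y.1.1.rep_nonzero⟩, (hZ _ _).2 y.1.2⟩
  left_inv x := by
    apply Subtype.ext
    show (Projectivization.exists_smul_eq_mk_rep F x.1 x.2.1).choose⁻¹ •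
      (Projectivization.mk F x.1 x.2.1).rep = x.1
    rw [inv_smul_eq_iff]
    exact (Projectivization.exists_smul_eq_mk_rep F x.1 x.2.1).choose_spec.symm
  right_inv y := by
    obtain ⟨⟨P, hP⟩, u⟩ := y
    have hne : u • P.rep ≠ 0 := by
      rw [Ne, Units.smul_def, smul_eq_zero]
      push Not
      exact ⟨u.ne_zero, P.rep_nonzero⟩
    have h1 : Projectivization.mk F (u • P.rep) hne = P := by
      conv_rhs => rw [← P.mk_rep]
      rw [Projectivization.mk_eq_mk_iff]
      exact ⟨u, rfl⟩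
    have h2 := (Projectivization.exists_smul_eq_mk_rep F (u • P.rep) hne).choose_spec
    have h3 : (Projectivization.exists_smul_eq_mk_rep F (u • P.rep) hne).choose⁻¹ = u := by
      set a := (Projectivization.exists_smul_eq_mk_rep F (u • P.rep) hne).choose
      have h4 : (Projectivization.mk F (u • P.rep) hne).rep = P.rep := by rw [h1]
      rw [h4, smul_smul] at h2
      have h5 : ((a * u : Fˣ) : F) = 1 := by
        have h6 : ((a * u : Fˣ) : F) • P.rep = (1 : F) • P.rep := by
          rw [one_smul]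
          exact h2
        rw [← sub_eq_zero, ← sub_smul, smul_eq_zero, sub_eq_zero] at h6
        exact h6.resolve_right P.rep_nonzero
      have h7 : a * u = 1 := Units.ext h5
      exact (eq_inv_of_mul_eq_one_right h7).symm
    refine Prod.ext (Subtype.ext h1) h3

open Classical in
/-- points of projective space and of the cone -/
lemma proj_count {F V : Type} [Field F] [Fintype F] [AddCommGroup V] [Module F V] [Fintype V]
    (Z : V → Prop) (hZ : ∀ (u : Fˣ) (x : V), Z (u • x) ↔ Z x) (hZ0 : Z 0) :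
    ((univ.filter fun x : V => Z x).card : ℂ) - 1 =
      (Nat.card {P : ℙ F V // Z P.rep} : ℂ) * ((Fintype.card F : ℂ) - 1) := by
  have h1 := Nat.card_congr (coneEquiv' (F := F) Z hZ)
  rw [Nat.card_prod, Nat.card_units] at h1
  have h3 : (univ.filter fun x : V => Z x).card = Nat.card {x : V // x ≠ 0 ∧ Z x} + 1 := by
    rw [Nat.card_eq_fintype_card, Fintype.card_subtype]
    have h4 : (univ.filter fun x : V => Z x) =
        insert 0 (univ.filter fun x : V => x ≠ 0 ∧ Z x) := by
      ext x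
      rw [mem_filter, mem_insert, mem_filter]
      constructor
      · rintro ⟨-, h⟩
        by_cases hx : x = 0
        · exact Or.inl hx
        · exact Or.inr ⟨mem_univ _, hx, h⟩
      · rintro (rfl | ⟨-, -, h⟩)
        · exact ⟨mem_univ _, hZ0⟩
        · exact ⟨mem_univ _, h⟩
    rw [h4, card_insert_of_notMem]
    rw [mem_filter]
    rintro ⟨-, h, -⟩
    exact h rfl
  have h5 : 1 ≤ Fintype.card F := Fintype.card_pos
  rw [h3, h1, Nat.card_eq_fintype_card (α := F)]
  push_cast
  rw [Nat.cast_sub h5]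
  push_cast
  ring

open Classical in
/-- the zeros of a function in terms of character sums -/
lemma zero_count {F V : Type} [Field F] [Fintype F] [Fintype V] {ψ : AddChar F ℂ}
    (hψ : ψ.IsPrimitive) (Q : V → F) :
    (Fintype.card F : ℂ) * ((univ.filter fun x : V => Q x = 0).card : ℂ) =
      (Fintype.card V : ℂ) + ∑ t ∈ (univ : Finset F).erase 0, ∑ x, ψ (t * Q x) := by
  have h1 : ∑ t : F, ∑ x, ψ (t * Q x) =
      (Fintype.card F : ℂ) * ((univ.filter fun x : V => Q x = 0).card : ℂ) := by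
    rw [sum_comm, card_eq_sum_ones, sum_filter]
    push_cast
    rw [mul_sum]
    refine Finset.sum_congr rfl fun x _ => ?_
    rw [AddChar.sum_mulShift _ hψ]
    split_ifs <;> simp
  rw [← h1, ← add_sum_erase univ _ (mem_univ (0 : F))]
  congr 1
  have h2 : ∀ x : V, ψ (0 * Q x) = 1 := fun x => by rw [zero_mul, AddChar.map_zero_eq_one]
  rw [Finset.sum_congr rfl fun x _ => h2 x, sum_const, card_univ, nsmul_eq_mul, mul_one]

lemma psi_sum {F ι : Type} [Field F] (ψ : AddChar F ℂ) (s : Finset ι) (f : ι → F) :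
    ψ (∑ i ∈ s, f i) = ∏ i ∈ s, ψ (f i) := by
  classical
  induction s using Finset.induction_on with
  | empty => rw [sum_empty, prod_empty, AddChar.map_zero_eq_one]
  | insert i s hi ih => rw [sum_insert hi, prod_insert hi, AddChar.map_add_eq_mul, ih]

namespace Delsarte

variable (X : Delsarte)

section

variable {F : Type} [Field F] [Fintype F] {d : ℕ} [NeZero d] (hd : d = Fintype.card F - 1)
  {w : F} (hw : IsPrimitiveRoot w d) {e : AddChar (ZMod d) ℂ} (he : ∀ i, e i = 1 → i = 0)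
  {ψ : AddChar F ℂ} (hψ : ψ.IsPrimitive)

/-- functions on the variables and families of functions on the blocks -/
lemma sum_blocks {A : Type} [Fintype A] (f : ∀ j, (Fin (X.len j) → A) → ℂ) :
    ∑ x : X.Idx → A, ∏ j, f j (fun i => x ⟨j, i⟩) = ∏ j, ∑ y, f j y := by
  classical
  rw [Finset.prod_univ_sum, Fintype.piFinset_univ]
  exact Fintype.sum_equiv (Equiv.piCurry fun (j : Fin X.l) (_ : Fin (X.len j)) => A) _ _
    fun x => rfl

lemma ch_sum {ι : Type} (s : Finset ι) (f : ι → ZMod d) (t : F) (ht : t ≠ 0) :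
    ch hw e (∑ i ∈ s, f i) t = ∏ i ∈ s, ch hw e (f i) t := by
  classical
  induction s using Finset.induction_on with
  | empty => rw [sum_empty, prod_empty, ch_zero, MulChar.one_apply (isUnit_iff_ne_zero.2 ht)]
  | insert a s ha ih => rw [sum_insert ha, prod_insert ha, ch_add, MulChar.mul_apply, ih]

lemma kpr_mul {ι : Type} [Fintype ι] (a : ι → F) (β : ι → ZMod d) {t : F} (ht : t ≠ 0) :
    kpr hw ψ e (fun i => t * a i) β = ch hw e (-∑ i, β i) t * kpr hw ψ e a β := by
  classical
  unfold kpr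
  rw [← sum_neg_distrib, ch_sum hw _ _ t ht, ← prod_mul_distrib]
  refine Finset.prod_congr rfl fun i _ => ?_
  split_ifs with h
  · rw [h, neg_zero, ch_zero, MulChar.one_apply (isUnit_iff_ne_zero.2 ht), one_mul]
  · unfold kap
    rw [map_mul]
    ring

open Classical in
/-- the contribution of a family of labels -/
noncomputable def Vb (ψ : AddChar F ℂ) (e : AddChar (ZMod d) ℂ) (s : ℂ) (a : X.Idx → F)
    (β : X.Idx → ZMod d) : ℂ :=
  ∏ j, if relB X.m (X.loop j) (fun i => β ⟨j, i⟩) then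
    (mu (X.loop j) (X.len j) (zer fun i => β ⟨j, i⟩) : ℂ) * s ^ (zer fun i => β ⟨j, i⟩) *
      kpr hw ψ e (fun i => a ⟨j, i⟩) (fun i => β ⟨j, i⟩) else 0

include hd he hψ in
lemma sum_form {s : ℂ} (hs : s * s = Fintype.card F) (a : X.Idx → F) (ha : ∀ x, a x ≠ 0) :
    ∑ x : X.Idx → F, ψ (∑ y, a y * x y ^ (X.m - 1) * x (X.next y)) =
      ∑ β : X.Idx → ZMod d, X.Vb hw ψ e s a β := by
  classical
  unfold Vb
  have h1 : ∀ x : X.Idx → F, ψ (∑ y, a y * x y ^ (X.m - 1) * x (X.next y)) =
      ∏ j, (fun z : Fin (X.len j) → F =>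
        ∏ i, ψ (a ⟨j, i⟩ * z i ^ (X.m - 1) * z (nx (X.loop j) i))) (fun i => x ⟨j, i⟩) := by
    intro x
    rw [psi_sum, Fintype.prod_sigma]
    rfl
  rw [Finset.sum_congr rfl fun x _ => h1 x, X.sum_blocks
    (fun j (z : Fin (X.len j) → F) => ∏ i, ψ (a ⟨j, i⟩ * z i ^ (X.m - 1) * z (nx (X.loop j) i)))]
  have h2 := X.sum_blocks (fun j (β : Fin (X.len j) → ZMod d) =>
    if relB X.m (X.loop j) β then (mu (X.loop j) (X.len j) (zer β) : ℂ) * s ^ (zer β) *
      kpr hw ψ e (fun i => a ⟨j, i⟩) β else 0)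
  rw [h2]
  refine Finset.prod_congr rfl fun j _ => ?_
  exact block_sum hd hw he hψ (by have := X.three_le; omega) hs (X.loop j) (X.len_pos j) _
    (fun i => ha _)

include hd he hψ in
lemma sum_t {s : ℂ} (hs : s * s = Fintype.card F) (a : X.Idx → F) (ha : ∀ x, a x ≠ 0)
    [DecidableEq F] :
    ∑ t ∈ (univ : Finset F).erase 0, ∑ x : X.Idx → F,
      ψ (t * ∑ y, a y * x y ^ (X.m - 1) * x (X.next y)) =
      ((Fintype.card F : ℂ) - 1) * ∑ β : X.Idx → ZMod d,
        if ∑ x, β x = 0 then X.Vb hw ψ e s a β else 0 := by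
  classical
  have h1 : ∀ t ∈ (univ : Finset F).erase 0, ∑ x : X.Idx → F,
      ψ (t * ∑ y, a y * x y ^ (X.m - 1) * x (X.next y)) =
      ∑ β : X.Idx → ZMod d, ch hw e (-∑ x, β x) t * X.Vb hw ψ e s a β := by
    intro t ht
    have ht0 : t ≠ 0 := (mem_erase.1 ht).1
    have h2 := X.sum_form hd hw he hψ hs (fun x => t * a x) (fun x => mul_ne_zero ht0 (ha x))
    have h3 : ∀ x : X.Idx → F, ψ (t * ∑ y, a y * x y ^ (X.m - 1) * x (X.next y)) =
        ψ (∑ y, t * a y * x y ^ (X.m - 1) * x (X.next y)) := by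
      intro x
      congr 1
      rw [mul_sum]
      exact Finset.sum_congr rfl fun y _ => by ring
    rw [Finset.sum_congr rfl fun x _ => h3 x, h2]
    refine Finset.sum_congr rfl fun β _ => ?_
    unfold Vb
    rw [Fintype.sum_sigma, ← sum_neg_distrib, ch_sum hw _ _ t ht0, ← prod_mul_distrib]
    refine Finset.prod_congr rfl fun j _ => ?_
    rw [kpr_mul hw _ _ ht0]
    split_ifs
    · ring
    · rw [mul_zero]
  rw [Finset.sum_congr rfl h1, sum_comm, mul_sum]
  refine Finset.sum_congr rfl fun β _ => ?_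
  rw [← sum_mul]
  have h4 : ∑ t ∈ (univ : Finset F).erase 0, ch hw e (-∑ x, β x) t =
      ∑ t : F, ch hw e (-∑ x, β x) t := by
    rw [← add_sum_erase univ _ (mem_univ (0 : F)), MulChar.map_zero, zero_add]
  rw [h4, sum_ch hw he _ hd]
  simp only [neg_eq_zero]
  split_ifs
  · rfl
  · rw [zero_mul, mul_zero]

open Classical in
/-- grouping by the support -/
lemma sum_supp {ι : Type} [Fintype ι] [DecidableEq ι] {M : ℕ} [NeZero M]
    (f : (ι → ZMod M) → ℂ) :
    ∑ β, f β = ∑ J : Finset ι, ∑ b : {x // x ∈ J} → ZMod M,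
      if ∀ x, b x ≠ 0 then f (fun x => if h : x ∈ J then b ⟨x, h⟩ else 0) else 0 := by
  rw [← sum_fiberwise univ (fun β : ι → ZMod M => univ.filter fun x => β x ≠ 0)]
  refine Finset.sum_congr rfl fun J _ => ?_
  rw [← sum_filter]
  refine Finset.sum_bij' (fun β _ x => β x.1)
    (fun b _ x => if h : x ∈ J then b ⟨x, h⟩ else 0) ?_ ?_ ?_ ?_ ?_
  · intro β hβ
    rw [mem_filter] at hβ ⊢
    refine ⟨mem_univ _, fun x => ?_⟩
    have h1 : (x : ι) ∈ univ.filter fun x => β x ≠ 0 := by
      rw [hβ.2]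
      exact x.2
    exact (mem_filter.1 h1).2
  · intro b hb
    rw [mem_filter] at hb ⊢
    refine ⟨mem_univ _, ?_⟩
    ext x
    rw [mem_filter]
    constructor
    · rintro ⟨-, h⟩
      by_contra hx
      exact h (dif_neg hx)
    · intro hx
      refine ⟨mem_univ _, fun h => hb.2 ⟨x, hx⟩ ?_⟩
      have h2 : (if h : x ∈ J then b ⟨x, h⟩ else 0) = b ⟨x, hx⟩ := dif_pos hx
      rw [← h2]
      exact h
  · intro β hβ
    rw [mem_filter] at hβ
    funext x
    split_ifs with h
    · rfl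
    · rw [← hβ.2, mem_filter, not_and, not_not] at h
      exact (h (mem_univ _)).symm
  · intro b _
    funext x
    simp only
    rw [dif_pos x.2]
  · intro β hβ
    rw [mem_filter] at hβ
    congr 1
    funext x
    split_ifs with h
    · rfl
    · rw [← hβ.2, mem_filter, not_and, not_not] at h
      exact h (mem_univ _)

lemma Vb_ext {J : Finset X.Idx} (c : X.Idx → ℤ) (b : {x // x ∈ J} → ZMod d) (hb : ∀ x, b x ≠ 0)
    [Decidable (X.Rel (X.ext J b))] :
    X.Vb hw ψ e (Real.sqrt (Fintype.card F) : ℂ) (fun x => (c x : F)) (X.ext J b) =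
      if X.Rel (X.ext J b) then (Real.sqrt (Fintype.card F) : ℂ) ^ X.N *
        ((X.mult J : ℂ) * lam hw e ψ (fun x : {x // x ∈ J} => c x.1) b) else 0 := by
  classical
  set s : ℂ := (Real.sqrt (Fintype.card F) : ℂ) with hs
  by_cases hR : X.Rel (X.ext J b)
  · rw [if_pos hR]
    have hR' := (X.rel_iff _).1 hR
    have h0 : ∀ x : X.Idx, X.ext J b x = 0 ↔ x ∉ J := by
      intro x
      constructor
      · intro h hx
        exact hb ⟨x, hx⟩ (by rw [← X.ext_apply b ⟨x, hx⟩, h])
      · intro h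
        unfold ext
        rw [dif_neg h]
    have h1 : ∀ j, zer (fun i => X.ext J b ⟨j, i⟩) =
        (univ.filter fun i => (⟨j, i⟩ : X.Idx) ∉ J).card := by
      intro j
      unfold zer
      congr 1
      ext i
      rw [mem_filter, mem_filter, h0]
    have h2 : X.Vb hw ψ e s (fun x => (c x : F)) (X.ext J b) =
        (X.mult J : ℂ) * s ^ (∑ j, (univ.filter fun i => (⟨j, i⟩ : X.Idx) ∉ J).card) *
          ∏ x : X.Idx, (if X.ext J b x = 0 then 1 else kap hw ψ e (c x : F) (X.ext J b x)) := by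
      unfold Vb mult kpr
      rw [Nat.cast_prod, ← prod_pow_eq_pow_sum, Fintype.prod_sigma, ← prod_mul_distrib,
        ← prod_mul_distrib]
      refine Finset.prod_congr rfl fun j _ => ?_
      rw [if_pos (hR' j), h1 j]
    have h3 : ∏ x : X.Idx, (if X.ext J b x = 0 then 1 else kap hw ψ e (c x : F) (X.ext J b x)) =
        ∏ x : {x // x ∈ J}, kap hw ψ e (c x.1 : F) (b x) := by
      rw [← prod_subset (subset_univ J) (fun x _ hx => if_pos ((h0 x).2 hx)), ← prod_coe_sort J]
      refine Finset.prod_congr rfl fun x _ => ?_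
      rw [if_neg (fun h => (h0 x.1).1 h x.2), X.ext_apply]
    have h4 : ∏ x : {x // x ∈ J}, kap hw ψ e (c x.1 : F) (b x) =
        (-s) ^ J.card * lam hw e ψ (fun x : {x // x ∈ J} => c x.1) b := by
      have h5 := lam_eq' hw e ψ (fun x : {x // x ∈ J} => c x.1) b hb
      rw [Fintype.card_coe] at h5
      exact h5
    rw [h2, h3, h4]
    by_cases hm : X.mult J = 0
    · rw [hm, Nat.cast_zero]
      ring
    · rw [(X.even_of_mult hm).neg_pow, ← X.sum_out J, pow_add]
      ring
  · rw [if_neg hR]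
    rw [X.rel_iff] at hR
    push Not at hR
    obtain ⟨j, hj⟩ := hR
    unfold Vb
    apply prod_eq_zero (mem_univ j)
    rw [if_neg hj]

open Classical in
include hd he hψ in
/-- the sum over the nonzero `t` -/
lemma sum_t_eq (c : X.Idx → ℤ) (hc : ∀ x, (c x : F) ≠ 0) :
    ∑ t ∈ (univ : Finset F).erase 0, ∑ x : X.Idx → F,
      ψ (t * ∑ y, (c y : F) * x y ^ (X.m - 1) * x (X.next y)) =
      ((Fintype.card F : ℂ) - 1) * ((Real.sqrt (Fintype.card F) : ℂ) ^ X.N *
        ∑ J : Finset X.Idx, (X.mult J : ℂ) *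
          ∑ b ∈ (X.sys J).L d, lam hw e ψ (fun x : {x // x ∈ J} => c x.1) b) := by
  rw [X.sum_t hd hw he hψ sqrt_mul (fun x => (c x : F)) hc, sum_supp]
  congr 1
  rw [mul_sum]
  refine Finset.sum_congr rfl fun J _ => ?_
  rw [mul_sum, mul_sum]
  have h1 : ∀ b : {x // x ∈ J} → ZMod d, (if ∀ x, b x ≠ 0 then
      (if ∑ x : X.Idx, (if h : x ∈ J then b ⟨x, h⟩ else (0 : ZMod d)) = 0 then
        X.Vb hw ψ e (Real.sqrt (Fintype.card F) : ℂ) (fun x => (c x : F))
          (fun x => if h : x ∈ J then b ⟨x, h⟩ else 0) else 0) else 0) =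
      if b ∈ (X.sys J).L d then (Real.sqrt (Fintype.card F) : ℂ) ^ X.N *
        ((X.mult J : ℂ) * lam hw e ψ (fun x : {x // x ∈ J} => c x.1) b) else 0 := by
    intro b
    have h2 : ∑ x, X.ext J b x = ∑ x, b x := by
      rw [← sum_subset (subset_univ J) (fun x _ hx => by unfold ext; rw [dif_neg hx]),
        ← sum_coe_sort J]
      exact Finset.sum_congr rfl fun x _ => X.ext_apply b x
    have h3 : b ∈ (X.sys J).L d ↔ (∀ x, b x ≠ 0) ∧ ∑ x, b x = 0 ∧ X.Rel (X.ext J b) :=
      Sys.mem_L _ b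
    show (if ∀ x, b x ≠ 0 then (if ∑ x, X.ext J b x = 0 then
        X.Vb hw ψ e (Real.sqrt (Fintype.card F) : ℂ) (fun x => (c x : F)) (X.ext J b) else 0)
          else 0) = _
    by_cases hb : ∀ x, b x ≠ 0
    · rw [if_pos hb, h2, X.Vb_ext hw c b hb]
      by_cases h4 : ∑ x, b x = 0
      · rw [if_pos h4]
        by_cases h5 : X.Rel (X.ext J b)
        · rw [if_pos h5, if_pos (h3.2 ⟨hb, h4, h5⟩)]
        · rw [if_neg h5, if_neg (fun h => h5 (h3.1 h).2.2)]
      · rw [if_neg h4, if_neg (fun h => h4 (h3.1 h).2.1)]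
    · rw [if_neg hb, if_neg (fun h => hb (h3.1 h).1)]
  rw [Finset.sum_congr rfl fun b _ => h1 b, sum_ite_mem, univ_inter]

end

end Delsarte

end Pool.Agent.L0h11
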