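import Mathlib
import Pool.Agent.L0h11.Dm
import Pool.Agent.L0h11.Alg

/-!
# The pole and the algebraic lines for Delsarte hypersurfaces
-/

set_option autoImplicit false
set_option linter.unusedSectionVars false

namespace Pool.Agent.L0h11

open Finset Filter Topology
open scoped LinearAlgebra.Projectivization
open Pool.Agent.H916K (RationalClass)
open Pool.Agent.H916R2 (GoodDegree)
open Pool.Agent.Results.MP_058a58_ag.DiagonalPole (PoleDegree)

namespace Delsarte

variable (X : Delsarte)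

lemma level_change (J : Finset X.Idx) {F : Type} [Field F] [Fintype F] {n d : ℕ} [NeZero n]
    [NeZero d] (hd : d = Nat.gcd X.D n) (hdn : d ∣ n) {w : F}
    (hw : IsPrimitiveRoot w n) (e : AddChar (ZMod n) ℂ) (ψ : AddChar F ℂ)
    (c : {x // x ∈ J} → ℤ) : ∑ b ∈ (X.sys J).L n, lam hw e ψ c b =
      ∑ b ∈ (X.sys J).L d, lam (prim_div hdn hw) (eup hdn e) ψ c b := by
  classical
  symm
  refine Finset.sum_nbij (fun b i => up hdn (b i)) ?_ ?_ ?_ ?_
  · intro b hb
    rw [Sys.mem_L] at hb ⊢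
    exact ((X.sys J).lvl d n hdn b).2 hb
  · intro b _ b' _ h
    funext i
    exact up_inj hdn (congrFun h i)
  · intro b hb
    rw [mem_coe, Sys.mem_L] at hb
    have h2 : ∀ i, ∃ a, up hdn a = b i := by
      intro i
      apply up_range
      have h5 := Nat.gcd_eq_gcd_ab X.D n
      have h6 := congrArg (fun x : ℤ => (x : ZMod n)) h5
      push_cast at h6
      rw [ZMod.natCast_self, zero_mul, add_zero, ← hd] at h6
      rw [h6, mul_right_comm, X.D_mul b hb.2.2, zero_mul]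
    choose a ha using h2
    refine ⟨a, ?_, funext ha⟩
    rw [mem_coe, Sys.mem_L]
    rw [← (X.sys J).lvl d n hdn a]
    have h3 : (fun i => up hdn (a i)) = b := funext ha
    rw [h3]
    exact hb
  · intro b _
    exact (lam_up hdn hw e ψ c b).symm

lemma N_two : 2 ≤ X.N := by
  obtain ⟨j, hj⟩ := X.not_diag
  exact hj.trans (single_le_sum (f := X.len) (fun i _ => Nat.zero_le _) (mem_univ j))

/-- **the trace formula** -/
theorem trF {F : Type} [Field F] (hc : ∀ x, (X.c x : F) ≠ 0) :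
    TrF X.sys X.mult X.co X.D 1 (X.N / 2 - 1) X.trace F := by
  intro _
  classical
  have hq : 0 < Fintype.card F - 1 := by
    have := Fintype.one_lt_card (α := F)
    omega
  obtain ⟨n, _, w, hw, e, ψ, hn, he, hψ⟩ := DiagProduct.exists_wep F hq
  rw [Nat.gcd_self] at hn
  set d := Nat.gcd X.D (Fintype.card F - 1) with hd
  have hd0 : NeZero d := ⟨(Nat.gcd_pos_of_pos_left _ X.D_pos).ne'⟩
  have hdn : d ∣ n := by
    rw [hn]
    exact Nat.gcd_dvd_right _ _
  refine ⟨d, hd0, _, prim_div hdn hw, eup hdn e, ψ, rfl, eup_inj hdn he, hψ, ?_⟩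
  have h1 := X.sum_t_eq hn hw he hψ X.c hc
  have h2 := zero_count hψ (fun x : X.Idx → F =>
    ∑ y, (X.c y : F) * x y ^ (X.m - 1) * x (X.next y))
  have h3 := proj_count (F := F) (V := X.Idx → F) (fun x =>
    ∑ y, (X.c y : F) * x y ^ (X.m - 1) * x (X.next y) = 0) (by
      intro u x
      simp only [Pi.smul_apply, Units.smul_def, smul_eq_mul, mul_pow]
      have h4 : ∑ y, (X.c y : F) * ((u : F) ^ (X.m - 1) * x y ^ (X.m - 1)) *
          ((u : F) * x (X.next y)) = ((u : F) ^ (X.m - 1) * u) *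
          ∑ y, (X.c y : F) * x y ^ (X.m - 1) * x (X.next y) := by
        rw [mul_sum]
        exact Finset.sum_congr rfl fun i _ => by ring
      rw [h4, mul_eq_zero]
      simp) (by simp)
  have h4 : ∀ J, ∑ b ∈ (X.sys J).L n, lam hw e ψ (fun x : {x // x ∈ J} => X.c x.1) b =
      ∑ b ∈ (X.sys J).L d, lam (prim_div hdn hw) (eup hdn e) ψ (X.co J) b :=
    fun J => X.level_change J (by rw [hn]) hdn hw e ψ _
  have hpt : (X.points F : ℂ) * ((Fintype.card F : ℂ) - 1) =
      (((univ : Finset (X.Idx → F)).filter fun x =>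
        ∑ y, (X.c y : F) * x y ^ (X.m - 1) * x (X.next y) = 0).card : ℂ) - 1 := h3.symm
  rw [h1] at h2
  unfold famSum
  rw [Finset.sum_congr rfl fun J _ => by rw [h4 J]] at h2
  set T := ∑ J : Finset X.Idx, (X.mult J : ℂ) *
    ∑ b ∈ (X.sys J).L d, lam (prim_div hdn hw) (eup hdn e) ψ (X.co J) b with hT
  have hcard : Fintype.card (X.Idx → F) = Fintype.card F ^ X.N := by
    rw [Fintype.card_fun, Fintype.card_sigma]
    congr 1
    exact Finset.sum_congr rfl fun j _ => Fintype.card_fin _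
  rw [hcard] at h2
  set q : ℂ := (Fintype.card F : ℂ) with hqq
  have hq0 : q ≠ 0 := by
    rw [hqq]
    exact_mod_cast Fintype.card_ne_zero
  have hq1 : q - 1 ≠ 0 := by
    rw [hqq, sub_ne_zero]
    have := Fintype.one_lt_card (α := F)
    exact_mod_cast this.ne'
  obtain ⟨k, hk⟩ := X.even
  have hN : X.N = k + k := hk
  have hk1 : 1 ≤ k := by
    have := X.N_two
    omega
  have hN2 : X.N / 2 = k := by omega
  have hsq : (Real.sqrt (Fintype.card F) : ℂ) ^ X.N = q ^ k := by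
    rw [hN, ← two_mul, pow_mul, pow_two, sqrt_mul]
  rw [hsq] at h2
  push_cast at h2
  rw [← hqq] at h2
  unfold trace
  push_cast
  rw [Nat.card_eq_fintype_card, ← hqq]
  have hmem : X.N / 2 - 1 ∈ range (X.N - 1) := by
    rw [mem_range]
    omega
  have h5 := add_sum_erase (range (X.N - 1)) (fun j => q ^ j) hmem
  have h6 : ∑ j ∈ (range (X.N - 1)).erase (X.N / 2 - 1), q ^ j =
      (q ^ (X.N - 1) - 1) / (q - 1) - q ^ (X.N / 2 - 1) := by
    rw [← geom_sum_eq (sub_ne_zero.1 hq1), ← h5]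
    ring
  rw [h6]
  have h7 : q ^ X.N = q * q ^ (X.N - 1) := by
    rw [← pow_succ', Nat.sub_add_cancel (by omega)]
  have h8 : q ^ k = q * q ^ (X.N / 2 - 1) := by
    rw [← pow_succ', hN2, Nat.sub_add_cancel hk1]
  rw [h7, h8] at h2
  have h9 : (((univ : Finset (X.Idx → F)).filter fun x =>
      ∑ y, (X.c y : F) * x y ^ (X.m - 1) * x (X.next y) = 0).card : ℂ) =
      q ^ (X.N - 1) + (q - 1) * (q ^ (X.N / 2 - 1) * T) := by
    apply mul_left_cancel₀ hq0
    rw [h2]
    ring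
  rw [h9] at hpt
  have h10 : (X.points F : ℂ) = (q ^ (X.N - 1) - 1) / (q - 1) + q ^ (X.N / 2 - 1) * T := by
    apply mul_right_cancel₀ hq1
    rw [hpt]
    field_simp
    ring
  rw [h10]
  ring

/-- **The pole of the L-function of a Delsarte hypersurface.** -/
theorem pole (S : Finset Nat.Primes) (hS : ∀ p, X.Bad p → p ∈ S)
    (P : Nat.Primes → Polynomial ℂ)
    (hP : ∀ p ∈ S, (P p).eval (((p : ℕ) : ℂ) ^ (-((X.N / 2 : ℕ) : ℂ))) ≠ 0) :
    (∀ p ∉ S, ∀ s : ℂ, ((X.N / 2 : ℕ) : ℝ) < s.re → Summable fun k : ℕ =>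
      (X.trace (GaloisField p (k + 1)) : ℂ) *
        ((p : ℕ) : ℂ) ^ (-(((k + 1 : ℕ) : ℂ) * s)) / ((k + 1 : ℕ) : ℂ)) ∧
    (∀ s : ℂ, ((X.N / 2 : ℕ) : ℝ) < s.re → Multipliable fun p : Nat.Primes =>
      if p ∈ S then ((P p).eval (((p : ℕ) : ℂ) ^ (-s)))⁻¹ else X.localFactor p s) ∧
    ∃ G : ℂ → ℂ, AnalyticAt ℂ G ((X.N / 2 : ℕ) : ℂ) ∧ G ((X.N / 2 : ℕ) : ℂ) ≠ 0 ∧
      ∀ᶠ s : ℂ in 𝓝 ((X.N / 2 : ℕ) : ℂ), ((X.N / 2 : ℕ) : ℝ) < s.re →
        X.LFunction S P s * (s - ((X.N / 2 : ℕ) : ℂ)) ^ X.rho = G s := by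
  have hN := X.N_two
  obtain ⟨k, hk⟩ : ∃ k, X.N / 2 = k + 1 := ⟨X.N / 2 - 1, by omega⟩
  have hk' : X.N / 2 - 1 = k := by omega
  rw [hk] at hP ⊢
  have hgood : ∀ p ∉ S, ∀ l, 1 ≤ l →
      TrF X.sys X.mult X.co X.D 1 k X.trace (GaloisField p l) := by
    intro p hp l _
    rw [← hk']
    exact X.trF (fun x => GF_ne p l (fun h => hp (hS p (Or.inr ⟨x, h⟩))))
  have hmain := fam_pole X.sys X.mult X.co X.D 1 (fun J x => X.c_ne _)
    (fun J hJ => by
      rw [Fintype.card_coe]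
      exact X.even_of_mult hJ) X.D_pos k X.trace S hgood P hP X.localFactor (fun p s => rfl)
  rw [← rho_eq] at hmain
  exact hmain

/-- the algebraic lines -/
theorem algebraic (J : Finset X.Idx) (hJ : X.mult J ≠ 0) (hJ0 : J.Nonempty) (M : ℕ)
    (hcov : J.card ≤ 4 ∨ (J.card = 6 ∧ ¬ 110 ∣ M) ∨ GoodDegree M ∨ PoleDegree M)
    (hM : M ∣ X.D) (b : {x // x ∈ J} → ZMod M) (hb : X.IsLine J M b)
    (h : RationalClass M (X.pairs b)) : X.AlgebraicLine M b := by
  have hM0 : 0 < M := Nat.pos_of_dvd_of_pos hM X.D_pos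
  have hev := X.even_of_mult hJ
  have hpos : 0 < J.card := card_pos.2 hJ0
  let σ : Fin J.card ≃ {x // x ∈ J} := J.equivFin.symm
  have hmap : ∀ {A : Type} (f : {x // x ∈ J} → A), univ.val.map (fun i => f (σ i)) =
      univ.val.map f := by
    intro A f
    have h1 : (univ : Finset {x // x ∈ J}) = univ.map σ.toEmbedding := by simp
    rw [h1, map_val, Multiset.map_map]
    rfl
  obtain ⟨n, hn⟩ := hev
  have hres := algebraic_of_rational hM0 dvd_rfl (N := J.card) ⟨n, hn⟩ (by omega) hcov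
    (fun i => X.c (σ i).1) (fun i => X.c_ne _) (fun i => b (σ i)) ?_ ?_
  · obtain ⟨m', h1, h2, h3⟩ := hres
    refine ⟨m', h1, h2, ?_⟩
    rwa [hmap (fun x => ((m' / M * (b x).val : ℕ) : ZMod m'))] at h3
  · refine ⟨fun i => hb.1.1 _, ?_, fun k hk => hb.2 k fun x => ?_⟩
    · rw [σ.sum_comp]
      exact hb.1.2.1
    · have := hk (σ.symm x)
      simp only [σ.apply_symm_apply] at this
      exact this
  · have h4 : Pool.Agent.L0h11.pairs (fun i => X.c (σ i).1) (fun i => b (σ i)) = X.pairs b :=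
      hmap (fun x => (b x, X.c x.1))
    rw [h4]
    exact h

end Delsarte

end Pool.Agent.L0h11
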