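import Mathlib

/-!
# Kummer theory for function fields of curves: lemmas
-/

set_option autoImplicit false
set_option linter.unusedSectionVars false

open Polynomial

namespace Pool.Agent.L0h11

/-- primitive elements of a given class modulo `N`-th powers -/
theorem prim_twist {K1 M : Type} [Field K1] [CharZero K1] [Field M] [Algebra K1 M]
    [FiniteDimensional K1 M] {h : M} (hh : h ≠ 0) {N : ℕ} (hN : 0 < N) :
    ∃ g : M, g ≠ 0 ∧ IntermediateField.adjoin K1 {h * g ^ N} = ⊤ := by
  classical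
  obtain ⟨α, hα⟩ := Field.exists_primitive_element K1 M
  have hfin : Finite (IntermediateField K1 M) :=
    (Field.exists_primitive_element_iff_finite_intermediateField K1 M).1
      ⟨inferInstance, α, hα⟩
  have hM0 : CharZero M := charZero_of_injective_algebraMap (algebraMap K1 M).injective
  obtain ⟨E, hE⟩ := Finite.exists_infinite_fiber
    (fun c : ℕ => IntermediateField.adjoin K1 {h * (1 + (c : M) * α) ^ N})
  set S : Set ℕ := (fun c : ℕ => IntermediateField.adjoin K1 {h * (1 + (c : M) * α) ^ N}) ⁻¹' {E}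
    with hS
  have hSinf : S.Infinite := Set.infinite_coe_iff.1 hE
  have hmem : ∀ c ∈ S, h * (1 + (c : M) * α) ^ N ∈ E := by
    intro c hc
    have h1 : IntermediateField.adjoin K1 {h * (1 + (c : M) * α) ^ N} = E := hc
    rw [← h1]
    exact IntermediateField.mem_adjoin_simple_self K1 _
  -- the coefficients
  have hcoef : ∀ j ≤ N, h * α ^ j ∈ E := by
    intro j hj
    by_contra hcon
    have hcon' : h * α ^ j ∉ E.toSubalgebra.toSubmodule := hcon
    obtain ⟨f, hf0, hf⟩ := Submodule.exists_le_ker_of_notMem hcon'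
    set P : K1[X] := ∑ i ∈ Finset.range (N + 1), C ((N.choose i : K1) * f (h * α ^ i)) * X ^ i with hP
    have heval : ∀ c ∈ S, P.eval (c : K1) = 0 := by
      intro c hc
      have h1 : f (h * (1 + (c : M) * α) ^ N) = 0 := hf (hmem c hc)
      rw [add_comm, add_pow, Finset.mul_sum, map_sum] at h1
      rw [hP, eval_finsetSum, ← h1]
      refine Finset.sum_congr rfl fun i _ => ?_
      rw [eval_mul, eval_C, eval_pow, eval_X]
      have h2 : h * (((c : M) * α) ^ i * 1 ^ (N - i) * (N.choose i : M)) =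
          ((N.choose i : K1) * (c : K1) ^ i) • (h * α ^ i) := by
        rw [Algebra.smul_def, map_mul, map_pow, map_natCast, map_natCast]
        ring
      rw [h2, map_smul, smul_eq_mul]
      ring
    have hP0 : P = 0 := by
      apply Polynomial.eq_zero_of_infinite_isRoot
      refine Set.Infinite.mono (s := (fun c : ℕ => (c : K1)) '' S) ?_
        (hSinf.image (fun a _ b _ hab => Nat.cast_injective hab))
      rintro _ ⟨c, hc, rfl⟩
      exact heval c hc
    have h3 := congrArg (fun p => p.coeff j) hP0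
    simp only [hP, finsetSum_coeff, coeff_C_mul, coeff_X_pow, coeff_zero, mul_ite, mul_one,
      mul_zero] at h3
    rw [Finset.sum_ite_eq, if_pos (Finset.mem_range.2 (by omega))] at h3
    rcases mul_eq_zero.1 h3 with h4 | h4
    · have : N.choose j ≠ 0 := (Nat.choose_pos hj).ne'
      exact this (by exact_mod_cast h4)
    · exact hf0 h4
  have h0 : h ∈ E := by
    have := hcoef 0 (Nat.zero_le _)
    rwa [pow_zero, mul_one] at this
  have h1 : α ∈ E := by
    have h2 := hcoef 1 hN
    rw [pow_one] at h2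
    have h3 : α = h⁻¹ * (h * α) := by rw [inv_mul_cancel_left₀ hh]
    rw [h3]
    exact mul_mem (inv_mem h0) h2
  have hEtop : E = ⊤ := by
    rw [eq_top_iff, ← hα, IntermediateField.adjoin_le_iff]
    rintro _ rfl
    exact h1
  -- a good constant
  have hbad : {c : ℕ | 1 + (c : M) * α = 0}.Finite := by
    apply Set.Subsingleton.finite
    intro c hc c' hc'
    have hc : 1 + (c : M) * α = 0 := hc
    have hc' : 1 + (c' : M) * α = 0 := hc'
    have hα0 : α ≠ 0 := by
      rintro rfl
      rw [mul_zero, add_zero] at hc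
      exact one_ne_zero hc
    have h2 : ((c : M) - c') * α = 0 := by linear_combination hc - hc'
    have h3 := (mul_eq_zero.1 h2).resolve_right hα0
    rw [sub_eq_zero] at h3
    exact_mod_cast h3
  obtain ⟨c, hcS, hc⟩ := hSinf.exists_notMem_finset hbad.toFinset
  refine ⟨1 + (c : M) * α, fun h2 => hc (hbad.mem_toFinset.2 h2), ?_⟩
  rw [← hEtop]
  exact hcS

/-- the degree of a radical -/
theorem kummer_deg {E Om : Type} [Field E] [Field Om] [Algebra E Om] {M : ℕ} (hM : 0 < M)
    {ζ : E} (hζ : IsPrimitiveRoot ζ M) {θ : E} (hθ : θ ≠ 0) {z : Om}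
    (hz : z ^ M = algebraMap E Om θ) (H : ∀ d : ℕ, 1 < d → d ∣ M → ¬ ∃ w : E, w ^ d = θ) :
    (minpoly E z).natDegree = M := by
  classical
  set ι := algebraMap E Om with hι
  have hθ' : ι θ ≠ 0 := (_root_.map_ne_zero ι).2 hθ
  have hz0 : z ≠ 0 := by
    rintro rfl
    rw [zero_pow hM.ne'] at hz
    exact hθ' hz.symm
  have hζ' : IsPrimitiveRoot (ι ζ) M := hζ.map_of_injective ι.injective
  have hint : IsIntegral E z := ⟨X ^ M - C θ, monic_X_pow_sub_C θ hM.ne', by
    rw [eval₂_sub, eval₂_X_pow, eval₂_C, ← hι, hz, sub_self]⟩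
  have hdvd : minpoly E z ∣ X ^ M - C θ := minpoly.dvd E z (by
    rw [map_sub, map_pow, aeval_X, aeval_C, ← hι, hz, sub_self])
  have hne : (X ^ M - C θ : E[X]) ≠ 0 := (monic_X_pow_sub_C θ hM.ne').ne_zero
  set e := (minpoly E z).natDegree with he
  have hepos : 0 < e := minpoly.natDegree_pos hint
  have hele : e ≤ M := by
    have h1 := natDegree_le_of_dvd hdvd hne
    rwa [natDegree_X_pow_sub_C] at h1
  -- the roots
  have hsplit0 : ((X ^ M - C θ : E[X]).map ι).Splits := by
    rw [Polynomial.map_sub, Polynomial.map_pow, Polynomial.map_X, Polynomial.map_C]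
    exact X_pow_sub_C_splits_of_isPrimitiveRoot hζ' hz
  have hsplit : ((minpoly E z).map ι).Splits :=
    hsplit0.of_dvd (Polynomial.map_ne_zero hne) (Polynomial.map_dvd ι hdvd)
  have hroots : ∀ r ∈ ((minpoly E z).map ι).roots, r ^ M = ι θ := by
    intro r hr
    have h1 := isRoot_of_mem_roots hr
    have h2 : IsRoot ((X ^ M - C θ : E[X]).map ι) r := h1.dvd (Polynomial.map_dvd ι hdvd)
    rw [IsRoot.def, Polynomial.map_sub, Polynomial.map_pow, Polynomial.map_X, Polynomial.map_C,
      eval_sub, eval_pow, eval_X, eval_C, sub_eq_zero] at h2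
    exact h2
  have hcard : Multiset.card ((minpoly E z).map ι).roots = e := by
    rw [← hsplit.natDegree_eq_card_roots, natDegree_map]
  set R := ((minpoly E z).map ι).roots.prod with hR
  have hRM : R ^ M = (z ^ e) ^ M := by
    have h0 : (Multiset.map (fun r => r ^ M) ((minpoly E z).map ι).roots).prod = R ^ M := by
      rw [Multiset.prod_map_pow, Multiset.map_id']
    rw [← h0, Multiset.map_congr rfl hroots, Multiset.map_const',
      Multiset.prod_replicate, hcard, ← hz, ← pow_mul, ← pow_mul, mul_comm]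
  have hze : z ^ e ≠ 0 := pow_ne_zero _ hz0
  have h1 : (R / z ^ e) ^ M = 1 := by rw [div_pow, hRM, div_self (pow_ne_zero _ hze)]
  have : NeZero M := ⟨hM.ne'⟩
  obtain ⟨i, -, hi⟩ := hζ'.eq_pow_of_pow_eq_one h1
  have h2 : R = ι ζ ^ i * z ^ e := by rw [hi, div_mul_cancel₀ _ hze]
  have h3 := hsplit.coeff_zero_eq_prod_roots_of_monic ((minpoly.monic hint).map ι)
  rw [coeff_map, ← hR, h2] at h3
  have hζ0 : ι ζ ≠ 0 := hζ'.ne_zero hM.ne'
  obtain ⟨w, hw⟩ : ∃ w : E, ι w = z ^ e := by
    refine ⟨(ζ⁻¹) ^ i * ((-1) ^ ((minpoly E z).map ι).natDegree * (minpoly E z).coeff 0), ?_⟩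
    rw [map_mul, map_mul, h3, map_pow, map_pow, map_neg, map_one, map_inv₀]
    have h4 : ((-1 : Om) ^ ((minpoly E z).map ι).natDegree) *
        ((-1) ^ ((minpoly E z).map ι).natDegree) = 1 := by
      rw [← mul_pow]
      norm_num
    calc _ = ((-1 : Om) ^ ((minpoly E z).map ι).natDegree *
        ((-1) ^ ((minpoly E z).map ι).natDegree)) * ((ι ζ)⁻¹ ^ i * ι ζ ^ i) * z ^ e := by ring
      _ = z ^ e := by rw [h4, ← mul_pow, inv_mul_cancel₀ hζ0, one_pow, one_mul, one_mul]
  have hw0 : w ≠ 0 := by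
    rintro rfl
    rw [map_zero] at hw
    exact hze hw.symm
  by_contra hne'
  have hlt : e < M := lt_of_le_of_ne hele hne'
  -- the greatest common divisor
  set g := Nat.gcd M e with hg
  have hgpos : 0 < g := Nat.gcd_pos_of_pos_left _ hM
  have hgle : g ≤ e := Nat.le_of_dvd hepos (Nat.gcd_dvd_right _ _)
  obtain ⟨d, hd⟩ := Nat.gcd_dvd_left M e
  rw [← hg] at hd
  have hd1 : 1 < d := by
    by_contra hcon
    have : d ≤ 1 := by omega
    have h5 : M ≤ g := by
      calc M = g * d := hd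
        _ ≤ g * 1 := Nat.mul_le_mul_left _ this
        _ = g := mul_one _
    omega
  refine H d hd1 ⟨g, by rw [mul_comm]; exact hd⟩ ⟨θ ^ (Nat.gcdA M e) * w ^ (Nat.gcdB M e), ?_⟩
  apply ι.injective
  have h5 : ι (θ ^ (Nat.gcdA M e) * w ^ (Nat.gcdB M e)) = z ^ g := by
    rw [map_mul, map_zpow₀, map_zpow₀, ← hz, hw, ← zpow_natCast z M, ← zpow_natCast z e,
      ← zpow_mul, ← zpow_mul, ← zpow_add₀ hz0, ← Nat.gcd_eq_gcd_ab, ← hg, zpow_natCast]
  rw [map_pow, h5, ← pow_mul, ← hd, hz]

/-- descent of radicals -/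
theorem descend {F K Mb : Type} [Field F] [Field K] [Field Mb] [Algebra F K] [Algebra K Mb]
    [Algebra F Mb] [IsScalarTower F K Mb] [IsGalois K Mb] (Om : IntermediateField F Mb)
    (hOm : ∀ y, y ∈ Om ↔ IsAlgebraic F y) {θ : K} (hθ : θ ≠ 0)
    {d : ℕ} (hd : 0 < d) {w : Mb} (hw : w ^ d = algebraMap K Mb θ)
    (hmem : w ∈ Algebra.adjoin Om (Set.range (algebraMap K Mb))) :
    ∃ u κ : K, IsAlgebraic F u ∧ u ≠ 0 ∧ θ = u * κ ^ d := by
  classical
  have hw0 : w ≠ 0 := by
    rintro rfl
    rw [zero_pow hd.ne'] at hw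
    exact hθ ((_root_.map_eq_zero (algebraMap K Mb)).1 hw.symm)
  -- the span
  have hspan : w ∈ Submodule.span Om (Set.range (algebraMap K Mb)) := by
    have h1 : w ∈ Subalgebra.toSubmodule (Algebra.adjoin Om (Set.range (algebraMap K Mb))) := hmem
    rw [Algebra.adjoin_eq_span] at h1
    have h2 : ((Submonoid.closure (Set.range (algebraMap K Mb)) : Submonoid Mb) : Set Mb) =
        Set.range (algebraMap K Mb) := by
      have h3 : Set.range (algebraMap K Mb) =
          ((MonoidHom.mrange ((algebraMap K Mb : K →+* Mb) : K →* Mb) : Submonoid Mb) : Set Mb) := by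
        ext y
        simp
      rw [h3, Submonoid.closure_eq]
    rwa [h2] at h1
  obtain ⟨B, hB, hBs, hBi⟩ := exists_linearIndependent Om (Set.range (algebraMap K Mb))
  rw [← hBs, ← Subtype.range_coe (s := B), Finsupp.mem_span_range_iff_exists_finsupp] at hspan
  obtain ⟨c, hc⟩ := hspan
  have hfix : ∀ (σ : Mb ≃ₐ[K] Mb) (β : B), σ (β : Mb) = β := by
    intro σ β
    obtain ⟨y, hy⟩ := hB β.2
    rw [← hy]
    exact σ.commutes y
  -- the action on the coefficients
  have hOmσ : ∀ (σ : Mb ≃ₐ[K] Mb) (y : Om), σ (y : Mb) ∈ Om := by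
    intro σ y
    have h1 := (hOm _).1 y.2
    exact (hOm _).2 (h1.algHom ((σ : Mb →ₐ[K] Mb).restrictScalars F))
  have hroot : ∀ x : Mb, x ^ d = 1 → x ∈ Om := by
    intro x hx
    refine (hOm _).2 ⟨X ^ d - C 1, (monic_X_pow_sub_C (1 : F) hd.ne').ne_zero, ?_⟩
    rw [map_sub, map_pow, aeval_X, aeval_C, map_one, hx, sub_self]
  have hξ : ∀ σ : Mb ≃ₐ[K] Mb, (σ w / w) ^ d = 1 := by
    intro σ
    rw [div_pow, ← map_pow, hw, σ.commutes, div_self ((_root_.map_ne_zero _).2 hθ)]
  have key : ∀ (σ : Mb ≃ₐ[K] Mb) (β : B), σ (c β : Mb) = σ w / w * (c β : Mb) := by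
    intro σ β
    obtain ⟨ξ, hξd⟩ : ∃ ξ : Om, (ξ : Mb) = σ w / w := ⟨⟨_, hroot _ (hξ σ)⟩, rfl⟩
    let τ : B →₀ Om := Finsupp.mapRange (fun y : Om => (⟨σ (y : Mb), hOmσ σ y⟩ : Om) - ξ * y)
      (by
        apply Subtype.ext
        simp) c
    have hτ : τ = 0 := by
      have h1 := linearIndependent_iff.1 hBi τ
      apply h1
      rw [Finsupp.linearCombination_apply]
      have h2 : τ.sum (fun i a => a • (i : Mb)) =
          c.sum fun i a => ((⟨σ (a : Mb), hOmσ σ a⟩ : Om) - ξ * a) • (i : Mb) := by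
        rw [Finsupp.sum_mapRange_index]
        intro i
        rw [zero_smul]
      rw [h2]
      have h4 : σ w = ∑ i ∈ c.support, σ (c i : Mb) * (i : Mb) := by
        conv_lhs => rw [← hc]
        rw [Finsupp.sum, map_sum]
        refine Finset.sum_congr rfl fun i _ => ?_
        show σ ((c i : Mb) * (i : Mb)) = σ (c i : Mb) * (i : Mb)
        rw [map_mul, hfix]
      have h5 : σ w = ∑ i ∈ c.support, (ξ : Mb) * (c i : Mb) * (i : Mb) := by
        have h6 : σ w = (ξ : Mb) * w := by rw [hξd, div_mul_cancel₀ _ hw0]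
        rw [h6]
        conv_lhs => rw [← hc]
        rw [Finsupp.sum, Finset.mul_sum]
        refine Finset.sum_congr rfl fun i _ => ?_
        show (ξ : Mb) * ((c i : Mb) * (i : Mb)) = _
        rw [mul_assoc]
      rw [Finsupp.sum]
      have h7 : ∀ i ∈ c.support, ((⟨σ (c i : Mb), hOmσ σ (c i)⟩ : Om) - ξ * c i) • (i : Mb) =
          σ (c i : Mb) * (i : Mb) - (ξ : Mb) * (c i : Mb) * (i : Mb) := by
        intro i _
        show (σ (c i : Mb) - (ξ : Mb) * (c i : Mb)) * (i : Mb) = _
        ring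
      rw [Finset.sum_congr rfl h7, Finset.sum_sub_distrib, ← h4, ← h5, sub_self]
    have h7 := DFunLike.congr_fun hτ β
    simp only [τ, Finsupp.mapRange_apply, Finsupp.coe_zero, Pi.zero_apply, sub_eq_zero] at h7
    have h8 := congrArg (fun y : Om => (y : Mb)) h7
    rw [← hξd]
    exact h8
  -- a nonzero coefficient
  obtain ⟨β, hβ⟩ : ∃ β, c β ≠ 0 := by
    by_contra hcon
    push Not at hcon
    have : c = 0 := Finsupp.ext hcon
    rw [this, Finsupp.sum_zero_index] at hc
    exact hw0 hc.symm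
  have hv0 : (c β : Mb) ≠ 0 := fun h => hβ (Subtype.ext h)
  have hfixed : ∀ y : Mb, (∀ σ : Mb ≃ₐ[K] Mb, σ y = y) → ∃ m : K, algebraMap K Mb m = y := by
    intro y hy
    have h1 : y ∈ (⊥ : IntermediateField K Mb) := by
      rw [InfiniteGalois.mem_bot_iff_fixed]
      exact hy
    rw [IntermediateField.mem_bot] at h1
    exact h1
  obtain ⟨κ, hκ⟩ := hfixed (w / c β) (fun σ => by
    rw [map_div₀, key σ β]
    have hσw : σ w ≠ 0 := (_root_.map_ne_zero σ).2 hw0
    field_simp)
  obtain ⟨u, hu⟩ := hfixed ((c β : Mb) ^ d) (fun σ => by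
    rw [map_pow, key σ β, mul_pow, hξ, one_mul])
  refine ⟨u, κ, ?_, ?_, ?_⟩
  · have h1 : IsAlgebraic F ((c β : Mb) ^ d) := ((hOm _).1 (c β).2).pow d
    rw [← hu] at h1
    exact (isAlgebraic_algebraMap_iff (algebraMap K Mb).injective).1 h1
  · rintro rfl
    rw [map_zero] at hu
    exact pow_ne_zero _ hv0 hu.symm
  · apply (algebraMap K Mb).injective
    rw [map_mul, map_pow, hu, hκ, ← mul_pow, mul_div_cancel₀ _ hv0, hw]

end Pool.Agent.L0h11
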