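import Mathlib
import Pool.Agent.R410.LW.Str
import Pool.Agent.L0h11.Tb

/-!
# The structure of function fields of curves with a function
-/

set_option autoImplicit false
set_option linter.all false

open Polynomial
open scoped IntermediateField.algebraAdjoinAdjoin

namespace Pool.Agent.L0h11

open Pool.Agent.R410.LW (alg_poly)

/-- **The structure** of a field `M`, finite over the field `F(x)`, and of an element `h` which is not
the product of a constant and a power. -/
theorem structure_two {F M : Type} [Field F] [CharZero F] [Field M] [Algebra F M] (x : M)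
    (hx : Transcendental F x) [FiniteDimensional (IntermediateField.adjoin F {x}) M] {h : M}
    (hh : h ≠ 0) {N : ℕ} (hN : 0 < N)
    (H : ∀ d : ℕ, 1 < d → d ∣ N → ¬ ∃ u κ : M, IsAlgebraic F u ∧ u ≠ 0 ∧ h = u * κ ^ d) :
    ∃ (F₁ : IntermediateField F M) (_ : FiniteDimensional F F₁) (θ γ : M) (f : F₁[X][X])
      (Om : Type) (_ : Field Om) (_ : IsAlgClosed Om) (_ : Algebra F₁ Om), γ ≠ 0 ∧
      θ = h * γ ^ N ∧ f.Monic ∧ 0 < f.natDegree ∧
      Irreducible (f.map (mapRingHom (algebraMap F₁ Om))) ∧
      Irreducible ((expand F₁[X] N f).map (mapRingHom (algebraMap F₁ Om))) ∧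
      (∀ p : F₁[X][X], eval₂ (eval₂RingHom (algebraMap F₁ M) x) θ p = 0 ↔ f ∣ p) ∧
      IntermediateField.adjoin F {x, θ} = ⊤ := by
  classical
  have hM0 : CharZero M := charZero_of_injective_algebraMap (algebraMap F M).injective
  set K1 := IntermediateField.adjoin F {x} with hK1
  obtain ⟨g₀, hg₀, hα⟩ := prim_twist (K1 := K1) (M := M) hh hN
  set α := h * g₀ ^ N with hαd
  letI ia : Algebra F[X] M := (aeval x : F[X] →ₐ[F] M).toRingHom.toAlgebra
  have hia : ∀ p : F[X], algebraMap F[X] M p = aeval x p := fun p => rfl
  obtain ⟨a, ha0, ha'⟩ := (alg_poly (F := F) x α).exists_integral_multiple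
  have hax0 : aeval x a ≠ 0 := fun h => ha0 (transcendental_iff.1 hx a h)
  set γ := aeval x a * g₀ with hγ
  have hγ0 : γ ≠ 0 := mul_ne_zero hax0 hg₀
  set θ := h * γ ^ N with hθ
  have ha : IsIntegral F[X] θ := by
    have h1 : θ = algebraMap F[X] M (a ^ (N - 1)) * (a • α) := by
      rw [Algebra.smul_def, hia, hia, map_pow, hαd, hθ, hγ, mul_pow]
      have h2 : (aeval x a : M) ^ N = aeval x a ^ (N - 1) * aeval x a := by
        rw [← pow_succ, Nat.sub_add_cancel hN]
      rw [h2]
      ring
    rw [h1]
    exact isIntegral_algebraMap.mul ha'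
  have hθe : θ = aeval x (a ^ N) * α := by
    rw [hθ, hγ, hαd, mul_pow, map_pow]
    ring
  have hax : aeval x (a ^ N) ≠ 0 := by
    rw [map_pow]
    exact pow_ne_zero _ hax0
  -- generation
  have hgen : IntermediateField.adjoin F {x, θ} = ⊤ := by
    set Nf := IntermediateField.adjoin F {x, θ} with hNf
    have hxN : x ∈ Nf := IntermediateField.subset_adjoin F _ (by simp)
    have hθN : θ ∈ Nf := IntermediateField.subset_adjoin F _ (by simp)
    have hKN : K1 ≤ Nf := by
      rw [hK1, IntermediateField.adjoin_le_iff]
      rintro _ rfl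
      exact hxN
    have haN : aeval x (a ^ N) ∈ Nf := by
      have := (Polynomial.aeval_algebraMap_apply M (⟨x, hxN⟩ : Nf) (a ^ N))
      change aeval x (a ^ N) = ((aeval (⟨x, hxN⟩ : Nf) (a ^ N) : Nf) : M) at this
      rw [this]
      exact Subtype.mem _
    have hαN : α ∈ Nf := by
      have h1 : α = θ / aeval x (a ^ N) := by
        rw [hθe, mul_div_cancel_left₀ _ hax]
      rw [h1]
      exact div_mem hθN haN
    have h2 : IntermediateField.adjoin K1 {α} ≤ IntermediateField.extendScalars hKN := by
      rw [IntermediateField.adjoin_le_iff]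
      rintro _ rfl
      exact hαN
    rw [hα] at h2
    rw [eq_top_iff]
    intro z _
    exact h2 (IntermediateField.mem_top (x := z))
  -- the algebraic closure
  let Mb := AlgebraicClosure M
  have hMb0 : CharZero Mb := charZero_of_injective_algebraMap (algebraMap M Mb).injective
  let Om : IntermediateField F Mb := algebraicClosure F Mb
  have hOmc : IsAlgClosed Om := (algebraicClosure.isAlgClosure F Mb).isAlgClosed
  have hOma : Algebra.IsAlgebraic F Om := (algebraicClosure.isAlgClosure F Mb).isAlgebraic
  have hxb : Transcendental Om (algebraMap M Mb x) := by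
    intro h
    have h1 : IsAlgebraic F (algebraMap M Mb x) := h.restrictScalars F
    exact hx ((isAlgebraic_algebraMap_iff (algebraMap M Mb).injective).1 h1)
  letI ib : Algebra Om[X] Mb := (aeval (algebraMap M Mb x) : Om[X] →ₐ[Om] Mb).toRingHom.toAlgebra
  have hib : ∀ p : Om[X], algebraMap Om[X] Mb p = aeval (algebraMap M Mb x) p := fun p => rfl
  have hibi : Function.Injective (algebraMap Om[X] Mb) := transcendental_iff_injective.1 hxb
  have htf : Module.IsTorsionFree Om[X] Mb := Module.isTorsionFree_iff_algebraMap_injective.mpr hibi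
  let j : F →+* Om := algebraMap F Om
  have hθb : IsIntegral Om[X] (algebraMap M Mb θ) := by
    refine ha.map_of_comp_eq (mapRingHom j) (algebraMap M Mb) ?_
    apply Polynomial.ringHom_ext
    · intro c
      rw [RingHom.comp_apply, RingHom.comp_apply, coe_mapRingHom, Polynomial.map_C, hib, hia,
        aeval_C, aeval_C]
      rfl
    · rw [RingHom.comp_apply, RingHom.comp_apply, coe_mapRingHom, Polynomial.map_X, hib, hia,
        aeval_X, aeval_X]
  set g : Om[X][X] := minpoly Om[X] (algebraMap M Mb θ) with hg
  have hgm : g.Monic := minpoly.monic hθb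
  have hgirr : Irreducible g := minpoly.irreducible hθb
  have hgpos : 0 < g.natDegree := minpoly.natDegree_pos hθb
  have hgroot : aeval (algebraMap M Mb θ) g = 0 := minpoly.aeval _ _
  -- the radical
  have hexp : Irreducible (expand Om[X] N g) := by
    have hθ0 : θ ≠ 0 := mul_ne_zero hh (pow_ne_zero _ hγ0)
    obtain ⟨z, hz⟩ := IsAlgClosed.exists_pow_nat_eq (algebraMap M Mb θ) hN
    have hzint : IsIntegral Om[X] z := IsIntegral.of_pow hN (by rw [hz]; exact hθb)
    have hfaith : FaithfulSMul Om[X] Mb := (faithfulSMul_iff_algebraMap_injective _ _).2 hibi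
    let Q := FractionRing Om[X]
    letI iQ : Algebra Q Mb := FractionRing.liftAlgebra Om[X] Mb
    haveI itw : IsScalarTower Om[X] Q Mb := FractionRing.isScalarTower_liftAlgebra Om[X] Mb
    let E : IntermediateField Q Mb := IntermediateField.adjoin Q {algebraMap M Mb θ}
    have hθE : algebraMap M Mb θ ∈ E := IntermediateField.mem_adjoin_simple_self Q _
    -- the compositum
    let Sub : Subalgebra Om Mb := Algebra.adjoin Om (Set.range (algebraMap M Mb))
    have hrange : ∀ m : M, algebraMap M Mb m ∈ Sub := fun m => Algebra.subset_adjoin ⟨m, rfl⟩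
    have hinv : ∀ y ∈ Sub, y⁻¹ ∈ Sub := by
      intro y hy
      let SubM : Subalgebra M Mb :=
        { Sub.toSubsemiring with
          algebraMap_mem' := fun m => hrange m }
      have h1 : IsAlgebraic M y := Algebra.IsAlgebraic.isAlgebraic y
      exact SubM.inv_mem_of_algebraic (x := ⟨y, hy⟩) h1
    have hpoly : ∀ p : Om[X], algebraMap Om[X] Mb p ∈ Sub := by
      intro p
      rw [hib]
      have h1 : ({algebraMap M Mb x} : Set Mb) ⊆ Set.range (algebraMap M Mb) :=
        Set.singleton_subset_iff.2 ⟨x, rfl⟩
      exact Algebra.adjoin_mono h1 (aeval_mem_adjoin_singleton Om _)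
    let Wf : IntermediateField Q Mb :=
      { Sub.toSubsemiring with
        algebraMap_mem' := by
          intro q
          obtain ⟨p, p', hp', rfl⟩ := IsFractionRing.div_surjective (A := Om[X]) q
          show algebraMap Q Mb (algebraMap Om[X] Q p / algebraMap Om[X] Q p') ∈ Sub
          rw [map_div₀, ← IsScalarTower.algebraMap_apply, ← IsScalarTower.algebraMap_apply,
            div_eq_mul_inv]
          exact mul_mem (hpoly p) (hinv _ (hpoly p'))
        inv_mem' := fun y hy => hinv y hy }
    have hEW : E ≤ Wf := by
      rw [IntermediateField.adjoin_le_iff]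
      rintro _ rfl
      exact hrange θ
    -- roots of unity
    have hOm0 : CharZero Om := charZero_of_injective_algebraMap (algebraMap F Om).injective
    have hNe : NeZero (N : Om) := ⟨Nat.cast_ne_zero.2 hN.ne'⟩
    have hsc : IsSepClosed Om := inferInstance
    obtain ⟨ζ₀, hζ₀⟩ := HasEnoughRootsOfUnity.exists_primitiveRoot Om N
    let jE : Om →+* E := ((algebraMap Q E).comp (algebraMap Om[X] Q)).comp C
    have hζ : IsPrimitiveRoot (jE ζ₀) N := hζ₀.map_of_injective jE.injective
    have hdeg : (minpoly E z).natDegree = N := by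
      refine kummer_deg hN hζ (θ := (⟨algebraMap M Mb θ, hθE⟩ : E)) ?_ hz ?_
      · intro h0
        have h1 : algebraMap M Mb θ = 0 := congrArg (fun y : E => (y : Mb)) h0
        exact hθ0 ((_root_.map_eq_zero _).1 h1)
      · rintro d hd1 ⟨e, he⟩ ⟨w, hw⟩
        have hw' : (w : Mb) ^ d = algebraMap M Mb θ := congrArg (fun y : E => (y : Mb)) hw
        have hwS : (w : Mb) ∈ Sub := hEW w.2
        have hgal : IsGalois M Mb := inferInstance
        obtain ⟨u, κ, hu, hu0, huκ⟩ := descend (F := F) Om (fun y => mem_algebraicClosure_iff)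
          hθ0 (by omega : 0 < d) hw' hwS
        refine H d hd1 ⟨e, he⟩ ⟨u, κ * (γ ^ e)⁻¹, hu, hu0, ?_⟩
        rw [mul_pow, inv_pow, ← pow_mul, ← mul_assoc, ← huκ, hθ, mul_comm e d, ← he,
          mul_inv_cancel_right₀ (pow_ne_zero _ hγ0)]
    -- the degrees
    set G : Om[X][X] := minpoly Om[X] z with hG
    have hGm : G.Monic := minpoly.monic hzint
    have hGirr : Irreducible G := minpoly.irreducible hzint
    have hd1 : Module.finrank Q E = g.natDegree := by
      rw [IntermediateField.adjoin.finrank (hθb.tower_top),
        minpoly.isIntegrallyClosed_eq_field_fractions' Q hθb, natDegree_map_eq_of_injective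
          (IsFractionRing.injective Om[X] Q)]
    have hd2 : Module.finrank Q (IntermediateField.adjoin Q {z}) = G.natDegree := by
      rw [IntermediateField.adjoin.finrank (hzint.tower_top),
        minpoly.isIntegrallyClosed_eq_field_fractions' Q hzint, natDegree_map_eq_of_injective
          (IsFractionRing.injective Om[X] Q)]
    have hzE : IsIntegral E z := (hzint.tower_top (A := Q)).tower_top
    have hd3 : Module.finrank E (IntermediateField.adjoin E {z}) = N := by
      rw [IntermediateField.adjoin.finrank hzE, hdeg]
    have hL : (IntermediateField.adjoin E {z}).restrictScalars Q = IntermediateField.adjoin Q {z} := by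
      apply le_antisymm
      · have hEL : E ≤ IntermediateField.adjoin Q {z} := by
          rw [IntermediateField.adjoin_le_iff]
          rintro _ rfl
          rw [SetLike.mem_coe, ← hz]
          exact pow_mem (IntermediateField.mem_adjoin_simple_self Q z) N
        have h1 : IntermediateField.adjoin E {z} ≤ IntermediateField.extendScalars hEL := by
          rw [IntermediateField.adjoin_le_iff]
          rintro _ rfl
          exact IntermediateField.mem_adjoin_simple_self Q _
        exact fun y hy => h1 hy
      · rw [IntermediateField.adjoin_le_iff]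
        rintro _ rfl
        exact IntermediateField.mem_adjoin_simple_self E _
    have hd4 : G.natDegree = g.natDegree * N := by
      rw [← hd2, ← hL, ← hd1, ← hd3]
      exact (Module.finrank_mul_finrank Q E (IntermediateField.adjoin E {z})).symm
    have hdvd : G ∣ expand Om[X] N g := by
      refine minpoly.isIntegrallyClosed_dvd hzint ?_
      rw [expand_aeval, hz]
      exact hgroot
    have heq : expand Om[X] N g = G :=
      eq_of_monic_of_dvd_of_natDegree_le hGm ((monic_expand_iff hN).2 hgm) hdvd
        (by rw [natDegree_expand, hd4])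
    rw [heq]
    exact hGirr
  -- the coefficients are in `M`
  have hco : ∀ i l : ℕ, ∃ m : M, algebraMap M Mb m = (((g.coeff i).coeff l : Om) : Mb) := by
    intro i l
    have h1 : (((g.coeff i).coeff l : Om) : Mb) ∈ (⊥ : IntermediateField M Mb) := by
      rw [InfiniteGalois.mem_bot_iff_fixed]
      intro σ
      have hσOm : ∀ z : Om, σ (z : Mb) ∈ Om := by
        intro z
        rw [mem_algebraicClosure_iff]
        have hz := mem_algebraicClosure_iff.1 z.2
        exact hz.algHom ((σ : Mb →ₐ[M] Mb).restrictScalars F)
      let τ : Om →+* Om := ((σ : Mb →+* Mb).comp (algebraMap Om Mb)).codRestrict Om.toSubring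
        (fun z => hσOm z)
      have hτ : ∀ z : Om, ((τ z : Om) : Mb) = σ (z : Mb) := fun z => rfl
      have hroot : aeval (algebraMap M Mb θ) (g.map (mapRingHom τ)) = 0 := by
        have e : aeval (algebraMap M Mb θ) (g.map (mapRingHom τ)) =
            σ (aeval (algebraMap M Mb θ) g) := by
          rw [aeval_def, aeval_def, eval₂_map]
          have h2 : σ (eval₂ (algebraMap Om[X] Mb) (algebraMap M Mb θ) g) =
              eval₂ ((σ : Mb →+* Mb).comp (algebraMap Om[X] Mb)) (σ (algebraMap M Mb θ)) g :=
            Polynomial.hom_eval₂ g _ (σ : Mb →+* Mb) _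
          rw [h2, AlgEquiv.commutes]
          congr 1
          apply Polynomial.ringHom_ext
          · intro c
            rw [RingHom.comp_apply, RingHom.comp_apply, coe_mapRingHom, Polynomial.map_C, hib, hib,
              aeval_C, aeval_C]
            exact hτ c
          · rw [RingHom.comp_apply, RingHom.comp_apply, coe_mapRingHom, Polynomial.map_X, hib,
              aeval_X]
            exact (σ.commutes x).symm
        rw [e, hgroot, map_zero]
      have hdvd : g ∣ g.map (mapRingHom τ) := minpoly.isIntegrallyClosed_dvd hθb hroot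
      have heq : g.map (mapRingHom τ) = g :=
        eq_of_monic_of_dvd_of_natDegree_le hgm (hgm.map _) hdvd (by rw [hgm.natDegree_map])
      have h3 := congrArg (fun p : Om[X][X] => (p.coeff i).coeff l) heq
      simp only [coeff_map, coe_mapRingHom] at h3
      rw [← hτ, h3]
    rw [IntermediateField.mem_bot] at h1
    exact h1
  choose m hm using hco
  -- the field of the coefficients
  set T : Finset M := (Finset.range (g.natDegree + 1)).biUnion fun i =>
    (Finset.range ((g.coeff i).natDegree + 1)).image fun l => m i l with hT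
  have hmalg : ∀ i l, IsAlgebraic F (m i l) := by
    intro i l
    have h1 : IsAlgebraic F (algebraMap M Mb (m i l)) := by
      rw [hm]
      exact mem_algebraicClosure_iff.1 (Subtype.mem _)
    exact (isAlgebraic_algebraMap_iff (algebraMap M Mb).injective).1 h1
  let F₁ := IntermediateField.adjoin F (T : Set M)
  have hfd : FiniteDimensional F F₁ := IntermediateField.finiteDimensional_adjoin fun z hz => by
    rw [hT, Finset.mem_coe, Finset.mem_biUnion] at hz
    obtain ⟨i, -, hz⟩ := hz
    obtain ⟨l, -, rfl⟩ := Finset.mem_image.1 hz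
    exact (hmalg i l).isIntegral
  have hmem : ∀ z : F₁, algebraMap M Mb z ∈ Om := by
    intro z
    rw [mem_algebraicClosure_iff]
    have h1 : IsAlgebraic F (z : M) :=
      (isAlgebraic_algebraMap_iff (algebraMap F₁ M).injective).2 (Algebra.IsAlgebraic.isAlgebraic z)
    exact h1.algebraMap
  let ι : F₁ →+* Om := ((algebraMap M Mb).comp (algebraMap F₁ M)).codRestrict Om.toSubring
    (fun z => hmem z)
  have hι : ∀ z : F₁, ((ι z : Om) : Mb) = algebraMap M Mb z := fun z => rfl
  have hlift : g ∈ lifts (mapRingHom ι) := by
    rw [lifts_iff_coeff_lifts]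
    intro i
    show g.coeff i ∈ Set.range (mapRingHom ι)
    have h1 : g.coeff i ∈ lifts ι := by
      rw [lifts_iff_coeff_lifts]
      intro l
      by_cases hi : i ≤ g.natDegree
      · by_cases hl : l ≤ (g.coeff i).natDegree
        · refine ⟨⟨m i l, IntermediateField.subset_adjoin F _ ?_⟩, ?_⟩
          · rw [hT, Finset.mem_coe, Finset.mem_biUnion]
            exact ⟨i, Finset.mem_range.2 (by omega), Finset.mem_image.2
              ⟨l, Finset.mem_range.2 (by omega), rfl⟩⟩
          · apply Subtype.ext
            rw [hι]
            exact hm i l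
        · refine ⟨0, ?_⟩
          rw [map_zero, coeff_eq_zero_of_natDegree_lt (by omega)]
      · refine ⟨0, ?_⟩
        rw [map_zero, coeff_eq_zero_of_natDegree_lt (p := g) (by omega), coeff_zero]
    obtain ⟨p, hp⟩ := (lifts_iff_set_range _).1 h1
    exact ⟨p, hp⟩
  obtain ⟨f, hfg, hfdeg, hfm⟩ := lifts_and_natDegree_eq_and_monic hlift hgm
  letI ic : Algebra F₁ Om := ι.toAlgebra
  have hιi : Function.Injective ι := ι.injective
  refine ⟨F₁, hfd, θ, γ, f, Om, inferInstance, hOmc, ic, hγ0, rfl, hfm, by rw [hfdeg]; exact hgpos,
    ?_, ?_, ?_, hgen⟩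
  · show Irreducible (f.map (mapRingHom ι))
    rw [hfg]
    exact hgirr
  · show Irreducible ((expand F₁[X] N f).map (mapRingHom ι))
    rw [map_expand, hfg]
    exact hexp
  · intro p
    have e : aeval (algebraMap M Mb θ) (p.map (mapRingHom ι)) =
        algebraMap M Mb (eval₂ (eval₂RingHom (algebraMap F₁ M) x) θ p) := by
      rw [aeval_def, eval₂_map, Polynomial.hom_eval₂]
      congr 1
      apply Polynomial.ringHom_ext
      · intro c
        rw [RingHom.comp_apply, RingHom.comp_apply, coe_mapRingHom, Polynomial.map_C, hib, aeval_C,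
          coe_eval₂RingHom, eval₂_C]
        exact hι c
      · rw [RingHom.comp_apply, RingHom.comp_apply, coe_mapRingHom, Polynomial.map_X, hib, aeval_X,
          coe_eval₂RingHom, eval₂_X]
    rw [← map_dvd_map (mapRingHom ι) (Polynomial.map_injective ι hιi) hfm, hfg, hg,
      ← minpoly.isIntegrallyClosed_dvd_iff hθb, e, map_eq_zero]

end Pool.Agent.L0h11
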