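import Mathlib
import Pool.Agent.R410.PW.Weil

/-!
# The bound of Weil for the sums of the values of a multiplicative character at a polynomial
-/

set_option autoImplicit false
set_option linter.unusedSectionVars false

namespace Pool.Agent.L0h11

open Polynomial Finset

/-- a polynomial all of whose multiplicities are multiples of `M` -/
lemma pow_form {K : Type*} [Field K] {M : ℕ} : ∀ (n : ℕ) (Q : K[X]), Q.natDegree ≤ n → Q ≠ 0 →
    (∀ w, Irreducible w → ∀ e, w ^ e ∣ Q → ¬ w ^ (e + 1) ∣ Q → M ∣ e) →
    ∃ (c : K) (Q' : K[X]), c ≠ 0 ∧ Q = C c * Q' ^ M := by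
  intro n
  induction n with
  | zero =>
    intro Q hQ hQ0 _
    have h1 := eq_C_of_natDegree_le_zero hQ
    refine ⟨Q.coeff 0, 1, ?_, by rw [one_pow, mul_one]; exact h1⟩
    intro h
    rw [h, C_0] at h1
    exact hQ0 h1
  | succ n ih =>
    intro Q hQ hQ0 hm
    by_cases hd : Q.natDegree = 0
    · have h1 := eq_C_of_natDegree_le_zero hd.le
      refine ⟨Q.coeff 0, 1, ?_, by rw [one_pow, mul_one]; exact h1⟩
      intro h
      rw [h, C_0] at h1
      exact hQ0 h1
    · have hnu : ¬ IsUnit Q := by
        intro h
        exact hd (natDegree_eq_zero_of_isUnit h)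
      obtain ⟨w, hw, hwQ⟩ := WfDvdMonoid.exists_irreducible_factor hnu hQ0
      have hfin : FiniteMultiplicity w Q := FiniteMultiplicity.of_not_isUnit hw.not_isUnit hQ0
      obtain ⟨h, hh, hwh⟩ := hfin.exists_eq_pow_mul_and_not_dvd
      set e := multiplicity w Q with he
      have he1 : e ≠ 0 := by
        intro h0
        rw [h0, pow_zero, one_mul] at hh
        exact hwh (hh ▸ hwQ)
      have h0 : h ≠ 0 := by
        rintro rfl
        exact hwh (dvd_zero w)
      have hMe : M ∣ e := by
        apply hm w hw e
        · rw [hh]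
          exact dvd_mul_right _ _
        · intro h1
          rw [hh, pow_succ] at h1
          exact hwh ((mul_dvd_mul_iff_left (pow_ne_zero e hw.ne_zero)).1 h1)
      have hwd : 0 < w.natDegree := hw.natDegree_pos
      have hdeg : h.natDegree ≤ n := by
        have h1 : Q.natDegree = e * w.natDegree + h.natDegree := by
          conv_lhs => rw [hh]
          rw [natDegree_mul (pow_ne_zero e hw.ne_zero) h0, natDegree_pow]
        have h2 : 1 ≤ e * w.natDegree := Nat.one_le_iff_ne_zero.2 (Nat.mul_ne_zero he1 hwd.ne')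
        omega
      obtain ⟨c, Q', hc, hQ'⟩ := ih h hdeg h0 (by
        intro w' hw' e' h1 h2
        by_cases hww : w ∣ w'
        · have h3 : e' = 0 := by
            by_contra h4
            exact hwh (hww.trans ((dvd_pow_self w' h4).trans h1))
          rw [h3]
          exact dvd_zero M
        · have h3 : IsCoprime w' w := by
            rcases (EuclideanDomain.dvd_or_coprime w w' hw) with h4 | h4
            · exact absurd h4 hww
            · exact h4.symm
          apply hm w' hw' e'
          · rw [hh]
            exact h1.mul_left _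
          · intro h4
            rw [hh] at h4
            exact h2 ((h3.pow : IsCoprime (w' ^ (e' + 1)) (w ^ e)).dvd_of_dvd_mul_left h4))
      obtain ⟨a, ha⟩ := hMe
      refine ⟨c, w ^ a * Q', hc, ?_⟩
      conv_lhs => rw [hh]
      rw [hQ', ha, mul_pow, ← pow_mul, mul_comm a M]
      ring

section

variable {F k : Type} [Field F] [Field k] [Algebra F k]

/-- the multiplicity of an irreducible factor is that of its roots -/
lemma mult_root [PerfectField F] {Q w : F[X]} (hQ : Q ≠ 0) (hw : Irreducible w) {e : ℕ}
    (h1 : w ^ e ∣ Q) (h2 : ¬ w ^ (e + 1) ∣ Q) {v : k} (hv : aeval v w = 0) :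
    rootMultiplicity v (Q.map (algebraMap F k)) = e := by
  classical
  obtain ⟨h, rfl⟩ := h1
  have h0 : h ≠ 0 := by
    rintro rfl
    exact hQ (mul_zero _)
  have hwh : ¬ w ∣ h := by
    intro h3
    exact h2 (by rw [pow_succ]; exact mul_dvd_mul_left _ h3)
  have hint : IsIntegral F v := ⟨w * C w.leadingCoeff⁻¹, monic_mul_leadingCoeff_inv hw.ne_zero, by
    rw [← aeval_def, map_mul, hv, zero_mul]⟩
  have hvh : aeval v h ≠ 0 := by
    intro h3
    have h4 : minpoly F v ∣ h := minpoly.dvd F v h3
    have h5 : minpoly F v ∣ w := minpoly.dvd F v hv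
    have h6 : Associated (minpoly F v) w :=
      (minpoly.irreducible hint).associated_of_dvd hw h5
    exact hwh (h6.symm.dvd.trans h4)
  have hinj := (algebraMap F k).injective
  have hm : ((w ^ e * h).map (algebraMap F k)) ≠ 0 := (Polynomial.map_ne_zero_iff hinj).2 hQ
  rw [Polynomial.map_mul, Polynomial.map_pow] at hm ⊢
  rw [rootMultiplicity_mul hm]
  have h3 : rootMultiplicity v (h.map (algebraMap F k)) = 0 := by
    apply rootMultiplicity_eq_zero
    rw [IsRoot.def, eval_map_algebraMap]
    exact hvh
  have h4 : rootMultiplicity v (w.map (algebraMap F k)) = 1 := by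
    have hsep : (w.map (algebraMap F k)).Separable :=
      (PerfectField.separable_of_irreducible hw).map
    apply le_antisymm (rootMultiplicity_le_one_of_separable hsep v)
    rw [Nat.one_le_iff_ne_zero, Ne, rootMultiplicity_eq_zero_iff]
    push Not
    refine ⟨?_, (Polynomial.map_ne_zero_iff hinj).2 hw.ne_zero⟩
    rw [IsRoot.def, eval_map_algebraMap]
    exact hv
  have h5 : rootMultiplicity v ((w.map (algebraMap F k)) ^ e) = e := by
    rw [← count_roots, roots_pow, Multiset.count_nsmul, count_roots, h4, mul_one]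
  rw [h3, h5, add_zero]

/-- the curves `y ^ n = Q(x)` -/
lemma irr_curve {k : Type} [Field k] {n : ℕ} (hn : 0 < n) {Q : k[X]} (hQ : Q ≠ 0)
    (hnot : ∀ l : ℕ, l.Prime → l ∣ n → ∃ v : k, ¬ l ∣ rootMultiplicity v Q) :
    Irreducible (X ^ n - C Q : k[X][X]) := by
  classical
  have hmon : (X ^ n - C Q : k[X][X]).Monic := monic_X_pow_sub_C _ hn.ne'
  have hdeg : (X ^ n - C Q : k[X][X]).natDegree = n := natDegree_X_pow_sub_C
  rw [hmon.irreducible_iff_natDegree]
  refine ⟨?_, ?_⟩
  · intro h
    rw [h, natDegree_one] at hdeg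
    omega
  · intro f g hf hg hfg
    by_contra hcon
    push Not at hcon
    obtain ⟨hf0, hg0⟩ := hcon
    have hsum : f.natDegree + g.natDegree = n := by
      rw [← hf.natDegree_mul hg, hfg, hdeg]
    set r := g.natDegree with hr
    -- the norm
    let Ω := AlgebraicClosure (RatFunc k)
    let j : k[X] →+* Ω := (algebraMap (RatFunc k) Ω).comp (algebraMap k[X] (RatFunc k))
    have hj : Function.Injective j :=
      (algebraMap (RatFunc k) Ω).injective.comp (IsFractionRing.injective k[X] (RatFunc k))
    have hG : (g.map j).Monic := hg.map j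
    have hsp : (g.map j).Splits := IsAlgClosed.splits _
    have h1 := hsp.coeff_zero_eq_prod_roots_of_monic hG
    have hcard : Multiset.card (g.map j).roots = r := by
      rw [← hsp.natDegree_eq_card_roots, hg.natDegree_map j]
    have h2 : ∀ β ∈ (g.map j).roots, β ^ n = j Q := by
      intro β hβ
      have h3 : (g.map j).eval β = 0 := (mem_roots hG.ne_zero).1 hβ
      have h4 : ((X ^ n - C Q : k[X][X]).map j).eval β = 0 := by
        rw [← hfg, Polynomial.map_mul, eval_mul, h3, mul_zero]
      rw [Polynomial.map_sub, Polynomial.map_pow, map_X, map_C, eval_sub, eval_pow, eval_X, eval_C,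
        sub_eq_zero] at h4
      exact h4
    have h3 : ((g.map j).roots.prod) ^ n = (j Q) ^ r := by
      have h3 : ((g.map j).roots.map fun β => β ^ n).prod = (g.map j).roots.prod ^ n := by
        rw [Multiset.prod_map_pow, Multiset.map_id']
      rw [← h3, Multiset.map_congr rfl h2, Multiset.map_const', Multiset.prod_replicate, hcard]
    have h4 : (g.coeff 0 ^ n) ^ 2 = (Q ^ r) ^ 2 := by
      apply hj
      rw [map_pow, map_pow, map_pow, map_pow, ← coeff_map, h1, mul_pow, h3, mul_pow]
      have h6 : (((-1 : Ω) ^ (g.map j).natDegree) ^ n) ^ 2 = 1 := by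
        rw [← pow_mul, ← pow_mul, mul_comm, mul_comm n 2, mul_assoc, pow_mul, neg_one_sq, one_pow]
      rw [h6, one_mul]
    have hc0 : g.coeff 0 ≠ 0 := by
      intro h
      rw [h, zero_pow hn.ne', zero_pow two_ne_zero] at h4
      exact pow_ne_zero 2 (pow_ne_zero r hQ) h4.symm
    have h5 : ∀ v : k, n * rootMultiplicity v (g.coeff 0) = r * rootMultiplicity v Q := by
      intro v
      have h6 := congrArg (fun p => Multiset.count v (roots p)) h4
      simp only [roots_pow, Multiset.count_nsmul, count_roots] at h6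
      have : n * rootMultiplicity v (g.coeff 0) * 2 = r * rootMultiplicity v Q * 2 := by
        linarith
      exact Nat.eq_of_mul_eq_mul_right two_pos this
    -- a prime
    set d := Nat.gcd n r with hd
    have hd0 : 0 < d := Nat.gcd_pos_of_pos_left _ hn
    obtain ⟨n', hn'⟩ : d ∣ n := Nat.gcd_dvd_left n r
    obtain ⟨r', hr'⟩ : d ∣ r := Nat.gcd_dvd_right n r
    have hcop : Nat.Coprime n' r' := by
      have h6 := Nat.coprime_div_gcd_div_gcd (m := n) (n := r) hd0
      rw [← hd] at h6
      have e1 : n / d = n' := by rw [hn', Nat.mul_div_cancel_left _ hd0]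
      have e2 : r / d = r' := by
        conv_lhs => rw [hr']
        rw [Nat.mul_div_cancel_left _ hd0]
      rwa [e1, e2] at h6
    have hn1 : n' ≠ 1 := by
      intro h6
      rw [h6, mul_one] at hn'
      have h7 : n ∣ r := hn' ▸ Nat.gcd_dvd_right n r
      have h8 := Nat.le_of_dvd (Nat.pos_of_ne_zero hg0) h7
      omega
    obtain ⟨l, hl, hln⟩ := Nat.exists_prime_and_dvd hn1
    obtain ⟨v, hv⟩ := hnot l hl (hln.trans (by rw [hn']; exact dvd_mul_left _ _))
    apply hv
    have h6 := h5 v
    rw [hr'] at h6
    have h7 : n' * rootMultiplicity v (g.coeff 0) = r' * rootMultiplicity v Q := by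
      apply Nat.eq_of_mul_eq_mul_left hd0
      rw [← mul_assoc, ← mul_assoc, ← hn']
      exact h6
    exact hln.trans (hcop.dvd_of_dvd_mul_left ⟨_, h7.symm⟩)

end

end Pool.Agent.L0h11
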