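import Mathlib
import Pool.Agent.L0h11.Vw

/-!
# The bound of Weil for the sums of the values of a multiplicative character at a polynomial, II
-/

set_option autoImplicit false
set_option linter.unusedSectionVars false

namespace Pool.Agent.L0h11

open Polynomial Finset
open Pool.Agent.R410.PW (WC weil)

lemma norm_chi_le {F : Type} [Field F] [Fintype F] (χ : MulChar F ℂ) (x : F) : ‖χ x‖ ≤ 1 := by
  by_cases hx : x = 0
  · rw [hx, MulChar.map_zero, norm_zero]
    exact zero_le_one
  · have h5 : (χ x) ^ (orderOf χ) = 1 := by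
      rw [← MulChar.pow_apply' χ (orderOf_pos χ).ne', pow_orderOf_eq_one]
      exact MulChar.one_apply (isUnit_iff_ne_zero.2 hx)
    exact (Complex.norm_eq_one_of_pow_eq_one h5 (orderOf_pos χ).ne').le

lemma WC_mono {n n' d d' δ δ' : ℕ} (h1 : n ≤ n') (h2 : d ≤ d') (h3 : δ ≤ δ') :
    WC n d δ ≤ WC n' d' δ' := by
  unfold WC
  gcongr

section

variable {F : Type} [Field F] [Fintype F]

/-- the sum over the twists of the curve -/
lemma twist_sum [DecidableEq F] {χ : MulChar F ℂ} {n : ℕ} (hn : 0 < n) (hχn : χ ^ n = 1) (hχ : χ ≠ 1)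
    (Q : F[X]) :
    ∑ u : F, χ⁻¹ u * (((univ : Finset (F × F)).filter fun z => z.2 ^ n = u * Q.eval z.1).card : ℂ) =
      ((Fintype.card F : ℂ) - 1) * ∑ x : F, χ (Q.eval x) := by
  have h0 : ∑ u : F, χ⁻¹ u = 0 := MulChar.sum_eq_zero_of_ne_one (by
    rwa [Ne, inv_eq_one])
  have h1 : ∀ u : F, (((univ : Finset (F × F)).filter fun z => z.2 ^ n = u * Q.eval z.1).card : ℂ) =
      ∑ x : F, ∑ y : F, if y ^ n = u * Q.eval x then 1 else 0 := by
    intro u
    rw [card_filter, Fintype.sum_prod_type]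
    push_cast
    rfl
  rw [sum_congr rfl fun u _ => by rw [h1 u, mul_sum], sum_comm, mul_sum]
  refine sum_congr rfl fun x _ => ?_
  rw [sum_congr rfl fun u _ => by rw [mul_sum], sum_comm]
  have h2 : ∀ y : F, ∑ u : F, χ⁻¹ u * (if y ^ n = u * Q.eval x then (1 : ℂ) else 0) =
      if y = 0 then 0 else χ (Q.eval x) := by
    intro y
    by_cases hQ : Q.eval x = 0
    · rw [hQ, MulChar.map_zero, ite_self]
      by_cases hy : y ^ n = 0
      · simp only [mul_zero, hy, if_true, mul_one]
        exact h0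
      · simp only [mul_zero, hy, if_false, sum_const_zero]
    · have h3 : ∀ u : F, (y ^ n = u * Q.eval x) ↔ u = y ^ n / Q.eval x := by
        intro u
        rw [eq_div_iff hQ, eq_comm]
      simp_rw [h3, mul_ite, mul_one, mul_zero]
      rw [sum_ite_eq' univ _ (fun u => χ⁻¹ u), if_pos (mem_univ _)]
      by_cases hy : y = 0
      · rw [if_pos hy, hy, zero_pow hn.ne', zero_div, MulChar.map_zero]
      · rw [if_neg hy, MulChar.inv_apply' , inv_div, div_eq_mul_inv, map_mul, ← inv_pow, map_pow,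
          ← MulChar.pow_apply' χ hn.ne', hχn, MulChar.one_apply (isUnit_iff_ne_zero.2 (inv_ne_zero hy)),
          mul_one]
  rw [sum_congr rfl fun y _ => h2 y, ← add_sum_erase univ _ (mem_univ (0 : F)), if_pos rfl, zero_add,
    sum_congr rfl fun y hy => if_neg (ne_of_mem_erase hy), sum_const,
    card_erase_of_mem (mem_univ _), card_univ, nsmul_eq_mul, Nat.cast_sub Fintype.card_pos,
    Nat.cast_one]

/-- the bound for the primitive case -/
lemma weil_prim {χ : MulChar F ℂ} {n : ℕ} (hn : 0 < n) (hχn : χ ^ n = 1) (hχ : χ ≠ 1)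
    (hnF : (n : F) ≠ 0) {Q : F[X]} (hQ : Q ≠ 0) {δ : ℕ} (hδ : Q.natDegree ≤ δ)
    (hnot : ∀ l : ℕ, l.Prime → l ∣ n → ∃ v : AlgebraicClosure F,
      ¬ l ∣ rootMultiplicity v (Q.map (algebraMap F (AlgebraicClosure F)))) :
    ‖∑ x : F, χ (Q.eval x)‖ ≤ (WC n δ δ : ℝ) * √(Fintype.card F : ℝ) := by
  classical
  set k := AlgebraicClosure F with hk
  have hq1 : (1 : ℝ) < Fintype.card F := by exact_mod_cast Fintype.one_lt_card
  -- the curves
  have hcurve : ∀ u : F, u ≠ 0 →
      |(((univ : Finset (F × F)).filter fun z => z.2 ^ n = u * Q.eval z.1).card : ℝ) -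
        Fintype.card F| ≤ (WC n δ δ : ℝ) * √(Fintype.card F : ℝ) := by
    intro u hu
    set f : F[X][X] := X ^ n - C (C u * Q) with hf
    have hmon : f.Monic := monic_X_pow_sub_C _ hn.ne'
    have hdeg : f.natDegree = n := natDegree_X_pow_sub_C
    have hAB : (-(C (C (n : F))) : F[X][X]) * f + X * derivative f = C (C (n : F) * (C u * Q)) := by
      rw [hf]
      simp only [derivative_sub, derivative_X_pow, derivative_C, sub_zero]
      obtain ⟨n', rfl⟩ := Nat.exists_eq_succ_of_ne_zero hn.ne'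
      simp only [Nat.succ_eq_add_one, Nat.add_sub_cancel, map_natCast, C_mul]
      ring
    have hD : (C (n : F) * (C u * Q)) ≠ 0 :=
      mul_ne_zero (C_ne_zero.2 hnF) (mul_ne_zero (C_ne_zero.2 hu) hQ)
    have hDδ : (C (n : F) * (C u * Q)).natDegree ≤ δ := by
      rw [natDegree_C_mul hnF, natDegree_C_mul hu]
      exact hδ
    have hd : ∀ i, (f.coeff i).natDegree ≤ δ := by
      intro i
      rw [hf, coeff_sub, coeff_X_pow, coeff_C]
      refine (natDegree_sub_le _ _).trans (max_le ?_ ?_)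
      · split_ifs
        · rw [natDegree_one]; exact Nat.zero_le _
        · rw [natDegree_zero]; exact Nat.zero_le _
      · split_ifs
        · rw [natDegree_C_mul hu]; exact hδ
        · rw [natDegree_zero]; exact Nat.zero_le _
    have hirr : Irreducible (f.map (mapRingHom (algebraMap F k))) := by
      have h1 : f.map (mapRingHom (algebraMap F k)) =
          X ^ n - C (C (algebraMap F k u) * Q.map (algebraMap F k)) := by
        rw [hf, Polynomial.map_sub, Polynomial.map_pow, map_X, map_C, coe_mapRingHom,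
          Polynomial.map_mul, map_C]
      rw [h1]
      have hu' : algebraMap F k u ≠ 0 := by
        rwa [Ne, FaithfulSMul.algebraMap_eq_zero_iff]
      have hQ' : Q.map (algebraMap F k) ≠ 0 :=
        (Polynomial.map_ne_zero_iff (algebraMap F k).injective).2 hQ
      refine irr_curve hn (mul_ne_zero (C_ne_zero.2 hu') hQ') ?_
      intro l hl hln
      obtain ⟨v, hv⟩ := hnot l hl hln
      refine ⟨v, ?_⟩
      rwa [← count_roots, roots_C_mul _ hu', count_roots]
    have h1 := weil k hmon (by rw [hdeg]; exact hn) hAB hD hDδ hd hirr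
    rw [hdeg, Nat.card_eq_fintype_card] at h1
    have h2 : {z : F × F | evalEval z.1 z.2 f = 0} =
        (((univ : Finset (F × F)).filter fun z => z.2 ^ n = u * Q.eval z.1 : Finset (F × F)) :
          Set (F × F)) := by
      ext z
      rw [Set.mem_ofPred_eq, coe_filter, Set.mem_ofPred_eq, hf]
      simp only [mem_univ, true_and]
      rw [evalEval, eval_sub, eval_pow, eval_X, eval_C, eval_sub, eval_pow, eval_C, eval_mul, eval_C,
        sub_eq_zero]
    rw [h2, Set.ncard_coe_finset] at h1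
    exact h1
  have h1 := twist_sum hn hχn hχ Q
  have h0 : ∑ u : F, χ⁻¹ u = 0 := MulChar.sum_eq_zero_of_ne_one (by
    rwa [Ne, inv_eq_one])
  have h2 : ∑ u : F, χ⁻¹ u *
      ((((univ : Finset (F × F)).filter fun z => z.2 ^ n = u * Q.eval z.1).card : ℂ) -
        (Fintype.card F : ℂ)) = ((Fintype.card F : ℂ) - 1) * ∑ x : F, χ (Q.eval x) := by
    rw [← h1]
    simp_rw [mul_sub]
    rw [sum_sub_distrib, ← sum_mul, h0, zero_mul, sub_zero]
  have h3 : ‖((Fintype.card F : ℂ) - 1) * ∑ x : F, χ (Q.eval x)‖ ≤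
      ((Fintype.card F : ℝ) - 1) * ((WC n δ δ : ℝ) * √(Fintype.card F : ℝ)) := by
    rw [← h2, ← add_sum_erase univ _ (mem_univ (0 : F)), MulChar.map_zero, zero_mul, zero_add]
    refine (norm_sum_le _ _).trans ?_
    calc ∑ u ∈ univ.erase (0 : F), ‖χ⁻¹ u *
      ((((univ : Finset (F × F)).filter fun z => z.2 ^ n = u * Q.eval z.1).card : ℂ) -
        (Fintype.card F : ℂ))‖ ≤ ∑ u ∈ univ.erase (0 : F), ((WC n δ δ : ℝ) * √(Fintype.card F : ℝ)) := by
          refine sum_le_sum fun u hu => ?_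
          rw [norm_mul]
          have h4 := hcurve u (ne_of_mem_erase hu)
          have h5 : ‖((((univ : Finset (F × F)).filter fun z => z.2 ^ n = u * Q.eval z.1).card : ℂ) -
              (Fintype.card F : ℂ))‖ =
              |(((univ : Finset (F × F)).filter fun z => z.2 ^ n = u * Q.eval z.1).card : ℝ) -
        Fintype.card F| := by
            rw [← Real.norm_eq_abs, ← Complex.norm_real]
            push_cast
            rfl
          rw [h5]
          calc _ ≤ 1 * ((WC n δ δ : ℝ) * √(Fintype.card F : ℝ)) :=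
                mul_le_mul (norm_chi_le χ⁻¹ u) h4 (abs_nonneg _) zero_le_one
            _ = _ := one_mul _
      _ = ((Fintype.card F : ℝ) - 1) * ((WC n δ δ : ℝ) * √(Fintype.card F : ℝ)) := by
          rw [sum_const, card_erase_of_mem (mem_univ _), card_univ, nsmul_eq_mul,
            Nat.cast_sub Fintype.card_pos, Nat.cast_one]
  have h4 : ‖((Fintype.card F : ℂ) - 1)‖ = (Fintype.card F : ℝ) - 1 := by
    have h5 : ((Fintype.card F : ℂ) - 1) = (((Fintype.card F : ℝ) - 1 : ℝ) : ℂ) := by push_cast; rfl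
    rw [h5, Complex.norm_real, Real.norm_of_nonneg (by linarith)]
  rw [norm_mul, h4] at h3
  exact le_of_mul_le_mul_left h3 (by linarith)

/-- **The bound of Weil.** -/
theorem weil_one {M : ℕ} (hMF : (M : F) ≠ 0) {χ : MulChar F ℂ} (hχ1 : χ ^ M = 1)
    (hχ2 : ∀ j, χ ^ j = 1 → M ∣ j) {P : F[X]} (hP : P ≠ 0) {δ : ℕ} (hδ : P.natDegree ≤ δ)
    {w : F[X]} (hw : Irreducible w) {e : ℕ} (h1 : w ^ e ∣ P) (h2 : ¬ w ^ (e + 1) ∣ P)
    (he : ¬ M ∣ e) : ‖∑ x : F, χ (P.eval x)‖ ≤ (WC M δ δ : ℝ) * √(Fintype.card F : ℝ) := by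
  classical
  have hM0 : 0 < M := by
    rcases Nat.eq_zero_or_pos M with h | h
    · rw [h, Nat.cast_zero] at hMF
      exact absurd rfl hMF
    · exact h
  -- the maximal divisor
  let T : Finset ℕ := M.divisors.filter fun d => ∃ (c : F) (Q : F[X]), c ≠ 0 ∧ P = C c * Q ^ d
  have hT : T.Nonempty := ⟨1, by
    rw [mem_filter, Nat.mem_divisors]
    exact ⟨⟨one_dvd M, hM0.ne'⟩, 1, P, one_ne_zero, by rw [C_1, one_mul, pow_one]⟩⟩
  obtain ⟨d, hdT, hdmax⟩ := T.exists_max_image id hT
  rw [mem_filter, Nat.mem_divisors] at hdT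
  obtain ⟨⟨hdM, -⟩, c, Q, hc, hPQ⟩ := hdT
  obtain ⟨n, hn⟩ := hdM
  have hd0 : 0 < d := by
    rcases Nat.eq_zero_or_pos d with h | h
    · rw [h, zero_mul] at hn
      omega
    · exact h
  have hn0 : 0 < n := by
    rcases Nat.eq_zero_or_pos n with h | h
    · rw [h, mul_zero] at hn
      omega
    · exact h
  have hQ : Q ≠ 0 := by
    rintro rfl
    rw [zero_pow hd0.ne', mul_zero] at hPQ
    exact hP hPQ
  -- `n ≠ 1`
  have hn1 : n ≠ 1 := by
    intro h
    rw [h, mul_one] at hn
    apply he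
    have hfin : FiniteMultiplicity w Q := FiniteMultiplicity.of_not_isUnit hw.not_isUnit hQ
    obtain ⟨h', hh, hwh⟩ := hfin.exists_eq_pow_mul_and_not_dvd
    set a := multiplicity w Q with ha
    have h3 : P = w ^ (a * d) * (C c * h' ^ d) := by
      rw [hPQ, hh, mul_pow, ← pow_mul]
      ring
    have h4 : ¬ w ∣ C c * h' ^ d := by
      intro h5
      rcases hw.prime.dvd_or_dvd h5 with h6 | h6
      · exact hw.not_isUnit (isUnit_of_dvd_unit h6 (isUnit_C.2 (isUnit_iff_ne_zero.2 hc)))
      · exact hwh (hw.prime.dvd_of_dvd_pow h6)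
    have h5 : e = a * d := by
      apply le_antisymm
      · by_contra h6
        push Not at h6
        have h7 : w ^ (a * d + 1) ∣ P := (pow_dvd_pow w h6).trans h1
        rw [h3, pow_succ] at h7
        exact h4 ((mul_dvd_mul_iff_left (pow_ne_zero _ hw.ne_zero)).1 h7)
      · by_contra h6
        push Not at h6
        apply h2
        rw [h3]
        exact (pow_dvd_pow w h6).mul_right _
    rw [h5, hn]
    exact dvd_mul_left _ _
  have hχd : (χ ^ d) ^ n = 1 := by rw [← pow_mul, ← hn, hχ1]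
  have hχd1 : χ ^ d ≠ 1 := by
    intro h
    have h3 := Nat.le_of_dvd hd0 (hχ2 d h)
    rw [hn] at h3
    have h4 : n ≤ 1 := by
      by_contra h5
      push Not at h5
      nlinarith
    omega
  have hnF : (n : F) ≠ 0 := by
    intro h
    apply hMF
    rw [hn, Nat.cast_mul, h, mul_zero]
  have hQδ : Q.natDegree ≤ δ := by
    refine le_trans ?_ hδ
    rw [hPQ, natDegree_C_mul hc, natDegree_pow]
    exact Nat.le_mul_of_pos_left _ hd0
  have h3 := weil_prim hn0 hχd hχd1 hnF hQ hQδ (by
    intro l hl hln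
    by_contra hcon
    push Not at hcon
    obtain ⟨c', Q', hc', hQ'⟩ := pow_form (M := l) Q.natDegree Q le_rfl hQ (by
      intro w' hw' e' h4 h5
      have hdeg : (w'.map (algebraMap F (AlgebraicClosure F))).degree ≠ 0 := by
        rw [degree_map]
        exact hw'.degree_pos.ne'
      obtain ⟨v, hv⟩ := IsAlgClosed.exists_root _ hdeg
      rw [IsRoot.def, eval_map_algebraMap] at hv
      have h6 := mult_root (k := AlgebraicClosure F) hQ hw' h4 h5 hv
      rw [← h6]
      exact hcon v)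
    have h4 : d * l ∈ T := by
      rw [mem_filter, Nat.mem_divisors]
      refine ⟨⟨?_, hM0.ne'⟩, c * c' ^ d, Q', mul_ne_zero hc (pow_ne_zero _ hc'), ?_⟩
      · rw [hn]
        exact mul_dvd_mul_left d hln
      · rw [hPQ, hQ', mul_pow, ← pow_mul, C_mul, C_pow, mul_comm l d]
        ring
    have h5 := hdmax _ h4
    simp only [id] at h5
    have h6 := hl.two_le
    nlinarith)
  have h4 : ∑ x : F, χ (P.eval x) = χ c * ∑ x : F, (χ ^ d) (Q.eval x) := by
    rw [mul_sum]
    refine sum_congr rfl fun x _ => ?_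
    rw [hPQ, eval_mul, eval_C, eval_pow, map_mul, map_pow, MulChar.pow_apply' χ hd0.ne']
  rw [h4, norm_mul]
  calc ‖χ c‖ * ‖∑ x : F, (χ ^ d) (Q.eval x)‖ ≤ 1 * ((WC n δ δ : ℝ) * √(Fintype.card F : ℝ)) :=
        mul_le_mul (norm_chi_le χ c) h3 (norm_nonneg _) zero_le_one
    _ = (WC n δ δ : ℝ) * √(Fintype.card F : ℝ) := one_mul _
    _ ≤ (WC M δ δ : ℝ) * √(Fintype.card F : ℝ) := by
        refine mul_le_mul_of_nonneg_right ?_ (Real.sqrt_nonneg _)
        have h5 : n ≤ M := Nat.le_of_dvd hM0 (by rw [hn]; exact dvd_mul_left _ _)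
        exact_mod_cast WC_mono h5 le_rfl le_rfl

end

end Pool.Agent.L0h11
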