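import Mathlib
import Pool.Agent.R410.PW.Weil
import Pool.Agent.L0h11.Vw2

/-!
# Multiplicative character sums over plane curves
-/

set_option autoImplicit false
set_option linter.unusedSectionVars false

open Polynomial

namespace Pool.Agent.L0h11

section

variable {k : Type} [Field k]

/-- the twisted polynomial `b ^ (-m) * f (x, b * z ^ M)` -/
noncomputable def tw (f : k[X][X]) (M : ℕ) (b : k) : k[X][X] :=
  C (C (b⁻¹ ^ f.natDegree)) * expand k[X] M (f.comp (C (C b) * X))

variable {f : k[X][X]} {M : ℕ} {b : k}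

lemma tw_q (hb : b ≠ 0) : (C (C b) * X : k[X][X]).natDegree = 1 := by
  rw [natDegree_C_mul_X]
  rw [Ne, C_eq_zero]
  exact hb

lemma tw_natDegree (hb : b ≠ 0) : (tw f M b).natDegree = f.natDegree * M := by
  unfold tw
  rw [natDegree_C_mul (by rw [Ne, C_eq_zero]; exact pow_ne_zero _ (inv_ne_zero hb)),
    natDegree_expand, natDegree_comp, tw_q hb, mul_one]

lemma tw_monic (hf : f.Monic) (hM : 0 < M) (hb : b ≠ 0) : (tw f M b).Monic := by
  unfold tw Monic
  rw [leadingCoeff_mul, leadingCoeff_C, leadingCoeff_expand hM, leadingCoeff_comp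
    (by rw [tw_q hb]; exact one_ne_zero), hf.leadingCoeff, one_mul, leadingCoeff_mul, leadingCoeff_C,
    leadingCoeff_X, mul_one, ← C_pow, ← C_mul, ← mul_pow, inv_mul_cancel₀ hb, one_pow, C_1]

lemma tw_coeff {dd : ℕ} (hM : 0 < M) (hdd : ∀ i, (f.coeff i).natDegree ≤ dd) (i : ℕ) :
    ((tw f M b).coeff i).natDegree ≤ dd := by
  unfold tw
  rw [coeff_C_mul, coeff_expand hM]
  split_ifs
  · rw [comp_C_mul_X_coeff, ← C_pow, mul_comm (f.coeff _), ← mul_assoc, ← C_mul]
    exact (natDegree_C_mul_le _ _).trans (hdd _)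
  · rw [mul_zero, natDegree_zero]
    exact Nat.zero_le _

lemma tw_eval (x z : k) : evalEval x z (tw f M b) =
    b⁻¹ ^ f.natDegree * evalEval x (b * z ^ M) f := by
  unfold tw evalEval
  rw [eval_mul, eval_C, eval_mul, eval_C, expand_eval, eval_comp, eval_mul, eval_C, eval_X,
    ← C_pow, ← C_mul]

lemma tw_bezout (hM : 0 < M) {a₁ b₁ : k[X][X]} {D₁ : k[X]}
    (h : a₁ * f + b₁ * derivative f = C D₁) : ∃ A' B' : k[X][X],
      A' * tw f M b + B' * derivative (tw f M b) =
        C (C ((M : k) * b⁻¹ ^ f.natDegree) * f.coeff 0 * D₁) := by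
  set q : k[X][X] := C (C b) * X with hq
  set κ : k[X][X] := C (C (b⁻¹ ^ f.natDegree)) with hκ
  set E : k[X][X] →ₐ[k[X]] k[X][X] := expand k[X] M with hE
  have hEq : E q = C (C b) * X ^ M := by
    rw [hq, map_mul, hE, expand_C, expand_X]
  have h1 : E (a₁.comp q) * E (f.comp q) + E (b₁.comp q) * E ((derivative f).comp q) = C D₁ := by
    have h2 := congrArg (fun p => E (p.comp q)) h
    simp only [add_comp, mul_comp, C_comp, map_add, map_mul] at h2
    rw [h2, hE, expand_C]
  have h3 : E (f.comp q) = E (f.divX.comp q) * E q + C (f.coeff 0) := by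
    conv_lhs => rw [← divX_mul_X_add f]
    rw [add_comp, mul_comp, X_comp, C_comp, map_add, map_mul, hE, expand_C]
  have h4 : derivative (tw f M b) = κ * (C (C b) * E ((derivative f).comp q) *
      ((M : k[X][X]) * X ^ (M - 1))) := by
    unfold tw
    rw [derivative_C_mul, derivative_expand, derivative_comp, derivative_C_mul, derivative_X,
      mul_one, map_mul, expand_C]
  have h5 : (X : k[X][X]) ^ M = X * X ^ (M - 1) := by
    rw [← pow_succ', Nat.sub_add_cancel hM]
  have h6 : tw f M b = κ * E (f.comp q) := rfl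
  refine ⟨(M : k[X][X]) * C D₁ - (M : k[X][X]) * E (f.divX.comp q) * E q * E (a₁.comp q),
    - (E (f.divX.comp q) * E (b₁.comp q) * X), ?_⟩
  have h7 : C (C ((M : k) * b⁻¹ ^ f.natDegree) * f.coeff 0 * D₁) =
      (M : k[X][X]) * κ * C (f.coeff 0) * C D₁ := by
    rw [hκ]
    simp only [C_mul, map_mul, map_natCast]
  rw [h7, h4, h6, hEq, h5]
  rw [hEq, h5] at h3
  linear_combination (-(M : k[X][X]) * κ * E (f.divX.comp q) * (C (C b) * (X * X ^ (M - 1)))) * h1 +
    ((M : k[X][X]) * κ * C D₁) * h3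

lemma tw_irr {Om : Type} [Field Om] [IsAlgClosed Om] (i : k →+* Om) (hM : 0 < M) (hb : b ≠ 0)
    (h : Irreducible ((expand k[X] M f).map (mapRingHom i))) :
    Irreducible ((tw f M b).map (mapRingHom i)) := by
  obtain ⟨β, hβ⟩ := IsAlgClosed.exists_pow_nat_eq (i b) hM
  have hib : i b ≠ 0 := (_root_.map_ne_zero i).2 hb
  have hβ0 : β ≠ 0 := by
    rintro rfl
    rw [zero_pow hM.ne'] at hβ
    exact hib hβ.symm
  have h1 : (tw f M b).map (mapRingHom i) = C (C (i (b⁻¹ ^ f.natDegree))) *
      ((expand k[X] M f).map (mapRingHom i)).comp (C (C β) * X + C 0) := by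
    unfold tw
    rw [Polynomial.map_mul, Polynomial.map_C, coe_mapRingHom, Polynomial.map_C, map_expand,
      map_expand, map_comp, Polynomial.map_mul, Polynomial.map_C, Polynomial.map_X, coe_mapRingHom,
      Polynomial.map_C, expand_eq_comp_X_pow, expand_eq_comp_X_pow, comp_assoc, comp_assoc]
    congr 2
    simp only [mul_comp, C_comp, X_comp, pow_comp, C_0, add_zero, mul_pow]
    rw [← hβ, C_pow, C_pow]
  rw [h1]
  let _ : Invertible (C β : Om[X]) := ⟨C β⁻¹, by rw [← C_mul, inv_mul_cancel₀ hβ0, C_1],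
    by rw [← C_mul, mul_inv_cancel₀ hβ0, C_1]⟩
  have h2 : ((expand k[X] M f).map (mapRingHom i)).comp (C (C β) * X + C 0) =
      algEquivCMulXAddC (C β : Om[X]) 0 ((expand k[X] M f).map (mapRingHom i)) := by
    rw [algEquivCMulXAddC_apply, aeval_def, comp, algebraMap_eq]
  rw [h2]
  have h3 : IsUnit (C (C (i (b⁻¹ ^ f.natDegree))) : Om[X][X]) := by
    rw [isUnit_C, isUnit_C, isUnit_iff_ne_zero]
    exact (_root_.map_ne_zero i).2 (pow_ne_zero _ (inv_ne_zero hb))
  rw [irreducible_isUnit_mul h3]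
  exact (MulEquiv.irreducible_iff (algEquivCMulXAddC (C β : Om[X]) 0)).2 h

end

open Finset in
/-- **Weil's bound for multiplicative characters on plane curves.** -/
theorem curve_charsum {k : Type} [Field k] [Fintype k] [DecidableEq k] {f a₁ b₁ : k[X][X]} {D₁ : k[X]}
    (hf : f.Monic) (hn : 0 < f.natDegree) (h : a₁ * f + b₁ * derivative f = C D₁) (hD : D₁ ≠ 0)
    (hc : f.coeff 0 ≠ 0) {M : ℕ} (hM : 0 < M) (hMk : (M : k) ≠ 0) {δ : ℕ} (hδ : D₁.natDegree ≤ δ)
    {dd : ℕ} (hdd : ∀ i, (f.coeff i).natDegree ≤ dd)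
    (hirr : Irreducible ((expand k[X] M f).map (mapRingHom (algebraMap k (AlgebraicClosure k)))))
    {χ : MulChar k ℂ} (hχ : χ ≠ 1) (hχM : χ ^ M = 1) :
    ‖∑ x : k, ∑ y : k, (if evalEval x y f = 0 then χ y else 0)‖ ≤
      |(Pool.Agent.R410.PW.WC (f.natDegree * M) dd (dd + δ) : ℝ)| * √(Fintype.card k : ℝ) := by
  set S : ℂ := ∑ x : k, ∑ y : k, (if evalEval x y f = 0 then χ y else 0) with hS
  set W : ℝ := |(Pool.Agent.R410.PW.WC (f.natDegree * M) dd (dd + δ) : ℝ)| with hW
  set q := Fintype.card k with hq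
  have hq1 : 1 < q := Fintype.one_lt_card
  have hsum0 : ∑ b : k, χ b = 0 := MulChar.sum_eq_zero_of_ne_one hχ
  -- the points of the twisted curves
  let N : k → ℝ := fun b => ((univ.filter fun z : k × k => evalEval z.1 z.2 (tw f M b) = 0).card : ℝ)
  have hN : ∀ b : k, b ≠ 0 → |N b - q| ≤ W * √(q : ℝ) := by
    intro b hb
    obtain ⟨A', B', hAB⟩ := tw_bezout (b := b) hM h
    have hw := Pool.Agent.R410.PW.weil (F := k) (AlgebraicClosure k) (tw_monic hf hM hb)
      (by rw [tw_natDegree hb]; positivity) hAB (by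
        refine mul_ne_zero (mul_ne_zero ?_ hc) hD
        rw [Ne, C_eq_zero]
        exact mul_ne_zero hMk (pow_ne_zero _ (inv_ne_zero hb))) (δ := dd + δ) (by
        refine natDegree_mul_le.trans (add_le_add ?_ hδ)
        exact (natDegree_C_mul_le _ _).trans (hdd 0)) (d := dd) (tw_coeff hM hdd)
      (tw_irr (algebraMap k (AlgebraicClosure k)) hM hb hirr)
    rw [tw_natDegree hb, Nat.card_eq_fintype_card] at hw
    have h1 : ({z : k × k | evalEval z.1 z.2 (tw f M b) = 0}.ncard : ℝ) = N b := by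
      simp only [N]
      congr 1
      rw [← Set.ncard_coe_finset]
      congr 1
      ext z
      simp
    rw [h1] at hw
    exact hw.trans (mul_le_mul_of_nonneg_right (le_abs_self _) (Real.sqrt_nonneg _))
  -- the sum over `b`
  have hT : ∑ b : k, χ b * (N b : ℂ) = ((q : ℂ) - 1) * S := by
    have e1 : ∀ b : k, χ b * (N b : ℂ) =
        ∑ x : k, ∑ z : k, (if evalEval x (b * z ^ M) f = 0 then χ b else 0) := by
      intro b
      by_cases hb : b = 0
      · rw [hb, MulChar.map_zero, zero_mul]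
        symm
        apply Finset.sum_eq_zero
        intro x _
        apply Finset.sum_eq_zero
        intro z _
        split_ifs <;> rfl
      · have e2 : (N b : ℂ) = ∑ x : k, ∑ z : k, (if evalEval x (b * z ^ M) f = 0 then (1 : ℂ) else 0) := by
          simp only [N]
          rw [Finset.card_filter, ← Fintype.sum_prod_type']
          push_cast
          refine Finset.sum_congr rfl fun z _ => ?_
          have e3 : evalEval z.1 z.2 (tw f M b) = 0 ↔ evalEval z.1 (b * z.2 ^ M) f = 0 := by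
            rw [tw_eval, mul_eq_zero]
            constructor
            · rintro (h1 | h1)
              · exact absurd h1 (pow_ne_zero _ (inv_ne_zero hb))
              · exact h1
            · exact Or.inr
          by_cases h4 : evalEval z.1 (b * z.2 ^ M) f = 0
          · rw [if_pos h4, if_pos (e3.2 h4)]
            simp
          · rw [if_neg h4, if_neg (fun h => h4 (e3.1 h))]
            simp
        rw [e2, mul_sum]
        refine Finset.sum_congr rfl fun x _ => ?_
        rw [mul_sum]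
        refine Finset.sum_congr rfl fun z _ => ?_
        split_ifs
        · rw [mul_one]
        · rw [mul_zero]
    rw [Finset.sum_congr rfl fun b _ => e1 b, sum_comm, hS, mul_sum]
    refine Finset.sum_congr rfl fun x _ => ?_
    rw [sum_comm, ← add_sum_erase univ _ (mem_univ (0 : k))]
    have e2 : ∑ b : k, (if evalEval x (b * (0 : k) ^ M) f = 0 then χ b else 0) = 0 := by
      simp only [zero_pow hM.ne', mul_zero]
      split_ifs
      · exact hsum0
      · exact sum_const_zero
    rw [e2, zero_add]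
    have e3 : ∀ z ∈ (univ : Finset k).erase 0,
        ∑ b : k, (if evalEval x (b * z ^ M) f = 0 then χ b else 0) =
        ∑ y : k, (if evalEval x y f = 0 then χ y else 0) := by
      intro z hz
      have hz0 : z ≠ 0 := ne_of_mem_erase hz
      have hzM : z ^ M ≠ 0 := pow_ne_zero _ hz0
      rw [← Equiv.sum_comp (Equiv.mulRight₀ (z ^ M) hzM)
        (fun y => if evalEval x y f = 0 then χ y else 0)]
      refine Finset.sum_congr rfl fun b _ => ?_
      simp only [Equiv.mulRight₀_apply]
      have e4 : χ (b * z ^ M) = χ b := by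
        rw [map_mul, map_pow, ← MulChar.pow_apply' χ hM.ne', hχM,
          MulChar.one_apply (isUnit_iff_ne_zero.2 hz0), mul_one]
      rw [e4]
    rw [Finset.sum_congr rfl e3, sum_const, card_erase_of_mem (mem_univ _), card_univ, nsmul_eq_mul,
      Nat.cast_sub hq1.le, Nat.cast_one]
  have hT2 : ∑ b : k, χ b * (N b : ℂ) = ∑ b ∈ (univ : Finset k).erase 0,
      χ b * ((N b : ℂ) - (q : ℂ)) := by
    have e1 : ∑ b : k, χ b * (N b : ℂ) = ∑ b : k, χ b * ((N b : ℂ) - (q : ℂ)) := by
      simp_rw [mul_sub]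
      rw [sum_sub_distrib, ← sum_mul, hsum0, zero_mul, sub_zero]
    rw [e1, ← add_sum_erase univ _ (mem_univ (0 : k)), MulChar.map_zero, zero_mul, zero_add]
  have hle : ‖((q : ℂ) - 1) * S‖ ≤ ((q : ℝ) - 1) * (W * √(q : ℝ)) := by
    rw [← hT, hT2]
    refine (norm_sum_le _ _).trans ?_
    have e1 : ∀ b ∈ (univ : Finset k).erase 0, ‖χ b * ((N b : ℂ) - (q : ℂ))‖ ≤ W * √(q : ℝ) := by
      intro b hb
      rw [norm_mul]
      have e2 : ‖(N b : ℂ) - (q : ℂ)‖ = |N b - q| := by
        rw [← Real.norm_eq_abs, ← Complex.norm_real]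
        push_cast
        rfl
      rw [e2]
      calc ‖χ b‖ * |N b - q| ≤ 1 * (W * √(q : ℝ)) :=
            mul_le_mul (norm_chi_le χ b) (hN b (ne_of_mem_erase hb)) (abs_nonneg _) zero_le_one
        _ = W * √(q : ℝ) := one_mul _
    refine (Finset.sum_le_sum e1).trans (le_of_eq ?_)
    rw [sum_const, card_erase_of_mem (mem_univ _), card_univ, nsmul_eq_mul, Nat.cast_sub hq1.le,
      Nat.cast_one]
  have hq1' : (0 : ℝ) < (q : ℝ) - 1 := by
    have : (1 : ℝ) < q := by exact_mod_cast hq1
    linarith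
  rw [norm_mul] at hle
  have hnq : ‖(q : ℂ) - 1‖ = (q : ℝ) - 1 := by
    have e1 : (q : ℂ) - 1 = (((q : ℝ) - 1 : ℝ) : ℂ) := by push_cast; rfl
    rw [e1, Complex.norm_real, Real.norm_of_nonneg hq1'.le]
  rw [hnq] at hle
  exact le_of_mul_le_mul_left hle hq1'

end Pool.Agent.L0h11
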