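import Mathlib
import Pool.Agent.R410.LW.Main
import Pool.Agent.L0h11.Vw2

/-!
# Multiplicative character sums over schemes of finite type over the integers: birational invariance
-/

set_option autoImplicit false
set_option linter.all false

open NumberField

namespace Pool.Agent.L0h11

open Pool.Agent.R410.LW (Landau pow_den)

/-- For all nonzero multiples `t` of some `s ≠ 0`, the sum of the values `χ(f)` of a character `χ` of order
`M` over the points of `Spec A` with `t ≠ 0` with values in the field with `q` elements is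
`O(q ^ (d - 1 / 2))`. -/
def TB (A : Type) [CommRing A] (d : ℕ) (f : A) (M : ℕ) : Prop :=
  ∃ s : A, s ≠ 0 ∧ ∀ t : A, t ≠ 0 → s ∣ t → ∃ (C : ℝ) (N : ℕ), 0 ≤ C ∧ N ≠ 0 ∧
    ∀ (k : Type) [Field k] [Finite k], ((N : ℕ) : k) ≠ 0 → ∀ χ : MulChar k ℂ, orderOf χ = M →
      ‖∑ᶠ φ : {φ : A →+* k // φ t ≠ 0}, χ (φ.1 f)‖ * √(Nat.card k : ℝ) ≤ C * (Nat.card k : ℝ) ^ d

lemma chi_pow_one {k : Type} [Field k] {χ : MulChar k ℂ} {M : ℕ} (h : orderOf χ = M) (hM : M ≠ 0)
    {x : k} (hx : x ≠ 0) : χ x ^ M = 1 := by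
  rw [← MulChar.pow_apply' χ hM, ← h, pow_orderOf_eq_one, MulChar.one_apply (isUnit_iff_ne_zero.2 hx)]

theorem tb_congr {A : Type} [CommRing A] [IsDomain A] {d : ℕ} {f f' g g' : A} {M : ℕ} (hM : M ≠ 0)
    (hg : g ≠ 0) (hg' : g' ≠ 0) (h : f * g ^ M = f' * g' ^ M) (H : TB A d f M) : TB A d f' M := by
  obtain ⟨s, hs, H⟩ := H
  refine ⟨s * (g * g'), mul_ne_zero hs (mul_ne_zero hg hg'), fun t ht hst => ?_⟩
  obtain ⟨C, N, hC, hN, H⟩ := H t ht ((dvd_mul_right _ _).trans hst)
  refine ⟨C, N, hC, hN, fun k _ _ hk χ hχ => ?_⟩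
  have h1 := H k hk χ hχ
  have h2 : ∀ φ : {φ : A →+* k // φ t ≠ 0}, χ (φ.1 f) = χ (φ.1 f') := by
    intro φ
    obtain ⟨c, hc⟩ := hst
    have h3 : φ.1 (s * (g * g')) ≠ 0 := by
      intro h0
      apply φ.2
      have h5 := congrArg φ.1 hc
      rw [map_mul, h0, zero_mul] at h5
      exact h5
    rw [map_mul, map_mul] at h3
    have hg1 : φ.1 g ≠ 0 := left_ne_zero_of_mul (right_ne_zero_of_mul h3)
    have hg2 : φ.1 g' ≠ 0 := right_ne_zero_of_mul (right_ne_zero_of_mul h3)
    have h4 := congrArg (fun y => χ (φ.1 y)) h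
    simp only [map_mul, map_pow] at h4
    rwa [chi_pow_one hχ hM hg1, chi_pow_one hχ hM hg2, mul_one, mul_one] at h4
  rw [finsum_congr h2] at h1
  exact h1

section
variable {A B : Type} [CommRing A] [IsDomain A] [CommRing B] [IsDomain B] [Algebra A B]

theorem bir_bij (hinj : Function.Injective (algebraMap A B)) {a : A} (ha : a ≠ 0)
    (h : ∀ b : B, ∃ (n : ℕ) (c : A), algebraMap A B a ^ n * b = algebraMap A B c) {c : A}
    (hc : a ∣ c) (k : Type) [Field k] :
    Function.Bijective (fun φ : {φ : B →+* k // φ (algebraMap A B c) ≠ 0} =>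
      (⟨φ.1.comp (algebraMap A B), φ.2⟩ : {ψ : A →+* k // ψ c ≠ 0})) := by
  classical
  have hac : ∀ ψ : A →+* k, ψ c ≠ 0 → ψ a ≠ 0 := by
    intro ψ hψ h0
    obtain ⟨b, rfl⟩ := hc
    rw [map_mul, h0, zero_mul] at hψ
    exact hψ rfl
  refine ⟨?_, ?_⟩
  · intro φ φ' hφ
    apply Subtype.ext
    refine RingHom.ext fun b => ?_
    have e : ∀ z : A, φ.1 (algebraMap A B z) = φ'.1 (algebraMap A B z) := fun z =>
      congrArg (fun w : {ψ : A →+* k // ψ c ≠ 0} => w.1 z) hφ
    obtain ⟨n, z, hz⟩ := h b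
    have h1 := congrArg φ.1 hz
    have h2 := congrArg φ'.1 hz
    rw [map_mul, map_pow] at h1 h2
    have h3 : φ.1 (algebraMap A B a) ≠ 0 := hac (φ.1.comp (algebraMap A B)) φ.2
    have h4 : φ.1 (algebraMap A B a) ^ n ≠ 0 := pow_ne_zero n h3
    apply mul_left_cancel₀ h4
    rw [h1, e, e, h2]
  · rintro ⟨ψ, hψ⟩
    let Ba := Localization.Away (algebraMap A B a)
    let _ : Algebra A Ba := ((algebraMap B Ba).comp (algebraMap A B)).toAlgebra
    have hBi : Function.Injective (algebraMap B Ba) :=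
      IsLocalization.injective Ba (powers_le_nonZeroDivisors_of_noZeroDivisors
        ((map_ne_zero_iff _ hinj).2 ha))
    have hloc : IsLocalization.Away a Ba := by
      refine { map_units := ?_, surj := ?_, exists_of_eq := ?_ }
      · rintro ⟨_, n, rfl⟩
        show IsUnit (algebraMap B Ba (algebraMap A B (a ^ n)))
        rw [map_pow, map_pow]
        exact (IsLocalization.Away.algebraMap_isUnit (algebraMap A B a)).pow n
      · intro z
        obtain ⟨⟨b, ⟨_, n, rfl⟩⟩, hb⟩ := IsLocalization.surj (Submonoid.powers (algebraMap A B a)) z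
        obtain ⟨m, x, hx⟩ := h b
        refine ⟨⟨x, ⟨a ^ (n + m), n + m, rfl⟩⟩, ?_⟩
        show z * algebraMap B Ba (algebraMap A B (a ^ (n + m))) = algebraMap B Ba (algebraMap A B x)
        rw [← hx, map_mul, ← hb, pow_add, map_mul, map_mul, map_pow, map_pow]
        simp only [map_pow]
        ring
      · intro x y hxy
        refine ⟨1, ?_⟩
        rw [hinj (hBi hxy)]
    have hu : IsUnit (ψ a) := isUnit_iff_ne_zero.2 (hac ψ hψ)
    have hl : ∀ x : A, IsLocalization.Away.lift (S := Ba) a hu (algebraMap B Ba (algebraMap A B x)) =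
        ψ x := fun x => IsLocalization.Away.lift_eq (S := Ba) a hu x
    refine ⟨⟨(IsLocalization.Away.lift (S := Ba) a hu).comp (algebraMap B Ba), ?_⟩, ?_⟩
    · rw [RingHom.comp_apply, hl]
      exact hψ
    · apply Subtype.ext
      exact RingHom.ext fun x => hl x

theorem bir_sum (hinj : Function.Injective (algebraMap A B)) {a : A} (ha : a ≠ 0)
    (h : ∀ b : B, ∃ (n : ℕ) (c : A), algebraMap A B a ^ n * b = algebraMap A B c) {c : A}
    (hc : a ∣ c) (k : Type) [Field k] (f : A) (χ : MulChar k ℂ) :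
    ∑ᶠ φ : {φ : B →+* k // φ (algebraMap A B c) ≠ 0}, χ (φ.1 (algebraMap A B f)) =
      ∑ᶠ ψ : {ψ : A →+* k // ψ c ≠ 0}, χ (ψ.1 f) := by
  exact finsum_comp_equiv (Equiv.ofBijective _ (bir_bij hinj ha h hc k))
    (f := fun ψ : {ψ : A →+* k // ψ c ≠ 0} => χ (ψ.1 f))

theorem tb_up {d : ℕ} {f : A} {M : ℕ}
    (hinj : Function.Injective (algebraMap A B)) {a : A} (ha : a ≠ 0)
    (h : ∀ b : B, ∃ (n : ℕ) (c : A), algebraMap A B a ^ n * b = algebraMap A B c)
    (hA : TB A d f M) : TB B d (algebraMap A B f) M := by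
  obtain ⟨s, hs, hA⟩ := hA
  refine ⟨algebraMap A B (a * s), (map_ne_zero_iff _ hinj).2 (mul_ne_zero ha hs), ?_⟩
  intro t ht hst
  obtain ⟨t', rfl⟩ := hst
  obtain ⟨n, z, hz⟩ := h t'
  have hz0 : z ≠ 0 := by
    rintro rfl
    rw [map_zero] at hz
    rcases mul_eq_zero.1 hz with h1 | h1
    · exact pow_ne_zero n ((map_ne_zero_iff _ hinj).2 ha) h1
    · rw [h1, mul_zero] at ht
      exact ht rfl
  obtain ⟨C, N, hC, hN, g⟩ := hA (a * s * z) (mul_ne_zero (mul_ne_zero ha hs) hz0)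
    ⟨a * z, by ring⟩
  refine ⟨C, N, hC, hN, ?_⟩
  intro k _ _ hk χ hχ
  have h1 := g k hk χ hχ
  rw [← bir_sum hinj ha h ⟨s * z, by ring⟩ k f χ] at h1
  have h2 : ∑ᶠ φ : {φ : B →+* k // φ (algebraMap A B (a * s) * t') ≠ 0}, χ (φ.1 (algebraMap A B f)) =
      ∑ᶠ φ : {φ : B →+* k // φ (algebraMap A B (a * s * z)) ≠ 0}, χ (φ.1 (algebraMap A B f)) := by
    refine finsum_comp_equiv (Equiv.subtypeEquivRight fun φ => ?_)
      (f := fun φ : {φ : B →+* k // φ (algebraMap A B (a * s * z)) ≠ 0} =>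
        χ (φ.1 (algebraMap A B f)))
    have e : algebraMap A B (a * s * z) = algebraMap A B a ^ n * (algebraMap A B (a * s) * t') := by
      rw [map_mul, ← hz]
      ring
    rw [e, map_mul φ (algebraMap A B a ^ n), map_pow, ne_eq, ne_eq, mul_eq_zero, not_or]
    constructor
    · intro h3
      refine ⟨?_, h3⟩
      refine pow_ne_zero n fun h5 => h3 ?_
      rw [map_mul, map_mul, map_mul, h5, zero_mul, zero_mul]
    · exact fun h3 => h3.2
  rw [h2]
  exact h1

theorem tb_down {d : ℕ} {f : A} {M : ℕ}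
    (hinj : Function.Injective (algebraMap A B)) {a : A} (ha : a ≠ 0)
    (h : ∀ b : B, ∃ (n : ℕ) (c : A), algebraMap A B a ^ n * b = algebraMap A B c)
    (hB : TB B d (algebraMap A B f) M) : TB A d f M := by
  obtain ⟨s, hs, hB⟩ := hB
  obtain ⟨n, c, hc⟩ := h s
  have hc0 : c ≠ 0 := by
    rintro rfl
    rw [map_zero] at hc
    rcases mul_eq_zero.1 hc with h1 | h1
    · exact pow_ne_zero n ((map_ne_zero_iff _ hinj).2 ha) h1
    · exact hs h1
  refine ⟨a * c, mul_ne_zero ha hc0, ?_⟩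
  intro t ht hst
  obtain ⟨z, rfl⟩ := hst
  obtain ⟨C, N, hC, hN, g⟩ := hB (algebraMap A B (a * c * z)) ((map_ne_zero_iff _ hinj).2 ht)
    ⟨algebraMap A B a ^ n * algebraMap A B (a * z), by
      rw [map_mul, map_mul, ← hc, map_mul]
      ring⟩
  refine ⟨C, N, hC, hN, ?_⟩
  intro k _ _ hk χ hχ
  have h1 := g k hk χ hχ
  rwa [bir_sum hinj ha h ⟨c * z, by ring⟩ k f χ] at h1

end

/-- **Birational invariance** -/
theorem tb_transfer {A B M : Type} [CommRing A] [IsDomain A] [CommRing B] [IsDomain B] [Field M]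
    [Algebra A M] [IsFractionRing A M] [Algebra B M] [IsFractionRing B M] [Algebra.FiniteType ℤ A]
    [Algebra.FiniteType ℤ B] {d m : ℕ} (hm : m ≠ 0) {f : A} {f' : B} {w : M} (hw : w ≠ 0)
    (hff : algebraMap A M f = algebraMap B M f' * w ^ m) (hA : TB A d f m) : TB B d f' m := by
  classical
  let fA : A →ₐ[ℤ] M := (algebraMap A M).toIntAlgHom
  let fB : B →ₐ[ℤ] M := (algebraMap B M).toIntAlgHom
  let C : Subalgebra ℤ M := fA.range ⊔ fB.range
  have hAfg : fA.range.FG := by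
    rw [← Algebra.map_top]
    exact ((Algebra.FiniteType.out : (⊤ : Subalgebra ℤ A).FG)).map fA
  have hBfg : fB.range.FG := by
    rw [← Algebra.map_top]
    exact ((Algebra.FiniteType.out : (⊤ : Subalgebra ℤ B).FG)).map fB
  have hCfg : C.FG := hAfg.sup hBfg
  have hCft : Algebra.FiniteType ℤ C := C.fg_iff_finiteType.1 hCfg
  let _ : Algebra A C := ((algebraMap A M).codRestrict C.toSubring fun x =>
    (le_sup_left : fA.range ≤ C) ⟨x, rfl⟩).toAlgebra
  let _ : Algebra B C := ((algebraMap B M).codRestrict C.toSubring fun x =>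
    (le_sup_right : fB.range ≤ C) ⟨x, rfl⟩).toAlgebra
  have hAC : ∀ x : A, ((algebraMap A C x : C) : M) = algebraMap A M x := fun x => rfl
  have hBC : ∀ x : B, ((algebraMap B C x : C) : M) = algebraMap B M x := fun x => rfl
  have iA : Function.Injective (algebraMap A C) := by
    intro x y h
    apply IsFractionRing.injective A M
    rw [← hAC, ← hAC, h]
  have iB : Function.Injective (algebraMap B C) := by
    intro x y h
    apply IsFractionRing.injective B M
    rw [← hBC, ← hBC, h]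
  have : Algebra.FiniteType A C := Algebra.FiniteType.of_restrictScalars_finiteType ℤ A C
  have : Algebra.FiniteType B C := Algebra.FiniteType.of_restrictScalars_finiteType ℤ B C
  obtain ⟨a, ha0, ha⟩ := pow_den (A := A) (B := C) fun c => by
    obtain ⟨x, y, hy, hxy⟩ := IsFractionRing.div_surjective (A := A) (c : M)
    have hy0 : y ≠ 0 := nonZeroDivisors.ne_zero hy
    refine ⟨y, hy0, x, ?_⟩
    apply Subtype.ext
    show ((algebraMap A C y : C) : M) * (c : M) = _
    rw [hAC, hAC, ← hxy, mul_div_cancel₀]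
    exact (map_ne_zero_iff _ (IsFractionRing.injective A M)).2 hy0
  obtain ⟨b, hb0, hb⟩ := pow_den (A := B) (B := C) fun c => by
    obtain ⟨x, y, hy, hxy⟩ := IsFractionRing.div_surjective (A := B) (c : M)
    have hy0 : y ≠ 0 := nonZeroDivisors.ne_zero hy
    refine ⟨y, hy0, x, ?_⟩
    apply Subtype.ext
    show ((algebraMap B C y : C) : M) * (c : M) = _
    rw [hBC, hBC, ← hxy, mul_div_cancel₀]
    exact (map_ne_zero_iff _ (IsFractionRing.injective B M)).2 hy0
  -- the function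
  obtain ⟨x, y, hy, hxy⟩ := IsFractionRing.div_surjective (A := A) w
  have hy0 : y ≠ 0 := nonZeroDivisors.ne_zero hy
  have hyM : algebraMap A M y ≠ 0 := (map_ne_zero_iff _ (IsFractionRing.injective A M)).2 hy0
  have hx0 : x ≠ 0 := by
    rintro rfl
    rw [map_zero, zero_div] at hxy
    exact hw hxy.symm
  refine tb_down iB hb0 hb ?_
  refine tb_congr (f := algebraMap A C f) (g := algebraMap A C y) (g' := algebraMap A C x) hm
    ((map_ne_zero_iff _ iA).2 hy0) ((map_ne_zero_iff _ iA).2 hx0) ?_ (tb_up iA ha0 ha hA)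
  apply Subtype.ext
  show ((algebraMap A C f : C) : M) * ((algebraMap A C y : C) : M) ^ m =
    ((algebraMap B C f' : C) : M) * ((algebraMap A C x : C) : M) ^ m
  rw [hAC, hAC, hAC, hBC, hff, ← hxy, div_pow, mul_assoc, div_mul_cancel₀ _ (pow_ne_zero _ hyM)]

end Pool.Agent.L0h11
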