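import Mathlib
import Pool.Agent.L0h11.Ta
import Pool.Agent.L0h11.Td

/-!
# The inductive step for multiplicative character sums
-/

set_option autoImplicit false
set_option linter.all false

open Polynomial NumberField

namespace Pool.Agent.L0h11

open Pool.Agent.R410.LW (Landau ev homEquiv bad_le curve_le_all bezout adj_domain bn_poly ev_eq)
open Pool.Agent.R410

/-- the sum over the parameters -/
theorem arith_tw {ι : Type} [Fintype ι] (P0 P1 : Finset ι) (hP : P1 ⊆ P0) (a b : ι → ℂ)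
    {q s W e m C0 C1 C2 H D : ℝ} (hq1 : 1 ≤ q) (hs1 : 1 ≤ s) (hsq : s ^ 2 = q) (hW : 0 ≤ W)
    (he : 0 ≤ e) (hm : 0 ≤ m) (hC0 : 0 ≤ C0) (hC1 : 0 ≤ C1) {d : ℕ}
    (h1 : ∀ i ∈ P1, ‖a i - q * b i‖ ≤ W * s + e) (h2 : ∀ i ∈ P0, ‖a i‖ ≤ q * m)
    (h3 : ∀ i, i ∉ P0 → a i = 0)
    (g0 : |(P0.card : ℝ) - H * q ^ d| * s ≤ C0 * q ^ d)
    (g1 : |(P1.card : ℝ) - H * q ^ d| * s ≤ C1 * q ^ d)
    (g2 : ‖∑ i ∈ P1, b i‖ * s ≤ C2 * q ^ d) (hH : H ≤ D) (hH0 : 0 ≤ H) :
    ‖∑ i, a i‖ * s ≤ ((W + e) * (D + C1) + m * (C0 + C1) + C2) * q ^ (d + 1) := by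
  classical
  have hq0 : 0 ≤ q := by linarith
  have hs0 : 0 ≤ s := by linarith
  have hqd : 0 ≤ q ^ d := pow_nonneg hq0 d
  have e1 : ∑ i, a i = ∑ i ∈ P1, (a i - q * b i) + q * ∑ i ∈ P1, b i + ∑ i ∈ P0 \ P1, a i := by
    rw [← Finset.sum_subset (Finset.subset_univ P0) (f := a) (fun i _ hi => h3 i hi),
      Finset.sum_sub_distrib, Finset.mul_sum, sub_add_cancel, add_comm, Finset.sum_sdiff hP]
  have hcard : ((P0 \ P1).card : ℝ) = P0.card - P1.card := by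
    rw [Finset.card_sdiff_of_subset hP, Nat.cast_sub (Finset.card_le_card hP)]
  have e2 : ‖∑ i ∈ P1, (a i - q * b i)‖ ≤ (W * s + e) * P1.card := by
    refine (norm_sum_le _ _).trans ((Finset.sum_le_card_nsmul _ _ _ h1).trans ?_)
    rw [nsmul_eq_mul, mul_comm]
  have e3 : ‖∑ i ∈ P0 \ P1, a i‖ ≤ q * m * (P0.card - P1.card) := by
    refine (norm_sum_le _ _).trans ((Finset.sum_le_card_nsmul _ _ (q * m) fun i hi =>
      h2 i (Finset.mem_sdiff.1 hi).1).trans ?_)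
    rw [nsmul_eq_mul, hcard, mul_comm]
  have e4 : ‖(q : ℂ) * ∑ i ∈ P1, b i‖ = q * ‖∑ i ∈ P1, b i‖ := by
    rw [norm_mul, Complex.norm_real, Real.norm_of_nonneg hq0]
  have hP1 : (P1.card : ℝ) ≤ (D + C1) * q ^ d := by
    have h4 : |(P1.card : ℝ) - H * q ^ d| ≤ C1 * q ^ d := by
      refine le_trans ?_ g1
      exact le_mul_of_one_le_right (abs_nonneg _) hs1
    have h5 := (abs_le.1 h4).2
    have h6 : H * q ^ d ≤ D * q ^ d := mul_le_mul_of_nonneg_right hH hqd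
    linarith
  have hdiff : ((P0.card : ℝ) - P1.card) * s ≤ (C0 + C1) * q ^ d := by
    have h4 : ((P0.card : ℝ) - P1.card) ≤ |(P0.card : ℝ) - H * q ^ d| + |(P1.card : ℝ) - H * q ^ d| := by
      have h5 := le_abs_self ((P0.card : ℝ) - H * q ^ d)
      have h6 := neg_abs_le ((P1.card : ℝ) - H * q ^ d)
      linarith
    have h5 := mul_le_mul_of_nonneg_right h4 hs0
    nlinarith
  have hP1' : (0 : ℝ) ≤ P1.card := Nat.cast_nonneg _
  have h4 : ‖∑ i, a i‖ ≤ (W * s + e) * P1.card + q * ‖∑ i ∈ P1, b i‖ +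
      q * m * (P0.card - P1.card) := by
    rw [e1]
    refine (norm_add_le _ _).trans (add_le_add ((norm_add_le _ _).trans (add_le_add e2 ?_)) e3)
    rw [e4]
  have h5 := mul_le_mul_of_nonneg_right h4 hs0
  refine h5.trans ?_
  have h6 : (W * s + e) * s ≤ (W + e) * q := by
    have : s ≤ q := by rw [← hsq]; nlinarith
    nlinarith
  have h7 : (W * s + e) * P1.card * s ≤ (W + e) * q * ((D + C1) * q ^ d) := by
    calc (W * s + e) * P1.card * s = ((W * s + e) * s) * P1.card := by ring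
      _ ≤ ((W + e) * q) * ((D + C1) * q ^ d) := by
          refine mul_le_mul h6 hP1 hP1' (by positivity)
  have h8 : q * m * (P0.card - P1.card) * s ≤ q * m * ((C0 + C1) * q ^ d) := by
    rw [mul_assoc]
    exact mul_le_mul_of_nonneg_left hdiff (by positivity)
  have h9 : q * ‖∑ i ∈ P1, b i‖ * s ≤ q * (C2 * q ^ d) := by
    rw [mul_assoc]
    exact mul_le_mul_of_nonneg_left g2 hq0
  calc ((W * s + e) * P1.card + q * ‖∑ i ∈ P1, b i‖ + q * m * (P0.card - P1.card)) * s =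
      (W * s + e) * P1.card * s + q * ‖∑ i ∈ P1, b i‖ * s + q * m * (P0.card - P1.card) * s := by
        ring
    _ ≤ (W + e) * q * ((D + C1) * q ^ d) + q * (C2 * q ^ d) + q * m * ((C0 + C1) * q ^ d) :=
        add_le_add (add_le_add h7 h9) h8
    _ = _ := by ring

lemma fin_sum {k : Type} [Fintype k] (P : k → Prop) [DecidablePred P] (g : k → ℂ) :
    ∑ᶠ z : {z : k // P z}, g z.1 = ∑ z ∈ Finset.univ.filter P, g z := by
  rw [finsum_eq_sum_of_fintype, ← Finset.sum_subtype (Finset.univ.filter P) (by simp) g]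

lemma fam_sum {A : Type} [CommRing A] {k : Type} [Field k] [Fintype k] [Finite (A →+* k)]
    [Fintype (A →+* k)] (f T g : A[X][X]) (χ : MulChar k ℂ)
    [∀ ψ : A →+* k, DecidablePred fun z : k × k => ev ψ z f = 0 ∧ ev ψ z T ≠ 0] :
    ∑ᶠ φ : {φ : AdjoinRoot f →+* k // φ (AdjoinRoot.mk f T) ≠ 0}, χ (φ.1 (AdjoinRoot.mk f g)) =
      ∑ ψ : A →+* k, ∑ z ∈ Finset.univ.filter (fun z : k × k => ev ψ z f = 0 ∧ ev ψ z T ≠ 0),
        χ (ev ψ z g) := by
  classical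
  rw [← finsum_comp_equiv (homEquiv f T).symm
    (f := fun φ : {φ : AdjoinRoot f →+* k // φ (AdjoinRoot.mk f T) ≠ 0} =>
      χ (φ.1 (AdjoinRoot.mk f g)))]
  have h1 : ∀ w : Σ ψ : A →+* k, {z : k × k // ev ψ z f = 0 ∧ ev ψ z T ≠ 0},
      χ (((homEquiv f T).symm w).1 (AdjoinRoot.mk f g)) = χ (ev w.1 w.2.1 g) := by
    intro w
    exact congrArg χ (AdjoinRoot.lift_mk w.2.2.1 g)
  rw [finsum_congr h1, finsum_eq_sum_of_fintype, Fintype.sum_sigma]
  refine Finset.sum_congr rfl fun ψ _ => ?_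
  rw [← Finset.sum_subtype (Finset.univ.filter fun z : k × k => ev ψ z f = 0 ∧ ev ψ z T ≠ 0)
    (by simp) (fun z => χ (ev ψ z g))]

lemma card_filter' {α : Type} [Fintype α] (P : α → Prop) [DecidablePred P] :
    Nat.card {z : α // P z} = (Finset.univ.filter P).card := by
  rw [Nat.card_eq_fintype_card, Fintype.card_subtype]

/-- **The inductive step** -/
theorem step_gen {A : Type} [CommRing A] [IsDomain A] [CharZero A] [Algebra.FiniteType ℤ A] {d : ℕ}
    {L : Type} [Field L] [NumberField L] (hA : Landau A d L) {f : A[X][X]} (hf : f.Monic)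
    (hf0 : 0 < f.natDegree) [IsDomain (AdjoinRoot f)] (g : A[X][X]) {M : ℕ}
    (B : ∀ (k : Type) [Field k], MulChar k ℂ → (A →+* k) → ℂ)
    (hB : ∃ s : A, s ≠ 0 ∧ ∀ t : A, t ≠ 0 → s ∣ t → ∃ (C : ℝ) (N : ℕ), 0 ≤ C ∧ N ≠ 0 ∧
      ∀ (k : Type) [Field k] [Finite k], ((N : ℕ) : k) ≠ 0 → ∀ χ : MulChar k ℂ, orderOf χ = M →
        ‖∑ᶠ ψ : {ψ : A →+* k // ψ t ≠ 0}, B k χ ψ.1‖ * √(Nat.card k : ℝ) ≤
          C * (Nat.card k : ℝ) ^ d)
    {t₂ : A} (ht₂ : t₂ ≠ 0) {W : ℝ} (hW : 0 ≤ W) {N₂ : ℕ} (hN₂ : N₂ ≠ 0)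
    (hb : ∀ (k : Type) [Field k] [Finite k], ((N₂ : ℕ) : k) ≠ 0 → ∀ χ : MulChar k ℂ,
      orderOf χ = M → ∀ ψ : A →+* k, ψ t₂ ≠ 0 →
        ‖∑ᶠ z : {z : k × k // ev ψ z f = 0}, χ (ev ψ z.1 g) - (Nat.card k : ℂ) * B k χ ψ‖ ≤
          W * √(Nat.card k : ℝ)) :
    TB (AdjoinRoot f) (d + 1) (AdjoinRoot.mk f g) M := by
  classical
  obtain ⟨s, hs, hA⟩ := hA
  obtain ⟨sB, hsB, hB⟩ := hB
  have hinj : Function.Injective (AdjoinRoot.of f) := by
    have h0 : f.degree ≠ 0 := by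
      intro h
      have h1 := natDegree_eq_of_degree_eq_some (n := 0) h
      omega
    exact AdjoinRoot.of.injective_of_degree_ne_zero h0
  have hCi : Function.Injective ((AdjoinRoot.of f).comp (C : A →+* A[X])) :=
    hinj.comp C_injective
  set t₀ := s * sB * t₂ with ht₀
  have ht₀0 : t₀ ≠ 0 := mul_ne_zero (mul_ne_zero hs hsB) ht₂
  refine ⟨AdjoinRoot.of f (C t₀), (map_ne_zero_iff _ hCi).2 ht₀0, ?_⟩
  intro t ht hst
  obtain ⟨T, rfl⟩ := AdjoinRoot.mk_surjective t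
  -- a nonzero multiple in the polynomial ring
  have hint : Algebra.IsIntegral A[X] (AdjoinRoot f) := by
    have := hf.finite_adjoinRoot
    infer_instance
  obtain ⟨a, ha0, c, hac⟩ : ∃ a : A[X], a ≠ 0 ∧ ∃ c : AdjoinRoot f,
      AdjoinRoot.of f a = AdjoinRoot.mk f T * c := by
    have h1 := Ideal.comap_ne_bot_of_integral_mem (I := Ideal.span {AdjoinRoot.mk f T}) ht
      (Ideal.mem_span_singleton_self _) (Algebra.IsIntegral.isIntegral (R := A[X]) (AdjoinRoot.mk f T))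
    obtain ⟨a, ha, ha0⟩ := Submodule.exists_mem_ne_zero_of_ne_bot h1
    rw [Ideal.mem_comap, Ideal.mem_span_singleton] at ha
    obtain ⟨c, hc⟩ := ha
    exact ⟨a, ha0, c, hc⟩
  set t₁ := t₀ * a.leadingCoeff with ht₁
  have ht₁0 : t₁ ≠ 0 := mul_ne_zero ht₀0 (leadingCoeff_ne_zero.2 ha0)
  have hdvd0 : s ∣ t₀ := by
    rw [ht₀, mul_assoc]
    exact dvd_mul_right _ _
  have hdvdB : sB ∣ t₀ := by
    rw [ht₀, mul_comm s sB, mul_assoc]
    exact dvd_mul_right _ _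
  obtain ⟨C0, N0, hC0, hN0, g0⟩ := hA t₀ ht₀0 hdvd0
  obtain ⟨C1, N1, hC1, hN1, g1⟩ := hA t₁ ht₁0 (hdvd0.trans (dvd_mul_right _ _))
  obtain ⟨C2, N2, hC2, hN2, g2⟩ := hB t₁ ht₁0 (hdvdB.trans (dvd_mul_right _ _))
  set e : ℝ := a.natDegree * f.natDegree with he
  refine ⟨(W + e) * (Module.finrank ℤ (𝓞 L) + C1) + f.natDegree * (C0 + C1) + C2,
    N0 * N1 * N2 * N₂,
    by positivity, mul_ne_zero (mul_ne_zero (mul_ne_zero hN0 hN1) hN2) hN₂, ?_⟩
  intro k _ _ hN χ hχ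
  rw [Nat.cast_mul, Nat.cast_mul, Nat.cast_mul] at hN
  have k1 := left_ne_zero_of_mul hN
  have g0' := g0 k (left_ne_zero_of_mul (left_ne_zero_of_mul k1))
  have g1' := g1 k (right_ne_zero_of_mul (left_ne_zero_of_mul k1))
  have g2' := g2 k (right_ne_zero_of_mul k1) χ hχ
  have hb' := hb k (right_ne_zero_of_mul hN) χ hχ
  have hfin : Finite (A →+* k) := inferInstance
  let _ : Fintype (A →+* k) := Fintype.ofFinite _
  let _ : Fintype k := Fintype.ofFinite _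
  rw [fam_sum f T g χ]
  set q : ℝ := (Nat.card k : ℝ) with hq
  have hq1 : 1 ≤ q := by
    rw [hq]
    exact_mod_cast Nat.card_pos
  have hsq1 : 1 ≤ √q := Real.one_le_sqrt.2 hq1
  refine arith_tw (Finset.univ.filter fun ψ : A →+* k => ψ t₀ ≠ 0)
    (Finset.univ.filter fun ψ : A →+* k => ψ t₁ ≠ 0) ?_ _ (fun ψ => B k χ ψ) hq1 hsq1
    (Real.sq_sqrt (by linarith)) hW (by positivity) (by positivity) hC0 hC1 ?_ ?_ ?_ ?_
    ?_ ?_ ?_ (H := Nat.card (𝓞 L →+* k)) (by positivity)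
  · intro ψ hψ
    rw [Finset.mem_filter] at hψ ⊢
    refine ⟨hψ.1, fun h => hψ.2 ?_⟩
    rw [ht₁, map_mul, h, zero_mul]
  · -- the generic points
    intro ψ hψ
    rw [Finset.mem_filter, ht₁, ht₀, map_mul, map_mul, map_mul] at hψ
    have k1 := right_ne_zero_of_mul hψ.2
    have k2 := left_ne_zero_of_mul hψ.2
    have k3 := right_ne_zero_of_mul k2
    have h1 := hb' ψ k3
    rw [fin_sum (fun z : k × k => ev ψ z f = 0) (fun z => χ (ev ψ z g))] at h1
    have hbad := bad_le hf hac ψ k1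
    rw [card_filter', card_filter'] at hbad
    have hsub : (Finset.univ.filter fun z : k × k => ev ψ z f = 0 ∧ ev ψ z T ≠ 0) ⊆
        Finset.univ.filter fun z : k × k => ev ψ z f = 0 := by
      intro z hz
      rw [Finset.mem_filter] at hz ⊢
      exact ⟨hz.1, hz.2.1⟩
    have h2 := Finset.sum_sdiff hsub (f := fun z => χ (ev ψ z g))
    have h3 : ‖∑ z ∈ (Finset.univ.filter fun z : k × k => ev ψ z f = 0) \
        (Finset.univ.filter fun z : k × k => ev ψ z f = 0 ∧ ev ψ z T ≠ 0), χ (ev ψ z g)‖ ≤ e := by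
      refine (norm_sum_le _ _).trans ((Finset.sum_le_card_nsmul _ _ 1 fun z _ =>
        norm_chi_le χ _).trans ?_)
      rw [nsmul_eq_mul, mul_one, Finset.card_sdiff_of_subset hsub]
      rw [he]
      have h4 : (Finset.univ.filter fun z : k × k => ev ψ z f = 0).card -
          (Finset.univ.filter fun z : k × k => ev ψ z f = 0 ∧ ev ψ z T ≠ 0).card ≤
            a.natDegree * f.natDegree := by
        omega
      exact_mod_cast h4
    have h5 : (∑ z ∈ Finset.univ.filter (fun z : k × k => ev ψ z f = 0 ∧ ev ψ z T ≠ 0),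
        χ (ev ψ z g)) - q * B k χ ψ = (∑ z ∈ Finset.univ.filter (fun z : k × k => ev ψ z f = 0),
          χ (ev ψ z g) - (Nat.card k : ℂ) * B k χ ψ) -
          ∑ z ∈ (Finset.univ.filter fun z : k × k => ev ψ z f = 0) \
            (Finset.univ.filter fun z : k × k => ev ψ z f = 0 ∧ ev ψ z T ≠ 0), χ (ev ψ z g) := by
      rw [← h2, hq]
      push_cast
      ring
    rw [h5]
    exact (norm_sub_le _ _).trans (add_le_add h1 h3)
  · intro ψ _
    have h := curve_le_all hf ψ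
    rw [card_filter'] at h
    refine (norm_sum_le _ _).trans ((Finset.sum_le_card_nsmul _ _ 1 fun z _ =>
      norm_chi_le χ _).trans ?_)
    rw [nsmul_eq_mul, mul_one, hq]
    have h2 : (Finset.univ.filter fun z : k × k => ev ψ z f = 0 ∧ ev ψ z T ≠ 0).card ≤
        (Finset.univ.filter fun z : k × k => ev ψ z f = 0).card := by
      refine Finset.card_le_card fun z hz => ?_
      rw [Finset.mem_filter] at hz ⊢
      exact ⟨hz.1, hz.2.1⟩
    exact_mod_cast h2.trans h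
  · intro ψ hψ
    rw [Finset.mem_filter, not_and] at hψ
    have h0 := not_not.1 (hψ (Finset.mem_univ _))
    refine Finset.sum_eq_zero fun z hz => ?_
    rw [Finset.mem_filter] at hz
    exfalso
    apply hz.2.2
    obtain ⟨c', hc'⟩ := hst
    have hz1 : eval₂ (eval₂RingHom ψ z.1) z.2 f = 0 := hz.2.1
    have h1 := congrArg (AdjoinRoot.lift (eval₂RingHom ψ z.1) z.2 hz1) hc'
    rw [map_mul, AdjoinRoot.lift_of hz1, AdjoinRoot.lift_mk hz1, coe_eval₂RingHom, eval₂_C, h0,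
      zero_mul] at h1
    exact h1
  · have h := g0'
    rwa [card_filter'] at h
  · have h := g1'
    rwa [card_filter'] at h
  · rwa [fin_sum (fun ψ : A →+* k => ψ t₁ ≠ 0) (fun ψ => B k χ ψ)] at g2'
  · exact_mod_cast (Pool.Agent.W385.CP.hom_int L k).2

end Pool.Agent.L0h11
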