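import Mathlib
import Pool.Agent.L0h11.Te

/-!
# The inductive step for multiplicative character sums: the two cases
-/

set_option autoImplicit false
set_option linter.all false

open Polynomial NumberField

namespace Pool.Agent.L0h11

open Pool.Agent.R410.LW (Landau ev homEquiv bad_le curve_le_all bezout adj_domain bn_poly ev_eq ev_C
  ev_X)
open Pool.Agent.R410

lemma deg_bound {A : Type} [CommRing A] (f : A[X][X]) : ∃ dd : ℕ, ∀ i, (f.coeff i).natDegree ≤ dd := by
  refine ⟨f.support.sup fun i => (f.coeff i).natDegree, fun i => ?_⟩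
  by_cases hi : i ∈ f.support
  · exact Finset.le_sup (f := fun i => (f.coeff i).natDegree) hi
  · rw [notMem_support_iff.1 hi, natDegree_zero]
    exact Nat.zero_le _

lemma map_ne_of_lead {A k : Type} [CommRing A] [Field k] (ψ : A →+* k) {p : A[X]}
    (h : ψ p.leadingCoeff ≠ 0) : p.map ψ ≠ 0 := by
  intro h0
  apply h
  have h1 := congrArg (fun r : k[X] => r.coeff p.natDegree) h0
  simp only [coeff_map, coeff_zero] at h1
  rw [leadingCoeff]
  exact h1

/-- **The inductive step**, first case -/
theorem step_tw1 {A : Type} [CommRing A] [IsDomain A] [CharZero A] [Algebra.FiniteType ℤ A] {d : ℕ}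
    {L : Type} [Field L] [NumberField L] (hA : Landau A d L) {k₀ kb : Type} [Field k₀]
    [Algebra A k₀] [IsFractionRing A k₀] [Field kb] [Algebra k₀ kb] [IsAlgClosed kb] {f : A[X][X]}
    (hf : f.Monic) (hf0 : 0 < f.natDegree) {M' e : ℕ} (hM' : 1 < M') (he : e ≠ 0)
    (hirr : Irreducible (f.map (mapRingHom ((algebraMap k₀ kb).comp (algebraMap A k₀)))))
    (hirr2 : Irreducible ((expand A[X] M' f).map
      (mapRingHom ((algebraMap k₀ kb).comp (algebraMap A k₀)))))
    (hf1 : f.coeff 0 ≠ 0) (u : A) :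
    TB (AdjoinRoot f) (d + 1) (AdjoinRoot.mk f (C (C u) * X ^ e)) (M' * e) := by
  classical
  set ι : A →+* kb := (algebraMap k₀ kb).comp (algebraMap A k₀) with hι
  have hιi : Function.Injective ι := (algebraMap k₀ kb).injective.comp (IsFractionRing.injective A k₀)
  have hdom : IsDomain (AdjoinRoot f) := adj_domain hιi hf hirr
  have hM0 : 0 < M' := by omega
  obtain ⟨D, hD, hDirr⟩ := bn_poly (k := k₀) (kb := kb) (expand A[X] M' f) (hf.expand hM0)
    (by rw [natDegree_expand]; exact Nat.mul_pos hf0 hM0) hirr2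
  obtain ⟨a₁, b₁, D₁, hD₁, hab⟩ := bezout hιi hf hirr
  obtain ⟨dd, hdd⟩ := deg_bound f
  refine step_gen hA hf hf0 (C (C u) * X ^ e) (fun k _ _ _ => 0) ?_
    (t₂ := D * D₁.leadingCoeff * (f.coeff 0).leadingCoeff)
    (mul_ne_zero (mul_ne_zero hD (leadingCoeff_ne_zero.2 hD₁)) (leadingCoeff_ne_zero.2 hf1))
    (W := |(PW.WC (f.natDegree * M') dd (dd + D₁.natDegree) : ℝ)|) (abs_nonneg _)
    (N₂ := M') (by omega) ?_
  · refine ⟨1, one_ne_zero, fun t ht _ => ⟨0, 1, le_refl _, one_ne_zero, fun k _ _ _ χ _ => ?_⟩⟩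
    simp
  · intro k _ _ hk χ hχ ψ hψ
    let _ : Fintype k := Fintype.ofFinite k
    rw [map_mul, map_mul] at hψ
    have k1 := right_ne_zero_of_mul hψ
    have k2 := right_ne_zero_of_mul (left_ne_zero_of_mul hψ)
    have k3 := left_ne_zero_of_mul (left_ne_zero_of_mul hψ)
    have hfm : (f.map (mapRingHom ψ)).Monic := hf.map _
    have hfd : (f.map (mapRingHom ψ)).natDegree = f.natDegree := hf.natDegree_map _
    have hirr' : Irreducible ((expand k[X] M' (f.map (mapRingHom ψ))).map
        (mapRingHom (algebraMap k (AlgebraicClosure k)))) := by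
      have h := hDirr (AlgebraicClosure k) ((algebraMap k (AlgebraicClosure k)).comp ψ) (by
        rw [RingHom.comp_apply]
        exact (_root_.map_ne_zero _).2 k3)
      rw [← map_expand, Polynomial.map_map]
      have h5 : (mapRingHom (algebraMap k (AlgebraicClosure k))).comp (mapRingHom ψ) =
          mapRingHom ((algebraMap k (AlgebraicClosure k)).comp ψ) := by
        rw [mapRingHom_comp]
      rw [h5]
      exact h
    have hab' : a₁.map (mapRingHom ψ) * f.map (mapRingHom ψ) +
        b₁.map (mapRingHom ψ) * derivative (f.map (mapRingHom ψ)) = C (D₁.map ψ) := by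
      have h := congrArg (Polynomial.map (mapRingHom ψ)) hab
      rw [Polynomial.map_add, Polynomial.map_mul, Polynomial.map_mul, Polynomial.map_C] at h
      rw [derivative_map]
      exact h
    have hc : (f.map (mapRingHom ψ)).coeff 0 ≠ 0 := by
      rw [coeff_map]
      exact map_ne_of_lead ψ k1
    have hχe : χ ^ e ≠ 1 := by
      intro h
      have h1 := orderOf_dvd_of_pow_eq_one h
      rw [hχ] at h1
      have h2 := Nat.le_of_dvd (Nat.pos_of_ne_zero he) h1
      have h3 : 1 * e < M' * e := Nat.mul_lt_mul_of_pos_right hM' (Nat.pos_of_ne_zero he)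
      omega
    have hχM : (χ ^ e) ^ M' = 1 := by
      rw [← pow_mul, mul_comm e M', ← hχ, pow_orderOf_eq_one]
    have hw := curve_charsum hfm (by rw [hfd]; exact hf0) hab' (map_ne_of_lead ψ k2) hc hM0 hk
      (δ := D₁.natDegree) natDegree_map_le (dd := dd)
      (fun i => by
        rw [coeff_map]
        exact natDegree_map_le.trans (hdd i)) hirr' hχe hχM
    rw [hfd] at hw
    rw [fin_sum (fun z : k × k => ev ψ z f = 0) (fun z => χ (ev ψ z (C (C u) * X ^ e))), mul_zero,
      sub_zero, Finset.sum_filter, Fintype.sum_prod_type]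
    have h1 : (∑ x : k, ∑ y : k, (if ev ψ (x, y) f = 0 then χ (ev ψ (x, y) (C (C u) * X ^ e)) else 0)) =
        χ (ψ u) * ∑ x : k, ∑ y : k, (if evalEval x y (f.map (mapRingHom ψ)) = 0 then (χ ^ e) y
          else 0) := by
      rw [Finset.mul_sum]
      refine Finset.sum_congr rfl fun x _ => ?_
      rw [Finset.mul_sum]
      refine Finset.sum_congr rfl fun y _ => ?_
      rw [← ev_eq ψ (x, y) f, mul_ite, mul_zero]
      split_ifs
      · rw [map_mul, map_pow, ev_C, ev_X, eval₂_C, map_mul, map_pow, MulChar.pow_apply' χ he]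
      · rfl
    rw [h1, norm_mul, Nat.card_eq_fintype_card]
    refine (mul_le_mul (norm_chi_le χ _) hw (norm_nonneg _) zero_le_one).trans ?_
    rw [one_mul]

/-- **The inductive step**, second case -/
theorem step_tw2 {A : Type} [CommRing A] [IsDomain A] [CharZero A] [Algebra.FiniteType ℤ A] {d : ℕ}
    {L : Type} [Field L] [NumberField L] (hA : Landau A d L) {k₀ kb : Type} [Field k₀]
    [Algebra A k₀] [IsFractionRing A k₀] [Field kb] [Algebra k₀ kb] [IsAlgClosed kb] {f : A[X][X]}
    (hf : f.Monic) (hf0 : 0 < f.natDegree) {M : ℕ}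
    (hirr : Irreducible (f.map (mapRingHom ((algebraMap k₀ kb).comp (algebraMap A k₀)))))
    (u : A) (hu : TB A d u M) :
    TB (AdjoinRoot f) (d + 1) (AdjoinRoot.mk f (C (C u))) M := by
  classical
  set ι : A →+* kb := (algebraMap k₀ kb).comp (algebraMap A k₀) with hι
  have hιi : Function.Injective ι := (algebraMap k₀ kb).injective.comp (IsFractionRing.injective A k₀)
  have hdom : IsDomain (AdjoinRoot f) := adj_domain hιi hf hirr
  obtain ⟨D, hD, hDirr⟩ := bn_poly (k := k₀) (kb := kb) f hf hf0 hirr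
  obtain ⟨a₁, b₁, D₁, hD₁, hab⟩ := bezout hιi hf hirr
  obtain ⟨dd, hdd⟩ := deg_bound f
  refine step_gen hA hf hf0 (C (C u)) (fun k _ χ ψ => χ (ψ u)) hu
    (t₂ := D * D₁.leadingCoeff) (mul_ne_zero hD (leadingCoeff_ne_zero.2 hD₁))
    (W := |(PW.WC f.natDegree dd D₁.natDegree : ℝ)|) (abs_nonneg _)
    (N₂ := 1) one_ne_zero ?_
  intro k _ _ hk χ hχ ψ hψ
  let _ : Fintype k := Fintype.ofFinite k
  rw [map_mul] at hψ
  have k2 := right_ne_zero_of_mul hψ
  have k3 := left_ne_zero_of_mul hψ
  have hfm : (f.map (mapRingHom ψ)).Monic := hf.map _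
  have hfd : (f.map (mapRingHom ψ)).natDegree = f.natDegree := hf.natDegree_map _
  have hirr' : Irreducible ((f.map (mapRingHom ψ)).map
      (mapRingHom (algebraMap k (AlgebraicClosure k)))) := by
    have h := hDirr (AlgebraicClosure k) ((algebraMap k (AlgebraicClosure k)).comp ψ) (by
      rw [RingHom.comp_apply]
      exact (_root_.map_ne_zero _).2 k3)
    rw [Polynomial.map_map]
    have h5 : (mapRingHom (algebraMap k (AlgebraicClosure k))).comp (mapRingHom ψ) =
        mapRingHom ((algebraMap k (AlgebraicClosure k)).comp ψ) := by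
      rw [mapRingHom_comp]
    rw [h5]
    exact h
  have hab' : a₁.map (mapRingHom ψ) * f.map (mapRingHom ψ) +
      b₁.map (mapRingHom ψ) * derivative (f.map (mapRingHom ψ)) = C (D₁.map ψ) := by
    have h := congrArg (Polynomial.map (mapRingHom ψ)) hab
    rw [Polynomial.map_add, Polynomial.map_mul, Polynomial.map_mul, Polynomial.map_C] at h
    rw [derivative_map]
    exact h
  have hw := PW.weil (F := k) (AlgebraicClosure k) (f := f.map (mapRingHom ψ)) hfm
    (by rw [hfd]; exact hf0) hab' (map_ne_of_lead ψ k2) (δ := D₁.natDegree) natDegree_map_le (d := dd)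
    (fun i => by
      rw [coeff_map]
      exact natDegree_map_le.trans (hdd i)) hirr'
  rw [hfd] at hw
  have hnc : ({z : k × k | evalEval z.1 z.2 (f.map (mapRingHom ψ)) = 0}.ncard : ℝ) =
      Nat.card {z : k × k // ev ψ z f = 0} := by
    rw [← Nat.card_coe_set_eq]
    congr 1
    exact Nat.card_congr (Equiv.subtypeEquivRight fun z => by
      rw [Set.mem_ofPred_eq, ev_eq])
  rw [hnc, card_filter'] at hw
  have hw2 := hw.trans (mul_le_mul_of_nonneg_right (le_abs_self _) (Real.sqrt_nonneg _))
  rw [fin_sum (fun z : k × k => ev ψ z f = 0) (fun z => χ (ev ψ z (C (C u))))]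
  have h1 : (∑ z ∈ Finset.univ.filter (fun z : k × k => ev ψ z f = 0), χ (ev ψ z (C (C u)))) =
      ((Finset.univ.filter (fun z : k × k => ev ψ z f = 0)).card : ℂ) * χ (ψ u) := by
    rw [Finset.sum_congr rfl (g := fun _ => χ (ψ u)) (fun z _ => by rw [ev_C, eval₂_C]),
      Finset.sum_const, nsmul_eq_mul]
  rw [h1, ← sub_mul, norm_mul]
  have h2 : ‖((Finset.univ.filter (fun z : k × k => ev ψ z f = 0)).card : ℂ) - (Nat.card k : ℂ)‖ ≤
      |(PW.WC f.natDegree dd D₁.natDegree : ℝ)| * √(Nat.card k : ℝ) := by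
    have h3 : ((Finset.univ.filter (fun z : k × k => ev ψ z f = 0)).card : ℂ) - (Nat.card k : ℂ) =
        (((Finset.univ.filter (fun z : k × k => ev ψ z f = 0)).card - Nat.card k : ℝ) : ℂ) := by
      push_cast
      rfl
    rw [h3, Complex.norm_real, Real.norm_eq_abs]
    exact hw2
  refine (mul_le_mul h2 (norm_chi_le χ _) (norm_nonneg _) (by positivity)).trans ?_
  rw [mul_one]

end Pool.Agent.L0h11
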