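import Mathlib
import Pool.Agent.L0h11.Tc
import Pool.Agent.L0h11.Tf

/-!
# Multiplicative character sums over schemes of finite type over the integers: the main theorem
-/

set_option autoImplicit false
set_option linter.all false

open Polynomial NumberField

namespace Pool.Agent.L0h11

open Pool.Agent.R410.LW (Landau FG landau exists_sub finite_of_fg fg_sub trdeg_one closure_spec
  frac_of_closure adj_domain ft_int)
open Pool.Agent.R410

/-- **Models** of a field `K`, given as a finite extension of `F₁(x)` -/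
theorem model_exists {K : Type} [Field K] [CharZero K] {F : IntermediateField ℚ K}
    (F₁ : IntermediateField F K) (hFG : FG F₁) (x θ : K) (f : F₁[X][X]) (hfm : f.Monic) (v : F₁)
    (hker : ∀ p : F₁[X][X], eval₂ (eval₂RingHom (algebraMap F₁ K) x) θ p = 0 ↔ f ∣ p)
    (hgen : IntermediateField.adjoin F {x, θ} = ⊤) :
    ∃ (A₁ : Subalgebra ℤ F₁) (_ : Algebra.FiniteType ℤ A₁) (_ : IsFractionRing A₁ F₁)
      (fA : A₁[X][X]) (vA : A₁) (_ : Algebra (AdjoinRoot fA) K)
      (_ : IsFractionRing (AdjoinRoot fA) K), CharZero A₁ ∧ 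
      fA.map (mapRingHom (algebraMap A₁ F₁)) = f ∧ fA.Monic ∧ fA.natDegree = f.natDegree ∧
      algebraMap A₁ F₁ vA = v ∧ ∀ p, algebraMap (AdjoinRoot fA) K (AdjoinRoot.mk fA p) =
        eval₂ (eval₂RingHom ((algebraMap F₁ K).comp (algebraMap A₁ F₁)) x) θ p := by
  classical
  obtain ⟨S, hS⟩ := hFG
  set S' : Finset F₁ := S ∪ insert v ((Finset.range (f.natDegree + 1)).biUnion fun i =>
    (Finset.range ((f.coeff i).natDegree + 1)).image fun l => (f.coeff i).coeff l) with hS'
  have hS'c : Subfield.closure (S' : Set F₁) = ⊤ := by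
    rw [eq_top_iff, ← hS]
    refine Subfield.closure_mono ?_
    rw [hS', Finset.coe_union]
    exact Set.subset_union_left
  obtain ⟨hft, hfrac⟩ := closure_spec S' hS'c
  set A₁ := Algebra.adjoin ℤ (S' : Set F₁) with hA₁
  have hv : v ∈ A₁ := Algebra.subset_adjoin (by
    rw [hS', Finset.coe_union]
    right
    exact Finset.mem_insert_self _ _)
  have hlift : f ∈ lifts (mapRingHom (algebraMap A₁ F₁)) := by
    rw [lifts_iff_coeff_lifts]
    intro i
    show f.coeff i ∈ Set.range (mapRingHom (algebraMap A₁ F₁))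
    have h1 : f.coeff i ∈ lifts (algebraMap A₁ F₁) := by
      rw [lifts_iff_coeff_lifts]
      intro l
      by_cases hi : i ≤ f.natDegree
      · by_cases hl : l ≤ (f.coeff i).natDegree
        · refine ⟨⟨(f.coeff i).coeff l, Algebra.subset_adjoin ?_⟩, rfl⟩
          rw [hS', Finset.coe_union]
          right
          rw [Finset.mem_coe, Finset.mem_insert]
          right
          rw [Finset.mem_biUnion]
          exact ⟨i, Finset.mem_range.2 (by omega), Finset.mem_image.2
            ⟨l, Finset.mem_range.2 (by omega), rfl⟩⟩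
        · refine ⟨0, ?_⟩
          rw [map_zero, coeff_eq_zero_of_natDegree_lt (by omega)]
      · refine ⟨0, ?_⟩
        rw [map_zero, coeff_eq_zero_of_natDegree_lt (p := f) (by omega), coeff_zero]
    obtain ⟨p, hp⟩ := (lifts_iff_set_range _).1 h1
    exact ⟨p, hp⟩
  obtain ⟨fA, hfA, hfAd, hfAm⟩ := lifts_and_natDegree_eq_and_monic hlift hfm
  have hcA : CharZero A₁ := charZero_of_injective_algebraMap (R := ℤ) (A := A₁) (by
    intro a b hab
    have h2 : (algebraMap A₁ F₁).comp (algebraMap ℤ A₁) = algebraMap ℤ F₁ := RingHom.ext_int _ _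
    apply FaithfulSMul.algebraMap_injective ℤ F₁
    rw [← h2, RingHom.comp_apply, RingHom.comp_apply, hab])
  -- the embedding
  set ι : A₁ →+* K := (algebraMap F₁ K).comp (algebraMap A₁ F₁) with hι
  have hmap : ∀ p : A₁[X][X], eval₂ (eval₂RingHom ι x) θ p =
      eval₂ (eval₂RingHom (algebraMap F₁ K) x) θ (p.map (mapRingHom (algebraMap A₁ F₁))) := by
    intro p
    rw [eval₂_map]
    congr 1
    apply Polynomial.ringHom_ext
    · intro c
      rw [coe_eval₂RingHom, eval₂_C, hι, RingHom.comp_apply, RingHom.comp_apply (eval₂RingHom _ _),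
        coe_mapRingHom, Polynomial.map_C, coe_eval₂RingHom, eval₂_C]
    · rw [coe_eval₂RingHom, eval₂_X, RingHom.comp_apply, coe_mapRingHom, Polynomial.map_X,
        coe_eval₂RingHom, eval₂_X]
  have hroot : eval₂ (eval₂RingHom ι x) θ fA = 0 := by
    rw [hmap, hker, hfA]
  let ia : Algebra (AdjoinRoot fA) K := (AdjoinRoot.lift (eval₂RingHom ι x) θ hroot).toAlgebra
  have halg : ∀ p, algebraMap (AdjoinRoot fA) K (AdjoinRoot.mk fA p) =
      eval₂ (eval₂RingHom ι x) θ p := fun p => AdjoinRoot.lift_mk hroot p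
  have hinjB : Function.Injective (algebraMap (AdjoinRoot fA) K) := by
    rw [injective_iff_map_eq_zero]
    intro b hb
    obtain ⟨p, rfl⟩ := AdjoinRoot.mk_surjective b
    rw [halg, hmap, hker, ← hfA] at hb
    rw [AdjoinRoot.mk_eq_zero]
    exact (Polynomial.map_dvd_map _
      (Polynomial.map_injective _ (IsFractionRing.injective A₁ F₁)) hfAm).1 hb
  have hfracB : IsFractionRing (AdjoinRoot fA) K := by
    refine frac_of_closure hinjB ?_
    set Cf := Subfield.closure (Set.range (algebraMap (AdjoinRoot fA) K)) with hCf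
    have hxC : x ∈ Cf := Subfield.subset_closure ⟨AdjoinRoot.mk fA (C X), by
      rw [halg, eval₂_C, coe_eval₂RingHom, eval₂_X]⟩
    have hθC : θ ∈ Cf := Subfield.subset_closure ⟨AdjoinRoot.mk fA X, by
      rw [halg, eval₂_X]⟩
    have hAC : ∀ a : A₁, ι a ∈ Cf := fun a => Subfield.subset_closure ⟨AdjoinRoot.mk fA (C (C a)), by
      rw [halg, eval₂_C, coe_eval₂RingHom, eval₂_C]⟩
    have hF₁C : ∀ z : F₁, (algebraMap F₁ K z) ∈ Cf := by
      intro z
      obtain ⟨a, b, -, rfl⟩ := IsFractionRing.div_surjective (A := A₁) z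
      rw [map_div₀]
      exact div_mem (hAC a) (hAC b)
    rw [eq_top_iff]
    intro z _
    have hz : z ∈ IntermediateField.adjoin F {x, θ} := by
      rw [hgen]
      trivial
    induction hz using IntermediateField.adjoin_induction with
    | mem z hz =>
      rcases hz with rfl | hz
      · exact hxC
      · rw [Set.mem_singleton_iff] at hz
        rw [hz]
        exact hθC
    | algebraMap q => exact hF₁C (algebraMap F F₁ q)
    | add x y _ _ h1 h2 => exact add_mem (h1 trivial) (h2 trivial)
    | inv x _ h1 => exact inv_mem (h1 trivial)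
    | mul x y _ _ h1 h2 => exact mul_mem (h1 trivial) (h2 trivial)
  exact ⟨A₁, hft, hfrac, fA, ⟨v, hv⟩, ia, hfracB, hcA, hfA, hfAm, hfAd, rfl, halg⟩

section
variable {K : Type} [Field K] [CharZero K]

/-- adding an algebraic element to the base field -/
theorem alg_down {T : Set K} {u : K} (hu : IsAlgebraic (IntermediateField.adjoin ℚ T) u) {z : K}
    (hz : IsAlgebraic (IntermediateField.adjoin ℚ (insert u T)) z) :
    IsAlgebraic (IntermediateField.adjoin ℚ T) z := by
  set F := IntermediateField.adjoin ℚ T with hF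
  set F' := IntermediateField.adjoin ℚ (insert u T) with hF'
  set N := algebraicClosure F K with hN
  have hle : F' ≤ N.restrictScalars ℚ := by
    rw [hF', IntermediateField.adjoin_le_iff]
    intro t ht
    rcases ht with rfl | ht
    · exact mem_algebraicClosure_iff.2 hu
    · have h1 : t ∈ F := IntermediateField.subset_adjoin ℚ _ ht
      exact N.algebraMap_mem ⟨t, h1⟩
  let _ : Algebra F' N := ((algebraMap F' K).codRestrict N.toSubring fun z => hle z.2).toAlgebra
  have _ : IsScalarTower F' N K := IsScalarTower.of_algebraMap_eq fun z => rfl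
  have h1 : IsAlgebraic N z := hz.tower_top N
  have _ : Algebra.IsAlgebraic F N := inferInstance
  exact h1.restrictScalars F

theorem alg_up {F F' : IntermediateField ℚ K} (h : F ≤ F') (x : K)
    [Algebra.IsAlgebraic (IntermediateField.adjoin F {x}) K] :
    Algebra.IsAlgebraic (IntermediateField.adjoin F' {x}) K := by
  set N1 := IntermediateField.adjoin F {x} with hN1
  set N2 := IntermediateField.adjoin F' {x} with hN2
  have hle : ∀ z ∈ N1, z ∈ N2 := by
    intro z hz
    rw [hN1] at hz
    induction hz using IntermediateField.adjoin_induction with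
    | mem z hz => exact IntermediateField.subset_adjoin F' _ hz
    | algebraMap q => exact N2.algebraMap_mem ⟨q.1, h q.2⟩
    | add x y _ _ h1 h2 => exact add_mem h1 h2
    | inv x _ h1 => exact inv_mem h1
    | mul x y _ _ h1 h2 => exact mul_mem h1 h2
  let _ : Algebra N1 N2 := ((algebraMap N1 K).codRestrict N2.toSubring fun z => hle z.1 z.2).toAlgebra
  have _ : IsScalarTower N1 N2 K := IsScalarTower.of_algebraMap_eq fun z => rfl
  exact Algebra.IsAlgebraic.tower_top (K := N1) N2

end

lemma fin_alg {K : Type} [Field K] (u a g w : K) (hw : w ≠ 0) :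
    u * (a * g) = u * a * w * (g * w⁻¹) := by
  field_simp

/-- the alternative -/
def Alt (K : Type) [Field K] [CharZero K] (d : ℕ) (h : K) (M : ℕ) : Prop :=
  (∃ u κ : K, IsAlgebraic ℚ u ∧ u ≠ 0 ∧ h = u * κ ^ M) ∨
    ∀ (A : Type) [CommRing A] [IsDomain A] [Algebra.FiniteType ℤ A] [Algebra A K]
      [IsFractionRing A K] (f : A) (w : K), w ≠ 0 → algebraMap A K f = h * w ^ M → TB A d f M

theorem tw_succ {d : ℕ} (ih : ∀ (K : Type) [Field K] [CharZero K], FG K → Algebra.trdeg ℚ K = d →
      ∀ h : K, h ≠ 0 → ∀ M : ℕ, 0 < M → Alt K d h M)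
    {K : Type} [Field K] [CharZero K] (hK : FG K) (htr : Algebra.trdeg ℚ K = (d + 1 : ℕ)) {h : K}
    (hh : h ≠ 0) {M : ℕ} (hM : 0 < M) : Alt K (d + 1) h M := by
  classical
  obtain ⟨T, x, hx, hal⟩ := exists_sub htr
  -- the maximal divisor
  obtain ⟨e, M', u, κ, hMe, hu, hu0, hhu, hmax⟩ : ∃ (e M' : ℕ) (u κ : K), M = M' * e ∧
      IsAlgebraic (IntermediateField.adjoin ℚ (T : Set K)) u ∧ u ≠ 0 ∧ h = u * κ ^ e ∧
      ∀ d' : ℕ, 1 < d' → d' ∣ M' → ¬ ∃ u' κ' : K,
        IsAlgebraic (IntermediateField.adjoin ℚ (T : Set K)) u' ∧ u' ≠ 0 ∧ κ = u' * κ' ^ d' := by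
    set P : ℕ → Prop := fun e => e ∣ M ∧ ∃ u κ : K,
      IsAlgebraic (IntermediateField.adjoin ℚ (T : Set K)) u ∧ u ≠ 0 ∧ h = u * κ ^ e with hP
    have h1 : P 1 := ⟨one_dvd _, 1, h, isAlgebraic_one, one_ne_zero, by rw [pow_one, one_mul]⟩
    obtain ⟨⟨M', hM'⟩, u, κ, hu, hu0, hhu⟩ := Nat.findGreatest_spec (P := P) (n := M) hM h1
    have hgr := fun k => Nat.findGreatest_is_greatest (P := P) (n := M) (k := k)
    set e := Nat.findGreatest P M with he
    refine ⟨e, M', u, κ, by rw [mul_comm]; exact hM', hu, hu0, hhu, ?_⟩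
    rintro d' hd' ⟨c, hc⟩ ⟨u', κ', hu', hu'0, hκ⟩
    have he0 : 0 < e := Nat.pos_of_ne_zero fun h0 => by
      rw [h0, zero_mul] at hM'
      omega
    have hdvd : e * d' ∣ M := ⟨c, by rw [hM', hc]; ring⟩
    refine hgr (e * d') ?_ (Nat.le_of_dvd hM hdvd) ⟨hdvd, u * u' ^ e, κ', hu.mul (hu'.pow e),
      mul_ne_zero hu0 (pow_ne_zero _ hu'0), ?_⟩
    · calc e = e * 1 := (mul_one e).symm
        _ < e * d' := Nat.mul_lt_mul_of_pos_left hd' he0
    · rw [hhu, hκ, mul_pow, ← pow_mul, mul_assoc, mul_comm d' e]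
  have he0 : e ≠ 0 := by
    rintro rfl
    omega
  have hM'0 : 0 < M' := Nat.pos_of_ne_zero (by
    rintro rfl
    omega)
  have hκ0 : κ ≠ 0 := by
    rintro rfl
    rw [zero_pow he0, mul_zero] at hhu
    exact hh hhu
  -- the base field
  obtain ⟨F, hF⟩ : ∃ F, F = IntermediateField.adjoin ℚ ((insert u T : Finset K) : Set K) := ⟨_, rfl⟩
  have hF2 : F = IntermediateField.adjoin ℚ (insert u (T : Set K)) := by
    rw [hF, Finset.coe_insert]
  have hFle : IntermediateField.adjoin ℚ (T : Set K) ≤ F := by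
    rw [hF2]
    exact IntermediateField.adjoin.mono _ _ _ (Set.subset_insert _ _)
  have huF : u ∈ F := by
    rw [hF2]
    exact IntermediateField.subset_adjoin ℚ _ (Set.mem_insert _ _)
  have hdown : ∀ z : K, IsAlgebraic F z → IsAlgebraic (IntermediateField.adjoin ℚ (T : Set K)) z := by
    intro z hz
    rw [hF2] at hz
    exact alg_down hu hz
  have hxF : Transcendental F x := fun h1 => hx (hdown x h1)
  have halF : Algebra.IsAlgebraic (IntermediateField.adjoin F {x}) K := alg_up hFle x
  have hfin : FiniteDimensional (IntermediateField.adjoin F {x}) K := finite_of_fg hK _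
  obtain ⟨F₁, hF₁, θ, γ, f, Om, iOm, hOm, aOm, hγ, hθ, hfm, hf0, hfirr, hfirr2, hker, hgen⟩ :=
    structure_two x hxF hκ0 hM'0 (fun d' hd' hdvd ⟨u', κ', h1, h2, h3⟩ =>
      hmax d' hd' hdvd ⟨u', κ', hdown u' h1, h2, h3⟩)
  have hc1 : CharZero F₁ := charZero_of_injective_algebraMap (algebraMap F F₁).injective
  have hFG : FG F₁ := fg_sub _ F hF F₁
  -- the transcendence degree
  have hx1 : Transcendental F₁ x := fun h1 => hxF (h1.restrictScalars F)
  have hal1 : Algebra.IsAlgebraic (IntermediateField.adjoin F₁ {x}) K := by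
    set N1 := IntermediateField.adjoin F {x} with hN1
    set N2 := IntermediateField.adjoin F₁ {x} with hN2
    have hle : N1 ≤ N2.restrictScalars F := by
      rw [hN1, IntermediateField.adjoin_le_iff]
      exact IntermediateField.subset_adjoin F₁ {x}
    let _ : Algebra N1 N2 := ((algebraMap N1 K).codRestrict N2.toSubring fun z => hle z.2).toAlgebra
    have _ : IsScalarTower N1 N2 K := IsScalarTower.of_algebraMap_eq fun z => rfl
    exact Algebra.IsAlgebraic.tower_top (K := N1) N2
  have htr1 : Algebra.trdeg ℚ F₁ = d := by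
    have h1 := trdeg_add_eq ℚ F₁ (A := K)
    rw [trdeg_one x hx1, htr, Nat.cast_add, Nat.cast_one] at h1
    exact Cardinal.add_one_inj.1 h1
  obtain ⟨L, iL, nL, hL⟩ := landau d F₁ hFG htr1
  set v : F₁ := algebraMap F F₁ ⟨u, huF⟩ with hv
  have hvK : algebraMap F₁ K v = u := rfl
  obtain ⟨A₁, hft, hfrac, fA, vA, ia, hfracB, hcA, hfA, hfAm, hfAd, hvA, halg⟩ :=
    model_exists F₁ hFG x θ f hfm v hker hgen
  have hirrA : Irreducible (fA.map (mapRingHom ((algebraMap F₁ Om).comp (algebraMap A₁ F₁)))) := by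
    have h1 : fA.map (mapRingHom ((algebraMap F₁ Om).comp (algebraMap A₁ F₁))) =
        f.map (mapRingHom (algebraMap F₁ Om)) := by
      rw [← hfA, Polynomial.map_map, mapRingHom_comp]
    rw [h1]
    exact hfirr
  have hirrA2 : Irreducible ((expand A₁[X] M' fA).map
      (mapRingHom ((algebraMap F₁ Om).comp (algebraMap A₁ F₁)))) := by
    have h1 : (expand A₁[X] M' fA).map (mapRingHom ((algebraMap F₁ Om).comp (algebraMap A₁ F₁))) =
        (expand F₁[X] M' f).map (mapRingHom (algebraMap F₁ Om)) := by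
      rw [map_expand, map_expand, ← hfA, Polynomial.map_map, mapRingHom_comp]
    rw [h1]
    exact hfirr2
  have hιO : Function.Injective ((algebraMap F₁ Om).comp (algebraMap A₁ F₁)) :=
    (algebraMap F₁ Om).injective.comp (IsFractionRing.injective A₁ F₁)
  have hdomB : IsDomain (AdjoinRoot fA) := adj_domain hιO hfAm hirrA
  have hftB : Algebra.FiniteType ℤ (AdjoinRoot fA) := inferInstance
  have hftB' := ft_int _ hftB
  have hθ0 : θ ≠ 0 := by
    rw [hθ]
    exact mul_ne_zero hκ0 (pow_ne_zero _ hγ)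
  rcases eq_or_ne M' 1 with hM1 | hM1
  · -- a constant times a power
    rw [hM1, one_mul] at hMe
    rw [← hMe] at hhu
    have hv0 : v ≠ 0 := by
      intro h0
      rw [h0, map_zero] at hvK
      exact hu0 hvK.symm
    rcases ih F₁ hFG htr1 v hv0 M hM with ⟨u₀, κ₀, h1, h2, h3⟩ | hTB
    · left
      refine ⟨algebraMap F₁ K u₀, algebraMap F₁ K κ₀ * κ, ?_, ?_, ?_⟩
      · exact h1.algebraMap
      · exact (_root_.map_ne_zero _).2 h2
      · rw [hhu, ← hvK, h3, map_mul, map_pow, mul_pow]
        ring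
    · right
      intro A _ _ _ _ _ g w hw hg
      have h1 := hTB A₁ vA 1 one_ne_zero (by rw [hvA, one_pow, mul_one])
      have h2 := step_tw2 (k₀ := F₁) (kb := Om) (hL A₁) hfAm (by rw [hfAd]; exact hf0) hirrA vA h1
      refine tb_transfer (A := AdjoinRoot fA) (B := A) (M := K) hM.ne' (w := (κ * w)⁻¹)
        (inv_ne_zero (mul_ne_zero hκ0 hw)) ?_ h2
      rw [halg, eval₂_C, coe_eval₂RingHom, eval₂_C, RingHom.comp_apply, hvA, hvK, hg, hhu, inv_pow,
        mul_pow]
      field_simp
  · right
    intro A _ _ _ _ _ g w hw hg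
    have hc0 : fA.coeff 0 ≠ 0 := by
      intro h0
      have h1 : f.coeff 0 = 0 := by
        rw [← hfA, coeff_map, h0, map_zero]
      obtain ⟨f', hf'⟩ := X_dvd_iff.2 h1
      have h2 := (hker f).2 dvd_rfl
      rw [hf', eval₂_mul, eval₂_X] at h2
      have h3 := (hker f').1 ((mul_eq_zero.1 h2).resolve_left hθ0)
      obtain ⟨g', hg'⟩ := h3
      have hf'0 : f' ≠ 0 := by
        rintro rfl
        rw [mul_zero] at hf'
        exact hfm.ne_zero hf'
      have h4 : f' * 1 = f' * (X * g') := by
        conv_lhs => rw [mul_one, hg', hf']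
        ring
      have h5 := mul_left_cancel₀ hf'0 h4
      exact not_isUnit_X (IsUnit.of_mul_eq_one _ h5.symm)
    have h2 := step_tw1 (k₀ := F₁) (kb := Om) (hL A₁) hfAm (by rw [hfAd]; exact hf0) (M' := M')
      (e := e) (by omega) he0 hirrA hirrA2 hc0 vA
    rw [← hMe] at h2
    refine tb_transfer (A := AdjoinRoot fA) (B := A) (M := K) hM.ne' (w := γ * w⁻¹)
      (mul_ne_zero hγ (inv_ne_zero hw)) ?_ h2
    have hwM : w ^ M ≠ 0 := pow_ne_zero _ hw
    rw [halg, eval₂_mul, eval₂_C, eval₂_pow, eval₂_X, coe_eval₂RingHom, eval₂_C,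
      RingHom.comp_apply, hvA, hvK, hg, hhu, hθ, mul_pow, mul_pow, ← pow_mul, ← hMe, inv_pow]
    exact fin_alg _ _ _ _ hwM

/-- **Multiplicative character sums over schemes of finite type over the integers**: let `K` be a
finitely generated field of characteristic zero and transcendence degree `d`, `h` a nonzero element of
`K` and `M` positive. Then either `h` is the product of an algebraic number and an `M`-th power, or for
every model `A` of `K` and every `f ∈ A` equal to `h` up to `M`-th powers, the sum of the values `χ(f)`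
of a character of order `M` over the points with values in the field with `q` elements is
`O(q ^ (d - 1/2))`. -/
theorem tw_landau : ∀ (d : ℕ) (K : Type) [Field K] [CharZero K], FG K → Algebra.trdeg ℚ K = d →
    ∀ h : K, h ≠ 0 → ∀ M : ℕ, 0 < M → Alt K d h M := by
  intro d
  induction d with
  | zero =>
    intro K _ _ hK htr h hh M hM
    left
    have h1 : Algebra.IsAlgebraic ℚ K := trdeg_eq_zero_iff.1 (by simpa using htr)
    exact ⟨h, 1, h1.isAlgebraic h, hh, by rw [one_pow, mul_one]⟩
  | succ d ih =>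
    intro K _ _ hK htr h hh M hM
    exact tw_succ ih hK htr hh hM

end Pool.Agent.L0h11
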