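import Mathlib
import Pool.Agent.L0h11.Tg
import Pool.Agent.R410.BS.Cod2

/-!
# Points of schemes of finite type over the integers: function fields of geometrically integral varieties
over `ℚ`
-/

set_option autoImplicit false
set_option linter.all false

open Polynomial NumberField

namespace Pool.Agent.L0h11

open Pool.Agent.R410.LW (Landau FG landau exists_sub finite_of_fg fg_sub trdeg_one closure_spec
  frac_of_closure adj_domain ft_int structure_one step transfer landau_zero)
open Pool.Agent.R410.BS (good_le hom_le)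
open Pool.Agent.R410

/-- the algebraic closure of `ℚ` in `K` is `ℚ` -/
def Reg (K : Type) [Field K] [CharZero K] : Prop := ∀ z : K, IsAlgebraic ℚ z → ∃ q : ℚ, (q : K) = z

theorem landau_reg : ∀ (d : ℕ) (K : Type) [Field K] [CharZero K], FG K → Algebra.trdeg ℚ K = d →
    Reg K → ∀ (A : Type) [CommRing A] [IsDomain A] [Algebra.FiniteType ℤ A] [Algebra A K]
      [IsFractionRing A K], Landau A d ℚ := by
  classical
  intro d
  induction d with
  | zero =>
    intro K _ _ hK htr hreg A _ _ _ _ _
    have h1 : Algebra.IsAlgebraic ℚ K := trdeg_eq_zero_iff.1 (by simpa using htr)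
    let _ : Algebra (𝓞 ℚ) K := ((algebraMap ℚ K).comp (algebraMap (𝓞 ℚ) ℚ)).toAlgebra
    have hfr : IsFractionRing (𝓞 ℚ) K := by
      have hbij : Function.Bijective (algebraMap ℚ K) :=
        ⟨(algebraMap ℚ K).injective, fun z => hreg z (h1.isAlgebraic z)⟩
      let e : ℚ ≃ₐ[𝓞 ℚ] K := AlgEquiv.ofBijective
        { algebraMap ℚ K with
          commutes' := fun r => rfl } hbij
      exact IsLocalization.isLocalization_of_algEquiv (nonZeroDivisors (𝓞 ℚ)) e
    have h4 : Algebra.FiniteType ℤ (𝓞 ℚ) := inferInstance
    exact transfer (A := 𝓞 ℚ) (B := A) (M := K) (landau_zero ℚ)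
  | succ d ih =>
    intro K _ _ hK htr hreg A _ _ _ _ _
    obtain ⟨T, x, hx, hal⟩ := exists_sub htr
    obtain ⟨F, hF⟩ : ∃ F, F = IntermediateField.adjoin ℚ (T : Set K) := ⟨_, rfl⟩
    rw [← hF] at hx hal
    have hfin : FiniteDimensional (IntermediateField.adjoin F {x}) K := finite_of_fg hK _
    obtain ⟨F₁, hF₁, θ, f, Om, iOm, hOm, aOm, hfm, hf0, hfirr, hker, hgen⟩ := structure_one x hx
    have hc1 : CharZero F₁ := charZero_of_injective_algebraMap (algebraMap F F₁).injective
    have hFG : FG F₁ := fg_sub T F hF F₁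
    -- the transcendence degree
    have hx1 : Transcendental F₁ x := fun h1 => hx (h1.restrictScalars F)
    have hal1 : Algebra.IsAlgebraic (IntermediateField.adjoin F₁ {x}) K := by
      set N1 := IntermediateField.adjoin F {x} with hN1
      set N2 := IntermediateField.adjoin F₁ {x} with hN2
      have hle : N1 ≤ N2.restrictScalars F := by
        rw [hN1, IntermediateField.adjoin_le_iff]
        exact IntermediateField.subset_adjoin F₁ {x}
      let _ : Algebra N1 N2 := ((algebraMap N1 K).codRestrict N2.toSubring fun z => hle z.2).toAlgebra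
      have _ : IsScalarTower N1 N2 K := IsScalarTower.of_algebraMap_eq fun z => rfl
      exact Algebra.IsAlgebraic.tower_top (K := N1) N2
    have htr1 : Algebra.trdeg ℚ F₁ = d := by
      have h1 := trdeg_add_eq ℚ F₁ (A := K)
      rw [trdeg_one x hx1, htr, Nat.cast_add, Nat.cast_one] at h1
      exact Cardinal.add_one_inj.1 h1
    have hreg1 : Reg F₁ := by
      intro z hz
      obtain ⟨q, hq⟩ := hreg (algebraMap F₁ K z) hz.algebraMap
      refine ⟨q, (algebraMap F₁ K).injective ?_⟩
      rw [map_ratCast, hq]
    obtain ⟨A₁, hft, hfrac, fA, vA, ia, hfracB, hcA, hfA, hfAm, hfAd, hvA, halg⟩ :=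
      model_exists F₁ hFG x θ f hfm 1 hker hgen
    have hirrA : Irreducible (fA.map (mapRingHom ((algebraMap F₁ Om).comp (algebraMap A₁ F₁)))) := by
      have h1 : fA.map (mapRingHom ((algebraMap F₁ Om).comp (algebraMap A₁ F₁))) =
          f.map (mapRingHom (algebraMap F₁ Om)) := by
        rw [← hfA, Polynomial.map_map, mapRingHom_comp]
      rw [h1]
      exact hfirr
    have hιO : Function.Injective ((algebraMap F₁ Om).comp (algebraMap A₁ F₁)) :=
      (algebraMap F₁ Om).injective.comp (IsFractionRing.injective A₁ F₁)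
    have hdomB : IsDomain (AdjoinRoot fA) := adj_domain hιO hfAm hirrA
    have hftB : Algebra.FiniteType ℤ (AdjoinRoot fA) := inferInstance
    have hftB' := ft_int _ hftB
    have h2 := step (k₀ := F₁) (kb := Om) (ih F₁ hFG htr1 hreg1 A₁) hfAm (by rw [hfAd]; exact hf0)
      hirrA
    exact transfer (A := AdjoinRoot fA) (B := A) (M := K) h2

end Pool.Agent.L0h11
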