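import Mathlib
import Pool.Agent.L0h11.Trc

/-!
# The normalised Frobenius eigenvalues with coefficients in the finite field
-/

set_option autoImplicit false
set_option linter.unusedSectionVars false

namespace Pool.Agent.L0h11

open Finset

section

variable {F : Type} [Field F] [Fintype F] {M : ℕ} [NeZero M]

/-- the normalised Frobenius eigenvalue -/
noncomputable def lamF {w : F} (hw : IsPrimitiveRoot w M) (e : AddChar (ZMod M) ℂ)
    (ψ : AddChar F ℂ) {ι : Type} [Fintype ι] (c : ι → F) (b : ι → ZMod M) : ℂ :=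
  ∏ i, (GE hw e ψ (b i) * ch hw e (-(b i)) (c i))

lemma lam_eq_lamF {w : F} (hw : IsPrimitiveRoot w M) (e : AddChar (ZMod M) ℂ)
    (ψ : AddChar F ℂ) {ι : Type} [Fintype ι] (c : ι → ℤ) (b : ι → ZMod M) :
    lam hw e ψ c b = lamF hw e ψ (fun i => (c i : F)) b := rfl

lemma norm_lamF_le {w : F} (hw : IsPrimitiveRoot w M) {e : AddChar (ZMod M) ℂ}
    (he : ∀ i, e i = 1 → i = 0) {ψ : AddChar F ℂ} (hψ : ψ.IsPrimitive) {ι : Type} [Fintype ι]
    (c : ι → F) (b : ι → ZMod M) : ‖lamF hw e ψ c b‖ ≤ 1 := by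
  unfold lamF
  rw [_root_.norm_prod]
  apply prod_le_one (fun i _ => norm_nonneg _)
  intro i _
  rw [norm_mul, norm_GE hw he hψ, one_mul]
  exact norm_ch_le hw e _ _

/-- the product in terms of Gauss sums -/
lemma lamF_eq' {w : F} (hw : IsPrimitiveRoot w M) (e : AddChar (ZMod M) ℂ)
    (ψ : AddChar F ℂ) {ι : Type} [Fintype ι] (c : ι → F) (b : ι → ZMod M)
    (hb : ∀ i, b i ≠ 0) :
    ∏ i, (ch hw e (-(b i)) (c i) * gaussSum (ch hw e (b i)) ψ) =
      (-(Real.sqrt (Fintype.card F) : ℂ)) ^ (Fintype.card ι) * lamF hw e ψ c b := by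
  unfold lamF
  have h1 : ∀ i, ch hw e (-(b i)) (c i) * gaussSum (ch hw e (b i)) ψ =
      (-(Real.sqrt (Fintype.card F) : ℂ)) * (GE hw e ψ (b i) * ch hw e (-(b i)) (c i)) := by
    intro i
    unfold GE GG
    rw [if_neg (hb i)]
    have := sqrt_ne (F := F)
    field_simp
  rw [prod_congr rfl fun i _ => h1 i, prod_mul_distrib, prod_const, card_univ]

lemma lamF_eq {w : F} (hw : IsPrimitiveRoot w M) (e : AddChar (ZMod M) ℂ)
    (ψ : AddChar F ℂ) {ι : Type} [Fintype ι] (hN : Even (Fintype.card ι)) (c : ι → F)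
    (b : ι → ZMod M) (hb : ∀ i, b i ≠ 0) :
    ∏ i, (ch hw e (-(b i)) (c i) * gaussSum (ch hw e (b i)) ψ) =
      (Fintype.card F : ℂ) ^ (Fintype.card ι / 2) * lamF hw e ψ c b := by
  obtain ⟨n, hn⟩ := hN
  have hn2 : Fintype.card ι / 2 = n := by omega
  rw [lamF_eq' hw e ψ c b hb, hn2, hn, ← two_mul, pow_mul, neg_sq, pow_two, sqrt_mul]

/-- the generating character -/
noncomputable def chg {w : F} (hw : IsPrimitiveRoot w M) (e : AddChar (ZMod M) ℂ) : MulChar F ℂ :=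
  ch hw e (-1)

lemma chg_pow {w : F} (hw : IsPrimitiveRoot w M) (e : AddChar (ZMod M) ℂ) : chg hw e ^ M = 1 := by
  unfold chg
  rw [← ch_nsmul, ZMod.natCast_self, zero_mul, ch_zero]

lemma chg_ord {w : F} (hw : IsPrimitiveRoot w M) {e : AddChar (ZMod M) ℂ}
    (he : ∀ i, e i = 1 → i = 0) (j : ℕ) (h : chg hw e ^ j = 1) : M ∣ j := by
  unfold chg at h
  rw [← ch_nsmul, ch_eq_one_iff hw e he, mul_neg_one, neg_eq_zero] at h
  exact (ZMod.natCast_eq_zero_iff _ _).1 h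

lemma ch_val {w : F} (hw : IsPrimitiveRoot w M) (e : AddChar (ZMod M) ℂ) {a : ZMod M} (ha : a ≠ 0)
    (y : F) : ch hw e (-a) y = (chg hw e y) ^ a.val := by
  have h1 : a.val ≠ 0 := fun h => ha ((ZMod.val_eq_zero a).1 h)
  unfold chg
  rw [← MulChar.pow_apply' _ h1, ← ch_nsmul, ZMod.natCast_zmod_val, mul_neg_one]

/-- the product of the normalised Gauss sums -/
noncomputable def GP {w : F} (hw : IsPrimitiveRoot w M) (e : AddChar (ZMod M) ℂ)
    (ψ : AddChar F ℂ) {ι : Type} [Fintype ι] (b : ι → ZMod M) : ℂ := ∏ i, GE hw e ψ (b i)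

lemma norm_GP {w : F} (hw : IsPrimitiveRoot w M) {e : AddChar (ZMod M) ℂ}
    (he : ∀ i, e i = 1 → i = 0) {ψ : AddChar F ℂ} (hψ : ψ.IsPrimitive) {ι : Type} [Fintype ι]
    (b : ι → ZMod M) : ‖GP hw e ψ b‖ = 1 := by
  unfold GP
  rw [_root_.norm_prod]
  exact prod_eq_one fun i _ => norm_GE hw he hψ (b i)

lemma lamF_prod {w : F} (hw : IsPrimitiveRoot w M) (e : AddChar (ZMod M) ℂ)
    (ψ : AddChar F ℂ) {ι : Type} [Fintype ι] (c : ι → F) {b : ι → ZMod M} (hb : ∀ i, b i ≠ 0) :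
    lamF hw e ψ c b = GP hw e ψ b * chg hw e (∏ i, c i ^ (b i).val) := by
  unfold lamF GP
  rw [prod_mul_distrib, map_prod]
  congr 1
  refine prod_congr rfl fun i _ => ?_
  rw [ch_val hw e (hb i), map_pow]

end

end Pool.Agent.L0h11
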