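import Mathlib
import Pool.Agent.L0h11.Ga
import Pool.Agent.L0h11.Vf

/-!
# Sums over the points of schemes of finite type over the integers
-/

set_option autoImplicit false
set_option linter.all false

open Polynomial NumberField

namespace Pool.Agent.L0h11

open Pool.Agent.R410.LW (Landau FG)
open Pool.Agent.R410.BS (good_le hom_le)

/-- finitely generated fields -/
theorem fg_of_ft (R K : Type) [CommRing R] [IsDomain R] [h : Algebra.FiniteType ℤ R] [Field K]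
    [Algebra R K] [IsFractionRing R K] : FG K := by
  classical
  obtain ⟨S, hS⟩ := h.out
  refine ⟨S.image (algebraMap R K), ?_⟩
  set Cf := Subfield.closure ((S.image (algebraMap R K) : Finset K) : Set K) with hCf
  have h1 : ∀ r : R, algebraMap R K r ∈ Cf := by
    intro r
    have hr : r ∈ Algebra.adjoin ℤ (S : Set R) := by
      rw [hS]
      trivial
    induction hr using Algebra.adjoin_induction with
    | mem x hx =>
      exact Subfield.subset_closure (by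
        rw [Finset.coe_image]
        exact ⟨x, hx, rfl⟩)
    | algebraMap z =>
      have h2 : algebraMap R K (algebraMap ℤ R z) = (z : K) := by
        rw [eq_intCast, map_intCast]
      rw [h2]
      exact intCast_mem Cf z
    | add x y _ _ hx hy => rw [map_add]; exact add_mem hx hy
    | mul x y _ _ hx hy => rw [map_mul]; exact mul_mem hx hy
  rw [eq_top_iff]
  intro z _
  obtain ⟨a, b, -, rfl⟩ := IsFractionRing.div_surjective (A := R) z
  exact div_mem (h1 a) (h1 b)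

section
variable {R : Type} [CommRing R] [IsDomain R] [CharZero R]

/-- `f` is the product of a constant and a power, up to the denominators -/
def CstP (M : ℕ) (f : R) : Prop :=
  ∃ u : ℤ, u ≠ 0 ∧ ∃ g h : R, g ≠ 0 ∧ h ≠ 0 ∧ f * h ^ M = (u : R) * g ^ M

/-- the sum over the points -/
def SumB (n M : ℕ) (f : R) : Prop :=
  ∀ N₁ : R, N₁ ≠ 0 → ∃ (C : ℝ) (N : ℕ), 0 ≤ C ∧ N ≠ 0 ∧
    ∀ (k : Type) [Field k] [Finite k], ((N : ℕ) : k) ≠ 0 → ∀ χ : MulChar k ℂ, orderOf χ = M →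
      ‖∑ᶠ φ : {φ : R →+* k // φ N₁ ≠ 0}, χ (φ.1 f)‖ * √(Nat.card k : ℝ) ≤ C * (Nat.card k : ℝ) ^ n

lemma cst_of_field {K : Type} [Field K] [Algebra R K] [IsFractionRing R K] {M : ℕ} (hM : 0 < M)
    {f : R} {q : ℚ} (hq : (q : K) ≠ 0) {κ : K} (hκ : κ ≠ 0)
    (h : algebraMap R K f = (q : K) * κ ^ M) : CstP M f := by
  have hK0 : CharZero K := charZero_of_injective_algebraMap (IsFractionRing.injective R K)
  obtain ⟨g, b, hb, rfl⟩ := IsFractionRing.div_surjective (A := R) κ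
  have hb0 : b ≠ 0 := nonZeroDivisors.ne_zero hb
  have hbK : algebraMap R K b ≠ 0 := (map_ne_zero_iff _ (IsFractionRing.injective R K)).2 hb0
  have hg0 : g ≠ 0 := by
    rintro rfl
    rw [map_zero, zero_div] at hκ
    exact hκ rfl
  have hq0 : q ≠ 0 := fun h0 => hq (by rw [h0, Rat.cast_zero])
  have hd0 : (q.den : R) ≠ 0 := Nat.cast_ne_zero.2 q.den_nz
  have hdK : (q.den : K) ≠ 0 := Nat.cast_ne_zero.2 q.den_nz
  refine ⟨q.num * (q.den : ℤ) ^ (M - 1), mul_ne_zero (Rat.num_ne_zero.2 hq0)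
    (pow_ne_zero _ (by exact_mod_cast q.den_nz)), g, b * q.den, hg0, mul_ne_zero hb0 hd0, ?_⟩
  apply IsFractionRing.injective R K
  have h1 : (q : K) = (q.num : K) / (q.den : K) := by
    conv_lhs => rw [← Rat.num_div_den q]
    push_cast
    rfl
  have h2 : (q.den : K) ^ M = (q.den : K) ^ (M - 1) * (q.den : K) := by
    rw [← pow_succ, Nat.sub_add_cancel hM]
  rw [map_mul, map_pow, map_mul, map_mul, map_pow, h, h1]
  push_cast
  simp only [map_mul, map_pow, map_intCast, map_natCast]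
  rw [div_pow, mul_pow, h2]
  field_simp

end

section
variable {R : Type} [CommRing R] [IsDomain R] [CharZero R] [hft : Algebra.FiniteType ℤ R] {n : ℕ}

instance charZero_frac : CharZero (FractionRing R) :=
  charZero_of_injective_algebraMap (IsFractionRing.injective R (FractionRing R))

theorem zeros_R (htr : Algebra.trdeg ℚ (FractionRing R) = n) {u : R} (hu : u ≠ 0) :
    ∃ (C : ℝ) (N : ℕ), 0 ≤ C ∧ N ≠ 0 ∧ ∀ (k : Type) [Field k] [Finite k], ((N : ℕ) : k) ≠ 0 →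
      (Nat.card {φ : R →+* k // φ u = 0} : ℝ) * Nat.card k ≤ C * (Nat.card k : ℝ) ^ n := by
  obtain ⟨C, N, hC, hN, h⟩ := good_le (R := R) (K := FractionRing R)
    (IsFractionRing.injective R (FractionRing R)) htr.le hu
  exact ⟨C, N, hC, hN, fun k _ _ hk => (h k hk).2⟩

theorem hom_R (htr : Algebra.trdeg ℚ (FractionRing R) = n) :
    ∃ C : ℝ, 0 ≤ C ∧ ∀ (k : Type) [Field k] [Finite k],
      (Nat.card (R →+* k) : ℝ) ≤ C * (Nat.card k : ℝ) ^ n :=
  hom_le (R := R) (K := FractionRing R) (IsFractionRing.injective R (FractionRing R)) htr.le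

lemma sqrt_le_self' {k : Type} [Finite k] [Nonempty k] : √(Nat.card k : ℝ) ≤ Nat.card k := by
  have hq1 : (1 : ℝ) ≤ Nat.card k := by exact_mod_cast Nat.card_pos
  rw [Real.sqrt_le_left (by linarith)]
  nlinarith

open Classical in
/-- passing from an open subset to a smaller one -/
lemma shrink {k : Type} [Field k] [Finite k] (s u : R) (g : (R →+* k) → ℂ)
    (hg : ∀ φ, ‖g φ‖ ≤ 1) : ‖∑ᶠ φ : {φ : R →+* k // φ u ≠ 0}, g φ.1 -
      ∑ᶠ φ : {φ : R →+* k // φ (s * u) ≠ 0}, g φ.1‖ ≤ Nat.card {φ : R →+* k // φ (s * u) = 0} := by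
  have hfin : Finite (R →+* k) := inferInstance
  let _ : Fintype (R →+* k) := Fintype.ofFinite _
  rw [fin_sum (fun φ : R →+* k => φ u ≠ 0) g, fin_sum (fun φ : R →+* k => φ (s * u) ≠ 0) g,
    card_filter']
  have hsub : (Finset.univ.filter fun φ : R →+* k => φ (s * u) ≠ 0) ⊆
      Finset.univ.filter fun φ : R →+* k => φ u ≠ 0 := by
    intro φ hφ
    rw [Finset.mem_filter] at hφ ⊢
    refine ⟨hφ.1, fun h => hφ.2 ?_⟩
    rw [map_mul, h, mul_zero]
  rw [← Finset.sum_sdiff hsub, add_sub_cancel_right]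
  refine (norm_sum_le _ _).trans ((Finset.sum_le_card_nsmul _ _ 1 fun φ _ => hg φ).trans ?_)
  rw [nsmul_eq_mul, mul_one]
  have h2 : (Finset.univ.filter fun φ : R →+* k => φ u ≠ 0) \
      (Finset.univ.filter fun φ : R →+* k => φ (s * u) ≠ 0) ⊆
      Finset.univ.filter fun φ : R →+* k => φ (s * u) = 0 := by
    intro φ hφ
    rw [Finset.mem_sdiff, Finset.mem_filter, Finset.mem_filter] at hφ
    rw [Finset.mem_filter]
    refine ⟨Finset.mem_univ _, ?_⟩
    by_contra h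
    exact hφ.2 ⟨Finset.mem_univ _, h⟩
  exact_mod_cast Finset.card_le_card h2

lemma fin_one {k : Type} [Field k] [Finite k] (u : R) :
    ∑ᶠ φ : {φ : R →+* k // φ u ≠ 0}, (fun _ : R →+* k => (1 : ℂ)) φ.1 =
      (Nat.card {φ : R →+* k // φ u ≠ 0} : ℂ) := by
  classical
  have hfin : Finite (R →+* k) := inferInstance
  let _ : Fintype (R →+* k) := Fintype.ofFinite _
  rw [fin_sum (fun φ : R →+* k => φ u ≠ 0) (fun _ => 1), card_filter', Finset.sum_const,
    nsmul_eq_mul, mul_one]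

theorem pts_R (htr : Algebra.trdeg ℚ (FractionRing R) = n) (hreg : Reg (FractionRing R)) {u : R}
    (hu : u ≠ 0) : ∃ (C : ℝ) (N : ℕ), 0 ≤ C ∧ N ≠ 0 ∧
      ∀ (k : Type) [Field k] [Finite k], ((N : ℕ) : k) ≠ 0 →
        ‖(Nat.card {φ : R →+* k // φ u ≠ 0} : ℂ) - (Nat.card k : ℂ) ^ n‖ * √(Nat.card k : ℝ) ≤
          C * (Nat.card k : ℝ) ^ n := by
  obtain ⟨s, hs, hA⟩ := landau_reg n (FractionRing R) (fg_of_ft R _) htr hreg R
  obtain ⟨C, N, hC, hN, g⟩ := hA (s * u) (mul_ne_zero hs hu) (dvd_mul_right _ _)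
  obtain ⟨C', N', hC', hN', g'⟩ := zeros_R htr (mul_ne_zero hs hu)
  refine ⟨C + C', N * N', by positivity, mul_ne_zero hN hN', ?_⟩
  intro k _ _ hk
  rw [Nat.cast_mul] at hk
  have h1 := g k (left_ne_zero_of_mul hk)
  have h2 := g' k (right_ne_zero_of_mul hk)
  have hone : Nat.card (𝓞 ℚ →+* k) = 1 := by
    rw [Nat.card_eq_one_iff_unique]
    refine ⟨⟨fun f g => ?_⟩, ⟨(Int.castRingHom k).comp (Rat.ringOfIntegersEquiv : 𝓞 ℚ →+* ℤ)⟩⟩
    have h5 : f.comp (Rat.ringOfIntegersEquiv.symm : ℤ →+* 𝓞 ℚ) =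
        g.comp (Rat.ringOfIntegersEquiv.symm : ℤ →+* 𝓞 ℚ) := RingHom.ext_int _ _
    refine RingHom.ext fun x => ?_
    have h6 : f (Rat.ringOfIntegersEquiv.symm (Rat.ringOfIntegersEquiv x)) =
        g (Rat.ringOfIntegersEquiv.symm (Rat.ringOfIntegersEquiv x)) :=
      congrArg (fun w => w (Rat.ringOfIntegersEquiv x)) h5
    rwa [RingEquiv.symm_apply_apply] at h6
  rw [hone, Nat.cast_one, one_mul] at h1
  have h3 := shrink (k := k) s u (fun _ => 1) (fun _ => by rw [norm_one])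
  rw [fin_one, fin_one] at h3
  have hs0 : 0 ≤ √(Nat.card k : ℝ) := Real.sqrt_nonneg _
  have hsq : √(Nat.card k : ℝ) ≤ Nat.card k := sqrt_le_self'
  have h4 : ‖(Nat.card {φ : R →+* k // φ (s * u) ≠ 0} : ℂ) - (Nat.card k : ℂ) ^ n‖ =
      |(Nat.card {φ : R →+* k // φ (s * u) ≠ 0} : ℝ) - (Nat.card k : ℝ) ^ n| := by
    rw [← Real.norm_eq_abs, ← Complex.norm_real]
    push_cast
    rfl
  rw [← h4] at h1
  have h5 := norm_add_le ((Nat.card {φ : R →+* k // φ u ≠ 0} : ℂ) -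
    (Nat.card {φ : R →+* k // φ (s * u) ≠ 0} : ℂ))
    ((Nat.card {φ : R →+* k // φ (s * u) ≠ 0} : ℂ) - (Nat.card k : ℂ) ^ n)
  rw [sub_add_sub_cancel] at h5
  calc _ ≤ ((Nat.card {φ : R →+* k // φ (s * u) = 0} : ℝ) +
        ‖(Nat.card {φ : R →+* k // φ (s * u) ≠ 0} : ℂ) - (Nat.card k : ℂ) ^ n‖) *
          √(Nat.card k : ℝ) := mul_le_mul_of_nonneg_right (h5.trans (add_le_add h3 le_rfl)) hs0
    _ ≤ (Nat.card {φ : R →+* k // φ (s * u) = 0} : ℝ) * Nat.card k +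
        ‖(Nat.card {φ : R →+* k // φ (s * u) ≠ 0} : ℂ) - (Nat.card k : ℂ) ^ n‖ *
          √(Nat.card k : ℝ) := by
        rw [add_mul]
        exact add_le_add (mul_le_mul_of_nonneg_left hsq (Nat.cast_nonneg _)) le_rfl
    _ ≤ C' * (Nat.card k : ℝ) ^ n + C * (Nat.card k : ℝ) ^ n := add_le_add h2 h1
    _ = _ := by ring

lemma norm_chi_le' {k : Type} [Field k] [Finite k] (χ : MulChar k ℂ) (x : k) : ‖χ x‖ ≤ 1 := by
  let _ : Fintype k := Fintype.ofFinite k
  exact norm_chi_le χ x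

/-- all the open subsets -/
theorem tb_all (htr : Algebra.trdeg ℚ (FractionRing R) = n) {M : ℕ} {f : R} (h : TB R n f M) :
    SumB n M f := by
  intro N₁ hN₁
  obtain ⟨s, hs, hA⟩ := h
  obtain ⟨C, N, hC, hN, g⟩ := hA (s * N₁) (mul_ne_zero hs hN₁) (dvd_mul_right _ _)
  obtain ⟨C', N', hC', hN', g'⟩ := zeros_R htr (mul_ne_zero hs hN₁)
  refine ⟨C + C', N * N', by positivity, mul_ne_zero hN hN', ?_⟩
  intro k _ _ hk χ hχ
  rw [Nat.cast_mul] at hk
  have h1 := g k (left_ne_zero_of_mul hk) χ hχ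
  have h2 := g' k (right_ne_zero_of_mul hk)
  have h3 := shrink (k := k) s N₁ (fun φ => χ (φ f)) (fun φ => norm_chi_le' χ _)
  have hs0 : 0 ≤ √(Nat.card k : ℝ) := Real.sqrt_nonneg _
  have hsq : √(Nat.card k : ℝ) ≤ Nat.card k := sqrt_le_self'
  have h5 := norm_add_le (∑ᶠ φ : {φ : R →+* k // φ N₁ ≠ 0}, χ (φ.1 f) -
      ∑ᶠ φ : {φ : R →+* k // φ (s * N₁) ≠ 0}, χ (φ.1 f))
    (∑ᶠ φ : {φ : R →+* k // φ (s * N₁) ≠ 0}, χ (φ.1 f))
  rw [sub_add_cancel] at h5
  calc _ ≤ ((Nat.card {φ : R →+* k // φ (s * N₁) = 0} : ℝ) +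
        ‖∑ᶠ φ : {φ : R →+* k // φ (s * N₁) ≠ 0}, χ (φ.1 f)‖) *
          √(Nat.card k : ℝ) := mul_le_mul_of_nonneg_right (h5.trans (add_le_add h3 le_rfl)) hs0
    _ ≤ (Nat.card {φ : R →+* k // φ (s * N₁) = 0} : ℝ) * Nat.card k +
        ‖∑ᶠ φ : {φ : R →+* k // φ (s * N₁) ≠ 0}, χ (φ.1 f)‖ * √(Nat.card k : ℝ) := by
        rw [add_mul]
        exact add_le_add (mul_le_mul_of_nonneg_left hsq (Nat.cast_nonneg _)) le_rfl
    _ ≤ C' * (Nat.card k : ℝ) ^ n + C * (Nat.card k : ℝ) ^ n := add_le_add h2 h1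
    _ = _ := by ring

/-- **the dichotomy** -/
theorem dich (htr : Algebra.trdeg ℚ (FractionRing R) = n) (hreg : Reg (FractionRing R)) {M : ℕ}
    (hM : 0 < M) {f : R} (hf : f ≠ 0) : CstP M f ∨ SumB n M f := by
  set K := FractionRing R
  have hfK : algebraMap R K f ≠ 0 := (map_ne_zero_iff _ (IsFractionRing.injective R K)).2 hf
  rcases tw_landau n K (fg_of_ft R K) htr (algebraMap R K f) hfK M hM with ⟨u, κ, h1, h2, h3⟩ | h
  · left
    obtain ⟨q, rfl⟩ := hreg u h1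
    refine cst_of_field hM h2 ?_ h3
    rintro rfl
    rw [zero_pow hM.ne', mul_zero] at h3
    exact hfK h3
  · right
    exact tb_all htr (h R f 1 one_ne_zero (by rw [one_pow, mul_one]))

end

end Pool.Agent.L0h11
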