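import Mathlib
import Pool.Agent.L0h11.Vw2

/-!
# Character sums of polynomials in several variables: the fibres
-/

set_option autoImplicit false
set_option linter.unusedSectionVars false

namespace Pool.Agent.L0h11

open Polynomial Finset

section

variable {R K : Type} [CommRing R] [IsDomain R] [Field K] [Algebra R K] [IsFractionRing R K]

lemma clearD (p : K[X]) : ∃ (d : R) (q : R[X]), d ≠ 0 ∧
    q.map (algebraMap R K) = C (algebraMap R K d) * p := by
  obtain ⟨b, hb0, hb⟩ := IsLocalization.integerNormalization_spec (nonZeroDivisors R) p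
  refine ⟨b, IsLocalization.integerNormalization (nonZeroDivisors R) p,
    nonZeroDivisors.ne_zero hb0, ?_⟩
  rw [hb]
  ext i
  rw [coeff_C_mul, coeff_smul, Algebra.smul_def]

lemma map_inj' : Function.Injective (Polynomial.map (algebraMap R K)) :=
  Polynomial.map_injective _ (IsFractionRing.injective R K)

lemma alg_ne {a : R} (ha : a ≠ 0) : algebraMap R K a ≠ 0 := by
  rwa [Ne, FaithfulSMul.algebraMap_eq_zero_iff]

/-- coprime polynomials -/
lemma clear_coprime {p q : R[X]}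
    (h : IsCoprime (p.map (algebraMap R K)) (q.map (algebraMap R K))) :
    ∃ (A B : R[X]) (r : R), r ≠ 0 ∧ A * p + B * q = C r := by
  obtain ⟨A, B, hAB⟩ := h
  obtain ⟨a, A', ha, hA'⟩ := clearD (R := R) A
  obtain ⟨b, B', hb, hB'⟩ := clearD (R := R) B
  refine ⟨C b * A', C a * B', a * b, mul_ne_zero ha hb, ?_⟩
  apply map_inj' (K := K)
  rw [Polynomial.map_add, Polynomial.map_mul, Polynomial.map_mul, Polynomial.map_mul,
    Polynomial.map_mul, map_C, map_C, map_C, hA', hB', map_mul, C_mul]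
  calc C (algebraMap R K b) * (C (algebraMap R K a) * A) * Polynomial.map (algebraMap R K) p +
      C (algebraMap R K a) * (C (algebraMap R K b) * B) * Polynomial.map (algebraMap R K) q =
      C (algebraMap R K a) * C (algebraMap R K b) * (A * Polynomial.map (algebraMap R K) p +
        B * Polynomial.map (algebraMap R K) q) := by ring
    _ = _ := by rw [hAB, mul_one]

/-- a constant times a power -/
lemma clear_pow {M : ℕ} (hM : 0 < M) {P : R[X]} (hP : P ≠ 0) {c : K} {Q : K[X]}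
    (h : P.map (algebraMap R K) = C c * Q ^ M) :
    ∃ (s c' : R) (Q' : R[X]), s ≠ 0 ∧ c' ≠ 0 ∧ Q' ≠ 0 ∧ C s ^ M * P = C c' * Q' ^ M := by
  obtain ⟨b, Q', hb, hQ'⟩ := clearD (R := R) Q
  obtain ⟨c₁, c₂, hc2, hc⟩ := IsFractionRing.div_surjective (A := R) c
  have hc20 : c₂ ≠ 0 := nonZeroDivisors.ne_zero hc2
  have hP' : P.map (algebraMap R K) ≠ 0 := by
    rwa [Ne, Polynomial.map_eq_zero_iff (IsFractionRing.injective R K)]
  have hc0 : c ≠ 0 := by
    rintro rfl
    rw [C_0, zero_mul] at h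
    exact hP' h
  have hQ0 : Q ≠ 0 := by
    rintro rfl
    rw [zero_pow hM.ne', mul_zero] at h
    exact hP' h
  have hc10 : c₁ ≠ 0 := by
    rintro rfl
    rw [map_zero, zero_div] at hc
    exact hc0 hc.symm
  have hQ'0 : Q' ≠ 0 := by
    rintro rfl
    rw [Polynomial.map_zero] at hQ'
    exact mul_ne_zero (C_ne_zero.2 (alg_ne (K := K) hb)) hQ0 hQ'.symm
  obtain ⟨M', rfl⟩ := Nat.exists_eq_succ_of_ne_zero hM.ne'
  refine ⟨b * c₂, c₁ * c₂ ^ M', Q', mul_ne_zero hb hc20, mul_ne_zero hc10 (pow_ne_zero _ hc20), hQ'0, ?_⟩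
  apply map_inj' (K := K)
  rw [Polynomial.map_mul, Polynomial.map_pow, Polynomial.map_mul, Polynomial.map_pow, map_C, map_C,
    hQ', h, ← hc]
  have h2 := alg_ne (K := K) hc20
  have key : (algebraMap R K (b * c₂)) ^ (M' + 1) * (algebraMap R K c₁ / algebraMap R K c₂) =
      algebraMap R K (c₁ * c₂ ^ M') * (algebraMap R K b) ^ (M' + 1) := by
    rw [map_mul, map_mul, map_pow, mul_pow, pow_succ (algebraMap R K c₂)]
    field_simp
  calc C (algebraMap R K (b * c₂)) ^ (M' + 1) *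
        (C (algebraMap R K c₁ / algebraMap R K c₂) * Q ^ (M' + 1)) =
      C ((algebraMap R K (b * c₂)) ^ (M' + 1) * (algebraMap R K c₁ / algebraMap R K c₂)) *
        Q ^ (M' + 1) := by rw [C_mul, C_pow]; ring
    _ = C (algebraMap R K (c₁ * c₂ ^ M')) * (C (algebraMap R K b) * Q) ^ (M' + 1) := by
        rw [key, C_mul, C_pow]; ring

/-- **The multiplicity of a factor in the fibres.** -/
lemma fibre [CharZero K] {P : R[X]} (hP : P ≠ 0) {w : K[X]} (hw : Irreducible w) {e : ℕ}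
    (h1 : w ^ e ∣ P.map (algebraMap R K)) (h2 : ¬ w ^ (e + 1) ∣ P.map (algebraMap R K)) :
    ∃ N : R, N ≠ 0 ∧ ∀ {F : Type} [Field F] (φ : R →+* F), φ N ≠ 0 → P.map φ ≠ 0 ∧
      ∃ w' : F[X], Irreducible w' ∧ w' ^ e ∣ P.map φ ∧ ¬ w' ^ (e + 1) ∣ P.map φ := by
  obtain ⟨b, w₀, hb, hw₀⟩ := clearD (R := R) w
  have hbK := alg_ne (K := K) hb
  have hass : Associated (w₀.map (algebraMap R K)) w := by
    rw [hw₀]
    exact associated_unit_mul_left w _ (isUnit_C.2 (isUnit_iff_ne_zero.2 hbK))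
  set w₁ := w₀.map (algebraMap R K) with hw₁
  have hw1 : Irreducible w₁ := hass.symm.irreducible hw
  have g1 : w₁ ^ e ∣ P.map (algebraMap R K) := (hass.pow_pow).dvd.trans h1
  have g2 : ¬ w₁ ^ (e + 1) ∣ P.map (algebraMap R K) := fun h => h2 ((hass.symm.pow_pow).dvd.trans h)
  obtain ⟨h, hh⟩ := g1
  have hwh : ¬ w₁ ∣ h := by
    intro h3
    apply g2
    rw [hh, pow_succ]
    exact mul_dvd_mul_left _ h3
  obtain ⟨b₂, h₀, hb2, hh₀⟩ := clearD (R := R) h
  have hb2K := alg_ne (K := K) hb2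
  have e1 : C b₂ * P = w₀ ^ e * h₀ := by
    apply map_inj' (K := K)
    rw [Polynomial.map_mul, Polynomial.map_mul, Polynomial.map_pow, map_C, hh₀, ← hw₁, hh]
    ring
  have hcop1 : IsCoprime w₁ (h₀.map (algebraMap R K)) := by
    rcases EuclideanDomain.dvd_or_coprime w₁ (h₀.map (algebraMap R K)) hw1 with h3 | h3
    · exfalso
      apply hwh
      rw [hh₀] at h3
      rcases hw1.prime.dvd_or_dvd h3 with h4 | h4
      · exact absurd (isUnit_of_dvd_unit h4 (isUnit_C.2 (isUnit_iff_ne_zero.2 hb2K))) hw1.not_isUnit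
      · exact h4
    · exact h3
  obtain ⟨A, B, r, hr, hAB⟩ := clear_coprime (K := K) hcop1
  have hsep : w₁.Separable := hw1.separable
  have hcop2 : IsCoprime w₁ ((derivative w₀).map (algebraMap R K)) := by
    rw [← derivative_map]
    exact hsep
  obtain ⟨A', B', s, hs, hAB'⟩ := clear_coprime (K := K) hcop2
  have hw₀0 : w₀ ≠ 0 := by
    rintro rfl
    rw [Polynomial.map_zero] at hw₁
    exact hw1.ne_zero hw₁
  have hdeg : 0 < w₀.natDegree := by
    have h3 := hw1.natDegree_pos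
    rwa [hw₁, natDegree_map_eq_of_injective (IsFractionRing.injective R K)] at h3
  refine ⟨b₂ * r * s * w₀.leadingCoeff * P.leadingCoeff, mul_ne_zero (mul_ne_zero (mul_ne_zero
    (mul_ne_zero hb2 hr) hs) (leadingCoeff_ne_zero.2 hw₀0)) (leadingCoeff_ne_zero.2 hP), ?_⟩
  intro F _ φ hφ
  rw [map_mul, map_mul, map_mul, map_mul] at hφ
  have f5 : φ P.leadingCoeff ≠ 0 := right_ne_zero_of_mul hφ
  have hφ' := left_ne_zero_of_mul hφ
  have f4 : φ w₀.leadingCoeff ≠ 0 := right_ne_zero_of_mul hφ'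
  have hφ'' := left_ne_zero_of_mul hφ'
  have f3 : φ s ≠ 0 := right_ne_zero_of_mul hφ''
  have hφ3 := left_ne_zero_of_mul hφ''
  have f2 : φ r ≠ 0 := right_ne_zero_of_mul hφ3
  have f1 : φ b₂ ≠ 0 := left_ne_zero_of_mul hφ3
  have hPφ : P.map φ ≠ 0 := by
    intro h3
    apply f5
    have := congrArg (fun p => p.coeff P.natDegree) h3
    simpa [coeff_map] using this
  refine ⟨hPφ, ?_⟩
  have hwdeg : (w₀.map φ).natDegree = w₀.natDegree := natDegree_map_of_leadingCoeff_ne_zero φ f4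
  have hwφ : w₀.map φ ≠ 0 := by
    intro h3
    rw [h3, natDegree_zero] at hwdeg
    omega
  have hnu : ¬ IsUnit (w₀.map φ) := by
    intro h3
    have := natDegree_eq_zero_of_isUnit h3
    omega
  obtain ⟨w', hw', hww⟩ := WfDvdMonoid.exists_irreducible_factor hnu hwφ
  have e2 : C (φ b₂) * P.map φ = (w₀.map φ) ^ e * h₀.map φ := by
    have := congrArg (Polynomial.map φ) e1
    rwa [Polynomial.map_mul, Polynomial.map_mul, Polynomial.map_pow, map_C] at this
  have e3 : A.map φ * w₀.map φ + B.map φ * h₀.map φ = C (φ r) := by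
    have := congrArg (Polynomial.map φ) hAB
    rwa [Polynomial.map_add, Polynomial.map_mul, Polynomial.map_mul, map_C] at this
  have e4 : A'.map φ * w₀.map φ + B'.map φ * derivative (w₀.map φ) = C (φ s) := by
    have := congrArg (Polynomial.map φ) hAB'
    rwa [Polynomial.map_add, Polynomial.map_mul, Polynomial.map_mul, map_C, ← derivative_map] at this
  have hu : ∀ a : F, a ≠ 0 → ¬ w' ∣ C a := fun a ha h3 =>
    hw'.not_isUnit (isUnit_of_dvd_unit h3 (isUnit_C.2 (isUnit_iff_ne_zero.2 ha)))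
  have n1 : ¬ w' ∣ h₀.map φ := by
    intro h3
    apply hu _ f2
    rw [← e3]
    exact dvd_add (hww.mul_left _) (h3.mul_left _)
  obtain ⟨w₂, hw₂⟩ := hww
  have n2 : ¬ w' ∣ w₂ := by
    intro h3
    apply hu _ f3
    rw [← e4, hw₂, derivative_mul]
    exact dvd_add ((dvd_mul_right _ _).mul_left _)
      ((dvd_add (h3.mul_left _) (dvd_mul_right _ _)).mul_left _)
  refine ⟨w', hw', ?_, ?_⟩
  · have h3 : w' ^ e ∣ C (φ b₂) * P.map φ := by
      rw [e2, hw₂, mul_pow, mul_assoc]
      exact dvd_mul_right _ _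
    exact ((isUnit_C.2 (isUnit_iff_ne_zero.2 f1)).dvd_mul_left).1 h3
  · intro h3
    have h4 : w' ^ (e + 1) ∣ C (φ b₂) * P.map φ := h3.mul_left _
    rw [e2, hw₂, mul_pow, mul_assoc, pow_succ] at h4
    have h5 := (mul_dvd_mul_iff_left (pow_ne_zero e hw'.ne_zero)).1 h4
    rcases hw'.prime.dvd_or_dvd h5 with h6 | h6
    · exact n2 (hw'.prime.dvd_of_dvd_pow h6)
    · exact n1 h6

end

end Pool.Agent.L0h11
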