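import Mathlib
import Pool.Agent.L0h11.Vs

/-!
# Character sums of polynomials in several variables
-/

set_option autoImplicit false
set_option linter.unusedSectionVars false

namespace Pool.Agent.L0h11

open Finset

/-- the value of a polynomial with integral coefficients -/
noncomputable def evv {n : ℕ} {F : Type} [Field F] (x : Fin n → F) : MvPolynomial (Fin n) ℤ →+* F :=
  MvPolynomial.eval₂Hom (Int.castRingHom F) x

lemma evv_eq {n : ℕ} {F : Type} [Field F] (x : Fin n → F) (f : MvPolynomial (Fin n) ℤ) :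
    evv x f = MvPolynomial.eval x (MvPolynomial.map (Int.castRingHom F) f) := by
  unfold evv
  rw [MvPolynomial.coe_eval₂Hom, MvPolynomial.eval_map]

lemma evv_C {n : ℕ} {F : Type} [Field F] (x : Fin n → F) (u : ℤ) :
    evv x (MvPolynomial.C u) = (u : F) := by
  unfold evv
  rw [MvPolynomial.coe_eval₂Hom, MvPolynomial.eval₂_C]
  rfl

lemma evv_cons {n : ℕ} {F : Type} [Field F] (x₀ : F) (x : Fin n → F)
    (f : MvPolynomial (Fin (n + 1)) ℤ) :
    evv (Fin.cons x₀ x : Fin (n + 1) → F) f =
      ((MvPolynomial.finSuccEquiv ℤ n f).map (evv x)).eval x₀ := by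
  have h : evv (Fin.cons x₀ x : Fin (n + 1) → F) =
      ((Polynomial.evalRingHom x₀).comp (Polynomial.mapRingHom (evv x))).comp
        (MvPolynomial.finSuccEquiv ℤ n : MvPolynomial (Fin (n + 1)) ℤ →+* _) := by
    apply MvPolynomial.ringHom_ext
    · intro r
      rw [evv_C]
      simp
    · intro i
      refine Fin.cases ?_ (fun j => ?_) i
      · rw [RingHom.comp_apply, RingHom.coe_coe, MvPolynomial.finSuccEquiv_X_zero]
        simp [evv]
      · rw [RingHom.comp_apply, RingHom.coe_coe, MvPolynomial.finSuccEquiv_X_succ]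
        simp [evv]
  exact congrArg (fun g => g f) h

lemma sum_consV {n : ℕ} {F : Type} [Fintype F] {A : Type} [AddCommMonoid A]
    (g : (Fin (n + 1) → F) → A) :
    ∑ x, g x = ∑ x : Fin n → F, ∑ x₀ : F, g (Fin.cons x₀ x) := by
  rw [sum_comm, ← Fintype.sum_prod_type' (f := fun (x₀ : F) (x : Fin n → F) => g (Fin.cons x₀ x))]
  exact (Fintype.sum_equiv (Fin.consEquiv fun _ : Fin (n + 1) => F) _ _ fun x => rfl).symm

open Classical in
/-- the number of the zeros -/
lemma zeros_le {n : ℕ} {f : MvPolynomial (Fin n) ℤ} (hf : f ≠ 0) :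
    ∃ N : ℕ, N ≠ 0 ∧ ∀ (F : Type) [Field F] [Fintype F], (N : F) ≠ 0 →
      (((univ : Finset (Fin n → F)).filter fun x => evv x f = 0).card : ℝ) * Fintype.card F ≤
        f.totalDegree * (Fintype.card F : ℝ) ^ n := by
  obtain ⟨m, hm⟩ := MvPolynomial.ne_zero_iff.1 hf
  refine ⟨(f.coeff m).natAbs, Int.natAbs_ne_zero.2 hm, ?_⟩
  intro F _ _ hF
  have hp : MvPolynomial.map (Int.castRingHom F) f ≠ 0 := by
    rw [MvPolynomial.ne_zero_iff]
    refine ⟨m, ?_⟩
    rw [MvPolynomial.coeff_map]
    intro h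
    apply hF
    have h1 : ((f.coeff m : ℤ) : F) = 0 := h
    have h2 : ∀ z : ℤ, (z : F) = 0 → ((z.natAbs : ℕ) : F) = 0 := by
      intro z hz
      obtain ⟨k, rfl | rfl⟩ := z.eq_nat_or_neg
      · simpa using hz
      · simpa using hz
    exact h2 _ h1
  have h1 := MvPolynomial.schwartz_zippel_totalDegree hp (univ : Finset F)
  have h2 : ((Fintype.piFinset fun _ : Fin n => (univ : Finset F)).filter fun x =>
      MvPolynomial.eval x (MvPolynomial.map (Int.castRingHom F) f) = 0) =
      (univ : Finset (Fin n → F)).filter fun x => evv x f = 0 := by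
    rw [Fintype.piFinset_univ]
    ext x
    rw [mem_filter, mem_filter, evv_eq]
  rw [h2, card_univ] at h1
  have hq : (0 : ℝ) < Fintype.card F := by exact_mod_cast Fintype.card_pos
  have h3 : (((univ : Finset (Fin n → F)).filter fun x => evv x f = 0).card : ℝ) /
      (Fintype.card F : ℝ) ^ n ≤
      ((MvPolynomial.map (Int.castRingHom F) f).totalDegree : ℝ) / Fintype.card F := by
    have h5 := (NNRat.cast_mono (K := ℝ)) h1
    push_cast at h5
    exact h5
  have h4 : ((MvPolynomial.map (Int.castRingHom F) f).totalDegree : ℝ) ≤ f.totalDegree := by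
    have h5 : (MvPolynomial.map (Int.castRingHom F) f).totalDegree ≤ f.totalDegree := by
      unfold MvPolynomial.totalDegree
      exact Finset.sup_mono (MvPolynomial.support_map_subset _ _)
    exact_mod_cast h5
  rw [div_le_div_iff₀ (pow_pos hq n) hq] at h3
  exact h3.trans (mul_le_mul_of_nonneg_right h4 (by positivity))

/-- `f` is a constant times an `M`-th power in the field of rational functions -/
def CstPow (M : ℕ) {n : ℕ} (f : MvPolynomial (Fin n) ℤ) : Prop :=
  ∃ u : ℤ, u ≠ 0 ∧ ∃ g h : MvPolynomial (Fin n) ℤ, g ≠ 0 ∧ h ≠ 0 ∧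
    f * h ^ M = MvPolynomial.C u * g ^ M

/-- the bound for the sums -/
def SumBd (M : ℕ) {n : ℕ} (f : MvPolynomial (Fin n) ℤ) : Prop :=
  ∃ (C : ℝ) (N : ℕ), 0 ≤ C ∧ N ≠ 0 ∧ ∀ (F : Type) [Field F] [Fintype F], (N : F) ≠ 0 →
    ∀ χ : MulChar F ℂ, χ ^ M = 1 → (∀ j, χ ^ j = 1 → M ∣ j) →
      ‖∑ x : Fin n → F, χ (evv x f)‖ * √(Fintype.card F : ℝ) ≤ C * (Fintype.card F : ℝ) ^ n

lemma sumBd_of_fibre {M : ℕ} (hM : 0 < M) {n : ℕ} {f : MvPolynomial (Fin (n + 1)) ℤ}
    {e : ℕ} (he : ¬ M ∣ e) {D : MvPolynomial (Fin n) ℤ} (hD : D ≠ 0)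
    (hf : ∀ {F : Type} [Field F] (φ : MvPolynomial (Fin n) ℤ →+* F), φ D ≠ 0 →
      (MvPolynomial.finSuccEquiv ℤ n f).map φ ≠ 0 ∧ ∃ w : Polynomial F, Irreducible w ∧
        w ^ e ∣ (MvPolynomial.finSuccEquiv ℤ n f).map φ ∧
        ¬ w ^ (e + 1) ∣ (MvPolynomial.finSuccEquiv ℤ n f).map φ) : SumBd M f := by
  classical
  obtain ⟨N, hN, hz⟩ := zeros_le hD
  set δ := (MvPolynomial.finSuccEquiv ℤ n f).natDegree with hδ
  set W : ℝ := (Pool.Agent.R410.PW.WC M δ δ : ℝ) with hW
  have hW0 : 0 ≤ W := Nat.cast_nonneg _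
  refine ⟨W + D.totalDegree, N * M, by positivity, Nat.mul_ne_zero hN hM.ne', ?_⟩
  intro F _ _ hF χ hχ1 hχ2
  rw [Nat.cast_mul] at hF
  have hNF := left_ne_zero_of_mul hF
  have hMF := right_ne_zero_of_mul hF
  have hq : (0 : ℝ) < Fintype.card F := by exact_mod_cast Fintype.card_pos
  have hq1 : (1 : ℝ) ≤ Fintype.card F := by exact_mod_cast Fintype.card_pos
  have hs : (0 : ℝ) ≤ √(Fintype.card F : ℝ) := Real.sqrt_nonneg _
  have hss : √(Fintype.card F : ℝ) * √(Fintype.card F : ℝ) = Fintype.card F :=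
    Real.mul_self_sqrt hq.le
  have hsq : √(Fintype.card F : ℝ) ≤ Fintype.card F := by
    rw [Real.sqrt_le_left hq.le]
    nlinarith
  rw [sum_consV]
  have h1 : ∀ x : Fin n → F, ‖∑ x₀ : F, χ (evv (Fin.cons x₀ x : Fin (n + 1) → F) f)‖ ≤
      W * √(Fintype.card F : ℝ) + if evv x D = 0 then (Fintype.card F : ℝ) else 0 := by
    intro x
    split_ifs with h2
    · refine (norm_sum_le _ _).trans ?_
      refine (sum_le_sum fun x₀ _ => norm_chi_le χ _).trans ?_
      rw [sum_const, card_univ, nsmul_eq_mul, mul_one]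
      have : 0 ≤ W * √(Fintype.card F : ℝ) := mul_nonneg hW0 hs
      linarith
    · obtain ⟨h3, w, hw, h4, h5⟩ := hf (evv x) h2
      rw [add_zero]
      simp_rw [evv_cons]
      exact weil_one hMF hχ1 hχ2 h3 (δ := δ) Polynomial.natDegree_map_le hw h4 h5 he
  have h2 : ‖∑ x : Fin n → F, ∑ x₀ : F, χ (evv (Fin.cons x₀ x : Fin (n + 1) → F) f)‖ ≤
      (Fintype.card F : ℝ) ^ n * (W * √(Fintype.card F : ℝ)) +
        D.totalDegree * (Fintype.card F : ℝ) ^ n := by
    refine (norm_sum_le _ _).trans ((sum_le_sum fun x _ => h1 x).trans ?_)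
    rw [sum_add_distrib, sum_const, card_univ, nsmul_eq_mul, Fintype.card_fun, Fintype.card_fin,
      Nat.cast_pow, ← sum_filter, sum_const, nsmul_eq_mul]
    exact add_le_add_right (hz F hNF) _
  calc _ ≤ ((Fintype.card F : ℝ) ^ n * (W * √(Fintype.card F : ℝ)) +
        D.totalDegree * (Fintype.card F : ℝ) ^ n) * √(Fintype.card F : ℝ) :=
        mul_le_mul_of_nonneg_right h2 hs
    _ = W * (Fintype.card F : ℝ) ^ n * (√(Fintype.card F : ℝ) * √(Fintype.card F : ℝ)) +
        D.totalDegree * (Fintype.card F : ℝ) ^ n * √(Fintype.card F : ℝ) := by ring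
    _ ≤ W * (Fintype.card F : ℝ) ^ n * Fintype.card F +
        D.totalDegree * (Fintype.card F : ℝ) ^ n * Fintype.card F := by
        rw [hss]
        gcongr
    _ = (W + D.totalDegree) * (Fintype.card F : ℝ) ^ (n + 1) := by ring

/-- **Character sums of polynomials.** -/
theorem charsum {M : ℕ} (hM : 0 < M) : ∀ (n : ℕ) (f : MvPolynomial (Fin n) ℤ), f ≠ 0 →
    CstPow M f ∨ SumBd M f := by
  classical
  intro n
  induction n with
  | zero =>
    intro f hf
    left
    have h1 := MvPolynomial.eq_C_of_isEmpty f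
    refine ⟨f.coeff 0, ?_, 1, 1, one_ne_zero, one_ne_zero, ?_⟩
    · intro h
      rw [h, map_zero] at h1
      exact hf h1
    · rw [one_pow, mul_one, mul_one]
      exact h1
  | succ n ih =>
    intro f hf
    set P := MvPolynomial.finSuccEquiv ℤ n f with hP
    have hP0 : P ≠ 0 := by
      rw [hP, Ne, map_eq_zero_iff _ (MvPolynomial.finSuccEquiv ℤ n).injective]
      exact hf
    let K := FractionRing (MvPolynomial (Fin n) ℤ)
    have hK0 : CharZero K := charZero_of_injective_algebraMap (R := MvPolynomial (Fin n) ℤ)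
      (IsFractionRing.injective _ K)
    have hPK : P.map (algebraMap (MvPolynomial (Fin n) ℤ) K) ≠ 0 := by
      rwa [Ne, Polynomial.map_eq_zero_iff (IsFractionRing.injective _ K)]
    by_cases hall : ∀ w : Polynomial K, Irreducible w → ∀ e,
        w ^ e ∣ P.map (algebraMap (MvPolynomial (Fin n) ℤ) K) →
        ¬ w ^ (e + 1) ∣ P.map (algebraMap (MvPolynomial (Fin n) ℤ) K) → M ∣ e
    · obtain ⟨c, Q, hc, hQ⟩ := pow_form _ _ le_rfl hPK hall
      obtain ⟨s, c', Q', hs, hc', hQ', hE⟩ := clear_pow (K := K) hM hP0 hQ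
      -- the polynomials
      set ε := MvPolynomial.finSuccEquiv ℤ n with hε
      set s₁ := ε.symm (Polynomial.C s) with hs₁
      set c₁ := ε.symm (Polynomial.C c') with hc₁
      set Q₁ := ε.symm Q' with hQ₁
      have hs10 : s₁ ≠ 0 := by
        rw [hs₁, Ne, map_eq_zero_iff _ ε.symm.injective, Polynomial.C_eq_zero]
        exact hs
      have hQ10 : Q₁ ≠ 0 := by
        rw [hQ₁, Ne, map_eq_zero_iff _ ε.symm.injective]
        exact hQ'
      have hE1 : s₁ ^ M * f = c₁ * Q₁ ^ M := by
        apply ε.injective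
        rw [map_mul, map_mul, map_pow, map_pow, hs₁, hc₁, hQ₁, AlgEquiv.apply_symm_apply,
          AlgEquiv.apply_symm_apply, AlgEquiv.apply_symm_apply]
        exact hE
      rcases ih c' hc' with hA | hB
      · left
        obtain ⟨u, hu, g, h, hg, hh, hgh⟩ := hA
        set g₁ := ε.symm (Polynomial.C g) with hg₁
        set h₁ := ε.symm (Polynomial.C h) with hh₁
        have hg10 : g₁ ≠ 0 := by
          rw [hg₁, Ne, map_eq_zero_iff _ ε.symm.injective, Polynomial.C_eq_zero]
          exact hg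
        have hh10 : h₁ ≠ 0 := by
          rw [hh₁, Ne, map_eq_zero_iff _ ε.symm.injective, Polynomial.C_eq_zero]
          exact hh
        have hgh1 : c₁ * h₁ ^ M = MvPolynomial.C u * g₁ ^ M := by
          apply ε.injective
          rw [map_mul, map_mul, map_pow, map_pow, hg₁, hh₁, hc₁, AlgEquiv.apply_symm_apply,
            AlgEquiv.apply_symm_apply, AlgEquiv.apply_symm_apply, ← Polynomial.C_pow,
            ← Polynomial.C_mul, hgh, Polynomial.C_mul, Polynomial.C_pow]
          congr 1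
          rw [hε, MvPolynomial.finSuccEquiv_apply]
          simp
        refine ⟨u, hu, g₁ * Q₁, s₁ * h₁, mul_ne_zero hg10 hQ10, mul_ne_zero hs10 hh10, ?_⟩
        calc f * (s₁ * h₁) ^ M = (s₁ ^ M * f) * h₁ ^ M := by rw [mul_pow]; ring
          _ = (c₁ * h₁ ^ M) * Q₁ ^ M := by rw [hE1]; ring
          _ = MvPolynomial.C u * (g₁ * Q₁) ^ M := by rw [hgh1, mul_pow]; ring
      · right
        obtain ⟨C, N, hC, hN, hB⟩ := hB
        obtain ⟨N', hN', hz⟩ := zeros_le (mul_ne_zero hs10 hQ10)
        refine ⟨C + 2 * (s₁ * Q₁).totalDegree, N * N', by positivity, Nat.mul_ne_zero hN hN', ?_⟩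
        intro F _ _ hF χ hχ1 hχ2
        rw [Nat.cast_mul] at hF
        have hNF := left_ne_zero_of_mul hF
        have hNF' := right_ne_zero_of_mul hF
        have hq : (0 : ℝ) < Fintype.card F := by exact_mod_cast Fintype.card_pos
        have hq1 : (1 : ℝ) ≤ Fintype.card F := by exact_mod_cast Fintype.card_pos
        have hsn : (0 : ℝ) ≤ √(Fintype.card F : ℝ) := Real.sqrt_nonneg _
        have hsq : √(Fintype.card F : ℝ) ≤ Fintype.card F := by
          rw [Real.sqrt_le_left hq.le]
          nlinarith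
        have h1 : ∀ x : Fin (n + 1) → F, evv x (s₁ * Q₁) ≠ 0 → χ (evv x f) = χ (evv x c₁) := by
          intro x hx
          rw [map_mul] at hx
          have h2 := congrArg (fun p => χ (evv x p)) hE1
          simp only [map_mul, map_pow] at h2
          rw [← MulChar.pow_apply' χ hM.ne', ← MulChar.pow_apply' χ hM.ne', hχ1,
            MulChar.one_apply (isUnit_iff_ne_zero.2 (left_ne_zero_of_mul hx)),
            MulChar.one_apply (isUnit_iff_ne_zero.2 (right_ne_zero_of_mul hx)), one_mul, mul_one] at h2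
          exact h2
        have h2 : ∑ x : Fin (n + 1) → F, χ (evv x c₁) =
            (Fintype.card F : ℂ) * ∑ x : Fin n → F, χ (evv x c') := by
          rw [sum_consV, mul_sum]
          refine sum_congr rfl fun x _ => ?_
          have h3 : ∀ x₀ : F, χ (evv (Fin.cons x₀ x : Fin (n + 1) → F) c₁) = χ (evv x c') := by
            intro x₀
            rw [evv_cons, hc₁, ← hε, AlgEquiv.apply_symm_apply, Polynomial.map_C, Polynomial.eval_C]
          rw [sum_congr rfl fun x₀ _ => h3 x₀, sum_const, card_univ, nsmul_eq_mul]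
        have h3 : ‖∑ x : Fin (n + 1) → F, χ (evv x f) - ∑ x : Fin (n + 1) → F, χ (evv x c₁)‖ ≤
            2 * (((univ : Finset (Fin (n + 1) → F)).filter fun x => evv x (s₁ * Q₁) = 0).card : ℝ) := by
          rw [← sum_sub_distrib]
          refine (norm_sum_le _ _).trans ?_
          have h4 : ∀ x : Fin (n + 1) → F, ‖χ (evv x f) - χ (evv x c₁)‖ ≤
              if evv x (s₁ * Q₁) = 0 then 2 else 0 := by
            intro x
            split_ifs with h5
            · refine (norm_sub_le _ _).trans ?_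
              have e1 := norm_chi_le χ (evv x f)
              have e2 := norm_chi_le χ (evv x c₁)
              linarith
            · rw [h1 x h5, sub_self, norm_zero]
          refine (sum_le_sum fun x _ => h4 x).trans ?_
          rw [← sum_filter, sum_const, nsmul_eq_mul, mul_comm]
        have h4 := hB F hNF χ hχ1 hχ2
        have h5 := hz F hNF'
        have h6 : ‖∑ x : Fin (n + 1) → F, χ (evv x f)‖ ≤
            (Fintype.card F : ℝ) * ‖∑ x : Fin n → F, χ (evv x c')‖ +
            2 * (((univ : Finset (Fin (n + 1) → F)).filter fun x => evv x (s₁ * Q₁) = 0).card : ℝ) := by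
          have e1 : ∑ x : Fin (n + 1) → F, χ (evv x f) = ∑ x : Fin (n + 1) → F, χ (evv x c₁) +
              (∑ x : Fin (n + 1) → F, χ (evv x f) - ∑ x : Fin (n + 1) → F, χ (evv x c₁)) := by ring
          rw [e1]
          refine (norm_add_le _ _).trans (add_le_add (le_of_eq ?_) h3)
          rw [h2, norm_mul, Complex.norm_natCast]
        calc _ ≤ ((Fintype.card F : ℝ) * ‖∑ x : Fin n → F, χ (evv x c')‖ +
            2 * (((univ : Finset (Fin (n + 1) → F)).filter fun x => evv x (s₁ * Q₁) = 0).card : ℝ)) *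
              √(Fintype.card F : ℝ) := mul_le_mul_of_nonneg_right h6 hsn
          _ = (Fintype.card F : ℝ) * (‖∑ x : Fin n → F, χ (evv x c')‖ * √(Fintype.card F : ℝ)) +
            2 * ((((univ : Finset (Fin (n + 1) → F)).filter fun x => evv x (s₁ * Q₁) = 0).card : ℝ) *
              √(Fintype.card F : ℝ)) := by ring
          _ ≤ (Fintype.card F : ℝ) * (C * (Fintype.card F : ℝ) ^ n) +
            2 * ((((univ : Finset (Fin (n + 1) → F)).filter fun x => evv x (s₁ * Q₁) = 0).card : ℝ) *
              Fintype.card F) := by gcongr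
          _ ≤ (Fintype.card F : ℝ) * (C * (Fintype.card F : ℝ) ^ n) +
            2 * ((s₁ * Q₁).totalDegree * (Fintype.card F : ℝ) ^ (n + 1)) := by gcongr
          _ = (C + 2 * (s₁ * Q₁).totalDegree) * (Fintype.card F : ℝ) ^ (n + 1) := by ring
    · right
      push Not at hall
      obtain ⟨w, hw, e, h1, h2, he⟩ := hall
      obtain ⟨D, hD, hfib⟩ := fibre (K := K) hP0 hw h1 h2
      exact sumBd_of_fibre hM he hD (fun φ hφ => hfib φ hφ)

end Pool.Agent.L0h11
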