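import Mathlib
import Pool.Agent.L0h11.Vs2
import Pool.Agent.L0h11.Sy

/-!
# The constant lines
-/

set_option autoImplicit false
set_option linter.unusedSectionVars false

namespace Pool.Agent.L0h11

open Finset
open Pool.Agent.H916K (RationalClass)

section

variable {n : ℕ}

/-- there are integral points at which a polynomial does not vanish -/
lemma exists_point {H : MvPolynomial (Fin n) ℤ} (hH : H ≠ 0) :
    ∃ x : Fin n → ℤ, MvPolynomial.eval x H ≠ 0 := by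
  by_contra h
  push Not at h
  exact hH (MvPolynomial.funext fun x => by rw [h x, map_zero])

lemma pow_eq_pow_cases {k : ℕ} (hk : 0 < k) {a b : ℤ} (h : a ^ k = b ^ k) : a = b ∨ a = -b := by
  have h1 : a.natAbs ^ k = b.natAbs ^ k := by
    rw [← Int.natAbs_pow, ← Int.natAbs_pow, h]
  have h2 := Nat.pow_left_injective hk.ne' h1
  exact Int.natAbs_eq_natAbs_iff.1 h2

/-- a power of a quotient of polynomials is constant only if it is constant -/
lemma const_of_pow {k : ℕ} (hk : 0 < k) {φ γ : MvPolynomial (Fin n) ℤ} (hφ : φ ≠ 0) (hγ : γ ≠ 0)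
    {u : ℤ} (h : φ ^ k = MvPolynomial.C u * γ ^ k) :
    ∃ p q : ℤ, p ≠ 0 ∧ q ≠ 0 ∧ MvPolynomial.C q * φ = MvPolynomial.C p * γ := by
  obtain ⟨x₀, hx₀⟩ := exists_point (mul_ne_zero hφ hγ)
  rw [map_mul] at hx₀
  have hφ0 := left_ne_zero_of_mul hx₀
  have hγ0 := right_ne_zero_of_mul hx₀
  set φ₀ := MvPolynomial.eval x₀ φ with hφ₀
  set γ₀ := MvPolynomial.eval x₀ γ with hγ₀
  have h0 : ∀ x : Fin n → ℤ, MvPolynomial.eval x φ ^ k = u * MvPolynomial.eval x γ ^ k := by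
    intro x
    have := congrArg (MvPolynomial.eval x) h
    rwa [map_pow, map_mul, map_pow, MvPolynomial.eval_C] at this
  have h1 : ∀ x : Fin n → ℤ, (MvPolynomial.eval x φ * γ₀) ^ k = (φ₀ * MvPolynomial.eval x γ) ^ k := by
    intro x
    rw [mul_pow, mul_pow, h0 x, h0 x₀]
    ring
  have h2 : (MvPolynomial.C γ₀ * φ - MvPolynomial.C φ₀ * γ) *
      (MvPolynomial.C γ₀ * φ + MvPolynomial.C φ₀ * γ) = 0 := by
    apply MvPolynomial.funext
    intro x
    rw [map_mul, map_sub, map_add, map_mul, map_mul, MvPolynomial.eval_C, MvPolynomial.eval_C,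
      map_zero]
    rcases pow_eq_pow_cases hk (h1 x) with h3 | h3
    · rw [mul_comm γ₀, h3, sub_self, zero_mul]
    · rw [mul_comm γ₀, h3, neg_add_cancel, mul_zero]
  rcases mul_eq_zero.1 h2 with h3 | h3
  · exact ⟨φ₀, γ₀, hφ0, hγ0, sub_eq_zero.1 h3⟩
  · refine ⟨-φ₀, γ₀, neg_ne_zero.2 hφ0, hγ0, ?_⟩
    rw [eq_neg_of_add_eq_zero_left h3, map_neg, neg_mul]

lemma C_ne {u : ℤ} (hu : u ≠ 0) : (MvPolynomial.C u : MvPolynomial (Fin n) ℤ) ≠ 0 := by
  rwa [Ne, MvPolynomial.C_eq_zero]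

/-- the change of the level -/
lemma cst_pow_iff {k M : ℕ} (hk : 0 < k) (hM : 0 < M) {f : MvPolynomial (Fin n) ℤ} (hf : f ≠ 0) :
    CstPow (k * M) (f ^ k) ↔ CstPow M f := by
  constructor
  · rintro ⟨u, hu, g, h, hg, hh, hgh⟩
    have h1 : (f * h ^ M) ^ k = MvPolynomial.C u * (g ^ M) ^ k := by
      rw [mul_pow, ← pow_mul, ← pow_mul, mul_comm M k]
      exact hgh
    obtain ⟨p, q, hp, hq, hpq⟩ := const_of_pow hk (mul_ne_zero hf (pow_ne_zero M hh))
      (pow_ne_zero M hg) h1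
    obtain ⟨M', rfl⟩ := Nat.exists_eq_add_of_lt hM
    rw [zero_add] at hpq ⊢
    refine ⟨p * q ^ M', mul_ne_zero hp (pow_ne_zero _ hq), g, MvPolynomial.C q * h, hg,
      mul_ne_zero (C_ne hq) hh, ?_⟩
    rw [mul_pow]
    calc f * (MvPolynomial.C q ^ (M' + 1) * h ^ (M' + 1)) =
        MvPolynomial.C q ^ M' * (MvPolynomial.C q * (f * h ^ (M' + 1))) := by ring
      _ = MvPolynomial.C (p * q ^ M') * g ^ (M' + 1) := by
          rw [hpq, MvPolynomial.C_mul, MvPolynomial.C_pow]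
          ring
  · rintro ⟨u, hu, g, h, hg, hh, hgh⟩
    refine ⟨u ^ k, pow_ne_zero _ hu, g, h, hg, hh, ?_⟩
    rw [mul_comm k M, pow_mul, pow_mul, ← mul_pow, hgh, mul_pow, MvPolynomial.C_pow]

variable {ι : Type} [Fintype ι]

/-- the product of the powers of the coefficients -/
noncomputable def prc {M : ℕ} (c : ι → MvPolynomial (Fin n) ℤ) (b : ι → ZMod M) :
    MvPolynomial (Fin n) ℤ := ∏ i, c i ^ (b i).val

lemma prc_ne {M : ℕ} {c : ι → MvPolynomial (Fin n) ℤ} (hc : ∀ i, c i ≠ 0) (b : ι → ZMod M) :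
    prc c b ≠ 0 := prod_ne_zero_iff.2 fun i _ => pow_ne_zero _ (hc i)

lemma prc_up {M d : ℕ} [NeZero M] [NeZero d] (h : M ∣ d) (c : ι → MvPolynomial (Fin n) ℤ)
    (b : ι → ZMod M) : prc c (fun i => up h (b i)) = prc c b ^ (d / M) := by
  unfold prc
  rw [← prod_pow]
  refine prod_congr rfl fun i _ => ?_
  have h1 : (up h (b i)).val = (b i).val * (d / M) := by
    rw [up_apply, ← Nat.cast_mul, ZMod.val_natCast, Nat.mod_eq_of_lt]
    have h2 := ZMod.val_lt (b i)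
    have h3 : M * (d / M) = d := Nat.mul_div_cancel' h
    have h4 : 0 < d / M := Nat.div_pos (Nat.le_of_dvd (NeZero.pos d) h) (NeZero.pos M)
    calc (b i).val * (d / M) < M * (d / M) := Nat.mul_lt_mul_of_pos_right h2 h4
      _ = d := h3
  rw [h1, pow_mul]

lemma cst_up {M d : ℕ} [NeZero M] [NeZero d] (h : M ∣ d) {c : ι → MvPolynomial (Fin n) ℤ}
    (hc : ∀ i, c i ≠ 0) (b : ι → ZMod M) :
    CstPow d (prc c (fun i => up h (b i))) ↔ CstPow M (prc c b) := by
  have h4 : 0 < d / M := Nat.div_pos (Nat.le_of_dvd (NeZero.pos d) h) (NeZero.pos M)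
  rw [prc_up]
  conv_lhs => rw [← Nat.div_mul_cancel h]
  rw [Nat.div_mul_cancel h]
  have h5 := cst_pow_iff h4 (NeZero.pos M) (prc_ne hc b)
  rwa [Nat.div_mul_cancel h] at h5

lemma cst_tb {M : ℕ} [NeZero M] (t : (ZMod M)ˣ) {c : ι → MvPolynomial (Fin n) ℤ}
    (hc : ∀ i, c i ≠ 0) {b : ι → ZMod M} (h : CstPow M (prc c b)) : CstPow M (prc c (tb t b)) := by
  obtain ⟨u, hu, g, h, hg, hh, hgh⟩ := h
  have h1 : ∀ i, ∃ e : ℕ, (t : ZMod M).val * (b i).val = ((t : ZMod M) * b i).val + M * e := by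
    intro i
    refine ⟨(t : ZMod M).val * (b i).val / M, ?_⟩
    rw [ZMod.val_mul]
    exact (Nat.mod_add_div _ _).symm
  choose e he using h1
  set E : MvPolynomial (Fin n) ℤ := ∏ i, c i ^ e i with hE
  have hE0 : E ≠ 0 := prod_ne_zero_iff.2 fun i _ => pow_ne_zero _ (hc i)
  have h2 : prc c (tb t b) * E ^ M = prc c b ^ (t : ZMod M).val := by
    unfold prc tb
    rw [hE, ← prod_pow, ← prod_pow, ← prod_mul_distrib]
    refine prod_congr rfl fun i _ => ?_
    rw [← pow_mul, ← pow_mul, ← pow_add, mul_comm (e i) M, ← he i, mul_comm]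
  refine ⟨u ^ (t : ZMod M).val, pow_ne_zero _ hu, g ^ (t : ZMod M).val, E * h ^ (t : ZMod M).val,
    pow_ne_zero _ hg, mul_ne_zero hE0 (pow_ne_zero _ hh), ?_⟩
  calc prc c (tb t b) * (E * h ^ (t : ZMod M).val) ^ M =
      (prc c (tb t b) * E ^ M) * (h ^ M) ^ (t : ZMod M).val := by
        rw [mul_pow, ← pow_mul, ← pow_mul, mul_comm M]
        ring
    _ = (prc c b * h ^ M) ^ (t : ZMod M).val := by rw [h2, mul_pow]
    _ = MvPolynomial.C (u ^ (t : ZMod M).val) * (g ^ (t : ZMod M).val) ^ M := by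
        rw [hgh, mul_pow, ← pow_mul, ← pow_mul, mul_comm M, MvPolynomial.C_pow]

/-- the system of the constant lines -/
def Sys.cst (Y : Sys ι) (c : ι → MvPolynomial (Fin n) ℤ) (hc : ∀ i, c i ≠ 0) : Sys ι where
  A := fun M b => Y.A M b ∧ M ≠ 0 ∧ CstPow M (prc c b)
  nz := fun M b h => Y.nz M b h.1
  sum := fun M b h => Y.sum M b h.1
  lvl := by
    intro M d _ _ h b
    rw [Y.lvl M d h b, cst_up h hc]
    simp only [ne_eq, NeZero.ne, not_false_eq_true, true_and]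
  unit := by
    rintro M t b ⟨h1, h2, h3⟩
    have : NeZero M := ⟨h2⟩
    exact ⟨Y.unit M t b h1, h2, cst_tb t hc h3⟩

end

end Pool.Agent.L0h11
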