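import Mathlib
import Pool.Agent.L0h11.Vt
import Pool.Agent.L0h11.Vf

/-!
# The sums over the points of the values of the lines
-/

set_option autoImplicit false
set_option linter.unusedSectionVars false

namespace Pool.Agent.L0h11

open Finset

section

variable {n : ℕ} {ι : Type} [Fintype ι]

/-- a specialization of the coefficients -/
structure Spec (c : ι → MvPolynomial (Fin n) ℤ) (D : ℕ) where
  r : ι → ℤ
  hr : ∀ i, r i ≠ 0
  H : MvPolynomial (Fin n) ℤ
  hH : H ≠ 0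
  N : ℕ
  hN : N ≠ 0
  ne : ∀ (F : Type) [Field F] (x : Fin n → F), evv x H ≠ 0 → ∀ i, evv x (c i) ≠ 0
  rne : ∀ (F : Type) [Field F], (N : F) ≠ 0 → ∀ i, ((r i : ℤ) : F) ≠ 0
  spec : ∀ d : ℕ, d ∣ D → d ≠ 0 → ∀ b : ι → ZMod d, CstPow d (prc c b) →
    ∀ (F : Type) [Field F] [Fintype F], (N : F) ≠ 0 → ∀ χ : MulChar F ℂ, χ ^ d = 1 →
      ∀ x : Fin n → F, evv x H ≠ 0 → χ (evv x (prc c b)) = χ (∏ i, ((r i : ℤ) : F) ^ (b i).val)

lemma natAbs_cast {F : Type} [Field F] {z : ℤ} (h : ((z.natAbs : ℕ) : F) ≠ 0) : (z : F) ≠ 0 := by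
  intro hz
  apply h
  obtain ⟨k, rfl | rfl⟩ := z.eq_nat_or_neg
  · simpa using hz
  · simpa using hz

lemma exists_Spec {c : ι → MvPolynomial (Fin n) ℤ} (hc : ∀ i, c i ≠ 0) {D : ℕ} (hD : 0 < D) :
    Nonempty (Spec c D) := by
  classical
  have hfin : ∀ d : {d // d ∈ D.divisors}, Fintype (ZMod d.1) := fun d =>
    @ZMod.fintype d.1 ⟨(Nat.pos_of_mem_divisors d.2).ne'⟩
  -- the witnesses
  have e1 : ∀ (d : {d // d ∈ D.divisors}) (b : ι → ZMod d.1), ∃ (u : ℤ)
      (g h : MvPolynomial (Fin n) ℤ), u ≠ 0 ∧ g ≠ 0 ∧ h ≠ 0 ∧ (CstPow d.1 (prc c b) →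
        prc c b * h ^ d.1 = MvPolynomial.C u * g ^ d.1) := by
    intro d b
    by_cases hq : CstPow d.1 (prc c b)
    · obtain ⟨u, hu, g, h, hg, hh, hgh⟩ := hq
      exact ⟨u, g, h, hu, hg, hh, fun _ => hgh⟩
    · exact ⟨1, 1, 1, one_ne_zero, one_ne_zero, one_ne_zero, fun h => absurd h hq⟩
  choose u g h hu hg hh hgh using e1
  set H : MvPolynomial (Fin n) ℤ := (∏ i, c i) * ∏ d : {d // d ∈ D.divisors},
    ∏ b : ι → ZMod d.1, (g d b * h d b) with hH
  have hH0 : H ≠ 0 := by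
    refine mul_ne_zero (prod_ne_zero_iff.2 fun i _ => hc i) (prod_ne_zero_iff.2 fun d _ =>
      prod_ne_zero_iff.2 fun b _ => mul_ne_zero (hg d b) (hh d b))
  have hHc : ∀ i, c i ∣ H := fun i => (dvd_prod_of_mem c (mem_univ i)).mul_right _
  have hHd : ∀ d b, g d b * h d b ∣ H := fun d b =>
    ((dvd_prod_of_mem (fun b => g d b * h d b) (mem_univ b)).trans
      (dvd_prod_of_mem (fun d => ∏ b : ι → ZMod d.1, (g d b * h d b)) (mem_univ d))).mul_left _
  obtain ⟨x₀, hx₀⟩ := exists_point hH0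
  have hdv : ∀ {f : MvPolynomial (Fin n) ℤ}, f ∣ H → MvPolynomial.eval x₀ f ≠ 0 := by
    rintro f ⟨f', hf'⟩ h0
    rw [hf', map_mul, h0, zero_mul] at hx₀
    exact hx₀ rfl
  have hdvF : ∀ {F : Type} [Field F] (x : Fin n → F), evv x H ≠ 0 →
      ∀ {f : MvPolynomial (Fin n) ℤ}, f ∣ H → evv x f ≠ 0 := by
    rintro F _ x hx f ⟨f', hf'⟩ h0
    rw [hf', map_mul, h0, zero_mul] at hx
    exact hx rfl
  have hdvN : ∀ {F : Type} [Field F], (((MvPolynomial.eval x₀ H).natAbs : ℕ) : F) ≠ 0 →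
      ∀ {f : MvPolynomial (Fin n) ℤ}, f ∣ H → ((MvPolynomial.eval x₀ f : ℤ) : F) ≠ 0 := by
    rintro F _ hx f ⟨f', hf'⟩ h0
    apply natAbs_cast hx
    rw [hf', map_mul, Int.cast_mul, h0, zero_mul]
  refine ⟨{
    r := fun i => MvPolynomial.eval x₀ (c i)
    hr := fun i => hdv (hHc i)
    H := H
    hH := hH0
    N := (MvPolynomial.eval x₀ H).natAbs
    hN := Int.natAbs_ne_zero.2 hx₀
    ne := fun F _ x hx i => hdvF x hx (hHc i)
    rne := fun F _ hF i => hdvN hF (hHc i)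
    spec := ?_ }⟩
  intro d hd hd0 b hq F _ _ hF χ hχ x hx
  have hdm : d ∈ D.divisors := Nat.mem_divisors.2 ⟨hd, hD.ne'⟩
  have h1 := hgh ⟨d, hdm⟩ b hq
  simp only at h1
  have hgF := hdvF x hx ((dvd_mul_right _ _).trans (hHd ⟨d, hdm⟩ b))
  have hhF := hdvF x hx ((dvd_mul_left _ _).trans (hHd ⟨d, hdm⟩ b))
  have hgN := hdvN hF ((dvd_mul_right _ _).trans (hHd ⟨d, hdm⟩ b))
  have hhN := hdvN hF ((dvd_mul_left _ _).trans (hHd ⟨d, hdm⟩ b))
  have hone : ∀ y : F, y ≠ 0 → χ (y ^ d) = 1 := by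
    intro y hy
    rw [map_pow, ← MulChar.pow_apply' χ hd0, hχ, MulChar.one_apply (isUnit_iff_ne_zero.2 hy)]
  have h2 := congrArg (fun p => χ (evv x p)) h1
  simp only [map_mul, map_pow] at h2
  rw [← map_pow χ, ← map_pow χ, hone _ hgF, hone _ hhF, mul_one, mul_one, evv_C] at h2
  have h3 := congrArg (fun p => χ ((MvPolynomial.eval x₀ p : ℤ) : F)) h1
  simp only [map_mul, map_pow, MvPolynomial.eval_C, Int.cast_mul, Int.cast_pow] at h3
  rw [← map_pow χ, ← map_pow χ, hone _ hgN, hone _ hhN, mul_one, mul_one] at h3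
  rw [h2, ← h3]
  congr 1
  unfold prc
  rw [map_prod, Int.cast_prod]
  refine prod_congr rfl fun i _ => ?_
  rw [map_pow, Int.cast_pow]

variable {c : ι → MvPolynomial (Fin n) ℤ} {D : ℕ}

lemma Spec.lam (sp : Spec c D) {d : ℕ} [NeZero d] (hd : d ∣ D) {b : ι → ZMod d}
    (hb : ∀ i, b i ≠ 0) (hq : CstPow d (prc c b)) {F : Type} [Field F] [Fintype F]
    (hF : (sp.N : F) ≠ 0) {w : F} (hw : IsPrimitiveRoot w d) (e : AddChar (ZMod d) ℂ)
    (ψ : AddChar F ℂ) (x : Fin n → F) (hx : evv x sp.H ≠ 0) :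
    lamF hw e ψ (fun i => evv x (c i)) b = Pool.Agent.L0h11.lam hw e ψ sp.r b := by
  rw [lam_eq_lamF, lamF_prod hw e ψ _ hb, lamF_prod hw e ψ _ hb,
    ← sp.spec d hd (NeZero.ne d) b hq F hF _ (chg_pow hw e) x hx]
  congr 2
  unfold prc
  rw [map_prod]
  exact prod_congr rfl fun i _ => (map_pow _ _ _).symm

open Classical in
/-- the asymptotic value of the sum over the points for a line -/
lemma line_asy (hc : ∀ i, c i ≠ 0) (sp : Spec c D) {N₁ : MvPolynomial (Fin n) ℤ} (hN₁ : N₁ ≠ 0) {d : ℕ} [NeZero d]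
    (hd : d ∣ D) (b : ι → ZMod d) (hb : ∀ i, b i ≠ 0) :
    ∃ (C : ℝ) (N : ℕ), 0 ≤ C ∧ N ≠ 0 ∧ ∀ (F : Type) [Field F] [Fintype F], (N : F) ≠ 0 →
      ∀ (w : F) (hw : IsPrimitiveRoot w d) (e : AddChar (ZMod d) ℂ), (∀ i, e i = 1 → i = 0) →
      ∀ ψ : AddChar F ℂ, ψ.IsPrimitive →
      ‖∑ x ∈ (univ : Finset (Fin n → F)).filter (fun x => evv x N₁ ≠ 0),
          lamF hw e ψ (fun i => evv x (c i)) b -
        (if CstPow d (prc c b) then (Fintype.card F : ℂ) ^ n * lam hw e ψ sp.r b else 0)‖ *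
          √(Fintype.card F : ℝ) ≤ C * (Fintype.card F : ℝ) ^ n := by
  by_cases hq : CstPow d (prc c b)
  · obtain ⟨N, hN, hz⟩ := zeros_le (mul_ne_zero hN₁ sp.hH)
    refine ⟨2 * (N₁ * sp.H).totalDegree, N * sp.N, by positivity, Nat.mul_ne_zero hN sp.hN, ?_⟩
    intro F _ _ hF w hw e he ψ hψ
    rw [Nat.cast_mul] at hF
    have hF1 := left_ne_zero_of_mul hF
    have hF2 := right_ne_zero_of_mul hF
    have hq0 : (0 : ℝ) < Fintype.card F := by exact_mod_cast Fintype.card_pos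
    have hq1 : (1 : ℝ) ≤ Fintype.card F := by exact_mod_cast Fintype.card_pos
    have hs : (0 : ℝ) ≤ √(Fintype.card F : ℝ) := Real.sqrt_nonneg _
    have hsq : √(Fintype.card F : ℝ) ≤ Fintype.card F := by
      rw [Real.sqrt_le_left hq0.le]
      nlinarith
    rw [if_pos hq]
    have h1 : (Fintype.card F : ℂ) ^ n * lam hw e ψ sp.r b =
        ∑ x : Fin n → F, lam hw e ψ sp.r b := by
      rw [sum_const, card_univ, Fintype.card_fun, Fintype.card_fin, nsmul_eq_mul]
      push_cast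
      rfl
    have h2 : ‖∑ x ∈ (univ : Finset (Fin n → F)).filter (fun x => evv x N₁ ≠ 0),
          lamF hw e ψ (fun i => evv x (c i)) b - (Fintype.card F : ℂ) ^ n * lam hw e ψ sp.r b‖ ≤
        2 * (((univ : Finset (Fin n → F)).filter fun x => evv x (N₁ * sp.H) = 0).card : ℝ) := by
      rw [h1, sum_filter, ← sum_sub_distrib]
      refine (norm_sum_le _ _).trans ?_
      have h3 : ∀ x : Fin n → F, ‖(if evv x N₁ ≠ 0 then lamF hw e ψ (fun i => evv x (c i)) b else 0) -
          lam hw e ψ sp.r b‖ ≤ if evv x (N₁ * sp.H) = 0 then 2 else 0 := by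
        intro x
        have e2 := norm_lam_le hw he hψ sp.r b
        by_cases hx : evv x (N₁ * sp.H) = 0
        · rw [if_pos hx]
          refine (norm_sub_le _ _).trans ?_
          have e1 : ‖(if evv x N₁ ≠ 0 then lamF hw e ψ (fun i => evv x (c i)) b else 0)‖ ≤ 1 := by
            split_ifs
            · exact norm_lamF_le hw he hψ _ b
            · rw [norm_zero]; exact zero_le_one
          linarith
        · rw [if_neg hx]
          rw [map_mul] at hx
          rw [if_pos (left_ne_zero_of_mul hx),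
            sp.lam hd hb hq hF2 hw e ψ x (right_ne_zero_of_mul hx), sub_self, norm_zero]
      refine (sum_le_sum fun x _ => h3 x).trans ?_
      rw [← sum_filter, sum_const, nsmul_eq_mul, mul_comm]
    have h5 := hz F hF1
    calc _ ≤ (2 * (((univ : Finset (Fin n → F)).filter fun x => evv x (N₁ * sp.H) = 0).card : ℝ)) *
          √(Fintype.card F : ℝ) := mul_le_mul_of_nonneg_right h2 hs
      _ = 2 * ((((univ : Finset (Fin n → F)).filter fun x => evv x (N₁ * sp.H) = 0).card : ℝ) *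
          √(Fintype.card F : ℝ)) := by ring
      _ ≤ 2 * ((((univ : Finset (Fin n → F)).filter fun x => evv x (N₁ * sp.H) = 0).card : ℝ) *
          Fintype.card F) := by gcongr
      _ ≤ 2 * ((N₁ * sp.H).totalDegree * (Fintype.card F : ℝ) ^ n) := by gcongr
      _ = _ := by ring
  · obtain ⟨C, N', hC, hN', hB⟩ := (charsum (NeZero.pos d) n (prc c b)
      (prod_ne_zero_iff.2 fun i _ => pow_ne_zero _ (hc i))).resolve_left hq
    obtain ⟨N, hN, hz⟩ := zeros_le hN₁
    refine ⟨C + N₁.totalDegree, N' * N, by positivity,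
      Nat.mul_ne_zero hN' hN, ?_⟩
    intro F _ _ hF w hw e he ψ hψ
    rw [Nat.cast_mul] at hF
    have hF1 := left_ne_zero_of_mul hF
    have hF2 := right_ne_zero_of_mul hF
    have hq0 : (0 : ℝ) < Fintype.card F := by exact_mod_cast Fintype.card_pos
    have hq1 : (1 : ℝ) ≤ Fintype.card F := by exact_mod_cast Fintype.card_pos
    have hs : (0 : ℝ) ≤ √(Fintype.card F : ℝ) := Real.sqrt_nonneg _
    have hsq : √(Fintype.card F : ℝ) ≤ Fintype.card F := by
      rw [Real.sqrt_le_left hq0.le]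
      nlinarith
    rw [if_neg hq, sub_zero]
    have h1 : ∀ x : Fin n → F, lamF hw e ψ (fun i => evv x (c i)) b =
        GP hw e ψ b * chg hw e (evv x (prc c b)) := by
      intro x
      rw [lamF_prod hw e ψ _ hb]
      congr 2
      unfold prc
      rw [map_prod]
      exact prod_congr rfl fun i _ => (map_pow _ _ _).symm
    have h2 := hB F hF1 (chg hw e) (chg_pow hw e) (fun j hj => chg_ord hw he j hj)
    have h3 : ‖∑ x : Fin n → F, lamF hw e ψ (fun i => evv x (c i)) b‖ =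
        ‖∑ x : Fin n → F, chg hw e (evv x (prc c b))‖ := by
      rw [sum_congr rfl fun x _ => h1 x, ← mul_sum, norm_mul, norm_GP hw he hψ, one_mul]
    have h4 : ‖∑ x ∈ (univ : Finset (Fin n → F)).filter (fun x => evv x N₁ ≠ 0),
        lamF hw e ψ (fun i => evv x (c i)) b‖ ≤
        ‖∑ x : Fin n → F, chg hw e (evv x (prc c b))‖ +
          (((univ : Finset (Fin n → F)).filter fun x => evv x N₁ = 0).card : ℝ) := by
      have e1 := sum_filter_add_sum_filter_not (univ : Finset (Fin n → F)) (fun x => evv x N₁ = 0)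
        (fun x => lamF hw e ψ (fun i => evv x (c i)) b)
      have e2 : ∑ x ∈ (univ : Finset (Fin n → F)).filter (fun x => evv x N₁ ≠ 0),
          lamF hw e ψ (fun i => evv x (c i)) b =
          ∑ x : Fin n → F, lamF hw e ψ (fun i => evv x (c i)) b -
          ∑ x ∈ (univ : Finset (Fin n → F)).filter (fun x => evv x N₁ = 0),
            lamF hw e ψ (fun i => evv x (c i)) b := by
        rw [← e1]
        ring
      rw [e2]
      refine (norm_sub_le _ _).trans (add_le_add (le_of_eq h3) ?_)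
      refine (norm_sum_le _ _).trans ?_
      refine (sum_le_sum fun x _ => norm_lamF_le hw he hψ _ b).trans ?_
      rw [sum_const, nsmul_eq_mul, mul_one]
    have h5 := hz F hF2
    calc _ ≤ (‖∑ x : Fin n → F, chg hw e (evv x (prc c b))‖ +
          (((univ : Finset (Fin n → F)).filter fun x => evv x N₁ = 0).card : ℝ)) *
          √(Fintype.card F : ℝ) := mul_le_mul_of_nonneg_right h4 hs
      _ = ‖∑ x : Fin n → F, chg hw e (evv x (prc c b))‖ * √(Fintype.card F : ℝ) +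
          (((univ : Finset (Fin n → F)).filter fun x => evv x N₁ = 0).card : ℝ) *
          √(Fintype.card F : ℝ) := by ring
      _ ≤ C * (Fintype.card F : ℝ) ^ n +
          (((univ : Finset (Fin n → F)).filter fun x => evv x N₁ = 0).card : ℝ) *
          Fintype.card F := by gcongr
      _ ≤ C * (Fintype.card F : ℝ) ^ n + N₁.totalDegree * (Fintype.card F : ℝ) ^ n := by gcongr
      _ = _ := by ring

end

end Pool.Agent.L0h11
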