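import Mathlib
import Pool.Agent.L0h11.Gb
import Pool.Agent.L0h11.Sy
import Pool.Agent.L0h11.Vl

/-!
# The constant lines and their specialization
-/

set_option autoImplicit false
set_option linter.all false

namespace Pool.Agent.L0h11

open Finset

/-- **The retraction** of a finitely generated subgroup of `K ^ *` to `ℚ ^ *` -/
theorem exists_retract {K : Type} [Field K] [CharZero K] (hreg : Reg K) {τ : Type} [Fintype τ]
    (z : τ → K) (hz : ∀ t, z t ≠ 0) : ∃ ρ : τ → ℚ, (∀ t, ρ t ≠ 0) ∧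
      ∀ (a : τ → ℤ) (u : ℚ), ∏ t, z t ^ a t = (u : K) → ∏ t, ρ t ^ a t = u := by
  classical
  let V := Additive Kˣ
  let zz : τ → V := fun t => Additive.ofMul (Units.mk0 (z t) (hz t))
  let f : (τ → ℤ) →ₗ[ℤ] V := Fintype.linearCombination ℤ zz
  let j : Additive ℚˣ →+ V := MonoidHom.toAdditive (Units.map (algebraMap ℚ K).toMonoidHom)
  have hj : ∀ u : ℚˣ, ((Additive.toMul (j (Additive.ofMul u)) : Kˣ) : K) = ((u : ℚ) : K) := fun u => rfl
  have hji : Function.Injective j := by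
    intro u v h
    apply Additive.toMul.injective
    apply Units.ext
    have h1 : (((Additive.toMul u : ℚˣ) : ℚ) : K) = (((Additive.toMul v : ℚˣ) : ℚ) : K) :=
      congrArg (fun w : V => ((Additive.toMul w : Kˣ) : K)) h
    exact Rat.cast_injective h1
  have hf : ∀ a : τ → ℤ, ((Additive.toMul (f a) : Kˣ) : K) = ∏ t, z t ^ a t := by
    intro a
    have h1 : f a = ∑ t, a t • zz t := Fintype.linearCombination_apply ℤ zz a
    rw [h1]
    rw [toMul_sum, Units.coe_prod]
    refine Finset.prod_congr rfl fun t _ => ?_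
    rw [toMul_zsmul, Units.val_zpow_eq_zpow_val]
    rfl
  let V₀ : Submodule ℤ V := j.range.toIntSubmodule
  have hV₀ : ∀ v : V, v ∈ V₀ ↔ ∃ u : ℚˣ, (((u : ℚ)) : K) = ((Additive.toMul v : Kˣ) : K) := by
    intro v
    constructor
    · rintro ⟨u, hu⟩
      exact ⟨Additive.toMul u, by rw [← hu]; rfl⟩
    · rintro ⟨u, hu⟩
      refine ⟨Additive.ofMul u, ?_⟩
      apply Additive.toMul.injective
      apply Units.ext
      exact hu
  let Λ : Submodule ℤ (τ → ℤ) := V₀.comap f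
  have htf : Module.IsTorsionFree ℤ ((τ → ℤ) ⧸ Λ) := by
    rw [Module.isTorsionFree_iff_smul_eq_zero]
    intro m x hx
    obtain ⟨a, rfl⟩ := Submodule.Quotient.mk_surjective _ x
    by_contra hcon
    push Not at hcon
    obtain ⟨hm, ha⟩ := hcon
    apply ha
    rw [Submodule.Quotient.mk_eq_zero]
    rw [← Submodule.Quotient.mk_smul, Submodule.Quotient.mk_eq_zero] at hx
    show f a ∈ V₀
    have h1 : f (m • a) ∈ V₀ := hx
    rw [map_zsmul, hV₀] at h1
    obtain ⟨u, hu⟩ := h1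
    rw [toMul_zsmul, Units.val_zpow_eq_zpow_val] at hu
    set y : K := ((Additive.toMul (f a) : Kˣ) : K) with hy
    have hy0 : y ≠ 0 := Units.ne_zero _
    have halg : IsAlgebraic ℚ y := by
      have h2 : IsAlgebraic ℚ (y ^ m) := by
        rw [← hu]
        exact isAlgebraic_algebraMap (R := ℚ) (A := K) (u : ℚ)
      rcases m with m | m
      · have hm0 : 0 < m := Nat.pos_of_ne_zero fun h0 => hm (by rw [h0]; rfl)
        have h3 : y ^ (Int.ofNat m) = y ^ m := zpow_natCast y m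
        rw [h3] at h2
        exact IsAlgebraic.of_pow hm0 h2
      · rw [zpow_negSucc] at h2
        exact IsAlgebraic.of_pow (Nat.succ_pos m) (IsAlgebraic.inv_iff.1 h2)
    obtain ⟨q, hq⟩ := hreg y halg
    rw [hV₀]
    refine ⟨Units.mk0 q ?_, hq⟩
    rintro rfl
    rw [Rat.cast_zero] at hq
    exact hy0 hq.symm
  have hfin : Module.Finite ℤ ((τ → ℤ) ⧸ Λ) := inferInstance
  have hfree : Module.Free ℤ ((τ → ℤ) ⧸ Λ) := inferInstance
  obtain ⟨s, hs⟩ := LinearMap.exists_rightInverse_of_surjective Λ.mkQ Λ.range_mkQ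
  have hmem : ∀ a : τ → ℤ, a - s (Λ.mkQ a) ∈ Λ := by
    intro a
    have h1 : Λ.mkQ (s (Λ.mkQ a)) = Λ.mkQ a := congrArg (fun g => g (Λ.mkQ a)) hs
    have h2 : Λ.mkQ (a - s (Λ.mkQ a)) = 0 := by rw [map_sub, h1, sub_self]
    exact (Submodule.Quotient.mk_eq_zero Λ).1 h2
  let π : (τ → ℤ) →ₗ[ℤ] V := f ∘ₗ (LinearMap.id - s ∘ₗ Λ.mkQ)
  have hπ : ∀ a, π a ∈ V₀ := fun a => hmem a
  have hπ2 : ∀ a, f a ∈ V₀ → π a = f a := by
    intro a ha
    have h1 : Λ.mkQ a = 0 := by
      rw [← LinearMap.mem_ker, Submodule.ker_mkQ]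
      exact ha
    show f (a - s (Λ.mkQ a)) = f a
    rw [h1, map_zero, sub_zero]
  have hch : ∀ t : τ, ∃ u : ℚˣ, j (Additive.ofMul u) = π (Pi.single t 1) := by
    intro t
    obtain ⟨u, hu⟩ := hπ (Pi.single t 1)
    exact ⟨Additive.toMul u, hu⟩
  choose ρ hρ using hch
  refine ⟨fun t => (ρ t : ℚ), fun t => (ρ t).ne_zero, ?_⟩
  intro a u hau
  have hu0 : u ≠ 0 := by
    rintro rfl
    rw [Rat.cast_zero] at hau
    exact (Finset.prod_ne_zero_iff.2 fun t _ => zpow_ne_zero _ (hz t)) hau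
  have h1 : f a = j (Additive.ofMul (Units.mk0 u hu0)) := by
    apply Additive.toMul.injective
    apply Units.ext
    rw [hf, hau]
    rfl
  have h2 : π a = f a := hπ2 a ((hV₀ _).2 ⟨Units.mk0 u hu0, by rw [h1]; rfl⟩)
  have h3 : π a = ∑ t, a t • π (Pi.single t 1) := by
    have h4 : a = ∑ t, a t • (Pi.single t (1 : ℤ) : τ → ℤ) := by
      funext t'
      simp [Finset.sum_apply, Pi.single_apply]
    conv_lhs => rw [h4]
    rw [map_sum]
    exact Finset.sum_congr rfl fun t _ => map_zsmul _ _ _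
  have h5 : j (∑ t, a t • Additive.ofMul (ρ t)) = j (Additive.ofMul (Units.mk0 u hu0)) := by
    rw [← h1, ← h2, h3, map_sum]
    refine Finset.sum_congr rfl fun t _ => ?_
    rw [map_zsmul, hρ]
  have h6 := hji h5
  have h7 := congrArg (fun w : Additive ℚˣ => ((Additive.toMul w : ℚˣ) : ℚ)) h6
  simp only [toMul_sum, toMul_zsmul, toMul_ofMul, Units.coe_prod, Units.val_zpow_eq_zpow_val,
    Units.val_mk0] at h7
  exact h7

end Pool.Agent.L0h11
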