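import Mathlib
import Pool.Agent.L0h11.Gc

/-!
# The constant lines and their specialization
-/

set_option autoImplicit false
set_option linter.all false

namespace Pool.Agent.L0h11.RG

open Finset
open Pool.Agent.L0h11

section

variable {R : Type} [CommRing R] [IsDomain R] [CharZero R]

lemma int_ne {u : ℤ} (hu : u ≠ 0) : (u : R) ≠ 0 := Int.cast_ne_zero.2 hu

/-- the change of the level -/
lemma cst_pow_iff (hreg : Reg (FractionRing R)) {k M : ℕ} (hk : 0 < k) (hM : 0 < M) {f : R}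
    (hf : f ≠ 0) : CstP (k * M) (f ^ k) ↔ CstP M f := by
  constructor
  · rintro ⟨u, hu, g, h, hg, hh, hgh⟩
    set K := FractionRing R with hK
    have inj := IsFractionRing.injective R K
    have hfK : algebraMap R K f ≠ 0 := (map_ne_zero_iff _ inj).2 hf
    have hgK : algebraMap R K g ≠ 0 := (map_ne_zero_iff _ inj).2 hg
    have hhK : algebraMap R K h ≠ 0 := (map_ne_zero_iff _ inj).2 hh
    set z : K := algebraMap R K f * algebraMap R K h ^ M / algebraMap R K g ^ M with hz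
    have h1 := congrArg (algebraMap R K) hgh
    rw [map_mul, map_mul, map_pow, map_pow, map_pow, map_intCast] at h1
    have h2 : z ^ k = ((u : ℚ) : K) := by
      rw [hz, div_pow, mul_pow, ← pow_mul, ← pow_mul, mul_comm M k, h1, mul_div_cancel_right₀ _
        (pow_ne_zero _ hgK)]
      push_cast
      rfl
    have h3 : IsAlgebraic ℚ z := IsAlgebraic.of_pow hk (by
      rw [h2]
      exact isAlgebraic_algebraMap (R := ℚ) (A := K) (u : ℚ))
    obtain ⟨q, hq⟩ := hreg z h3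
    have hz0 : z ≠ 0 := div_ne_zero (mul_ne_zero hfK (pow_ne_zero _ hhK)) (pow_ne_zero _ hgK)
    refine cst_of_field (K := K) hM (q := q) (κ := algebraMap R K g / algebraMap R K h)
      (by rw [hq]; exact hz0) (div_ne_zero hgK hhK) ?_
    rw [hq, hz, div_pow, div_mul_div_comm, mul_assoc, mul_comm (algebraMap R K g ^ M),
      mul_div_assoc, div_self (mul_ne_zero (pow_ne_zero _ hhK) (pow_ne_zero _ hgK)), mul_one]
  · rintro ⟨u, hu, g, h, hg, hh, hgh⟩
    refine ⟨u ^ k, pow_ne_zero _ hu, g, h, hg, hh, ?_⟩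
    rw [mul_comm k M, pow_mul, pow_mul, ← mul_pow, hgh, mul_pow, Int.cast_pow]

variable {ι : Type} [Fintype ι]

/-- the product of the powers of the coefficients -/
noncomputable def prc {M : ℕ} (c : ι → R) (b : ι → ZMod M) : R := ∏ i, c i ^ (b i).val

lemma prc_ne {M : ℕ} {c : ι → R} (hc : ∀ i, c i ≠ 0) (b : ι → ZMod M) :
    prc c b ≠ 0 := prod_ne_zero_iff.2 fun i _ => pow_ne_zero _ (hc i)

lemma prc_up {M d : ℕ} [NeZero M] [NeZero d] (h : M ∣ d) (c : ι → R)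
    (b : ι → ZMod M) : prc c (fun i => up h (b i)) = prc c b ^ (d / M) := by
  unfold prc
  rw [← prod_pow]
  refine prod_congr rfl fun i _ => ?_
  have h1 : (up h (b i)).val = (b i).val * (d / M) := by
    rw [up_apply, ← Nat.cast_mul, ZMod.val_natCast, Nat.mod_eq_of_lt]
    have h2 := ZMod.val_lt (b i)
    have h3 : M * (d / M) = d := Nat.mul_div_cancel' h
    have h4 : 0 < d / M := Nat.div_pos (Nat.le_of_dvd (NeZero.pos d) h) (NeZero.pos M)
    calc (b i).val * (d / M) < M * (d / M) := Nat.mul_lt_mul_of_pos_right h2 h4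
      _ = d := h3
  rw [h1, pow_mul]

lemma cst_up (hreg : Reg (FractionRing R)) {M d : ℕ} [NeZero M] [NeZero d] (h : M ∣ d) {c : ι → R}
    (hc : ∀ i, c i ≠ 0) (b : ι → ZMod M) :
    CstP d (prc c (fun i => up h (b i))) ↔ CstP M (prc c b) := by
  have h4 : 0 < d / M := Nat.div_pos (Nat.le_of_dvd (NeZero.pos d) h) (NeZero.pos M)
  rw [prc_up]
  have h5 := cst_pow_iff hreg h4 (NeZero.pos M) (prc_ne hc b)
  rwa [Nat.div_mul_cancel h] at h5

lemma cst_tb {M : ℕ} [NeZero M] (t : (ZMod M)ˣ) {c : ι → R}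
    (hc : ∀ i, c i ≠ 0) {b : ι → ZMod M} (h : CstP M (prc c b)) : CstP M (prc c (tb t b)) := by
  obtain ⟨u, hu, g, h, hg, hh, hgh⟩ := h
  have h1 : ∀ i, ∃ e : ℕ, (t : ZMod M).val * (b i).val = ((t : ZMod M) * b i).val + M * e := by
    intro i
    refine ⟨(t : ZMod M).val * (b i).val / M, ?_⟩
    rw [ZMod.val_mul]
    exact (Nat.mod_add_div _ _).symm
  choose e he using h1
  set E : R := ∏ i, c i ^ e i with hE
  have hE0 : E ≠ 0 := prod_ne_zero_iff.2 fun i _ => pow_ne_zero _ (hc i)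
  have h2 : prc c (tb t b) * E ^ M = prc c b ^ (t : ZMod M).val := by
    unfold prc tb
    rw [hE, ← prod_pow, ← prod_pow, ← prod_mul_distrib]
    refine prod_congr rfl fun i _ => ?_
    rw [← pow_mul, ← pow_mul, ← pow_add, mul_comm (e i) M, ← he i, mul_comm]
  refine ⟨u ^ (t : ZMod M).val, pow_ne_zero _ hu, g ^ (t : ZMod M).val, E * h ^ (t : ZMod M).val,
    pow_ne_zero _ hg, mul_ne_zero hE0 (pow_ne_zero _ hh), ?_⟩
  calc prc c (tb t b) * (E * h ^ (t : ZMod M).val) ^ M =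
      (prc c (tb t b) * E ^ M) * (h ^ M) ^ (t : ZMod M).val := by
        rw [mul_pow, ← pow_mul, ← pow_mul, mul_comm M]
        ring
    _ = (prc c b * h ^ M) ^ (t : ZMod M).val := by rw [h2, mul_pow]
    _ = ((u ^ (t : ZMod M).val : ℤ) : R) * (g ^ (t : ZMod M).val) ^ M := by
        rw [hgh, mul_pow, ← pow_mul, ← pow_mul, mul_comm M, Int.cast_pow]

/-- the system of the constant lines -/
def cst (hreg : Reg (FractionRing R)) (Y : Sys ι) (c : ι → R) (hc : ∀ i, c i ≠ 0) : Sys ι where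
  A := fun M b => Y.A M b ∧ M ≠ 0 ∧ CstP M (prc c b)
  nz := fun M b h => Y.nz M b h.1
  sum := fun M b h => Y.sum M b h.1
  lvl := by
    intro M d _ _ h b
    rw [Y.lvl M d h b, cst_up hreg h hc]
    simp only [ne_eq, NeZero.ne, not_false_eq_true, true_and]
  unit := by
    rintro M t b ⟨h1, h2, h3⟩
    have : NeZero M := ⟨h2⟩
    exact ⟨Y.unit M t b h1, h2, cst_tb t hc h3⟩

/-- a specialization of the coefficients -/
structure Spec (c : ι → R) (D : ℕ) where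
  r : ι → ℤ
  hr : ∀ i, r i ≠ 0
  H : R
  hH : H ≠ 0
  N : ℕ
  hN : N ≠ 0
  ne : ∀ (F : Type) [Field F] (φ : R →+* F), φ H ≠ 0 → ∀ i, φ (c i) ≠ 0
  rne : ∀ (F : Type) [Field F], (N : F) ≠ 0 → ∀ i, ((r i : ℤ) : F) ≠ 0
  spec : ∀ d : ℕ, d ∣ D → d ≠ 0 → ∀ b : ι → ZMod d, CstP d (prc c b) →
    ∀ (F : Type) [Field F] [Fintype F], (N : F) ≠ 0 → ∀ χ : MulChar F ℂ, χ ^ d = 1 →
      ∀ φ : R →+* F, φ H ≠ 0 → χ (φ (prc c b)) = χ (∏ i, ((r i : ℤ) : F) ^ (b i).val)

lemma exists_Spec (hreg : Reg (FractionRing R)) {c : ι → R} (hc : ∀ i, c i ≠ 0) {D : ℕ}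
    (hD : 0 < D) : Nonempty (Spec c D) := by
  classical
  have hfin : ∀ d : {d // d ∈ D.divisors}, Fintype (ZMod d.1) := fun d =>
    @ZMod.fintype d.1 ⟨(Nat.pos_of_mem_divisors d.2).ne'⟩
  set K := FractionRing R with hK
  have inj := IsFractionRing.injective R K
  -- the witnesses
  have e1 : ∀ (d : {d // d ∈ D.divisors}) (b : ι → ZMod d.1), ∃ (u : ℤ)
      (g h : R), u ≠ 0 ∧ g ≠ 0 ∧ h ≠ 0 ∧ (CstP d.1 (prc c b) →
        prc c b * h ^ d.1 = (u : R) * g ^ d.1) := by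
    intro d b
    by_cases hq : CstP d.1 (prc c b)
    · obtain ⟨u, hu, g, h, hg, hh, hgh⟩ := hq
      exact ⟨u, g, h, hu, hg, hh, fun _ => hgh⟩
    · exact ⟨1, 1, 1, one_ne_zero, one_ne_zero, one_ne_zero, fun h => absurd h hq⟩
  choose u g h hu hg hh hgh using e1
  set H : R := (∏ i, c i) * ∏ d : {d // d ∈ D.divisors},
    ∏ b : ι → ZMod d.1, (g d b * h d b) with hH
  have hH0 : H ≠ 0 := by
    refine mul_ne_zero (prod_ne_zero_iff.2 fun i _ => hc i) (prod_ne_zero_iff.2 fun d _ =>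
      prod_ne_zero_iff.2 fun b _ => mul_ne_zero (hg d b) (hh d b))
  have hHc : ∀ i, c i ∣ H := fun i => (dvd_prod_of_mem c (mem_univ i)).mul_right _
  have hHd : ∀ d b, g d b * h d b ∣ H := fun d b =>
    ((dvd_prod_of_mem (fun b => g d b * h d b) (mem_univ b)).trans
      (dvd_prod_of_mem (fun d => ∏ b : ι → ZMod d.1, (g d b * h d b)) (mem_univ d))).mul_left _
  -- the retraction
  let τ := ι ⊕ (Σ d : {d // d ∈ D.divisors}, (ι → ZMod d.1))
  let z : τ → K := Sum.elim (fun i => algebraMap R K (c i))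
    (fun w => algebraMap R K (g w.1 w.2) / algebraMap R K (h w.1 w.2))
  have hz : ∀ t, z t ≠ 0 := by
    rintro (i | w)
    · exact (map_ne_zero_iff _ inj).2 (hc i)
    · exact div_ne_zero ((map_ne_zero_iff _ inj).2 (hg _ _)) ((map_ne_zero_iff _ inj).2 (hh _ _))
  obtain ⟨ρ, hρ, hρu⟩ := exists_retract hreg z hz
  -- integral values
  let r : ι → ℤ := fun i => (ρ (Sum.inl i)).num * ((ρ (Sum.inl i)).den : ℤ) ^ (D - 1)
  have hden : ∀ q : ℚ, (q.den : ℤ) ≠ 0 := fun q => by exact_mod_cast q.den_nz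
  have hr : ∀ i, r i ≠ 0 := fun i => mul_ne_zero (Rat.num_ne_zero.2 (hρ _)) (pow_ne_zero _ (hden _))
  have hrq : ∀ i, (r i : ℚ) = ρ (Sum.inl i) * ((ρ (Sum.inl i)).den : ℚ) ^ D := by
    intro i
    have h1 : (((ρ (Sum.inl i)).den : ℕ) : ℚ) ≠ 0 := by exact_mod_cast (ρ (Sum.inl i)).den_nz
    have h2 : (((ρ (Sum.inl i)).den : ℕ) : ℚ) ^ D = ((ρ (Sum.inl i)).den : ℚ) ^ (D - 1) *
        ((ρ (Sum.inl i)).den : ℚ) := by
      rw [← pow_succ, Nat.sub_add_cancel hD]
    have h3 : (ρ (Sum.inl i)) * ((ρ (Sum.inl i)).den : ℚ) = (ρ (Sum.inl i)).num :=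
      Rat.mul_den_eq_num _
    rw [h2, mul_comm (((ρ (Sum.inl i)).den : ℚ) ^ (D - 1)), ← mul_assoc, h3]
    show (((ρ (Sum.inl i)).num * ((ρ (Sum.inl i)).den : ℤ) ^ (D - 1) : ℤ) : ℚ) = _
    push_cast
    rfl
  have e2 : ∀ (d : {d // d ∈ D.divisors}) (b : ι → ZMod d.1), ∃ s t : ℤ, s ≠ 0 ∧ t ≠ 0 ∧
      (CstP d.1 (prc c b) → (∏ i, r i ^ (b i).val) * t ^ d.1 = u d b * s ^ d.1) := by
    intro d b
    by_cases hq : CstP d.1 (prc c b)
    · have h1 := hgh d b hq
      let a : τ → ℤ := Sum.elim (fun i => ((b i).val : ℤ))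
        (fun w => if w = ⟨d, b⟩ then -(d.1 : ℤ) else 0)
      have ha1 : a (Sum.inr ⟨d, b⟩) = -(d.1 : ℤ) := if_pos rfl
      have ha2 : ∀ w : Σ d : {d // d ∈ D.divisors}, (ι → ZMod d.1), w ≠ ⟨d, b⟩ →
          a (Sum.inr w) = 0 := fun w hw => if_neg hw
      have hDD : ∀ v : ℕ, D * v = v * (D / d.1 * d.1) := by
        intro v
        rw [Nat.div_mul_cancel (Nat.dvd_of_mem_divisors d.2), mul_comm]
      have h2 : ∏ t, z t ^ a t = (((u d b : ℤ) : ℚ) : K) := by
        rw [Fintype.prod_sum_type]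
        have e3 : ∏ w : (Σ d : {d // d ∈ D.divisors}, (ι → ZMod d.1)), z (Sum.inr w) ^ a (Sum.inr w) =
            (algebraMap R K (g d b) / algebraMap R K (h d b)) ^ (-(d.1 : ℤ)) := by
          rw [Finset.prod_eq_single (⟨d, b⟩ : Σ d : {d // d ∈ D.divisors}, (ι → ZMod d.1))]
          · rw [ha1]
            rfl
          · intro w _ hw
            rw [ha2 w hw, zpow_zero]
          · intro hw
            exact absurd (mem_univ _) hw
        have e4 : ∏ i, z (Sum.inl i) ^ a (Sum.inl i) = algebraMap R K (prc c b) := by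
          unfold prc
          rw [map_prod]
          refine prod_congr rfl fun i _ => ?_
          show algebraMap R K (c i) ^ (((b i).val : ℕ) : ℤ) = _
          rw [zpow_natCast, map_pow]
        rw [e3, e4, zpow_neg, zpow_natCast, div_pow, inv_div]
        have hgK : algebraMap R K (g d b) ≠ 0 := (map_ne_zero_iff _ inj).2 (hg _ _)
        have h4 := congrArg (algebraMap R K) h1
        rw [map_mul, map_mul, map_pow, map_pow, map_intCast] at h4
        rw [← mul_div_assoc, h4, mul_div_cancel_right₀ _ (pow_ne_zero _ hgK)]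
        push_cast
        rfl
      have h5 := hρu a _ h2
      have h6 : (∏ i, ρ (Sum.inl i) ^ (b i).val) = ((u d b : ℤ) : ℚ) * ρ (Sum.inr ⟨d, b⟩) ^ d.1 := by
        rw [Fintype.prod_sum_type] at h5
        have e3 : ∏ w : (Σ d : {d // d ∈ D.divisors}, (ι → ZMod d.1)), ρ (Sum.inr w) ^ a (Sum.inr w) =
            ρ (Sum.inr ⟨d, b⟩) ^ (-(d.1 : ℤ)) := by
          rw [Finset.prod_eq_single (⟨d, b⟩ : Σ d : {d // d ∈ D.divisors}, (ι → ZMod d.1))]
          · rw [ha1]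
          · intro w _ hw
            rw [ha2 w hw, zpow_zero]
          · intro hw
            exact absurd (mem_univ _) hw
        have e4 : ∏ i, ρ (Sum.inl i) ^ a (Sum.inl i) = ∏ i, ρ (Sum.inl i) ^ (b i).val := by
          refine prod_congr rfl fun i _ => ?_
          show ρ (Sum.inl i) ^ (((b i).val : ℕ) : ℤ) = _
          rw [zpow_natCast]
        rw [e3, e4, zpow_neg, zpow_natCast] at h5
        rw [← h5, mul_assoc, inv_mul_cancel₀ (pow_ne_zero _ (hρ _)), mul_one]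
      let P : ℚ := (∏ i, ((ρ (Sum.inl i)).den : ℚ) ^ (b i).val) ^ (D / d.1)
      let w : ℚ := ρ (Sum.inr ⟨d, b⟩) * P
      have hP0 : P ≠ 0 := pow_ne_zero _ (prod_ne_zero_iff.2 fun i _ => pow_ne_zero _ (by
        exact_mod_cast (ρ (Sum.inl i)).den_nz))
      have hw0 : w ≠ 0 := mul_ne_zero (hρ _) hP0
      refine ⟨w.num, w.den, Rat.num_ne_zero.2 hw0, hden w, fun _ => ?_⟩
      have h7 : (∏ i, (r i : ℚ) ^ (b i).val) = ((u d b : ℤ) : ℚ) * w ^ d.1 := by
        have e5 : ∀ i, (r i : ℚ) ^ (b i).val = ρ (Sum.inl i) ^ (b i).val *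
            ((((ρ (Sum.inl i)).den : ℚ) ^ (b i).val) ^ (D / d.1)) ^ d.1 := by
          intro i
          rw [hrq i, mul_pow, ← pow_mul, ← pow_mul, ← pow_mul, hDD]
        rw [prod_congr rfl fun i _ => e5 i, prod_mul_distrib, h6, prod_pow, prod_pow]
        show _ = ((u d b : ℤ) : ℚ) * (ρ (Sum.inr ⟨d, b⟩) * P) ^ d.1
        rw [mul_pow, mul_assoc]
      have h8 : w * (w.den : ℚ) = w.num := Rat.mul_den_eq_num _
      have h9 : ((∏ i, (r i : ℚ) ^ (b i).val)) * (w.den : ℚ) ^ d.1 =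
          ((u d b : ℤ) : ℚ) * (w.num : ℚ) ^ d.1 := by
        rw [h7, mul_assoc, ← mul_pow, h8]
      exact_mod_cast h9
    · exact ⟨1, 1, one_ne_zero, one_ne_zero, fun h => absurd h hq⟩
  choose s t hs ht hst using e2
  let Z : ℤ := (∏ i, r i) * ∏ d : {d // d ∈ D.divisors}, ∏ b : ι → ZMod d.1, (s d b * t d b)
  have hZ0 : Z ≠ 0 := mul_ne_zero (prod_ne_zero_iff.2 fun i _ => hr i) (prod_ne_zero_iff.2 fun d _ =>
      prod_ne_zero_iff.2 fun b _ => mul_ne_zero (hs d b) (ht d b))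
  have hZr : ∀ i, r i ∣ Z := fun i => (dvd_prod_of_mem r (mem_univ i)).mul_right _
  have hZd : ∀ d b, s d b * t d b ∣ Z := fun d b =>
    ((dvd_prod_of_mem (fun b => s d b * t d b) (mem_univ b)).trans
      (dvd_prod_of_mem (fun d => ∏ b : ι → ZMod d.1, (s d b * t d b)) (mem_univ d))).mul_left _
  have hdv : ∀ {F : Type} [Field F] (φ : R →+* F), φ H ≠ 0 → ∀ {f : R}, f ∣ H → φ f ≠ 0 := by
    rintro F _ φ hx f ⟨f', hf'⟩ h0
    rw [hf', map_mul, h0, zero_mul] at hx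
    exact hx rfl
  have hdvN : ∀ {F : Type} [Field F], ((Z.natAbs : ℕ) : F) ≠ 0 →
      ∀ {f : ℤ}, f ∣ Z → (f : F) ≠ 0 := by
    rintro F _ hx f ⟨f', hf'⟩ h0
    apply natAbs_cast hx
    rw [hf', Int.cast_mul, h0, zero_mul]
  refine ⟨{
    r := r
    hr := hr
    H := H
    hH := hH0
    N := Z.natAbs
    hN := Int.natAbs_ne_zero.2 hZ0
    ne := fun F _ φ hφ i => hdv φ hφ (hHc i)
    rne := fun F _ hF i => hdvN hF (hZr i)
    spec := ?_ }⟩
  intro d hd hd0 b hq F _ _ hF χ hχ φ hφ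
  have hdm : d ∈ D.divisors := Nat.mem_divisors.2 ⟨hd, hD.ne'⟩
  have h1 := hgh ⟨d, hdm⟩ b hq
  have h1' := hst ⟨d, hdm⟩ b hq
  simp only at h1 h1'
  have hgF := hdv φ hφ ((dvd_mul_right _ _).trans (hHd ⟨d, hdm⟩ b))
  have hhF := hdv φ hφ ((dvd_mul_left _ _).trans (hHd ⟨d, hdm⟩ b))
  have hsN := hdvN hF ((dvd_mul_right _ _).trans (hZd ⟨d, hdm⟩ b))
  have htN := hdvN hF ((dvd_mul_left _ _).trans (hZd ⟨d, hdm⟩ b))
  have hone : ∀ y : F, y ≠ 0 → χ (y ^ d) = 1 := by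
    intro y hy
    rw [map_pow, ← MulChar.pow_apply' χ hd0, hχ, MulChar.one_apply (isUnit_iff_ne_zero.2 hy)]
  have h2 := congrArg (fun p => χ (φ p)) h1
  simp only [map_mul, map_pow, map_intCast] at h2
  rw [← map_pow χ, ← map_pow χ, hone _ hgF, hone _ hhF, mul_one, mul_one] at h2
  have h3 := congrArg (fun p : ℤ => χ (p : F)) h1'
  simp only [Int.cast_mul, Int.cast_pow, map_mul, map_pow] at h3
  rw [← map_pow χ, ← map_pow χ, hone _ hsN, hone _ htN, mul_one, mul_one] at h3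
  rw [h2, ← h3]
  congr 1
  rw [Int.cast_prod]
  exact prod_congr rfl fun i _ => Int.cast_pow _ _

end

end Pool.Agent.L0h11.RG
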