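import Mathlib
import Pool.Agent.L0h11.Vl
import Pool.Agent.L0h11.Fam

/-!
# The sums over the points of the values of families of systems of lines
-/

set_option autoImplicit false
set_option linter.unusedSectionVars false

namespace Pool.Agent.L0h11

open Finset

section

variable {n : ℕ} {ι : Type} [Fintype ι] {c : ι → MvPolynomial (Fin n) ℤ} {D : ℕ}

lemma cast_ne_of_dvd {F : Type} [Field F] {a b : ℕ} (h : a ∣ b) (hb : (b : F) ≠ 0) : (a : F) ≠ 0 := by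
  obtain ⟨k, rfl⟩ := h
  rw [Nat.cast_mul] at hb
  exact left_ne_zero_of_mul hb

open Classical in
lemma sys_asy_d (Y : Sys ι) (hc : ∀ i, c i ≠ 0) (sp : Spec c D)
    {N₁ : MvPolynomial (Fin n) ℤ} (hN₁ : N₁ ≠ 0) (d : ℕ) [NeZero d] (hd : d ∣ D) :
    ∃ (C : ℝ) (N : ℕ), 0 ≤ C ∧ N ≠ 0 ∧ ∀ (F : Type) [Field F] [Fintype F], (N : F) ≠ 0 →
      ∀ (w : F) (hw : IsPrimitiveRoot w d) (e : AddChar (ZMod d) ℂ), (∀ i, e i = 1 → i = 0) →
      ∀ ψ : AddChar F ℂ, ψ.IsPrimitive →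
      ‖∑ x ∈ (univ : Finset (Fin n → F)).filter (fun x => evv x N₁ ≠ 0),
          ∑ b ∈ Y.L d, lamF hw e ψ (fun i => evv x (c i)) b -
        (Fintype.card F : ℂ) ^ n * ∑ b ∈ (Y.cst c hc).L d, lam hw e ψ sp.r b‖ *
          √(Fintype.card F : ℝ) ≤ C * (Fintype.card F : ℝ) ^ n := by
  have e1 : ∀ (b : ι → ZMod d), ∃ (C : ℝ) (N : ℕ), 0 ≤ C ∧ N ≠ 0 ∧
      ((∀ i, b i ≠ 0) → ∀ (F : Type) [Field F] [Fintype F], (N : F) ≠ 0 →
      ∀ (w : F) (hw : IsPrimitiveRoot w d) (e : AddChar (ZMod d) ℂ),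
      (∀ i, e i = 1 → i = 0) → ∀ ψ : AddChar F ℂ, ψ.IsPrimitive →
      ‖∑ x ∈ (univ : Finset (Fin n → F)).filter (fun x => evv x N₁ ≠ 0),
          lamF hw e ψ (fun i => evv x (c i)) b -
        (if CstPow d (prc c b) then (Fintype.card F : ℂ) ^ n * lam hw e ψ sp.r b else 0)‖ *
          √(Fintype.card F : ℝ) ≤ C * (Fintype.card F : ℝ) ^ n) := by
    intro b
    by_cases hb : ∀ i, b i ≠ 0
    · obtain ⟨C, N, h1, h2, h3⟩ := line_asy hc sp hN₁ hd b hb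
      exact ⟨C, N, h1, h2, fun _ => h3⟩
    · exact ⟨0, 1, le_rfl, one_ne_zero, fun h => absurd h hb⟩
  choose C N hC0 hN0 hB using e1
  refine ⟨∑ b, C b, ∏ b, N b, sum_nonneg fun b _ => hC0 b, prod_ne_zero_iff.2 fun b _ => hN0 b, ?_⟩
  intro F _ _ hF w hw e he ψ hψ
  have hs : (0 : ℝ) ≤ √(Fintype.card F : ℝ) := Real.sqrt_nonneg _
  have h1 : ∑ b ∈ (Y.cst c hc).L d, lam hw e ψ sp.r b =
      ∑ b ∈ Y.L d, if CstPow d (prc c b) then lam hw e ψ sp.r b else 0 := by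
    rw [← sum_filter]
    refine sum_congr ?_ fun _ _ => rfl
    ext b
    rw [mem_filter, Sys.mem_L, Sys.mem_L]
    constructor
    · rintro ⟨h1, -, h3⟩
      exact ⟨h1, h3⟩
    · rintro ⟨h1, h3⟩
      exact ⟨h1, NeZero.ne d, h3⟩
  rw [h1, sum_comm, mul_sum, ← sum_sub_distrib]
  have h2 : ∀ b ∈ Y.L d, ‖∑ x ∈ (univ : Finset (Fin n → F)).filter (fun x => evv x N₁ ≠ 0),
      lamF hw e ψ (fun i => evv x (c i)) b -
      (Fintype.card F : ℂ) ^ n * (if CstPow d (prc c b) then lam hw e ψ sp.r b else 0)‖ *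
        √(Fintype.card F : ℝ) ≤ C b * (Fintype.card F : ℝ) ^ n := by
    intro b hb
    rw [mul_ite, mul_zero]
    exact hB b (Y.nz d b ((Y.mem_L b).1 hb)) F
      (cast_ne_of_dvd (dvd_prod_of_mem N (mem_univ b)) hF) w hw e he ψ hψ
  calc _ ≤ (∑ b ∈ Y.L d, ‖∑ x ∈ (univ : Finset (Fin n → F)).filter (fun x => evv x N₁ ≠ 0),
      lamF hw e ψ (fun i => evv x (c i)) b -
      (Fintype.card F : ℂ) ^ n * (if CstPow d (prc c b) then lam hw e ψ sp.r b else 0)‖) *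
        √(Fintype.card F : ℝ) := mul_le_mul_of_nonneg_right (norm_sum_le _ _) hs
    _ ≤ ∑ b ∈ Y.L d, C b * (Fintype.card F : ℝ) ^ n := by
        rw [sum_mul]
        exact sum_le_sum h2
    _ ≤ ∑ b, C b * (Fintype.card F : ℝ) ^ n :=
        sum_le_sum_of_subset_of_nonneg (subset_univ _) fun b _ _ =>
          mul_nonneg (hC0 _) (by positivity)
    _ = (∑ b, C b) * (Fintype.card F : ℝ) ^ n := by rw [← sum_mul]

open Classical in
lemma sys_asy (Y : Sys ι) (hc : ∀ i, c i ≠ 0) (hD : 0 < D) (sp : Spec c D)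
    {N₁ : MvPolynomial (Fin n) ℤ} (hN₁ : N₁ ≠ 0) :
    ∃ (C : ℝ) (N : ℕ), 0 ≤ C ∧ N ≠ 0 ∧ ∀ (F : Type) [Field F] [Fintype F], (N : F) ≠ 0 →
      ∀ (d : ℕ) [NeZero d], d ∣ D →
      ∀ (w : F) (hw : IsPrimitiveRoot w d) (e : AddChar (ZMod d) ℂ), (∀ i, e i = 1 → i = 0) →
      ∀ ψ : AddChar F ℂ, ψ.IsPrimitive →
      ‖∑ x ∈ (univ : Finset (Fin n → F)).filter (fun x => evv x N₁ ≠ 0),
          ∑ b ∈ Y.L d, lamF hw e ψ (fun i => evv x (c i)) b -
        (Fintype.card F : ℂ) ^ n * ∑ b ∈ (Y.cst c hc).L d, lam hw e ψ sp.r b‖ *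
          √(Fintype.card F : ℝ) ≤ C * (Fintype.card F : ℝ) ^ n := by
  have e1 : ∀ d : {d // d ∈ D.divisors}, ∃ (C : ℝ) (N : ℕ), 0 ≤ C ∧ N ≠ 0 ∧
      ∀ [NeZero d.1] (F : Type) [Field F] [Fintype F], (N : F) ≠ 0 →
      ∀ (w : F) (hw : IsPrimitiveRoot w d.1) (e : AddChar (ZMod d.1) ℂ), (∀ i, e i = 1 → i = 0) →
      ∀ ψ : AddChar F ℂ, ψ.IsPrimitive →
      ‖∑ x ∈ (univ : Finset (Fin n → F)).filter (fun x => evv x N₁ ≠ 0),
          ∑ b ∈ Y.L d.1, lamF hw e ψ (fun i => evv x (c i)) b -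
        (Fintype.card F : ℂ) ^ n * ∑ b ∈ (Y.cst c hc).L d.1, lam hw e ψ sp.r b‖ *
          √(Fintype.card F : ℝ) ≤ C * (Fintype.card F : ℝ) ^ n := by
    intro d
    have : NeZero d.1 := ⟨(Nat.pos_of_mem_divisors d.2).ne'⟩
    obtain ⟨C, N, h1, h2, h3⟩ := sys_asy_d Y hc sp hN₁ d.1 (Nat.dvd_of_mem_divisors d.2)
    exact ⟨C, N, h1, h2, fun F _ _ hF w hw e he ψ hψ => h3 F hF w hw e he ψ hψ⟩
  choose C N hC0 hN0 hB using e1
  refine ⟨∑ d, C d, ∏ d, N d, sum_nonneg fun d _ => hC0 d, prod_ne_zero_iff.2 fun d _ => hN0 d, ?_⟩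
  intro F _ _ hF d _ hd w hw e he ψ hψ
  have hdm : d ∈ D.divisors := Nat.mem_divisors.2 ⟨hd, hD.ne'⟩
  have h1 := hB ⟨d, hdm⟩ F (cast_ne_of_dvd (dvd_prod_of_mem N (mem_univ _)) hF) w hw e he ψ hψ
  refine h1.trans (mul_le_mul_of_nonneg_right ?_ (by positivity))
  exact single_le_sum (f := C) (fun d _ => hC0 d) (mem_univ (⟨d, hdm⟩ : {d // d ∈ D.divisors}))

end

section

variable {n : ℕ} {κ : Type} [Fintype κ] {ι : κ → Type} [∀ x, Fintype (ι x)]
  (sys : ∀ x, Sys (ι x)) (mult : κ → ℕ) (D a : ℕ)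

/-- the sum of the normalised values of the lines -/
noncomputable def famSumF {F : Type} [Field F] [Fintype F] (co : ∀ x, ι x → F) {d : ℕ} [NeZero d]
    {w : F} (hw : IsPrimitiveRoot w d) (e : AddChar (ZMod d) ℂ) (ψ : AddChar F ℂ) : ℂ :=
  (a : ℂ) + ∑ x, (mult x : ℂ) * ∑ b ∈ (sys x).L d, lamF hw e ψ (co x) b

lemma famSumF_le (hD : 0 < D) {F : Type} [Field F] [Fintype F] (co : ∀ x, ι x → F) {d : ℕ} [NeZero d]
    (hd : d = Nat.gcd D (Fintype.card F - 1)) {w : F}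
    (hw : IsPrimitiveRoot w d) {e : AddChar (ZMod d) ℂ} (he : ∀ i, e i = 1 → i = 0)
    {ψ : AddChar F ℂ} (hψ : ψ.IsPrimitive) :
    ‖famSumF sys mult a co hw e ψ‖ ≤ famBnd ι mult D a := by
  classical
  unfold famSumF famBnd
  refine (norm_add_le _ _).trans (add_le_add ?_ ?_)
  · rw [Complex.norm_natCast]
  · refine (norm_sum_le _ _).trans (Finset.sum_le_sum fun x _ => ?_)
    rw [norm_mul, Complex.norm_natCast]
    refine mul_le_mul_of_nonneg_left ?_ (Nat.cast_nonneg _)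
    refine (norm_sum_le _ _).trans ?_
    refine (Finset.sum_le_sum fun b _ => norm_lamF_le hw he hψ (co x) b).trans ?_
    rw [sum_const, nsmul_eq_mul, mul_one]
    have h3 : ((sys x).L d).card ≤ d ^ (Fintype.card (ι x)) := by
      refine (card_le_univ _).trans ?_
      rw [Fintype.card_fun, ZMod.card]
    have h4 : d ^ (Fintype.card (ι x)) ≤ D ^ (Fintype.card (ι x)) := by
      apply Nat.pow_le_pow_left
      rw [hd]
      exact Nat.le_of_dvd hD (Nat.gcd_dvd_left _ _)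
    exact_mod_cast h3.trans h4

variable {sys mult D a} {co : ∀ x, ι x → MvPolynomial (Fin n) ℤ}

open Classical in
lemma fam_asy (hco : ∀ x i, co x i ≠ 0) (hD : 0 < D) (sp : ∀ x, Spec (co x) D)
    {N₁ : MvPolynomial (Fin n) ℤ} (hN₁ : N₁ ≠ 0) :
    ∃ (C : ℝ) (N : ℕ), 0 ≤ C ∧ N ≠ 0 ∧ ∀ (F : Type) [Field F] [Fintype F], (N : F) ≠ 0 →
      ∀ (d : ℕ) [NeZero d], d ∣ D →
      ∀ (w : F) (hw : IsPrimitiveRoot w d) (e : AddChar (ZMod d) ℂ), (∀ i, e i = 1 → i = 0) →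
      ∀ ψ : AddChar F ℂ, ψ.IsPrimitive →
      ‖∑ x ∈ (univ : Finset (Fin n → F)).filter (fun x => evv x N₁ ≠ 0),
          famSumF sys mult a (fun y i => evv x (co y i)) hw e ψ -
        (Fintype.card F : ℂ) ^ n * famSum (fun y => (sys y).cst (co y) (hco y)) mult
          (fun y => (sp y).r) a hw e ψ‖ *
          √(Fintype.card F : ℝ) ≤ C * (Fintype.card F : ℝ) ^ n := by
  have e1 := fun y => sys_asy (sys y) (hco y) hD (sp y) hN₁
  choose C N hC0 hN0 hB using e1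
  obtain ⟨N', hN', hz⟩ := zeros_le hN₁
  refine ⟨a * N₁.totalDegree + ∑ y, (mult y : ℝ) * C y, N' * ∏ y, N y,
    add_nonneg (by positivity) (sum_nonneg fun y _ => mul_nonneg (Nat.cast_nonneg _) (hC0 y)),
    Nat.mul_ne_zero hN' (prod_ne_zero_iff.2 fun y _ => hN0 y), ?_⟩
  intro F _ _ hF d _ hd w hw e he ψ hψ
  rw [Nat.cast_mul] at hF
  have hF1 := left_ne_zero_of_mul hF
  have hF2 := right_ne_zero_of_mul hF
  have hq0 : (0 : ℝ) < Fintype.card F := by exact_mod_cast Fintype.card_pos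
  have hq1 : (1 : ℝ) ≤ Fintype.card F := by exact_mod_cast Fintype.card_pos
  have hs : (0 : ℝ) ≤ √(Fintype.card F : ℝ) := Real.sqrt_nonneg _
  have hsq : √(Fintype.card F : ℝ) ≤ Fintype.card F := by
    rw [Real.sqrt_le_left hq0.le]
    nlinarith
  set T := (univ : Finset (Fin n → F)).filter (fun x => evv x N₁ ≠ 0) with hT
  have h1 : ∑ x ∈ T, famSumF sys mult a (fun y i => evv x (co y i)) hw e ψ -
        (Fintype.card F : ℂ) ^ n * famSum (fun y => (sys y).cst (co y) (hco y)) mult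
          (fun y => (sp y).r) a hw e ψ =
      (a : ℂ) * ((T.card : ℂ) - (Fintype.card F : ℂ) ^ n) +
      ∑ y, (mult y : ℂ) * (∑ x ∈ T, ∑ b ∈ (sys y).L d, lamF hw e ψ (fun i => evv x (co y i)) b -
        (Fintype.card F : ℂ) ^ n * ∑ b ∈ ((sys y).cst (co y) (hco y)).L d,
          lam hw e ψ (sp y).r b) := by
    unfold famSumF famSum
    simp_rw [mul_sub]
    rw [sum_add_distrib, sum_const, nsmul_eq_mul, mul_add, mul_sum, sum_sub_distrib, sum_comm]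
    simp_rw [mul_sum]
    have h2 : ∀ y, ∑ x ∈ T, ∑ b ∈ (sys y).L d,
        (mult y : ℂ) * lamF hw e ψ (fun i => evv x (co y i)) b =
        ∑ x ∈ T, ∑ b ∈ (sys y).L d, (mult y : ℂ) * lamF hw e ψ (fun i => evv x (co y i)) b :=
      fun y => rfl
    have h3 : ∀ y, ∑ b ∈ ((sys y).cst (co y) (hco y)).L d,
        (Fintype.card F : ℂ) ^ n * ((mult y : ℂ) * lam hw e ψ (sp y).r b) =
        ∑ b ∈ ((sys y).cst (co y) (hco y)).L d,
        (mult y : ℂ) * ((Fintype.card F : ℂ) ^ n * lam hw e ψ (sp y).r b) :=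
      fun y => sum_congr rfl fun b _ => by ring
    rw [sum_congr rfl fun y _ => h3 y]
    ring
  have h2 : ‖(a : ℂ) * ((T.card : ℂ) - (Fintype.card F : ℂ) ^ n)‖ * √(Fintype.card F : ℝ) ≤
      a * N₁.totalDegree * (Fintype.card F : ℝ) ^ n := by
    have e2 : (T.card : ℂ) + (((univ : Finset (Fin n → F)).filter fun x => evv x N₁ = 0).card : ℂ) =
        (Fintype.card F : ℂ) ^ n := by
      have e3 := card_filter_add_card_filter_not (s := (univ : Finset (Fin n → F)))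
        (fun x => evv x N₁ ≠ 0)
      simp only [not_not] at e3
      rw [card_univ, Fintype.card_fun, Fintype.card_fin] at e3
      exact_mod_cast e3
    have e4 : (T.card : ℂ) - (Fintype.card F : ℂ) ^ n =
        -(((univ : Finset (Fin n → F)).filter fun x => evv x N₁ = 0).card : ℂ) := by
      rw [← e2]
      ring
    rw [e4, norm_mul, norm_neg, Complex.norm_natCast, Complex.norm_natCast, mul_assoc, mul_assoc]
    refine mul_le_mul_of_nonneg_left ?_ (Nat.cast_nonneg _)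
    exact (mul_le_mul_of_nonneg_left hsq (Nat.cast_nonneg _)).trans (hz F hF1)
  have h3 : ∀ y, ‖(mult y : ℂ) * (∑ x ∈ T, ∑ b ∈ (sys y).L d,
      lamF hw e ψ (fun i => evv x (co y i)) b - (Fintype.card F : ℂ) ^ n *
        ∑ b ∈ ((sys y).cst (co y) (hco y)).L d, lam hw e ψ (sp y).r b)‖ *
        √(Fintype.card F : ℝ) ≤ (mult y : ℝ) * C y * (Fintype.card F : ℝ) ^ n := by
    intro y
    rw [norm_mul, Complex.norm_natCast, mul_assoc, mul_assoc]
    refine mul_le_mul_of_nonneg_left ?_ (Nat.cast_nonneg _)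
    exact hB y F (cast_ne_of_dvd (dvd_prod_of_mem N (mem_univ y)) hF2) d hd w hw e he ψ hψ
  rw [h1]
  calc _ ≤ (‖(a : ℂ) * ((T.card : ℂ) - (Fintype.card F : ℂ) ^ n)‖ +
      ∑ y, ‖(mult y : ℂ) * (∑ x ∈ T, ∑ b ∈ (sys y).L d,
      lamF hw e ψ (fun i => evv x (co y i)) b - (Fintype.card F : ℂ) ^ n *
        ∑ b ∈ ((sys y).cst (co y) (hco y)).L d, lam hw e ψ (sp y).r b)‖) *
        √(Fintype.card F : ℝ) := by
        refine mul_le_mul_of_nonneg_right ?_ hs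
        exact (norm_add_le _ _).trans (add_le_add_right (norm_sum_le _ _) _)
    _ ≤ a * N₁.totalDegree * (Fintype.card F : ℝ) ^ n +
        ∑ y, (mult y : ℝ) * C y * (Fintype.card F : ℝ) ^ n := by
        rw [add_mul, sum_mul]
        exact add_le_add h2 (sum_le_sum fun y _ => h3 y)
    _ = _ := by rw [add_mul, sum_mul]

end

end Pool.Agent.L0h11
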