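import Mathlib
import Pool.Agent.L0h11.Gd
import Pool.Agent.L0h11.Vm

/-!
# The sums over the points of the values of families of systems of lines
-/

set_option autoImplicit false
set_option linter.all false

namespace Pool.Agent.L0h11.RG

open Finset
open Pool.Agent.L0h11

section

variable {R : Type} [CommRing R] [IsDomain R] [CharZero R] [hft : Algebra.FiniteType ℤ R] {n : ℕ}

/-- the sum over the points -/
noncomputable def PS {F : Type} [Field F] (N₁ : R) (g : (R →+* F) → ℂ) : ℂ :=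
  ∑ᶠ φ : {φ : R →+* F // φ N₁ ≠ 0}, g φ.1

variable {F : Type} [Field F] [Finite F]

open Classical in
lemma PS_eq (N₁ : R) (g : (R →+* F) → ℂ) [Fintype (R →+* F)] :
    PS N₁ g = ∑ φ ∈ (univ : Finset (R →+* F)).filter (fun φ => φ N₁ ≠ 0), g φ :=
  fin_sum (fun φ : R →+* F => φ N₁ ≠ 0) g

lemma PS_sum (N₁ : R) {κ : Type} (s : Finset κ) (g : κ → (R →+* F) → ℂ) :
    PS N₁ (fun φ => ∑ b ∈ s, g b φ) = ∑ b ∈ s, PS N₁ (g b) := by
  classical
  let _ : Fintype (R →+* F) := Fintype.ofFinite _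
  simp only [PS_eq]
  exact sum_comm

lemma PS_mul (N₁ : R) (a : ℂ) (g : (R →+* F) → ℂ) :
    PS N₁ (fun φ => a * g φ) = a * PS N₁ g := by
  classical
  let _ : Fintype (R →+* F) := Fintype.ofFinite _
  simp only [PS_eq, mul_sum]

lemma PS_add (N₁ : R) (g g' : (R →+* F) → ℂ) :
    PS N₁ (fun φ => g φ + g' φ) = PS N₁ g + PS N₁ g' := by
  classical
  let _ : Fintype (R →+* F) := Fintype.ofFinite _
  simp only [PS_eq, sum_add_distrib]

lemma PS_const (N₁ : R) (a : ℂ) :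
    PS N₁ (fun _ : R →+* F => a) = (Nat.card {φ : R →+* F // φ N₁ ≠ 0} : ℂ) * a := by
  classical
  let _ : Fintype (R →+* F) := Fintype.ofFinite _
  rw [PS_eq, card_filter', sum_const, nsmul_eq_mul]

lemma PS_congr (N₁ : R) {g g' : (R →+* F) → ℂ} (h : ∀ φ, φ N₁ ≠ 0 → g φ = g' φ) :
    PS N₁ g = PS N₁ g' := finsum_congr fun φ => h φ.1 φ.2

end

section

variable {R : Type} [CommRing R] [IsDomain R] [CharZero R] [hft : Algebra.FiniteType ℤ R] {n : ℕ}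
  {ι : Type} [Fintype ι] {c : ι → R} {D : ℕ}

lemma map_prc {F : Type} [Field F] {d : ℕ} (φ : R →+* F) (b : ι → ZMod d) :
    φ (prc c b) = ∏ i, φ (c i) ^ (b i).val := by
  unfold prc
  rw [map_prod]
  exact prod_congr rfl fun i _ => map_pow _ _ _

lemma Spec.lam (sp : Spec c D) {d : ℕ} [NeZero d] (hd : d ∣ D) {b : ι → ZMod d}
    (hb : ∀ i, b i ≠ 0) (hq : CstP d (prc c b)) {F : Type} [Field F] [Fintype F]
    (hF : (sp.N : F) ≠ 0) {w : F} (hw : IsPrimitiveRoot w d) (e : AddChar (ZMod d) ℂ)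
    (ψ : AddChar F ℂ) (φ : R →+* F) (hx : φ sp.H ≠ 0) :
    lamF hw e ψ (fun i => φ (c i)) b = Pool.Agent.L0h11.lam hw e ψ sp.r b := by
  rw [lam_eq_lamF, lamF_prod hw e ψ _ hb, lamF_prod hw e ψ _ hb,
    ← sp.spec d hd (NeZero.ne d) b hq F hF _ (chg_pow hw e) φ hx, map_prc]

lemma chg_orderOf {F : Type} [Field F] [Fintype F] {d : ℕ} [NeZero d] {w : F}
    (hw : IsPrimitiveRoot w d) {e : AddChar (ZMod d) ℂ}
    (he : ∀ i, e i = 1 → i = 0) : orderOf (chg hw e) = d :=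
  Nat.dvd_antisymm (orderOf_dvd_of_pow_eq_one (chg_pow hw e))
    (chg_ord hw he _ (pow_orderOf_eq_one _))

open Classical in
/-- the asymptotic value of the sum over the points for a line -/
lemma line_asy (htr : Algebra.trdeg ℚ (FractionRing R) = n) (hreg : Reg (FractionRing R))
    (hc : ∀ i, c i ≠ 0) (sp : Spec c D) {N₁ : R} (hN₁ : N₁ ≠ 0) {d : ℕ} [NeZero d]
    (hd : d ∣ D) (b : ι → ZMod d) (hb : ∀ i, b i ≠ 0) :
    ∃ (C : ℝ) (N : ℕ), 0 ≤ C ∧ N ≠ 0 ∧ ∀ (F : Type) [Field F] [Fintype F], (N : F) ≠ 0 →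
      ∀ (w : F) (hw : IsPrimitiveRoot w d) (e : AddChar (ZMod d) ℂ), (∀ i, e i = 1 → i = 0) →
      ∀ ψ : AddChar F ℂ, ψ.IsPrimitive →
      ‖PS N₁ (fun φ : R →+* F => lamF hw e ψ (fun i => φ (c i)) b) -
        (if CstP d (prc c b) then (Fintype.card F : ℂ) ^ n * lam hw e ψ sp.r b else 0)‖ *
          √(Fintype.card F : ℝ) ≤ C * (Fintype.card F : ℝ) ^ n := by
  by_cases hq : CstP d (prc c b)
  · have hne : sp.H * N₁ ≠ 0 := mul_ne_zero sp.hH hN₁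
    obtain ⟨C, N, hC, hN, g⟩ := pts_R htr hreg hne
    obtain ⟨C', N', hC', hN', g'⟩ := zeros_R htr hne
    refine ⟨C + C', N * N' * sp.N, by positivity, mul_ne_zero (mul_ne_zero hN hN') sp.hN, ?_⟩
    intro F _ _ hF w hw e he ψ hψ
    rw [Nat.cast_mul, Nat.cast_mul] at hF
    have hF1 := left_ne_zero_of_mul (left_ne_zero_of_mul hF)
    have hF2 := right_ne_zero_of_mul (left_ne_zero_of_mul hF)
    have hF3 := right_ne_zero_of_mul hF
    rw [if_pos hq, ← Nat.card_eq_fintype_card]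
    have h1 := g F hF1
    have h2 := g' F hF2
    have h3 := shrink (k := F) sp.H N₁ (fun φ => lamF hw e ψ (fun i => φ (c i)) b)
      (fun φ => norm_lamF_le hw he hψ _ b)
    have h4 : PS (sp.H * N₁) (fun φ : R →+* F => lamF hw e ψ (fun i => φ (c i)) b) =
        (Nat.card {φ : R →+* F // φ (sp.H * N₁) ≠ 0} : ℂ) * Pool.Agent.L0h11.lam hw e ψ sp.r b := by
      rw [← PS_const]
      refine PS_congr _ fun φ hφ => ?_
      rw [map_mul] at hφ
      exact sp.lam hd hb hq hF3 hw e ψ φ (left_ne_zero_of_mul hφ)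
    have h5 : PS N₁ (fun φ : R →+* F => lamF hw e ψ (fun i => φ (c i)) b) -
        (Nat.card F : ℂ) ^ n * Pool.Agent.L0h11.lam hw e ψ sp.r b =
        (PS N₁ (fun φ : R →+* F => lamF hw e ψ (fun i => φ (c i)) b) -
          PS (sp.H * N₁) (fun φ : R →+* F => lamF hw e ψ (fun i => φ (c i)) b)) +
        ((Nat.card {φ : R →+* F // φ (sp.H * N₁) ≠ 0} : ℂ) - (Nat.card F : ℂ) ^ n) *
          Pool.Agent.L0h11.lam hw e ψ sp.r b := by
      rw [h4]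
      ring
    rw [h5]
    have hs0 : 0 ≤ √(Nat.card F : ℝ) := Real.sqrt_nonneg _
    have hsq : √(Nat.card F : ℝ) ≤ Nat.card F := sqrt_le_self'
    have h6 : ‖((Nat.card {φ : R →+* F // φ (sp.H * N₁) ≠ 0} : ℂ) - (Nat.card F : ℂ) ^ n) *
          Pool.Agent.L0h11.lam hw e ψ sp.r b‖ ≤
        ‖(Nat.card {φ : R →+* F // φ (sp.H * N₁) ≠ 0} : ℂ) - (Nat.card F : ℂ) ^ n‖ := by
      rw [norm_mul]
      exact mul_le_of_le_one_right (norm_nonneg _) (norm_lam_le hw he hψ sp.r b)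
    calc _ ≤ ((Nat.card {φ : R →+* F // φ (sp.H * N₁) = 0} : ℝ) +
          ‖(Nat.card {φ : R →+* F // φ (sp.H * N₁) ≠ 0} : ℂ) - (Nat.card F : ℂ) ^ n‖) *
            √(Nat.card F : ℝ) :=
          mul_le_mul_of_nonneg_right ((norm_add_le _ _).trans (add_le_add h3 h6)) hs0
      _ ≤ (Nat.card {φ : R →+* F // φ (sp.H * N₁) = 0} : ℝ) * Nat.card F +
          ‖(Nat.card {φ : R →+* F // φ (sp.H * N₁) ≠ 0} : ℂ) - (Nat.card F : ℂ) ^ n‖ *
            √(Nat.card F : ℝ) := by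
          rw [add_mul]
          exact add_le_add (mul_le_mul_of_nonneg_left hsq (Nat.cast_nonneg _)) le_rfl
      _ ≤ C' * (Nat.card F : ℝ) ^ n + C * (Nat.card F : ℝ) ^ n := add_le_add h2 h1
      _ = _ := by ring
  · obtain ⟨C, N, hC, hN, hB⟩ := (dich htr hreg (NeZero.pos d) (prc_ne hc b)).resolve_left hq N₁ hN₁
    refine ⟨C, N, hC, hN, ?_⟩
    intro F _ _ hF w hw e he ψ hψ
    rw [if_neg hq, sub_zero]
    have h1 : PS N₁ (fun φ : R →+* F => lamF hw e ψ (fun i => φ (c i)) b) =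
        GP hw e ψ b * PS N₁ (fun φ : R →+* F => chg hw e (φ (prc c b))) := by
      rw [← PS_mul]
      refine PS_congr _ fun φ _ => ?_
      rw [lamF_prod hw e ψ _ hb, map_prc]
    rw [h1, norm_mul, norm_GP hw he hψ, one_mul, ← Nat.card_eq_fintype_card]
    exact hB F hF (chg hw e) (chg_orderOf hw he)

open Classical in
lemma sys_asy_d (htr : Algebra.trdeg ℚ (FractionRing R) = n) (hreg : Reg (FractionRing R))
    (Y : Sys ι) (hc : ∀ i, c i ≠ 0) (sp : Spec c D)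
    {N₁ : R} (hN₁ : N₁ ≠ 0) (d : ℕ) [NeZero d] (hd : d ∣ D) :
    ∃ (C : ℝ) (N : ℕ), 0 ≤ C ∧ N ≠ 0 ∧ ∀ (F : Type) [Field F] [Fintype F], (N : F) ≠ 0 →
      ∀ (w : F) (hw : IsPrimitiveRoot w d) (e : AddChar (ZMod d) ℂ), (∀ i, e i = 1 → i = 0) →
      ∀ ψ : AddChar F ℂ, ψ.IsPrimitive →
      ‖PS N₁ (fun φ : R →+* F => ∑ b ∈ Y.L d, lamF hw e ψ (fun i => φ (c i)) b) -
        (Fintype.card F : ℂ) ^ n * ∑ b ∈ (cst hreg Y c hc).L d, lam hw e ψ sp.r b‖ *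
          √(Fintype.card F : ℝ) ≤ C * (Fintype.card F : ℝ) ^ n := by
  have e1 : ∀ (b : ι → ZMod d), ∃ (C : ℝ) (N : ℕ), 0 ≤ C ∧ N ≠ 0 ∧
      ((∀ i, b i ≠ 0) → ∀ (F : Type) [Field F] [Fintype F], (N : F) ≠ 0 →
      ∀ (w : F) (hw : IsPrimitiveRoot w d) (e : AddChar (ZMod d) ℂ),
      (∀ i, e i = 1 → i = 0) → ∀ ψ : AddChar F ℂ, ψ.IsPrimitive →
      ‖PS N₁ (fun φ : R →+* F => lamF hw e ψ (fun i => φ (c i)) b) -
        (if CstP d (prc c b) then (Fintype.card F : ℂ) ^ n * lam hw e ψ sp.r b else 0)‖ *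
          √(Fintype.card F : ℝ) ≤ C * (Fintype.card F : ℝ) ^ n) := by
    intro b
    by_cases hb : ∀ i, b i ≠ 0
    · obtain ⟨C, N, h1, h2, h3⟩ := line_asy htr hreg hc sp hN₁ hd b hb
      exact ⟨C, N, h1, h2, fun _ => h3⟩
    · exact ⟨0, 1, le_rfl, one_ne_zero, fun h => absurd h hb⟩
  choose C N hC0 hN0 hB using e1
  refine ⟨∑ b, C b, ∏ b, N b, sum_nonneg fun b _ => hC0 b, prod_ne_zero_iff.2 fun b _ => hN0 b, ?_⟩
  intro F _ _ hF w hw e he ψ hψ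
  have hs : (0 : ℝ) ≤ √(Fintype.card F : ℝ) := Real.sqrt_nonneg _
  have h1 : ∑ b ∈ (cst hreg Y c hc).L d, lam hw e ψ sp.r b =
      ∑ b ∈ Y.L d, if CstP d (prc c b) then lam hw e ψ sp.r b else 0 := by
    rw [← sum_filter]
    refine sum_congr ?_ fun _ _ => rfl
    ext b
    rw [mem_filter, Sys.mem_L, Sys.mem_L]
    constructor
    · rintro ⟨h1, -, h3⟩
      exact ⟨h1, h3⟩
    · rintro ⟨h1, h3⟩
      exact ⟨h1, NeZero.ne d, h3⟩
  rw [h1, PS_sum, mul_sum, ← sum_sub_distrib]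
  have h2 : ∀ b ∈ Y.L d, ‖PS N₁ (fun φ : R →+* F => lamF hw e ψ (fun i => φ (c i)) b) -
      (Fintype.card F : ℂ) ^ n * (if CstP d (prc c b) then lam hw e ψ sp.r b else 0)‖ *
        √(Fintype.card F : ℝ) ≤ C b * (Fintype.card F : ℝ) ^ n := by
    intro b hb
    rw [mul_ite, mul_zero]
    exact hB b (Y.nz d b ((Y.mem_L b).1 hb)) F
      (cast_ne_of_dvd (dvd_prod_of_mem N (mem_univ b)) hF) w hw e he ψ hψ
  calc _ ≤ (∑ b ∈ Y.L d, ‖PS N₁ (fun φ : R →+* F => lamF hw e ψ (fun i => φ (c i)) b) -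
      (Fintype.card F : ℂ) ^ n * (if CstP d (prc c b) then lam hw e ψ sp.r b else 0)‖) *
        √(Fintype.card F : ℝ) := mul_le_mul_of_nonneg_right (norm_sum_le _ _) hs
    _ ≤ ∑ b ∈ Y.L d, C b * (Fintype.card F : ℝ) ^ n := by
        rw [sum_mul]
        exact sum_le_sum h2
    _ ≤ ∑ b, C b * (Fintype.card F : ℝ) ^ n :=
        sum_le_sum_of_subset_of_nonneg (subset_univ _) fun b _ _ =>
          mul_nonneg (hC0 _) (by positivity)
    _ = (∑ b, C b) * (Fintype.card F : ℝ) ^ n := by rw [← sum_mul]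

open Classical in
lemma sys_asy (htr : Algebra.trdeg ℚ (FractionRing R) = n) (hreg : Reg (FractionRing R))
    (Y : Sys ι) (hc : ∀ i, c i ≠ 0) (hD : 0 < D) (sp : Spec c D)
    {N₁ : R} (hN₁ : N₁ ≠ 0) :
    ∃ (C : ℝ) (N : ℕ), 0 ≤ C ∧ N ≠ 0 ∧ ∀ (F : Type) [Field F] [Fintype F], (N : F) ≠ 0 →
      ∀ (d : ℕ) [NeZero d], d ∣ D →
      ∀ (w : F) (hw : IsPrimitiveRoot w d) (e : AddChar (ZMod d) ℂ), (∀ i, e i = 1 → i = 0) →
      ∀ ψ : AddChar F ℂ, ψ.IsPrimitive →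
      ‖PS N₁ (fun φ : R →+* F => ∑ b ∈ Y.L d, lamF hw e ψ (fun i => φ (c i)) b) -
        (Fintype.card F : ℂ) ^ n * ∑ b ∈ (cst hreg Y c hc).L d, lam hw e ψ sp.r b‖ *
          √(Fintype.card F : ℝ) ≤ C * (Fintype.card F : ℝ) ^ n := by
  have e1 : ∀ d : {d // d ∈ D.divisors}, ∃ (C : ℝ) (N : ℕ), 0 ≤ C ∧ N ≠ 0 ∧
      ∀ [NeZero d.1] (F : Type) [Field F] [Fintype F], (N : F) ≠ 0 →
      ∀ (w : F) (hw : IsPrimitiveRoot w d.1) (e : AddChar (ZMod d.1) ℂ), (∀ i, e i = 1 → i = 0) →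
      ∀ ψ : AddChar F ℂ, ψ.IsPrimitive →
      ‖PS N₁ (fun φ : R →+* F => ∑ b ∈ Y.L d.1, lamF hw e ψ (fun i => φ (c i)) b) -
        (Fintype.card F : ℂ) ^ n * ∑ b ∈ (cst hreg Y c hc).L d.1, lam hw e ψ sp.r b‖ *
          √(Fintype.card F : ℝ) ≤ C * (Fintype.card F : ℝ) ^ n := by
    intro d
    have : NeZero d.1 := ⟨(Nat.pos_of_mem_divisors d.2).ne'⟩
    obtain ⟨C, N, h1, h2, h3⟩ := sys_asy_d htr hreg Y hc sp hN₁ d.1 (Nat.dvd_of_mem_divisors d.2)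
    exact ⟨C, N, h1, h2, fun F _ _ hF w hw e he ψ hψ => h3 F hF w hw e he ψ hψ⟩
  choose C N hC0 hN0 hB using e1
  refine ⟨∑ d, C d, ∏ d, N d, sum_nonneg fun d _ => hC0 d, prod_ne_zero_iff.2 fun d _ => hN0 d, ?_⟩
  intro F _ _ hF d _ hd w hw e he ψ hψ
  have hdm : d ∈ D.divisors := Nat.mem_divisors.2 ⟨hd, hD.ne'⟩
  have h1 := hB ⟨d, hdm⟩ F (cast_ne_of_dvd (dvd_prod_of_mem N (mem_univ _)) hF) w hw e he ψ hψ
  refine h1.trans (mul_le_mul_of_nonneg_right ?_ (by positivity))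
  exact single_le_sum (f := C) (fun d _ => hC0 d) (mem_univ (⟨d, hdm⟩ : {d // d ∈ D.divisors}))

end

section

variable {R : Type} [CommRing R] [IsDomain R] [CharZero R] [hft : Algebra.FiniteType ℤ R] {n : ℕ}
  {κ : Type} [Fintype κ] {ι : κ → Type} [∀ x, Fintype (ι x)]
  {sys : ∀ x, Sys (ι x)} {mult : κ → ℕ} {D a : ℕ} {co : ∀ x, ι x → R}

open Classical in
lemma fam_asy (htr : Algebra.trdeg ℚ (FractionRing R) = n) (hreg : Reg (FractionRing R))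
    (hco : ∀ x i, co x i ≠ 0) (hD : 0 < D) (sp : ∀ x, Spec (co x) D)
    {N₁ : R} (hN₁ : N₁ ≠ 0) :
    ∃ (C : ℝ) (N : ℕ), 0 ≤ C ∧ N ≠ 0 ∧ ∀ (F : Type) [Field F] [Fintype F], (N : F) ≠ 0 →
      ∀ (d : ℕ) [NeZero d], d ∣ D →
      ∀ (w : F) (hw : IsPrimitiveRoot w d) (e : AddChar (ZMod d) ℂ), (∀ i, e i = 1 → i = 0) →
      ∀ ψ : AddChar F ℂ, ψ.IsPrimitive →
      ‖PS N₁ (fun φ : R →+* F => famSumF sys mult a (fun y i => φ (co y i)) hw e ψ) -
        (Fintype.card F : ℂ) ^ n * famSum (fun y => cst hreg (sys y) (co y) (hco y)) mult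
          (fun y => (sp y).r) a hw e ψ‖ *
          √(Fintype.card F : ℝ) ≤ C * (Fintype.card F : ℝ) ^ n := by
  have e1 := fun y => sys_asy htr hreg (sys y) (hco y) hD (sp y) hN₁
  choose C N hC0 hN0 hB using e1
  obtain ⟨C', N', hC', hN', hz⟩ := pts_R htr hreg hN₁
  refine ⟨a * C' + ∑ y, (mult y : ℝ) * C y, N' * ∏ y, N y,
    add_nonneg (by positivity) (sum_nonneg fun y _ => mul_nonneg (Nat.cast_nonneg _) (hC0 y)),
    Nat.mul_ne_zero hN' (prod_ne_zero_iff.2 fun y _ => hN0 y), ?_⟩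
  intro F _ _ hF d _ hd w hw e he ψ hψ
  rw [Nat.cast_mul] at hF
  have hF1 := left_ne_zero_of_mul hF
  have hF2 := right_ne_zero_of_mul hF
  have hs : (0 : ℝ) ≤ √(Fintype.card F : ℝ) := Real.sqrt_nonneg _
  have h1 : PS N₁ (fun φ : R →+* F => famSumF sys mult a (fun y i => φ (co y i)) hw e ψ) -
        (Fintype.card F : ℂ) ^ n * famSum (fun y => cst hreg (sys y) (co y) (hco y)) mult
          (fun y => (sp y).r) a hw e ψ =
      (a : ℂ) * ((Nat.card {φ : R →+* F // φ N₁ ≠ 0} : ℂ) - (Fintype.card F : ℂ) ^ n) +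
      ∑ y, (mult y : ℂ) * (PS N₁ (fun φ : R →+* F =>
        ∑ b ∈ (sys y).L d, lamF hw e ψ (fun i => φ (co y i)) b) -
        (Fintype.card F : ℂ) ^ n * ∑ b ∈ (cst hreg (sys y) (co y) (hco y)).L d,
          lam hw e ψ (sp y).r b) := by
    unfold famSumF famSum
    rw [PS_add, PS_const, PS_sum]
    simp_rw [PS_mul, mul_sub]
    rw [sum_sub_distrib, mul_add, mul_sum]
    have h3 : ∀ y, (Fintype.card F : ℂ) ^ n * ((mult y : ℂ) *
        ∑ b ∈ (cst hreg (sys y) (co y) (hco y)).L d, lam hw e ψ (sp y).r b) =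
        (mult y : ℂ) * ((Fintype.card F : ℂ) ^ n *
          ∑ b ∈ (cst hreg (sys y) (co y) (hco y)).L d, lam hw e ψ (sp y).r b) :=
      fun y => by ring
    rw [sum_congr rfl fun y _ => h3 y]
    ring
  have h2 : ‖(a : ℂ) * ((Nat.card {φ : R →+* F // φ N₁ ≠ 0} : ℂ) - (Fintype.card F : ℂ) ^ n)‖ *
      √(Fintype.card F : ℝ) ≤ a * C' * (Fintype.card F : ℝ) ^ n := by
    rw [norm_mul, Complex.norm_natCast, mul_assoc, mul_assoc]
    refine mul_le_mul_of_nonneg_left ?_ (Nat.cast_nonneg _)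
    have h3 := hz F hF1
    rwa [Nat.card_eq_fintype_card (α := F)] at h3
  have h3 : ∀ y, ‖(mult y : ℂ) * (PS N₁ (fun φ : R →+* F => ∑ b ∈ (sys y).L d,
      lamF hw e ψ (fun i => φ (co y i)) b) - (Fintype.card F : ℂ) ^ n *
        ∑ b ∈ (cst hreg (sys y) (co y) (hco y)).L d, lam hw e ψ (sp y).r b)‖ *
        √(Fintype.card F : ℝ) ≤ (mult y : ℝ) * C y * (Fintype.card F : ℝ) ^ n := by
    intro y
    rw [norm_mul, Complex.norm_natCast, mul_assoc, mul_assoc]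
    refine mul_le_mul_of_nonneg_left ?_ (Nat.cast_nonneg _)
    exact hB y F (cast_ne_of_dvd (dvd_prod_of_mem N (mem_univ y)) hF2) d hd w hw e he ψ hψ
  rw [h1]
  calc _ ≤ (‖(a : ℂ) * ((Nat.card {φ : R →+* F // φ N₁ ≠ 0} : ℂ) - (Fintype.card F : ℂ) ^ n)‖ +
      ∑ y, ‖(mult y : ℂ) * (PS N₁ (fun φ : R →+* F => ∑ b ∈ (sys y).L d,
      lamF hw e ψ (fun i => φ (co y i)) b) - (Fintype.card F : ℂ) ^ n *
        ∑ b ∈ (cst hreg (sys y) (co y) (hco y)).L d, lam hw e ψ (sp y).r b)‖) *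
        √(Fintype.card F : ℝ) := by
        refine mul_le_mul_of_nonneg_right ?_ hs
        exact (norm_add_le _ _).trans (add_le_add_right (norm_sum_le _ _) _)
    _ ≤ a * C' * (Fintype.card F : ℝ) ^ n +
        ∑ y, (mult y : ℝ) * C y * (Fintype.card F : ℝ) ^ n := by
        rw [add_mul, sum_mul]
        exact add_le_add h2 (sum_le_sum fun y _ => h3 y)
    _ = _ := by rw [add_mul, sum_mul]

end

end Pool.Agent.L0h11.RG
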