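import Mathlib

/-!
# Lines with trivial Galois action over a finitely generated field: the definition
-/

set_option autoImplicit false

namespace Pool.Agent.L0h11.RG

/-- Let `R` be a domain of characteristic zero, finitely generated over `ℤ`, with field of fractions
`K`, such that `ℚ` is algebraically closed in `K`. Let `c` be a family of nonzero elements of `R` and
let `b` be a family of residues modulo `M` with sum zero. The Galois group of the field `K(ζ_M)` acts
trivially on the line of `b` (twisted): outside of a proper closed subset `N = 0`, the Frobenius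
elements of the points of `Spec R` with values in the residue fields `F` of the primes of `ℚ(ζ_M)` act
trivially. The fields `F` are those with `ℓ ^ f` elements, where `f` is the order of the prime `ℓ`
modulo `M`, a point is a homomorphism `φ` from `R` to `F`, and by Weil its Frobenius element acts as
`q ^ (-card / 2) * ∏ g(χ ^ b_i) / χ ^ b_i (φ c_i)`, where `q` is the number of the elements of `F` and
where `χ` is a character of order `M` of `F`. -/
def RationalOver {R : Type} [CommRing R] (M : ℕ) {ι : Type} [Fintype ι] (b : ι → ZMod M)
    (c : ι → R) : Prop :=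
  ∃ N : R, N ≠ 0 ∧ ∀ ℓ : ℕ, ℓ.Prime → ∀ (F : Type) [Field F] [Fintype F],
    Fintype.card F = ℓ ^ orderOf (ℓ : ZMod M) → ∀ φ : R →+* F, φ N ≠ 0 →
      ∀ (χ : MulChar F ℂ) (ψ : AddChar F ℂ), orderOf χ = M → ψ ≠ 1 →
        ∏ i, gaussSum (χ ^ (b i).val) ψ =
          (Fintype.card F : ℂ) ^ (Fintype.card ι / 2) * ∏ i, (χ ^ (b i).val) (φ (c i))

end Pool.Agent.L0h11.RG
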