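import Mathlib
import Pool.Agent.L0h11.Vd
import Pool.Agent.L0h11.Vl

/-!
# Lines with trivial Galois action over a field of rational functions
-/

set_option autoImplicit false
set_option linter.unusedSectionVars false

namespace Pool.Agent.L0h11

open Finset
open Pool.Agent.H916K (RationalClass)

section

variable {n : ℕ} {ι : Type} [Fintype ι] {c : ι → MvPolynomial (Fin n) ℤ} {D : ℕ}

lemma hom_evv {F : Type} [Field F] (φ : MvPolynomial (Fin n) ℤ →+* F) :
    φ = evv (fun i => φ (MvPolynomial.X i)) := by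
  apply MvPolynomial.ringHom_ext
  · intro r
    rw [evv_C]
    exact map_intCast (φ.comp MvPolynomial.C) r
  · intro i
    unfold evv
    rw [MvPolynomial.coe_eval₂Hom, MvPolynomial.eval₂_X]

lemma prod_chi {F : Type} [Field F] [Fintype F] (χ : MulChar F ℂ) {M : ℕ} [NeZero M] (b : ι → ZMod M)
    (hb : ∀ i, b i ≠ 0) (y : ι → F) :
    ∏ i, (χ ^ (b i).val) (y i) = χ (∏ i, y i ^ (b i).val) := by
  rw [map_prod]
  refine prod_congr rfl fun i _ => ?_
  rw [MulChar.pow_apply' χ (fun h => hb i ((ZMod.val_eq_zero _).1 h)), map_pow]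

lemma prod_chi_evv {F : Type} [Field F] [Fintype F] (χ : MulChar F ℂ) {M : ℕ} [NeZero M]
    (b : ι → ZMod M) (hb : ∀ i, b i ≠ 0) (x : Fin n → F) :
    ∏ i, (χ ^ (b i).val) (evv x (c i)) = χ (evv x (prc c b)) := by
  rw [prod_chi χ b hb]
  congr 1
  unfold prc
  rw [map_prod]
  exact prod_congr rfl fun i _ => (map_pow _ _ _).symm

open Classical in
/-- there are points outside of a hypersurface -/
lemma exists_pt {H : MvPolynomial (Fin n) ℤ} (hH : H ≠ 0) : ∃ B : ℕ, B ≠ 0 ∧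
    ∀ (F : Type) [Field F] [Fintype F], (B : F) ≠ 0 → B ≤ Fintype.card F →
      ∃ x : Fin n → F, evv x H ≠ 0 := by
  obtain ⟨N, hN, hz⟩ := zeros_le hH
  refine ⟨N * (H.totalDegree + 1), Nat.mul_ne_zero hN (Nat.succ_ne_zero _), ?_⟩
  intro F _ _ hF hB
  rw [Nat.cast_mul] at hF
  have h1 := hz F (left_ne_zero_of_mul hF)
  by_contra hcon
  push Not at hcon
  have h2 : ((univ : Finset (Fin n → F)).filter fun x => evv x H = 0) = univ :=
    filter_true_of_mem fun x _ => hcon x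
  rw [h2, card_univ, Fintype.card_fun, Fintype.card_fin, Nat.cast_pow] at h1
  have hq : (0 : ℝ) < (Fintype.card F : ℝ) ^ n := by
    have : (0 : ℝ) < Fintype.card F := by exact_mod_cast Fintype.card_pos
    positivity
  have h3 : (Fintype.card F : ℝ) ≤ H.totalDegree := by
    rw [mul_comm] at h1
    exact le_of_mul_le_mul_right h1 hq
  have h4 : Fintype.card F ≤ H.totalDegree := by exact_mod_cast h3
  have h5 : H.totalDegree + 1 ≤ N * (H.totalDegree + 1) :=
    Nat.le_mul_of_pos_left _ (Nat.pos_of_ne_zero hN)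
  omega

open Classical in
/-- rational lines are constant -/
lemma cst_of_rational (hc : ∀ i, c i ≠ 0) {M : ℕ} [NeZero M] {b : ι → ZMod M}
    (hb : ∀ i, b i ≠ 0) (h : RationalOver M b c) : CstPow M (prc c b) := by
  obtain ⟨N, hN, h⟩ := h
  rcases charsum (NeZero.pos M) n (prc c b) (prc_ne hc b) with hq | ⟨C, N₂, hC, hN₂, hB⟩
  · exact hq
  exfalso
  set H := N * ∏ i, c i with hH
  have hH0 : H ≠ 0 := mul_ne_zero hN (prod_ne_zero_iff.2 fun i _ => hc i)
  obtain ⟨N₃, hN₃, hz⟩ := zeros_le hH0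
  obtain ⟨B, hB0, hpt⟩ := exists_pt hH0
  obtain ⟨K, hK⟩ := exists_nat_gt ((C + 2 * H.totalDegree) ^ 2)
  obtain ⟨p, hp, hpK, hpM⟩ := Nat.exists_prime_gt_modEq_one (k := M) (N₂ * N₃ * B + K + 1) (NeZero.ne M)
  have : Fact p.Prime := ⟨hp⟩
  have hcard : Fintype.card (ZMod p) = p := ZMod.card p
  have hM1 : ((p : ℕ) : ZMod M) = 1 := by
    have h1 := (ZMod.natCast_eq_natCast_iff p 1 M).2 hpM
    rwa [Nat.cast_one] at h1
  have hMd : M ∣ p - 1 := (Nat.modEq_iff_dvd' hp.one_lt.le).1 hpM.symm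
  have hlarge : ∀ k : ℕ, k ≠ 0 → k < p → ((k : ℕ) : ZMod p) ≠ 0 := by
    intro k hk hkp h1
    rw [ZMod.natCast_eq_zero_iff] at h1
    exact absurd (Nat.le_of_dvd (Nat.pos_of_ne_zero hk) h1) (by omega)
  have hN23 : N₂ * N₃ * B ≠ 0 := Nat.mul_ne_zero (Nat.mul_ne_zero hN₂ hN₃) hB0
  have hle : ∀ k : ℕ, k ∣ N₂ * N₃ * B → k ≤ N₂ * N₃ * B := fun k hk =>
    Nat.le_of_dvd (Nat.pos_of_ne_zero hN23) hk
  have hne : ∀ k : ℕ, k ∣ N₂ * N₃ * B → ((k : ℕ) : ZMod p) ≠ 0 := by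
    intro k hk
    have := hle k hk
    refine hlarge k ?_ (by omega)
    rintro rfl
    exact hN23 (zero_dvd_iff.1 hk)
  have hd1 : N₂ ∣ N₂ * N₃ * B := (dvd_mul_right _ _).mul_right _
  have hd2 : N₃ ∣ N₂ * N₃ * B := (dvd_mul_left _ _).mul_right _
  have hd3 : B ∣ N₂ * N₃ * B := dvd_mul_left _ _
  -- the characters
  obtain ⟨χ, hχ⟩ : ∃ χ : MulChar (ZMod p) ℂ, orderOf χ = M :=
    MulChar.exists_mulChar_orderOf (ZMod p) (by rw [hcard]; exact hMd)
      (Complex.isPrimitiveRoot_exp M (NeZero.ne M))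
  obtain ⟨ψ, hψ⟩ : ∃ ψ : AddChar (ZMod p) ℂ, ψ ≠ 1 := by
    obtain ⟨ψ, hψ, -⟩ := exists_psi (A := ℂ) p (Complex.isPrimitiveRoot_exp _ hp.ne_zero) (ZMod p)
    refine ⟨ψ, fun h1 => ?_⟩
    have h2 := hψ (one_ne_zero (α := ZMod p))
    rw [AddChar.mulShift_one] at h2
    exact h2 h1
  have hval : ∀ x : Fin n → ZMod p, evv x N ≠ 0 → ∏ i, gaussSum (χ ^ (b i).val) ψ =
      (Fintype.card (ZMod p) : ℂ) ^ (Fintype.card ι / 2) * χ (evv x (prc c b)) := by
    intro x hx
    rw [← prod_chi_evv χ b hb x]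
    refine h p hp (ZMod p) ?_ (evv x) hx χ ψ hχ hψ
    rw [hcard, hM1, orderOf_one, pow_one]
  obtain ⟨x₁, hx₁⟩ := hpt (ZMod p) (hne B hd3) (by rw [hcard]; have := hle B hd3; omega)
  rw [hH, map_mul] at hx₁
  have hx₁N := left_ne_zero_of_mul hx₁
  have hx₁c := right_ne_zero_of_mul hx₁
  set κ := χ (evv x₁ (prc c b)) with hκ
  have hκ1 : ‖κ‖ = 1 := by
    have h1 : evv x₁ (prc c b) ≠ 0 := by
      unfold prc
      rw [map_prod]
      refine prod_ne_zero_iff.2 fun i hi => ?_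
      rw [map_pow]
      apply pow_ne_zero
      intro h2
      apply hx₁c
      rw [map_prod]
      exact prod_eq_zero hi h2
    have h5 : κ ^ (orderOf χ) = 1 := by
      rw [hκ, ← MulChar.pow_apply' χ (orderOf_pos χ).ne', pow_orderOf_eq_one]
      exact MulChar.one_apply (isUnit_iff_ne_zero.2 h1)
    exact Complex.norm_eq_one_of_pow_eq_one h5 (orderOf_pos χ).ne'
  have hq0 : (Fintype.card (ZMod p) : ℂ) ^ (Fintype.card ι / 2) ≠ 0 := pow_ne_zero _ (by
    rw [hcard]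
    exact_mod_cast hp.ne_zero)
  have hconst : ∀ x : Fin n → ZMod p, evv x H ≠ 0 → χ (evv x (prc c b)) = κ := by
    intro x hx
    rw [hH, map_mul] at hx
    have h1 := hval x (left_ne_zero_of_mul hx)
    rw [hval x₁ hx₁N] at h1
    exact (mul_left_cancel₀ hq0 h1).symm
  -- the contradiction
  have hs1 := hB (ZMod p) (hne N₂ hd1) χ (by rw [← hχ]; exact pow_orderOf_eq_one χ)
    (fun j hj => by rw [← hχ]; exact orderOf_dvd_of_pow_eq_one hj)
  have hs2 := hz (ZMod p) (hne N₃ hd2)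
  rw [hcard] at hs1 hs2
  set Z := ((univ : Finset (Fin n → ZMod p)).filter fun x => evv x H = 0) with hZ
  have h1 : ‖(((p : ℝ) ^ n : ℝ) : ℂ) * κ - ∑ x : Fin n → ZMod p, χ (evv x (prc c b))‖ ≤
      2 * (Z.card : ℝ) := by
    have h2 : (((p : ℝ) ^ n : ℝ) : ℂ) * κ = ∑ x : Fin n → ZMod p, κ := by
      rw [sum_const, card_univ, Fintype.card_fun, Fintype.card_fin, nsmul_eq_mul, hcard]
      push_cast
      rfl
    rw [h2, ← sum_sub_distrib]
    refine (norm_sum_le _ _).trans ?_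
    have h3 : ∀ x : Fin n → ZMod p, ‖κ - χ (evv x (prc c b))‖ ≤ if evv x H = 0 then 2 else 0 := by
      intro x
      split_ifs with hx
      · refine (norm_sub_le _ _).trans ?_
        have := norm_chi_le χ (evv x (prc c b))
        rw [hκ1]
        linarith
      · rw [hconst x hx, sub_self, norm_zero]
    refine (sum_le_sum fun x _ => h3 x).trans ?_
    rw [← sum_filter, sum_const, nsmul_eq_mul, mul_comm]
  have hp0 : (0 : ℝ) < p := by exact_mod_cast hp.pos
  have hp1 : (1 : ℝ) ≤ p := by exact_mod_cast hp.one_lt.le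
  have hpn : (0 : ℝ) < (p : ℝ) ^ n := by positivity
  have h2 : (p : ℝ) ^ n ≤ ‖∑ x : Fin n → ZMod p, χ (evv x (prc c b))‖ + 2 * (Z.card : ℝ) := by
    have h3 : ‖(((p : ℝ) ^ n : ℝ) : ℂ) * κ‖ = (p : ℝ) ^ n := by
      rw [norm_mul, hκ1, mul_one, Complex.norm_real, Real.norm_of_nonneg hpn.le]
    rw [← h3]
    have h4 := norm_add_le ((((p : ℝ) ^ n : ℝ) : ℂ) * κ - ∑ x : Fin n → ZMod p, χ (evv x (prc c b)))
      (∑ x : Fin n → ZMod p, χ (evv x (prc c b)))
    rw [sub_add_cancel] at h4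
    linarith
  have hs : (0 : ℝ) ≤ √(p : ℝ) := Real.sqrt_nonneg _
  have hsq : √(p : ℝ) ≤ p := by
    rw [Real.sqrt_le_left hp0.le]
    nlinarith
  have h3 : (p : ℝ) ^ n * √(p : ℝ) ≤ (C + 2 * H.totalDegree) * (p : ℝ) ^ n := by
    calc (p : ℝ) ^ n * √(p : ℝ) ≤
        (‖∑ x : Fin n → ZMod p, χ (evv x (prc c b))‖ + 2 * (Z.card : ℝ)) * √(p : ℝ) :=
          mul_le_mul_of_nonneg_right h2 hs
      _ = ‖∑ x : Fin n → ZMod p, χ (evv x (prc c b))‖ * √(p : ℝ) +
          2 * ((Z.card : ℝ) * √(p : ℝ)) := by ring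
      _ ≤ C * (p : ℝ) ^ n + 2 * ((Z.card : ℝ) * p) := by gcongr
      _ ≤ C * (p : ℝ) ^ n + 2 * (H.totalDegree * (p : ℝ) ^ n) := by
          have hs3 : (Z.card : ℝ) * p ≤ H.totalDegree * (p : ℝ) ^ n := by
            rw [hZ]
            convert hs2
          linarith
      _ = _ := by ring
  have h4 : √(p : ℝ) ≤ C + 2 * H.totalDegree := by
    rw [mul_comm] at h3
    exact le_of_mul_le_mul_right h3 hpn
  have h5 : (p : ℝ) ≤ (C + 2 * H.totalDegree) ^ 2 := by
    have := Real.sq_sqrt hp0.le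
    nlinarith
  have h6 : (K : ℝ) < p := by
    have : K < p := by omega
    exact_mod_cast this
  linarith

/-- **The lines with trivial Galois action.** -/
theorem rational_over_iff (hc : ∀ i, c i ≠ 0) (sp : Spec c D) {M : ℕ} [NeZero M] (hM : M ∣ D)
    {b : ι → ZMod M} (hb : ∀ i, b i ≠ 0) :
    RationalOver M b c ↔ CstPow M (prc c b) ∧ RationalClass M (prs sp.r b) := by
  classical
  have key : ∀ (F : Type) [Field F] [Fintype F] (χ : MulChar F ℂ) (ψ : AddChar F ℂ),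
      (((prs sp.r b).map fun z => gaussSum (χ ^ z.1.val) ψ).prod =
      (Fintype.card F : ℂ) ^ (Multiset.card (prs sp.r b) / 2) *
        ((prs sp.r b).map fun z => (χ ^ z.1.val) (z.2 : F)).prod) ↔
      ∏ i, gaussSum (χ ^ (b i).val) ψ =
          (Fintype.card F : ℂ) ^ (Fintype.card ι / 2) * χ (∏ i, ((sp.r i : ℤ) : F) ^ (b i).val) := by
    intro F _ _ χ ψ
    rw [card_prs, ← prod_chi χ b hb]
    unfold prs
    rw [Multiset.map_map, Multiset.map_map]
    rfl
  constructor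
  · intro h
    have hq := cst_of_rational hc hb h
    refine ⟨hq, ?_⟩
    obtain ⟨N, hN, h⟩ := h
    obtain ⟨B, hB0, hpt⟩ := exists_pt (mul_ne_zero hN sp.hH)
    refine ⟨B * sp.N, ?_⟩
    intro ℓ hℓ hpr F _ _ hF χ ψ hχ hψ
    rw [key]
    have hord : orderOf (ℓ : ZMod M) ≠ 0 := by
      intro h0
      rw [h0, pow_zero] at hF
      have := Fintype.one_lt_card (α := F)
      omega
    have : Fact ℓ.Prime := ⟨hpr⟩
    obtain ⟨f, hf⟩ := Nat.exists_eq_succ_of_ne_zero hord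
    have hchar : CharP F ℓ := by
      apply charP_of_card_eq_prime_pow (f := f.succ)
      rw [hF, hf]
    have hBN : B * sp.N ≠ 0 := Nat.mul_ne_zero hB0 sp.hN
    have hne : ∀ k : ℕ, k ∣ B * sp.N → (k : F) ≠ 0 := by
      intro k hk h1
      rw [CharP.cast_eq_zero_iff F ℓ] at h1
      have h2 := Nat.le_of_dvd (Nat.pos_of_ne_zero hBN) (h1.trans hk)
      omega
    have hcardle : ℓ ≤ Fintype.card F := by
      rw [hF]
      exact Nat.le_self_pow hord ℓ
    obtain ⟨x, hx⟩ := hpt F (hne B (dvd_mul_right _ _)) (by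
      have := Nat.le_of_dvd (Nat.pos_of_ne_zero hBN) (dvd_mul_right B sp.N)
      omega)
    rw [map_mul] at hx
    have h1 := h ℓ hpr F hF (evv x) (left_ne_zero_of_mul hx) χ ψ hχ hψ
    rw [prod_chi_evv χ b hb x, sp.spec M hM (NeZero.ne M) b hq F (hne sp.N (dvd_mul_left _ _)) χ
      (by rw [← hχ]; exact pow_orderOf_eq_one χ) x (right_ne_zero_of_mul hx)] at h1
    exact h1
  · rintro ⟨hq, B, h⟩
    refine ⟨MvPolynomial.C ((((B + 1).factorial * sp.N : ℕ) : ℤ)) * sp.H,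
      mul_ne_zero (C_ne (by exact_mod_cast Nat.mul_ne_zero (Nat.factorial_ne_zero _) sp.hN)) sp.hH, ?_⟩
    intro ℓ hpr F _ _ hF φ hφ χ ψ hχ hψ
    rw [hom_evv φ] at hφ ⊢
    set x := fun i => φ (MvPolynomial.X i) with hx
    rw [map_mul, evv_C] at hφ
    have h1 := left_ne_zero_of_mul hφ
    have h2 := right_ne_zero_of_mul hφ
    rw [Int.cast_natCast, Nat.cast_mul] at h1
    have h3 := left_ne_zero_of_mul h1
    have h4 := right_ne_zero_of_mul h1
    have hord : orderOf (ℓ : ZMod M) ≠ 0 := by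
      intro h0
      rw [h0, pow_zero] at hF
      have := Fintype.one_lt_card (α := F)
      omega
    have : Fact ℓ.Prime := ⟨hpr⟩
    obtain ⟨f, hf⟩ := Nat.exists_eq_succ_of_ne_zero hord
    have hchar : CharP F ℓ := by
      apply charP_of_card_eq_prime_pow (f := f.succ)
      rw [hF, hf]
    have hBℓ : B < ℓ := by
      by_contra h5
      push Not at h5
      apply h3
      rw [CharP.cast_eq_zero_iff F ℓ]
      exact Nat.dvd_factorial hpr.pos (by omega)
    have h5 := h ℓ hBℓ hpr F hF χ ψ hχ hψ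
    rw [key] at h5
    rw [prod_chi_evv χ b hb x, sp.spec M hM (NeZero.ne M) b hq F h4 χ
      (by rw [← hχ]; exact pow_orderOf_eq_one χ) x h2]
    exact h5

end

end Pool.Agent.L0h11
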