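import Mathlib
import Pool.Agent.L0h11.Ge
import Pool.Agent.L0h11.Gf
import Pool.Agent.L0h11.Vr

/-!
# Lines with trivial Galois action over a finitely generated field
-/

set_option autoImplicit false
set_option linter.all false

namespace Pool.Agent.L0h11.RG

open Finset
open Pool.Agent.L0h11
open Pool.Agent.H916K (RationalClass)

section

variable {R : Type} [CommRing R] [IsDomain R] [CharZero R] [hft : Algebra.FiniteType ℤ R] {n : ℕ}
  {ι : Type} [Fintype ι] {c : ι → R} {D : ℕ}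

lemma prod_chi_prc {F : Type} [Field F] [Fintype F] (χ : MulChar F ℂ) {M : ℕ} [NeZero M]
    (b : ι → ZMod M) (hb : ∀ i, b i ≠ 0) (φ : R →+* F) :
    ∏ i, (χ ^ (b i).val) (φ (c i)) = χ (φ (prc c b)) := by
  rw [prod_chi χ b hb, map_prc]

/-- there are points outside of a closed subset -/
lemma exists_pt (htr : Algebra.trdeg ℚ (FractionRing R) = n) (hreg : Reg (FractionRing R)) {H : R}
    (hH : H ≠ 0) : ∃ B : ℕ, B ≠ 0 ∧
    ∀ (F : Type) [Field F] [Fintype F], (B : F) ≠ 0 → B ≤ Fintype.card F →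
      ∃ φ : R →+* F, φ H ≠ 0 := by
  obtain ⟨C, N, hC, hN, hz⟩ := pts_R htr hreg hH
  obtain ⟨k, hk⟩ := exists_nat_gt (C ^ 2)
  refine ⟨N * (k + 1), Nat.mul_ne_zero hN (Nat.succ_ne_zero _), ?_⟩
  intro F _ _ hF hB
  rw [Nat.cast_mul] at hF
  have h1 := hz F (left_ne_zero_of_mul hF)
  by_contra hcon
  push Not at hcon
  have h2 : Nat.card {φ : R →+* F // φ H ≠ 0} = 0 := by
    rw [Nat.card_eq_zero]
    left
    exact ⟨fun φ => φ.2 (hcon φ.1)⟩
  have hq1 : (0 : ℝ) < Nat.card F := by exact_mod_cast Nat.card_pos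
  have hq : (0 : ℝ) < (Nat.card F : ℝ) ^ n := by positivity
  rw [h2, Nat.cast_zero, zero_sub, norm_neg, norm_pow, Complex.norm_natCast, mul_comm] at h1
  have h3 : √(Nat.card F : ℝ) ≤ C := le_of_mul_le_mul_right h1 hq
  have h4 : (Nat.card F : ℝ) ≤ C ^ 2 := by
    have := Real.sq_sqrt hq1.le
    have h5 : 0 ≤ √(Nat.card F : ℝ) := Real.sqrt_nonneg _
    nlinarith
  have h5 : (Nat.card F : ℝ) < k := h4.trans_lt hk
  have h6 : Nat.card F < k := by exact_mod_cast h5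
  rw [Nat.card_eq_fintype_card] at h6
  have h7 : k + 1 ≤ N * (k + 1) := Nat.le_mul_of_pos_left _ (Nat.pos_of_ne_zero hN)
  omega

open Classical in
/-- rational lines are constant -/
lemma cst_of_rational (htr : Algebra.trdeg ℚ (FractionRing R) = n) (hreg : Reg (FractionRing R))
    (hc : ∀ i, c i ≠ 0) {M : ℕ} [NeZero M] {b : ι → ZMod M}
    (hb : ∀ i, b i ≠ 0) (h : RationalOver M b c) : CstP M (prc c b) := by
  obtain ⟨N, hN, h⟩ := h
  rcases dich htr hreg (NeZero.pos M) (prc_ne hc b) with hq | hS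
  · exact hq
  exfalso
  set H := N * ∏ i, c i with hH
  have hH0 : H ≠ 0 := mul_ne_zero hN (prod_ne_zero_iff.2 fun i _ => hc i)
  obtain ⟨C, N₂, hC, hN₂, hB⟩ := hS H hH0
  obtain ⟨C₃, N₃, hC₃, hN₃, hz⟩ := pts_R htr hreg hH0
  obtain ⟨B, hB0, hpt⟩ := exists_pt htr hreg hH0
  obtain ⟨K, hK⟩ := exists_nat_gt ((C + C₃) ^ 2)
  obtain ⟨p, hp, hpK, hpM⟩ := Nat.exists_prime_gt_modEq_one (k := M) (N₂ * N₃ * B + K + 1) (NeZero.ne M)
  have : Fact p.Prime := ⟨hp⟩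
  have hcard : Fintype.card (ZMod p) = p := ZMod.card p
  have hM1 : ((p : ℕ) : ZMod M) = 1 := by
    have h1 := (ZMod.natCast_eq_natCast_iff p 1 M).2 hpM
    rwa [Nat.cast_one] at h1
  have hMd : M ∣ p - 1 := (Nat.modEq_iff_dvd' hp.one_lt.le).1 hpM.symm
  have hlarge : ∀ k : ℕ, k ≠ 0 → k < p → ((k : ℕ) : ZMod p) ≠ 0 := by
    intro k hk hkp h1
    rw [ZMod.natCast_eq_zero_iff] at h1
    exact absurd (Nat.le_of_dvd (Nat.pos_of_ne_zero hk) h1) (by omega)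
  have hN23 : N₂ * N₃ * B ≠ 0 := Nat.mul_ne_zero (Nat.mul_ne_zero hN₂ hN₃) hB0
  have hle : ∀ k : ℕ, k ∣ N₂ * N₃ * B → k ≤ N₂ * N₃ * B := fun k hk =>
    Nat.le_of_dvd (Nat.pos_of_ne_zero hN23) hk
  have hne : ∀ k : ℕ, k ∣ N₂ * N₃ * B → ((k : ℕ) : ZMod p) ≠ 0 := by
    intro k hk
    have := hle k hk
    refine hlarge k ?_ (by omega)
    rintro rfl
    exact hN23 (zero_dvd_iff.1 hk)
  have hd1 : N₂ ∣ N₂ * N₃ * B := (dvd_mul_right _ _).mul_right _
  have hd2 : N₃ ∣ N₂ * N₃ * B := (dvd_mul_left _ _).mul_right _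
  have hd3 : B ∣ N₂ * N₃ * B := dvd_mul_left _ _
  -- the characters
  obtain ⟨χ, hχ⟩ : ∃ χ : MulChar (ZMod p) ℂ, orderOf χ = M :=
    MulChar.exists_mulChar_orderOf (ZMod p) (by rw [hcard]; exact hMd)
      (Complex.isPrimitiveRoot_exp M (NeZero.ne M))
  obtain ⟨ψ, hψ⟩ : ∃ ψ : AddChar (ZMod p) ℂ, ψ ≠ 1 := by
    obtain ⟨ψ, hψ, -⟩ := exists_psi (A := ℂ) p (Complex.isPrimitiveRoot_exp _ hp.ne_zero) (ZMod p)
    refine ⟨ψ, fun h1 => ?_⟩
    have h2 := hψ (one_ne_zero (α := ZMod p))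
    rw [AddChar.mulShift_one] at h2
    exact h2 h1
  have hval : ∀ φ : R →+* ZMod p, φ N ≠ 0 → ∏ i, gaussSum (χ ^ (b i).val) ψ =
      (Fintype.card (ZMod p) : ℂ) ^ (Fintype.card ι / 2) * χ (φ (prc c b)) := by
    intro x hx
    rw [← prod_chi_prc χ b hb x]
    refine h p hp (ZMod p) ?_ x hx χ ψ hχ hψ
    rw [hcard, hM1, orderOf_one, pow_one]
  obtain ⟨x₁, hx₁⟩ := hpt (ZMod p) (hne B hd3) (by rw [hcard]; have := hle B hd3; omega)
  rw [hH, map_mul] at hx₁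
  have hx₁N := left_ne_zero_of_mul hx₁
  have hx₁c := right_ne_zero_of_mul hx₁
  set κ := χ (x₁ (prc c b)) with hκ
  have hκ1 : ‖κ‖ = 1 := by
    have h1 : x₁ (prc c b) ≠ 0 := by
      rw [map_prc]
      refine prod_ne_zero_iff.2 fun i hi => ?_
      apply pow_ne_zero
      intro h2
      apply hx₁c
      rw [map_prod]
      exact prod_eq_zero hi h2
    have h5 : κ ^ (orderOf χ) = 1 := by
      rw [hκ, ← MulChar.pow_apply' χ (orderOf_pos χ).ne', pow_orderOf_eq_one]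
      exact MulChar.one_apply (isUnit_iff_ne_zero.2 h1)
    exact Complex.norm_eq_one_of_pow_eq_one h5 (orderOf_pos χ).ne'
  have hq0 : (Fintype.card (ZMod p) : ℂ) ^ (Fintype.card ι / 2) ≠ 0 := pow_ne_zero _ (by
    rw [hcard]
    exact_mod_cast hp.ne_zero)
  have hconst : ∀ x : R →+* ZMod p, x H ≠ 0 → χ (x (prc c b)) = κ := by
    intro x hx
    rw [hH, map_mul] at hx
    have h1 := hval x (left_ne_zero_of_mul hx)
    rw [hval x₁ hx₁N] at h1
    exact (mul_left_cancel₀ hq0 h1).symm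
  -- the contradiction
  have hs1 := hB (ZMod p) (hne N₂ hd1) χ hχ
  have hs2 := hz (ZMod p) (hne N₃ hd2)
  have hPS : ∑ᶠ φ : {φ : R →+* ZMod p // φ H ≠ 0}, χ (φ.1 (prc c b)) =
      (Nat.card {φ : R →+* ZMod p // φ H ≠ 0} : ℂ) * κ := by
    rw [← PS_const]
    exact PS_congr H hconst
  rw [hPS, norm_mul, hκ1, mul_one, Complex.norm_natCast, Nat.card_eq_fintype_card (α := ZMod p),
    hcard] at hs1
  rw [Nat.card_eq_fintype_card (α := ZMod p), hcard] at hs2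
  have hp0 : (0 : ℝ) < p := by exact_mod_cast hp.pos
  have hpn : (0 : ℝ) < (p : ℝ) ^ n := by positivity
  have h2 : (p : ℝ) ^ n ≤ (Nat.card {φ : R →+* ZMod p // φ H ≠ 0} : ℝ) +
      ‖(Nat.card {φ : R →+* ZMod p // φ H ≠ 0} : ℂ) - (p : ℂ) ^ n‖ := by
    have h4 := norm_sub_norm_le ((p : ℂ) ^ n) (Nat.card {φ : R →+* ZMod p // φ H ≠ 0} : ℂ)
    rw [norm_pow, Complex.norm_natCast, Complex.norm_natCast, norm_sub_rev] at h4
    linarith
  have hs : (0 : ℝ) ≤ √(p : ℝ) := Real.sqrt_nonneg _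
  have h3 : (p : ℝ) ^ n * √(p : ℝ) ≤ (C + C₃) * (p : ℝ) ^ n := by
    calc (p : ℝ) ^ n * √(p : ℝ) ≤ ((Nat.card {φ : R →+* ZMod p // φ H ≠ 0} : ℝ) +
          ‖(Nat.card {φ : R →+* ZMod p // φ H ≠ 0} : ℂ) - (p : ℂ) ^ n‖) * √(p : ℝ) :=
          mul_le_mul_of_nonneg_right h2 hs
      _ = (Nat.card {φ : R →+* ZMod p // φ H ≠ 0} : ℝ) * √(p : ℝ) +
          ‖(Nat.card {φ : R →+* ZMod p // φ H ≠ 0} : ℂ) - (p : ℂ) ^ n‖ * √(p : ℝ) := by ring
      _ ≤ C * (p : ℝ) ^ n + C₃ * (p : ℝ) ^ n := add_le_add hs1 hs2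
      _ = _ := by ring
  have h4 : √(p : ℝ) ≤ C + C₃ := by
    rw [mul_comm] at h3
    exact le_of_mul_le_mul_right h3 hpn
  have h5 : (p : ℝ) ≤ (C + C₃) ^ 2 := by
    have := Real.sq_sqrt hp0.le
    nlinarith
  have h6 : (K : ℝ) < p := by
    have : K < p := by omega
    exact_mod_cast this
  linarith

/-- **The lines with trivial Galois action.** -/
theorem rational_over_iff (htr : Algebra.trdeg ℚ (FractionRing R) = n)
    (hreg : Reg (FractionRing R)) (hc : ∀ i, c i ≠ 0) (sp : Spec c D) {M : ℕ} [NeZero M]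
    (hM : M ∣ D) {b : ι → ZMod M} (hb : ∀ i, b i ≠ 0) :
    RationalOver M b c ↔ CstP M (prc c b) ∧ RationalClass M (prs sp.r b) := by
  classical
  have key : ∀ (F : Type) [Field F] [Fintype F] (χ : MulChar F ℂ) (ψ : AddChar F ℂ),
      (((prs sp.r b).map fun z => gaussSum (χ ^ z.1.val) ψ).prod =
      (Fintype.card F : ℂ) ^ (Multiset.card (prs sp.r b) / 2) *
        ((prs sp.r b).map fun z => (χ ^ z.1.val) (z.2 : F)).prod) ↔
      ∏ i, gaussSum (χ ^ (b i).val) ψ =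
          (Fintype.card F : ℂ) ^ (Fintype.card ι / 2) * χ (∏ i, ((sp.r i : ℤ) : F) ^ (b i).val) := by
    intro F _ _ χ ψ
    rw [card_prs, ← prod_chi χ b hb]
    unfold prs
    rw [Multiset.map_map, Multiset.map_map]
    rfl
  constructor
  · intro h
    have hq := cst_of_rational htr hreg hc hb h
    refine ⟨hq, ?_⟩
    obtain ⟨N, hN, h⟩ := h
    obtain ⟨B, hB0, hpt⟩ := exists_pt htr hreg (mul_ne_zero hN sp.hH)
    refine ⟨B * sp.N, ?_⟩
    intro ℓ hℓ hpr F _ _ hF χ ψ hχ hψ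
    rw [key]
    have hord : orderOf (ℓ : ZMod M) ≠ 0 := by
      intro h0
      rw [h0, pow_zero] at hF
      have := Fintype.one_lt_card (α := F)
      omega
    have : Fact ℓ.Prime := ⟨hpr⟩
    obtain ⟨f, hf⟩ := Nat.exists_eq_succ_of_ne_zero hord
    have hchar : CharP F ℓ := by
      apply charP_of_card_eq_prime_pow (f := f.succ)
      rw [hF, hf]
    have hBN : B * sp.N ≠ 0 := Nat.mul_ne_zero hB0 sp.hN
    have hne : ∀ k : ℕ, k ∣ B * sp.N → (k : F) ≠ 0 := by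
      intro k hk h1
      rw [CharP.cast_eq_zero_iff F ℓ] at h1
      have h2 := Nat.le_of_dvd (Nat.pos_of_ne_zero hBN) (h1.trans hk)
      omega
    have hcardle : ℓ ≤ Fintype.card F := by
      rw [hF]
      exact Nat.le_self_pow hord ℓ
    obtain ⟨x, hx⟩ := hpt F (hne B (dvd_mul_right _ _)) (by
      have := Nat.le_of_dvd (Nat.pos_of_ne_zero hBN) (dvd_mul_right B sp.N)
      omega)
    rw [map_mul] at hx
    have h1 := h ℓ hpr F hF x (left_ne_zero_of_mul hx) χ ψ hχ hψ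
    rw [prod_chi_prc χ b hb x, sp.spec M hM (NeZero.ne M) b hq F (hne sp.N (dvd_mul_left _ _)) χ
      (by rw [← hχ]; exact pow_orderOf_eq_one χ) x (right_ne_zero_of_mul hx)] at h1
    exact h1
  · rintro ⟨hq, B, h⟩
    refine ⟨(((((B + 1).factorial * sp.N : ℕ) : ℤ)) : R) * sp.H,
      mul_ne_zero (int_ne (by exact_mod_cast Nat.mul_ne_zero (Nat.factorial_ne_zero _) sp.hN)) sp.hH, ?_⟩
    intro ℓ hpr F _ _ hF φ hφ χ ψ hχ hψ
    rw [map_mul, map_intCast] at hφ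
    have h1 := left_ne_zero_of_mul hφ
    have h2 := right_ne_zero_of_mul hφ
    rw [Int.cast_natCast, Nat.cast_mul] at h1
    have h3 := left_ne_zero_of_mul h1
    have h4 := right_ne_zero_of_mul h1
    have hord : orderOf (ℓ : ZMod M) ≠ 0 := by
      intro h0
      rw [h0, pow_zero] at hF
      have := Fintype.one_lt_card (α := F)
      omega
    have : Fact ℓ.Prime := ⟨hpr⟩
    obtain ⟨f, hf⟩ := Nat.exists_eq_succ_of_ne_zero hord
    have hchar : CharP F ℓ := by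
      apply charP_of_card_eq_prime_pow (f := f.succ)
      rw [hF, hf]
    have hBℓ : B < ℓ := by
      by_contra h5
      push Not at h5
      apply h3
      rw [CharP.cast_eq_zero_iff F ℓ]
      exact Nat.dvd_factorial hpr.pos (by omega)
    have h5 := h ℓ hBℓ hpr F hF χ ψ hχ hψ
    rw [key] at h5
    rw [prod_chi_prc χ b hb φ, sp.spec M hM (NeZero.ne M) b hq F h4 χ
      (by rw [← hχ]; exact pow_orderOf_eq_one χ) φ h2]
    exact h5

end

end Pool.Agent.L0h11.RG
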