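import Mathlib
import Pool.Agent.L0h11.An
import Pool.Agent.H126R3.SumQ

/-!
# The analytic core over a base of higher dimension
-/

set_option autoImplicit false
set_option linter.unusedSectionVars false

namespace Pool.Agent.L0h11

open Finset NumberField IsDedekindDomain Filter Topology Complex
open Pool.Agent.N172.HS (IsHecke)
open Pool.Agent.H126R3 (Qc Qc_pos summable_Q)

lemma Qc_zero' (p : Nat.Primes) : Qc (p, 0) = (p : ℕ) := by
  unfold Qc
  rw [zero_add, pow_one]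

lemma TT_single (m : ℂ) (x : ℂ) : TT (fun k => if k = 1 then m else 0) x = m * x := by
  unfold TT
  rw [tsum_eq_single 0]
  · simp
  · intro k hk
    have h1 : (fun k : ℕ => if k = 1 then m else 0) (k + 1) = 0 := if_neg (by omega)
    rw [h1, zero_mul, zero_div]

/-- the injection of the primes -/
def inz (p : Nat.Primes) : Nat.Primes × ℕ := (p, 0)

lemma inz_inj : Function.Injective inz := fun _ _ h => congrArg Prod.fst h

section

variable {ι : Type} [Fintype ι] (K : ι → Type) [∀ i, Field (K i)] [∀ i, NumberField (K i)]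
  {ψ : ∀ i, Ideal (𝓞 (K i)) →*₀ ℂ}

theorem core4 {A : Nat.Primes × ℕ → ℂ} {e : ℕ} {C : ℝ} (hC0 : 0 ≤ C)
    (hA : ∀ c, ‖A c‖ ≤ C * (Qc c : ℝ) ^ e) (a : ℕ)
    {𝔣 : ∀ i, Ideal (𝓞 (K i))} {kk : ∀ i, (K i →+* ℂ) → ℤ} {tt : ∀ i, (K i →+* ℂ) → ℝ}
    (h : ∀ i, IsHecke (𝔣 i) (kk i) (tt i) (ψ i)) (r : ι → ℕ)
    (hr : ∀ i, ((∀ 𝔞, ψ i 𝔞 ≠ 0 → ψ i 𝔞 = 1) ∧ r i = 1) ∨
      ((∃ 𝔞, ψ i 𝔞 ≠ 0 ∧ ψ i 𝔞 ≠ 1) ∧ r i = 0)) (S : Finset ℕ) {D : ℝ} (hD0 : 0 ≤ D)
    (hτ : ∀ p : Nat.Primes, (p : ℕ) ∉ S → ‖A (p, 0) / ((p : ℕ) : ℂ) ^ e - ((a : ℂ) + ∑ i,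
      ∑ 𝔭 ∈ (ov (K i) p).filter (fun 𝔭 => Ideal.absNorm 𝔭 = p), ψ i 𝔭)‖ ≤
        D * ((p : ℕ) : ℝ) ^ (-(1 / 2) : ℝ)) :
    ∃ G : ℂ → ℂ, AnalyticAt ℂ G ((e : ℂ) + 1) ∧ G ((e : ℂ) + 1) ≠ 0 ∧
      ∀ᶠ s : ℂ in 𝓝 ((e : ℂ) + 1), (e : ℝ) + 1 < s.re →
        Complex.exp (∑' c : Nat.Primes × ℕ, A c * ((Qc c : ℕ) : ℂ) ^ (-s)) *
          (s - ((e : ℂ) + 1)) ^ (a + ∑ i, r i) = G s := by
  classical
  set M : Nat.Primes → ℂ := fun p => (a : ℂ) + ∑ i,
      ∑ 𝔭 ∈ (ov (K i) p).filter (fun 𝔭 => Ideal.absNorm 𝔭 = p), ψ i 𝔭 with hM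
  have hp0 : ∀ p : Nat.Primes, (0 : ℝ) < ((p : ℕ) : ℝ) := fun p => by exact_mod_cast p.2.pos
  have hp1 : ∀ p : Nat.Primes, (1 : ℝ) ≤ ((p : ℕ) : ℝ) := fun p => by exact_mod_cast p.2.one_lt.le
  have hpc : ∀ p : Nat.Primes, ((p : ℕ) : ℂ) ≠ 0 := fun p => by exact_mod_cast p.2.ne_zero
  have hMb : ∀ p : Nat.Primes, (p : ℕ) ∉ S → ‖M p‖ ≤ C + D := by
    intro p hp
    have h1 := hτ p hp
    have h2 : ‖A (p, 0) / ((p : ℕ) : ℂ) ^ e‖ ≤ C := by
      rw [norm_div, norm_pow, Complex.norm_natCast, div_le_iff₀ (pow_pos (hp0 p) e)]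
      have := hA (p, 0)
      rwa [Qc_zero'] at this
    have h3 : ((p : ℕ) : ℝ) ^ (-(1 / 2) : ℝ) ≤ 1 :=
      Real.rpow_le_one_of_one_le_of_nonpos (hp1 p) (by norm_num)
    have h4 : M p = A (p, 0) / ((p : ℕ) : ℂ) ^ e - (A (p, 0) / ((p : ℕ) : ℂ) ^ e - M p) := by ring
    rw [h4]
    refine (norm_sub_le _ _).trans (add_le_add h2 (h1.trans ?_))
    calc D * ((p : ℕ) : ℝ) ^ (-(1 / 2) : ℝ) ≤ D * 1 := mul_le_mul_of_nonneg_left h3 hD0
      _ = D := mul_one D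
  set m : Nat.Primes → ℂ := fun p => if (p : ℕ) ∈ S then 0 else M p with hm
  have hmb : ∀ p, ‖m p‖ ≤ C + D := by
    intro p
    rw [hm]
    simp only
    split_ifs with h1
    · rw [norm_zero]; positivity
    · exact hMb p h1
  -- the core
  obtain ⟨-, G1, hG1, hG10, hG1L⟩ := core (K := K) (ψ := ψ)
    (fun p k => if k = 1 then M p else 0) S a h r hr (C := C + D) (by
      intro p hp k _
      by_cases hk : k = 1
      · simp only [if_pos hk]; exact hMb p hp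
      · simp only [if_neg hk, norm_zero]; positivity) (by
      intro p _
      simp only [if_true]
      rw [hM])
  have hprod : ∀ z : ℂ, 1 < z.re →
      (∏' p : Nat.Primes, if (p : ℕ) ∈ S then (1 : ℂ) else
        Complex.exp (TT (fun k => if k = 1 then M p else 0) (((p : ℕ) : ℂ) ^ (-z)))) =
      Complex.exp (∑' p : Nat.Primes, m p * ((p : ℕ) : ℂ) ^ (-z)) ∧
      Summable (fun p : Nat.Primes => m p * ((p : ℕ) : ℂ) ^ (-z)) := by
    intro z hz
    have h1 : Summable (fun p : Nat.Primes => m p * ((p : ℕ) : ℂ) ^ (-z)) := by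
      refine Summable.of_norm_bounded (g := fun p : Nat.Primes => (C + D) *
        ((p : ℕ) : ℝ) ^ (-z.re)) ?_ ?_
      · exact ((Nat.Primes.summable_rpow).2 (by linarith)).mul_left _
      · intro p
        rw [norm_mul, Complex.norm_natCast_cpow_of_pos p.2.pos, neg_re]
        exact mul_le_mul_of_nonneg_right (hmb p) (by positivity)
    refine ⟨?_, h1⟩
    have h2 := h1.hasSum.cexp
    rw [← h2.tprod_eq]
    refine tprod_congr fun p => ?_
    simp only [Function.comp_apply, hm]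
    split_ifs with h3
    · rw [zero_mul, Complex.exp_zero]
    · rw [TT_single]
  -- the rest
  set B : Nat.Primes × ℕ → ℂ := fun c => if c.2 = 0 then A c - m c.1 * ((c.1 : ℕ) : ℂ) ^ e else A c
    with hB
  set u : Nat.Primes × ℕ → ℝ := fun c => C * (if 1 ≤ c.2 then (Qc c : ℝ) ^ (-(3 / 4 : ℝ)) else 0) +
    (D * (if 0 ≤ c.2 then (Qc c : ℝ) ^ (-(5 / 4 : ℝ)) else 0) +
      (if c.2 = 0 ∧ (c.1 : ℕ) ∈ S then C else 0)) with hu
  have hsu : Summable u := by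
    refine Summable.add ((summable_Q (3 / 4) (by norm_num) 1 (by norm_num)).mul_left C)
      (Summable.add ((summable_Q (5 / 4) (by norm_num) 0 (by norm_num)).mul_left D) ?_)
    apply summable_of_hasFiniteSupport
    have hfin : Set.Finite {p : Nat.Primes | (p : ℕ) ∈ S} := by
      have : Set.InjOn (fun p : Nat.Primes => (p : ℕ)) ((fun p : Nat.Primes => (p : ℕ)) ⁻¹' (S : Set ℕ)) :=
        fun a _ b _ h => Subtype.ext h
      exact S.finite_toSet.preimage this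
    refine (hfin.image inz).subset fun c hc => ?_
    rw [Function.mem_support] at hc
    by_contra h1
    apply hc
    rw [if_neg]
    rintro ⟨h2, h3⟩
    exact h1 ⟨c.1, h3, Prod.ext rfl h2.symm⟩
  have hQ0 : ∀ c : Nat.Primes × ℕ, (0 : ℝ) < (Qc c : ℝ) := fun c => by exact_mod_cast Qc_pos c
  have hQ1 : ∀ c : Nat.Primes × ℕ, (1 : ℝ) ≤ (Qc c : ℝ) := fun c => by exact_mod_cast Qc_pos c
  have hb : ∀ c (s : ℂ), (e : ℝ) + 3 / 4 < s.re → ‖B c * ((Qc c : ℕ) : ℂ) ^ (-s)‖ ≤ u c := by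
    intro c s hs
    rw [norm_mul, Complex.norm_natCast_cpow_of_pos (Qc_pos c), neg_re]
    have h1 : (Qc c : ℝ) ^ (-s.re) ≤ (Qc c : ℝ) ^ (-((e : ℝ) + 3 / 4)) :=
      Real.rpow_le_rpow_of_exponent_le (hQ1 c) (by linarith)
    have h2 : (Qc c : ℝ) ^ e * (Qc c : ℝ) ^ (-((e : ℝ) + 3 / 4)) = (Qc c : ℝ) ^ (-(3 / 4 : ℝ)) := by
      rw [← Real.rpow_natCast, ← Real.rpow_add (hQ0 c)]
      congr 1
      ring
    have hterm1 : 0 ≤ C * (if 1 ≤ c.2 then (Qc c : ℝ) ^ (-(3 / 4 : ℝ)) else 0) := by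
      split_ifs <;> positivity
    have hterm2 : 0 ≤ D * (if 0 ≤ c.2 then (Qc c : ℝ) ^ (-(5 / 4 : ℝ)) else 0) := by
      split_ifs <;> positivity
    have hterm3 : (0 : ℝ) ≤ (if c.2 = 0 ∧ (c.1 : ℕ) ∈ S then C else 0) := by
      split_ifs <;> positivity
    by_cases hc : c.2 = 0
    · obtain ⟨p, l⟩ := c
      simp only at hc
      subst hc
      by_cases hp : (p : ℕ) ∈ S
      · have h3 : B (p, 0) = A (p, 0) := by
          rw [hB]
          simp only [if_true, hm, if_pos hp, zero_mul, sub_zero]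
        rw [h3]
        have h4 : ‖A (p, 0)‖ * (Qc (p, 0) : ℝ) ^ (-s.re) ≤ C := by
          calc ‖A (p, 0)‖ * (Qc (p, 0) : ℝ) ^ (-s.re)
              ≤ (C * (Qc (p, 0) : ℝ) ^ e) * (Qc (p, 0) : ℝ) ^ (-((e : ℝ) + 3 / 4)) :=
                mul_le_mul (hA _) h1 (by positivity) (by positivity)
            _ = C * (Qc (p, 0) : ℝ) ^ (-(3 / 4 : ℝ)) := by rw [mul_assoc, h2]
            _ ≤ C * 1 := mul_le_mul_of_nonneg_left
                (Real.rpow_le_one_of_one_le_of_nonpos (hQ1 _) (by norm_num)) hC0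
            _ = C := mul_one C
        have h5 : u (p, 0) = C * (if 1 ≤ (p, 0).2 then (Qc (p, 0) : ℝ) ^ (-(3 / 4 : ℝ)) else 0) +
            (D * (if 0 ≤ (p, 0).2 then (Qc (p, 0) : ℝ) ^ (-(5 / 4 : ℝ)) else 0) + C) := by
          rw [hu]
          simp [hp]
        rw [h5]
        simp only at hterm1 hterm2
        linarith
      · have h3 : B (p, 0) = (A (p, 0) / ((p : ℕ) : ℂ) ^ e - M p) * ((p : ℕ) : ℂ) ^ e := by
          rw [hB]
          simp only [if_true, hm, if_neg hp]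
          rw [sub_mul, div_mul_cancel₀ _ (pow_ne_zero e (hpc p))]
        have h4 : ‖B (p, 0)‖ ≤ D * ((p : ℕ) : ℝ) ^ (-(1 / 2) : ℝ) * ((p : ℕ) : ℝ) ^ e := by
          rw [h3, norm_mul, norm_pow, Complex.norm_natCast]
          exact mul_le_mul_of_nonneg_right (hτ p hp) (by positivity)
        have h6 : ‖B (p, 0)‖ * (Qc (p, 0) : ℝ) ^ (-s.re) ≤ D * (Qc (p, 0) : ℝ) ^ (-(5 / 4 : ℝ)) := by
          calc ‖B (p, 0)‖ * (Qc (p, 0) : ℝ) ^ (-s.re)
              ≤ (D * ((p : ℕ) : ℝ) ^ (-(1 / 2) : ℝ) * ((p : ℕ) : ℝ) ^ e) *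
                (Qc (p, 0) : ℝ) ^ (-((e : ℝ) + 3 / 4)) :=
                mul_le_mul h4 h1 (by positivity) (by positivity)
            _ = D * (Qc (p, 0) : ℝ) ^ (-(5 / 4 : ℝ)) := by
                rw [Qc_zero', ← Real.rpow_natCast, mul_assoc, mul_assoc, ← Real.rpow_add (hp0 p),
                  ← Real.rpow_add (hp0 p)]
                congr 2
                ring
        have h5 : u (p, 0) = C * (if 1 ≤ (p, 0).2 then (Qc (p, 0) : ℝ) ^ (-(3 / 4 : ℝ)) else 0) +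
            (D * (Qc (p, 0) : ℝ) ^ (-(5 / 4 : ℝ)) + 0) := by
          rw [hu]
          simp [hp]
        rw [h5]
        simp only at hterm1
        linarith
    · have h3 : B c = A c := by
        rw [hB]
        simp only [if_neg hc]
      rw [h3]
      have h6 : ‖A c‖ * (Qc c : ℝ) ^ (-s.re) ≤ C * (Qc c : ℝ) ^ (-(3 / 4 : ℝ)) := by
        calc ‖A c‖ * (Qc c : ℝ) ^ (-s.re)
            ≤ (C * (Qc c : ℝ) ^ e) * (Qc c : ℝ) ^ (-((e : ℝ) + 3 / 4)) :=
              mul_le_mul (hA _) h1 (by positivity) (by positivity)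
          _ = C * (Qc c : ℝ) ^ (-(3 / 4 : ℝ)) := by rw [mul_assoc, h2]
      have h5 : u c = C * (Qc c : ℝ) ^ (-(3 / 4 : ℝ)) +
          (D * (if 0 ≤ c.2 then (Qc c : ℝ) ^ (-(5 / 4 : ℝ)) else 0) +
      (if c.2 = 0 ∧ (c.1 : ℕ) ∈ S then C else 0)) := by
        rw [hu]
        simp only
        rw [if_pos (show 1 ≤ c.2 by omega)]
      rw [h5]
      linarith
  set E : ℂ → ℂ := fun s => ∑' c : Nat.Primes × ℕ, B c * ((Qc c : ℕ) : ℂ) ^ (-s) with hE
  have hopen : IsOpen {s : ℂ | (e : ℝ) + 3 / 4 < s.re} := isOpen_lt continuous_const continuous_re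
  have hEd : DifferentiableOn ℂ E {s : ℂ | (e : ℝ) + 3 / 4 < s.re} := by
    refine differentiableOn_tsum_of_summable_norm hsu ?_ hopen (fun c s hs => hb c s hs)
    intro c s _
    have hq : ((Qc c : ℕ) : ℂ) ≠ 0 := by exact_mod_cast (Qc_pos c).ne'
    exact (((differentiableAt_id.neg).const_cpow (Or.inl hq)).const_mul _).differentiableWithinAt
  have hsplit : ∀ s : ℂ, (e : ℝ) + 1 < s.re →
      ∑' c : Nat.Primes × ℕ, A c * ((Qc c : ℕ) : ℂ) ^ (-s) =
        E s + ∑' p : Nat.Primes, m p * ((p : ℕ) : ℂ) ^ (-(s - e)) := by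
    intro s hs
    have h1 : 1 < (s - e).re := by
      rw [Complex.sub_re, Complex.natCast_re]
      linarith
    have h2 := (hprod _ h1).2
    have h3 : Summable fun c => B c * ((Qc c : ℕ) : ℂ) ^ (-s) :=
      Summable.of_norm_bounded hsu (fun c => hb c s (by linarith))
    -- the sum over the primes as a sum over the pairs
    set W : Nat.Primes × ℕ → ℂ := fun c => if c.2 = 0 then
      m c.1 * ((c.1 : ℕ) : ℂ) ^ (-(s - e)) else 0 with hW
    have hW0 : ∀ c, c ∉ Set.range inz → W c = 0 := by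
      intro c hc
      rw [hW]
      simp only
      rw [if_neg]
      intro h4
      exact hc ⟨c.1, Prod.ext rfl h4.symm⟩
    have hWs : HasSum W (∑' p : Nat.Primes, m p * ((p : ℕ) : ℂ) ^ (-(s - e))) := by
      rw [← inz_inj.hasSum_iff hW0]
      refine h2.hasSum.congr_fun fun p => ?_
      rfl
    rw [hE]
    simp only
    rw [← hWs.tsum_eq, ← h3.tsum_add hWs.summable]
    refine tsum_congr fun c => ?_
    obtain ⟨p, l⟩ := c
    rw [hB, hW]
    simp only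
    by_cases hl : l = 0
    · subst hl
      rw [if_pos rfl, if_pos rfl, Qc_zero']
      have h4 : ((p : ℕ) : ℂ) ^ (-(s - e)) = ((p : ℕ) : ℂ) ^ e * ((p : ℕ) : ℂ) ^ (-s) := by
        rw [show -(s - (e : ℂ)) = (e : ℂ) + -s by ring, Complex.cpow_add _ _ (hpc p),
          Complex.cpow_natCast]
      rw [h4]
      ring
    · rw [if_neg hl, if_neg hl, add_zero]
  refine ⟨fun s => Complex.exp (E s) * G1 (s - e), ?_, ?_, ?_⟩
  · have hmem : ((e : ℂ) + 1) ∈ {s : ℂ | (e : ℝ) + 3 / 4 < s.re} := by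
      rw [Set.mem_ofPred_eq, Complex.add_re, Complex.natCast_re, Complex.one_re]
      linarith
    have h1 : AnalyticAt ℂ E ((e : ℂ) + 1) := hEd.analyticAt (hopen.mem_nhds hmem)
    have h2 : AnalyticAt ℂ (fun s : ℂ => G1 (s - e)) ((e : ℂ) + 1) := by
      have h1 : AnalyticAt ℂ (fun s : ℂ => s - (e : ℂ)) ((e : ℂ) + 1) := by fun_prop
      have h2 : AnalyticAt ℂ G1 ((fun s : ℂ => s - (e : ℂ)) ((e : ℂ) + 1)) := by
        have : (fun s : ℂ => s - (e : ℂ)) ((e : ℂ) + 1) = 1 := by simp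
        rw [this]
        exact hG1
      exact AnalyticAt.comp (g := G1) (f := fun s : ℂ => s - (e : ℂ)) h2 h1
    exact h1.cexp.mul h2
  · simp only [add_sub_cancel_left]
    exact mul_ne_zero (Complex.exp_ne_zero _) hG10
  · have h1 : Tendsto (fun s : ℂ => s - (e : ℂ)) (𝓝 ((e : ℂ) + 1)) (𝓝 1) := by
      have h2 : Continuous fun s : ℂ => s - (e : ℂ) := by fun_prop
      have h3 := h2.tendsto ((e : ℂ) + 1)
      rwa [add_sub_cancel_left] at h3
    filter_upwards [h1.eventually hG1L] with s hs hre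
    have h2 : 1 < (s - (e : ℂ)).re := by
      rw [Complex.sub_re, Complex.natCast_re]
      linarith
    have h3 := hs h2
    rw [(hprod _ h2).1] at h3
    rw [hsplit s hre, Complex.exp_add, ← h3]
    have h4 : s - (e : ℂ) - 1 = s - ((e : ℂ) + 1) := by ring
    rw [h4]
    ring

end

end Pool.Agent.L0h11
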