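import Mathlib
import Pool.Agent.L0h11.Vc
import Pool.Agent.L0h11.Vg
import Pool.Agent.L0h11.Vm
import Pool.Agent.L0h11.Vr

/-!
# The pole over a field of rational functions for a finite family of systems of lines
-/

set_option autoImplicit false
set_option linter.unusedSectionVars false

namespace Pool.Agent.L0h11

open Finset NumberField IsDedekindDomain Filter Topology
open Pool.Agent.H916K (RationalClass)
open Pool.Agent.N172.HS (IsHecke)
open Pool.Agent.TH958.An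
open Pool.Agent.H126R3 (Qc Qc_pos exists_F)

attribute [local instance] SD.ft SD.iF SD.iN

section

variable {κ : Type} [Fintype κ] {ι : κ → Type} [∀ x, Fintype (ι x)]
  (sys : ∀ x, Sys (ι x)) (mult : κ → ℕ) (D a : ℕ)

/-- the Hecke characters of a family of systems of lines -/
theorem fam_hecke (r : ∀ x, ι x → ℤ) (hr : ∀ x i, r x i ≠ 0)
    (heven : ∀ x, mult x ≠ 0 → Even (Fintype.card (ι x))) (hD : 0 < D) :
    ∃ (κ' : Type) (_ : Fintype κ') (K : κ' → Type) (_ : ∀ x, Field (K x))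
      (_ : ∀ x, NumberField (K x)) (𝔣 : ∀ x, Ideal (𝓞 (K x))) (kk : ∀ x, (K x →+* ℂ) → ℤ)
      (ψ : ∀ x, Ideal (𝓞 (K x)) →*₀ ℂ) (rr : κ' → ℕ) (S : Finset ℕ),
      (∀ x, IsHecke (𝔣 x) (kk x) 0 (ψ x)) ∧
      (∀ x, ((∀ 𝔞, ψ x 𝔞 ≠ 0 → ψ x 𝔞 = 1) ∧ rr x = 1) ∨
        ((∃ 𝔞, ψ x 𝔞 ≠ 0 ∧ ψ x 𝔞 ≠ 1) ∧ rr x = 0)) ∧
      a + ∑ x, rr x = famRho sys mult r D a ∧
      ∀ p : Nat.Primes, (p : ℕ) ∉ S → ∀ (F : Type) [Field F] [Fintype F],
        Fintype.card F = p → ∀ d : ℕ, d = Nat.gcd D (Fintype.card F - 1) → ∀ [NeZero d] (w : F)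
        (hw : IsPrimitiveRoot w d) (e : AddChar (ZMod d) ℂ), (∀ i, e i = 1 → i = 0) →
        ∀ ψ' : AddChar F ℂ, ψ'.IsPrimitive → famSum sys mult r a hw e ψ' =
          (a : ℂ) + ∑ x, ∑ 𝔭 ∈ (ov (K x) p).filter (fun 𝔭 => Ideal.absNorm 𝔭 = p), ψ x 𝔭 := by
  classical
  let Jt := {x : κ // mult x ≠ 0}
  have e1 : ∀ x : Jt, Nonempty (SD (sys x.1) D (r x.1)) := fun x =>
    (sys x.1).exists_SD hD (heven x.1 x.2) (r x.1) (hr x.1)
  obtain ⟨E⟩ : Nonempty (∀ x : Jt, SD (sys x.1) D (r x.1)) := ⟨fun x => (e1 x).some⟩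
  let κ' := Σ x : Jt, Fin (mult x.1) × (E x).κ
  let S' : Finset ℕ := (univ : Finset Jt).biUnion fun x => (E x).S
  have hS' : ∀ p : Nat.Primes, (p : ℕ) ∉ S' → ∀ x : Jt, (p : ℕ) ∉ (E x).S := by
    intro p hp x hx
    apply hp
    rw [mem_biUnion]
    exact ⟨x, mem_univ _, hx⟩
  refine ⟨κ', inferInstance, fun x => (E x.1).K x.2.2, fun x => (E x.1).iF x.2.2,
    fun x => (E x.1).iN x.2.2, fun x => (E x.1).𝔣 x.2.2, fun x => (E x.1).kk x.2.2,
    fun x => (E x.1).ψ x.2.2, fun x => (E x.1).r x.2.2, S', fun x => (E x.1).hk x.2.2,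
    fun x => (E x.1).hr x.2.2, ?_, ?_⟩
  · rw [Fintype.sum_sigma]
    unfold famRho
    congr 1
    rw [sum_mult' mult (fun x => mult x * (sys x).cnt D (r x)) (fun x h => by rw [h, zero_mul])]
    refine Finset.sum_congr rfl fun x _ => ?_
    rw [Fintype.sum_prod_type]
    have h1 : ∀ i : Fin (mult x.1), ∑ y, (E x).r y = (sys x.1).cnt D (r x.1) :=
      fun i => (E x).cnt
    rw [Finset.sum_congr rfl fun i _ => h1 i, sum_const, card_univ, Fintype.card_fin, smul_eq_mul]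
  · intro p hp F _ _ hcard d hd _ w hw e he ψ hψ
    have hp2 := hS' p hp
    unfold famSum
    congr 1
    rw [sum_mult' mult _ (fun x h => by rw [h, Nat.cast_zero, zero_mul]), Fintype.sum_sigma]
    refine Finset.sum_congr rfl fun x _ => ?_
    have h1 := (E x).val p (hp2 x) F hcard d hd w hw e he ψ hψ
    have h2 : ∀ i : Fin (mult x.1), ∑ y : (E x).κ,
        ∑ 𝔭 ∈ (ov ((E x).K y) p).filter (fun 𝔭 => Ideal.absNorm 𝔭 = p), (E x).ψ y 𝔭 =
        ∑ b ∈ (sys x.1).L d, lam hw e ψ (r x.1) b := fun i => h1.symm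
    refine Eq.trans ?_ (Fintype.sum_prod_type _).symm
    refine Eq.trans ?_ (Finset.sum_congr rfl fun i _ => h2 i).symm
    rw [sum_const, card_univ, Fintype.card_fin, nsmul_eq_mul]

end

section

variable {n : ℕ}

lemma ft_int' {R : Type} [CommRing R] (i : Algebra ℤ R)
    (h : @Algebra.FiniteType ℤ R _ _ i) : @Algebra.FiniteType ℤ R _ _ (Ring.toIntAlgebra R) := by
  have h1 : i = Ring.toIntAlgebra R := Subsingleton.elim _ _
  subst h1
  exact h

instance ftMv : @Algebra.FiniteType ℤ (MvPolynomial (Fin n) ℤ) _ _ (Ring.toIntAlgebra _) :=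
  ft_int' _ (inferInstance : Algebra.FiniteType ℤ (MvPolynomial (Fin n) ℤ))

/-- the points of the affine space -/
noncomputable def homEv {F : Type} [Field F] (N : MvPolynomial (Fin n) ℤ) :
    {φ : MvPolynomial (Fin n) ℤ →+* F // φ N ≠ 0} ≃ {x : Fin n → F // evv x N ≠ 0} where
  toFun φ := ⟨fun i => φ.1 (MvPolynomial.X i), by rw [← hom_evv φ.1]; exact φ.2⟩
  invFun x := ⟨evv x.1, x.2⟩
  left_inv φ := Subtype.ext (hom_evv φ.1).symm
  right_inv x := by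
    apply Subtype.ext
    funext i
    unfold evv
    simp

lemma card_hom {F : Type} [Field F] [Finite F] :
    (Nat.card (MvPolynomial (Fin n) ℤ →+* F) : ℝ) ≤ 1 * (Nat.card F : ℝ) ^ n := by
  have := Fintype.ofFinite F
  have h1 : Nat.card (MvPolynomial (Fin n) ℤ →+* F) ≤ Nat.card (Fin n → F) := by
    apply Nat.card_le_card_of_injective (fun φ i => φ (MvPolynomial.X i))
    intro φ φ' h
    rw [hom_evv φ, hom_evv φ']
    congr 1
  rw [one_mul, ← Nat.cast_pow]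
  have h2 : Nat.card (Fin n → F) = Nat.card F ^ n := by
    rw [Nat.card_fun, Nat.card_eq_fintype_card (α := Fin n), Fintype.card_fin]
  rw [← h2]
  exact_mod_cast h1

variable {κ : Type} [Fintype κ] {ι : κ → Type} [∀ x, Fintype (ι x)]
  (sys : ∀ x, Sys (ι x)) (mult : κ → ℕ) (co : ∀ x, ι x → MvPolynomial (Fin n) ℤ) (D a : ℕ)

/-- the trace formula -/
def TrFF (k : ℕ) (N₁ : MvPolynomial (Fin n) ℤ) (tr : Pt (MvPolynomial (Fin n) ℤ) → ℕ → ℝ)
    (F : Type) [Field F] : Prop :=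
  ∀ [Fintype F], ∃ (d : ℕ) (_ : NeZero d) (w : F) (hw : IsPrimitiveRoot w d)
    (e : AddChar (ZMod d) ℂ) (ψ : AddChar F ℂ), d = Nat.gcd D (Fintype.card F - 1) ∧
      (∀ i, e i = 1 → i = 0) ∧ ψ.IsPrimitive ∧ ∀ φ : MvPolynomial (Fin n) ℤ →+* F, φ N₁ ≠ 0 →
      ((tr (ptOf φ) (Fintype.card F) : ℝ) : ℂ) =
        (Fintype.card F : ℂ) ^ k * famSumF sys mult a (fun x i => φ (co x i)) hw e ψ

/-- the number of the orbits of rational lines -/
noncomputable def famRhoF : ℕ := a + ∑ x, mult x * ∑ M ∈ D.divisors,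
  Nat.card {b : ι x → ZMod M // ((sys x).A M b ∧ IsPrm M b) ∧ RationalOver M b (co x)} / M.totient

lemma famRhoF_eq (hco : ∀ x i, co x i ≠ 0) (sp : ∀ x, Spec (co x) D) :
    famRho (fun x => (sys x).cst (co x) (hco x)) mult (fun x => (sp x).r) D a =
      famRhoF sys mult co D a := by
  unfold famRho famRhoF Sys.cnt
  congr 1
  refine sum_congr rfl fun x _ => ?_
  congr 1
  refine sum_congr rfl fun M hM => ?_
  have hM0 : NeZero M := ⟨(Nat.pos_of_mem_divisors hM).ne'⟩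
  congr 1
  refine Nat.card_congr (Equiv.subtypeEquivRight fun b => ?_)
  constructor
  · rintro ⟨⟨⟨h1, -, h2⟩, h3⟩, h4⟩
    exact ⟨⟨h1, h3⟩, (rational_over_iff (hco x) (sp x) (Nat.dvd_of_mem_divisors hM)
      ((sys x).nz M b h1)).2 ⟨h2, h4⟩⟩
  · rintro ⟨⟨h1, h3⟩, h4⟩
    obtain ⟨h5, h6⟩ := (rational_over_iff (hco x) (sp x) (Nat.dvd_of_mem_divisors hM)
      ((sys x).nz M b h1)).1 h4
    exact ⟨⟨⟨h1, NeZero.ne M, h5⟩, h3⟩, h6⟩

/-- the normalised trace -/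
noncomputable def ntY (k : ℕ) (N₁ : MvPolynomial (Fin n) ℤ)
    (tr : Pt (MvPolynomial (Fin n) ℤ) → ℕ → ℝ) (y : Pt (MvPolynomial (Fin n) ℤ)) (m : ℕ) : ℝ :=
  open Classical in if N₁ ∈ y.asIdeal then 0 else tr y m / (m : ℝ) ^ k

variable {sys mult co D a} {k : ℕ} {N₁ : MvPolynomial (Fin n) ℤ}
  {tr : Pt (MvPolynomial (Fin n) ℤ) → ℕ → ℝ}

lemma famBnd_nonneg : 0 ≤ famBnd ι mult D a := by
  unfold famBnd
  exact add_nonneg (Nat.cast_nonneg _) (sum_nonneg fun x _ => by positivity)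

lemma ntY_eq {F : Type} [Field F] [Fintype F] {d : ℕ} [NeZero d] {w : F}
    {hw : IsPrimitiveRoot w d} {e : AddChar (ZMod d) ℂ} {ψ : AddChar F ℂ}
    {φ : MvPolynomial (Fin n) ℤ →+* F} (hφ : φ N₁ ≠ 0)
    (h : ((tr (ptOf φ) (Fintype.card F) : ℝ) : ℂ) =
        (Fintype.card F : ℂ) ^ k * famSumF sys mult a (fun x i => φ (co x i)) hw e ψ) :
    ((ntY k N₁ tr (ptOf φ) (Fintype.card F) : ℝ) : ℂ) =
      famSumF sys mult a (fun x i => φ (co x i)) hw e ψ := by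
  unfold ntY
  rw [if_neg (fun h1 => hφ ((mem_ptOf φ N₁).1 h1))]
  push_cast
  rw [h]
  have h3 : (Fintype.card F : ℂ) ^ k ≠ 0 := pow_ne_zero _ (by exact_mod_cast Fintype.card_ne_zero)
  rw [mul_div_cancel_left₀ _ h3]

lemma ntY_bound (hD : 0 < D) (h : ∀ (F : Type) [Field F], TrFF sys mult co D a k N₁ tr F)
    (F : Type) [Field F] [Finite F] (φ : MvPolynomial (Fin n) ℤ →+* F) :
    |ntY k N₁ tr (ptOf φ) (Nat.card F)| ≤ famBnd ι mult D a := by
  have := Fintype.ofFinite F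
  rw [Nat.card_eq_fintype_card]
  by_cases hφ : φ N₁ = 0
  · unfold ntY
    rw [if_pos ((mem_ptOf φ N₁).2 hφ), abs_zero]
    exact famBnd_nonneg
  · obtain ⟨d, _, w, hw, e, ψ, hd, he, hψ, h1⟩ := h F
    have h2 := ntY_eq hφ (h1 φ hφ)
    rw [← Real.norm_eq_abs, ← Complex.norm_real, h2]
    exact famSumF_le sys mult D a hD _ hd hw he hψ

/-- **The pole over a field of rational functions.** -/
theorem famF_core (hco : ∀ x i, co x i ≠ 0)
    (heven : ∀ x, mult x ≠ 0 → Even (Fintype.card (ι x))) (hD : 0 < D) (hN₁ : N₁ ≠ 0)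
    (h : ∀ (F : Type) [Field F], TrFF sys mult co D a k N₁ tr F) :
    (∀ s : ℂ, (n : ℝ) + 1 < s.re → Multipliable
      fun y : {y : Pt (MvPolynomial (Fin n) ℤ) // N₁ ∉ y.asIdeal} =>
        ZG (ntY k N₁ tr) y.1 ((qy y.1 : ℂ) ^ (-s))) ∧
    ∃ G : ℂ → ℂ, AnalyticAt ℂ G ((n : ℂ) + 1) ∧ G ((n : ℂ) + 1) ≠ 0 ∧
      ∀ᶠ s : ℂ in 𝓝 ((n : ℂ) + 1), (n : ℝ) + 1 < s.re →
        (∏' y : {y : Pt (MvPolynomial (Fin n) ℤ) // N₁ ∉ y.asIdeal},
          ZG (ntY k N₁ tr) y.1 ((qy y.1 : ℂ) ^ (-s))) *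
          (s - ((n : ℂ) + 1)) ^ (famRhoF sys mult co D a) = G s := by
  classical
  have hsp : ∀ x, Nonempty (Spec (co x) D) := fun x => exists_Spec (hco x) hD
  let sp : ∀ x, Spec (co x) D := fun x => (hsp x).some
  have hB0 : 0 ≤ famBnd ι mult D a := famBnd_nonneg
  have hbd := ntY_bound (k := k) (N₁ := N₁) (tr := tr) hD h
  have hprod : ∀ s : ℂ, (n : ℝ) + 1 < s.re → HasProd
      (fun y : {y : Pt (MvPolynomial (Fin n) ℤ) // N₁ ∉ y.asIdeal} =>
        ZG (ntY k N₁ tr) y.1 ((qy y.1 : ℂ) ^ (-s)))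
      (Complex.exp (∑' c : Nat.Primes × ℕ,
        ((TG (ntY k N₁ tr) N₁ c * ((c.2 + 1 : ℕ) : ℝ)⁻¹ : ℝ) : ℂ) * ((Qc c : ℕ) : ℂ) ^ (-s))) :=
    fun s hs => hasProd_ptsG hB0 hbd zero_le_one (fun F _ _ => card_hom) hs
  refine ⟨fun s hs => (hprod s hs).multipliable, ?_⟩
  obtain ⟨κ', _, K, _, _, 𝔣, kk, ψ, rr, S, hk, hrr, hrho, hval⟩ :=
    fam_hecke (fun x => (sys x).cst (co x) (hco x)) mult D a (fun x => (sp x).r)
      (fun x => (sp x).hr) heven hD
  obtain ⟨C, N, hC0, hN0, hasy⟩ := fam_asy (sys := sys) (mult := mult) (a := a) hco hD sp hN₁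
  have hA : ∀ c : Nat.Primes × ℕ,
      ‖((TG (ntY k N₁ tr) N₁ c * ((c.2 + 1 : ℕ) : ℝ)⁻¹ : ℝ) : ℂ)‖ ≤
        famBnd ι mult D a * (Qc c : ℝ) ^ n := by
    intro c
    rw [Complex.norm_real, Real.norm_eq_abs, abs_mul,
      abs_of_nonneg (a := ((c.2 + 1 : ℕ) : ℝ)⁻¹) (by positivity)]
    refine (mul_le_of_le_one_right (abs_nonneg _) (inv_le_one_of_one_le₀ ?_)).trans ?_
    · push_cast
      have : (0 : ℝ) ≤ c.2 := Nat.cast_nonneg _
      linarith
    · have h1 := tg_bound (N := N₁) (c := c) hB0 hbd zero_le_one (fun F _ _ => card_hom)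
      rwa [one_mul] at h1
  obtain ⟨G, hG1, hG2, hG3⟩ := core4 (K := K) (ψ := ψ) hB0 hA a hk rr hrr (S ∪ N.primeFactors)
    (D := C) hC0 (by
      intro p hp
      rw [mem_union, not_or] at hp
      obtain ⟨hp1, hp2⟩ := hp
      -- the field
      let F := (exists_F (p, 0)).choose
      let iF : Field F := (exists_F (p, 0)).choose_spec.choose
      let iFt : Fintype F := (exists_F (p, 0)).choose_spec.choose_spec.choose
      have hF : Fintype.card F = (p : ℕ) := by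
        have h1 := (exists_F (p, 0)).choose_spec.choose_spec.choose_spec
        rw [h1]
        simp
      have : Fact (p : ℕ).Prime := ⟨p.2⟩
      have hchar : CharP F (p : ℕ) := by
        apply charP_of_card_eq_prime_pow (f := 1)
        rw [hF, pow_one]
      have hNF : (N : F) ≠ 0 := by
        intro h1
        rw [CharP.cast_eq_zero_iff F (p : ℕ)] at h1
        exact hp2 (Nat.mem_primeFactors.2 ⟨p.2, h1, hN0⟩)
      obtain ⟨d, _, w, hw, e, ψ', hd, he, hψ', htr⟩ := h F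
      have h1 := hasy F hNF d (by rw [hd]; exact Nat.gcd_dvd_left _ _) w hw e he ψ' hψ'
      rw [hval p hp1 F hF d hd w hw e he ψ' hψ', hF] at h1
      -- the sum over the points
      have h2 : ((TG (ntY k N₁ tr) N₁ (p, 0) * ((((p, 0) : Nat.Primes × ℕ).2 + 1 : ℕ) : ℝ)⁻¹ : ℝ) : ℂ) =
          ∑ x ∈ (univ : Finset (Fin n → F)).filter (fun x => evv x N₁ ≠ 0),
            famSumF sys mult a (fun y i => evv x (co y i)) hw e ψ' := by
        have h3 : TG (ntY k N₁ tr) N₁ (p, 0) =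
            ∑ᶠ φ : {φ : MvPolynomial (Fin n) ℤ →+* F // φ N₁ ≠ 0},
              ntY k N₁ tr (ptOf φ.1) (Fintype.card F) := by
          rw [hF, ← Qc_zero' p]
          rfl
        let _ : Fintype {φ : MvPolynomial (Fin n) ℤ →+* F // φ N₁ ≠ 0} := Fintype.ofFinite _
        rw [h3, finsum_eq_sum_of_fintype, Finset.sum_subtype
          ((univ : Finset (Fin n → F)).filter (fun x => evv x N₁ ≠ 0))
          (p := fun x => evv x N₁ ≠ 0) (by simp),
          ← Fintype.sum_equiv (homEv N₁)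
          (fun φ => ((ntY k N₁ tr (ptOf φ.1) (Fintype.card F) : ℝ) : ℂ)) _ ?_]
        · simp only [zero_add, Nat.cast_one, inv_one, mul_one, Complex.ofReal_sum]
        · intro φ
          rw [ntY_eq φ.2 (htr φ.1 φ.2)]
          congr 1
          funext y i
          exact congrArg (fun g => g (co y i)) (hom_evv φ.1)
      have hp0 : (0 : ℝ) < ((p : ℕ) : ℝ) := by exact_mod_cast p.2.pos
      have hpc : ((p : ℕ) : ℂ) ^ n ≠ 0 := pow_ne_zero _ (by exact_mod_cast p.2.ne_zero)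
      rw [← h2] at h1
      set T := ((TG (ntY k N₁ tr) N₁ (p, 0) * ((((p, 0) : Nat.Primes × ℕ).2 + 1 : ℕ) : ℝ)⁻¹ : ℝ) : ℂ)
        with hT
      set E := ((a : ℂ) + ∑ x, ∑ 𝔭 ∈ (ov (K x) p).filter (fun 𝔭 => Ideal.absNorm 𝔭 = p), ψ x 𝔭)
        with hE
      have h4 : T / ((p : ℕ) : ℂ) ^ n - E = (T - ((p : ℕ) : ℂ) ^ n * E) / ((p : ℕ) : ℂ) ^ n := by
        field_simp
      have h5 : ((p : ℕ) : ℝ) ^ (-(1 / 2) : ℝ) = (√((p : ℕ) : ℝ))⁻¹ := by
        rw [Real.sqrt_eq_rpow, ← Real.rpow_neg hp0.le]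
      have hs : 0 < √((p : ℕ) : ℝ) := Real.sqrt_pos.2 hp0
      rw [h4, norm_div, norm_pow, Complex.norm_natCast, h5, div_le_iff₀ (pow_pos hp0 n),
        ← div_eq_mul_inv, div_mul_eq_mul_div, le_div_iff₀ hs]
      exact h1)
  rw [hrho, famRhoF_eq sys mult co D a hco sp] at hG3
  refine ⟨G, hG1, hG2, ?_⟩
  filter_upwards [hG3] with s hs hre
  rw [(hprod s hre).tprod_eq]
  exact hs hre

end

end Pool.Agent.L0h11
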