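import Mathlib
import Pool.Agent.L0h11.Vn

/-!
# The pole over a field of rational functions, final form
-/

set_option autoImplicit false
set_option linter.unusedSectionVars false

namespace Pool.Agent.L0h11

open Finset Filter Topology
open Pool.Agent.TH958.An
open Pool.Agent.H126R3 (Qc Qc_pos exists_F)

section

variable {n : ℕ}

/-- every closed point has points with values in all the extensions of the residue field -/
lemma exists_hom_at (y : Pt (MvPolynomial (Fin n) ℤ)) (l : ℕ) :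
    ∃ (F : Type) (_ : Field F) (_ : Finite F) (φ : MvPolynomial (Fin n) ℤ →+* F),
      ptOf φ = y ∧ Nat.card F = qy y ^ (l + 1) := by
  classical
  let x : {z : Pt (MvPolynomial (Fin n) ℤ) // (1 : MvPolynomial (Fin n) ℤ) ∉ z.asIdeal} × ℕ :=
    (⟨y, fun h => y.isMaximal.ne_top ((Ideal.eq_top_iff_one _).2 h)⟩, l)
  obtain ⟨c, hc⟩ : ∃ c, pi (1 : MvPolynomial (Fin n) ℤ) x = c := ⟨_, rfl⟩
  obtain ⟨F, _, _, hF⟩ := exists_F c
  have hF' : Nat.card F = Qc c := by rw [Nat.card_eq_fintype_card]; exact hF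
  let y' : Yc (1 : MvPolynomial (Fin n) ℤ) c := fibEq _ c ⟨x, hc⟩
  have h1 : 0 < Nat.card {φ : MvPolynomial (Fin n) ℤ →+* F // ptOf φ = y'.1} := by
    rw [card_fib hF' y']
    omega
  obtain ⟨φ⟩ := (Nat.card_pos_iff.1 h1).1
  refine ⟨F, inferInstance, inferInstance, φ.1, φ.2, ?_⟩
  rw [hF', ← pi_qy x hc]

lemma two_le_qy (y : Pt (MvPolynomial (Fin n) ℤ)) : 2 ≤ qy y := by
  rw [qy_eq]
  calc 2 ≤ ((pk y).1 : ℕ) := (pk y).1.2.two_le
    _ ≤ ((pk y).1 : ℕ) ^ ((pk y).2 + 1) := Nat.le_self_pow (Nat.succ_ne_zero _) _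

variable {κ : Type} [Fintype κ] {ι : κ → Type} [∀ x, Fintype (ι x)]
  {sys : ∀ x, Sys (ι x)} {mult : κ → ℕ} {co : ∀ x, ι x → MvPolynomial (Fin n) ℤ} {D a : ℕ}
  {k : ℕ} {N₁ : MvPolynomial (Fin n) ℤ} {tr : Pt (MvPolynomial (Fin n) ℤ) → ℕ → ℝ}

lemma ntY_term {y : Pt (MvPolynomial (Fin n) ℤ)} (hy : N₁ ∉ y.asIdeal) (s : ℂ) (l : ℕ) :
    (tr y (qy y ^ (l + 1)) : ℂ) * (qy y : ℂ) ^ (-(((l + 1 : ℕ) : ℂ) * s)) / ((l + 1 : ℕ) : ℂ) =
      ((ntY k N₁ tr y (qy y ^ (l + 1)) : ℝ) : ℂ) / ((l + 1 : ℕ) : ℂ) *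
        ((qy y : ℂ) ^ (-(s - (k : ℂ)))) ^ (l + 1) := by
  have hq : (qy y : ℂ) ≠ 0 := by
    have := two_le_qy y
    exact_mod_cast (by omega : qy y ≠ 0)
  have h0 : (qy y : ℂ) ^ (-(((l + 1 : ℕ) : ℂ) * s)) * (((qy y : ℂ) ^ (l + 1)) ^ k) =
      ((qy y : ℂ) ^ (-(s - (k : ℂ)))) ^ (l + 1) := by
    rw [← Complex.cpow_nat_mul, ← pow_mul, ← Complex.cpow_natCast, ← Complex.cpow_add _ _ hq]
    congr 1
    push_cast
    ring
  rw [← h0]
  unfold ntY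
  rw [if_neg hy]
  have h1 : ((qy y : ℂ) ^ (l + 1)) ^ k ≠ 0 := pow_ne_zero _ (pow_ne_zero _ hq)
  push_cast
  field_simp

/-- **The pole of the L-function over a field of rational functions.** -/
theorem famF_pole (hco : ∀ x i, co x i ≠ 0)
    (heven : ∀ x, mult x ≠ 0 → Even (Fintype.card (ι x))) (hD : 0 < D) (hN₁ : N₁ ≠ 0)
    (h : ∀ (F : Type) [Field F], TrFF sys mult co D a k N₁ tr F)
    (loc : Pt (MvPolynomial (Fin n) ℤ) → ℂ → ℂ)
    (hloc : ∀ y s, loc y s = Complex.exp (∑' l : ℕ, (tr y (qy y ^ (l + 1)) : ℂ) *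
      (qy y : ℂ) ^ (-(((l + 1 : ℕ) : ℂ) * s)) / ((l + 1 : ℕ) : ℂ))) :
    (∀ y : Pt (MvPolynomial (Fin n) ℤ), N₁ ∉ y.asIdeal → ∀ s : ℂ, (k : ℝ) < s.re →
      Summable fun l : ℕ => (tr y (qy y ^ (l + 1)) : ℂ) *
        (qy y : ℂ) ^ (-(((l + 1 : ℕ) : ℂ) * s)) / ((l + 1 : ℕ) : ℂ)) ∧
    (∀ s : ℂ, ((k + n + 1 : ℕ) : ℝ) < s.re → Multipliable
      fun y : {y : Pt (MvPolynomial (Fin n) ℤ) // N₁ ∉ y.asIdeal} => loc y.1 s) ∧
    ∃ G : ℂ → ℂ, AnalyticAt ℂ G ((k + n + 1 : ℕ) : ℂ) ∧ G ((k + n + 1 : ℕ) : ℂ) ≠ 0 ∧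
      ∀ᶠ s : ℂ in 𝓝 ((k + n + 1 : ℕ) : ℂ), ((k + n + 1 : ℕ) : ℝ) < s.re →
        (∏' y : {y : Pt (MvPolynomial (Fin n) ℤ) // N₁ ∉ y.asIdeal}, loc y.1 s) *
          (s - ((k + n + 1 : ℕ) : ℂ)) ^ (famRhoF sys mult co D a) = G s := by
  obtain ⟨h1, G, hG, hG1, hGL⟩ := famF_core hco heven hD hN₁ h
  have hB0 : 0 ≤ famBnd ι mult D a := famBnd_nonneg
  have hbd := ntY_bound (k := k) (N₁ := N₁) (tr := tr) hD h
  have hz : ∀ y : {y : Pt (MvPolynomial (Fin n) ℤ) // N₁ ∉ y.asIdeal}, ∀ s,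
      loc y.1 s = ZG (ntY k N₁ tr) y.1 ((qy y.1 : ℂ) ^ (-(s - (k : ℂ)))) := by
    intro y s
    rw [hloc]
    unfold ZG
    congr 1
    exact tsum_congr fun l => ntY_term y.2 s l
  have hre : ∀ s : ℂ, ((k + n + 1 : ℕ) : ℝ) < s.re → (n : ℝ) + 1 < (s - (k : ℂ)).re := by
    intro s hs
    rw [Complex.sub_re, Complex.natCast_re]
    push_cast at hs
    linarith
  have hs0 : ((k + n + 1 : ℕ) : ℂ) - (k : ℂ) = (n : ℂ) + 1 := by
    push_cast
    ring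
  refine ⟨?_, ?_, fun s => G (s - (k : ℂ)), ?_, ?_, ?_⟩
  · intro y hy s hs
    have hq2 := two_le_qy y
    have hq0 : (0 : ℝ) < (qy y : ℝ) := by
      exact_mod_cast (by omega : 0 < qy y)
    have hnorm : ‖(qy y : ℂ) ^ (-(s - (k : ℂ)))‖ < 1 := by
      rw [Complex.norm_natCast_cpow_of_pos (by omega)]
      apply Real.rpow_lt_one_of_one_lt_of_neg
      · exact_mod_cast (by omega : 1 < qy y)
      · rw [Complex.neg_re, Complex.sub_re, Complex.natCast_re]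
        linarith
    have h2 : Summable fun l : ℕ => famBnd ι mult D a * ‖(qy y : ℂ) ^ (-(s - (k : ℂ)))‖ ^ (l + 1) := by
      apply Summable.mul_left
      exact (summable_nat_add_iff 1).2 (summable_geometric_of_lt_one (norm_nonneg _) hnorm)
    refine Summable.of_norm_bounded h2 fun l => ?_
    rw [ntY_term (k := k) hy s l, norm_mul, norm_div, norm_pow, Complex.norm_natCast,
      Complex.norm_real, Real.norm_eq_abs]
    refine mul_le_mul_of_nonneg_right ?_ (by positivity)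
    obtain ⟨F, _, _, φ, h3, h4⟩ := exists_hom_at y l
    have h5 := hbd F φ
    rw [h3, h4] at h5
    refine (div_le_self (abs_nonneg _) ?_).trans h5
    push_cast
    have : (0 : ℝ) ≤ l := Nat.cast_nonneg _
    linarith
  · intro s hs
    have h2 := h1 (s - k) (hre s hs)
    refine (multipliable_congr fun y => ?_).2 h2
    exact hz y s
  · have h2 : AnalyticAt ℂ (fun s : ℂ => s - (k : ℂ)) ((k + n + 1 : ℕ) : ℂ) := by fun_prop
    have h3 : AnalyticAt ℂ G (((k + n + 1 : ℕ) : ℂ) - (k : ℂ)) := by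
      rw [hs0]
      exact hG
    exact AnalyticAt.fun_comp h3 h2
  · simp only [hs0]
    exact hG1
  · have hcont : Tendsto (fun s : ℂ => s - (k : ℂ)) (𝓝 ((k + n + 1 : ℕ) : ℂ)) (𝓝 ((n : ℂ) + 1)) := by
      have h2 : Continuous (fun s : ℂ => s - (k : ℂ)) := by fun_prop
      have h3 := h2.tendsto ((k + n + 1 : ℕ) : ℂ)
      rwa [hs0] at h3
    filter_upwards [hcont.eventually hGL] with s hs hs2
    have h2 := hs (hre s hs2)
    rw [← h2, tprod_congr fun y => hz y s]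
    congr 2
    push_cast
    ring

end

end Pool.Agent.L0h11
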