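import Mathlib
import Pool.Agent.L0h11.Gg
import Pool.Agent.L0h11.Vp

/-!
# The pole over a finitely generated field for a finite family of systems of lines
-/

set_option autoImplicit false
set_option linter.all false

namespace Pool.Agent.L0h11.RG

open Finset NumberField IsDedekindDomain Filter Topology
open Pool.Agent.L0h11
open Pool.Agent.H916K (RationalClass)
open Pool.Agent.N172.HS (IsHecke)
open Pool.Agent.TH958.An
open Pool.Agent.H126R3 (Qc Qc_pos exists_F)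

attribute [local instance] SD.ft SD.iF SD.iN

section

variable {R : Type} [CommRing R] [IsDomain R] [CharZero R] [hft : Algebra.FiniteType ℤ R] {n : ℕ}
  {κ : Type} [Fintype κ] {ι : κ → Type} [∀ x, Fintype (ι x)]
  (sys : ∀ x, Sys (ι x)) (mult : κ → ℕ) (co : ∀ x, ι x → R) (D a : ℕ)

/-- the trace formula -/
def TrFF (k : ℕ) (N₁ : R) (tr : Pt R → ℕ → ℝ)
    (F : Type) [Field F] : Prop :=
  ∀ [Fintype F], ∃ (d : ℕ) (_ : NeZero d) (w : F) (hw : IsPrimitiveRoot w d)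
    (e : AddChar (ZMod d) ℂ) (ψ : AddChar F ℂ), d = Nat.gcd D (Fintype.card F - 1) ∧
      (∀ i, e i = 1 → i = 0) ∧ ψ.IsPrimitive ∧ ∀ φ : R →+* F, φ N₁ ≠ 0 →
      ((tr (ptOf φ) (Fintype.card F) : ℝ) : ℂ) =
        (Fintype.card F : ℂ) ^ k * famSumF sys mult a (fun x i => φ (co x i)) hw e ψ

/-- the number of the orbits of rational lines -/
noncomputable def famRhoF : ℕ := a + ∑ x, mult x * ∑ M ∈ D.divisors,
  Nat.card {b : ι x → ZMod M // ((sys x).A M b ∧ IsPrm M b) ∧ RationalOver M b (co x)} / M.totient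

lemma famRhoF_eq (htr : Algebra.trdeg ℚ (FractionRing R) = n) (hreg : Reg (FractionRing R))
    (hco : ∀ x i, co x i ≠ 0) (sp : ∀ x, Spec (co x) D) :
    famRho (fun x => cst hreg (sys x) (co x) (hco x)) mult (fun x => (sp x).r) D a =
      famRhoF sys mult co D a := by
  unfold famRho famRhoF Sys.cnt
  congr 1
  refine sum_congr rfl fun x _ => ?_
  congr 1
  refine sum_congr rfl fun M hM => ?_
  have hM0 : NeZero M := ⟨(Nat.pos_of_mem_divisors hM).ne'⟩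
  congr 1
  refine Nat.card_congr (Equiv.subtypeEquivRight fun b => ?_)
  constructor
  · rintro ⟨⟨⟨h1, -, h2⟩, h3⟩, h4⟩
    exact ⟨⟨h1, h3⟩, (rational_over_iff htr hreg (hco x) (sp x) (Nat.dvd_of_mem_divisors hM)
      ((sys x).nz M b h1)).2 ⟨h2, h4⟩⟩
  · rintro ⟨⟨h1, h3⟩, h4⟩
    obtain ⟨h5, h6⟩ := (rational_over_iff htr hreg (hco x) (sp x) (Nat.dvd_of_mem_divisors hM)
      ((sys x).nz M b h1)).1 h4
    exact ⟨⟨⟨h1, NeZero.ne M, h5⟩, h3⟩, h6⟩

/-- the normalised trace -/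
noncomputable def ntY (k : ℕ) (N₁ : R)
    (tr : Pt R → ℕ → ℝ) (y : Pt R) (m : ℕ) : ℝ :=
  open Classical in if N₁ ∈ y.asIdeal then 0 else tr y m / (m : ℝ) ^ k

variable {sys mult co D a} {k : ℕ} {N₁ : R}
  {tr : Pt R → ℕ → ℝ}

lemma ntY_eq {F : Type} [Field F] [Fintype F] {d : ℕ} [NeZero d] {w : F}
    {hw : IsPrimitiveRoot w d} {e : AddChar (ZMod d) ℂ} {ψ : AddChar F ℂ}
    {φ : R →+* F} (hφ : φ N₁ ≠ 0)
    (h : ((tr (ptOf φ) (Fintype.card F) : ℝ) : ℂ) =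
        (Fintype.card F : ℂ) ^ k * famSumF sys mult a (fun x i => φ (co x i)) hw e ψ) :
    ((ntY k N₁ tr (ptOf φ) (Fintype.card F) : ℝ) : ℂ) =
      famSumF sys mult a (fun x i => φ (co x i)) hw e ψ := by
  unfold ntY
  rw [if_neg (fun h1 => hφ ((mem_ptOf φ N₁).1 h1))]
  push_cast
  rw [h]
  have h3 : (Fintype.card F : ℂ) ^ k ≠ 0 := pow_ne_zero _ (by exact_mod_cast Fintype.card_ne_zero)
  rw [mul_div_cancel_left₀ _ h3]

lemma ntY_bound (hD : 0 < D) (h : ∀ (F : Type) [Field F], TrFF sys mult co D a k N₁ tr F)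
    (F : Type) [Field F] [Finite F] (φ : R →+* F) :
    |ntY k N₁ tr (ptOf φ) (Nat.card F)| ≤ famBnd ι mult D a := by
  have := Fintype.ofFinite F
  rw [Nat.card_eq_fintype_card]
  by_cases hφ : φ N₁ = 0
  · unfold ntY
    rw [if_pos ((mem_ptOf φ N₁).2 hφ), abs_zero]
    exact famBnd_nonneg
  · obtain ⟨d, _, w, hw, e, ψ, hd, he, hψ, h1⟩ := h F
    have h2 := ntY_eq hφ (h1 φ hφ)
    rw [← Real.norm_eq_abs, ← Complex.norm_real, h2]
    exact famSumF_le sys mult D a hD _ hd hw he hψ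

/-- **The pole over a finitely generated field.** -/
theorem famF_core (htr : Algebra.trdeg ℚ (FractionRing R) = n) (hreg : Reg (FractionRing R))
    (hco : ∀ x i, co x i ≠ 0)
    (heven : ∀ x, mult x ≠ 0 → Even (Fintype.card (ι x))) (hD : 0 < D) (hN₁ : N₁ ≠ 0)
    (h : ∀ (F : Type) [Field F], TrFF sys mult co D a k N₁ tr F) :
    (∀ s : ℂ, (n : ℝ) + 1 < s.re → Multipliable
      fun y : {y : Pt R // N₁ ∉ y.asIdeal} =>
        ZG (ntY k N₁ tr) y.1 ((qy y.1 : ℂ) ^ (-s))) ∧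
    ∃ G : ℂ → ℂ, AnalyticAt ℂ G ((n : ℂ) + 1) ∧ G ((n : ℂ) + 1) ≠ 0 ∧
      ∀ᶠ s : ℂ in 𝓝 ((n : ℂ) + 1), (n : ℝ) + 1 < s.re →
        (∏' y : {y : Pt R // N₁ ∉ y.asIdeal},
          ZG (ntY k N₁ tr) y.1 ((qy y.1 : ℂ) ^ (-s))) *
          (s - ((n : ℂ) + 1)) ^ (famRhoF sys mult co D a) = G s := by
  classical
  have hsp : ∀ x, Nonempty (Spec (co x) D) := fun x => exists_Spec hreg (hco x) hD
  let sp : ∀ x, Spec (co x) D := fun x => (hsp x).some
  have hB0 : 0 ≤ famBnd ι mult D a := famBnd_nonneg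
  have hbd := ntY_bound (k := k) (N₁ := N₁) (tr := tr) hD h
  obtain ⟨Ch, hCh0, hCh⟩ := hom_R htr
  have hprod : ∀ s : ℂ, (n : ℝ) + 1 < s.re → HasProd
      (fun y : {y : Pt R // N₁ ∉ y.asIdeal} =>
        ZG (ntY k N₁ tr) y.1 ((qy y.1 : ℂ) ^ (-s)))
      (Complex.exp (∑' c : Nat.Primes × ℕ,
        ((TG (ntY k N₁ tr) N₁ c * ((c.2 + 1 : ℕ) : ℝ)⁻¹ : ℝ) : ℂ) * ((Qc c : ℕ) : ℂ) ^ (-s))) :=
    fun s hs => hasProd_ptsG hB0 hbd hCh0 (fun F _ _ => hCh F) hs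
  refine ⟨fun s hs => (hprod s hs).multipliable, ?_⟩
  obtain ⟨κ', _, K, _, _, 𝔣, kk, ψ, rr, S, hk, hrr, hrho, hval⟩ :=
    fam_hecke (fun x => cst hreg (sys x) (co x) (hco x)) mult D a (fun x => (sp x).r)
      (fun x => (sp x).hr) heven hD
  obtain ⟨C, N, hC0, hN0, hasy⟩ := fam_asy (sys := sys) (mult := mult) (a := a) htr hreg hco hD sp hN₁
  have hA : ∀ c : Nat.Primes × ℕ,
      ‖((TG (ntY k N₁ tr) N₁ c * ((c.2 + 1 : ℕ) : ℝ)⁻¹ : ℝ) : ℂ)‖ ≤
        (Ch * famBnd ι mult D a) * (Qc c : ℝ) ^ n := by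
    intro c
    rw [Complex.norm_real, Real.norm_eq_abs, abs_mul,
      abs_of_nonneg (a := ((c.2 + 1 : ℕ) : ℝ)⁻¹) (by positivity)]
    refine (mul_le_of_le_one_right (abs_nonneg _) (inv_le_one_of_one_le₀ ?_)).trans ?_
    · push_cast
      have : (0 : ℝ) ≤ c.2 := Nat.cast_nonneg _
      linarith
    · exact tg_bound (N := N₁) (c := c) hB0 hbd hCh0 (fun F _ _ => hCh F)
  obtain ⟨G, hG1, hG2, hG3⟩ := core4 (K := K) (ψ := ψ) (mul_nonneg hCh0 hB0) hA a hk rr hrr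
    (S ∪ N.primeFactors)
    (D := C) hC0 (by
      intro p hp
      rw [mem_union, not_or] at hp
      obtain ⟨hp1, hp2⟩ := hp
      -- the field
      let F := (exists_F (p, 0)).choose
      let iF : Field F := (exists_F (p, 0)).choose_spec.choose
      let iFt : Fintype F := (exists_F (p, 0)).choose_spec.choose_spec.choose
      have hF : Fintype.card F = (p : ℕ) := by
        have h1 := (exists_F (p, 0)).choose_spec.choose_spec.choose_spec
        rw [h1]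
        simp
      have : Fact (p : ℕ).Prime := ⟨p.2⟩
      have hchar : CharP F (p : ℕ) := by
        apply charP_of_card_eq_prime_pow (f := 1)
        rw [hF, pow_one]
      have hNF : (N : F) ≠ 0 := by
        intro h1
        rw [CharP.cast_eq_zero_iff F (p : ℕ)] at h1
        exact hp2 (Nat.mem_primeFactors.2 ⟨p.2, h1, hN0⟩)
      obtain ⟨d, _, w, hw, e, ψ', hd, he, hψ', htr'⟩ := h F
      have h1 := hasy F hNF d (by rw [hd]; exact Nat.gcd_dvd_left _ _) w hw e he ψ' hψ'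
      rw [hval p hp1 F hF d hd w hw e he ψ' hψ', hF] at h1
      -- the sum over the points
      have h2 : ((TG (ntY k N₁ tr) N₁ (p, 0) * ((((p, 0) : Nat.Primes × ℕ).2 + 1 : ℕ) : ℝ)⁻¹ : ℝ) : ℂ) =
          PS N₁ (fun φ : R →+* F => famSumF sys mult a (fun y i => φ (co y i)) hw e ψ') := by
        have h3 : TG (ntY k N₁ tr) N₁ (p, 0) =
            ∑ᶠ φ : {φ : R →+* F // φ N₁ ≠ 0},
              ntY k N₁ tr (ptOf φ.1) (Fintype.card F) := by
          rw [hF, ← Qc_zero' p]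
          rfl
        let _ : Fintype {φ : R →+* F // φ N₁ ≠ 0} := Fintype.ofFinite _
        unfold PS
        rw [h3, finsum_eq_sum_of_fintype, finsum_eq_sum_of_fintype]
        simp only [zero_add, Nat.cast_one, inv_one, mul_one, Complex.ofReal_sum]
        exact Finset.sum_congr rfl fun φ _ => ntY_eq φ.2 (htr' φ.1 φ.2)
      have hp0 : (0 : ℝ) < ((p : ℕ) : ℝ) := by exact_mod_cast p.2.pos
      have hpc : ((p : ℕ) : ℂ) ^ n ≠ 0 := pow_ne_zero _ (by exact_mod_cast p.2.ne_zero)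
      rw [← h2] at h1
      set T := ((TG (ntY k N₁ tr) N₁ (p, 0) * ((((p, 0) : Nat.Primes × ℕ).2 + 1 : ℕ) : ℝ)⁻¹ : ℝ) : ℂ)
        with hT
      set E := ((a : ℂ) + ∑ x, ∑ 𝔭 ∈ (ov (K x) p).filter (fun 𝔭 => Ideal.absNorm 𝔭 = p), ψ x 𝔭)
        with hE
      have h4 : T / ((p : ℕ) : ℂ) ^ n - E = (T - ((p : ℕ) : ℂ) ^ n * E) / ((p : ℕ) : ℂ) ^ n := by
        field_simp
      have h5 : ((p : ℕ) : ℝ) ^ (-(1 / 2) : ℝ) = (√((p : ℕ) : ℝ))⁻¹ := by
        rw [Real.sqrt_eq_rpow, ← Real.rpow_neg hp0.le]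
      have hs : 0 < √((p : ℕ) : ℝ) := Real.sqrt_pos.2 hp0
      rw [h4, norm_div, norm_pow, Complex.norm_natCast, h5, div_le_iff₀ (pow_pos hp0 n),
        ← div_eq_mul_inv, div_mul_eq_mul_div, le_div_iff₀ hs]
      exact h1)
  rw [hrho, famRhoF_eq sys mult co D a htr hreg hco sp] at hG3
  refine ⟨G, hG1, hG2, ?_⟩
  filter_upwards [hG3] with s hs hre
  rw [(hprod s hre).tprod_eq]
  exact hs hre

/-- every closed point has points with values in all the extensions of the residue field -/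
lemma exists_hom_at (y : Pt R) (l : ℕ) :
    ∃ (F : Type) (_ : Field F) (_ : Finite F) (φ : R →+* F),
      ptOf φ = y ∧ Nat.card F = qy y ^ (l + 1) := by
  classical
  let x : {z : Pt R // (1 : R) ∉ z.asIdeal} × ℕ :=
    (⟨y, fun h => y.isMaximal.ne_top ((Ideal.eq_top_iff_one _).2 h)⟩, l)
  obtain ⟨c, hc⟩ : ∃ c, pi (1 : R) x = c := ⟨_, rfl⟩
  obtain ⟨F, _, _, hF⟩ := exists_F c
  have hF' : Nat.card F = Qc c := by rw [Nat.card_eq_fintype_card]; exact hF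
  let y' : Yc (1 : R) c := fibEq _ c ⟨x, hc⟩
  have h1 : 0 < Nat.card {φ : R →+* F // ptOf φ = y'.1} := by
    rw [card_fib hF' y']
    omega
  obtain ⟨φ⟩ := (Nat.card_pos_iff.1 h1).1
  refine ⟨F, inferInstance, inferInstance, φ.1, φ.2, ?_⟩
  rw [hF', ← pi_qy x hc]

lemma two_le_qy (y : Pt R) : 2 ≤ qy y := by
  rw [qy_eq]
  calc 2 ≤ ((pk y).1 : ℕ) := (pk y).1.2.two_le
    _ ≤ ((pk y).1 : ℕ) ^ ((pk y).2 + 1) := Nat.le_self_pow (Nat.succ_ne_zero _) _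

lemma ntY_term {y : Pt R} (hy : N₁ ∉ y.asIdeal) (s : ℂ) (l : ℕ) :
    (tr y (qy y ^ (l + 1)) : ℂ) * (qy y : ℂ) ^ (-(((l + 1 : ℕ) : ℂ) * s)) / ((l + 1 : ℕ) : ℂ) =
      ((ntY k N₁ tr y (qy y ^ (l + 1)) : ℝ) : ℂ) / ((l + 1 : ℕ) : ℂ) *
        ((qy y : ℂ) ^ (-(s - (k : ℂ)))) ^ (l + 1) := by
  have hq : (qy y : ℂ) ≠ 0 := by
    have := two_le_qy y
    exact_mod_cast (by omega : qy y ≠ 0)
  have h0 : (qy y : ℂ) ^ (-(((l + 1 : ℕ) : ℂ) * s)) * (((qy y : ℂ) ^ (l + 1)) ^ k) =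
      ((qy y : ℂ) ^ (-(s - (k : ℂ)))) ^ (l + 1) := by
    rw [← Complex.cpow_nat_mul, ← pow_mul, ← Complex.cpow_natCast, ← Complex.cpow_add _ _ hq]
    congr 1
    push_cast
    ring
  rw [← h0]
  unfold ntY
  rw [if_neg hy]
  have h1 : ((qy y : ℂ) ^ (l + 1)) ^ k ≠ 0 := pow_ne_zero _ (pow_ne_zero _ hq)
  push_cast
  field_simp

/-- **The pole of the L-function over a finitely generated field.** -/
theorem famF_pole (htr : Algebra.trdeg ℚ (FractionRing R) = n) (hreg : Reg (FractionRing R))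
    (hco : ∀ x i, co x i ≠ 0)
    (heven : ∀ x, mult x ≠ 0 → Even (Fintype.card (ι x))) (hD : 0 < D) (hN₁ : N₁ ≠ 0)
    (h : ∀ (F : Type) [Field F], TrFF sys mult co D a k N₁ tr F)
    (loc : Pt R → ℂ → ℂ)
    (hloc : ∀ y s, loc y s = Complex.exp (∑' l : ℕ, (tr y (qy y ^ (l + 1)) : ℂ) *
      (qy y : ℂ) ^ (-(((l + 1 : ℕ) : ℂ) * s)) / ((l + 1 : ℕ) : ℂ))) :
    (∀ y : Pt R, N₁ ∉ y.asIdeal → ∀ s : ℂ, (k : ℝ) < s.re →
      Summable fun l : ℕ => (tr y (qy y ^ (l + 1)) : ℂ) *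
        (qy y : ℂ) ^ (-(((l + 1 : ℕ) : ℂ) * s)) / ((l + 1 : ℕ) : ℂ)) ∧
    (∀ s : ℂ, ((k + n + 1 : ℕ) : ℝ) < s.re → Multipliable
      fun y : {y : Pt R // N₁ ∉ y.asIdeal} => loc y.1 s) ∧
    ∃ G : ℂ → ℂ, AnalyticAt ℂ G ((k + n + 1 : ℕ) : ℂ) ∧ G ((k + n + 1 : ℕ) : ℂ) ≠ 0 ∧
      ∀ᶠ s : ℂ in 𝓝 ((k + n + 1 : ℕ) : ℂ), ((k + n + 1 : ℕ) : ℝ) < s.re →
        (∏' y : {y : Pt R // N₁ ∉ y.asIdeal}, loc y.1 s) *
          (s - ((k + n + 1 : ℕ) : ℂ)) ^ (famRhoF sys mult co D a) = G s := by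
  obtain ⟨h1, G, hG, hG1, hGL⟩ := famF_core htr hreg hco heven hD hN₁ h
  have hB0 : 0 ≤ famBnd ι mult D a := famBnd_nonneg
  have hbd := ntY_bound (k := k) (N₁ := N₁) (tr := tr) hD h
  have hz : ∀ y : {y : Pt R // N₁ ∉ y.asIdeal}, ∀ s,
      loc y.1 s = ZG (ntY k N₁ tr) y.1 ((qy y.1 : ℂ) ^ (-(s - (k : ℂ)))) := by
    intro y s
    rw [hloc]
    unfold ZG
    congr 1
    exact tsum_congr fun l => ntY_term y.2 s l
  have hre : ∀ s : ℂ, ((k + n + 1 : ℕ) : ℝ) < s.re → (n : ℝ) + 1 < (s - (k : ℂ)).re := by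
    intro s hs
    rw [Complex.sub_re, Complex.natCast_re]
    push_cast at hs
    linarith
  have hs0 : ((k + n + 1 : ℕ) : ℂ) - (k : ℂ) = (n : ℂ) + 1 := by
    push_cast
    ring
  refine ⟨?_, ?_, fun s => G (s - (k : ℂ)), ?_, ?_, ?_⟩
  · intro y hy s hs
    have hq2 := two_le_qy y
    have hq0 : (0 : ℝ) < (qy y : ℝ) := by
      exact_mod_cast (by omega : 0 < qy y)
    have hnorm : ‖(qy y : ℂ) ^ (-(s - (k : ℂ)))‖ < 1 := by
      rw [Complex.norm_natCast_cpow_of_pos (by omega)]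
      apply Real.rpow_lt_one_of_one_lt_of_neg
      · exact_mod_cast (by omega : 1 < qy y)
      · rw [Complex.neg_re, Complex.sub_re, Complex.natCast_re]
        linarith
    have h2 : Summable fun l : ℕ => famBnd ι mult D a * ‖(qy y : ℂ) ^ (-(s - (k : ℂ)))‖ ^ (l + 1) := by
      apply Summable.mul_left
      exact (summable_nat_add_iff 1).2 (summable_geometric_of_lt_one (norm_nonneg _) hnorm)
    refine Summable.of_norm_bounded h2 fun l => ?_
    rw [ntY_term (k := k) hy s l, norm_mul, norm_div, norm_pow, Complex.norm_natCast,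
      Complex.norm_real, Real.norm_eq_abs]
    refine mul_le_mul_of_nonneg_right ?_ (by positivity)
    obtain ⟨F, _, _, φ, h3, h4⟩ := exists_hom_at y l
    have h5 := hbd F φ
    rw [h3, h4] at h5
    refine (div_le_self (abs_nonneg _) ?_).trans h5
    push_cast
    have : (0 : ℝ) ≤ l := Nat.cast_nonneg _
    linarith
  · intro s hs
    have h2 := h1 (s - k) (hre s hs)
    refine (multipliable_congr fun y => ?_).2 h2
    exact hz y s
  · have h2 : AnalyticAt ℂ (fun s : ℂ => s - (k : ℂ)) ((k + n + 1 : ℕ) : ℂ) := by fun_prop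
    have h3 : AnalyticAt ℂ G (((k + n + 1 : ℕ) : ℂ) - (k : ℂ)) := by
      rw [hs0]
      exact hG
    exact AnalyticAt.fun_comp h3 h2
  · simp only [hs0]
    exact hG1
  · have hcont : Tendsto (fun s : ℂ => s - (k : ℂ)) (𝓝 ((k + n + 1 : ℕ) : ℂ)) (𝓝 ((n : ℂ) + 1)) := by
      have h2 : Continuous (fun s : ℂ => s - (k : ℂ)) := by fun_prop
      have h3 := h2.tendsto ((k + n + 1 : ℕ) : ℂ)
      rwa [hs0] at h3
    filter_upwards [hcont.eventually hGL] with s hs hs2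
    have h2 := hs (hre s hs2)
    rw [← h2, tprod_congr fun y => hz y s]
    congr 2
    push_cast
    ring

end

end Pool.Agent.L0h11.RG
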