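import Mathlib
import Pool.Agent.Y2.Cv.Defs
import Pool.Agent.L0h11.Vd

/-!
# Products of diagonal hypersurfaces over the fields of rational functions: definitions
-/

set_option autoImplicit false

namespace Pool.Agent.L0h11

open Polynomial

/-- The number of the points of the hypersurface `f = 0` in projective space with coordinates in the
field with `q` elements, where `k` is a subfield of this field: `1 / (q - 1)` times the number of the
nonzero zeros of the homogeneous polynomial `f` whose coordinates are elements `x` of the algebraic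
closure of `k` with `x ^ q = x`. -/
noncomputable def projPoints (k : Type) [Field k] {ι : Type} (f : MvPolynomial ι k) (q : ℕ) : ℝ :=
  ((Nat.card {x : ι → AlgebraicClosure k // (∀ i, x i ^ q = x i) ∧ MvPolynomial.aeval x f = 0} : ℝ) -
    1) / ((q : ℝ) - 1)

/-- The norm of a closed point of the affine space over `ℤ`, the number of the elements of its residue
field. -/
noncomputable def pointNorm {n : ℕ} (y : MaximalSpectrum (MvPolynomial (Fin n) ℤ)) : ℕ :=
  Nat.card (MvPolynomial (Fin n) ℤ ⧸ y.asIdeal)

/-- The number of the points, with coordinates in the field with `q` elements, of the fibre at the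
closed point `y` of the family `f = 0` of projective hypersurfaces, where `q` is a power of the norm of
`y`. -/
noncomputable def fibrePoints {n : ℕ} {ι : Type} (f : MvPolynomial ι (MvPolynomial (Fin n) ℤ))
    (y : MaximalSpectrum (MvPolynomial (Fin n) ℤ)) (q : ℕ) : ℝ :=
  haveI : y.asIdeal.IsMaximal := y.isMaximal
  letI : Field (MvPolynomial (Fin n) ℤ ⧸ y.asIdeal) := Ideal.Quotient.field y.asIdeal
  projPoints (MvPolynomial (Fin n) ℤ ⧸ y.asIdeal)
    (MvPolynomial.map (Ideal.Quotient.mk y.asIdeal) f) q

/-- The line of the family `b` of residues modulo `M` is algebraic, by the following theorems: for a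
multiple `m'` of `M` the multiset of the residues `(m' / M) * b_i` belongs to the smallest family of
multisets of residues modulo `m'` which contains the Hodge characters with four entries and the
curve products (unions of two characters of curves, or of Fermat threefolds with empty Fine
interior, which are Hodge characters), the pairs `{a, -a}` and the standard characters of Aoki and
Shioda, and which is closed under union and under removing a pair `{a, -a}`. -/
def IsAlgebraicLine (M : ℕ) {ι : Type} [Fintype ι] (b : ι → ZMod M) : Prop :=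
  ∃ m' : ℕ, 0 < m' ∧ M ∣ m' ∧ Pool.Agent.H916R2.Generated m'
    (Pool.Agent.Y2.Cv.SurfaceOrCurveProduct m')
    (Finset.univ.val.map fun i => ((m' / M * (b i).val : ℕ) : ZMod m'))

/-- The product `X` of the diagonal hypersurfaces
`X_j : c_(j,0) * x_0 ^ (m_j) + ... + c_(j,N_j-1) * x_(N_j-1) ^ (m_j) = 0`, `j < r`, of dimensions
`N_j - 2`, over the field `ℚ(t_1, ..., t_n)`; the coefficients are nonzero elements of
`ℤ[t_1, ..., t_n]`. -/
structure DiagOver (n : ℕ) where
  r : ℕ
  m : Fin r → ℕ
  N : Fin r → ℕ
  c : ∀ j, Fin (N j) → MvPolynomial (Fin n) ℤ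
  m_pos : ∀ j, 0 < m j
  N_two : ∀ j, 2 ≤ N j
  c_ne : ∀ j i, c j i ≠ 0

namespace DiagOver

variable {n : ℕ} (X : DiagOver n)

/-- the least common multiple of the degrees -/
def lcm : ℕ := Finset.univ.lcm X.m

/-- the equation of `X_j` -/
noncomputable def eqn (j : Fin X.r) : MvPolynomial (Fin (X.N j)) (MvPolynomial (Fin n) ℤ) :=
  ∑ i, MvPolynomial.C (X.c j i) * MvPolynomial.X i ^ X.m j

/-- The open subscheme `N₁ ≠ 0` of the affine space over `ℤ` is nonempty and the fibres of the `X_j` at
its closed points are smooth. -/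
def IsModel (N₁ : MvPolynomial (Fin n) ℤ) : Prop :=
  N₁ ≠ 0 ∧ ∀ y : MaximalSpectrum (MvPolynomial (Fin n) ℤ), N₁ ∉ y.asIdeal →
    ∀ j, ((X.m j : ℕ) : MvPolynomial (Fin n) ℤ) ∉ y.asIdeal ∧ ∀ i, X.c j i ∉ y.asIdeal

/-- The trace on the primitive cohomology of degree `N_j - 2` of the fibre of `X_j` at `y` of the
power of the Frobenius element with the field of definition with `q` elements: `(-1) ^ (N_j - 2)` times
the number of points minus `1 + q + ... + q ^ (N_j - 2)`. -/
noncomputable def primTrace (j : Fin X.r) (y : MaximalSpectrum (MvPolynomial (Fin n) ℤ)) (q : ℕ) : ℝ :=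
  (-1) ^ (X.N j) * (fibrePoints (X.eqn j) y q - ∑ i ∈ Finset.range (X.N j - 1), (q : ℝ) ^ i)

/-- The polynomial whose coefficient of degree `i` is the trace on `H ^ i` of the fibre of `X_j`: the
cohomology consists of a line in each even degree `2 * i`, `0 ≤ i ≤ N_j - 2`, with eigenvalue
`q ^ i`, and of the primitive cohomology in degree `N_j - 2`. -/
noncomputable def tracePoly (j : Fin X.r) (y : MaximalSpectrum (MvPolynomial (Fin n) ℤ)) (q : ℕ) :
    ℝ[X] :=
  (∑ i ∈ Finset.range (X.N j - 1), C ((q : ℝ) ^ i) * Polynomial.X ^ (2 * i)) +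
    C (X.primTrace j y q) * Polynomial.X ^ (X.N j - 2)

/-- The trace on `H ^ (2 * k)` of the fibre of `X` at `y`, by the formula of Künneth: for
`q = N(y) ^ l` the trace of the `l`-th power of the Frobenius element. -/
noncomputable def trace (k : ℕ) (y : MaximalSpectrum (MvPolynomial (Fin n) ℤ)) (q : ℕ) : ℝ :=
  (∏ j, X.tracePoly j y q).coeff (2 * k)

/-- The Euler factor `det (1 - Frob_y * N(y) ^ (-s) | H ^ (2 * k) (X)) ^ (-1)`, as the exponential of
the sum over `l ≥ 1` (here `l + 1`) of the traces of the `l`-th powers. -/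
noncomputable def localFactor (k : ℕ) (y : MaximalSpectrum (MvPolynomial (Fin n) ℤ)) (s : ℂ) : ℂ :=
  Complex.exp (∑' l : ℕ, (X.trace k y (pointNorm y ^ (l + 1)) : ℂ) *
    (pointNorm y : ℂ) ^ (-(((l + 1 : ℕ) : ℂ) * s)) / ((l + 1 : ℕ) : ℂ))

/-- The L-function of `H ^ (2 * k) (X)`, the Euler product over the closed points of the open subscheme
`N₁ ≠ 0` of the affine space over `ℤ`. -/
noncomputable def LFunction (k : ℕ) (N₁ : MvPolynomial (Fin n) ℤ) (s : ℂ) : ℂ :=
  ∏' y : {y : MaximalSpectrum (MvPolynomial (Fin n) ℤ) // N₁ ∉ y.asIdeal}, X.localFactor k y.1 s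

/-- the indices of the coordinates of the factors `X_j`, `j ∈ J` -/
abbrev Idx (J : Finset (Fin X.r)) : Type := Σ j : {j // j ∈ J}, Fin (X.N j.1)

/-- The lines of level `M` for the set `J` of factors: for each `j ∈ J` an `N_j`-tuple of nonzero
residues modulo `M`, with sum zero and annihilated by `m_j`, such that all these residues do not come
from a proper divisor of `M`. It belongs to the tensor product of the lines `V(b_j)` in the primitive
cohomology of the `X_j`, `j ∈ J`, and of any line in the cohomology of the other factors which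
is spanned by a power of the class of a hyperplane. -/
def IsLine (J : Finset (Fin X.r)) (M : ℕ) (b : X.Idx J → ZMod M) : Prop :=
  ((∀ x, b x ≠ 0) ∧ (∀ j : {j // j ∈ J}, ∑ i, b ⟨j, i⟩ = 0) ∧
    ∀ x : X.Idx J, (X.m x.1.1 : ZMod M) * b x = 0) ∧
  ∀ k : ℕ, (∀ x, (k : ZMod M) * b x = 0) → M ∣ k

/-- the coefficients of the factors `X_j`, `j ∈ J` -/
def coeff (J : Finset (Fin X.r)) : X.Idx J → MvPolynomial (Fin n) ℤ := fun x => X.c x.1.1 x.2

/-- The number of the ways to complete the primitive cohomology of the factors `X_j`, `j ∈ J`, to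
degree `2 * k` by powers of the classes of hyperplanes of the other factors. -/
noncomputable def mult (J : Finset (Fin X.r)) (k : ℕ) : ℕ :=
  ((∏ j ∈ J, Polynomial.X ^ (X.N j - 2)) *
    ∏ j ∈ Finset.univ \ J, ∑ i ∈ Finset.range (X.N j - 1), Polynomial.X ^ (2 * i) : ℕ[X]).coeff
      (2 * k)

/-- The number of the Galois orbits of lines in `H ^ (2 * k) (X)(k)` with trivial Galois action. The
Galois group of `ℚ(ζ_M)/ℚ` acts freely on the lines of level `M` for `J`; the Galois group of
`ℚ(ζ_M)(t_1, ..., t_n)` acts trivially on the line of `b` if and only if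
`RationalOver M b (X.coeff J)` holds. -/
noncomputable def rho (k : ℕ) : ℕ :=
  ∑ J ∈ (Finset.univ : Finset (Fin X.r)).powerset, X.mult J k *
    ∑ M ∈ X.lcm.divisors, Nat.card {b : X.Idx J → ZMod M //
      X.IsLine J M b ∧ RationalOver M b (X.coeff J)} / M.totient

end DiagOver

end Pool.Agent.L0h11
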