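import Mathlib
import Pool.Agent.L0h11.Ve
import Pool.Agent.L0h11.Gf
import Pool.Agent.L0h11.Nx

/-!
# Products of diagonal hypersurfaces and invertible hypersurfaces over finitely generated fields:
definitions

`R` is a finitely generated ring with field of fractions `K`. The closed points of `Spec R` are the
elements of `MaximalSpectrum R`.
-/

set_option autoImplicit false

namespace Pool.Agent.L0h11.RG

open Polynomial

variable {R : Type} [CommRing R]

/-- The norm of a closed point of `Spec R`, the number of the elements of its residue field. -/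
noncomputable def pointNorm (y : MaximalSpectrum R) : ℕ := Nat.card (R ⧸ y.asIdeal)

/-- The number of the points, with coordinates in the field with `q` elements, of the fibre at the
closed point `y` of the family `f = 0` of projective hypersurfaces, where `q` is a power of the norm of
`y`. -/
noncomputable def fibrePoints {ι : Type} (f : MvPolynomial ι R) (y : MaximalSpectrum R) (q : ℕ) : ℝ :=
  haveI : y.asIdeal.IsMaximal := y.isMaximal
  letI : Field (R ⧸ y.asIdeal) := Ideal.Quotient.field y.asIdeal
  projPoints (R ⧸ y.asIdeal) (MvPolynomial.map (Ideal.Quotient.mk y.asIdeal) f) q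

end Pool.Agent.L0h11.RG

namespace Pool.Agent.L0h11

open Polynomial

/-- The product `X` of the diagonal hypersurfaces
`X_j : c_(j,0) * x_0 ^ (m_j) + ... + c_(j,N_j-1) * x_(N_j-1) ^ (m_j) = 0`, `j < r`, of dimensions
`N_j - 2`, over the field of fractions of `R`; the coefficients are nonzero elements of `R`. -/
structure DiagK (R : Type) [CommRing R] where
  r : ℕ
  m : Fin r → ℕ
  N : Fin r → ℕ
  c : ∀ j, Fin (N j) → R
  m_pos : ∀ j, 0 < m j
  N_two : ∀ j, 2 ≤ N j
  c_ne : ∀ j i, c j i ≠ 0

namespace DiagK

variable {R : Type} [CommRing R] (X : DiagK R)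

/-- the least common multiple of the degrees -/
def lcm : ℕ := Finset.univ.lcm X.m

/-- the equation of `X_j` -/
noncomputable def eqn (j : Fin X.r) : MvPolynomial (Fin (X.N j)) R :=
  ∑ i, MvPolynomial.C (X.c j i) * MvPolynomial.X i ^ X.m j

/-- The open subscheme `N₁ ≠ 0` of `Spec R` is nonempty and the fibres of the `X_j` at its closed points
are smooth. -/
def IsModel (N₁ : R) : Prop :=
  N₁ ≠ 0 ∧ ∀ y : MaximalSpectrum R, N₁ ∉ y.asIdeal →
    ∀ j, ((X.m j : ℕ) : R) ∉ y.asIdeal ∧ ∀ i, X.c j i ∉ y.asIdeal

/-- The trace on the primitive cohomology of degree `N_j - 2` of the fibre of `X_j` at `y` of the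
power of the Frobenius element with the field of definition with `q` elements: `(-1) ^ (N_j - 2)` times
the number of points minus `1 + q + ... + q ^ (N_j - 2)`. -/
noncomputable def primTrace (j : Fin X.r) (y : MaximalSpectrum R) (q : ℕ) : ℝ :=
  (-1) ^ (X.N j) * (RG.fibrePoints (X.eqn j) y q - ∑ i ∈ Finset.range (X.N j - 1), (q : ℝ) ^ i)

/-- The polynomial whose coefficient of degree `i` is the trace on `H ^ i` of the fibre of `X_j`: the
cohomology consists of a line in each even degree `2 * i`, `0 ≤ i ≤ N_j - 2`, with eigenvalue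
`q ^ i`, and of the primitive cohomology in degree `N_j - 2`. -/
noncomputable def tracePoly (j : Fin X.r) (y : MaximalSpectrum R) (q : ℕ) : ℝ[X] :=
  (∑ i ∈ Finset.range (X.N j - 1), C ((q : ℝ) ^ i) * Polynomial.X ^ (2 * i)) +
    C (X.primTrace j y q) * Polynomial.X ^ (X.N j - 2)

/-- The trace on `H ^ (2 * k)` of the fibre of `X` at `y`, by the formula of Künneth: for
`q = N(y) ^ l` the trace of the `l`-th power of the Frobenius element. -/
noncomputable def trace (k : ℕ) (y : MaximalSpectrum R) (q : ℕ) : ℝ :=
  (∏ j, X.tracePoly j y q).coeff (2 * k)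

/-- The Euler factor `det (1 - Frob_y * N(y) ^ (-s) | H ^ (2 * k) (X)) ^ (-1)`, as the exponential of
the sum over `l ≥ 1` (here `l + 1`) of the traces of the `l`-th powers. -/
noncomputable def localFactor (k : ℕ) (y : MaximalSpectrum R) (s : ℂ) : ℂ :=
  Complex.exp (∑' l : ℕ, (X.trace k y (RG.pointNorm y ^ (l + 1)) : ℂ) *
    (RG.pointNorm y : ℂ) ^ (-(((l + 1 : ℕ) : ℂ) * s)) / ((l + 1 : ℕ) : ℂ))

/-- The L-function of `H ^ (2 * k) (X)`, the Euler product over the closed points of the open subscheme
`N₁ ≠ 0` of `Spec R`. -/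
noncomputable def LFunction (k : ℕ) (N₁ : R) (s : ℂ) : ℂ :=
  ∏' y : {y : MaximalSpectrum R // N₁ ∉ y.asIdeal}, X.localFactor k y.1 s

/-- the indices of the coordinates of the factors `X_j`, `j ∈ J` -/
abbrev Idx (J : Finset (Fin X.r)) : Type := Σ j : {j // j ∈ J}, Fin (X.N j.1)

/-- The lines of level `M` for the set `J` of factors: for each `j ∈ J` an `N_j`-tuple of nonzero
residues modulo `M`, with sum zero and annihilated by `m_j`, such that all these residues do not come
from a proper divisor of `M`. It belongs to the tensor product of the lines `V(b_j)` in the primitive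
cohomology of the `X_j`, `j ∈ J`, and of any line in the cohomology of the other factors which
is spanned by a power of the class of a hyperplane. -/
def IsLine (J : Finset (Fin X.r)) (M : ℕ) (b : X.Idx J → ZMod M) : Prop :=
  ((∀ x, b x ≠ 0) ∧ (∀ j : {j // j ∈ J}, ∑ i, b ⟨j, i⟩ = 0) ∧
    ∀ x : X.Idx J, (X.m x.1.1 : ZMod M) * b x = 0) ∧
  ∀ k : ℕ, (∀ x, (k : ZMod M) * b x = 0) → M ∣ k

/-- the coefficients of the factors `X_j`, `j ∈ J` -/
def coeff (J : Finset (Fin X.r)) : X.Idx J → R := fun x => X.c x.1.1 x.2

/-- The number of the ways to complete the primitive cohomology of the factors `X_j`, `j ∈ J`, to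
degree `2 * k` by powers of the classes of hyperplanes of the other factors. -/
noncomputable def mult (J : Finset (Fin X.r)) (k : ℕ) : ℕ :=
  ((∏ j ∈ J, Polynomial.X ^ (X.N j - 2)) *
    ∏ j ∈ Finset.univ \ J, ∑ i ∈ Finset.range (X.N j - 1), Polynomial.X ^ (2 * i) : ℕ[X]).coeff
      (2 * k)

/-- The number of the Galois orbits of lines in `H ^ (2 * k) (X)(k)` with trivial Galois action, if `ℚ` is
algebraically closed in the field of fractions `K` of `R`. Then the Galois group of `K(ζ_M)/K` acts
freely on the lines of level `M` for `J`, and the Galois group of `K(ζ_M)` acts trivially on the line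
of `b` if and only if `RationalOver M b (X.coeff J)` holds. -/
noncomputable def rho (k : ℕ) : ℕ :=
  ∑ J ∈ (Finset.univ : Finset (Fin X.r)).powerset, X.mult J k *
    ∑ M ∈ X.lcm.divisors, Nat.card {b : X.Idx J → ZMod M //
      X.IsLine J M b ∧ RG.RationalOver M b (X.coeff J)} / M.totient

end DiagK

/-- A hypersurface `X` of degree `m ≥ 3` and even dimension `N - 2` over the field of fractions of `R`: the
sum of the blocks `j < l`, the block `j` being the loop (if `loop j` holds)
`c_0 * x_0 ^ (m - 1) * x_1 + ... + c_(r-2) * x_(r-2) ^ (m - 1) * x_(r-1) + c_(r-1) * x_(r-1) ^ (m - 1) * x_0`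
or the chain
`c_0 * x_0 ^ (m - 1) * x_1 + ... + c_(r-2) * x_(r-2) ^ (m - 1) * x_(r-1) + c_(r-1) * x_(r-1) ^ m` of length
`r = len j`, in the `N = ∑ len j` variables `(j, i)`, `i < len j`; the coefficients `c` are nonzero elements
of `R`. At least one block has a length greater than one, i.e. `X` is not diagonal in these
coordinates. -/
structure InvertibleK (R : Type) [CommRing R] where
  l : ℕ
  m : ℕ
  len : Fin l → ℕ
  loop : Fin l → Bool
  c : (Σ j : Fin l, Fin (len j)) → R
  three_le : 3 ≤ m
  len_pos : ∀ j, 0 < len j
  c_ne : ∀ x, c x ≠ 0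
  not_diag : ∃ j, 2 ≤ len j
  even : Even (∑ j, len j)

namespace InvertibleK

variable {R : Type} [CommRing R] (X : InvertibleK R)

/-- the set of the variables -/
abbrev Idx : Type := Σ j : Fin X.l, Fin (X.len j)

/-- the number of the variables -/
def N : ℕ := ∑ j, X.len j

/-- the successor of a variable in its block -/
def next (x : X.Idx) : X.Idx := ⟨x.1, nx (X.loop x.1) x.2⟩

/-- the equation of `X` -/
noncomputable def eqn : MvPolynomial X.Idx R :=
  ∑ x, MvPolynomial.C (X.c x) * MvPolynomial.X x ^ (X.m - 1) * MvPolynomial.X (X.next x)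

/-- The least common multiple `D` of the determinants (up to the sign) of the matrices of the
exponents of the blocks: `m * (m - 1) ^ (r - 1)` for a chain and `|(1 - m) ^ r - 1|` for a loop of
length `r`. -/
def D : ℕ := Finset.univ.lcm fun j =>
  if X.loop j then ((1 - (X.m : ℤ)) ^ X.len j - 1).natAbs else X.m * (X.m - 1) ^ (X.len j - 1)

/-- The open subscheme `N₁ ≠ 0` of `Spec R` is nonempty and at its closed points `D` and the coefficients
are not zero, so that the fibres of `X` are smooth. -/
def IsModel (N₁ : R) : Prop :=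
  N₁ ≠ 0 ∧ ∀ y : MaximalSpectrum R, N₁ ∉ y.asIdeal →
    ((X.D : ℕ) : R) ∉ y.asIdeal ∧ ∀ x, X.c x ∉ y.asIdeal

/-- The trace on the cohomology `H ^ (N - 2)` of the fibre of `X` at `y` of the power of the Frobenius
element with the field of definition with `q` elements, by the trace formula: the number of points
minus the sum of the `q ^ j` with `0 ≤ j ≤ N - 2` and `j ≠ N / 2 - 1`. -/
noncomputable def trace (y : MaximalSpectrum R) (q : ℕ) : ℝ :=
  RG.fibrePoints X.eqn y q - ∑ j ∈ (Finset.range (X.N - 1)).erase (X.N / 2 - 1), (q : ℝ) ^ j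

/-- The Euler factor `det (1 - Frob_y * N(y) ^ (-s) | H ^ (N - 2) (X)) ^ (-1)`, as the exponential of the
sum over `l ≥ 1` (here `l + 1`) of the traces of the `l`-th powers. -/
noncomputable def localFactor (y : MaximalSpectrum R) (s : ℂ) : ℂ :=
  Complex.exp (∑' l : ℕ, (X.trace y (RG.pointNorm y ^ (l + 1)) : ℂ) *
    (RG.pointNorm y : ℂ) ^ (-(((l + 1 : ℕ) : ℂ) * s)) / ((l + 1 : ℕ) : ℂ))

/-- The L-function of `H ^ (N - 2) (X)`, the Euler product over the closed points of the open subscheme
`N₁ ≠ 0` of `Spec R`. -/
noncomputable def LFunction (N₁ : R) (s : ℂ) : ℂ :=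
  ∏' y : {y : MaximalSpectrum R // N₁ ∉ y.asIdeal}, X.localFactor y.1 s

/-- extension by zero -/
def ext (J : Finset X.Idx) {M : ℕ} (b : {x // x ∈ J} → ZMod M) (x : X.Idx) : ZMod M :=
  if h : x ∈ J then b ⟨x, h⟩ else 0

/-- The lines of exact level `M` with the support `J`: the families `b` of nonzero residues modulo `M`,
indexed by the variables in `J`, with sum zero, such that for the extension `b'` of `b` by zero and
for all variables `y` the sum of `(m - 1) * b' y` and of the `b' x` with `next x = y` is zero, and
which do not come from a proper divisor of `M`. -/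
def IsLine (J : Finset X.Idx) (M : ℕ) (b : {x // x ∈ J} → ZMod M) : Prop :=
  ((∀ x, b x ≠ 0) ∧ ∑ x, b x = 0 ∧ ∀ y, ((X.m - 1 : ℕ) : ZMod M) * X.ext J b y +
    ∑ x ∈ Finset.univ.filter (fun x => X.next x = y), X.ext J b x = 0) ∧
  ∀ k : ℕ, (∀ x, (k : ZMod M) * b x = 0) → M ∣ k

/-- the coefficients in the support -/
def coeff (J : Finset X.Idx) : {x // x ∈ J} → R := fun x => X.c x.1

/-- The multiplicity of the lines with the support `J` in `H ^ (N - 2) (X)`: zero if a block contains an
odd number of variables outside `J`; otherwise `2 ^ a`, where `a` is the number of the loops without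
variables in `J`. -/
def mult (J : Finset X.Idx) : ℕ :=
  ∏ j, mu (X.loop j) (X.len j) (Finset.univ.filter fun i => (⟨j, i⟩ : X.Idx) ∉ J).card

/-- The number of the Galois orbits of lines in `H ^ (N - 2) (X)(N / 2 - 1)` with trivial Galois action, if
`ℚ` is algebraically closed in the field of fractions `K` of `R`: the additional `1` is for the class
of the intersection of `N / 2 - 1` hyperplanes; the Galois group of `K(ζ_M)/K` acts freely on the lines
of exact level `M`, and the Galois group of `K(ζ_M)` acts trivially on the line of `b` if and only if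
`RationalOver M b (X.coeff J)` holds. -/
noncomputable def rho : ℕ :=
  1 + ∑ J : Finset X.Idx, X.mult J * ∑ M ∈ X.D.divisors, Nat.card {b : {x // x ∈ J} → ZMod M //
    X.IsLine J M b ∧ RG.RationalOver M b (X.coeff J)} / M.totient

end InvertibleK

end Pool.Agent.L0h11
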