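import Mathlib
import Pool.Agent.L0h11.Vf
import Pool.Agent.L0h11.Prd

/-!
# The number of points of diagonal and Delsarte hypersurfaces with coefficients in a finite field
-/

set_option autoImplicit false
set_option linter.unusedSectionVars false

namespace Pool.Agent.L0h11

open Finset

lemma lamF_up {F : Type} [Field F] [Fintype F] {M d : ℕ} [NeZero M] [NeZero d] (h : M ∣ d) {w : F}
    (hw : IsPrimitiveRoot w d) (e : AddChar (ZMod d) ℂ)
    (ψ : AddChar F ℂ) {ι : Type} [Fintype ι] (c : ι → F) (b : ι → ZMod M) :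
    lamF hw e ψ c (fun i => up h (b i)) = lamF (prim_div h hw) (eup h e) ψ c b := by
  unfold lamF
  refine prod_congr rfl fun i _ => ?_
  rw [← map_neg, ch_up]
  congr 1
  unfold GE GG
  rw [ch_up]
  simp only [up_eq_zero]

section

variable {F : Type} [Field F] [Fintype F]

open Classical in
/-- the number of points of the affine cone `∑ c_i x_i ^ m = 0` -/
noncomputable def coneF (m : ℕ) {ι : Type} [Fintype ι] (c : ι → F) : ℕ :=
  Fintype.card {x : ι → F // ∑ i, c i * x i ^ m = 0}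

variable {m : ℕ} (hm : 0 < m) {d : ℕ} [NeZero d] (hd : d = Nat.gcd m (Fintype.card F - 1))
  {w : F} (hw : IsPrimitiveRoot w d)

include hm hd in
/-- **Weil's formula** for the cone -/
theorem coneF_eq {e : AddChar (ZMod d) ℂ}
    (he : ∀ i, e i = 1 → i = 0) {ψ : AddChar F ℂ} (hψ : ψ.IsPrimitive) {ι : Type} [Fintype ι]
    [DecidableEq ι] (c : ι → F) (hc : ∀ i, c i ≠ 0) :
    (Fintype.card F : ℂ) * coneF m c = (Fintype.card F : ℂ) ^ (Fintype.card ι) +
      (Fintype.card F - 1) * ∑ b ∈ (Fintype.piFinset fun _ : ι =>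
        (univ : Finset (ZMod d)).erase 0).filter fun b => ∑ i, b i = 0,
        ∏ i, (ch hw e (-(b i)) (c i) * gaussSum (ch hw e (b i)) ψ) := by
  classical
  -- orthogonality
  have h1 : (Fintype.card F : ℂ) * coneF m c =
      ∑ a : F, ∑ x : ι → F, ψ (a * ∑ i, c i * x i ^ m) := by
    rw [sum_comm]
    have h2 : ∀ x : ι → F, ∑ a : F, ψ (a * ∑ i, c i * x i ^ m) =
        if ∑ i, c i * x i ^ m = 0 then (Fintype.card F : ℂ) else 0 := by
      intro x
      rw [AddChar.sum_mulShift _ hψ]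
      split_ifs <;> simp
    rw [sum_congr rfl fun x _ => h2 x, ← sum_filter, sum_const, nsmul_eq_mul, mul_comm]
    congr 2
    unfold coneF
    rw [Fintype.card_subtype]
  have hprod : ∀ (s : Finset ι) (f : ι → F), ψ (∑ i ∈ s, f i) = ∏ i ∈ s, ψ (f i) := by
    intro s f
    induction s using Finset.induction_on with
    | empty => rw [sum_empty, prod_empty, AddChar.map_zero_eq_one]
    | insert i s hi ih => rw [sum_insert hi, prod_insert hi, AddChar.map_add_eq_mul, ih]
  have h2 : ∀ a : F, ∑ x : ι → F, ψ (a * ∑ i, c i * x i ^ m) =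
      ∏ i, ∑ y : F, ψ (a * c i * y ^ m) := by
    intro a
    have e1 : ∀ x : ι → F, ψ (a * ∑ i, c i * x i ^ m) = ∏ i, ψ (a * c i * x i ^ m) := by
      intro x
      rw [mul_sum, hprod]
      exact prod_congr rfl fun i _ => by rw [mul_assoc]
    rw [sum_congr rfl fun x _ => e1 x, prod_univ_sum, Fintype.piFinset_univ]
  rw [h1, sum_congr rfl fun a _ => h2 a, ← add_sum_erase univ _ (mem_univ (0 : F))]
  congr 1
  · simp only [zero_mul, AddChar.map_zero_eq_one, sum_const, card_univ, nsmul_eq_mul, mul_one,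
      prod_const]
  · have h3 : ∀ a ∈ (univ : Finset F).erase 0, ∏ i, ∑ y : F, ψ (a * c i * y ^ m) =
        ∑ b ∈ Fintype.piFinset fun _ : ι => (univ : Finset (ZMod d)).erase 0,
          ch hw e (-∑ i, b i) a *
            ∏ i, (ch hw e (-(b i)) (c i) * gaussSum (ch hw e (b i)) ψ) := by
      intro a ha
      have ha' : a ≠ 0 := ne_of_mem_erase ha
      have e1 : ∀ i, ∑ y : F, ψ (a * c i * y ^ m) =
          ∑ b ∈ (univ : Finset (ZMod d)).erase 0,
            ch hw e (-b) (a * c i) * gaussSum (ch hw e b) ψ :=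
        fun i => sum_psi hm hd hw he hψ (mul_ne_zero ha' (hc i))
      rw [prod_congr rfl fun i _ => e1 i, prod_univ_sum]
      refine sum_congr rfl fun b _ => ?_
      have e2 : ch hw e (-∑ i, b i) a = ∏ i, ch hw e (-(b i)) a := by
        have e3 : ∀ s : Finset ι, ch hw e (-∑ i ∈ s, b i) a = ∏ i ∈ s, ch hw e (-(b i)) a := by
          intro s
          induction s using Finset.induction_on with
          | empty =>
            rw [sum_empty, prod_empty, neg_zero, ch_zero,
              MulChar.one_apply (isUnit_iff_ne_zero.2 ha')]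
          | insert i s hi ih =>
            rw [sum_insert hi, prod_insert hi, neg_add, ch_add, MulChar.mul_apply, ih]
        exact e3 univ
      rw [e2, ← prod_mul_distrib]
      refine prod_congr rfl fun i _ => ?_
      rw [map_mul]
      ring
    rw [sum_congr rfl h3, sum_comm, mul_sum, sum_filter]
    refine sum_congr rfl fun b _ => ?_
    rw [← sum_mul]
    by_cases hb : ∑ i, b i = 0
    · rw [if_pos hb, hb, neg_zero, ch_zero]
      congr 1
      have e4 : ∀ a ∈ (univ : Finset F).erase 0, (1 : MulChar F ℂ) a = 1 := fun a ha =>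
        MulChar.one_apply (isUnit_iff_ne_zero.2 (ne_of_mem_erase ha))
      rw [sum_congr rfl e4, sum_const, card_erase_of_mem (mem_univ _), card_univ, nsmul_eq_mul,
        mul_one, Nat.cast_sub Fintype.card_pos, Nat.cast_one]
    · rw [if_neg hb]
      have e5 : ch hw e (-∑ i, b i) ≠ 1 := by
        rw [Ne, ch_eq_one_iff hw e he, neg_eq_zero]
        exact hb
      have e6 := MulChar.sum_eq_zero_of_ne_one e5
      rw [← add_sum_erase univ _ (mem_univ (0 : F)), MulChar.map_zero, zero_add] at e6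
      rw [e6, zero_mul]

end

/-- Weil's formula for the trace on the primitive cohomology -/
lemma prim_genF {F : Type} [Field F] [Fintype F] {m N : ℕ} (hm : 0 < m) (hN2 : 2 ≤ N)
    (c : Fin N → F) {d : ℕ} [NeZero d] (hd : d = Nat.gcd m (Fintype.card F - 1))
    {w : F} (hw : IsPrimitiveRoot w d) {e : AddChar (ZMod d) ℂ} (he : ∀ i, e i = 1 → i = 0)
    {ψ : AddChar F ℂ} (hψ : ψ.IsPrimitive) (hc : ∀ i, c i ≠ 0) :
    (((-1) ^ N * (((coneF m c : ℝ) - 1) / ((Fintype.card F : ℝ) - 1) -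
      ∑ i ∈ Finset.range (N - 1), (Fintype.card F : ℝ) ^ i) : ℝ) : ℂ) =
      (Real.sqrt (Fintype.card F) : ℂ) ^ (N - 2) * ∑ b ∈ LL d N, lamF hw e ψ c b := by
  classical
  obtain ⟨n, rfl⟩ : ∃ n, N = n + 2 := ⟨N - 2, by omega⟩
  have h1 := coneF_eq hm hd hw he hψ c hc
  set g : ℂ := (Real.sqrt (Fintype.card F) : ℂ) with hg
  have hg2 : g * g = (Fintype.card F : ℂ) := sqrt_mul
  have h2 : ∑ b ∈ (Fintype.piFinset fun _ : Fin (n + 2) =>
        (univ : Finset (ZMod d)).erase 0).filter fun b => ∑ i, b i = 0,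
        ∏ i, (ch hw e (-(b i)) (c i) * gaussSum (ch hw e (b i)) ψ) =
      (-g) ^ (n + 2) * ∑ b ∈ LL d (n + 2), lamF hw e ψ c b := by
    rw [mul_sum]
    refine Finset.sum_congr rfl fun b hb => ?_
    have h0 := lamF_eq' hw e ψ c b ((mem_LL b).1 hb).1
    rwa [Fintype.card_fin] at h0
  rw [h2, Fintype.card_fin] at h1
  set T := ∑ b ∈ LL d (n + 2), lamF hw e ψ c b with hT
  push_cast
  set q : ℂ := (Fintype.card F : ℂ) with hq
  have hq0 : q ≠ 0 := by
    rw [hq]
    exact_mod_cast Fintype.card_ne_zero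
  have hq1 : q - 1 ≠ 0 := by
    rw [hq, sub_ne_zero]
    have := Fintype.one_lt_card (α := F)
    exact_mod_cast this.ne'
  rw [geom_sum_eq (sub_ne_zero.1 hq1)]
  have h6 : (coneF m c : ℂ) = q ^ (n + 1) + (q - 1) * ((-1) ^ (n + 2) * g ^ n * T) := by
    apply mul_left_cancel₀ hq0
    rw [h1]
    have h7 : (-g) ^ (n + 2) = (-1) ^ (n + 2) * (g ^ n * q) := by
      rw [neg_pow, pow_add g, pow_two g, hg2]
    rw [h7]
    ring
  rw [h6]
  have h8 : ((-1 : ℂ) ^ (n + 2)) * ((-1 : ℂ) ^ (n + 2)) = 1 := by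
    rw [← mul_pow]
    norm_num
  have h9 : (q ^ (n + 1) + (q - 1) * ((-1) ^ (n + 2) * g ^ n * T) - 1) / (q - 1) -
      (q ^ (n + 1) - 1) / (q - 1) = (-1) ^ (n + 2) * g ^ n * T := by
    field_simp
    ring
  rw [h9]
  linear_combination g ^ n * T * h8

namespace DiagProduct

variable (X : DiagProduct)

section local_

variable {F : Type} [Field F] [Fintype F]

/-- the primitive trace in terms of the lines of a higher level -/
lemma prim_eqF (j : Fin X.r) {m d : ℕ} [NeZero d] (hjm : X.m j ∣ m)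
    (hd : d = Nat.gcd m (Fintype.card F - 1)) {w : F} (hw : IsPrimitiveRoot w d)
    {e : AddChar (ZMod d) ℂ} (he : ∀ i, e i = 1 → i = 0)
    {ψ : AddChar F ℂ} (hψ : ψ.IsPrimitive) (c : Fin (X.N j) → F) (hc : ∀ i, c i ≠ 0) :
    (((-1) ^ (X.N j) * (((coneF (X.m j) c : ℝ) - 1) / ((Fintype.card F : ℝ) - 1) -
      ∑ i ∈ Finset.range (X.N j - 1), (Fintype.card F : ℝ) ^ i) : ℝ) : ℂ) =
      (Real.sqrt (Fintype.card F) : ℂ) ^ (X.N j - 2) *
      ∑ b ∈ X.L1 j d, lamF hw e ψ c b := by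
  classical
  set d' := Nat.gcd (X.m j) (Fintype.card F - 1) with hd'
  have hd'd : d' ∣ d := by
    rw [hd]
    exact Nat.dvd_gcd ((Nat.gcd_dvd_left _ _).trans hjm) (Nat.gcd_dvd_right _ _)
  have : NeZero d' := ⟨(Nat.gcd_pos_of_pos_left _ (X.m_pos j)).ne'⟩
  rw [prim_genF (X.m_pos j) (X.N_two j) c hd' (prim_div hd'd hw) (eup_inj hd'd he) hψ hc]
  congr 1
  refine Finset.sum_nbij (fun b i => up hd'd (b i)) ?_ ?_ ?_ ?_
  · intro b hb
    rw [mem_LL] at hb
    rw [mem_L1]
    refine ⟨fun i => (up_eq_zero hd'd).not.2 (hb.1 i), ?_, fun i => ?_⟩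
    · rw [← map_sum, hb.2, map_zero]
    · rw [← nsmul_eq_mul, ← map_nsmul, up_eq_zero, nsmul_eq_mul,
        (ZMod.natCast_eq_zero_iff _ _).2 (Nat.gcd_dvd_left _ _), zero_mul]
  · intro b _ b' _ h
    funext i
    exact up_inj hd'd (congrFun h i)
  · intro b hb
    rw [mem_coe, mem_L1] at hb
    have h2 : ∀ i, ∃ a, up hd'd a = b i := by
      intro i
      apply up_range
      have h3 : Nat.gcd (X.m j) d = d' := by
        rw [hd, hd', ← Nat.gcd_assoc, Nat.gcd_eq_left hjm]
      have h4 : ((d' : ℕ) : ZMod d) * b i = 0 := by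
        have h5 := Nat.gcd_eq_gcd_ab (X.m j) d
        have h6 := congrArg (fun x : ℤ => (x : ZMod d)) h5
        push_cast at h6
        rw [ZMod.natCast_self, zero_mul, add_zero, h3] at h6
        rw [h6, mul_right_comm, hb.2.2 i, zero_mul]
      exact h4
    choose a ha using h2
    refine ⟨a, ?_, funext ha⟩
    rw [mem_coe, mem_LL]
    refine ⟨fun i h => hb.1 i ?_, ?_⟩
    · rw [← ha i, h, map_zero]
    · apply up_inj hd'd
      rw [map_sum, map_zero, ← hb.2.1]
      exact Finset.sum_congr rfl fun i _ => ha i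
  · intro b _
    exact (lamF_up hd'd hw e ψ c b).symm

/-- the product over the factors in `J` -/
lemma prod_L1F (J : Finset (Fin X.r)) {d : ℕ} [NeZero d] {w : F} (hw : IsPrimitiveRoot w d)
    (e : AddChar (ZMod d) ℂ) (ψ : AddChar F ℂ) (c : ∀ j, Fin (X.N j) → F) :
    ∏ j ∈ J, ∑ b ∈ X.L1 j d, lamF hw e ψ (c j) b =
      ∑ b ∈ (X.sys J).L d, lamF hw e ψ (fun x : X.Idx J => c x.1.1 x.2) b := by
  classical
  rw [← prod_coe_sort J, prod_univ_sum]
  refine Finset.sum_nbij' (fun f x => f x.1 x.2) (fun b j i => b ⟨j, i⟩) ?_ ?_ ?_ ?_ ?_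
  · intro f hf
    rw [Fintype.mem_piFinset] at hf
    rw [Sys.mem_L]
    refine ⟨fun x => ?_, fun j => ?_, fun x => ?_⟩
    · exact ((X.mem_L1 x.1.1 _).1 (hf x.1)).1 x.2
    · exact ((X.mem_L1 j.1 _).1 (hf j)).2.1
    · exact ((X.mem_L1 x.1.1 _).1 (hf x.1)).2.2 x.2
  · intro b hb
    rw [Sys.mem_L] at hb
    rw [Fintype.mem_piFinset]
    intro j
    rw [mem_L1]
    exact ⟨fun i => hb.1 ⟨j, i⟩, hb.2.1 j, fun i => hb.2.2 ⟨j, i⟩⟩
  · intro f _
    rfl
  · intro b _
    rfl
  · intro f _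
    unfold lamF
    rw [Fintype.prod_sigma]

/-- the expansion of the trace on `H ^ (2 * k)` -/
lemma trace_expandF (k : ℕ) (v : Fin X.r → ℝ) (u : Fin X.r → ℂ) (hu : ∀ j, ((v j : ℝ) : ℂ) =
      (Real.sqrt (Fintype.card F) : ℂ) ^ (X.N j - 2) * u j) :
    (((∏ j, ((∑ i ∈ Finset.range (X.N j - 1), Polynomial.C ((Fintype.card F : ℝ) ^ i) *
      Polynomial.X ^ (2 * i)) + Polynomial.C (v j) * Polynomial.X ^ (X.N j - 2))).coeff (2 * k) : ℝ) :
        ℂ) = (Fintype.card F : ℂ) ^ k *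
      ∑ J ∈ (univ : Finset (Fin X.r)).powerset, (X.mult J k : ℂ) * ∏ j ∈ J, u j := by
  classical
  set g : ℂ := (Real.sqrt (Fintype.card F) : ℂ) with hg
  have hg2 : g * g = (Fintype.card F : ℂ) := sqrt_mul
  let Q : Fin X.r → Polynomial ℂ := fun j => Polynomial.C (u j) * Polynomial.X ^ (X.N j - 2) +
    ∑ i ∈ Finset.range (X.N j - 1), Polynomial.X ^ (2 * i)
  let Pj : Fin X.r → Polynomial ℝ := fun j => (∑ i ∈ Finset.range (X.N j - 1),
    Polynomial.C ((Fintype.card F : ℝ) ^ i) * Polynomial.X ^ (2 * i)) +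
      Polynomial.C (v j) * Polynomial.X ^ (X.N j - 2)
  have h1 : ∀ j, (Pj j).map Complex.ofRealHom =
      (Q j).comp (Polynomial.C g * Polynomial.X) := by
    intro j
    simp only [Pj, Q, Polynomial.map_add, Polynomial.map_mul, Polynomial.map_C, Polynomial.map_pow,
      Polynomial.map_X, Polynomial.add_comp, Polynomial.mul_comp, Polynomial.C_comp,
      Polynomial.pow_comp, Polynomial.X_comp, Polynomial.map_sum, Polynomial.sum_comp,
      Complex.ofRealHom_eq_coe, mul_pow]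
    rw [add_comm]
    congr 1
    · rw [hu j, ← Polynomial.C_pow, Polynomial.C_mul]
      ring
    · refine Finset.sum_congr rfl fun i _ => ?_
      congr 1
      rw [← Polynomial.C_pow]
      congr 1
      rw [pow_mul, pow_two, hg2]
      push_cast
      rfl
  have h2 : (∏ j, Pj j).map Complex.ofRealHom =
      (∏ j, Q j).comp (Polynomial.C g * Polynomial.X) := by
    rw [Polynomial.map_prod, prod_congr rfl fun j _ => h1 j, Polynomial.prod_comp]
  have h3 : (((∏ j, Pj j).coeff (2 * k) : ℝ) : ℂ) =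
      ((∏ j, Pj j).map Complex.ofRealHom).coeff (2 * k) := by
    rw [Polynomial.coeff_map]
    rfl
  refine Eq.trans h3 ?_
  rw [h2, Polynomial.comp_C_mul_X_coeff, pow_mul, pow_two, hg2, mul_comm]
  congr 1
  simp only [Q]
  rw [prod_add, Polynomial.finsetSum_coeff]
  refine Finset.sum_congr rfl fun J _ => ?_
  rw [prod_mul_distrib, ← map_prod, mul_assoc, Polynomial.coeff_C_mul, mul_comm]
  congr 1
  unfold mult
  have h4 : ((∏ j ∈ J, (Polynomial.X : Polynomial ℂ) ^ (X.N j - 2)) *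
      ∏ j ∈ Finset.univ \ J, ∑ i ∈ Finset.range (X.N j - 1), Polynomial.X ^ (2 * i)) =
      ((∏ j ∈ J, (Polynomial.X : Polynomial ℕ) ^ (X.N j - 2)) *
      ∏ j ∈ Finset.univ \ J, ∑ i ∈ Finset.range (X.N j - 1), Polynomial.X ^ (2 * i)).map
        (Nat.castRingHom ℂ) := by
    simp [Polynomial.map_mul, Polynomial.map_prod, Polynomial.map_sum]
  rw [h4, Polynomial.coeff_map]
  rfl

end local_

end DiagProduct

end Pool.Agent.L0h11
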