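import Mathlib
import Pool.Agent.L0h11.Ve
import Pool.Agent.L0h11.Vp
import Pool.Agent.L0h11.Vq

/-!
# Products of diagonal hypersurfaces over the fields of rational functions
-/

set_option autoImplicit false
set_option linter.unusedSectionVars false

namespace Pool.Agent.L0h11

open Finset Filter Topology
open Pool.Agent.TH958.An

lemma pointNorm_eq {n : ℕ} (y : Pt (MvPolynomial (Fin n) ℤ)) : pointNorm y = qy y := rfl

/-- **The points of the fibres over the extensions.** -/
theorem fibrePoints_eq {n : ℕ} {ι : Type} (f : MvPolynomial ι (MvPolynomial (Fin n) ℤ))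
    {F : Type} [Field F] [Fintype F] (φ : MvPolynomial (Fin n) ℤ →+* F) :
    fibrePoints f (ptOf φ) (Fintype.card F) =
      ((Nat.card {x : ι → F // MvPolynomial.eval₂ φ x f = 0} : ℝ) - 1) /
        ((Fintype.card F : ℝ) - 1) := by
  classical
  set y := ptOf φ with hy
  let k := Res y
  let σ : k →+* F := fiberEquiv (F := F) y ⟨φ, rfl⟩
  have hσ : ∀ a, σ (Ideal.Quotient.mk y.asIdeal a) = φ a := fun a => rfl
  let _ : Algebra k F := σ.toAlgebra
  have : Finite k := Finite.of_injective σ σ.injective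
  have hint : Algebra.IsAlgebraic k F := by
    have : Module.Finite k F := Module.Finite.of_finite
    infer_instance
  let τ : F →ₐ[k] AlgebraicClosure k := IsAlgClosed.lift
  have hrange : ∀ x : AlgebraicClosure k, x ^ Fintype.card F = x ↔ ∃ z : F, τ z = x := fun x =>
    range_eq (τ : F →+* AlgebraicClosure k) x
  have hτ : ∀ a : k, τ (σ a) = algebraMap k (AlgebraicClosure k) a := fun a => τ.commutes a
  have hev : ∀ z : ι → F, MvPolynomial.aeval (fun i => τ (z i))
      (MvPolynomial.map (Ideal.Quotient.mk y.asIdeal) f) = τ (MvPolynomial.eval₂ φ z f) := by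
    intro z
    have h1 := MvPolynomial.eval₂_comp_left (τ : F →+* AlgebraicClosure k) φ z f
    refine Eq.trans ?_ h1.symm
    rw [MvPolynomial.aeval_def, MvPolynomial.eval₂_map]
    congr 1
    ext a
    · show algebraMap k (AlgebraicClosure k) (Ideal.Quotient.mk y.asIdeal _) = τ (φ _)
      rw [← hτ, hσ]
    · show algebraMap k (AlgebraicClosure k) (Ideal.Quotient.mk y.asIdeal _) = τ (φ _)
      rw [← hτ, hσ]
  have hcard : Nat.card {x : ι → AlgebraicClosure k // (∀ i, x i ^ Fintype.card F = x i) ∧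
      MvPolynomial.aeval x (MvPolynomial.map (Ideal.Quotient.mk y.asIdeal) f) = 0} =
      Nat.card {x : ι → F // MvPolynomial.eval₂ φ x f = 0} := by
    refine (Nat.card_congr (Equiv.ofBijective
      (fun P : {x : ι → F // MvPolynomial.eval₂ φ x f = 0} =>
      (⟨fun i => τ (P.1 i), fun i => (hrange _).2 ⟨_, rfl⟩, by
        rw [hev, P.2, map_zero]⟩ : {x : ι → AlgebraicClosure k //
          (∀ i, x i ^ Fintype.card F = x i) ∧
      MvPolynomial.aeval x (MvPolynomial.map (Ideal.Quotient.mk y.asIdeal) f) = 0})) ⟨?_, ?_⟩)).symm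
    · intro P P' h
      have h1 := congrArg (fun w => w.1) h
      apply Subtype.ext
      funext i
      exact τ.injective (congrFun h1 i)
    · rintro ⟨x, h1, h2⟩
      choose z hz using fun i => (hrange (x i)).1 (h1 i)
      have hx : x = fun i => τ (z i) := funext fun i => (hz i).symm
      subst hx
      refine ⟨⟨z, ?_⟩, rfl⟩
      apply τ.injective
      show τ (MvPolynomial.eval₂ φ z f) = τ 0
      rw [← hev, h2, map_zero]
  show (((Nat.card {x : ι → AlgebraicClosure k // (∀ i, x i ^ Fintype.card F = x i) ∧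
      MvPolynomial.aeval x (MvPolynomial.map (Ideal.Quotient.mk y.asIdeal) f) = 0} : ℕ) : ℝ) - 1) /
        ((Fintype.card F : ℝ) - 1) = _
  rw [hcard]

namespace DiagOver

variable {n : ℕ} (X : DiagOver n)

/-- the product with the coefficients `1` -/
abbrev shape : DiagProduct where
  r := X.r
  m := X.m
  N := X.N
  c _ _ := 1
  m_pos := X.m_pos
  N_two := X.N_two
  c_ne _ _ := one_ne_zero

lemma lcm_pos : 0 < X.lcm := X.shape.lcm_pos

lemma isLine_iff {J : Finset (Fin X.r)} {M : ℕ} (b : X.Idx J → ZMod M) :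
    X.IsLine J M b ↔ (X.shape.sys J).A M b ∧ IsPrm M b := Iff.rfl

lemma rho_eq (k : ℕ) :
    X.rho k = famRhoF X.shape.sys (fun J => X.mult J k) X.coeff X.lcm 0 := by
  unfold rho famRhoF
  rw [zero_add, powerset_univ]
  rfl

/-- the points of the fibres of the factors -/
lemma fibre_eq (j : Fin X.r) {F : Type} [Field F] [Fintype F]
    (φ : MvPolynomial (Fin n) ℤ →+* F) :
    fibrePoints (X.eqn j) (ptOf φ) (Fintype.card F) =
      ((coneF (X.m j) (fun i => φ (X.c j i)) : ℝ) - 1) / ((Fintype.card F : ℝ) - 1) := by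
  classical
  rw [fibrePoints_eq]
  congr 2
  have h1 : ∀ x : Fin (X.N j) → F, MvPolynomial.eval₂ φ x (X.eqn j) =
      ∑ i, φ (X.c j i) * x i ^ X.m j := by
    intro x
    unfold eqn
    rw [MvPolynomial.eval₂_sum]
    refine Finset.sum_congr rfl fun i _ => ?_
    rw [MvPolynomial.eval₂_mul, MvPolynomial.eval₂_C, MvPolynomial.eval₂_pow, MvPolynomial.eval₂_X]
  unfold coneF
  rw [Nat.card_congr (Equiv.subtypeEquivRight fun x => by rw [h1 x]), Nat.card_eq_fintype_card]
  congr!

/-- **the trace formula** -/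
theorem trFF (k : ℕ) {N₁ : MvPolynomial (Fin n) ℤ} (hN : X.IsModel N₁) (F : Type) [Field F] :
    TrFF X.shape.sys (fun J => X.mult J k) X.coeff X.lcm 0 k N₁ (X.trace k) F := by
  intro _
  classical
  obtain ⟨d, hd0, w, hw, e, ψ, hd, he, hψ⟩ := DiagProduct.exists_wep F X.lcm_pos
  refine ⟨d, hd0, w, hw, e, ψ, hd, he, hψ, ?_⟩
  intro φ hφ
  have hy := hN.2 (ptOf φ) (fun h => hφ ((mem_ptOf φ N₁).1 h))
  have hc : ∀ j i, φ (X.c j i) ≠ 0 := fun j i h => (hy j).2 i ((mem_ptOf φ _).2 h)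
  have h1 : ∀ j, ((X.primTrace j (ptOf φ) (Fintype.card F) : ℝ) : ℂ) =
      (Real.sqrt (Fintype.card F) : ℂ) ^ (X.N j - 2) *
        ∑ b ∈ X.shape.L1 j d, lamF hw e ψ (fun i => φ (X.c j i)) b := by
    intro j
    unfold primTrace
    rw [X.fibre_eq]
    exact X.shape.prim_eqF j (X.shape.m_dvd j) hd hw he hψ _ (hc j)
  have h2 := X.shape.trace_expandF (F := F) k
    (fun j => X.primTrace j (ptOf φ) (Fintype.card F)) _ h1
  have h3 : X.trace k (ptOf φ) (Fintype.card F) =
      (∏ j, ((∑ i ∈ Finset.range (X.shape.N j - 1), Polynomial.C ((Fintype.card F : ℝ) ^ i) *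
      Polynomial.X ^ (2 * i)) + Polynomial.C (X.primTrace j (ptOf φ) (Fintype.card F)) *
        Polynomial.X ^ (X.shape.N j - 2))).coeff (2 * k) := rfl
  rw [h3]
  refine h2.trans ?_
  congr 1
  unfold famSumF
  rw [Nat.cast_zero, zero_add, powerset_univ]
  refine Finset.sum_congr rfl fun J _ => ?_
  congr 1
  exact X.shape.prod_L1F J hw e ψ (fun j i => φ (X.c j i))

/-- **The pole of the L-function of a product of diagonal hypersurfaces over `ℚ(t_1, ..., t_n)`.** -/
theorem pole (k : ℕ) {N₁ : MvPolynomial (Fin n) ℤ} (hN : X.IsModel N₁) :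
    (∀ y : MaximalSpectrum (MvPolynomial (Fin n) ℤ), N₁ ∉ y.asIdeal → ∀ s : ℂ, (k : ℝ) < s.re →
      Summable fun l : ℕ => (X.trace k y (pointNorm y ^ (l + 1)) : ℂ) *
        (pointNorm y : ℂ) ^ (-(((l + 1 : ℕ) : ℂ) * s)) / ((l + 1 : ℕ) : ℂ)) ∧
    (∀ s : ℂ, ((k + n + 1 : ℕ) : ℝ) < s.re → Multipliable
      fun y : {y : MaximalSpectrum (MvPolynomial (Fin n) ℤ) // N₁ ∉ y.asIdeal} =>
        X.localFactor k y.1 s) ∧
    ∃ G : ℂ → ℂ, AnalyticAt ℂ G ((k + n + 1 : ℕ) : ℂ) ∧ G ((k + n + 1 : ℕ) : ℂ) ≠ 0 ∧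
      ∀ᶠ s : ℂ in 𝓝 ((k + n + 1 : ℕ) : ℂ), ((k + n + 1 : ℕ) : ℝ) < s.re →
        X.LFunction k N₁ s * (s - ((k + n + 1 : ℕ) : ℂ)) ^ (X.rho k) = G s := by
  have h1 := famF_pole (n := n) (sys := X.shape.sys) (mult := fun J => X.mult J k) (co := X.coeff)
    (D := X.lcm) (a := 0) (k := k) (N₁ := N₁) (tr := X.trace k)
    (fun J x => X.c_ne _ _) (fun J hJ => X.shape.even_of_mult hJ) X.lcm_pos hN.1
    (fun F _ => X.trFF k hN F) (X.localFactor k) (fun y s => rfl)
  rw [← rho_eq] at h1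
  exact h1

end DiagOver

end Pool.Agent.L0h11
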