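import Mathlib
import Pool.Agent.L0h11.Vh
import Pool.Agent.L0h11.Alg
import Pool.Agent.L0h11.Vr

/-!
# Lines with trivial Galois action over the fields of rational functions are algebraic
-/

set_option autoImplicit false
set_option linter.unusedSectionVars false

namespace Pool.Agent.L0h11

open Finset
open Pool.Agent.H916K (RationalClass)
open Pool.Agent.H916R2 (Generated GoodDegree)
open Pool.Agent.Y2.Cv (SurfaceOrCurveProduct)
open Pool.Agent.Results.MP_058a58_ag.DiagonalPole (PoleDegree)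

theorem algebraic_of_rational' {ι : Type} [Fintype ι] {M : ℕ} (hM : 0 < M)
    (hN : Even (Fintype.card ι))
    (hcov : Fintype.card ι ≤ 4 ∨ (Fintype.card ι = 6 ∧ ¬ 110 ∣ M) ∨ GoodDegree M ∨ PoleDegree M)
    (r : ι → ℤ) (hr : ∀ i, r i ≠ 0) (b : ι → ZMod M) (hb0 : ∀ i, b i ≠ 0) (hbs : ∑ i, b i = 0)
    (hprm : IsPrm M b) (h : RationalClass M (prs r b)) :
    IsAlgebraicLine M b := by
  rcases Nat.eq_zero_or_pos (Fintype.card ι) with h0 | hpos
  · have hemp : IsEmpty ι := Fintype.card_eq_zero_iff.1 h0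
    have hM1 : M = 1 := Nat.dvd_one.1 (hprm 1 fun x => (hemp.false x).elim)
    refine ⟨2, by norm_num, by rw [hM1]; exact one_dvd 2, ?_⟩
    have h1 : (univ : Finset ι).val.map (fun x => ((2 / M * (b x).val : ℕ) : ZMod 2)) = 0 := by
      rw [univ_eq_empty]
      rfl
    rw [h1]
    exact Generated.cancel (1 : ZMod 2) 0 (Generated.pair 1 (by decide))
  · let σ : Fin (Fintype.card ι) ≃ ι := (Fintype.equivFin ι).symm
    have hmap : ∀ {A : Type} (f : ι → A), univ.val.map (fun i => f (σ i)) = univ.val.map f := by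
      intro A f
      have h1 : (univ : Finset ι) = univ.map σ.toEmbedding := by simp
      rw [h1, map_val, Multiset.map_map]
      rfl
    obtain ⟨n, hn⟩ := id hN
    have hres := algebraic_of_rational hM dvd_rfl (N := Fintype.card ι) hN (by omega) hcov
      (fun i => r (σ i)) (fun i => hr _) (fun i => b (σ i)) ?_ ?_
    · obtain ⟨m', h1, h2, h3⟩ := hres
      refine ⟨m', h1, h2, ?_⟩
      rwa [hmap (fun x => ((m' / M * (b x).val : ℕ) : ZMod m'))] at h3
    · refine ⟨fun i => hb0 _, ?_, fun k hk => hprm k fun x => ?_⟩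
      · rw [σ.sum_comp]
        exact hbs
      · have := hk (σ.symm x)
        simp only [σ.apply_symm_apply] at this
        exact this
    · have h4 : Pool.Agent.L0h11.pairs (fun i => r (σ i)) (fun i => b (σ i)) = prs r b :=
        hmap (fun x => (b x, r x))
      rw [h4]
      exact h

/-- the same over the fields of rational functions -/
theorem algebraic_of_rationalOver {n : ℕ} {ι : Type} [Fintype ι] {M D : ℕ} (hD : 0 < D)
    (hMD : M ∣ D) (hN : Even (Fintype.card ι))
    (hcov : Fintype.card ι ≤ 4 ∨ (Fintype.card ι = 6 ∧ ¬ 110 ∣ M) ∨ GoodDegree M ∨ PoleDegree M)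
    (c : ι → MvPolynomial (Fin n) ℤ) (hc : ∀ i, c i ≠ 0) (b : ι → ZMod M) (hb0 : ∀ i, b i ≠ 0)
    (hbs : ∑ i, b i = 0) (hprm : IsPrm M b) (h : RationalOver M b c) :
    IsAlgebraicLine M b := by
  obtain ⟨sp⟩ := exists_Spec hc hD
  have hM : NeZero M := ⟨(Nat.pos_of_dvd_of_pos hMD hD).ne'⟩
  have h1 := (rational_over_iff hc sp hMD hb0).1 h
  exact algebraic_of_rational' (NeZero.pos M) hN hcov sp.r sp.hr b hb0 hbs hprm h1.2

end Pool.Agent.L0h11
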