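import Mathlib
import Pool.Agent.L0h11.Vq
import Pool.Agent.L0h11.Dn
import Pool.Agent.L0h11.Vp

/-!
# The number of points of Delsarte hypersurfaces with coefficients in a finite field
-/

set_option autoImplicit false
set_option linter.unusedSectionVars false

namespace Pool.Agent.L0h11

open Finset

namespace Delsarte

variable (X : Delsarte)

section

variable {F : Type} [Field F] [Fintype F] {d : ℕ} [NeZero d] (hd : d = Fintype.card F - 1)
  {w : F} (hw : IsPrimitiveRoot w d) {e : AddChar (ZMod d) ℂ} (he : ∀ i, e i = 1 → i = 0)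
  {ψ : AddChar F ℂ} (hψ : ψ.IsPrimitive)

lemma Vb_extF {J : Finset X.Idx} (c : X.Idx → F) (b : {x // x ∈ J} → ZMod d) (hb : ∀ x, b x ≠ 0)
    [Decidable (X.Rel (X.ext J b))] :
    X.Vb hw ψ e (Real.sqrt (Fintype.card F) : ℂ) c (X.ext J b) =
      if X.Rel (X.ext J b) then (Real.sqrt (Fintype.card F) : ℂ) ^ X.N *
        ((X.mult J : ℂ) * lamF hw e ψ (fun x : {x // x ∈ J} => c x.1) b) else 0 := by
  classical
  set s : ℂ := (Real.sqrt (Fintype.card F) : ℂ) with hs
  by_cases hR : X.Rel (X.ext J b)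
  · rw [if_pos hR]
    have hR' := (X.rel_iff _).1 hR
    have h0 : ∀ x : X.Idx, X.ext J b x = 0 ↔ x ∉ J := by
      intro x
      constructor
      · intro h hx
        exact hb ⟨x, hx⟩ (by rw [← X.ext_apply b ⟨x, hx⟩, h])
      · intro h
        unfold ext
        rw [dif_neg h]
    have h1 : ∀ j, zer (fun i => X.ext J b ⟨j, i⟩) =
        (univ.filter fun i => (⟨j, i⟩ : X.Idx) ∉ J).card := by
      intro j
      unfold zer
      congr 1
      ext i
      rw [mem_filter, mem_filter, h0]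
    have h2 : X.Vb hw ψ e s c (X.ext J b) =
        (X.mult J : ℂ) * s ^ (∑ j, (univ.filter fun i => (⟨j, i⟩ : X.Idx) ∉ J).card) *
          ∏ x : X.Idx, (if X.ext J b x = 0 then 1 else kap hw ψ e (c x) (X.ext J b x)) := by
      unfold Vb mult kpr
      rw [Nat.cast_prod, ← prod_pow_eq_pow_sum, Fintype.prod_sigma, ← prod_mul_distrib,
        ← prod_mul_distrib]
      refine Finset.prod_congr rfl fun j _ => ?_
      rw [if_pos (hR' j), h1 j]
    have h3 : ∏ x : X.Idx, (if X.ext J b x = 0 then 1 else kap hw ψ e (c x) (X.ext J b x)) =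
        ∏ x : {x // x ∈ J}, kap hw ψ e (c x.1) (b x) := by
      rw [← prod_subset (subset_univ J) (fun x _ hx => if_pos ((h0 x).2 hx)), ← prod_coe_sort J]
      refine Finset.prod_congr rfl fun x _ => ?_
      rw [if_neg (fun h => (h0 x.1).1 h x.2), X.ext_apply]
    have h4 : ∏ x : {x // x ∈ J}, kap hw ψ e (c x.1) (b x) =
        (-s) ^ J.card * lamF hw e ψ (fun x : {x // x ∈ J} => c x.1) b := by
      have h5 := lamF_eq' hw e ψ (fun x : {x // x ∈ J} => c x.1) b hb
      rw [Fintype.card_coe] at h5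
      exact h5
    rw [h2, h3, h4]
    by_cases hm : X.mult J = 0
    · rw [hm, Nat.cast_zero]
      ring
    · rw [(X.even_of_mult hm).neg_pow, ← X.sum_out J, pow_add]
      ring
  · rw [if_neg hR]
    rw [X.rel_iff] at hR
    push Not at hR
    obtain ⟨j, hj⟩ := hR
    unfold Vb
    apply prod_eq_zero (mem_univ j)
    rw [if_neg hj]

open Classical in
include hd he hψ in
/-- the sum over the nonzero `t` -/
lemma sum_t_eqF (c : X.Idx → F) (hc : ∀ x, c x ≠ 0) :
    ∑ t ∈ (univ : Finset F).erase 0, ∑ x : X.Idx → F,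
      ψ (t * ∑ y, c y * x y ^ (X.m - 1) * x (X.next y)) =
      ((Fintype.card F : ℂ) - 1) * ((Real.sqrt (Fintype.card F) : ℂ) ^ X.N *
        ∑ J : Finset X.Idx, (X.mult J : ℂ) *
          ∑ b ∈ (X.sys J).L d, lamF hw e ψ (fun x : {x // x ∈ J} => c x.1) b) := by
  rw [X.sum_t hd hw he hψ sqrt_mul c hc, sum_supp]
  congr 1
  rw [mul_sum]
  refine Finset.sum_congr rfl fun J _ => ?_
  rw [mul_sum, mul_sum]
  have h1 : ∀ b : {x // x ∈ J} → ZMod d, (if ∀ x, b x ≠ 0 then
      (if ∑ x : X.Idx, (if h : x ∈ J then b ⟨x, h⟩ else (0 : ZMod d)) = 0 then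
        X.Vb hw ψ e (Real.sqrt (Fintype.card F) : ℂ) c
          (fun x => if h : x ∈ J then b ⟨x, h⟩ else 0) else 0) else 0) =
      if b ∈ (X.sys J).L d then (Real.sqrt (Fintype.card F) : ℂ) ^ X.N *
        ((X.mult J : ℂ) * lamF hw e ψ (fun x : {x // x ∈ J} => c x.1) b) else 0 := by
    intro b
    have h2 : ∑ x, X.ext J b x = ∑ x, b x := by
      rw [← sum_subset (subset_univ J) (fun x _ hx => by unfold ext; rw [dif_neg hx]),
        ← sum_coe_sort J]
      exact Finset.sum_congr rfl fun x _ => X.ext_apply b x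
    have h3 : b ∈ (X.sys J).L d ↔ (∀ x, b x ≠ 0) ∧ ∑ x, b x = 0 ∧ X.Rel (X.ext J b) :=
      Sys.mem_L _ b
    show (if ∀ x, b x ≠ 0 then (if ∑ x, X.ext J b x = 0 then
        X.Vb hw ψ e (Real.sqrt (Fintype.card F) : ℂ) c (X.ext J b) else 0)
          else 0) = _
    by_cases hb : ∀ x, b x ≠ 0
    · rw [if_pos hb, h2, X.Vb_extF hw c b hb]
      by_cases h4 : ∑ x, b x = 0
      · rw [if_pos h4]
        by_cases h5 : X.Rel (X.ext J b)
        · rw [if_pos h5, if_pos (h3.2 ⟨hb, h4, h5⟩)]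
        · rw [if_neg h5, if_neg (fun h => h5 (h3.1 h).2.2)]
      · rw [if_neg h4, if_neg (fun h => h4 (h3.1 h).2.1)]
    · rw [if_neg hb, if_neg (fun h => hb (h3.1 h).1)]
  rw [Finset.sum_congr rfl fun b _ => h1 b, sum_ite_mem, univ_inter]

end

lemma level_changeF (J : Finset X.Idx) {F : Type} [Field F] [Fintype F] {n d : ℕ} [NeZero n]
    [NeZero d] (hd : d = Nat.gcd X.D n) (hdn : d ∣ n) {w : F}
    (hw : IsPrimitiveRoot w n) (e : AddChar (ZMod n) ℂ) (ψ : AddChar F ℂ)
    (c : {x // x ∈ J} → F) : ∑ b ∈ (X.sys J).L n, lamF hw e ψ c b =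
      ∑ b ∈ (X.sys J).L d, lamF (prim_div hdn hw) (eup hdn e) ψ c b := by
  classical
  symm
  refine Finset.sum_nbij (fun b i => up hdn (b i)) ?_ ?_ ?_ ?_
  · intro b hb
    rw [Sys.mem_L] at hb ⊢
    exact ((X.sys J).lvl d n hdn b).2 hb
  · intro b _ b' _ h
    funext i
    exact up_inj hdn (congrFun h i)
  · intro b hb
    rw [mem_coe, Sys.mem_L] at hb
    have h2 : ∀ i, ∃ a, up hdn a = b i := by
      intro i
      apply up_range
      have h5 := Nat.gcd_eq_gcd_ab X.D n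
      have h6 := congrArg (fun x : ℤ => (x : ZMod n)) h5
      push_cast at h6
      rw [ZMod.natCast_self, zero_mul, add_zero, ← hd] at h6
      rw [h6, mul_right_comm, X.D_mul b hb.2.2, zero_mul]
    choose a ha using h2
    refine ⟨a, ?_, funext ha⟩
    rw [mem_coe, Sys.mem_L]
    rw [← (X.sys J).lvl d n hdn a]
    have h3 : (fun i => up hdn (a i)) = b := funext ha
    rw [h3]
    exact hb
  · intro b _
    exact (lamF_up hdn hw e ψ c b).symm

open Classical in
/-- the number of the points of the cone -/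
noncomputable def coneD {F : Type} [Field F] [Fintype F] (c : X.Idx → F) : ℕ :=
  Fintype.card {x : X.Idx → F // ∑ y, c y * x y ^ (X.m - 1) * x (X.next y) = 0}

/-- **the trace formula** -/
theorem trFF {F : Type} [Field F] [Fintype F] : ∃ (d : ℕ) (_ : NeZero d) (w : F)
    (hw : IsPrimitiveRoot w d) (e : AddChar (ZMod d) ℂ) (ψ : AddChar F ℂ),
    d = Nat.gcd X.D (Fintype.card F - 1) ∧
      (∀ i, e i = 1 → i = 0) ∧ ψ.IsPrimitive ∧ ∀ c : X.Idx → F, (∀ x, c x ≠ 0) →
      (((((X.coneD c : ℝ) - 1) / ((Fintype.card F : ℝ) - 1) -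
        ∑ j ∈ (range (X.N - 1)).erase (X.N / 2 - 1), (Fintype.card F : ℝ) ^ j : ℝ) : ℝ) : ℂ) =
        (Fintype.card F : ℂ) ^ (X.N / 2 - 1) *
          famSumF X.sys X.mult 1 (fun J (x : {x // x ∈ J}) => c x.1) hw e ψ := by
  classical
  have hq : 0 < Fintype.card F - 1 := by
    have := Fintype.one_lt_card (α := F)
    omega
  obtain ⟨n, _, w, hw, e, ψ, hn, he, hψ⟩ := DiagProduct.exists_wep F hq
  rw [Nat.gcd_self] at hn
  set d := Nat.gcd X.D (Fintype.card F - 1) with hd
  have hd0 : NeZero d := ⟨(Nat.gcd_pos_of_pos_left _ X.D_pos).ne'⟩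
  have hdn : d ∣ n := by
    rw [hn]
    exact Nat.gcd_dvd_right _ _
  refine ⟨d, hd0, _, prim_div hdn hw, eup hdn e, ψ, rfl, eup_inj hdn he, hψ, ?_⟩
  intro c hc
  have h1 := X.sum_t_eqF hn hw he hψ c hc
  have h2 := zero_count hψ (fun x : X.Idx → F =>
    ∑ y, c y * x y ^ (X.m - 1) * x (X.next y))
  have h4 : ∀ J, ∑ b ∈ (X.sys J).L n, lamF hw e ψ (fun x : {x // x ∈ J} => c x.1) b =
      ∑ b ∈ (X.sys J).L d, lamF (prim_div hdn hw) (eup hdn e) ψ (fun x : {x // x ∈ J} => c x.1) b :=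
    fun J => X.level_changeF J (by rw [hn]) hdn hw e ψ _
  rw [h1] at h2
  unfold famSumF
  rw [Finset.sum_congr rfl fun J _ => by rw [h4 J]] at h2
  set T := ∑ J : Finset X.Idx, (X.mult J : ℂ) *
    ∑ b ∈ (X.sys J).L d, lamF (prim_div hdn hw) (eup hdn e) ψ (fun x : {x // x ∈ J} => c x.1) b
      with hT
  have hcard : Fintype.card (X.Idx → F) = Fintype.card F ^ X.N := by
    rw [Fintype.card_fun, Fintype.card_sigma]
    congr 1
    exact Finset.sum_congr rfl fun j _ => Fintype.card_fin _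
  rw [hcard] at h2
  set q : ℂ := (Fintype.card F : ℂ) with hqq
  have hq0 : q ≠ 0 := by
    rw [hqq]
    exact_mod_cast Fintype.card_ne_zero
  have hq1 : q - 1 ≠ 0 := by
    rw [hqq, sub_ne_zero]
    have := Fintype.one_lt_card (α := F)
    exact_mod_cast this.ne'
  obtain ⟨k, hk⟩ := X.even
  have hN : X.N = k + k := hk
  have hk1 : 1 ≤ k := by
    have := X.N_two
    omega
  have hN2 : X.N / 2 = k := by omega
  have hsq : (Real.sqrt (Fintype.card F) : ℂ) ^ X.N = q ^ k := by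
    rw [hN, ← two_mul, pow_mul, pow_two, sqrt_mul]
  rw [hsq] at h2
  push_cast at h2
  rw [← hqq] at h2
  have hcone : (X.coneD c : ℂ) = (((univ : Finset (X.Idx → F)).filter fun x =>
      ∑ y, c y * x y ^ (X.m - 1) * x (X.next y) = 0).card : ℂ) := by
    unfold coneD
    rw [Fintype.card_subtype]
  push_cast
  rw [← hqq]
  have hmem : X.N / 2 - 1 ∈ range (X.N - 1) := by
    rw [mem_range]
    omega
  have h5 := add_sum_erase (range (X.N - 1)) (fun j => q ^ j) hmem
  have h6 : ∑ j ∈ (range (X.N - 1)).erase (X.N / 2 - 1), q ^ j =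
      (q ^ (X.N - 1) - 1) / (q - 1) - q ^ (X.N / 2 - 1) := by
    rw [← geom_sum_eq (sub_ne_zero.1 hq1), ← h5]
    ring
  rw [h6]
  have h7 : q ^ X.N = q * q ^ (X.N - 1) := by
    rw [← pow_succ', Nat.sub_add_cancel (by omega)]
  have h8 : q ^ k = q * q ^ (X.N / 2 - 1) := by
    rw [← pow_succ', hN2, Nat.sub_add_cancel hk1]
  rw [h7, h8, ← hcone] at h2
  have h9 : (X.coneD c : ℂ) = q ^ (X.N - 1) + (q - 1) * (q ^ (X.N / 2 - 1) * T) := by
    apply mul_left_cancel₀ hq0
    rw [h2]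
    ring
  rw [h9]
  field_simp
  ring

end Delsarte

end Pool.Agent.L0h11
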