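import Mathlib
import Pool.Agent.L0h11.Gi
import Pool.Agent.L0h11.Gh
import Pool.Agent.L0h11.Vq2
import Pool.Agent.L0h11.Vi

/-!
# Products of diagonal hypersurfaces and invertible hypersurfaces over finitely generated fields
-/

set_option autoImplicit false
set_option linter.all false

namespace Pool.Agent.L0h11

open Finset Filter Topology
open Pool.Agent.TH958.An
open Pool.Agent.H916K (RationalClass)
open Pool.Agent.H916R2 (Generated GoodDegree)
open Pool.Agent.Y2.Cv (SurfaceOrCurveProduct)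
open Pool.Agent.Results.MP_058a58_ag.DiagonalPole (PoleDegree)

namespace RG

section
variable {R : Type} [CommRing R]

lemma pointNorm_eq (y : Pt R) : RG.pointNorm y = qy y := rfl

/-- **The points of the fibres over the extensions.** -/
theorem fibrePoints_eq {ι : Type} (f : MvPolynomial ι R)
    {F : Type} [Field F] [Fintype F] (φ : R →+* F) :
    RG.fibrePoints f (ptOf φ) (Fintype.card F) =
      ((Nat.card {x : ι → F // MvPolynomial.eval₂ φ x f = 0} : ℝ) - 1) /
        ((Fintype.card F : ℝ) - 1) := by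
  classical
  set y := ptOf φ with hy
  let k := Res y
  let σ : k →+* F := fiberEquiv (F := F) y ⟨φ, rfl⟩
  have hσ : ∀ a, σ (Ideal.Quotient.mk y.asIdeal a) = φ a := fun a => rfl
  let _ : Algebra k F := σ.toAlgebra
  have : Finite k := Finite.of_injective σ σ.injective
  have hint : Algebra.IsAlgebraic k F := by
    have : Module.Finite k F := Module.Finite.of_finite
    infer_instance
  let τ : F →ₐ[k] AlgebraicClosure k := IsAlgClosed.lift
  have hrange : ∀ x : AlgebraicClosure k, x ^ Fintype.card F = x ↔ ∃ z : F, τ z = x := fun x =>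
    range_eq (τ : F →+* AlgebraicClosure k) x
  have hτ : ∀ a : k, τ (σ a) = algebraMap k (AlgebraicClosure k) a := fun a => τ.commutes a
  have hev : ∀ z : ι → F, MvPolynomial.aeval (fun i => τ (z i))
      (MvPolynomial.map (Ideal.Quotient.mk y.asIdeal) f) = τ (MvPolynomial.eval₂ φ z f) := by
    intro z
    have h1 := MvPolynomial.eval₂_comp_left (τ : F →+* AlgebraicClosure k) φ z f
    refine Eq.trans ?_ h1.symm
    rw [MvPolynomial.aeval_def, MvPolynomial.eval₂_map]
    congr 1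
    refine RingHom.ext fun a => ?_
    show algebraMap k (AlgebraicClosure k) (Ideal.Quotient.mk y.asIdeal _) = τ (φ _)
    rw [← hτ, hσ]
  have hcard : Nat.card {x : ι → AlgebraicClosure k // (∀ i, x i ^ Fintype.card F = x i) ∧
      MvPolynomial.aeval x (MvPolynomial.map (Ideal.Quotient.mk y.asIdeal) f) = 0} =
      Nat.card {x : ι → F // MvPolynomial.eval₂ φ x f = 0} := by
    refine (Nat.card_congr (Equiv.ofBijective
      (fun P : {x : ι → F // MvPolynomial.eval₂ φ x f = 0} =>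
      (⟨fun i => τ (P.1 i), fun i => (hrange _).2 ⟨_, rfl⟩, by
        rw [hev, P.2, map_zero]⟩ : {x : ι → AlgebraicClosure k //
          (∀ i, x i ^ Fintype.card F = x i) ∧
      MvPolynomial.aeval x (MvPolynomial.map (Ideal.Quotient.mk y.asIdeal) f) = 0})) ⟨?_, ?_⟩)).symm
    · intro P P' h
      have h1 := congrArg (fun w => w.1) h
      apply Subtype.ext
      funext i
      exact τ.injective (congrFun h1 i)
    · rintro ⟨x, h1, h2⟩
      choose z hz using fun i => (hrange (x i)).1 (h1 i)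
      have hx : x = fun i => τ (z i) := funext fun i => (hz i).symm
      subst hx
      refine ⟨⟨z, ?_⟩, rfl⟩
      apply τ.injective
      show τ (MvPolynomial.eval₂ φ z f) = τ 0
      rw [← hev, h2, map_zero]
  show (((Nat.card {x : ι → AlgebraicClosure k // (∀ i, x i ^ Fintype.card F = x i) ∧
      MvPolynomial.aeval x (MvPolynomial.map (Ideal.Quotient.mk y.asIdeal) f) = 0} : ℕ) : ℝ) - 1) /
        ((Fintype.card F : ℝ) - 1) = _
  rw [hcard]

variable [IsDomain R] [CharZero R] [hft : Algebra.FiniteType ℤ R] {n : ℕ}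

/-- lines with trivial Galois action are algebraic -/
theorem algebraic_of_rationalOver (htr : Algebra.trdeg ℚ (FractionRing R) = n)
    (hreg : Reg (FractionRing R)) {ι : Type} [Fintype ι] {M D : ℕ} (hD : 0 < D)
    (hMD : M ∣ D) (hN : Even (Fintype.card ι))
    (hcov : Fintype.card ι ≤ 4 ∨ (Fintype.card ι = 6 ∧ ¬ 110 ∣ M) ∨ GoodDegree M ∨ PoleDegree M)
    (c : ι → R) (hc : ∀ i, c i ≠ 0) (b : ι → ZMod M) (hb0 : ∀ i, b i ≠ 0)
    (hbs : ∑ i, b i = 0) (hprm : IsPrm M b) (h : RG.RationalOver M b c) :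
    IsAlgebraicLine M b := by
  obtain ⟨sp⟩ := RG.exists_Spec hreg hc hD
  have hM : NeZero M := ⟨(Nat.pos_of_dvd_of_pos hMD hD).ne'⟩
  have h1 := (RG.rational_over_iff htr hreg hc sp hMD hb0).1 h
  exact algebraic_of_rational' (NeZero.pos M) hN hcov sp.r sp.hr b hb0 hbs hprm h1.2

end

end RG

namespace DiagK

variable {R : Type} [CommRing R] (X : DiagK R)

/-- the product with the coefficients `1` -/
abbrev shape : DiagProduct where
  r := X.r
  m := X.m
  N := X.N
  c _ _ := 1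
  m_pos := X.m_pos
  N_two := X.N_two
  c_ne _ _ := one_ne_zero

lemma lcm_pos : 0 < X.lcm := X.shape.lcm_pos

lemma rho_eq (k : ℕ) :
    X.rho k = RG.famRhoF X.shape.sys (fun J => X.mult J k) X.coeff X.lcm 0 := by
  unfold rho RG.famRhoF
  rw [zero_add, powerset_univ]
  rfl

/-- the points of the fibres of the factors -/
lemma fibre_eq (j : Fin X.r) {F : Type} [Field F] [Fintype F]
    (φ : R →+* F) :
    RG.fibrePoints (X.eqn j) (ptOf φ) (Fintype.card F) =
      ((coneF (X.m j) (fun i => φ (X.c j i)) : ℝ) - 1) / ((Fintype.card F : ℝ) - 1) := by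
  classical
  rw [RG.fibrePoints_eq]
  congr 2
  have h1 : ∀ x : Fin (X.N j) → F, MvPolynomial.eval₂ φ x (X.eqn j) =
      ∑ i, φ (X.c j i) * x i ^ X.m j := by
    intro x
    unfold eqn
    rw [MvPolynomial.eval₂_sum]
    refine Finset.sum_congr rfl fun i _ => ?_
    rw [MvPolynomial.eval₂_mul, MvPolynomial.eval₂_C, MvPolynomial.eval₂_pow, MvPolynomial.eval₂_X]
  unfold coneF
  rw [Nat.card_congr (Equiv.subtypeEquivRight fun x => by rw [h1 x]), Nat.card_eq_fintype_card]
  congr!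

variable [IsDomain R] [CharZero R] [hft : Algebra.FiniteType ℤ R] {n : ℕ}

/-- **the trace formula** -/
theorem trFF (k : ℕ) {N₁ : R} (hN : X.IsModel N₁) (F : Type) [Field F] :
    RG.TrFF X.shape.sys (fun J => X.mult J k) X.coeff X.lcm 0 k N₁ (X.trace k) F := by
  intro _
  classical
  obtain ⟨d, hd0, w, hw, e, ψ, hd, he, hψ⟩ := DiagProduct.exists_wep F X.lcm_pos
  refine ⟨d, hd0, w, hw, e, ψ, hd, he, hψ, ?_⟩
  intro φ hφ
  have hy := hN.2 (ptOf φ) (fun h => hφ ((mem_ptOf φ N₁).1 h))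
  have hc : ∀ j i, φ (X.c j i) ≠ 0 := fun j i h => (hy j).2 i ((mem_ptOf φ _).2 h)
  have h1 : ∀ j, ((X.primTrace j (ptOf φ) (Fintype.card F) : ℝ) : ℂ) =
      (Real.sqrt (Fintype.card F) : ℂ) ^ (X.N j - 2) *
        ∑ b ∈ X.shape.L1 j d, lamF hw e ψ (fun i => φ (X.c j i)) b := by
    intro j
    unfold primTrace
    rw [X.fibre_eq]
    exact X.shape.prim_eqF j (X.shape.m_dvd j) hd hw he hψ _ (hc j)
  have h2 := X.shape.trace_expandF (F := F) k
    (fun j => X.primTrace j (ptOf φ) (Fintype.card F)) _ h1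
  have h3 : X.trace k (ptOf φ) (Fintype.card F) =
      (∏ j, ((∑ i ∈ Finset.range (X.shape.N j - 1), Polynomial.C ((Fintype.card F : ℝ) ^ i) *
      Polynomial.X ^ (2 * i)) + Polynomial.C (X.primTrace j (ptOf φ) (Fintype.card F)) *
        Polynomial.X ^ (X.shape.N j - 2))).coeff (2 * k) := rfl
  rw [h3]
  refine h2.trans ?_
  congr 1
  unfold famSumF
  rw [Nat.cast_zero, zero_add, powerset_univ]
  refine Finset.sum_congr rfl fun J _ => ?_
  congr 1
  exact X.shape.prod_L1F J hw e ψ (fun j i => φ (X.c j i))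

/-- **The pole of the L-function of a product of diagonal hypersurfaces over a finitely generated
field.** -/
theorem pole (htr : Algebra.trdeg ℚ (FractionRing R) = n)
    (hreg : Reg (FractionRing R)) (k : ℕ) {N₁ : R} (hN : X.IsModel N₁) :
    (∀ y : MaximalSpectrum R, N₁ ∉ y.asIdeal → ∀ s : ℂ, (k : ℝ) < s.re →
      Summable fun l : ℕ => (X.trace k y (RG.pointNorm y ^ (l + 1)) : ℂ) *
        (RG.pointNorm y : ℂ) ^ (-(((l + 1 : ℕ) : ℂ) * s)) / ((l + 1 : ℕ) : ℂ)) ∧
    (∀ s : ℂ, ((k + n + 1 : ℕ) : ℝ) < s.re → Multipliable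
      fun y : {y : MaximalSpectrum R // N₁ ∉ y.asIdeal} => X.localFactor k y.1 s) ∧
    ∃ G : ℂ → ℂ, AnalyticAt ℂ G ((k + n + 1 : ℕ) : ℂ) ∧ G ((k + n + 1 : ℕ) : ℂ) ≠ 0 ∧
      ∀ᶠ s : ℂ in 𝓝 ((k + n + 1 : ℕ) : ℂ), ((k + n + 1 : ℕ) : ℝ) < s.re →
        X.LFunction k N₁ s * (s - ((k + n + 1 : ℕ) : ℂ)) ^ (X.rho k) = G s := by
  have h1 := RG.famF_pole (n := n) (sys := X.shape.sys) (mult := fun J => X.mult J k)
    (co := X.coeff) (D := X.lcm) (a := 0) (k := k) (N₁ := N₁) (tr := X.trace k) htr hreg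
    (fun J x => X.c_ne _ _) (fun J hJ => X.shape.even_of_mult hJ) X.lcm_pos hN.1
    (fun F _ => X.trFF k hN F) (X.localFactor k) (fun y s => rfl)
  rw [← rho_eq] at h1
  exact h1

end DiagK

namespace InvertibleK

variable {R : Type} [CommRing R] (X : InvertibleK R)

/-- the hypersurface with the coefficients `1` -/
abbrev shape : Delsarte where
  l := X.l
  m := X.m
  len := X.len
  loop := X.loop
  c _ := 1
  three_le := X.three_le
  len_pos := X.len_pos
  c_ne _ := one_ne_zero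
  not_diag := X.not_diag
  even := X.even

lemma D_pos : 0 < X.D := X.shape.D_pos

lemma rho_eq : X.rho = RG.famRhoF X.shape.sys X.mult X.coeff X.D 1 := rfl

/-- the points of the fibres -/
lemma fibre_eq {F : Type} [Field F] [Fintype F] (φ : R →+* F) :
    RG.fibrePoints X.eqn (ptOf φ) (Fintype.card F) =
      ((X.shape.coneD (fun x => φ (X.c x)) : ℝ) - 1) / ((Fintype.card F : ℝ) - 1) := by
  classical
  rw [RG.fibrePoints_eq]
  congr 2
  have h1 : ∀ x : X.Idx → F, MvPolynomial.eval₂ φ x X.eqn =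
      ∑ y, φ (X.c y) * x y ^ (X.m - 1) * x (X.next y) := by
    intro x
    unfold eqn
    rw [MvPolynomial.eval₂_sum]
    refine Finset.sum_congr rfl fun i _ => ?_
    rw [MvPolynomial.eval₂_mul, MvPolynomial.eval₂_mul, MvPolynomial.eval₂_C,
      MvPolynomial.eval₂_pow, MvPolynomial.eval₂_X, MvPolynomial.eval₂_X]
  unfold Delsarte.coneD
  rw [Nat.card_congr (Equiv.subtypeEquivRight fun x => by rw [h1 x]), Nat.card_eq_fintype_card]
  congr!

variable [IsDomain R] [CharZero R] [hft : Algebra.FiniteType ℤ R] {n : ℕ}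

/-- **the trace formula** -/
theorem trFF {N₁ : R} (hN : X.IsModel N₁) (F : Type) [Field F] :
    RG.TrFF X.shape.sys X.mult X.coeff X.D 1 (X.N / 2 - 1) N₁ X.trace F := by
  intro _
  classical
  obtain ⟨d, hd0, w, hw, e, ψ, hd, he, hψ, htr⟩ := X.shape.trFF (F := F)
  refine ⟨d, hd0, w, hw, e, ψ, hd, he, hψ, ?_⟩
  intro φ hφ
  have hy := hN.2 (ptOf φ) (fun h => hφ ((mem_ptOf φ N₁).1 h))
  have hc : ∀ x, φ (X.c x) ≠ 0 := fun x h => hy.2 x ((mem_ptOf φ _).2 h)
  unfold trace
  rw [X.fibre_eq]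
  exact htr _ hc

/-- **The pole of the L-function of an invertible hypersurface over a finitely generated field.** -/
theorem pole (htr : Algebra.trdeg ℚ (FractionRing R) = n)
    (hreg : Reg (FractionRing R)) {N₁ : R} (hN : X.IsModel N₁) :
    (∀ y : MaximalSpectrum R, N₁ ∉ y.asIdeal →
      ∀ s : ℂ, ((X.N / 2 - 1 : ℕ) : ℝ) < s.re →
      Summable fun l : ℕ => (X.trace y (RG.pointNorm y ^ (l + 1)) : ℂ) *
        (RG.pointNorm y : ℂ) ^ (-(((l + 1 : ℕ) : ℂ) * s)) / ((l + 1 : ℕ) : ℂ)) ∧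
    (∀ s : ℂ, ((X.N / 2 + n : ℕ) : ℝ) < s.re → Multipliable
      fun y : {y : MaximalSpectrum R // N₁ ∉ y.asIdeal} => X.localFactor y.1 s) ∧
    ∃ G : ℂ → ℂ, AnalyticAt ℂ G ((X.N / 2 + n : ℕ) : ℂ) ∧ G ((X.N / 2 + n : ℕ) : ℂ) ≠ 0 ∧
      ∀ᶠ s : ℂ in 𝓝 ((X.N / 2 + n : ℕ) : ℂ), ((X.N / 2 + n : ℕ) : ℝ) < s.re →
        X.LFunction N₁ s * (s - ((X.N / 2 + n : ℕ) : ℂ)) ^ X.rho = G s := by
  have h1 := RG.famF_pole (n := n) (sys := X.shape.sys) (mult := X.mult) (co := X.coeff)
    (D := X.D) (a := 1) (k := X.N / 2 - 1) (N₁ := N₁) (tr := X.trace) htr hreg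
    (fun J x => X.c_ne _) (fun J hJ => by
      rw [Fintype.card_coe]
      exact X.shape.even_of_mult hJ) X.D_pos hN.1
    (fun F _ => X.trFF hN F) X.localFactor (fun y s => rfl)
  rw [← rho_eq] at h1
  have h2 := X.shape.N_two
  have h3 : X.N / 2 - 1 + n + 1 = X.N / 2 + n := by
    have : 2 ≤ X.N := h2
    omega
  rw [h3] at h1
  exact h1

end InvertibleK

end Pool.Agent.L0h11
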