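import Mathlib

/-!
# Families of points whose blocks have sum zero, and perfect matchings
-/

set_option autoImplicit false
set_option linter.all false

namespace Pool.Agent.L0h11.CC

open Finset

section

variable {F : Type} [Fintype F] [DecidableEq F] {J : Type} [Fintype J] [DecidableEq J]
  {G : Type} [AddCommGroup G] (γ : J → G)

/-- all blocks have sum zero -/
def Triv (x : J → F) : Prop := ∀ v, ∑ j with x j = v, γ j = 0

open Classical in
/-- the perfect matchings with pairs of sum zero -/
noncomputable def Mt : Finset (Equiv.Perm J) :=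
  univ.filter fun π => (∀ j, π (π j) = j) ∧ (∀ j, π j ≠ j) ∧ ∀ j, γ j + γ (π j) = 0

lemma mem_Mt {π : Equiv.Perm J} : π ∈ Mt γ ↔
    (∀ j, π (π j) = j) ∧ (∀ j, π j ≠ j) ∧ ∀ j, γ j + γ (π j) = 0 := by
  classical
  unfold Mt
  rw [mem_filter]
  simp

lemma triv_of_matching {π : Equiv.Perm J} (hπ : π ∈ Mt γ) {x : J → F} (hx : ∀ j, x (π j) = x j) :
    Triv γ x := by
  classical
  intro v
  obtain ⟨h1, h2, h3⟩ := (mem_Mt γ).1 hπ
  refine Finset.sum_involution (fun j _ => π j) ?_ ?_ ?_ ?_
  · intro j _
    exact h3 j
  · intro j _ _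
    exact h2 j
  · intro j hj
    rw [mem_filter] at hj ⊢
    exact ⟨mem_univ _, (hx j).trans hj.2⟩
  · intro j _
    exact h1 j

open Classical in
lemma key (hγ : ∀ j, γ j ≠ 0) (x : J → F)
    (hx : Fintype.card J ≤ 2 * (univ.image x).card) :
    (if Triv γ x then 1 else 0) = ((Mt γ).filter fun π => ∀ j, x (π j) = x j).card := by
  split_ifs with hT
  · -- the fibres have exactly two elements
    have h2 : ∀ v ∈ univ.image x, 2 ≤ (univ.filter fun j => x j = v).card := by
      intro v hv
      obtain ⟨j, -, rfl⟩ := mem_image.1 hv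
      by_contra hcon
      push Not at hcon
      have h3 : (univ.filter fun j' => x j' = x j) = {j} := by
        apply (Finset.eq_of_subset_of_card_le _ _).symm
        · rw [singleton_subset_iff, mem_filter]
          exact ⟨mem_univ _, rfl⟩
        · rw [card_singleton]
          omega
      have h4 := hT (x j)
      rw [h3, sum_singleton] at h4
      exact hγ j h4
    have h3 : Fintype.card J = ∑ v ∈ univ.image x, (univ.filter fun j => x j = v).card := by
      rw [← card_univ]
      exact card_eq_sum_card_image x univ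
    have h4 : ∀ v ∈ univ.image x, (univ.filter fun j => x j = v).card = 2 := by
      intro v hv
      by_contra hcon
      have h5 : 2 < (univ.filter fun j => x j = v).card := lt_of_le_of_ne (h2 v hv) (Ne.symm hcon)
      have h6 : ∑ _v ∈ univ.image x, 2 < ∑ v ∈ univ.image x, (univ.filter fun j => x j = v).card :=
        sum_lt_sum h2 ⟨v, hv, h5⟩
      rw [sum_const, smul_eq_mul, ← h3] at h6
      omega
    have h5 : ∀ j, ∃ j', j' ≠ j ∧ x j' = x j ∧ ∀ i, i ≠ j → x i = x j → i = j' := by
      intro j
      have h6 := h4 (x j) (mem_image_of_mem x (mem_univ j))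
      have h7 : ((univ.filter fun i => x i = x j).erase j).card = 1 := by
        rw [card_erase_of_mem (by rw [mem_filter]; exact ⟨mem_univ _, rfl⟩), h6]
      obtain ⟨j', hj'⟩ := card_eq_one.1 h7
      have h8 : j' ∈ (univ.filter fun i => x i = x j).erase j := by rw [hj']; exact mem_singleton_self _
      rw [mem_erase, mem_filter] at h8
      refine ⟨j', h8.1, h8.2.2, fun i hi1 hi2 => ?_⟩
      have h9 : i ∈ (univ.filter fun i => x i = x j).erase j := by
        rw [mem_erase, mem_filter]
        exact ⟨hi1, mem_univ _, hi2⟩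
      rw [hj', mem_singleton] at h9
      exact h9
    choose f hf1 hf2 hf3 using h5
    have hff : Function.Involutive f := by
      intro j
      exact (hf3 (f j) j (hf1 j).symm (hf2 j).symm).symm
    have hgam : ∀ j, γ j + γ (f j) = 0 := by
      intro j
      have h6 := hT (x j)
      have h7 : (univ.filter fun i => x i = x j) = {j, f j} := by
        ext i
        rw [mem_filter, mem_insert, mem_singleton]
        constructor
        · rintro ⟨-, h⟩
          by_cases hi : i = j
          · exact Or.inl hi
          · exact Or.inr (hf3 j i hi h)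
        · rintro (h | h)
          · rw [h]; exact ⟨mem_univ _, rfl⟩
          · rw [h]; exact ⟨mem_univ _, hf2 j⟩
      rwa [h7, sum_pair (hf1 j).symm] at h6
    symm
    rw [card_eq_one]
    refine ⟨hff.toPerm, ?_⟩
    ext π
    rw [mem_filter, mem_Mt, mem_singleton]
    constructor
    · rintro ⟨⟨-, h6, -⟩, h7⟩
      ext j
      exact hf3 j (π j) (h6 j) (h7 j)
    · rintro rfl
      exact ⟨⟨hff, hf1, hgam⟩, hf2⟩
  · symm
    rw [card_eq_zero, filter_eq_empty_iff]
    intro π hπ hx'
    exact hT (triv_of_matching γ hπ hx')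

open Classical in
lemma card_fix [LinearOrder J] {π : Equiv.Perm J} (h1 : ∀ j, π (π j) = j) (h2 : ∀ j, π j ≠ j) :
    ∃ m : ℕ, Fintype.card J = 2 * m ∧
      (univ.filter fun x : J → F => ∀ j, x (π j) = x j).card = Fintype.card F ^ m := by
  set A : Finset J := univ.filter fun j => j < π j with hA
  have hB : (univ \ A).card = A.card := by
    refine card_bij (fun j _ => π j) ?_ ?_ ?_
    · intro j hj
      rw [mem_sdiff, hA, mem_filter] at hj
      rw [hA, mem_filter, h1]
      refine ⟨mem_univ _, lt_of_le_of_ne (not_lt.1 fun h => hj.2 ⟨mem_univ _, h⟩) (h2 j)⟩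
    · intro j _ j' _ h
      exact π.injective h
    · intro j hj
      rw [hA, mem_filter] at hj
      refine ⟨π j, ?_, h1 j⟩
      rw [mem_sdiff, hA, mem_filter, h1]
      exact ⟨mem_univ _, fun h => lt_asymm hj.2 h.2⟩
  refine ⟨A.card, ?_, ?_⟩
  · have h3 : (univ \ A).card + A.card = Fintype.card J := by
      rw [card_sdiff_add_card_eq_card (subset_univ _), card_univ]
    omega
  · have h3 : (univ.filter fun x : J → F => ∀ j, x (π j) = x j).card =
        (univ : Finset ({j // j ∈ A} → F)).card := by
      refine card_bij (fun x _ j => x j.1) ?_ ?_ ?_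
      · intro x _
        exact mem_univ _
      · intro x hx y hy h
        rw [mem_filter] at hx hy
        funext j
        by_cases hj : j ∈ A
        · exact congrFun h ⟨j, hj⟩
        · have h4 : π j ∈ A := by
            rw [hA, mem_filter, h1]
            refine ⟨mem_univ _, lt_of_le_of_ne (not_lt.1 fun h5 => hj ?_) (h2 j)⟩
            rw [hA, mem_filter]
            exact ⟨mem_univ _, h5⟩
          rw [← hx.2 j, ← hy.2 j]
          exact congrFun h ⟨π j, h4⟩
      · intro g _
        have h4 : ∀ j, j ∉ A → π j ∈ A := by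
          intro j hj
          rw [hA, mem_filter, h1]
          refine ⟨mem_univ _, lt_of_le_of_ne (not_lt.1 fun h5 => hj ?_) (h2 j)⟩
          rw [hA, mem_filter]
          exact ⟨mem_univ _, h5⟩
        refine ⟨fun j => if h : j ∈ A then g ⟨j, h⟩ else g ⟨π j, h4 j h⟩, ?_, ?_⟩
        · rw [mem_filter]
          refine ⟨mem_univ _, fun j => ?_⟩
          by_cases hj : j ∈ A
          · have h5 : π j ∉ A := by
              rw [hA, mem_filter] at hj ⊢
              rw [h1]
              exact fun h => lt_asymm hj.2 h.2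
            dsimp only
            rw [dif_pos hj, dif_neg h5]
            congr 1
            exact Subtype.ext (h1 j)
          · dsimp only
            rw [dif_neg hj, dif_pos (h4 j hj)]
        · funext j
          exact dif_pos j.2
    rw [h3, card_univ, Fintype.card_fun, Fintype.card_coe]

/-- few values -/
lemma card_small : (univ.filter fun x : J → F => 2 * (univ.image x).card < Fintype.card J).card ≤
    Fintype.card J ^ Fintype.card J * Fintype.card F ^ ((Fintype.card J - 1) / 2) := by
  classical
  set k := Fintype.card J with hk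
  set v := (k - 1) / 2 with hv
  rcases Nat.eq_zero_or_pos k with h0 | h0
  · have h1 : (univ.filter fun x : J → F => 2 * (univ.image x).card < k) = ∅ := by
      rw [filter_eq_empty_iff]
      intro x _
      omega
    rw [h1, card_empty]
    exact Nat.zero_le _
  have hvk : v ≤ k := by omega
  have hJ : Nonempty J := Fintype.card_pos_iff.1 (by omega)
  obtain ⟨j₀⟩ := hJ
  calc (univ.filter fun x : J → F => 2 * (univ.image x).card < k).card
      ≤ ((univ : Finset ((J → Fin v) × (Fin v → F))).image fun z => z.2 ∘ z.1).card := by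
        refine card_le_card fun x hx => ?_
        rw [mem_filter] at hx
        have hx2 : (univ.image x).card ≤ v := by omega
        rw [mem_image]
        let s := univ.image x
        let E := s.equivFin
        refine ⟨(fun j => Fin.castLE hx2 (E ⟨x j, mem_image_of_mem x (mem_univ j)⟩),
          fun i => if h : i.1 < s.card then (E.symm ⟨i.1, h⟩ : F) else x j₀), mem_univ _, ?_⟩
        funext j
        have h2 : (Fin.castLE hx2 (E ⟨x j, mem_image_of_mem x (mem_univ j)⟩)).1 < s.card :=
          (E ⟨x j, mem_image_of_mem x (mem_univ j)⟩).2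
        have h3 : E.symm ⟨(Fin.castLE hx2 (E ⟨x j, mem_image_of_mem x (mem_univ j)⟩)).1, h2⟩ =
            ⟨x j, mem_image_of_mem x (mem_univ j)⟩ := by
          rw [Equiv.symm_apply_eq]
          rfl
        exact (dif_pos h2).trans (congrArg Subtype.val h3)
    _ ≤ ((univ : Finset ((J → Fin v) × (Fin v → F)))).card := card_image_le
    _ = v ^ k * Fintype.card F ^ v := by
        rw [card_univ, Fintype.card_prod, Fintype.card_fun, Fintype.card_fun, Fintype.card_fin]
    _ ≤ k ^ k * Fintype.card F ^ v := Nat.mul_le_mul_right _ (Nat.pow_le_pow_left hvk k)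

lemma sqrt_half {q : ℝ} (hq : 1 ≤ q) {k : ℕ} (hk : 0 < k) :
    √q * q ^ ((k - 1) / 2) ≤ √q ^ k := by
  have h1 : q ^ ((k - 1) / 2) = √q ^ (2 * ((k - 1) / 2)) := by
    rw [pow_mul, Real.sq_sqrt (by linarith)]
  rw [h1, ← pow_succ']
  exact pow_le_pow_right₀ (Real.one_le_sqrt.2 hq) (by omega)

open Classical in
/-- **The number of the families with blocks of sum zero.** -/
theorem count [LinearOrder J] [Nonempty F] (hγ : ∀ j, γ j ≠ 0) :
    |(((univ.filter fun x : J → F => Triv γ x).card : ℝ) -
      ((Mt γ).card : ℝ) * √(Fintype.card F : ℝ) ^ Fintype.card J)| * √(Fintype.card F : ℝ) ≤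
        ((1 + (Fintype.card J).factorial : ℕ) * (Fintype.card J ^ Fintype.card J : ℕ) : ℝ) *
          √(Fintype.card F : ℝ) ^ Fintype.card J := by
  set k := Fintype.card J with hk
  set q := Fintype.card F with hq
  have hq1 : (1 : ℝ) ≤ q := by exact_mod_cast Fintype.card_pos (α := F)
  have hs0 : (0 : ℝ) ≤ √(q : ℝ) := Real.sqrt_nonneg _
  -- the main term
  have e1 : ((Mt γ).card : ℝ) * √(q : ℝ) ^ k =
      ∑ x : J → F, (((Mt γ).filter fun π => ∀ j, x (π j) = x j).card : ℝ) := by
    have h1 : ∑ x : J → F, (((Mt γ).filter fun π => ∀ j, x (π j) = x j).card : ℝ) =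
        ∑ π ∈ Mt γ, ((univ.filter fun x : J → F => ∀ j, x (π j) = x j).card : ℝ) := by
      simp only [card_eq_sum_ones, Nat.cast_sum, sum_filter, Nat.cast_ite, Nat.cast_one,
        Nat.cast_zero]
      exact sum_comm
    rw [h1, ← nsmul_eq_mul, ← sum_const]
    refine sum_congr rfl fun π hπ => ?_
    obtain ⟨m, hm1, hm2⟩ := card_fix (F := F) ((mem_Mt γ).1 hπ).1 ((mem_Mt γ).1 hπ).2.1
    rw [hm2, hk, hm1, pow_mul, Real.sq_sqrt (by linarith)]
    push_cast
    rfl
  have e2 : ((univ.filter fun x : J → F => Triv γ x).card : ℝ) =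
      ∑ x : J → F, (if Triv γ x then (1 : ℝ) else 0) := by
    rw [card_eq_sum_ones, Nat.cast_sum, sum_filter]
    simp
  have hMt : ((Mt γ).card : ℝ) ≤ k.factorial := by
    have h1 : (Mt γ).card ≤ Fintype.card (Equiv.Perm J) := by
      rw [← card_univ]
      exact card_le_card (subset_univ _)
    rw [Fintype.card_perm] at h1
    exact_mod_cast h1
  have e3 : |(((univ.filter fun x : J → F => Triv γ x).card : ℝ) -
      ((Mt γ).card : ℝ) * √(q : ℝ) ^ k)| ≤
      ((univ.filter fun x : J → F => 2 * (univ.image x).card < k).card : ℝ) *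
        ((1 + k.factorial : ℕ) : ℝ) := by
    rw [e1, e2, ← sum_sub_distrib]
    have h1 : ∑ x : J → F, ((if Triv γ x then (1 : ℝ) else 0) -
        (((Mt γ).filter fun π => ∀ j, x (π j) = x j).card : ℝ)) =
        ∑ x ∈ univ.filter (fun x : J → F => 2 * (univ.image x).card < k),
        ((if Triv γ x then (1 : ℝ) else 0) -
        (((Mt γ).filter fun π => ∀ j, x (π j) = x j).card : ℝ)) := by
      rw [sum_filter]
      refine sum_congr rfl fun x _ => ?_
      by_cases h3 : 2 * (univ.image x).card < k
      · rw [if_pos h3]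
      · rw [if_neg h3]
        have h4 := key γ hγ x (not_lt.1 h3)
        rw [← h4]
        by_cases h2 : Triv γ x
        · rw [if_pos h2, if_pos h2]
          simp
        · rw [if_neg h2, if_neg h2]
          simp
    rw [h1]
    refine (abs_sum_le_sum_abs _ _).trans ?_
    rw [← nsmul_eq_mul, ← sum_const]
    refine sum_le_sum fun x _ => ?_
    have h2 : (((Mt γ).filter fun π => ∀ j, x (π j) = x j).card : ℝ) ≤ k.factorial := by
      refine le_trans ?_ hMt
      exact_mod_cast card_filter_le _ _
    have h3 : (0 : ℝ) ≤ (((Mt γ).filter fun π => ∀ j, x (π j) = x j).card : ℝ) := Nat.cast_nonneg _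
    push_cast
    rw [abs_le]
    split_ifs <;> constructor <;> linarith
  rcases Nat.eq_zero_or_pos k with h0 | h0
  · have h1 : (univ.filter fun x : J → F => 2 * (univ.image x).card < k) = ∅ := by
      rw [filter_eq_empty_iff]
      intro x _
      omega
    rw [h1, card_empty, Nat.cast_zero, zero_mul] at e3
    have h2 := le_antisymm e3 (abs_nonneg _)
    rw [h2, zero_mul]
    positivity
  · have h1 : ((univ.filter fun x : J → F => 2 * (univ.image x).card < k).card : ℝ) ≤
        ((k ^ k : ℕ) : ℝ) * (q : ℝ) ^ ((k - 1) / 2) := by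
      have := card_small (F := F) (J := J)
      rw [← hk, ← hq] at this
      exact_mod_cast this
    calc _ ≤ ((k ^ k : ℕ) : ℝ) * (q : ℝ) ^ ((k - 1) / 2) * ((1 + k.factorial : ℕ) : ℝ) * √(q : ℝ) := by
          refine mul_le_mul_of_nonneg_right (e3.trans ?_) hs0
          exact mul_le_mul_of_nonneg_right h1 (Nat.cast_nonneg _)
      _ = (((1 + k.factorial : ℕ) : ℝ) * ((k ^ k : ℕ) : ℝ)) * (√(q : ℝ) * (q : ℝ) ^ ((k - 1) / 2)) := by
          ring
      _ ≤ _ := by
          refine mul_le_mul_of_nonneg_left (sqrt_half hq1 h0) ?_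
          positivity

end

end Pool.Agent.L0h11.CC
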