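import Mathlib
import Pool.Agent.L0h11.Vm
import Pool.Agent.L0h11.Vw2
import Pool.Agent.L0h11.Ha

/-!
# Moments of character sums in families of cyclic covers of the line
-/

set_option autoImplicit false
set_option linter.all false

namespace Pool.Agent.L0h11.CC

open Finset Polynomial
open Pool.Agent.L0h11
open Pool.Agent.R410.PW (WC)

section

variable {F : Type} [Field F] [Fintype F] {d : ℕ} [NeZero d] {w : F} (hw : IsPrimitiveRoot w d)
  {e : AddChar (ZMod d) ℂ} (he : ∀ i, e i = 1 → i = 0)

lemma c1_pow : ch hw e 1 ^ d = 1 := by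
  rw [← ch_nsmul, ZMod.natCast_self, zero_mul, ch_zero]

include he in
lemma c1_ord (j : ℕ) (h : ch hw e 1 ^ j = 1) : d ∣ j := by
  rw [← ch_nsmul, ch_eq_one_iff hw e he, mul_one] at h
  exact (ZMod.natCast_eq_zero_iff _ _).1 h

lemma ch_chg (a : ZMod d) (x : F) : ch hw e 1 (x ^ (a.val + d)) = ch hw e a x := by
  have hn : a.val + d ≠ 0 := by
    have := NeZero.ne d
    omega
  rw [map_pow, ← MulChar.pow_apply' _ hn]
  rw [← ch_nsmul, mul_one]
  congr 2
  push_cast
  rw [ZMod.natCast_self, add_zero, ZMod.natCast_zmod_val]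

include he in
open Classical in
/-- **The bound of Weil for products of characters of linear polynomials.** -/
theorem weil_sum {ι : Type} [Fintype ι] (a : ι → ZMod d) (v : ι → F) {v₀ : F}
    (h : ∑ i with v i = v₀, a i ≠ 0) :
    ‖∑ x : F, ∏ i, ch hw e (a i) (x - v i)‖ ≤
      (WC d (2 * d * Fintype.card ι) (2 * d * Fintype.card ι) : ℝ) * √(Fintype.card F : ℝ) := by
  classical
  set P : F[X] := ∏ i, (X - C (v i)) ^ ((a i).val + d) with hP
  have h1 : ∀ x : F, ∏ i, ch hw e (a i) (x - v i) = ch hw e 1 (P.eval x) := by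
    intro x
    rw [hP, eval_prod, map_prod]
    refine prod_congr rfl fun i _ => ?_
    rw [eval_pow, eval_sub, eval_X, eval_C, ch_chg]
  rw [sum_congr rfl fun x _ => h1 x]
  have hP0 : P ≠ 0 := prod_ne_zero_iff.2 fun i _ => pow_ne_zero _ (X_sub_C_ne_zero _)
  have hdF : ((d : ℕ) : F) ≠ 0 := by
    have := hw.neZero'
    exact NeZero.ne _
  have hdeg : P.natDegree ≤ 2 * d * Fintype.card ι := by
    rw [hP, natDegree_prod _ _ fun i _ => pow_ne_zero _ (X_sub_C_ne_zero _)]
    calc ∑ i, ((X - C (v i)) ^ ((a i).val + d)).natDegree ≤ ∑ _i : ι, 2 * d := by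
          refine sum_le_sum fun i _ => ?_
          rw [natDegree_pow, natDegree_X_sub_C, mul_one]
          have := (ZMod.val_lt (a i)).le
          omega
      _ = 2 * d * Fintype.card ι := by rw [sum_const, card_univ, smul_eq_mul, mul_comm]
  -- the root `v₀`
  set n₀ := ∑ i with v i = v₀, ((a i).val + d) with hn₀
  set Q : F[X] := ∏ i with ¬ v i = v₀, (X - C (v i)) ^ ((a i).val + d) with hQ
  have hPQ : P = (X - C v₀) ^ n₀ * Q := by
    rw [hP, hQ, ← prod_filter_mul_prod_filter_not univ (fun i => v i = v₀), hn₀,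
      ← prod_pow_eq_pow_sum]
    congr 1
    refine prod_congr rfl fun i hi => ?_
    rw [(mem_filter.1 hi).2]
  have hQ0 : ¬ (X - C v₀) ∣ Q := by
    rw [dvd_iff_isRoot, IsRoot.def, hQ, eval_prod, prod_eq_zero_iff]
    rintro ⟨i, hi, h2⟩
    rw [eval_pow, eval_sub, eval_X, eval_C] at h2
    exact (mem_filter.1 hi).2 (sub_eq_zero.1 ((pow_eq_zero_iff (by
      have := NeZero.ne d
      omega)).1 h2)).symm
  refine weil_one hdF (c1_pow hw) (c1_ord hw he) hP0 hdeg
    (irreducible_X_sub_C v₀) (e := n₀) ?_ ?_ ?_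
  · rw [hPQ]
    exact dvd_mul_right _ _
  · rw [hPQ, pow_succ]
    intro h2
    exact hQ0 ((mul_dvd_mul_iff_left (pow_ne_zero _ (X_sub_C_ne_zero _))).1 h2)
  · intro h2
    apply h
    have h3 : ((n₀ : ℕ) : ZMod d) = ∑ i with v i = v₀, a i := by
      rw [hn₀, Nat.cast_sum]
      refine sum_congr rfl fun i _ => ?_
      push_cast
      rw [ZMod.natCast_self, add_zero, ZMod.natCast_zmod_val]
    rw [← h3]
    exact (ZMod.natCast_eq_zero_iff _ _).2 h2

include he in
open Classical in
theorem weil_sum' {ι : Type} [Fintype ι] (a : ι → ZMod d) (v : ι → F) {v₀ : F}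
    (h : ∑ i with v i = v₀, a i ≠ 0) :
    ‖∑ x : F, ∏ i, ch hw e (a i) (v i - x)‖ ≤
      (WC d (2 * d * Fintype.card ι) (2 * d * Fintype.card ι) : ℝ) * √(Fintype.card F : ℝ) := by
  have h1 : ∀ x : F, ∏ i, ch hw e (a i) (v i - x) =
      (∏ i, ch hw e (a i) (-1)) * ∏ i, ch hw e (a i) (x - v i) := by
    intro x
    rw [← prod_mul_distrib]
    refine prod_congr rfl fun i _ => ?_
    rw [← map_mul]
    congr 1
    ring
  rw [sum_congr rfl fun x _ => h1 x, ← mul_sum, norm_mul]
  calc _ ≤ 1 * ‖∑ x : F, ∏ i, ch hw e (a i) (x - v i)‖ := by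
        refine mul_le_mul_of_nonneg_right ?_ (norm_nonneg _)
        rw [_root_.norm_prod]
        exact prod_le_one (fun i _ => norm_nonneg _) fun i _ => norm_chi_le _ _
    _ ≤ _ := by
        rw [one_mul]
        exact weil_sum hw he a v h

end

section

variable {F : Type} [Field F] [Fintype F] {d : ℕ} [NeZero d] {w : F} (hw : IsPrimitiveRoot w d)
  (e : AddChar (ZMod d) ℂ)
  {I J : Type} [Fintype I] [Fintype J] (γ : J → I → ZMod d)

/-- the character sum -/
noncomputable def SS (g : I → ZMod d) (t : I → F) : ℂ := ∑ x : F, ∏ i, ch hw e (g i) (x - t i)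

/-- the inner sum -/
noncomputable def AA (x : J → F) (i : I) : ℂ := ∑ s : F, ∏ j, ch hw e (γ j i) (x j - s)

lemma swap [DecidableEq I] [DecidableEq J] : ∑ t : I → F, ∏ j, SS hw e (γ j) t = ∑ x : J → F, ∏ i, AA hw e γ x i := by
  have h1 : ∀ t : I → F, ∏ j, SS hw e (γ j) t =
      ∑ x : J → F, ∏ j, ∏ i, ch hw e (γ j i) (x j - t i) := by
    intro t
    unfold SS
    rw [prod_univ_sum, Fintype.piFinset_univ]
  have h2 : ∀ x : J → F, ∏ i, AA hw e γ x i =
      ∑ t : I → F, ∏ i, ∏ j, ch hw e (γ j i) (x j - t i) := by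
    intro x
    unfold AA
    rw [prod_univ_sum, Fintype.piFinset_univ]
  rw [sum_congr rfl fun t _ => h1 t, sum_congr rfl fun x _ => h2 x, sum_comm]
  exact sum_congr rfl fun x _ => sum_congr rfl fun t _ => prod_comm

lemma ch_sum' {ι : Type} (s : Finset ι) (f : ι → ZMod d) (t : F) (ht : t ≠ 0) :
    ch hw e (∑ i ∈ s, f i) t = ∏ i ∈ s, ch hw e (f i) t := by
  classical
  induction s using Finset.induction_on with
  | empty => rw [sum_empty, prod_empty, ch_zero, MulChar.one_apply (isUnit_iff_ne_zero.2 ht)]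
  | insert a s ha ih => rw [sum_insert ha, prod_insert ha, ch_add, MulChar.mul_apply, ih]

lemma norm_AA_le (x : J → F) (i : I) : ‖AA hw e γ x i‖ ≤ Fintype.card F := by
  unfold AA
  refine (norm_sum_le _ _).trans ?_
  calc _ ≤ ∑ _s : F, (1 : ℝ) := by
        refine sum_le_sum fun s _ => ?_
        rw [_root_.norm_prod]
        exact prod_le_one (fun i _ => norm_nonneg _) fun i _ => norm_chi_le _ _
    _ = Fintype.card F := by rw [sum_const, card_univ, nsmul_eq_mul, mul_one]

open Classical in
lemma AA_triv {x : J → F} (hx : Triv γ x) (i : I) :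
    AA hw e γ x i = ((Fintype.card F - (univ.image x).card : ℝ) : ℂ) := by
  unfold AA
  have h1 : ∀ s : F, ∏ j, ch hw e (γ j i) (x j - s) = if s ∈ univ.image x then 0 else 1 := by
    intro s
    split_ifs with hs
    · obtain ⟨j, -, hj⟩ := mem_image.1 hs
      refine prod_eq_zero (mem_univ j) ?_
      rw [hj, sub_self]
      exact MulChar.map_zero _
    · rw [← prod_fiberwise_of_maps_to (t := univ.image x) (g := x)
        (fun j _ => mem_image_of_mem x (mem_univ j))]
      refine prod_eq_one fun v hv => ?_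
      have hvs : v - s ≠ 0 := by
        intro h
        rw [sub_eq_zero] at h
        exact hs (h ▸ hv)
      have h2 : ∏ j with x j = v, ch hw e (γ j i) (x j - s) =
          ∏ j with x j = v, ch hw e (γ j i) (v - s) :=
        prod_congr rfl fun j hj => by rw [(mem_filter.1 hj).2]
      rw [h2, ← ch_sum' hw e _ _ _ hvs]
      have h3 : ∑ j with x j = v, γ j i = 0 := by
        have := congrFun (hx v) i
        rwa [Finset.sum_apply] at this
      rw [h3, ch_zero, MulChar.one_apply (isUnit_iff_ne_zero.2 hvs)]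
  rw [sum_congr rfl fun s _ => h1 s]
  have h2 : ∀ s : F, (if s ∈ univ.image x then (0 : ℂ) else 1) =
      1 - if s ∈ univ.image x then (1 : ℂ) else 0 := by
    intro s
    split_ifs <;> simp
  rw [sum_congr rfl fun s _ => h2 s, sum_sub_distrib, sum_const, card_univ, nsmul_eq_mul, mul_one,
    sum_ite_mem, univ_inter, sum_const, nsmul_eq_mul, mul_one]
  push_cast
  rfl

variable {e} (he : ∀ i, e i = 1 → i = 0)

include he in
open Classical in
lemma prod_nontriv (x : J → F) :
    ‖∏ i, AA hw e γ x i‖ * √(Fintype.card F : ℝ) ^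
        (Nat.card {i // ∃ v, (∑ j with x j = v, γ j) i ≠ 0}) ≤
      ((WC d (2 * d * Fintype.card J) (2 * d * Fintype.card J) : ℝ) + 1) ^ Fintype.card I *
        (Fintype.card F : ℝ) ^ Fintype.card I := by
  obtain ⟨B, hB⟩ : ∃ B : Finset I, B = univ.filter fun i => ∃ v, (∑ j with x j = v, γ j) i ≠ 0 :=
    ⟨_, rfl⟩
  have hBc : Nat.card {i // ∃ v, (∑ j with x j = v, γ j) i ≠ 0} = B.card := by
    rw [hB, Nat.card_eq_fintype_card, Fintype.card_subtype]
  rw [hBc]
  set k := Fintype.card J
  set q : ℝ := (Fintype.card F : ℝ) with hq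
  set W : ℝ := (WC d (2 * d * k) (2 * d * k) : ℝ) + 1 with hW
  have hq1 : (1 : ℝ) ≤ q := Nat.one_le_cast.2 (Fintype.card_pos (α := F))
  have hs1 : 1 ≤ √q := Real.one_le_sqrt.2 hq1
  have hW1 : 1 ≤ W := by
    rw [hW]
    have : (0 : ℝ) ≤ (WC d (2 * d * k) (2 * d * k) : ℝ) := Nat.cast_nonneg _
    linarith
  have h1 : ∀ i ∈ B, ‖AA hw e γ x i‖ ≤ W * √q := by
    intro i hi
    rw [hB, mem_filter] at hi
    obtain ⟨-, v, hi⟩ := hi
    have h2 : ∑ j with x j = v, γ j i ≠ 0 := by
      rwa [Finset.sum_apply] at hi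
    have h3 := weil_sum' hw he (fun j => γ j i) x h2
    refine h3.trans ?_
    refine mul_le_mul_of_nonneg_right ?_ (Real.sqrt_nonneg _)
    rw [hW]
    linarith
  have h2 : ‖∏ i, AA hw e γ x i‖ ≤ (W * √q) ^ B.card * q ^ (Fintype.card I - B.card) := by
    rw [_root_.norm_prod, ← prod_mul_prod_compl B]
    refine mul_le_mul ?_ ?_ (prod_nonneg fun i _ => norm_nonneg _) (by positivity)
    · calc ∏ i ∈ B, ‖AA hw e γ x i‖ ≤ ∏ _i ∈ B, W * √q :=
            prod_le_prod (fun i _ => norm_nonneg _) h1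
        _ = _ := by rw [prod_const]
    · calc ∏ i ∈ Bᶜ, ‖AA hw e γ x i‖ ≤ ∏ _i ∈ Bᶜ, q :=
            prod_le_prod (fun i _ => norm_nonneg _) fun i _ => norm_AA_le hw e γ x i
        _ = _ := by rw [prod_const, card_compl]
  have hBI : B.card ≤ Fintype.card I := by
    rw [← card_univ]
    exact card_le_card (subset_univ _)
  calc _ ≤ (W * √q) ^ B.card * q ^ (Fintype.card I - B.card) * √q ^ B.card := by
        refine mul_le_mul_of_nonneg_right h2 (by positivity)
    _ = W ^ B.card * ((√q * √q) ^ B.card * q ^ (Fintype.card I - B.card)) := by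
        rw [mul_pow, mul_pow]
        ring
    _ = W ^ B.card * q ^ Fintype.card I := by
        rw [Real.mul_self_sqrt (by linarith), ← pow_add, Nat.add_sub_cancel' hBI]
    _ ≤ W ^ Fintype.card I * q ^ Fintype.card I :=
        mul_le_mul_of_nonneg_right (pow_le_pow_right₀ hW1 hBI) (by positivity)

open Classical in
/-- the number of the indices with a nontrivial block -/
lemma card_block {G : Type} [AddCommGroup G] {γ : J → I → G}
    (hH : ∀ D : Finset J, D.Nonempty → D.card < Nat.card {i // ∃ j ∈ D, γ j i ≠ 0})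
    {x : J → F} (hx : ¬ Triv γ x) :
    2 * (univ.image x).card + 1 ≤
      Nat.card {i // ∃ v, (∑ j with x j = v, γ j) i ≠ 0} + Fintype.card J := by
  obtain ⟨B, hB⟩ : ∃ B : Finset I, B = univ.filter fun i => ∃ v, (∑ j with x j = v, γ j) i ≠ 0 :=
    ⟨_, rfl⟩
  have hBc : Nat.card {i // ∃ v, (∑ j with x j = v, γ j) i ≠ 0} = B.card := by
    rw [hB, Nat.card_eq_fintype_card, Fintype.card_subtype]
  rw [hBc]
  set D := univ.filter fun j => ∀ j', x j' = x j → j' = j with hD
  -- the number of the singletons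
  have h1 : 2 * (univ.image x).card ≤ Fintype.card J + D.card := by
    have h2 : Fintype.card J = ∑ v ∈ univ.image x, (univ.filter fun j => x j = v).card := by
      rw [← card_univ]
      exact card_eq_sum_card_image x univ
    have h3 : D.card = ∑ v ∈ univ.image x, (D.filter fun j => x j = v).card := by
      refine card_eq_sum_card_fiberwise fun j _ => ?_
      exact mem_coe.2 (mem_image_of_mem x (mem_univ j))
    rw [h2, h3, ← sum_add_distrib, mul_comm, ← smul_eq_mul, ← sum_const]
    refine sum_le_sum fun v hv => ?_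
    obtain ⟨j, -, rfl⟩ := mem_image.1 hv
    have h4 : 1 ≤ (univ.filter fun i => x i = x j).card := by
      rw [Nat.one_le_iff_ne_zero, ← Nat.pos_iff_ne_zero, card_pos]
      exact ⟨j, mem_filter.2 ⟨mem_univ _, rfl⟩⟩
    by_cases h5 : (univ.filter fun i => x i = x j).card = 1
    · have h6 : 1 ≤ (D.filter fun i => x i = x j).card := by
        rw [Nat.one_le_iff_ne_zero, ← Nat.pos_iff_ne_zero, card_pos]
        refine ⟨j, mem_filter.2 ⟨mem_filter.2 ⟨mem_univ _, fun j' hj' => ?_⟩, rfl⟩⟩
        obtain ⟨a, ha⟩ := card_eq_one.1 h5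
        have h7 : j ∈ (univ.filter fun i => x i = x j) := mem_filter.2 ⟨mem_univ _, rfl⟩
        have h8 : j' ∈ (univ.filter fun i => x i = x j) := mem_filter.2 ⟨mem_univ _, hj'⟩
        rw [ha, mem_singleton] at h7 h8
        rw [h7, h8]
      omega
    · omega
  rcases D.eq_empty_or_nonempty with h2 | h2
  · rw [h2, card_empty] at h1
    have h3 : 1 ≤ B.card := by
      rw [Nat.one_le_iff_ne_zero, ← Nat.pos_iff_ne_zero, card_pos]
      unfold Triv at hx
      push Not at hx
      obtain ⟨v, hv⟩ := hx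
      have h4 : ∃ i, (∑ j with x j = v, γ j) i ≠ 0 := by
        by_contra h5
        push Not at h5
        apply hv
        funext i
        exact h5 i
      obtain ⟨i, hi⟩ := h4
      rw [hB]
      exact ⟨i, mem_filter.2 ⟨mem_univ _, v, hi⟩⟩
    omega
  · have h3 := hH D h2
    rw [Nat.card_eq_fintype_card, Fintype.card_subtype] at h3
    have h4 : (univ.filter fun i => ∃ j ∈ D, γ j i ≠ 0).card ≤ B.card := by
      refine card_le_card fun i hi => ?_
      obtain ⟨-, j, hj, hi⟩ := mem_filter.1 hi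
      have h5 : (univ.filter fun j' => x j' = x j) = {j} := by
        ext j'
        rw [mem_filter, mem_singleton]
        constructor
        · rintro ⟨-, h6⟩
          exact (mem_filter.1 hj).2 j' h6
        · rintro rfl
          exact ⟨mem_univ _, rfl⟩
      rw [hB, mem_filter]
      refine ⟨mem_univ _, x j, ?_⟩
      rw [h5, sum_singleton]
      exact hi
    omega

open Classical in
/-- few values -/
lemma card_img [DecidableEq J] {v : ℕ} (hvk : v ≤ Fintype.card J) :
    (univ.filter fun x : J → F => (univ.image x).card ≤ v).card ≤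
    Fintype.card J ^ Fintype.card J * Fintype.card F ^ v := by
  set k := Fintype.card J with hk
  rcases Nat.eq_zero_or_pos k with h0 | h0
  · have h1 : (univ.filter fun x : J → F => (univ.image x).card ≤ v).card ≤
        Fintype.card (J → F) := card_le_univ _
    rw [Fintype.card_fun, ← hk, h0, pow_zero] at h1
    rw [h0, pow_zero, one_mul]
    exact h1.trans (Nat.one_le_pow _ _ Fintype.card_pos)
  have hJ : Nonempty J := Fintype.card_pos_iff.1 (by omega)
  obtain ⟨j₀⟩ := hJ
  calc (univ.filter fun x : J → F => (univ.image x).card ≤ v).card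
      ≤ ((univ : Finset ((J → Fin v) × (Fin v → F))).image fun z => z.2 ∘ z.1).card := by
        refine card_le_card fun x hx => ?_
        rw [mem_filter] at hx
        have hx2 : (univ.image x).card ≤ v := hx.2
        rw [mem_image]
        let s := univ.image x
        let E := s.equivFin
        refine ⟨(fun j => Fin.castLE hx2 (E ⟨x j, mem_image_of_mem x (mem_univ j)⟩),
          fun i => if h : i.1 < s.card then (E.symm ⟨i.1, h⟩ : F) else x j₀), mem_univ _, ?_⟩
        funext j
        have h2 : (Fin.castLE hx2 (E ⟨x j, mem_image_of_mem x (mem_univ j)⟩)).1 < s.card :=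
          (E ⟨x j, mem_image_of_mem x (mem_univ j)⟩).2
        have h3 : E.symm ⟨(Fin.castLE hx2 (E ⟨x j, mem_image_of_mem x (mem_univ j)⟩)).1, h2⟩ =
            ⟨x j, mem_image_of_mem x (mem_univ j)⟩ := by
          rw [Equiv.symm_apply_eq]
          rfl
        exact (dif_pos h2).trans (congrArg Subtype.val h3)
    _ ≤ ((univ : Finset ((J → Fin v) × (Fin v → F)))).card := card_image_le
    _ = v ^ k * Fintype.card F ^ v := by
        rw [card_univ, Fintype.card_prod, Fintype.card_fun, Fintype.card_fun, Fintype.card_fin]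
    _ ≤ k ^ k * Fintype.card F ^ v := Nat.mul_le_mul_right _ (Nat.pow_le_pow_left hvk k)

lemma pow_diff {q m : ℝ} (hq : 1 ≤ q) (hm : 0 ≤ m) (hmq : m ≤ q) (N : ℕ) :
    |(q - m) ^ N - q ^ N| * √q ≤ N * m * q ^ N := by
  have h0 : 0 < q := by linarith
  have h1 : (q - m) ^ N ≤ q ^ N := pow_le_pow_left₀ (by linarith) (by linarith) N
  have h2 : q ^ N - (q - m) ^ N ≤ N * m * q ^ N / q := by
    have h3 := one_add_mul_le_pow (a := -(m / q)) (by
      have : m / q ≤ 1 := (div_le_one h0).2 hmq
      linarith) N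
    have h4 : (q - m) ^ N = q ^ N * (1 + -(m / q)) ^ N := by
      rw [← mul_pow]
      congr 1
      field_simp
      ring
    rw [h4]
    have h5 : 0 ≤ q ^ N := by positivity
    have h6 := mul_le_mul_of_nonneg_left h3 h5
    have h7 : N * m * q ^ N / q = q ^ N * (N * (m / q)) := by field_simp
    rw [h7]
    linarith
  rw [abs_of_nonpos (by linarith), neg_sub]
  have h3 : √q ≤ q := Real.sqrt_le_iff.2 ⟨by linarith, by nlinarith⟩
  calc _ ≤ (N * m * q ^ N / q) * q := mul_le_mul h2 h3 (Real.sqrt_nonneg _) (by positivity)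
    _ = _ := by field_simp

/-- the constant -/
noncomputable def MC (d k N : ℕ) : ℝ :=
  ((k + 1 : ℕ) * (k ^ k : ℕ) : ℝ) * ((WC d (2 * d * k) (2 * d * k) : ℝ) + 1) ^ N +
    ((k.factorial : ℝ) + ((1 + k.factorial : ℕ) * (k ^ k : ℕ) : ℝ)) * (N * k) +
    ((1 + k.factorial : ℕ) * (k ^ k : ℕ) : ℝ)

include he in
open Classical in
/-- **The moments.** -/
theorem moment [LinearOrder J] [DecidableEq I]
    (hH : ∀ D : Finset J, D.Nonempty → D.card < Nat.card {i // ∃ j ∈ D, γ j i ≠ 0}) :
    ‖∑ t : I → F, ∏ j, SS hw e (γ j) t -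
      (((Fintype.card F : ℝ) ^ Fintype.card I * (((Mt γ).card : ℝ) *
        √(Fintype.card F : ℝ) ^ Fintype.card J) : ℝ) : ℂ)‖ * √(Fintype.card F : ℝ) ≤
      MC d (Fintype.card J) (Fintype.card I) *
        ((Fintype.card F : ℝ) ^ Fintype.card I * √(Fintype.card F : ℝ) ^ Fintype.card J) := by
  set k := Fintype.card J with hk
  set N := Fintype.card I with hN
  set q : ℝ := (Fintype.card F : ℝ) with hq
  set W : ℝ := (WC d (2 * d * k) (2 * d * k) : ℝ) + 1 with hW
  set C₁ : ℝ := ((1 + k.factorial : ℕ) * (k ^ k : ℕ) : ℝ) with hC₁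
  have hC₁0 : 0 ≤ C₁ := by positivity
  have hq1 : (1 : ℝ) ≤ q := Nat.one_le_cast.2 (Fintype.card_pos (α := F))
  have hs1 : 1 ≤ √q := Real.one_le_sqrt.2 hq1
  have hs0 : 0 < √q := by linarith
  have hγ : ∀ j, γ j ≠ 0 := by
    intro j hj
    have h1 := hH {j} (singleton_nonempty j)
    rw [card_singleton] at h1
    have h2 : 0 < Nat.card {i // ∃ j' ∈ ({j} : Finset J), γ j' i ≠ 0} := by omega
    obtain ⟨i, j', hj', h3⟩ := (Nat.card_pos_iff.1 h2).1
    rw [mem_singleton] at hj'
    rw [hj', hj] at h3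
    exact h3 rfl
  have hcount := count (F := F) γ hγ
  rw [← hk, ← hq, ← hC₁] at hcount
  set T := (univ.filter fun x : J → F => Triv γ x) with hT
  -- the number of the trivial families
  have hMt : ((Mt γ).card : ℝ) ≤ k.factorial := by
    have h1 : (Mt γ).card ≤ Fintype.card (Equiv.Perm J) := by
      rw [← card_univ]
      exact card_le_card (subset_univ _)
    rw [Fintype.card_perm] at h1
    exact_mod_cast h1
  have hTc : (T.card : ℝ) ≤ ((k.factorial : ℝ) + C₁) * √q ^ k := by
    have h1 : |(T.card : ℝ) - ((Mt γ).card : ℝ) * √q ^ k| ≤ C₁ * √q ^ k := by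
      refine le_trans ?_ hcount
      exact le_mul_of_one_le_right (abs_nonneg _) hs1
    have h2 := (abs_le.1 h1).2
    have h3 : ((Mt γ).card : ℝ) * √q ^ k ≤ k.factorial * √q ^ k :=
      mul_le_mul_of_nonneg_right hMt (by positivity)
    linarith
  rw [swap, ← sum_filter_add_sum_filter_not univ (fun x : J → F => Triv γ x)]
  have e1 : ∑ x ∈ T, ∏ i, AA hw e γ x i =
      ∑ x ∈ T, (((q - (univ.image x).card) ^ N : ℝ) : ℂ) := by
    refine sum_congr rfl fun x hx => ?_
    rw [prod_congr rfl fun i _ => AA_triv hw e γ (mem_filter.1 hx).2 i, prod_const, card_univ]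
    push_cast
    rfl
  rw [e1]
  set U := ∑ x ∈ univ.filter (fun x : J → F => ¬ Triv γ x), ∏ i, AA hw e γ x i with hU
  -- the nontrivial families
  set U' := univ.filter (fun x : J → F => ¬ Triv γ x) with hU'
  have hUb : ‖U‖ * √q ≤ ((k + 1 : ℕ) * (k ^ k : ℕ) : ℝ) * W ^ N * (q ^ N * √q ^ k) := by
    have h1 : ∀ x ∈ U', ‖∏ i, AA hw e γ x i‖ * √q * q ^ (univ.image x).card ≤
        W ^ N * (q ^ N * √q ^ k) := by
      intro x hx
      have h3 := prod_nontriv hw γ he x
      have h2 := card_block (γ := γ) hH (mem_filter.1 hx).2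
      rw [← hk] at h2
      set Bc := Nat.card {i // ∃ v, (∑ j with x j = v, γ j) i ≠ 0} with hB
      calc _ = ‖∏ i, AA hw e γ x i‖ * √q ^ (2 * (univ.image x).card + 1) := by
            rw [pow_succ, pow_mul, Real.sq_sqrt (by linarith)]
            ring
        _ ≤ ‖∏ i, AA hw e γ x i‖ * √q ^ (Bc + k) :=
            mul_le_mul_of_nonneg_left (pow_le_pow_right₀ hs1 h2) (norm_nonneg _)
        _ = (‖∏ i, AA hw e γ x i‖ * √q ^ Bc) * √q ^ k := by
            rw [pow_add]
            ring
        _ ≤ (W ^ N * q ^ N) * √q ^ k := mul_le_mul_of_nonneg_right h3 (by positivity)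
        _ = _ := by ring
    have h2 : ∀ x ∈ U', (univ.image x).card ∈ range (k + 1) := by
      intro x _
      rw [mem_range, Nat.lt_succ_iff, hk, ← card_univ]
      exact card_image_le
    calc _ ≤ (∑ x ∈ U', ‖∏ i, AA hw e γ x i‖) * √q :=
          mul_le_mul_of_nonneg_right (norm_sum_le _ _) hs0.le
      _ = ∑ v ∈ range (k + 1), ∑ x ∈ U' with (univ.image x).card = v,
            ‖∏ i, AA hw e γ x i‖ * √q := by
          rw [sum_mul, sum_fiberwise_of_maps_to h2]
      _ ≤ ∑ v ∈ range (k + 1), ((k ^ k : ℕ) : ℝ) * (W ^ N * (q ^ N * √q ^ k)) := by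
          refine sum_le_sum fun v hv => ?_
          have hqv : 0 < q ^ v := by positivity
          have h3 : ∀ x ∈ U'.filter (fun x => (univ.image x).card = v),
              ‖∏ i, AA hw e γ x i‖ * √q ≤ W ^ N * (q ^ N * √q ^ k) / q ^ v := by
            intro x hx
            rw [mem_filter] at hx
            have h4 := h1 x hx.1
            rw [hx.2] at h4
            rwa [le_div_iff₀ hqv]
          refine (sum_le_sum h3).trans ?_
          rw [sum_const, nsmul_eq_mul]
          have h5 : ((U'.filter (fun x => (univ.image x).card = v)).card : ℝ) ≤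
              ((k ^ k : ℕ) : ℝ) * q ^ v := by
            have h6 : (U'.filter (fun x => (univ.image x).card = v)).card ≤
                (univ.filter fun x : J → F => (univ.image x).card ≤ v).card := by
              refine card_le_card fun x hx => ?_
              rw [mem_filter] at hx ⊢
              exact ⟨mem_univ _, hx.2.le⟩
            have hvk : v ≤ k := by
              have := mem_range.1 hv
              omega
            have h8 : (univ.filter fun x : J → F => (univ.image x).card ≤ v).card ≤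
                k ^ k * Fintype.card F ^ v := card_img (F := F) (J := J) (v := v) hvk
            have h7 := h6.trans h8
            rw [hq]
            exact_mod_cast h7
          calc _ ≤ (((k ^ k : ℕ) : ℝ) * q ^ v) * (W ^ N * (q ^ N * √q ^ k) / q ^ v) :=
                mul_le_mul_of_nonneg_right h5 (by positivity)
            _ = _ := by
                field_simp
      _ = _ := by
          rw [sum_const, card_range, nsmul_eq_mul]
          ring
  -- the trivial families
  have hTb : ‖∑ x ∈ T, (((q - (univ.image x).card) ^ N : ℝ) : ℂ) - ((q ^ N * T.card : ℝ) : ℂ)‖ * √q ≤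
      ((k.factorial : ℝ) + C₁) * (N * k) * (q ^ N * √q ^ k) := by
    have h1 : ∑ x ∈ T, (((q - (univ.image x).card) ^ N : ℝ) : ℂ) - ((q ^ N * T.card : ℝ) : ℂ) =
        ∑ x ∈ T, (((q - (univ.image x).card) ^ N - q ^ N : ℝ) : ℂ) := by
      push_cast
      rw [sum_sub_distrib, sum_const, nsmul_eq_mul]
      ring
    rw [h1]
    calc _ ≤ (∑ x ∈ T, |(q - (univ.image x).card) ^ N - q ^ N|) * √q := by
          refine mul_le_mul_of_nonneg_right ((norm_sum_le _ _).trans (le_of_eq ?_)) hs0.le
          refine sum_congr rfl fun x _ => ?_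
          rw [Complex.norm_real, Real.norm_eq_abs]
      _ = ∑ x ∈ T, |(q - (univ.image x).card) ^ N - q ^ N| * √q := sum_mul _ _ _
      _ ≤ ∑ _x ∈ T, N * k * q ^ N := by
          refine sum_le_sum fun x _ => ?_
          have hm1 : ((univ.image x).card : ℝ) ≤ q := by
            have : (univ.image x).card ≤ Fintype.card F := by
              rw [← card_univ]
              exact card_le_card (subset_univ _)
            rw [hq]
            exact Nat.cast_le.2 this
          have hm2 : ((univ.image x).card : ℝ) ≤ k := by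
            have : (univ.image x).card ≤ k := by
              rw [hk, ← card_univ]
              exact card_image_le
            exact Nat.cast_le.2 this
          refine (pow_diff hq1 (Nat.cast_nonneg _) hm1 N).trans ?_
          gcongr
      _ = T.card * (N * k * q ^ N) := by rw [sum_const, nsmul_eq_mul]
      _ ≤ (((k.factorial : ℝ) + C₁) * √q ^ k) * (N * k * q ^ N) :=
          mul_le_mul_of_nonneg_right hTc (by positivity)
      _ = _ := by ring
  have hMb : ‖((q ^ N * T.card : ℝ) : ℂ) - ((q ^ N * (((Mt γ).card : ℝ) * √q ^ k) : ℝ) : ℂ)‖ * √q ≤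
      C₁ * (q ^ N * √q ^ k) := by
    rw [← Complex.ofReal_sub, Complex.norm_real, Real.norm_eq_abs, ← mul_sub, abs_mul,
      abs_of_nonneg (a := q ^ N) (by positivity), mul_assoc]
    calc _ ≤ q ^ N * (C₁ * √q ^ k) := mul_le_mul_of_nonneg_left hcount (by positivity)
      _ = _ := by ring
  have hfin : (∑ x ∈ T, (((q - (univ.image x).card) ^ N : ℝ) : ℂ) + U) -
      ((q ^ N * (((Mt γ).card : ℝ) * √q ^ k) : ℝ) : ℂ) =
      U + (∑ x ∈ T, (((q - (univ.image x).card) ^ N : ℝ) : ℂ) - ((q ^ N * T.card : ℝ) : ℂ)) +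
      (((q ^ N * T.card : ℝ) : ℂ) - ((q ^ N * (((Mt γ).card : ℝ) * √q ^ k) : ℝ) : ℂ)) := by ring
  rw [hfin]
  calc _ ≤ (‖U‖ + ‖∑ x ∈ T, (((q - (univ.image x).card) ^ N : ℝ) : ℂ) - ((q ^ N * T.card : ℝ) : ℂ)‖ +
        ‖((q ^ N * T.card : ℝ) : ℂ) - ((q ^ N * (((Mt γ).card : ℝ) * √q ^ k) : ℝ) : ℂ)‖) * √q :=
        mul_le_mul_of_nonneg_right ((norm_add_le _ _).trans (add_le_add_left (norm_add_le _ _) _)) hs0.le
    _ ≤ ((k + 1 : ℕ) * (k ^ k : ℕ) : ℝ) * W ^ N * (q ^ N * √q ^ k) +
        ((k.factorial : ℝ) + C₁) * (N * k) * (q ^ N * √q ^ k) +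
        C₁ * (q ^ N * √q ^ k) := by
        rw [add_mul, add_mul]
        exact add_le_add (add_le_add hUb hTb) hMb
    _ = MC d k N * (q ^ N * √q ^ k) := by
        unfold MC
        rw [← hC₁]
        ring

end

end Pool.Agent.L0h11.CC
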