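import Mathlib
import Pool.Agent.L0h11.Hb

/-!
# Degenerate families and sums over small sets
-/

set_option autoImplicit false
set_option linter.all false

namespace Pool.Agent.L0h11.CC

open Finset Polynomial
open Pool.Agent.L0h11
open Pool.Agent.R410.PW (WC)

/-- the constant -/
noncomputable def KK (N : ℕ) : ℝ := (N.factorial : ℝ) + ((1 + N.factorial : ℕ) * (N ^ N : ℕ) : ℝ)

lemma KK_nonneg (N : ℕ) : 0 ≤ KK N := by
  unfold KK
  positivity

lemma pow_self_mono {a b : ℕ} (h : a ≤ b) : a ^ a ≤ b ^ b := by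
  rcases Nat.eq_zero_or_pos b with rfl | hb
  · have : a = 0 := by omega
    subst this
    exact le_rfl
  · exact (Nat.pow_le_pow_left h a).trans (Nat.pow_le_pow_right hb h)

lemma KK_mono {a b : ℕ} (h : a ≤ b) : KK a ≤ KK b := by
  unfold KK
  have h1 : (a.factorial : ℝ) ≤ b.factorial := by exact_mod_cast Nat.factorial_le h
  have h2 : ((a ^ a : ℕ) : ℝ) ≤ ((b ^ b : ℕ) : ℝ) := by exact_mod_cast pow_self_mono h
  have h3 : ((1 + a.factorial : ℕ) : ℝ) ≤ ((1 + b.factorial : ℕ) : ℝ) := by
    push_cast
    linarith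
  exact add_le_add h1 (mul_le_mul h3 h2 (Nat.cast_nonneg _) (Nat.cast_nonneg _))

section

variable {F : Type} [Field F] [Fintype F] {I : Type} [Fintype I] [LinearOrder I]
  {G : Type} [AddCommGroup G]

open Classical in
/-- **The number of the degenerate families.** -/
theorem card_triv_le (γ : I → G) {s : ℕ} (hs : s = Nat.card {i // γ i ≠ 0}) :
    ((univ.filter fun x : I → F => Triv γ x).card : ℝ) * √(Fintype.card F : ℝ) ^ s ≤
      KK (Fintype.card I) * (Fintype.card F : ℝ) ^ (Fintype.card I) := by
  set q : ℝ := (Fintype.card F : ℝ) with hq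
  have hq1 : (1 : ℝ) ≤ q := Nat.one_le_cast.2 (Fintype.card_pos (α := F))
  have hs1 : 1 ≤ √q := Real.one_le_sqrt.2 hq1
  let I' := {i : I // γ i ≠ 0}
  let γ' : I' → G := fun i => γ i.1
  have hI' : Fintype.card I' = s := by
    rw [hs, Nat.card_eq_fintype_card]
  have hcount := count (F := F) γ' (fun i => i.2)
  rw [hI', ← hq] at hcount
  set T' := univ.filter fun x : I' → F => Triv γ' x with hT'
  have hMt : ((Mt γ').card : ℝ) ≤ s.factorial := by
    have h1 : (Mt γ').card ≤ Fintype.card (Equiv.Perm I') := by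
      rw [← card_univ]
      exact card_le_card (subset_univ _)
    rw [Fintype.card_perm, hI'] at h1
    exact_mod_cast h1
  have hT'c : (T'.card : ℝ) ≤ KK s * √q ^ s := by
    have h1 : |(T'.card : ℝ) - ((Mt γ').card : ℝ) * √q ^ s| ≤
        ((1 + s.factorial : ℕ) * (s ^ s : ℕ) : ℝ) * √q ^ s := by
      refine le_trans ?_ hcount
      refine le_trans (le_of_eq ?_) (le_mul_of_one_le_right (abs_nonneg _) hs1)
      rw [hT']
    have h2 := (abs_le.1 h1).2
    have h3 : ((Mt γ').card : ℝ) * √q ^ s ≤ s.factorial * √q ^ s :=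
      mul_le_mul_of_nonneg_right hMt (by positivity)
    unfold KK
    linarith
  -- the restriction
  have hsN : s ≤ Fintype.card I := by
    rw [← hI']
    exact Fintype.card_subtype_le _
  have hcard : ((univ.filter fun x : I → F => Triv γ x).card : ℝ) ≤
      T'.card * q ^ (Fintype.card I - s) := by
    let E := Equiv.piEquivPiSubtypeProd (fun i : I => γ i ≠ 0) (fun _ => F)
    have h1 : (univ.filter fun x : I → F => Triv γ x).card ≤
        (T' ×ˢ (univ : Finset ({i : I // ¬ γ i ≠ 0} → F))).card := by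
      refine card_le_card_of_injOn (fun x => E x) ?_ E.injective.injOn
      intro x hx
      rw [mem_coe, mem_filter] at hx
      rw [mem_coe, mem_product]
      refine ⟨?_, mem_univ _⟩
      rw [hT', mem_filter]
      refine ⟨mem_univ _, fun v => ?_⟩
      have h2 := hx.2 v
      rw [sum_filter] at h2 ⊢
      rw [← Fintype.sum_subtype_add_sum_subtype (fun i : I => γ i ≠ 0)] at h2
      have h3 : ∑ i : {i : I // ¬ γ i ≠ 0}, (if x i.1 = v then γ i.1 else 0) = 0 := by
        refine sum_eq_zero fun i _ => ?_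
        have h4 : γ i.1 = 0 := not_not.1 i.2
        rw [h4, ite_self]
      rw [h3, add_zero] at h2
      exact h2
    rw [card_product, card_univ, Fintype.card_fun] at h1
    have h2 : Fintype.card {i : I // ¬ γ i ≠ 0} = Fintype.card I - s := by
      rw [Fintype.card_subtype_compl, hI']
    rw [h2] at h1
    rw [hq]
    exact_mod_cast h1
  calc _ ≤ (T'.card * q ^ (Fintype.card I - s)) * √q ^ s :=
        mul_le_mul_of_nonneg_right hcard (by positivity)
    _ ≤ ((KK s * √q ^ s) * q ^ (Fintype.card I - s)) * √q ^ s := by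
        refine mul_le_mul_of_nonneg_right (mul_le_mul_of_nonneg_right hT'c (by positivity)) (by positivity)
    _ = KK s * ((√q * √q) ^ s * q ^ (Fintype.card I - s)) := by
        rw [mul_pow]
        ring
    _ = KK s * q ^ (Fintype.card I) := by
        rw [Real.mul_self_sqrt (by linarith), ← pow_add, Nat.add_sub_cancel' hsN]
    _ ≤ _ := mul_le_mul_of_nonneg_right (KK_mono hsN) (by positivity)

end

section

variable {F : Type} [Field F] [Fintype F] {d : ℕ} [NeZero d] {w : F} (hw : IsPrimitiveRoot w d)
  {e : AddChar (ZMod d) ℂ} (he : ∀ i, e i = 1 → i = 0)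
  {I J : Type} [Fintype I] [Fintype J] (γ : J → I → ZMod d)

lemma norm_SS_le (g : I → ZMod d) (t : I → F) : ‖SS hw e g t‖ ≤ Fintype.card F := by
  unfold SS
  refine (norm_sum_le _ _).trans ?_
  calc _ ≤ ∑ _s : F, (1 : ℝ) := by
        refine sum_le_sum fun s _ => ?_
        rw [_root_.norm_prod]
        exact prod_le_one (fun i _ => norm_nonneg _) fun i _ => norm_chi_le _ _
    _ = Fintype.card F := by rw [sum_const, card_univ, nsmul_eq_mul, mul_one]

/-- the constant -/
noncomputable def WW (d N : ℕ) : ℝ := (WC d (2 * d * N) (2 * d * N) : ℝ) + 1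

lemma one_le_WW (d N : ℕ) : 1 ≤ WW d N := by
  unfold WW
  have : (0 : ℝ) ≤ (WC d (2 * d * N) (2 * d * N) : ℝ) := Nat.cast_nonneg _
  linarith

include he in
open Classical in
lemma norm_SS_nt {g : I → ZMod d} {t : I → F} (h : ¬ Triv g t) :
    ‖SS hw e g t‖ ≤ WW d (Fintype.card I) * √(Fintype.card F : ℝ) := by
  unfold Triv at h
  push Not at h
  obtain ⟨v, hv⟩ := h
  have h3 := weil_sum hw he g t hv
  refine h3.trans ?_
  refine mul_le_mul_of_nonneg_right ?_ (Real.sqrt_nonneg _)
  unfold WW
  linarith

include he in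
open Classical in
/-- the product of the sums -/
lemma norm_prod_SS (t : I → F) :
    ‖∏ j, SS hw e (γ j) t‖ ≤ WW d (Fintype.card I) ^ Fintype.card J *
      √(Fintype.card F : ℝ) ^ (Fintype.card J + (univ.filter fun j => Triv (γ j) t).card) := by
  set D := univ.filter fun j => Triv (γ j) t with hD
  set q : ℝ := (Fintype.card F : ℝ) with hq
  have hq1 : (1 : ℝ) ≤ q := Nat.one_le_cast.2 (Fintype.card_pos (α := F))
  have hs1 : 1 ≤ √q := Real.one_le_sqrt.2 hq1
  have hW := one_le_WW d (Fintype.card I)
  set W := WW d (Fintype.card I)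
  rw [_root_.norm_prod]
  have h1 : ∀ j, ‖SS hw e (γ j) t‖ ≤ (W * √q) * (if j ∈ D then √q else 1) := by
    intro j
    split_ifs with hj
    · refine (norm_SS_le hw (γ j) t).trans ?_
      rw [mul_assoc, Real.mul_self_sqrt (by linarith)]
      exact le_mul_of_one_le_left (by linarith) hW
    · rw [mul_one]
      refine norm_SS_nt hw he ?_
      intro h2
      exact hj (mem_filter.2 ⟨mem_univ _, h2⟩)
  calc ∏ j, ‖SS hw e (γ j) t‖ ≤ ∏ j, ((W * √q) * (if j ∈ D then √q else 1)) :=
        prod_le_prod (fun j _ => norm_nonneg _) fun j _ => h1 j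
    _ = (W * √q) ^ Fintype.card J * √q ^ D.card := by
        rw [prod_mul_distrib, prod_const, card_univ, prod_ite_mem, univ_inter, prod_const]
    _ = _ := by
        rw [mul_pow, pow_add]
        ring

include he in
open Classical in
/-- **Sums over small sets.** -/
theorem bad_sum {Φ : Type} (Z : Finset Φ) (t : Φ → I → F) {C₁ C₂ X : ℝ} (hC₁ : 0 ≤ C₁)
    (hC₂ : 0 ≤ C₂) (hX : 0 ≤ X)
    (hZ : (Z.card : ℝ) * Fintype.card F ≤ C₁ * X)
    (hD : ∀ D : Finset J, D.Nonempty →
      (Nat.card {φ // φ ∈ Z ∧ ∀ j ∈ D, Triv (γ j) (t φ)} : ℝ) *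
        √(Fintype.card F : ℝ) ^ (D.card + 1) ≤ C₂ * X) :
    (∑ φ ∈ Z, ‖∏ j, SS hw e (γ j) (t φ)‖) * √(Fintype.card F : ℝ) ≤
      (2 ^ Fintype.card J * (C₁ + C₂) * WW d (Fintype.card I) ^ Fintype.card J) *
        (X * √(Fintype.card F : ℝ) ^ Fintype.card J) := by
  set q : ℝ := (Fintype.card F : ℝ) with hq
  have hq1 : (1 : ℝ) ≤ q := Nat.one_le_cast.2 (Fintype.card_pos (α := F))
  have hs1 : 1 ≤ √q := Real.one_le_sqrt.2 hq1
  have hsq : √q ≤ q := Real.sqrt_le_iff.2 ⟨by linarith, by nlinarith⟩
  have hW := one_le_WW d (Fintype.card I)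
  set W := WW d (Fintype.card I)
  set k := Fintype.card J with hk
  let Df : Φ → Finset J := fun φ => univ.filter fun j => Triv (γ j) (t φ)
  have h1 : ∀ φ ∈ Z, Df φ ∈ (univ : Finset (Finset J)) := fun φ _ => mem_univ _
  calc _ ≤ (∑ φ ∈ Z, W ^ k * √q ^ (k + (Df φ).card)) * √q := by
        refine mul_le_mul_of_nonneg_right (sum_le_sum fun φ _ => ?_) (by positivity)
        exact norm_prod_SS hw he γ (t φ)
    _ = ∑ D : Finset J, ∑ φ ∈ Z with Df φ = D, W ^ k * √q ^ (k + (Df φ).card) * √q := by
        rw [sum_mul, sum_fiberwise_of_maps_to h1]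
    _ ≤ ∑ _D : Finset J, (C₁ + C₂) * W ^ k * (X * √q ^ k) := by
        refine sum_le_sum fun D _ => ?_
        have h2 : ∑ φ ∈ Z with Df φ = D, W ^ k * √q ^ (k + (Df φ).card) * √q =
            ((Z.filter fun φ => Df φ = D).card : ℝ) * (W ^ k * √q ^ (k + D.card) * √q) := by
          rw [← nsmul_eq_mul, ← sum_const]
          refine sum_congr rfl fun φ hφ => ?_
          rw [(mem_filter.1 hφ).2]
        rw [h2]
        rcases D.eq_empty_or_nonempty with h3 | h3
        · have h4 : ((Z.filter fun φ => Df φ = D).card : ℝ) ≤ Z.card := by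
            exact_mod_cast card_filter_le _ _
          rw [h3, card_empty, add_zero]
          rw [h3] at h4
          calc _ ≤ (Z.card : ℝ) * (W ^ k * √q ^ k * √q) :=
                mul_le_mul_of_nonneg_right h4 (by positivity)
            _ = (Z.card * √q) * (W ^ k * √q ^ k) := by ring
            _ ≤ (Z.card * q) * (W ^ k * √q ^ k) := by
                refine mul_le_mul_of_nonneg_right ?_ (by positivity)
                exact mul_le_mul_of_nonneg_left hsq (Nat.cast_nonneg _)
            _ ≤ (C₁ * X) * (W ^ k * √q ^ k) := mul_le_mul_of_nonneg_right hZ (by positivity)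
            _ ≤ ((C₁ + C₂) * X) * (W ^ k * √q ^ k) := by
                refine mul_le_mul_of_nonneg_right ?_ (by positivity)
                exact mul_le_mul_of_nonneg_right (by linarith) hX
            _ = _ := by ring
        · have hDc : (Nat.card {φ // φ ∈ Z ∧ ∀ j ∈ D, Triv (γ j) (t φ)} : ℝ) =
              ((Z.filter fun φ => ∀ j ∈ D, Triv (γ j) (t φ)).card : ℝ) := by
            have h5 : Nat.card {φ // φ ∈ Z ∧ ∀ j ∈ D, Triv (γ j) (t φ)} =
                (Z.filter fun φ => ∀ j ∈ D, Triv (γ j) (t φ)).card := by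
              rw [← Fintype.card_coe, ← Nat.card_eq_fintype_card]
              refine Nat.card_congr (Equiv.subtypeEquivRight fun φ => ?_)
              rw [mem_filter]
            rw [h5]
          have h4 : ((Z.filter fun φ => Df φ = D).card : ℝ) ≤
              ((Z.filter fun φ => ∀ j ∈ D, Triv (γ j) (t φ)).card : ℝ) := by
            have : (Z.filter fun φ => Df φ = D).card ≤
                (Z.filter fun φ => ∀ j ∈ D, Triv (γ j) (t φ)).card := by
              refine card_le_card fun φ hφ => ?_
              rw [mem_filter] at hφ ⊢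
              refine ⟨hφ.1, fun j hj => ?_⟩
              rw [← hφ.2] at hj
              exact (mem_filter.1 hj).2
            exact_mod_cast this
          calc _ ≤ ((Z.filter fun φ => ∀ j ∈ D, Triv (γ j) (t φ)).card : ℝ) *
                (W ^ k * √q ^ (k + D.card) * √q) := mul_le_mul_of_nonneg_right h4 (by positivity)
            _ = (((Z.filter fun φ => ∀ j ∈ D, Triv (γ j) (t φ)).card : ℝ) * √q ^ (D.card + 1)) *
                (W ^ k * √q ^ k) := by
                rw [pow_add, pow_succ √q D.card]
                ring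
            _ ≤ (C₂ * X) * (W ^ k * √q ^ k) := by
                refine mul_le_mul_of_nonneg_right ?_ (by positivity)
                rw [← hDc]
                exact hD D h3
            _ ≤ ((C₁ + C₂) * X) * (W ^ k * √q ^ k) := by
                refine mul_le_mul_of_nonneg_right ?_ (by positivity)
                exact mul_le_mul_of_nonneg_right (by linarith) hX
            _ = _ := by ring
    _ = _ := by
        rw [sum_const, card_univ, Fintype.card_finset, nsmul_eq_mul]
        push_cast
        ring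

end

end Pool.Agent.L0h11.CC
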