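import Mathlib
import Pool.Agent.L0h11.Hc
import Pool.Agent.L0h11.Ge

/-!
# Means of products of character sums over the points of an affine space over a scheme
-/

set_option autoImplicit false
set_option linter.all false

namespace Pool.Agent.L0h11.CC

open Finset
open Pool.Agent.L0h11
open Pool.Agent.L0h11.RG

instance ft_mv {R₀ : Type} [CommRing R₀] [hft : Algebra.FiniteType ℤ R₀] {I : Type} [Finite I] :
    @Algebra.FiniteType ℤ (MvPolynomial I R₀) _ _ (Ring.toIntAlgebra _) := by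
  have h1 : Algebra.FiniteType R₀ (MvPolynomial I R₀) := inferInstance
  have h2 : IsScalarTower ℤ R₀ (MvPolynomial I R₀) := inferInstance
  exact Algebra.FiniteType.trans hft h1

section

variable {R₀ : Type} [CommRing R₀] {I : Type}

/-- the points of an affine space over a scheme -/
noncomputable def homEquiv (F : Type) [Field F] :
    (MvPolynomial I R₀ →+* F) ≃ (R₀ →+* F) × (I → F) where
  toFun φ := (φ.comp MvPolynomial.C, fun i => φ (MvPolynomial.X i))
  invFun z := MvPolynomial.eval₂Hom z.1 z.2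
  left_inv φ := by
    refine MvPolynomial.ringHom_ext ?_ ?_
    · intro a
      simp
    · intro i
      simp
  right_inv z := by
    refine Prod.ext ?_ ?_
    · refine RingHom.ext fun a => ?_
      simp
    · funext i
      simp

end

section

variable {R₀ : Type} [CommRing R₀] [IsDomain R₀] [CharZero R₀] [hft : Algebra.FiniteType ℤ R₀]
  {I : Type} [Fintype I] [LinearOrder I]
  {F : Type} [Field F] [Fintype F]

lemma card_hom : (Nat.card (MvPolynomial I R₀ →+* F) : ℝ) =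
    Nat.card (R₀ →+* F) * (Fintype.card F : ℝ) ^ Fintype.card I := by
  classical
  rw [Nat.card_congr (homEquiv F), Nat.card_prod, Nat.card_eq_fintype_card (α := I → F),
    Fintype.card_fun]
  push_cast
  rfl

variable {d : ℕ} [NeZero d] {w : F} (hw : IsPrimitiveRoot w d)
  {e : AddChar (ZMod d) ℂ} (he : ∀ i, e i = 1 → i = 0)
  {J : Type} [Fintype J] [LinearOrder J] (γ : J → I → ZMod d)

/-- the constant -/
noncomputable def DC (d k N : ℕ) (C₁ C₂ : ℝ) : ℝ :=
  MC d k N * C₂ + 2 ^ k * (C₁ + KK N * C₂) * WW d N ^ k + k.factorial * C₁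

include he in
open Classical in
theorem fam_mean {κ : J → ZMod d} {c : J → R₀} {N₁ : MvPolynomial I R₀} {n : ℕ} {C₁ C₂ : ℝ}
    (hC₁ : 0 ≤ C₁) (hC₂ : 0 ≤ C₂)
    (hH : ∀ D : Finset J, D.Nonempty → D.card < Nat.card {i // ∃ j ∈ D, γ j i ≠ 0})
    (hZ : (Nat.card {φ : MvPolynomial I R₀ →+* F // φ N₁ = 0} : ℝ) * Nat.card F ≤
      C₁ * (Nat.card F : ℝ) ^ n)
    (hh : (Nat.card (MvPolynomial I R₀ →+* F) : ℝ) ≤ C₂ * (Nat.card F : ℝ) ^ n) :
    ‖PS N₁ (fun φ : MvPolynomial I R₀ →+* F =>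
        (∏ j, ch hw e (κ j) (φ (MvPolynomial.C (c j)))) *
          ∏ j, SS hw e (γ j) (fun i => φ (MvPolynomial.X i))) -
      ((((Mt γ).card : ℝ) * √(Fintype.card F : ℝ) ^ Fintype.card J : ℝ) : ℂ) *
        PS N₁ (fun φ : MvPolynomial I R₀ →+* F =>
          ∏ j, ch hw e (κ j) (φ (MvPolynomial.C (c j))))‖ * √(Fintype.card F : ℝ) ≤
      DC d (Fintype.card J) (Fintype.card I) C₁ C₂ *
        ((Fintype.card F : ℝ) ^ n * √(Fintype.card F : ℝ) ^ Fintype.card J) := by
  let _ : Fintype (R₀ →+* F) := Fintype.ofFinite _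
  let _ : Fintype (MvPolynomial I R₀ →+* F) := Fintype.ofFinite _
  rw [Nat.card_eq_fintype_card (α := F)] at hZ hh
  set k := Fintype.card J with hk
  set N := Fintype.card I with hN
  set q : ℝ := (Fintype.card F : ℝ) with hq
  have hq1 : (1 : ℝ) ≤ q := Nat.one_le_cast.2 (Fintype.card_pos (α := F))
  have hs1 : 1 ≤ √q := Real.one_le_sqrt.2 hq1
  have hs0 : 0 ≤ √q := by linarith
  have hsq : √q ≤ q := Real.sqrt_le_iff.2 ⟨by linarith, by nlinarith⟩
  set Φ := (univ : Finset (MvPolynomial I R₀ →+* F)) with hΦ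
  set Z := Φ.filter fun φ => φ N₁ = 0 with hZd
  have hZc : (Nat.card {φ : MvPolynomial I R₀ →+* F // φ N₁ = 0} : ℝ) = Z.card := by
    rw [Nat.card_eq_fintype_card, Fintype.card_subtype]
  rw [hZc] at hZ
  let TT : (MvPolynomial I R₀ →+* F) → ℂ := fun φ => ∏ j, ch hw e (κ j) (φ (MvPolynomial.C (c j)))
  let UU : (MvPolynomial I R₀ →+* F) → ℂ := fun φ => ∏ j, SS hw e (γ j) (fun i => φ (MvPolynomial.X i))
  let T₀ : (R₀ →+* F) → ℂ := fun φ => ∏ j, ch hw e (κ j) (φ (c j))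
  have hTT : ∀ φ, ‖TT φ‖ ≤ 1 := by
    intro φ
    show ‖∏ j, ch hw e (κ j) (φ (MvPolynomial.C (c j)))‖ ≤ 1
    rw [_root_.norm_prod]
    exact prod_le_one (fun i _ => norm_nonneg _) fun i _ => norm_chi_le _ _
  have hT₀ : ∀ φ, ‖T₀ φ‖ ≤ 1 := by
    intro φ
    show ‖∏ j, ch hw e (κ j) (φ (c j))‖ ≤ 1
    rw [_root_.norm_prod]
    exact prod_le_one (fun i _ => norm_nonneg _) fun i _ => norm_chi_le _ _
  have hPS : ∀ g : (MvPolynomial I R₀ →+* F) → ℂ, PS N₁ g = ∑ φ, g φ - ∑ φ ∈ Z, g φ := by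
    intro g
    rw [PS_eq, ← sum_filter_add_sum_filter_not univ (fun φ : MvPolynomial I R₀ →+* F => φ N₁ = 0)]
    ring
  -- the sums over all points
  have hsplit : ∀ (g : (R₀ →+* F) → ℂ) (h : (I → F) → ℂ),
      ∑ φ : MvPolynomial I R₀ →+* F, g (homEquiv F φ).1 * h (homEquiv F φ).2 =
        (∑ φ, g φ) * ∑ t, h t := by
    intro g h
    rw [(homEquiv F).sum_comp (fun z : (R₀ →+* F) × (I → F) => g z.1 * h z.2),
      Fintype.sum_prod_type, sum_mul_sum]
  have hall1 : ∑ φ, TT φ * UU φ = (∑ φ, T₀ φ) * ∑ t : I → F, ∏ j, SS hw e (γ j) t :=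
    hsplit T₀ (fun t => ∏ j, SS hw e (γ j) t)
  have hall2 : ∑ φ, TT φ = (∑ φ, T₀ φ) * ((q ^ N : ℝ) : ℂ) := by
    have h1 := hsplit T₀ (fun t => 1)
    simp only [mul_one] at h1
    refine h1.trans ?_
    rw [sum_const, card_univ, Fintype.card_fun, nsmul_eq_mul, mul_one, hq]
    push_cast
    rfl
  set m : ℝ := ((Mt γ).card : ℝ) with hm
  have hmom : ‖∑ t : I → F, ∏ j, SS hw e (γ j) t - ((q ^ N * (m * √q ^ k) : ℝ) : ℂ)‖ * √q ≤
      MC d k N * (q ^ N * √q ^ k) := moment hw γ he hH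
  have hmk : m ≤ k.factorial := by
    have h1 : (Mt γ).card ≤ Fintype.card (Equiv.Perm J) := by
      rw [← card_univ]
      exact card_le_card (subset_univ _)
    rw [Fintype.card_perm] at h1
    rw [hm, hk]
    exact_mod_cast h1
  have hm0 : 0 ≤ m := Nat.cast_nonneg _
  have hMC : 0 ≤ MC d k N := by
    unfold MC
    positivity
  have hmain : PS N₁ (fun φ => TT φ * UU φ) - ((m * √q ^ k : ℝ) : ℂ) * PS N₁ TT =
      (∑ φ, T₀ φ) * (∑ t : I → F, ∏ j, SS hw e (γ j) t - ((q ^ N * (m * √q ^ k) : ℝ) : ℂ)) -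
        ∑ φ ∈ Z, TT φ * UU φ + ((m * √q ^ k : ℝ) : ℂ) * ∑ φ ∈ Z, TT φ := by
    rw [hPS, hPS, hall1, hall2]
    push_cast
    ring
  have hcard := card_hom (R₀ := R₀) (I := I) (F := F)
  rw [← hN, ← hq] at hcard
  -- the first term
  have e1 : ‖(∑ φ, T₀ φ) * (∑ t : I → F, ∏ j, SS hw e (γ j) t - ((q ^ N * (m * √q ^ k) : ℝ) : ℂ))‖ *
      √q ≤ MC d k N * C₂ * (q ^ n * √q ^ k) := by
    have h1 : ‖∑ φ, T₀ φ‖ ≤ Nat.card (R₀ →+* F) := by
      refine (norm_sum_le _ _).trans ((sum_le_card_nsmul _ _ 1 fun φ _ => hT₀ φ).trans ?_)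
      rw [nsmul_eq_mul, mul_one, card_univ, Nat.card_eq_fintype_card]
    rw [norm_mul, mul_assoc]
    calc _ ≤ (Nat.card (R₀ →+* F) : ℝ) * (MC d k N * (q ^ N * √q ^ k)) :=
          mul_le_mul h1 hmom (by positivity) (Nat.cast_nonneg _)
      _ = MC d k N * ((Nat.card (R₀ →+* F) * q ^ N) * √q ^ k) := by ring
      _ ≤ MC d k N * ((C₂ * q ^ n) * √q ^ k) := by
          rw [← hcard]
          exact mul_le_mul_of_nonneg_left (mul_le_mul_of_nonneg_right hh (by positivity)) hMC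
      _ = _ := by ring
  -- the second term
  have e2 : ‖∑ φ ∈ Z, TT φ * UU φ‖ * √q ≤
      (2 ^ k * (C₁ + KK N * C₂) * WW d N ^ k) * (q ^ n * √q ^ k) := by
    have h1 : ‖∑ φ ∈ Z, TT φ * UU φ‖ ≤ ∑ φ ∈ Z, ‖UU φ‖ := by
      refine (norm_sum_le _ _).trans (sum_le_sum fun φ _ => ?_)
      rw [norm_mul]
      exact mul_le_of_le_one_left (norm_nonneg _) (hTT φ)
    refine (mul_le_mul_of_nonneg_right h1 hs0).trans ?_
    refine bad_sum hw he γ Z (fun φ i => φ (MvPolynomial.X i)) hC₁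
      (mul_nonneg (KK_nonneg N) hC₂) (by positivity) hZ ?_
    intro D hD
    -- the vectors
    let δ : I → ({j // j ∈ D} → ZMod d) := fun i j => γ j.1 i
    set s := Nat.card {i // δ i ≠ 0} with hs
    have h2 : ((univ.filter fun x : I → F => Triv δ x).card : ℝ) * √q ^ s ≤ KK N * q ^ N :=
      card_triv_le (F := F) δ hs
    have hsD : D.card + 1 ≤ s := by
      have h3 := hH D hD
      refine Nat.succ_le_of_lt (h3.trans_le ?_)
      refine Nat.card_le_card_of_injective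
        (fun i : {i // ∃ j ∈ D, γ j i ≠ 0} => (⟨i.1, ?_⟩ : {i // δ i ≠ 0})) ?_
      · obtain ⟨j, hj, hi⟩ := i.2
        exact fun h0 => hi (congrFun h0 ⟨j, hj⟩)
      · intro i i' h
        have h4 := congrArg (fun z : {i // δ i ≠ 0} => z.1) h
        exact Subtype.ext h4
    have h3 : (Nat.card {φ // φ ∈ Z ∧ ∀ j ∈ D, Triv (γ j) (fun i => φ (MvPolynomial.X i))} : ℝ) ≤
        Nat.card (R₀ →+* F) * (univ.filter fun x : I → F => Triv δ x).card := by
      have h4 : Nat.card {φ // φ ∈ Z ∧ ∀ j ∈ D, Triv (γ j) (fun i => φ (MvPolynomial.X i))} ≤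
          Nat.card ((R₀ →+* F) × {x : I → F // Triv δ x}) := by
        refine Nat.card_le_card_of_injective
          (fun φ => ((homEquiv F φ.1).1, (⟨(homEquiv F φ.1).2, ?_⟩ : {x : I → F // Triv δ x}))) ?_
        · intro v
          funext j
          rw [Finset.sum_apply, Pi.zero_apply]
          exact φ.2.2 j.1 j.2 v
        · intro φ φ' h
          apply Subtype.ext
          apply (homEquiv F).injective
          have h5 := congrArg Prod.fst h
          have h6 := congrArg (fun z => z.2.1) h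
          exact Prod.ext h5 h6
      rw [Nat.card_prod, Nat.card_eq_fintype_card (α := {x : I → F // Triv δ x}),
        Fintype.card_subtype] at h4
      exact_mod_cast h4
    calc _ ≤ (Nat.card (R₀ →+* F) * (univ.filter fun x : I → F => Triv δ x).card : ℝ) * √q ^ s :=
          mul_le_mul h3 (pow_le_pow_right₀ hs1 hsD) (by positivity) (by positivity)
      _ = Nat.card (R₀ →+* F) * ((univ.filter fun x : I → F => Triv δ x).card * √q ^ s) := by ring
      _ ≤ Nat.card (R₀ →+* F) * (KK N * q ^ N) := mul_le_mul_of_nonneg_left h2 (Nat.cast_nonneg _)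
      _ = KK N * (Nat.card (R₀ →+* F) * q ^ N) := by ring
      _ ≤ KK N * (C₂ * q ^ n) := by
          rw [← hcard]
          exact mul_le_mul_of_nonneg_left hh (KK_nonneg N)
      _ = _ := by ring
  -- the third term
  have e3 : ‖((m * √q ^ k : ℝ) : ℂ) * ∑ φ ∈ Z, TT φ‖ * √q ≤ k.factorial * C₁ * (q ^ n * √q ^ k) := by
    have h1 : ‖∑ φ ∈ Z, TT φ‖ ≤ Z.card := by
      refine (norm_sum_le _ _).trans ((sum_le_card_nsmul _ _ 1 fun φ _ => hTT φ).trans ?_)
      rw [nsmul_eq_mul, mul_one]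
    have h2 : ‖∑ φ ∈ Z, TT φ‖ * √q ≤ C₁ * q ^ n :=
      (mul_le_mul h1 hsq hs0 (Nat.cast_nonneg _)).trans hZ
    rw [norm_mul, Complex.norm_real, Real.norm_eq_abs, abs_of_nonneg (by positivity), mul_assoc]
    calc _ ≤ (m * √q ^ k) * (C₁ * q ^ n) := mul_le_mul_of_nonneg_left h2 (by positivity)
      _ ≤ (k.factorial * √q ^ k) * (C₁ * q ^ n) := by
          refine mul_le_mul_of_nonneg_right ?_ (by positivity)
          exact mul_le_mul_of_nonneg_right hmk (by positivity)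
      _ = _ := by ring
  have hgoal : ‖PS N₁ (fun φ => TT φ * UU φ) - ((m * √q ^ k : ℝ) : ℂ) * PS N₁ TT‖ * √q ≤
      DC d k N C₁ C₂ * (q ^ n * √q ^ k) := by
    rw [hmain]
    set A := (∑ φ, T₀ φ) * (∑ t : I → F, ∏ j, SS hw e (γ j) t - ((q ^ N * (m * √q ^ k) : ℝ) : ℂ))
    set B := ∑ φ ∈ Z, TT φ * UU φ
    set D := ((m * √q ^ k : ℝ) : ℂ) * ∑ φ ∈ Z, TT φ
    calc _ ≤ (‖A‖ + ‖B‖ + ‖D‖) * √q := by
          refine mul_le_mul_of_nonneg_right ?_ hs0
          exact (norm_add_le _ _).trans (add_le_add_left (norm_sub_le _ _) _)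
      _ ≤ MC d k N * C₂ * (q ^ n * √q ^ k) +
          (2 ^ k * (C₁ + KK N * C₂) * WW d N ^ k) * (q ^ n * √q ^ k) +
          k.factorial * C₁ * (q ^ n * √q ^ k) := by
          rw [add_mul, add_mul]
          exact add_le_add (add_le_add e1 e2) e3
      _ = _ := by
          unfold DC
          ring
  exact hgoal

end

end Pool.Agent.L0h11.CC
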