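import Mathlib
import Pool.Agent.L0h11.Hc
import Pool.Agent.L0h11.Prd

/-!
# The number of the points of a cyclic cover of the line
-/

set_option autoImplicit false
set_option linter.all false

namespace Pool.Agent.L0h11.CC

open Finset
open Pool.Agent.L0h11

section

variable {F : Type} [Field F] [Fintype F]

open Classical in
/-- the number of the `m`-th roots -/
lemma roots_eq {m L d : ℕ} [NeZero d] (hm : 0 < m) (hmL : m ∣ L)
    (hd : d = Nat.gcd L (Fintype.card F - 1)) {w : F} (hw : IsPrimitiveRoot w d)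
    {e : AddChar (ZMod d) ℂ} (he : ∀ i, e i = 1 → i = 0) {u : F} (hu : u ≠ 0) :
    (((univ : Finset F).filter fun y => y ^ m = u).card : ℂ) =
      ∑ κ : ZMod d with (m : ZMod d) * κ = 0, ch hw e κ u := by
  set d' := Nat.gcd m (Fintype.card F - 1) with hd'
  have hd'd : d' ∣ d := by
    rw [hd]
    exact Nat.dvd_gcd ((Nat.gcd_dvd_left _ _).trans hmL) (Nat.gcd_dvd_right _ _)
  have : NeZero d' := ⟨(Nat.gcd_pos_of_pos_left _ hm).ne'⟩
  rw [card_roots hm hd' (prim_div hd'd hw) (eup_inj hd'd he) hu]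
  refine Finset.sum_nbij (fun a => up hd'd a) ?_ ?_ ?_ ?_
  · intro a _
    rw [mem_filter]
    refine ⟨mem_univ _, ?_⟩
    rw [← nsmul_eq_mul, ← map_nsmul, up_eq_zero, nsmul_eq_mul,
      (ZMod.natCast_eq_zero_iff _ _).2 (Nat.gcd_dvd_left _ _), zero_mul]
  · intro a _ a' _ h
    exact up_inj hd'd h
  · intro κ hκ
    rw [mem_coe, mem_filter] at hκ
    have h3 : Nat.gcd m d = d' := by
      rw [hd, hd', ← Nat.gcd_assoc, Nat.gcd_eq_left hmL]
    have h4 : ((d' : ℕ) : ZMod d) * κ = 0 := by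
      have h5 := Nat.gcd_eq_gcd_ab m d
      have h6 := congrArg (fun x : ℤ => (x : ZMod d)) h5
      push_cast at h6
      rw [ZMod.natCast_self, zero_mul, add_zero, h3] at h6
      rw [h6, mul_right_comm, hκ.2, zero_mul]
    obtain ⟨a, ha⟩ := up_range hd'd h4
    exact ⟨a, mem_coe.2 (mem_univ _), ha⟩
  · intro a _
    rw [ch_up]

open Classical in
/-- the number of the points over `F` -/
noncomputable def cnt (m : ℕ) {N : ℕ} (b : Fin N → ℕ) (c : F) (t : Fin N → F) : ℕ :=
  Nat.card {P : F × F // P.2 ^ Nat.gcd m (∑ i with t i = P.1, b i) =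
    c * ∏ i with t i ≠ P.1, (P.1 - t i) ^ b i} + Nat.card {z : F // z ^ Nat.gcd m (∑ i, b i) = c}

open Classical in
lemma card_pow_le {g : ℕ} (hg : 0 < g) (u : F) : (univ.filter fun z : F => z ^ g = u).card ≤ g := by
  have h1 : (univ.filter fun z : F => z ^ g = u) ⊆ (Polynomial.nthRoots g u).toFinset := by
    intro z hz
    rw [Multiset.mem_toFinset, Polynomial.mem_nthRoots hg]
    exact (mem_filter.1 hz).2
  exact (card_le_card h1).trans ((Multiset.toFinset_card_le _).trans (Polynomial.card_nthRoots g u))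

/-- the constant -/
noncomputable def LC (N L : ℕ) : ℝ := (N : ℝ) * (2 * L + 1) + L + 1

lemma one_le_LC (N L : ℕ) : 1 ≤ LC N L := by
  unfold LC
  have h1 : (0 : ℝ) ≤ (N : ℝ) * (2 * L + 1) := by positivity
  have h2 : (0 : ℝ) ≤ L := Nat.cast_nonneg _
  linarith

open Classical in
/-- the characters -/
noncomputable def KS (m d : ℕ) [NeZero d] : Finset (ZMod d) :=
  univ.filter fun κ => κ ≠ 0 ∧ (m : ZMod d) * κ = 0

lemma mem_KS {m d : ℕ} [NeZero d] (κ : ZMod d) : κ ∈ KS m d ↔ κ ≠ 0 ∧ (m : ZMod d) * κ = 0 := by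
  classical
  unfold KS
  rw [mem_filter]
  simp

lemma card_KS {m d : ℕ} [NeZero d] : (KS m d).card ≤ d := by
  refine (card_le_univ _).trans ?_
  rw [ZMod.card]

lemma ch_pow_mul {d : ℕ} [NeZero d] {w : F} (hw : IsPrimitiveRoot w d) (e : AddChar (ZMod d) ℂ)
    (κ : ZMod d) (n : ℕ) {x : F} (hx : x ≠ 0) : ch hw e κ (x ^ n) = ch hw e (κ * n) x := by
  rw [map_pow, mul_comm, ch_nsmul]
  rcases Nat.eq_zero_or_pos n with rfl | hn
  · rw [pow_zero, pow_zero, MulChar.one_apply (isUnit_iff_ne_zero.2 hx)]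
  · rw [MulChar.pow_apply' _ hn.ne']

open Classical in
/-- **The number of the points and the character sums.** -/
theorem local_bound {m L d N : ℕ} [NeZero d] (hm : 0 < m) (hL : 0 < L) (hmL : m ∣ L)
    (hd : d = Nat.gcd L (Fintype.card F - 1)) {w : F} (hw : IsPrimitiveRoot w d)
    {e : AddChar (ZMod d) ℂ} (he : ∀ i, e i = 1 → i = 0) (b : Fin N → ℕ) {c : F} (hc : c ≠ 0)
    (t : Fin N → F) :
    ‖((Fintype.card F : ℂ) + 1 - (cnt m b c t : ℂ)) +
      ∑ κ ∈ KS m d, ch hw e κ c * SS hw e (fun i => κ * (b i : ZMod d)) t‖ ≤ LC N L := by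
  have hdL : d ≤ L := by
    rw [hd]
    exact Nat.le_of_dvd hL (Nat.gcd_dvd_left _ _)
  have hmL' : m ≤ L := Nat.le_of_dvd hL hmL
  let g : F → ℕ := fun x => Nat.gcd m (∑ i with t i = x, b i)
  let u : F → F := fun x => c * ∏ i with t i ≠ x, (x - t i) ^ b i
  let S : F → ℕ := fun x => (univ.filter fun z : F => z ^ g x = u x).card
  let S' : ℕ := (univ.filter fun z : F => z ^ Nat.gcd m (∑ i, b i) = c).card
  have hg : ∀ x, 0 < g x := fun x => Nat.gcd_pos_of_pos_left _ hm
  have hgm : ∀ x, g x ≤ m := fun x => Nat.le_of_dvd hm (Nat.gcd_dvd_left _ _)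
  have hcnt : cnt m b c t = ∑ x, S x + S' := by
    unfold cnt
    congr 1
    · rw [Nat.card_congr (Equiv.subtypeProdEquivSigmaSubtype (fun x z : F => z ^ g x = u x)),
        Nat.card_eq_fintype_card, Fintype.card_sigma]
      exact sum_congr rfl fun x _ => Fintype.card_subtype _
    · rw [Nat.card_eq_fintype_card, Fintype.card_subtype]
  let D : F → ℂ := fun x => (S x : ℂ) - 1 - ∑ κ ∈ KS m d, ch hw e κ c *
    ∏ i, ch hw e (κ * (b i : ZMod d)) (x - t i)
  -- outside of the branch points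
  have hD0 : ∀ x, x ∉ univ.image t → D x = 0 := by
    intro x hx
    have hx' : ∀ i, t i ≠ x := fun i hi => hx (hi ▸ mem_image_of_mem t (mem_univ i))
    have h1 : (univ.filter fun i => t i = x) = ∅ := filter_eq_empty_iff.2 fun i _ => hx' i
    have h2 : (univ.filter fun i => t i ≠ x) = univ := filter_true_of_mem fun i _ => hx' i
    have hgx : g x = m := by
      show Nat.gcd m (∑ i with t i = x, b i) = m
      rw [h1, sum_empty, Nat.gcd_zero_right]
    have hux : u x = c * ∏ i, (x - t i) ^ b i := by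
      show c * ∏ i with t i ≠ x, (x - t i) ^ b i = _
      rw [h2]
    have hne : ∀ i, x - t i ≠ 0 := fun i => sub_ne_zero.2 (Ne.symm (hx' i))
    have hu0 : u x ≠ 0 := by
      rw [hux]
      exact mul_ne_zero hc (prod_ne_zero_iff.2 fun i _ => pow_ne_zero _ (hne i))
    have h3 : (S x : ℂ) = ∑ κ : ZMod d with (m : ZMod d) * κ = 0, ch hw e κ (u x) := by
      show (((univ.filter fun z : F => z ^ g x = u x).card : ℕ) : ℂ) = _
      rw [hgx]
      exact roots_eq hm hmL hd hw he hu0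
    have h4 : (univ.filter fun κ : ZMod d => (m : ZMod d) * κ = 0) = insert 0 (KS m d) := by
      ext κ
      rw [mem_insert, mem_filter, mem_KS]
      constructor
      · rintro ⟨-, h⟩
        by_cases h0 : κ = 0
        · exact Or.inl h0
        · exact Or.inr ⟨h0, h⟩
      · rintro (h | h)
        · rw [h, mul_zero]
          exact ⟨mem_univ _, rfl⟩
        · exact ⟨mem_univ _, h.2⟩
    have h5 : (0 : ZMod d) ∉ KS m d := fun h => ((mem_KS _).1 h).1 rfl
    show (S x : ℂ) - 1 - _ = 0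
    rw [h3, h4, sum_insert h5, ch_zero, MulChar.one_apply (isUnit_iff_ne_zero.2 hu0)]
    have h6 : ∀ κ ∈ KS m d, ch hw e κ (u x) =
        ch hw e κ c * ∏ i, ch hw e (κ * (b i : ZMod d)) (x - t i) := by
      intro κ _
      rw [hux, map_mul, map_prod]
      congr 1
      exact prod_congr rfl fun i _ => ch_pow_mul hw e κ (b i) (hne i)
    rw [sum_congr rfl h6]
    ring
  have hD1 : ∀ x, ‖D x‖ ≤ 2 * (L : ℝ) + 1 := by
    intro x
    have h1 : (S x : ℝ) ≤ L := by
      have : S x ≤ L := (card_pow_le (hg x) (u x)).trans ((hgm x).trans hmL')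
      exact_mod_cast this
    have h2 : ‖∑ κ ∈ KS m d, ch hw e κ c * ∏ i, ch hw e (κ * (b i : ZMod d)) (x - t i)‖ ≤ L := by
      refine (norm_sum_le _ _).trans ((sum_le_card_nsmul _ _ 1 fun κ _ => ?_).trans ?_)
      · rw [norm_mul, _root_.norm_prod]
        exact mul_le_one₀ (norm_chi_le _ _) (prod_nonneg fun i _ => norm_nonneg _)
          (prod_le_one (fun i _ => norm_nonneg _) fun i _ => norm_chi_le _ _)
      · rw [nsmul_eq_mul, mul_one]
        exact_mod_cast card_KS.trans hdL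
    calc ‖D x‖ ≤ ‖(S x : ℂ)‖ + ‖(1 : ℂ)‖ +
          ‖∑ κ ∈ KS m d, ch hw e κ c * ∏ i, ch hw e (κ * (b i : ZMod d)) (x - t i)‖ :=
          (norm_sub_le _ _).trans (add_le_add_left (norm_sub_le _ _) _)
      _ ≤ L + 1 + L := by
          rw [Complex.norm_natCast, norm_one]
          exact add_le_add (add_le_add_left h1 _) h2
      _ = _ := by ring
  have hsum : ∑ x, D x = (∑ x, (S x : ℂ)) - Fintype.card F -
      ∑ κ ∈ KS m d, ch hw e κ c * SS hw e (fun i => κ * (b i : ZMod d)) t := by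
    show ∑ x, ((S x : ℂ) - 1 - _) = _
    rw [sum_sub_distrib, sum_sub_distrib, sum_const, card_univ, nsmul_eq_mul, mul_one]
    congr 1
    rw [sum_comm]
    refine sum_congr rfl fun κ _ => ?_
    rw [← mul_sum]
    rfl
  have hDs : ‖∑ x, D x‖ ≤ (N : ℝ) * (2 * L + 1) := by
    have h1 : ∑ x, D x = ∑ x ∈ univ.image t, D x := by
      symm
      exact sum_subset (subset_univ _) fun x _ hx => hD0 x hx
    rw [h1]
    refine (norm_sum_le _ _).trans ((sum_le_card_nsmul _ _ _ fun x _ => hD1 x).trans ?_)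
    rw [nsmul_eq_mul]
    refine mul_le_mul_of_nonneg_right ?_ (by positivity)
    have h2 : (univ.image t).card ≤ N := by
      refine card_image_le.trans ?_
      rw [card_univ, Fintype.card_fin]
    exact_mod_cast h2
  have hS' : (S' : ℝ) ≤ L := by
    have : S' ≤ L := (card_pow_le (Nat.gcd_pos_of_pos_left _ hm) c).trans
      ((Nat.le_of_dvd hm (Nat.gcd_dvd_left _ _)).trans hmL')
    exact_mod_cast this
  have hfin : ((Fintype.card F : ℂ) + 1 - (cnt m b c t : ℂ)) +
      ∑ κ ∈ KS m d, ch hw e κ c * SS hw e (fun i => κ * (b i : ZMod d)) t =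
      -(∑ x, D x) + (1 - (S' : ℂ)) := by
    rw [hsum, hcnt]
    push_cast
    ring
  rw [hfin]
  calc _ ≤ ‖∑ x, D x‖ + (‖(1 : ℂ)‖ + ‖(S' : ℂ)‖) := by
        refine (norm_add_le _ _).trans ?_
        rw [norm_neg]
        exact add_le_add_right (norm_sub_le _ _) _
    _ ≤ (N : ℝ) * (2 * L + 1) + (1 + L) := by
        rw [norm_one, Complex.norm_natCast]
        exact add_le_add hDs (add_le_add_right hS' _)
    _ = _ := by
        unfold LC
        ring

/-- the order of a character -/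
lemma exists_prime {m d : ℕ} [NeZero d] {κ : ZMod d} (h : κ ∈ KS m d) :
    ∃ p : ℕ, p.Prime ∧ p ∣ m ∧ ∀ n : ℕ, ¬ p ∣ n → κ * (n : ZMod d) ≠ 0 := by
  rw [mem_KS] at h
  obtain ⟨h0, h1⟩ := h
  have h2 : addOrderOf κ ≠ 1 := fun h3 => h0 (AddMonoid.addOrderOf_eq_one_iff.1 h3)
  refine ⟨(addOrderOf κ).minFac, Nat.minFac_prime h2, ?_, ?_⟩
  · refine (Nat.minFac_dvd _).trans (addOrderOf_dvd_of_nsmul_eq_zero ?_)
    rw [nsmul_eq_mul]
    exact h1
  · intro n hn h3
    apply hn
    refine (Nat.minFac_dvd _).trans (addOrderOf_dvd_of_nsmul_eq_zero ?_)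
    rw [nsmul_eq_mul, mul_comm]
    exact h3

end

end Pool.Agent.L0h11.CC
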