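import Mathlib
import Pool.Agent.L0h11.Gi

/-!
# Products of cyclic covers of the projective line with generic branch points: definitions

`R₀` is a finitely generated domain of characteristic zero, `R = R₀[t_1, ..., t_N]` the ring of
polynomials in `N` variables and `K` the field of fractions of `R`.
-/

set_option autoImplicit false

namespace Pool.Agent.L0h11

open Polynomial

/-- The product `X` of the smooth projective curves `C_j`, `j < r`, over the field of fractions `K` of
`R = R₀[t_1, ..., t_N]`, where `C_j` is the smooth projective model of the affine curve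
`y ^ (m_j) = c_j * (x - t_1) ^ (b_(j,1)) * ... * (x - t_N) ^ (b_(j,N))`; the `c_j` are nonzero elements of
`R₀`. The exponents may be zero, so different factors may have different branch points.

The condition `wide`: for every nonempty set `D` of factors and all prime divisors `p_j` of `m_j`,
`j ∈ D`, there are more than `|D|` indices `i` such that `b_(j,i)` is prime to `p_j` for some `j ∈ D`.
(It holds for instance if for all `j` and all prime divisors `p` of `m_j` more than `r` of the
exponents `b_(j,i)` are prime to `p`.) -/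
structure CyclicProduct (R₀ : Type) [CommRing R₀] (N : ℕ) where
  r : ℕ
  m : Fin r → ℕ
  b : Fin r → Fin N → ℕ
  c : Fin r → R₀
  m_pos : ∀ j, 0 < m j
  c_ne : ∀ j, c j ≠ 0
  wide : ∀ (D : Finset (Fin r)) (p : Fin r → ℕ), D.Nonempty →
    (∀ j ∈ D, (p j).Prime ∧ p j ∣ m j) → D.card < Nat.card {i : Fin N // ∃ j ∈ D, ¬ p j ∣ b j i}

open Classical in
/-- The number of the points, with coordinates in the field with `q` elements, of the smooth
projective model of the curve `y ^ m = c * ∏ (x - t_i) ^ b_i` over the field `L`, with `c ≠ 0`.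
Above the point `x` of the affine line the points are given by the roots `v` of
`v ^ g = c * ∏ (x - t_i) ^ b_i`, the product being over the `i` with `t_i ≠ x`, where `g` is the greatest
common divisor of `m` and of the sum `B` of the `b_i` with `t_i = x`: here `v` is the value of the
function `y ^ (m / g) / (x - t) ^ (B / g)`, `t` being the point in question. Above the point at infinity
the points are given by the roots of `v ^ g = c`, where `g` is the greatest common divisor of `m` and of
the sum `B` of all `b_i`: here `v` is the value of `y ^ (m / g) / x ^ (B / g)`. -/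
noncomputable def cyclicPoints {L : Type} [Field L] (m : ℕ) {N : ℕ} (b : Fin N → ℕ) (c : L)
    (t : Fin N → L) (q : ℕ) : ℕ :=
  Nat.card {P : L × L // (P.1 ^ q = P.1 ∧ P.2 ^ q = P.2) ∧
    P.2 ^ Nat.gcd m (∑ i with t i = P.1, b i) = c * ∏ i with t i ≠ P.1, (P.1 - t i) ^ b i} +
  Nat.card {v : L // v ^ q = v ∧ v ^ Nat.gcd m (∑ i, b i) = c}

namespace CyclicProduct

variable {R₀ : Type} [CommRing R₀] {N : ℕ} (X : CyclicProduct R₀ N)

/-- the least common multiple of the degrees of the covers -/
def lcm : ℕ := Finset.univ.lcm X.m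

/-- The open subscheme `N₁ ≠ 0` of `Spec R` is nonempty, and at its closed points the degrees `m_j` and the
constants `c_j` are invertible and the branch points `t_i` are distinct. Then the fibres of the `C_j`
are smooth. -/
def IsModel (N₁ : MvPolynomial (Fin N) R₀) : Prop :=
  N₁ ≠ 0 ∧ ∀ y : MaximalSpectrum (MvPolynomial (Fin N) R₀), N₁ ∉ y.asIdeal →
    (∀ j, ((X.m j : ℕ) : MvPolynomial (Fin N) R₀) ∉ y.asIdeal ∧
      MvPolynomial.C (X.c j) ∉ y.asIdeal) ∧
    ∀ i i' : Fin N, i ≠ i' → MvPolynomial.X i - MvPolynomial.X i' ∉ y.asIdeal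

/-- The number of the points, with coordinates in the field with `q` elements, of the fibre of `C_j` at
`y`, where `q` is a power of the norm of `y`. -/
noncomputable def points (j : Fin X.r) (y : MaximalSpectrum (MvPolynomial (Fin N) R₀)) (q : ℕ) : ℕ :=
  haveI : y.asIdeal.IsMaximal := y.isMaximal
  letI : Field (MvPolynomial (Fin N) R₀ ⧸ y.asIdeal) := Ideal.Quotient.field y.asIdeal
  cyclicPoints (L := AlgebraicClosure (MvPolynomial (Fin N) R₀ ⧸ y.asIdeal)) (X.m j) (X.b j)
    (algebraMap _ _ (Ideal.Quotient.mk y.asIdeal (MvPolynomial.C (X.c j))))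
    (fun i => algebraMap _ _ (Ideal.Quotient.mk y.asIdeal (MvPolynomial.X i))) q

/-- The trace on `H ^ 1` of the fibre of `C_j` at `y` of the power of the Frobenius element with the field
of definition with `q` elements. -/
noncomputable def curveTrace (j : Fin X.r) (y : MaximalSpectrum (MvPolynomial (Fin N) R₀)) (q : ℕ) :
    ℝ :=
  (q : ℝ) + 1 - X.points j y q

/-- The trace on `H ^ (2 * k)` of the fibre of `X` at `y`, by the formula of Künneth: for
`q = N(y) ^ l` the trace of the `l`-th power of the Frobenius element. -/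
noncomputable def trace (k : ℕ) (y : MaximalSpectrum (MvPolynomial (Fin N) R₀)) (q : ℕ) : ℝ :=
  (∏ j, (1 + C (X.curveTrace j y q) * Polynomial.X + C (q : ℝ) * Polynomial.X ^ 2)).coeff (2 * k)

/-- The Euler factor `det (1 - Frob_y * N(y) ^ (-s) | H ^ (2 * k) (X)) ^ (-1)`, as the exponential of
the sum over `l ≥ 1` (here `l + 1`) of the traces of the `l`-th powers. -/
noncomputable def localFactor (k : ℕ) (y : MaximalSpectrum (MvPolynomial (Fin N) R₀)) (s : ℂ) : ℂ :=
  Complex.exp (∑' l : ℕ, (X.trace k y (RG.pointNorm y ^ (l + 1)) : ℂ) *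
    (RG.pointNorm y : ℂ) ^ (-(((l + 1 : ℕ) : ℂ) * s)) / ((l + 1 : ℕ) : ℂ))

/-- The L-function of `H ^ (2 * k) (X)`, the Euler product over the closed points of the open subscheme
`N₁ ≠ 0` of `Spec R`. -/
noncomputable def LFunction (k : ℕ) (N₁ : MvPolynomial (Fin N) R₀) (s : ℂ) : ℂ :=
  ∏' y : {y : MaximalSpectrum (MvPolynomial (Fin N) R₀) // N₁ ∉ y.asIdeal}, X.localFactor k y.1 s

/-- For a permutation `π` of the set `J` of factors and a family `κ` of residues modulo `M`: `π` is a
perfect matching of `J` (an involution without fixed points), and `κ` is a family of characters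
`κ_j ≠ 0` of the Galois groups `μ_(m_j)` of the covers `C_j → ℙ¹`, `j ∈ J` (i.e. `m_j * κ_j = 0`),
of exact level `M`, such that for all `j` the vectors `κ_j * b_j` and `κ_(π j) * b_(π j)` are opposite
modulo `M`. -/
def IsLine (J : Finset (Fin X.r)) (π : Equiv.Perm {j // j ∈ J}) (M : ℕ)
    (κ : {j // j ∈ J} → ZMod M) : Prop :=
  (∀ j, π j ≠ j ∧ π (π j) = j) ∧
  (∀ j, κ j ≠ 0 ∧ (X.m j.1 : ZMod M) * κ j = 0 ∧
    ∀ i, κ j * (X.b j.1 i : ZMod M) + κ (π j) * (X.b (π j).1 i : ZMod M) = 0) ∧
  ∀ k : ℕ, (∀ j, (k : ZMod M) * κ j = 0) → M ∣ k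

/-- The Galois group of `K(ζ_M)` acts trivially on the `M`-th roots of the product of the `c_j ^ κ_j`,
`j ∈ J`: outside of a proper closed subset `H = 0` of `Spec R`, the Frobenius elements of the points
with values in the residue fields `F` of the primes of `ℚ(ζ_M)` act trivially. The fields `F` are those
with `ℓ ^ f` elements, where `f` is the order of the prime `ℓ` modulo `M`, a point is a homomorphism
`φ` from `R` to `F`, and its Frobenius element acts as the product of the `χ ^ κ_j (φ c_j)`, where `χ` is a
character of order `M` of `F`. -/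
def KummerTrivial (J : Finset (Fin X.r)) (M : ℕ) (κ : {j // j ∈ J} → ZMod M) : Prop :=
  ∃ H : MvPolynomial (Fin N) R₀, H ≠ 0 ∧ ∀ ℓ : ℕ, ℓ.Prime → ∀ (F : Type) [Field F] [Fintype F],
    Fintype.card F = ℓ ^ orderOf (ℓ : ZMod M) → ∀ φ : MvPolynomial (Fin N) R₀ →+* F, φ H ≠ 0 →
      ∀ χ : MulChar F ℂ, orderOf χ = M →
        ∏ j : {j // j ∈ J}, (χ ^ (κ j).val) (φ (MvPolynomial.C (X.c j.1))) = 1

/-- The number of the ways to complete `|J|` factors `H ^ 1` to degree `2 * k` by factors `H ^ 0` and
`H ^ 2` of the other curves. -/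
def mult (J : Finset (Fin X.r)) (k : ℕ) : ℕ :=
  if J.card ≤ 2 * k then (X.r - J.card).choose (k - J.card / 2) else 0

/-- The sum, over the sets `J` of factors, the perfect matchings `π` of `J` and the levels `M`, of the
numbers of the orbits of the Galois group of `ℚ(ζ_M)`, which acts freely, on the families `κ` of exact
level `M` which are matched by `π` and such that the Galois group of `K(ζ_M)` acts trivially on the roots
of the product of the `c_j ^ κ_j`; `J` has the multiplicity `X.mult J k`. -/
noncomputable def rho (k : ℕ) : ℕ :=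
  ∑ J : Finset (Fin X.r), X.mult J k * ∑ π : Equiv.Perm {j // j ∈ J}, ∑ M ∈ X.lcm.divisors,
    Nat.card {κ : {j // j ∈ J} → ZMod M // X.IsLine J π M κ ∧ X.KummerTrivial J M κ} / M.totient

end CyclicProduct

end Pool.Agent.L0h11
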