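import Mathlib
import Pool.Agent.L0h11.Hg
import Pool.Agent.L0h11.He
import Pool.Agent.L0h11.Gj

/-!
# The fibres of products of cyclic covers
-/

set_option autoImplicit false
set_option linter.all false

namespace Pool.Agent.L0h11.CC

open Finset Polynomial
open Pool.Agent.L0h11
open Pool.Agent.TH958.An

/-! ### Products -/

/-- the difference of two products -/
lemma prod_diff {J : Type} (s : Finset J) (a A : J → ℂ) {B q : ℝ} (hB : 1 ≤ B) (hq : 1 ≤ q)
    (h1 : ∀ j ∈ s, ‖a j‖ ≤ B * √q) (h2 : ∀ j ∈ s, ‖A j‖ ≤ B * √q) (h3 : ∀ j ∈ s, ‖a j - A j‖ ≤ B) :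
    ‖∏ j ∈ s, a j - ∏ j ∈ s, A j‖ * √q ≤ s.card * B ^ s.card * √q ^ s.card := by
  classical
  have hs1 : 1 ≤ √q := Real.one_le_sqrt.2 hq
  induction s using Finset.induction_on with
  | empty => simp
  | insert j s hj ih =>
    have ih' := ih (fun i hi => h1 i (mem_insert_of_mem hi)) (fun i hi => h2 i (mem_insert_of_mem hi))
      (fun i hi => h3 i (mem_insert_of_mem hi))
    have h4 : ‖∏ i ∈ s, A i‖ ≤ (B * √q) ^ s.card := by
      rw [_root_.norm_prod, ← prod_const]
      exact prod_le_prod (fun i _ => norm_nonneg _) fun i hi => h2 i (mem_insert_of_mem hi)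
    rw [prod_insert hj, prod_insert hj, card_insert_of_notMem hj]
    have h5 : a j * ∏ i ∈ s, a i - A j * ∏ i ∈ s, A i =
        a j * (∏ i ∈ s, a i - ∏ i ∈ s, A i) + (a j - A j) * ∏ i ∈ s, A i := by ring
    rw [h5]
    calc _ ≤ (‖a j‖ * ‖∏ i ∈ s, a i - ∏ i ∈ s, A i‖ + ‖a j - A j‖ * ‖∏ i ∈ s, A i‖) * √q := by
          refine mul_le_mul_of_nonneg_right ?_ (by positivity)
          rw [← norm_mul, ← norm_mul]
          exact norm_add_le _ _
      _ = ‖a j‖ * (‖∏ i ∈ s, a i - ∏ i ∈ s, A i‖ * √q) + ‖a j - A j‖ * ‖∏ i ∈ s, A i‖ * √q := by ring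
      _ ≤ (B * √q) * (s.card * B ^ s.card * √q ^ s.card) + B * (B * √q) ^ s.card * √q := by
          refine add_le_add ?_ ?_
          · exact mul_le_mul (h1 j (mem_insert_self j s)) ih' (by positivity) (by positivity)
          · refine mul_le_mul_of_nonneg_right ?_ (by positivity)
            exact mul_le_mul (h3 j (mem_insert_self j s)) h4 (norm_nonneg _) (by positivity)
      _ = _ := by
          push_cast
          rw [mul_pow]
          ring

/-! ### The coefficients -/

lemma coeff_pow (q : ℝ) (n l : ℕ) :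
    ((1 + C q * X ^ 2 : ℝ[X]) ^ n).coeff l =
      if Even l then ((n.choose (l / 2) : ℕ) : ℝ) * q ^ (l / 2) else 0 := by
  have h1 : (1 + C q * X ^ 2 : ℝ[X]) ^ n =
      ∑ i ∈ range (n + 1), C (((n.choose i : ℕ) : ℝ) * q ^ i) * X ^ (2 * i) := by
    rw [add_comm, add_pow]
    refine sum_congr rfl fun i _ => ?_
    rw [one_pow, mul_one, mul_pow, ← C_pow, ← pow_mul, C_mul, ← C_eq_natCast]
    ring
  rw [h1, finset_sum_coeff]
  simp only [coeff_C_mul_X_pow]
  split_ifs with hl
  · obtain ⟨e, he⟩ := hl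
    have he2 : l / 2 = e := by omega
    rw [he2]
    by_cases hen : e ∈ range (n + 1)
    · rw [sum_eq_single_of_mem e hen]
      · rw [if_pos (by omega)]
      · intro i _ hi
        rw [if_neg (by omega)]
    · rw [sum_eq_zero]
      · rw [mem_range, not_lt] at hen
        rw [Nat.choose_eq_zero_of_lt (by omega)]
        simp
      · intro i hi
        rw [if_neg]
        intro h
        apply hen
        have : e = i := by omega
        rw [this]
        exact hi
  · rw [sum_eq_zero]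
    intro i _
    rw [if_neg]
    rintro rfl
    exact hl (even_two_mul i)

/-- the expansion of the trace -/
lemma trace_expand {r : ℕ} (a : Fin r → ℝ) {q : ℝ} (hq : 0 < q) (k : ℕ) :
    (∏ j, (1 + C (a j) * X + C q * X ^ 2 : ℝ[X])).coeff (2 * k) / q ^ k =
      ∑ J : Finset (Fin r), if Even J.card then
        (((if J.card ≤ 2 * k then (r - J.card).choose (k - J.card / 2) else 0 : ℕ)) : ℝ) *
          ((∏ j ∈ J, a j) / √q ^ J.card) else 0 := by
  have h1 : ∏ j, (1 + C (a j) * X + C q * X ^ 2 : ℝ[X]) =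
      ∑ J ∈ (univ : Finset (Fin r)).powerset, (C (∏ j ∈ J, a j) * X ^ J.card) *
        (1 + C q * X ^ 2) ^ (r - J.card) := by
    have h2 : ∀ j, (1 + C (a j) * X + C q * X ^ 2 : ℝ[X]) =
        C (a j) * X + (1 + C q * X ^ 2) := fun j => by ring
    rw [prod_congr rfl fun j _ => h2 j, prod_add]
    refine sum_congr rfl fun J hJ => ?_
    rw [prod_mul_distrib, prod_const, prod_const, ← map_prod, card_sdiff_of_subset (mem_powerset.1 hJ),
      card_univ, Fintype.card_fin]
  rw [h1, finset_sum_coeff, sum_div, powerset_univ]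
  refine sum_congr rfl fun J _ => ?_
  have h3 : ((C (∏ j ∈ J, a j) * X ^ J.card) * (1 + C q * X ^ 2 : ℝ[X]) ^ (r - J.card)).coeff (2 * k) =
      (∏ j ∈ J, a j) * (if J.card ≤ 2 * k then
        ((1 + C q * X ^ 2 : ℝ[X]) ^ (r - J.card)).coeff (2 * k - J.card) else 0) := by
    rw [mul_assoc, coeff_C_mul, coeff_X_pow_mul']
  rw [h3]
  by_cases h4 : J.card ≤ 2 * k
  · rw [if_pos h4, if_pos h4, coeff_pow]
    by_cases h5 : Even J.card
    · rw [if_pos h5, if_pos]
      · obtain ⟨e, he⟩ := h5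
        have h6 : (2 * k - J.card) / 2 = k - e := by omega
        have h7 : J.card / 2 = e := by omega
        have h8 : √q ^ J.card = q ^ e := by
          rw [he, ← two_mul, pow_mul, Real.sq_sqrt hq.le]
        have h9 : q ^ k = q ^ (k - e) * q ^ e := by
          rw [← pow_add]
          congr 1
          omega
        rw [h6, h7, h8, h9]
        field_simp
      · rw [Nat.even_sub h4]
        exact ⟨fun _ => h5, fun _ => even_two_mul k⟩
    · rw [if_neg h5, if_neg, mul_zero, zero_div]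
      rw [Nat.even_sub h4]
      intro h
      exact h5 (h.1 (even_two_mul k))
  · rw [if_neg h4, if_neg h4, mul_zero, zero_div, Nat.cast_zero, zero_mul, ite_self]

/-! ### The points of the fibres -/

open Classical in
lemma cyclicPoints_eq {L F : Type} [Field L] [Field F] [Fintype F] (τ : F →+* L) (m : ℕ) {N : ℕ}
    (b : Fin N → ℕ) (c : F) (t : Fin N → F) :
    cyclicPoints m b (τ c) (fun i => τ (t i)) (Fintype.card F) = cnt m b c t := by
  have hrange : ∀ x : L, x ^ Fintype.card F = x ↔ ∃ z : F, τ z = x := fun x => range_eq τ x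
  have hsum : ∀ x : F, ∑ i with τ (t i) = τ x, b i = ∑ i with t i = x, b i := by
    intro x
    simp only [τ.injective.eq_iff]
  have hprod : ∀ x : F, ∏ i with τ (t i) ≠ τ x, (τ x - τ (t i)) ^ b i =
      τ (∏ i with t i ≠ x, (x - t i) ^ b i) := by
    intro x
    simp only [ne_eq, τ.injective.eq_iff, map_prod, map_pow, map_sub]
  unfold cyclicPoints cnt
  congr 1
  · symm
    refine Nat.card_congr (Equiv.ofBijective (fun P => ⟨(τ P.1.1, τ P.1.2), ⟨(hrange _).2 ⟨_, rfl⟩,
      (hrange _).2 ⟨_, rfl⟩⟩, ?_⟩) ⟨?_, ?_⟩)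
    · show (τ P.1.2) ^ Nat.gcd m (∑ i with τ (t i) = τ P.1.1, b i) =
        τ c * ∏ i with τ (t i) ≠ τ P.1.1, (τ P.1.1 - τ (t i)) ^ b i
      rw [hsum, hprod, ← map_pow, ← map_mul, P.2]
    · intro P P' h
      have h1 := congrArg (fun w => w.1.1) h
      have h2 := congrArg (fun w => w.1.2) h
      apply Subtype.ext
      exact Prod.ext (τ.injective h1) (τ.injective h2)
    · rintro ⟨⟨x, z⟩, ⟨h1, h2⟩, h3⟩
      obtain ⟨x, rfl⟩ := (hrange x).1 h1
      obtain ⟨z, rfl⟩ := (hrange z).1 h2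
      refine ⟨⟨(x, z), ?_⟩, rfl⟩
      apply τ.injective
      have h4 : (τ z) ^ Nat.gcd m (∑ i with τ (t i) = τ x, b i) =
        τ c * ∏ i with τ (t i) ≠ τ x, (τ x - τ (t i)) ^ b i := h3
      rw [hsum, hprod, ← map_pow, ← map_mul] at h4
      exact h4
  · symm
    refine Nat.card_congr (Equiv.ofBijective (fun v => ⟨τ v.1, (hrange _).2 ⟨_, rfl⟩, ?_⟩) ⟨?_, ?_⟩)
    · rw [← map_pow, v.2]
    · intro v v' h
      exact Subtype.ext (τ.injective (congrArg (fun w => w.1) h))
    · rintro ⟨x, h1, h2⟩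
      obtain ⟨x, rfl⟩ := (hrange x).1 h1
      refine ⟨⟨x, ?_⟩, rfl⟩
      apply τ.injective
      rw [map_pow]
      exact h2

end Pool.Agent.L0h11.CC

namespace Pool.Agent.L0h11.CyclicProduct

open Pool.Agent.TH958.An

variable {R₀ : Type} [CommRing R₀] {N : ℕ} (X : CyclicProduct R₀ N)

/-- the points of the fibres -/
lemma points_eq (j : Fin X.r) {F : Type} [Field F] [Fintype F]
    (φ : MvPolynomial (Fin N) R₀ →+* F) :
    X.points j (ptOf φ) (Fintype.card F) =
      CC.cnt (X.m j) (X.b j) (φ (MvPolynomial.C (X.c j))) (fun i => φ (MvPolynomial.X i)) := by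
  classical
  set y := ptOf φ with hy
  let k := Res y
  let σ : k →+* F := fiberEquiv (F := F) y ⟨φ, rfl⟩
  have hσ : ∀ a, σ (Ideal.Quotient.mk y.asIdeal a) = φ a := fun a => rfl
  let _ : Algebra k F := σ.toAlgebra
  have : Finite k := Finite.of_injective σ σ.injective
  have hint : Algebra.IsAlgebraic k F := by
    have : Module.Finite k F := Module.Finite.of_finite
    infer_instance
  let τ : F →ₐ[k] AlgebraicClosure k := IsAlgClosed.lift
  have hτ : ∀ a : k, τ (σ a) = algebraMap k (AlgebraicClosure k) a := fun a => τ.commutes a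
  have h1 := CC.cyclicPoints_eq (τ : F →+* AlgebraicClosure k) (X.m j) (X.b j)
    (φ (MvPolynomial.C (X.c j))) (fun i => φ (MvPolynomial.X i))
  rw [← h1]
  have h2 : ∀ a, (τ : F →+* AlgebraicClosure k) (φ a) =
      algebraMap k (AlgebraicClosure k) (Ideal.Quotient.mk y.asIdeal a) := by
    intro a
    rw [← hτ, hσ]
    rfl
  rw [h2]
  simp only [h2]
  rfl

end Pool.Agent.L0h11.CyclicProduct
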