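import Mathlib
import Pool.Agent.L0h11.Hh
import Pool.Agent.L0h11.Hf
import Pool.Agent.L0h11.Hd

/-!
# The systems of lines of products of cyclic covers
-/

set_option autoImplicit false
set_option linter.all false

namespace Pool.Agent.L0h11.CC

open Finset
open Pool.Agent.L0h11

section

variable {F : Type} [Field F] [Fintype F] {d : ℕ} [NeZero d] {w : F} (hw : IsPrimitiveRoot w d)
  {e : AddChar (ZMod d) ℂ} (he : ∀ i, e i = 1 → i = 0) {ψ : AddChar F ℂ}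

/-- the extension of a family to pairs -/
def dbl {J : Type} {M : ℕ} (κ : J → ZMod M) : J × Bool → ZMod M :=
  fun x => if x.2 then -κ x.1 else κ x.1

/-- the coefficients for pairs -/
def dco {J : Type} {A : Type} [Ring A] (c : J → A) : J × Bool → A :=
  fun x => if x.2 then c x.1 else -1

include he in
lemma GE_neg (hψ : ψ.IsPrimitive) {a : ZMod d} (ha : a ≠ 0) :
    GE hw e ψ a * GE hw e ψ (-a) = ch hw e a (-1) := by
  have h1 := GG_neg hw e he ψ hψ ha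
  rw [JS_neg hw e he ha, neg_neg] at h1
  unfold GE
  rw [if_neg ha, if_neg (neg_ne_zero.2 ha), div_mul_div_comm, h1, sqrt_mul]
  exact mul_div_cancel_right₀ _ (by exact_mod_cast Fintype.card_ne_zero)

include he in
lemma lam_match (hψ : ψ.IsPrimitive) {J : Type} [Fintype J] (κ : J → ZMod d) (hκ : ∀ j, κ j ≠ 0)
    (c : J → F) : lamF hw e ψ (dco c) (dbl κ) = ∏ j, ch hw e (κ j) (c j) := by
  unfold lamF
  rw [Fintype.prod_prod_type]
  refine prod_congr rfl fun j _ => ?_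
  rw [Fintype.prod_bool]
  show GE hw e ψ (-κ j) * ch hw e (-(-κ j)) (c j) * (GE hw e ψ (κ j) * ch hw e (-κ j) (-1)) = _
  have h1 := GE_neg hw he hψ (hκ j)
  have h2 : ch hw e (κ j) (-1) * ch hw e (-κ j) (-1) = 1 := by
    rw [← MulChar.mul_apply, ← ch_add, add_neg_cancel, ch_zero]
    exact MulChar.one_apply (isUnit_iff_ne_zero.2 (neg_ne_zero.2 one_ne_zero))
  rw [neg_neg]
  calc _ = (GE hw e ψ (κ j) * GE hw e ψ (-κ j)) * ch hw e (-κ j) (-1) * ch hw e (κ j) (c j) := by ring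
    _ = _ := by rw [h1, h2, one_mul]

end

section

variable {F : Type} [Field F] [Fintype F]

lemma chi_neg {M : ℕ} [NeZero M] {χ : MulChar F ℂ} (hχ : orderOf χ = M) (a : ZMod M) :
    χ ^ a.val * χ ^ (-a).val = 1 := by
  rw [← pow_add]
  have h1 : M ∣ a.val + (-a).val := by
    rw [← ZMod.natCast_eq_zero_iff, Nat.cast_add, ZMod.natCast_zmod_val, ZMod.natCast_zmod_val,
      add_neg_cancel]
  refine orderOf_dvd_iff_pow_eq_one.1 ?_
  rw [hχ]
  exact h1

lemma gauss_neg {M : ℕ} [NeZero M] {χ : MulChar F ℂ} (hχ : orderOf χ = M) {ψ : AddChar F ℂ}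
    (hψ : ψ ≠ 1) {a : ZMod M} (ha : a ≠ 0) :
    gaussSum (χ ^ a.val) ψ * gaussSum (χ ^ (-a).val) ψ = (χ ^ a.val) (-1) * Fintype.card F := by
  have hψ' : ψ.IsPrimitive := AddChar.IsPrimitive.of_ne_one hψ
  have h1 : χ ^ a.val ≠ 1 := by
    intro h
    have h2 := orderOf_dvd_of_pow_eq_one h
    rw [hχ] at h2
    have h3 : a.val = 0 := Nat.eq_zero_of_dvd_of_lt h2 (ZMod.val_lt a)
    exact ha ((ZMod.val_eq_zero a).1 h3)
  have h2 := gaussSum_mul_gaussSum_pow_orderOf_sub_one h1 hψ'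
  have h3 : (χ ^ a.val) ^ (orderOf (χ ^ a.val) - 1) = χ ^ (-a).val := by
    have h4 : (χ ^ a.val) ^ (orderOf (χ ^ a.val) - 1) * χ ^ a.val = χ ^ (-a).val * χ ^ a.val := by
      rw [← pow_succ, Nat.sub_add_cancel (orderOf_pos _), pow_orderOf_eq_one, mul_comm,
        chi_neg hχ]
    exact mul_right_cancel h4
  rw [h3] at h2
  exact h2

lemma gauss_match {M : ℕ} [NeZero M] {χ : MulChar F ℂ} (hχ : orderOf χ = M) {ψ : AddChar F ℂ}
    (hψ : ψ ≠ 1) {J : Type} [Fintype J] (κ : J → ZMod M) (hκ : ∀ j, κ j ≠ 0) (c : J → F)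
    (hc : ∀ j, c j ≠ 0) :
    ∏ x, gaussSum (χ ^ (dbl κ x).val) ψ =
      (Fintype.card F : ℂ) ^ (Fintype.card (J × Bool) / 2) * ∏ x, (χ ^ (dbl κ x).val) (dco c x) ↔
    ∏ j, (χ ^ (κ j).val) (c j) = 1 := by
  have hcard : Fintype.card (J × Bool) / 2 = Fintype.card J := by
    rw [Fintype.card_prod, Fintype.card_bool]
    omega
  have e1 : ∏ x, gaussSum (χ ^ (dbl κ x).val) ψ =
      (Fintype.card F : ℂ) ^ (Fintype.card J) * ∏ j, (χ ^ (κ j).val) (-1) := by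
    rw [Fintype.prod_prod_type, ← card_univ (α := J), ← prod_const, ← prod_mul_distrib]
    refine prod_congr rfl fun j _ => ?_
    rw [Fintype.prod_bool]
    show gaussSum (χ ^ (-κ j).val) ψ * gaussSum (χ ^ (κ j).val) ψ = _
    rw [mul_comm, gauss_neg hχ hψ (hκ j), mul_comm]
  have e2 : ∏ x, (χ ^ (dbl κ x).val) (dco c x) =
      (∏ j, (χ ^ (-κ j).val) (c j)) * ∏ j, (χ ^ (κ j).val) (-1) := by
    rw [Fintype.prod_prod_type, ← prod_mul_distrib]
    refine prod_congr rfl fun j _ => ?_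
    rw [Fintype.prod_bool]
    rfl
  have e3 : (∏ j, (χ ^ (κ j).val) (c j)) * ∏ j, (χ ^ (-κ j).val) (c j) = 1 := by
    rw [← prod_mul_distrib]
    refine prod_eq_one fun j _ => ?_
    rw [← MulChar.mul_apply, chi_neg hχ]
    exact MulChar.one_apply (isUnit_iff_ne_zero.2 (hc j))
  have h0 : ∏ j, (χ ^ (κ j).val) (-1) ≠ 0 := by
    refine prod_ne_zero_iff.2 fun j _ => ?_
    exact ((isUnit_iff_ne_zero.2 (neg_ne_zero.2 one_ne_zero : (-1 : F) ≠ 0)).map
      (χ ^ (κ j).val)).ne_zero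
  have hq : (Fintype.card F : ℂ) ^ (Fintype.card J) ≠ 0 :=
    pow_ne_zero _ (by exact_mod_cast Fintype.card_ne_zero)
  rw [hcard, e1, e2]
  constructor
  · intro h
    have h1 := mul_left_cancel₀ hq h
    have h2 : ∏ j, (χ ^ (-κ j).val) (c j) = 1 := by
      have h3 : (1 : ℂ) * ∏ j, (χ ^ (κ j).val) (-1) =
          (∏ j, (χ ^ (-κ j).val) (c j)) * ∏ j, (χ ^ (κ j).val) (-1) := by rw [one_mul]; exact h1
      exact (mul_right_cancel₀ h0 h3).symm
    rw [h2, mul_one] at e3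
    exact e3
  · intro h
    rw [h, one_mul] at e3
    rw [e3, one_mul]

end

end Pool.Agent.L0h11.CC

namespace Pool.Agent.L0h11.CyclicProduct

open Finset
open Pool.Agent.L0h11.CC

variable {R₀ : Type} [CommRing R₀] {N : ℕ} (X : CyclicProduct R₀ N)

lemma lcm_pos : 0 < X.lcm := by
  unfold lcm
  rw [Nat.pos_iff_ne_zero]
  intro h
  rw [Finset.lcm_eq_zero_iff] at h
  obtain ⟨j, -, hj⟩ := h
  exact (X.m_pos j).ne' hj

lemma m_dvd (j : Fin X.r) : X.m j ∣ X.lcm := Finset.dvd_lcm (mem_univ j)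

/-- the condition on the families -/
def Q (J : Finset (Fin X.r)) (π : Equiv.Perm {j // j ∈ J}) (M : ℕ) (κ : {j // j ∈ J} → ZMod M) :
    Prop :=
  (∀ j, π j ≠ j ∧ π (π j) = j) ∧ ∀ j, κ j ≠ 0 ∧ (X.m j.1 : ZMod M) * κ j = 0 ∧
    ∀ i, κ j * (X.b j.1 i : ZMod M) + κ (π j) * (X.b (π j).1 i : ZMod M) = 0

lemma isLine_iff {J : Finset (Fin X.r)} {π : Equiv.Perm {j // j ∈ J}} {M : ℕ}
    (κ : {j // j ∈ J} → ZMod M) : X.IsLine J π M κ ↔ X.Q J π M κ ∧ IsPrm M κ := by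
  unfold IsLine Q IsPrm
  rw [and_assoc]

/-- the index set -/
abbrev Ix : Type := Σ J : Finset (Fin X.r), Equiv.Perm {j // j ∈ J}

/-- the systems of lines -/
def sys (x : X.Ix) : Sys ({j // j ∈ x.1} × Bool) where
  A M b := X.Q x.1 x.2 M (fun j => b (j, false)) ∧ ∀ j, b (j, true) = -b (j, false)
  nz M b h := by
    rintro ⟨j, s⟩
    cases s
    · exact (h.1.2 j).1
    · rw [h.2 j]
      exact neg_ne_zero.2 (h.1.2 j).1
  sum M b h := by
    rw [Fintype.sum_prod_type]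
    refine sum_eq_zero fun j _ => ?_
    rw [Fintype.sum_bool, h.2 j, neg_add_cancel]
  lvl M d _ _ h b := by
    have hm : ∀ (n : ℕ) (a : ZMod M), (n : ZMod d) * up h a = up h ((n : ZMod M) * a) := by
      intro n a
      rw [← nsmul_eq_mul, ← map_nsmul, nsmul_eq_mul]
    have hm' : ∀ (n : ℕ) (a : ZMod M), up h a * (n : ZMod d) = up h (a * (n : ZMod M)) := by
      intro n a
      rw [mul_comm, hm, mul_comm]
    unfold Q
    simp only [hm, hm', ← map_add, ← map_neg, up_eq_zero, (up_inj h).eq_iff, ne_eq]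
  unit M t b h := by
    refine ⟨⟨h.1.1, fun j => ⟨?_, ?_, fun i => ?_⟩⟩, fun j => ?_⟩
    · show (t : ZMod M) * b (j, false) ≠ 0
      intro h0
      exact (h.1.2 j).1 (t.mul_right_eq_zero.1 h0)
    · show (X.m j.1 : ZMod M) * ((t : ZMod M) * b (j, false)) = 0
      rw [mul_left_comm, (h.1.2 j).2.1, mul_zero]
    · show (t : ZMod M) * b (j, false) * (X.b j.1 i : ZMod M) +
        (t : ZMod M) * b (x.2 j, false) * (X.b (x.2 j).1 i : ZMod M) = 0
      rw [mul_assoc, mul_assoc, ← mul_add, (h.1.2 j).2.2 i, mul_zero]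
    · show (t : ZMod M) * b (j, true) = -((t : ZMod M) * b (j, false))
      rw [h.2 j, mul_neg]

/-- the coefficients -/
noncomputable def co (x : X.Ix) : {j // j ∈ x.1} × Bool → MvPolynomial (Fin N) R₀ :=
  dco fun j => MvPolynomial.C (X.c j.1)

lemma prm_dbl {J : Type} {M : ℕ} (κ : J → ZMod M) : IsPrm M (dbl κ) ↔ IsPrm M κ := by
  unfold IsPrm
  refine forall_congr' fun k => ?_
  have h1 : (∀ i, (k : ZMod M) * dbl κ i = 0) ↔ ∀ i, (k : ZMod M) * κ i = 0 := by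
    constructor
    · intro h i
      exact h (i, false)
    · rintro h ⟨i, s⟩
      cases s
      · exact h i
      · show (k : ZMod M) * (-κ i) = 0
        rw [mul_neg, h i, neg_zero]
  rw [h1]

lemma A_dbl {x : X.Ix} {M : ℕ} (κ : {j // j ∈ x.1} → ZMod M) :
    (X.sys x).A M (dbl κ) ↔ X.Q x.1 x.2 M κ :=
  ⟨fun h => h.1, fun h => ⟨h, fun j => rfl⟩⟩

lemma dbl_of_A {x : X.Ix} {M : ℕ} {b : {j // j ∈ x.1} × Bool → ZMod M} (h : (X.sys x).A M b) :
    dbl (fun j => b (j, false)) = b := by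
  funext y
  obtain ⟨j, s⟩ := y
  cases s
  · rfl
  · exact (h.2 j).symm

variable [IsDomain R₀] [CharZero R₀]

lemma rational_iff {J : Finset (Fin X.r)} {M : ℕ} [NeZero M] (κ : {j // j ∈ J} → ZMod M)
    (hκ : ∀ j, κ j ≠ 0) :
    RG.RationalOver M (dbl κ) (dco fun j : {j // j ∈ J} =>
      (MvPolynomial.C (X.c j.1) : MvPolynomial (Fin N) R₀)) ↔ X.KummerTrivial J M κ := by
  set H₀ : MvPolynomial (Fin N) R₀ := ∏ j : {j // j ∈ J}, MvPolynomial.C (X.c j.1) with hH₀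
  have hH₀ne : H₀ ≠ 0 := prod_ne_zero_iff.2 fun j _ => by
    rw [Ne, MvPolynomial.C_eq_zero]
    exact X.c_ne j.1
  have hco : ∀ {F : Type} [Field F] (φ : MvPolynomial (Fin N) R₀ →+* F), φ H₀ ≠ 0 →
      ∀ j : {j // j ∈ J}, φ (MvPolynomial.C (X.c j.1)) ≠ 0 := by
    intro F _ φ hφ j h
    apply hφ
    rw [hH₀, map_prod]
    exact prod_eq_zero (mem_univ j) h
  have hdco : ∀ {F : Type} [Field F] (φ : MvPolynomial (Fin N) R₀ →+* F) (x : {j // j ∈ J} × Bool),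
      φ ((dco fun j : {j // j ∈ J} => (MvPolynomial.C (X.c j.1) : MvPolynomial (Fin N) R₀)) x) =
        dco (fun j => φ (MvPolynomial.C (X.c j.1))) x := by
    rintro F _ φ ⟨j, s⟩
    cases s
    · show φ (-1) = -1
      rw [map_neg, map_one]
    · rfl
  constructor
  · rintro ⟨H, hH, h⟩
    refine ⟨H * H₀, mul_ne_zero hH hH₀ne, ?_⟩
    intro ℓ hℓ F _ _ hF φ hφ χ hχ
    rw [map_mul] at hφ
    obtain ⟨ψ, hψ⟩ := psi_prim (F := F)
    have hψ1 : ψ ≠ 1 := by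
      intro h1
      have h2 := hψ (one_ne_zero (α := F))
      rw [AddChar.mulShift_one] at h2
      exact h2 h1
    have h1 := h ℓ hℓ F hF φ (left_ne_zero_of_mul hφ) χ ψ hχ hψ1
    simp only [hdco] at h1
    exact (gauss_match hχ hψ1 κ hκ _ (hco φ (right_ne_zero_of_mul hφ))).1 h1
  · rintro ⟨H, hH, h⟩
    refine ⟨H * H₀, mul_ne_zero hH hH₀ne, ?_⟩
    intro ℓ hℓ F _ _ hF φ hφ χ ψ hχ hψ1
    rw [map_mul] at hφ
    have h1 := h ℓ hℓ F hF φ (left_ne_zero_of_mul hφ) χ hχ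
    simp only [hdco]
    exact (gauss_match hχ hψ1 κ hκ _ (hco φ (right_ne_zero_of_mul hφ))).2 h1

lemma rho_eq (k : ℕ) : X.rho k =
    RG.famRhoF X.sys (fun x => X.mult x.1 k) X.co X.lcm 0 := by
  unfold rho RG.famRhoF
  rw [zero_add, Fintype.sum_sigma]
  refine sum_congr rfl fun J _ => ?_
  rw [mul_sum]
  refine sum_congr rfl fun π _ => ?_
  dsimp only
  congr 1
  refine sum_congr rfl fun M hM => ?_
  have : NeZero M := ⟨(Nat.pos_of_mem_divisors hM).ne'⟩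
  congr 1
  refine Nat.card_congr (Equiv.ofBijective (fun κ => ⟨dbl κ.1, ?_⟩) ⟨?_, ?_⟩)
  · obtain ⟨h1, h2⟩ := κ.2
    rw [X.isLine_iff] at h1
    refine ⟨⟨(X.A_dbl (x := ⟨J, π⟩) κ.1).2 h1.1, (prm_dbl κ.1).2 h1.2⟩, ?_⟩
    exact (X.rational_iff κ.1 fun j => (h1.1.2 j).1).2 h2
  · intro κ κ' h
    apply Subtype.ext
    funext j
    exact congrFun (congrArg Subtype.val h) (j, false)
  · rintro ⟨b, ⟨h1, h2⟩, h3⟩
    have h4 := X.dbl_of_A (x := ⟨J, π⟩) h1
    have h5 : X.Q J π M (fun j => b (j, false)) := h1.1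
    refine ⟨⟨fun j => b (j, false), ?_, ?_⟩, Subtype.ext h4⟩
    · rw [X.isLine_iff]
      refine ⟨h5, ?_⟩
      rw [← prm_dbl, h4]
      exact h2
    · refine (X.rational_iff _ fun j => (h5.2 j).1).1 ?_
      rw [h4]
      exact h3

end Pool.Agent.L0h11.CyclicProduct
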