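import Mathlib
import Pool.Agent.L0h11.Hi

/-!
# The mean values of the traces of products of cyclic covers
-/

set_option autoImplicit false
set_option linter.all false

namespace Pool.Agent.L0h11.CyclicProduct

open Finset
open Pool.Agent.L0h11.CC
open Pool.Agent.TH958.An
open Pool.Agent.L0h11.RG

section

variable {R₀ : Type} [CommRing R₀] {N : ℕ} (X : CyclicProduct R₀ N)

open Classical in
lemma wide' {J : Finset (Fin X.r)} {d : ℕ} [NeZero d] {κ : {j // j ∈ J} → ZMod d}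
    (hκ : ∀ j, κ j ∈ KS (X.m j.1) d) (D : Finset {j // j ∈ J}) (hD : D.Nonempty) :
    D.card < Nat.card {i : Fin N // ∃ j ∈ D, κ j * (X.b j.1 i : ZMod d) ≠ 0} := by
  choose p hp1 hp2 hp3 using fun j => exists_prime (hκ j)
  set D' := D.map (Function.Embedding.subtype _) with hD'
  set p' : Fin X.r → ℕ := fun j => if h : j ∈ J then p ⟨j, h⟩ else 0 with hp'
  have hp'' : ∀ j : {j // j ∈ J}, p' j.1 = p j := fun j => dif_pos j.2
  have h1 := X.wide D' p' (by rw [hD']; exact (map_nonempty).2 hD) (by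
    intro j hj
    rw [hD', mem_map] at hj
    obtain ⟨j, -, rfl⟩ := hj
    show (p' j.1).Prime ∧ p' j.1 ∣ X.m j.1
    rw [hp'']
    exact ⟨hp1 j, hp2 j⟩)
  rw [hD', card_map] at h1
  refine h1.trans_le (Nat.card_le_card_of_injective
    (fun i : {i : Fin N // ∃ j ∈ D.map (Function.Embedding.subtype _), ¬ p' j ∣ X.b j i} =>
      (⟨i.1, ?_⟩ : {i : Fin N // ∃ j ∈ D, κ j * (X.b j.1 i : ZMod d) ≠ 0})) ?_)
  · obtain ⟨j, hj, hi⟩ := i.2
    rw [mem_map] at hj
    obtain ⟨j, hj, rfl⟩ := hj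
    refine ⟨j, hj, hp3 j _ ?_⟩
    have h2 : ¬ p' j.1 ∣ X.b j.1 i := hi
    rwa [hp''] at h2
  · intro i i' h
    have h4 := congrArg (fun z : {i : Fin N // ∃ j ∈ D, κ j * (X.b j.1 i : ZMod d) ≠ 0} => z.1) h
    exact Subtype.ext h4

/-- the constants -/
noncomputable def WS (N L : ℕ) : ℝ := ∑ d ∈ L.divisors, WW d N

lemma WW_le {N L d : ℕ} (hL : 0 < L) (hd : d ∣ L) : WW d N ≤ WS N L :=
  single_le_sum (f := fun d => WW d N) (fun d _ => by have := one_le_WW d N; linarith)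
    (Nat.mem_divisors.2 ⟨hd, hL.ne'⟩)

lemma WS_nonneg (N L : ℕ) : 0 ≤ WS N L :=
  sum_nonneg fun d _ => by have := one_le_WW d N; linarith

/-- the bound for the traces -/
noncomputable def BB (N L : ℕ) : ℝ := LC N L + L * WS N L

lemma one_le_BB (N L : ℕ) : 1 ≤ BB N L := by
  unfold BB
  have h1 := one_le_LC N L
  have h2 : 0 ≤ (L : ℝ) * WS N L := mul_nonneg (Nat.cast_nonneg _) (WS_nonneg N L)
  linarith

lemma LC_le_BB (N L : ℕ) : LC N L ≤ BB N L := by
  unfold BB
  have h2 : 0 ≤ (L : ℝ) * WS N L := mul_nonneg (Nat.cast_nonneg _) (WS_nonneg N L)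
  linarith

/-- the character sum of a curve -/
noncomputable def AJ {F : Type} [Field F] [Fintype F] {d : ℕ} [NeZero d] {w : F}
    (hw : IsPrimitiveRoot w d) (e : AddChar (ZMod d) ℂ) (j : Fin X.r)
    (φ : MvPolynomial (Fin N) R₀ →+* F) : ℂ :=
  -∑ κ ∈ KS (X.m j) d, ch hw e κ (φ (MvPolynomial.C (X.c j))) *
    SS hw e (fun i => κ * (X.b j i : ZMod d)) (fun i => φ (MvPolynomial.X i))

section

variable {F : Type} [Field F] [Fintype F] {d : ℕ} [NeZero d] {w : F}
  (hw : IsPrimitiveRoot w d) {e : AddChar (ZMod d) ℂ} (he : ∀ i, e i = 1 → i = 0)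
  (hd : d = Nat.gcd X.lcm (Fintype.card F - 1))
  {φ : MvPolynomial (Fin N) R₀ →+* F} {N₁ : MvPolynomial (Fin N) R₀} (hN : X.IsModel N₁)
  (hφ : φ N₁ ≠ 0)

include hN hφ in
lemma good : (∀ j, φ (MvPolynomial.C (X.c j)) ≠ 0) ∧
    Function.Injective fun i : Fin N => φ (MvPolynomial.X i) := by
  have hy := hN.2 (ptOf φ) (fun h => hφ ((mem_ptOf φ N₁).1 h))
  refine ⟨fun j h => (hy.1 j).2 ((mem_ptOf φ _).2 h), fun i i' h => ?_⟩
  by_contra hne
  apply hy.2 i i' hne
  rw [mem_ptOf, map_sub]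
  exact sub_eq_zero.2 h

include he hd hN hφ in
lemma AJ_sub (j : Fin X.r) :
    ‖((X.curveTrace j (ptOf φ) (Fintype.card F) : ℝ) : ℂ) - X.AJ hw e j φ‖ ≤ LC N X.lcm := by
  have h1 := local_bound (X.m_pos j) X.lcm_pos (X.m_dvd j) hd hw he (X.b j)
    ((X.good hN hφ).1 j) (fun i => φ (MvPolynomial.X i))
  refine le_trans (le_of_eq ?_) h1
  congr 1
  unfold curveTrace AJ
  rw [X.points_eq, sub_neg_eq_add]
  push_cast
  rfl

include he hd hN hφ in
lemma AJ_le (j : Fin X.r) :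
    ‖X.AJ hw e j φ‖ ≤ (X.lcm * WS N X.lcm) * √(Fintype.card F : ℝ) := by
  classical
  have hdL : d ∣ X.lcm := by
    rw [hd]
    exact Nat.gcd_dvd_left _ _
  unfold AJ
  rw [norm_neg]
  have h1 : ∀ κ ∈ KS (X.m j) d, ‖ch hw e κ (φ (MvPolynomial.C (X.c j))) *
      SS hw e (fun i => κ * (X.b j i : ZMod d)) (fun i => φ (MvPolynomial.X i))‖ ≤
      WS N X.lcm * √(Fintype.card F : ℝ) := by
    intro κ hκ
    rw [norm_mul]
    have h2 : ‖SS hw e (fun i => κ * (X.b j i : ZMod d)) (fun i => φ (MvPolynomial.X i))‖ ≤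
        WW d (Fintype.card (Fin N)) * √(Fintype.card F : ℝ) := by
      refine norm_SS_nt hw he ?_
      intro hT
      -- a branch point
      obtain ⟨p, hp1, hp2, hp3⟩ := exists_prime hκ
      have h3 := X.wide {j} (fun _ => p) (singleton_nonempty j) (fun j' hj' => by
        rw [mem_singleton] at hj'
        subst hj'
        exact ⟨hp1, hp2⟩)
      rw [card_singleton] at h3
      have h4 : 0 < Nat.card {i : Fin N // ∃ j' ∈ ({j} : Finset (Fin X.r)), ¬ p ∣ X.b j' i} := by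
        omega
      obtain ⟨i, j', hj', hi⟩ := (Nat.card_pos_iff.1 h4).1
      rw [mem_singleton] at hj'
      subst hj'
      have h5 := hT (φ (MvPolynomial.X i))
      have h6 : (univ.filter fun i' : Fin N => φ (MvPolynomial.X i' : MvPolynomial (Fin N) R₀) =
          φ (MvPolynomial.X i)) = {i} := by
        ext i'
        rw [mem_filter, mem_singleton]
        constructor
        · rintro ⟨-, h⟩
          exact (X.good hN hφ).2 h
        · rintro rfl
          exact ⟨mem_univ _, rfl⟩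
      have h7 : ∑ i' with φ (MvPolynomial.X i' : MvPolynomial (Fin N) R₀) = φ (MvPolynomial.X i),
          κ * (X.b j' i' : ZMod d) = κ * (X.b j' i : ZMod d) := by
        rw [h6, sum_singleton]
      apply hp3 _ hi
      rw [← h7]
      exact h5
    rw [Fintype.card_fin] at h2
    calc _ ≤ 1 * (WW d N * √(Fintype.card F : ℝ)) :=
          mul_le_mul (norm_chi_le _ _) h2 (norm_nonneg _) zero_le_one
      _ ≤ _ := by
          rw [one_mul]
          exact mul_le_mul_of_nonneg_right (WW_le X.lcm_pos hdL) (Real.sqrt_nonneg _)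
  refine (norm_sum_le _ _).trans ((sum_le_card_nsmul _ _ _ h1).trans ?_)
  rw [nsmul_eq_mul, mul_assoc]
  refine mul_le_mul_of_nonneg_right ?_ (mul_nonneg (WS_nonneg _ _) (Real.sqrt_nonneg _))
  have h2 : (KS (X.m j) d).card ≤ X.lcm := card_KS.trans (Nat.le_of_dvd X.lcm_pos hdL)
  exact_mod_cast h2

lemma card_one : (1 : ℝ) ≤ Fintype.card F := Nat.one_le_cast.2 (Fintype.card_pos (α := F))

include he hd hN hφ in
lemma AJ_le' (j : Fin X.r) : ‖X.AJ hw e j φ‖ ≤ BB N X.lcm * √(Fintype.card F : ℝ) := by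
  refine (X.AJ_le hw he hd hN hφ j).trans (mul_le_mul_of_nonneg_right ?_ (Real.sqrt_nonneg _))
  unfold BB
  have h1 := one_le_LC N X.lcm
  linarith

include hw he hd hN hφ in
lemma trace_le (j : Fin X.r) : ‖((X.curveTrace j (ptOf φ) (Fintype.card F) : ℝ) : ℂ)‖ ≤
    BB N X.lcm * √(Fintype.card F : ℝ) := by
  have h1 := X.AJ_sub hw he hd hN hφ j
  have h2 := X.AJ_le hw he hd hN hφ j
  have h3 : ((X.curveTrace j (ptOf φ) (Fintype.card F) : ℝ) : ℂ) =
      (((X.curveTrace j (ptOf φ) (Fintype.card F) : ℝ) : ℂ) - X.AJ hw e j φ) + X.AJ hw e j φ := by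
    ring
  rw [h3]
  refine (norm_add_le _ _).trans ((add_le_add h1 h2).trans ?_)
  have hs1 : 1 ≤ √(Fintype.card F : ℝ) := Real.one_le_sqrt.2 card_one
  have h4 := one_le_LC N X.lcm
  unfold BB
  rw [add_mul]
  refine add_le_add_left ?_ _
  exact le_mul_of_one_le_right (by linarith) hs1

end

end

end Pool.Agent.L0h11.CyclicProduct
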