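import Mathlib
import Pool.Agent.L0h11.Hj

/-!
# The pole of the L-function of a product of cyclic covers
-/

set_option autoImplicit false
set_option linter.all false

namespace Pool.Agent.L0h11.CyclicProduct

open Finset Filter Topology
open Pool.Agent.L0h11.CC
open Pool.Agent.TH958.An
open Pool.Agent.L0h11.RG

section

variable {R₀ : Type} [CommRing R₀] {N : ℕ} (X : CyclicProduct R₀ N)

/-- the normalised trace -/
lemma ntY_expand (k : ℕ) {N₁ : MvPolynomial (Fin N) R₀} {F : Type} [Field F] [Fintype F]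
    {φ : MvPolynomial (Fin N) R₀ →+* F} (hφ : φ N₁ ≠ 0) :
    RG.ntY k N₁ (X.trace k) (ptOf φ) (Fintype.card F) =
      ∑ J : Finset (Fin X.r), if Even J.card then (X.mult J k : ℝ) *
        ((∏ j ∈ J, X.curveTrace j (ptOf φ) (Fintype.card F)) / √(Fintype.card F : ℝ) ^ J.card)
          else 0 := by
  unfold RG.ntY
  rw [if_neg (fun h1 => hφ ((mem_ptOf φ N₁).1 h1))]
  have hq : (0 : ℝ) < Fintype.card F := by exact_mod_cast Fintype.card_pos
  exact trace_expand (fun j => X.curveTrace j (ptOf φ) (Fintype.card F)) hq k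

/-- the bound -/
noncomputable def BT (k : ℕ) : ℝ :=
  ∑ J : Finset (Fin X.r), (X.mult J k : ℝ) * BB N X.lcm ^ J.card

lemma BT_nonneg (k : ℕ) : 0 ≤ X.BT k := by
  refine sum_nonneg fun J _ => mul_nonneg (Nat.cast_nonneg _) (pow_nonneg ?_ _)
  have := one_le_BB N X.lcm
  linarith

lemma ntY_le (k : ℕ) {N₁ : MvPolynomial (Fin N) R₀} (hN : X.IsModel N₁) (F : Type) [Field F]
    [Finite F] (φ : MvPolynomial (Fin N) R₀ →+* F) :
    |RG.ntY k N₁ (X.trace k) (ptOf φ) (Nat.card F)| ≤ X.BT k := by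
  have := Fintype.ofFinite F
  rw [Nat.card_eq_fintype_card]
  by_cases hφ : φ N₁ = 0
  · unfold RG.ntY
    rw [if_pos ((mem_ptOf φ N₁).2 hφ), abs_zero]
    exact X.BT_nonneg k
  · obtain ⟨d, hd0, w, hw, e, ψ, hd, he, hψ⟩ := DiagProduct.exists_wep F X.lcm_pos
    rw [X.ntY_expand k hφ]
    refine (abs_sum_le_sum_abs _ _).trans (sum_le_sum fun J _ => ?_)
    have hs : 0 < √(Fintype.card F : ℝ) := Real.sqrt_pos.2 (by exact_mod_cast Fintype.card_pos)
    have hB : 0 ≤ BB N X.lcm := by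
      have := one_le_BB N X.lcm
      linarith
    split_ifs with hJ
    · rw [abs_mul, Nat.abs_cast]
      refine mul_le_mul_of_nonneg_left ?_ (Nat.cast_nonneg _)
      rw [abs_div, abs_of_nonneg (a := √(Fintype.card F : ℝ) ^ J.card) (by positivity),
        div_le_iff₀ (by positivity), ← mul_pow, abs_prod, ← prod_const]
      refine prod_le_prod (fun j _ => abs_nonneg _) fun j _ => ?_
      have h1 := X.trace_le hw he hd hN hφ j
      rwa [Complex.norm_real, Real.norm_eq_abs] at h1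
    · rw [abs_zero]
      positivity

end

section

variable {R₀ : Type} [CommRing R₀] [IsDomain R₀] [CharZero R₀] [hft : Algebra.FiniteType ℤ R₀]
  {N : ℕ} (X : CyclicProduct R₀ N)

/-- the vectors -/
def gam {J : Finset (Fin X.r)} {d : ℕ} (κ : {j // j ∈ J} → ZMod d) (j : {j // j ∈ J})
    (i : Fin N) : ZMod d := κ j * (X.b j.1 i : ZMod d)

open Classical in
/-- the families of characters -/
noncomputable def Pi (J : Finset (Fin X.r)) (d : ℕ) [NeZero d] : Finset ({j // j ∈ J} → ZMod d) :=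
  Fintype.piFinset fun j => KS (X.m j.1) d

variable {F : Type} [Field F] [Fintype F] {d : ℕ} [NeZero d] {w : F}
  (hw : IsPrimitiveRoot w d) {e : AddChar (ZMod d) ℂ} (he : ∀ i, e i = 1 → i = 0)

lemma card_Pi_le (J : Finset (Fin X.r)) (d : ℕ) [NeZero d] : (X.Pi J d).card ≤ d ^ J.card := by
  classical
  refine (card_le_univ _).trans ?_
  rw [Fintype.card_fun, ZMod.card, Fintype.card_coe]

/-- the constant -/
noncomputable def EJ (J : Finset (Fin X.r)) (C₁ C₂ : ℝ) : ℝ :=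
  C₂ * (J.card * BB N X.lcm ^ J.card) +
    (X.lcm : ℝ) ^ J.card * ∑ d ∈ X.lcm.divisors, DC d J.card N C₁ C₂

lemma DC_nonneg (d k N : ℕ) {C₁ C₂ : ℝ} (hC₁ : 0 ≤ C₁) (hC₂ : 0 ≤ C₂) : 0 ≤ DC d k N C₁ C₂ := by
  have h1 := KK_nonneg N
  have h2 : 0 ≤ WW d N := by
    have := one_le_WW d N
    linarith
  have h3 : 0 ≤ MC d k N := by
    unfold MC
    positivity
  unfold DC
  positivity

lemma EJ_nonneg (J : Finset (Fin X.r)) {C₁ C₂ : ℝ} (hC₁ : 0 ≤ C₁) (hC₂ : 0 ≤ C₂) :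
    0 ≤ X.EJ J C₁ C₂ := by
  have h1 : 0 ≤ BB N X.lcm := by
    have := one_le_BB N X.lcm
    linarith
  have h2 : 0 ≤ ∑ d ∈ X.lcm.divisors, DC d J.card N C₁ C₂ :=
    sum_nonneg fun d _ => DC_nonneg d J.card N hC₁ hC₂
  unfold EJ
  positivity

/-- the product of the character sums -/
lemma prod_AJ (e : AddChar (ZMod d) ℂ) {J : Finset (Fin X.r)} (hJ : Even J.card)
    (φ : MvPolynomial (Fin N) R₀ →+* F) :
    ∏ j ∈ J, X.AJ hw e j φ = ∑ κ ∈ X.Pi J d,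
      (∏ j : {j // j ∈ J}, ch hw e (κ j) (φ (MvPolynomial.C (X.c j.1)))) *
        ∏ j : {j // j ∈ J}, SS hw e (X.gam κ j) (fun i => φ (MvPolynomial.X i)) := by
  classical
  rw [← prod_coe_sort J]
  unfold AJ
  rw [prod_neg, card_univ, Fintype.card_coe, hJ.neg_one_pow, one_mul, prod_univ_sum]
  refine sum_congr rfl fun κ _ => ?_
  rw [prod_mul_distrib]
  rfl

include he in
open Classical in
/-- **The mean value of the product of the traces of the curves in `J`.** -/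
theorem mean_J (hd : d = Nat.gcd X.lcm (Fintype.card F - 1)) {N₁ : MvPolynomial (Fin N) R₀}
    (hN : X.IsModel N₁) {J : Finset (Fin X.r)} (hJ : Even J.card) {n : ℕ} {C₁ C₂ : ℝ}
    (hC₁ : 0 ≤ C₁) (hC₂ : 0 ≤ C₂)
    (hZ : (Nat.card {φ : MvPolynomial (Fin N) R₀ →+* F // φ N₁ = 0} : ℝ) * Nat.card F ≤
      C₁ * (Nat.card F : ℝ) ^ n)
    (hh : (Nat.card (MvPolynomial (Fin N) R₀ →+* F) : ℝ) ≤ C₂ * (Nat.card F : ℝ) ^ n) :
    ‖PS N₁ (fun φ : MvPolynomial (Fin N) R₀ →+* F =>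
        ∏ j ∈ J, ((X.curveTrace j (ptOf φ) (Fintype.card F) : ℝ) : ℂ)) /
          (√(Fintype.card F : ℝ) : ℂ) ^ J.card -
      ∑ κ ∈ X.Pi J d, ((Mt (X.gam κ)).card : ℂ) *
        PS N₁ (fun φ : MvPolynomial (Fin N) R₀ →+* F =>
          ∏ j : {j // j ∈ J}, ch hw e (κ j) (φ (MvPolynomial.C (X.c j.1))))‖ *
      √(Fintype.card F : ℝ) ≤ X.EJ J C₁ C₂ * (Fintype.card F : ℝ) ^ n := by
  set q : ℝ := (Fintype.card F : ℝ) with hq
  have hq1 : (1 : ℝ) ≤ q := Nat.one_le_cast.2 (Fintype.card_pos (α := F))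
  have hs1 : 1 ≤ √q := Real.one_le_sqrt.2 hq1
  have hs0 : 0 < √q := by linarith
  have hdL : d ∣ X.lcm := by
    rw [hd]
    exact Nat.gcd_dvd_left _ _
  have hcardJ : Fintype.card {j // j ∈ J} = J.card := Fintype.card_coe J
  set m := J.card with hm
  have hsc : ((√q : ℝ) : ℂ) ^ m ≠ 0 := pow_ne_zero _ (by exact_mod_cast hs0.ne')
  set Pa := PS N₁ (fun φ : MvPolynomial (Fin N) R₀ →+* F =>
        ∏ j ∈ J, ((X.curveTrace j (ptOf φ) (Fintype.card F) : ℝ) : ℂ)) with hPa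
  set PA := PS N₁ (fun φ : MvPolynomial (Fin N) R₀ →+* F => ∏ j ∈ J, X.AJ hw e j φ) with hPA
  -- the first comparison
  have e1 : ‖Pa - PA‖ * √q ≤ C₂ * (m * BB N X.lcm ^ m) * (q ^ n * √q ^ m) := by
    let _ : Fintype (MvPolynomial (Fin N) R₀ →+* F) := Fintype.ofFinite _
    rw [hPa, hPA, PS_eq, PS_eq, ← sum_sub_distrib]
    have h1 : ∀ φ ∈ (univ : Finset (MvPolynomial (Fin N) R₀ →+* F)).filter (fun φ => φ N₁ ≠ 0),
        ‖∏ j ∈ J, ((X.curveTrace j (ptOf φ) (Fintype.card F) : ℝ) : ℂ) -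
          ∏ j ∈ J, X.AJ hw e j φ‖ * √q ≤ m * BB N X.lcm ^ m * √q ^ m := by
      intro φ hφ
      have hφ' := (mem_filter.1 hφ).2
      exact prod_diff J _ _ (one_le_BB N X.lcm) hq1
        (fun j _ => X.trace_le hw he hd hN hφ' j) (fun j _ => X.AJ_le' hw he hd hN hφ' j)
        (fun j _ => (X.AJ_sub hw he hd hN hφ' j).trans (LC_le_BB _ _))
    have hBB : 0 ≤ BB N X.lcm := by
      have := one_le_BB N X.lcm
      linarith
    calc _ ≤ (∑ φ ∈ (univ : Finset (MvPolynomial (Fin N) R₀ →+* F)).filter (fun φ => φ N₁ ≠ 0),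
          ‖∏ j ∈ J, ((X.curveTrace j (ptOf φ) (Fintype.card F) : ℝ) : ℂ) -
          ∏ j ∈ J, X.AJ hw e j φ‖) * √q := mul_le_mul_of_nonneg_right (norm_sum_le _ _) hs0.le
      _ = ∑ φ ∈ (univ : Finset (MvPolynomial (Fin N) R₀ →+* F)).filter (fun φ => φ N₁ ≠ 0),
          ‖∏ j ∈ J, ((X.curveTrace j (ptOf φ) (Fintype.card F) : ℝ) : ℂ) -
          ∏ j ∈ J, X.AJ hw e j φ‖ * √q := sum_mul _ _ _
      _ ≤ ((univ : Finset (MvPolynomial (Fin N) R₀ →+* F)).filter (fun φ => φ N₁ ≠ 0)).card *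
          (m * BB N X.lcm ^ m * √q ^ m) := by
          rw [← nsmul_eq_mul]
          exact sum_le_card_nsmul _ _ _ h1
      _ ≤ (C₂ * q ^ n) * (m * BB N X.lcm ^ m * √q ^ m) := by
          refine mul_le_mul_of_nonneg_right ?_ (by positivity)
          rw [Nat.card_eq_fintype_card (α := F), ← hq] at hh
          refine le_trans ?_ hh
          rw [Nat.card_eq_fintype_card]
          exact_mod_cast card_le_univ _
      _ = _ := by ring
  -- the second comparison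
  have e2 : PA = ∑ κ ∈ X.Pi J d, PS N₁ (fun φ : MvPolynomial (Fin N) R₀ →+* F =>
      (∏ j : {j // j ∈ J}, ch hw e (κ j) (φ (MvPolynomial.C (X.c j.1)))) *
        ∏ j : {j // j ∈ J}, SS hw e (X.gam κ j) (fun i => φ (MvPolynomial.X i))) := by
    rw [hPA, ← PS_sum]
    exact PS_congr _ fun φ _ => X.prod_AJ hw e hJ φ
  have e3 : ∀ κ ∈ X.Pi J d, ‖PS N₁ (fun φ : MvPolynomial (Fin N) R₀ →+* F =>
      (∏ j : {j // j ∈ J}, ch hw e (κ j) (φ (MvPolynomial.C (X.c j.1)))) *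
        ∏ j : {j // j ∈ J}, SS hw e (X.gam κ j) (fun i => φ (MvPolynomial.X i))) -
      ((((Mt (X.gam κ)).card : ℝ) * √q ^ m : ℝ) : ℂ) *
        PS N₁ (fun φ : MvPolynomial (Fin N) R₀ →+* F =>
          ∏ j : {j // j ∈ J}, ch hw e (κ j) (φ (MvPolynomial.C (X.c j.1))))‖ * √q ≤
      (∑ d ∈ X.lcm.divisors, DC d m N C₁ C₂) * (q ^ n * √q ^ m) := by
    intro κ hκ
    have hκ' : ∀ j, κ j ∈ KS (X.m j.1) d := Fintype.mem_piFinset.1 hκ
    have h1 := fam_mean hw he (X.gam κ) (κ := κ) (c := fun j : {j // j ∈ J} => X.c j.1)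
      (N₁ := N₁) (n := n) hC₁ hC₂ (X.wide' hκ') hZ hh
    rw [hcardJ, Fintype.card_fin, ← hq] at h1
    refine h1.trans (mul_le_mul_of_nonneg_right ?_ (by positivity))
    exact single_le_sum (f := fun d => DC d m N C₁ C₂)
      (fun d _ => DC_nonneg d m N hC₁ hC₂) (Nat.mem_divisors.2 ⟨hdL, X.lcm_pos.ne'⟩)
  set S := ∑ d ∈ X.lcm.divisors, DC d m N C₁ C₂ with hS
  have hS0 : 0 ≤ S := sum_nonneg fun d _ => DC_nonneg d m N hC₁ hC₂
  set Q' := ∑ κ ∈ X.Pi J d, ((Mt (X.gam κ)).card : ℂ) *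
        PS N₁ (fun φ : MvPolynomial (Fin N) R₀ →+* F =>
          ∏ j : {j // j ∈ J}, ch hw e (κ j) (φ (MvPolynomial.C (X.c j.1)))) with hQ'
  have e4 : ‖PA - ((√q : ℝ) : ℂ) ^ m * Q'‖ * √q ≤ (X.lcm : ℝ) ^ m * S * (q ^ n * √q ^ m) := by
    rw [e2, hQ', mul_sum, ← sum_sub_distrib]
    have h1 : ∀ κ ∈ X.Pi J d, ‖PS N₁ (fun φ : MvPolynomial (Fin N) R₀ →+* F =>
        (∏ j : {j // j ∈ J}, ch hw e (κ j) (φ (MvPolynomial.C (X.c j.1)))) *
          ∏ j : {j // j ∈ J}, SS hw e (X.gam κ j) (fun i => φ (MvPolynomial.X i))) -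
        ((√q : ℝ) : ℂ) ^ m * (((Mt (X.gam κ)).card : ℂ) *
          PS N₁ (fun φ : MvPolynomial (Fin N) R₀ →+* F =>
            ∏ j : {j // j ∈ J}, ch hw e (κ j) (φ (MvPolynomial.C (X.c j.1)))))‖ * √q ≤
        S * (q ^ n * √q ^ m) := by
      intro κ hκ
      refine le_trans (le_of_eq ?_) (e3 κ hκ)
      congr 3
      push_cast
      ring
    calc _ ≤ ∑ κ ∈ X.Pi J d, S * (q ^ n * √q ^ m) := by
          refine (mul_le_mul_of_nonneg_right (norm_sum_le _ _) hs0.le).trans ?_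
          rw [sum_mul]
          exact sum_le_sum h1
      _ = (X.Pi J d).card * (S * (q ^ n * √q ^ m)) := by rw [sum_const, nsmul_eq_mul]
      _ ≤ (X.lcm : ℝ) ^ m * (S * (q ^ n * √q ^ m)) := by
          refine mul_le_mul_of_nonneg_right ?_ (by positivity)
          have h2 : (X.Pi J d).card ≤ X.lcm ^ m :=
            (X.card_Pi_le J d).trans (Nat.pow_le_pow_left (Nat.le_of_dvd X.lcm_pos hdL) _)
          exact_mod_cast h2
      _ = _ := by ring
  have h5 : Pa / ((√q : ℝ) : ℂ) ^ m - Q' = ((Pa - PA) + (PA - ((√q : ℝ) : ℂ) ^ m * Q')) /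
      ((√q : ℝ) : ℂ) ^ m := by
    field_simp
    ring
  rw [h5, norm_div, norm_pow, Complex.norm_real, Real.norm_eq_abs, abs_of_nonneg hs0.le,
    div_mul_eq_mul_div, div_le_iff₀ (by positivity)]
  calc _ ≤ (‖Pa - PA‖ + ‖PA - ((√q : ℝ) : ℂ) ^ m * Q'‖) * √q :=
        mul_le_mul_of_nonneg_right (norm_add_le _ _) hs0.le
    _ ≤ C₂ * (m * BB N X.lcm ^ m) * (q ^ n * √q ^ m) + (X.lcm : ℝ) ^ m * S * (q ^ n * √q ^ m) := by
        rw [add_mul]
        exact add_le_add e1 e4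
    _ = _ := by
        unfold EJ
        ring

open Classical in
/-- the sum over the lines -/
lemma sum_lines {J : Finset (Fin X.r)} (π : Equiv.Perm {j // j ∈ J}) {ψ : AddChar F ℂ}
    (he : ∀ i, e i = 1 → i = 0) (hψ : ψ.IsPrimitive) (φ : MvPolynomial (Fin N) R₀ →+* F) :
    ∑ b ∈ (X.sys ⟨J, π⟩).L d, lamF hw e ψ (fun i => φ (X.co ⟨J, π⟩ i)) b =
      ∑ κ : {j // j ∈ J} → ZMod d with X.Q J π d κ,
        ∏ j : {j // j ∈ J}, ch hw e (κ j) (φ (MvPolynomial.C (X.c j.1))) := by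
  have hco : (fun i => φ (X.co ⟨J, π⟩ i)) =
      dco (fun j : {j // j ∈ J} => φ (MvPolynomial.C (X.c j.1))) := by
    funext ⟨j, s⟩
    cases s
    · show φ (-1) = -1
      rw [map_neg, map_one]
    · rfl
  symm
  refine sum_nbij (fun κ => dbl κ) ?_ ?_ ?_ ?_
  · intro κ hκ
    rw [Sys.mem_L]
    exact (X.A_dbl (x := ⟨J, π⟩) κ).2 (mem_filter.1 hκ).2
  · intro κ _ κ' _ h
    funext j
    exact congrFun h (j, false)
  · intro b hb
    rw [mem_coe, Sys.mem_L] at hb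
    refine ⟨fun j => b (j, false), ?_, X.dbl_of_A hb⟩
    rw [mem_coe, mem_filter]
    exact ⟨mem_univ _, hb.1⟩
  · intro κ hκ
    rw [hco]
    exact (lam_match hw he hψ κ (fun j => ((mem_filter.1 hκ).2.2 j).1) _).symm

open Classical in
/-- the sum over the lines and the matchings -/
lemma sum_matchings (J : Finset (Fin X.r)) {ψ : AddChar F ℂ}
    (he : ∀ i, e i = 1 → i = 0) (hψ : ψ.IsPrimitive) (φ : MvPolynomial (Fin N) R₀ →+* F) :
    ∑ π : Equiv.Perm {j // j ∈ J}, ∑ b ∈ (X.sys ⟨J, π⟩).L d,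
      lamF hw e ψ (fun i => φ (X.co ⟨J, π⟩ i)) b =
      ∑ κ ∈ X.Pi J d, ((Mt (X.gam κ)).card : ℂ) *
        ∏ j : {j // j ∈ J}, ch hw e (κ j) (φ (MvPolynomial.C (X.c j.1))) := by
  rw [sum_congr rfl fun π _ => X.sum_lines hw π he hψ φ]
  have h1 : ∀ (π : Equiv.Perm {j // j ∈ J}) (κ : {j // j ∈ J} → ZMod d),
      X.Q J π d κ ↔ κ ∈ X.Pi J d ∧ π ∈ Mt (X.gam κ) := by
    intro π κ
    have h2 : κ ∈ X.Pi J d ↔ ∀ j, κ j ≠ 0 ∧ (X.m j.1 : ZMod d) * κ j = 0 := by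
      unfold Pi
      rw [Fintype.mem_piFinset]
      exact forall_congr' fun j => mem_KS _
    rw [h2, mem_Mt]
    unfold Q
    constructor
    · rintro ⟨h3, h4⟩
      exact ⟨fun j => ⟨(h4 j).1, (h4 j).2.1⟩, fun j => (h3 j).2, fun j => (h3 j).1,
        fun j => funext fun i => (h4 j).2.2 i⟩
    · rintro ⟨h3, h4, h5, h6⟩
      exact ⟨fun j => ⟨h5 j, h4 j⟩, fun j => ⟨(h3 j).1, (h3 j).2, fun i => congrFun (h6 j) i⟩⟩
  have h2 : ∀ κ ∈ X.Pi J d, ((Mt (X.gam κ)).card : ℂ) *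
        ∏ j : {j // j ∈ J}, ch hw e (κ j) (φ (MvPolynomial.C (X.c j.1))) =
      ∑ π ∈ Mt (X.gam κ), ∏ j : {j // j ∈ J}, ch hw e (κ j) (φ (MvPolynomial.C (X.c j.1))) := by
    intro κ _
    rw [sum_const, nsmul_eq_mul]
  rw [sum_congr rfl h2]
  refine sum_comm' fun π κ => ?_
  rw [mem_filter]
  constructor
  · rintro ⟨-, -, h⟩
    exact ⟨((h1 π κ).1 h).2, ((h1 π κ).1 h).1⟩
  · rintro ⟨h, h'⟩
    exact ⟨mem_univ _, mem_univ _, (h1 π κ).2 ⟨h', h⟩⟩

end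

end Pool.Agent.L0h11.CyclicProduct
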