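import Mathlib
import Pool.Agent.L0h11.Hl

/-!
# The pole of the L-function of a product of cyclic covers
-/

set_option autoImplicit false
set_option linter.all false

namespace Pool.Agent.L0h11.CyclicProduct

open Finset Filter Topology
open Pool.Agent.L0h11.CC
open Pool.Agent.TH958.An
open Pool.Agent.L0h11.RG

variable {R₀ : Type} [CommRing R₀] [IsDomain R₀] [CharZero R₀] [hft : Algebra.FiniteType ℤ R₀]
  {N : ℕ} (X : CyclicProduct R₀ N)

open Classical in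
lemma Mt_empty {J : Finset (Fin X.r)} (hJ : ¬ Even J.card) {d : ℕ}
    (κ : {j // j ∈ J} → ZMod d) : (Mt (X.gam κ)).card = 0 := by
  rw [card_eq_zero, eq_empty_iff_forall_notMem]
  intro π hπ
  obtain ⟨h1, h2, -⟩ := (mem_Mt _).1 hπ
  obtain ⟨m, hm, -⟩ := card_fix (F := Bool) h1 h2
  rw [Fintype.card_coe] at hm
  exact hJ (hm ▸ even_two_mul m)

variable {F : Type} [Field F] [Fintype F] {d : ℕ} [NeZero d] {w : F}
  (hw : IsPrimitiveRoot w d) {e : AddChar (ZMod d) ℂ} (he : ∀ i, e i = 1 → i = 0)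

open Classical in
/-- the sum over the lines -/
lemma famSumF_eq (k : ℕ) {ψ : AddChar F ℂ} (he : ∀ i, e i = 1 → i = 0) (hψ : ψ.IsPrimitive)
    (φ : MvPolynomial (Fin N) R₀ →+* F) :
    famSumF X.sys (fun x => X.mult x.1 k) 0 (fun x i => φ (X.co x i)) hw e ψ =
      ∑ J : Finset (Fin X.r), (X.mult J k : ℂ) * ∑ κ ∈ X.Pi J d, ((Mt (X.gam κ)).card : ℂ) *
        ∏ j : {j // j ∈ J}, ch hw e (κ j) (φ (MvPolynomial.C (X.c j.1))) := by
  unfold famSumF
  rw [Nat.cast_zero, zero_add, Fintype.sum_sigma]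
  refine sum_congr rfl fun J _ => ?_
  rw [← X.sum_matchings hw J he hψ φ, mul_sum]

open Classical in
/-- **The approximate trace formula.** -/
theorem meanFF {n : ℕ} (htr : Algebra.trdeg ℚ (FractionRing (MvPolynomial (Fin N) R₀)) = n)
    (k : ℕ) {N₁ : MvPolynomial (Fin N) R₀} (hN : X.IsModel N₁) :
    ∃ (C₁ : ℝ) (N₂ : ℕ), 0 ≤ C₁ ∧ N₂ ≠ 0 ∧ ∀ (F : Type) [Field F], (N₂ : F) ≠ 0 →
      MeanFF X.sys (fun x => X.mult x.1 k) X.co X.lcm 0 n k N₁ (X.trace k) C₁ F := by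
  obtain ⟨C₁, N₂, hC₁, hN₂, hz⟩ := zeros_R htr hN.1
  obtain ⟨C₂, hC₂, hh⟩ := hom_R htr
  refine ⟨∑ J : Finset (Fin X.r), (X.mult J k : ℝ) * X.EJ J C₁ C₂, N₂,
    sum_nonneg fun J _ => mul_nonneg (Nat.cast_nonneg _) (X.EJ_nonneg J hC₁ hC₂), hN₂, ?_⟩
  intro F _ hF _
  obtain ⟨d, hd0, w, hw, e, ψ, hd, he, hψ⟩ := DiagProduct.exists_wep F X.lcm_pos
  refine ⟨d, hd0, w, hw, e, ψ, hd, he, hψ, ?_⟩
  have hs0 : 0 ≤ √(Fintype.card F : ℝ) := Real.sqrt_nonneg _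
  -- the two sums
  set Pa : Finset (Fin X.r) → ℂ := fun J => PS N₁ (fun φ : MvPolynomial (Fin N) R₀ →+* F =>
        ∏ j ∈ J, ((X.curveTrace j (ptOf φ) (Fintype.card F) : ℝ) : ℂ)) with hPa
  set Qa : Finset (Fin X.r) → ℂ := fun J => ∑ κ ∈ X.Pi J d, ((Mt (X.gam κ)).card : ℂ) *
        PS N₁ (fun φ : MvPolynomial (Fin N) R₀ →+* F =>
          ∏ j : {j // j ∈ J}, ch hw e (κ j) (φ (MvPolynomial.C (X.c j.1)))) with hQa
  have h1 : PS N₁ (fun φ : MvPolynomial (Fin N) R₀ →+* F =>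
      ((RG.ntY k N₁ (X.trace k) (ptOf φ) (Fintype.card F) : ℝ) : ℂ)) =
      ∑ J : Finset (Fin X.r), if Even J.card then (X.mult J k : ℂ) *
        (Pa J / (√(Fintype.card F : ℝ) : ℂ) ^ J.card) else 0 := by
    have h2 : PS N₁ (fun φ : MvPolynomial (Fin N) R₀ →+* F =>
      ((RG.ntY k N₁ (X.trace k) (ptOf φ) (Fintype.card F) : ℝ) : ℂ)) =
      PS N₁ (fun φ : MvPolynomial (Fin N) R₀ →+* F => ∑ J : Finset (Fin X.r),
        (if Even J.card then (X.mult J k : ℂ) / (√(Fintype.card F : ℝ) : ℂ) ^ J.card else 0) *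
        ∏ j ∈ J, ((X.curveTrace j (ptOf φ) (Fintype.card F) : ℝ) : ℂ)) := by
      refine PS_congr _ fun φ hφ => ?_
      rw [X.ntY_expand k hφ, Complex.ofReal_sum]
      refine sum_congr rfl fun J _ => ?_
      split_ifs
      · push_cast
        ring
      · rw [Complex.ofReal_zero, zero_mul]
    rw [h2, PS_sum]
    refine sum_congr rfl fun J _ => ?_
    rw [PS_mul]
    split_ifs
    · rw [hPa]
      ring
    · rw [zero_mul]
  have h3 : PS N₁ (fun φ : MvPolynomial (Fin N) R₀ →+* F =>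
      famSumF X.sys (fun x => X.mult x.1 k) 0 (fun x i => φ (X.co x i)) hw e ψ) =
      ∑ J : Finset (Fin X.r), (X.mult J k : ℂ) * Qa J := by
    rw [PS_congr N₁ fun φ _ => X.famSumF_eq hw k he hψ φ, PS_sum]
    refine sum_congr rfl fun J _ => ?_
    rw [PS_mul, PS_sum]
    congr 1
    refine sum_congr rfl fun κ _ => ?_
    rw [PS_mul]
  rw [h1, h3, ← sum_sub_distrib]
  calc _ ≤ (∑ J : Finset (Fin X.r), ‖(if Even J.card then (X.mult J k : ℂ) *
        (Pa J / (√(Fintype.card F : ℝ) : ℂ) ^ J.card) else 0) - (X.mult J k : ℂ) * Qa J‖) *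
          √(Fintype.card F : ℝ) := mul_le_mul_of_nonneg_right (norm_sum_le _ _) hs0
    _ = ∑ J : Finset (Fin X.r), ‖(if Even J.card then (X.mult J k : ℂ) *
        (Pa J / (√(Fintype.card F : ℝ) : ℂ) ^ J.card) else 0) - (X.mult J k : ℂ) * Qa J‖ *
          √(Fintype.card F : ℝ) := sum_mul _ _ _
    _ ≤ ∑ J : Finset (Fin X.r), (X.mult J k : ℝ) * X.EJ J C₁ C₂ * (Fintype.card F : ℝ) ^ n := by
        refine sum_le_sum fun J _ => ?_
        split_ifs with hJ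
        · rw [← mul_sub, norm_mul, Complex.norm_natCast, mul_assoc, mul_assoc]
          refine mul_le_mul_of_nonneg_left ?_ (Nat.cast_nonneg _)
          exact X.mean_J hw he hd hN hJ hC₁ hC₂ (hz F hF) (hh F)
        · have h4 : Qa J = 0 := by
            rw [hQa]
            refine sum_eq_zero fun κ _ => ?_
            rw [X.Mt_empty hJ κ, Nat.cast_zero, zero_mul]
          rw [h4, mul_zero, sub_zero, norm_zero, zero_mul]
          exact mul_nonneg (mul_nonneg (Nat.cast_nonneg _) (X.EJ_nonneg J hC₁ hC₂)) (by positivity)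
    _ = _ := by rw [sum_mul]

/-- **The pole of the L-function of a product of cyclic covers.** -/
theorem pole {n : ℕ} (htr : Algebra.trdeg ℚ (FractionRing (MvPolynomial (Fin N) R₀)) = n)
    (hreg : Reg (FractionRing (MvPolynomial (Fin N) R₀))) (k : ℕ)
    {N₁ : MvPolynomial (Fin N) R₀} (hN : X.IsModel N₁) :
    (∀ y : MaximalSpectrum (MvPolynomial (Fin N) R₀), N₁ ∉ y.asIdeal → ∀ s : ℂ, (k : ℝ) < s.re →
      Summable fun l : ℕ => (X.trace k y (RG.pointNorm y ^ (l + 1)) : ℂ) *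
        (RG.pointNorm y : ℂ) ^ (-(((l + 1 : ℕ) : ℂ) * s)) / ((l + 1 : ℕ) : ℂ)) ∧
    (∀ s : ℂ, ((k + n + 1 : ℕ) : ℝ) < s.re → Multipliable
      fun y : {y : MaximalSpectrum (MvPolynomial (Fin N) R₀) // N₁ ∉ y.asIdeal} =>
        X.localFactor k y.1 s) ∧
    ∃ G : ℂ → ℂ, AnalyticAt ℂ G ((k + n + 1 : ℕ) : ℂ) ∧ G ((k + n + 1 : ℕ) : ℂ) ≠ 0 ∧
      ∀ᶠ s : ℂ in 𝓝 ((k + n + 1 : ℕ) : ℂ), ((k + n + 1 : ℕ) : ℝ) < s.re →
        X.LFunction k N₁ s * (s - ((k + n + 1 : ℕ) : ℂ)) ^ (X.rho k) = G s := by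
  obtain ⟨C₁, N₂, hC₁, hN₂, hmean⟩ := X.meanFF htr k hN
  have h1 := RG.famF_pole' (n := n) (sys := X.sys) (mult := fun x => X.mult x.1 k)
    (co := X.co) (D := X.lcm) (a := 0) (k := k) (N₁ := N₁) (tr := X.trace k) htr hreg
    (fun x i => by
      obtain ⟨j, s⟩ := i
      cases s
      · exact neg_ne_zero.2 one_ne_zero
      · show MvPolynomial.C (X.c j.1) ≠ 0
        rw [Ne, MvPolynomial.C_eq_zero]
        exact X.c_ne j.1)
    (fun x _ => by
      rw [Fintype.card_prod, Fintype.card_bool]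
      exact (even_two).mul_left _) X.lcm_pos hN.1 (X.BT_nonneg k)
    (fun F _ _ φ => X.ntY_le k hN F φ) hC₁ hN₂ hmean (X.localFactor k) (fun y s => rfl)
  rw [← rho_eq] at h1
  exact h1

end Pool.Agent.L0h11.CyclicProduct
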