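import Mathlib
import Pool.Agent.L0h11.Asm

/-!
# The L-function of a diagonal hypersurface at `s = n / 2 + 1`
-/

set_option autoImplicit false
set_option linter.unusedSectionVars false

namespace Pool.Agent.L0h11

open Finset Filter Topology

lemma cpow_shift (p : Nat.Primes) (n k : ℕ) (s : ℂ) :
    ((p : ℕ) : ℂ) ^ (-(((k + 1 : ℕ) : ℂ) * s)) * ((((p : ℕ) : ℂ) ^ (k + 1)) ^ n) =
      (((p : ℕ) : ℂ) ^ (-(s - (n : ℂ)))) ^ (k + 1) := by
  have hp : ((p : ℕ) : ℂ) ≠ 0 := by exact_mod_cast p.2.ne_zero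
  rw [← Complex.cpow_nat_mul, ← pow_mul, ← Complex.cpow_natCast, ← Complex.cpow_add _ _ hp]
  congr 1
  push_cast
  ring

lemma term_eq {m N : ℕ} (r : Fin N → ℤ) (p : Nat.Primes) (s : ℂ) (k : ℕ) :
    (trace m r (GaloisField p (k + 1)) : ℂ) *
      ((p : ℕ) : ℂ) ^ (-(((k + 1 : ℕ) : ℂ) * s)) / ((k + 1 : ℕ) : ℂ) =
    nt m r p (k + 1) * (((p : ℕ) : ℂ) ^ (-(s - ((N / 2 - 1 : ℕ) : ℂ)))) ^ (k + 1) /
      ((k + 1 : ℕ) : ℂ) := by
  have hp : ((p : ℕ) : ℂ) ≠ 0 := by exact_mod_cast p.2.ne_zero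
  rw [← cpow_shift]
  unfold nt
  have h1 : (((p : ℕ) : ℂ) ^ (k + 1)) ^ (N / 2 - 1) ≠ 0 := pow_ne_zero _ (pow_ne_zero _ hp)
  field_simp

lemma local_eq {m N : ℕ} (r : Fin N → ℤ) (p : Nat.Primes) (s : ℂ) :
    localFactor m r p s =
      Complex.exp (TT (nt m r p) (((p : ℕ) : ℂ) ^ (-(s - ((N / 2 - 1 : ℕ) : ℂ))))) := by
  unfold localFactor TT
  congr 1
  exact tsum_congr fun k => term_eq r p s k

lemma diff_par (p : Nat.Primes) (a : ℂ) : Differentiable ℂ (fun s : ℂ => ((p : ℕ) : ℂ) ^ (-(s - a))) := by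
  intro z
  apply DifferentiableAt.const_cpow (by fun_prop)
  left
  exact_mod_cast p.2.ne_zero

lemma analyticAt_local {m N : ℕ} (hm : 0 < m) (hN : Even N) (hN2 : 2 ≤ N) (r : Fin N → ℤ)
    (p : Nat.Primes) (hp : ∀ i, ¬ ((p : ℕ) : ℤ) ∣ r i) :
    AnalyticAt ℂ (localFactor m r p) ((N / 2 : ℕ) : ℂ) := by
  have h0 : localFactor m r p = fun s =>
      Complex.exp (TT (nt m r p) (((p : ℕ) : ℂ) ^ (-(s - ((N / 2 - 1 : ℕ) : ℂ))))) := by
    funext s
    exact local_eq r p s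
  rw [h0]
  have h1 : (((N / 2 : ℕ) : ℂ) - ((N / 2 - 1 : ℕ) : ℂ)) = 1 := by
    obtain ⟨n, hn⟩ := hN
    have h2 : 1 ≤ N / 2 := by omega
    rw [Nat.cast_sub h2]
    push_cast
    ring
  apply AnalyticAt.cexp
  have h2 : AnalyticAt ℂ (fun s : ℂ => ((p : ℕ) : ℂ) ^ (-(s - ((N / 2 - 1 : ℕ) : ℂ))))
      ((N / 2 : ℕ) : ℂ) := (diff_par p _).analyticAt _
  have h3 : AnalyticAt ℂ (TT (nt m r p))
      (((p : ℕ) : ℂ) ^ (-(((N / 2 : ℕ) : ℂ) - ((N / 2 - 1 : ℕ) : ℂ)))) := by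
    have h4 : DifferentiableOn ℂ (TT (nt m r p)) (Metric.ball 0 (4 / 5)) :=
      TT_diff fun k hk => nt_bound hm hN hN2 r p hp hk
    refine h4.analyticAt (Metric.isOpen_ball.mem_nhds ?_)
    rw [h1, Metric.mem_ball, dist_zero_right]
    have := (norm_p p (z := 1) (by rw [Complex.one_re]; norm_num)).trans (par_le p.2.two_le)
    linarith
  exact AnalyticAt.fun_comp h3 h2

lemma local_ne {m N : ℕ} (r : Fin N → ℤ) (p : Nat.Primes) (s : ℂ) : localFactor m r p s ≠ 0 :=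
  Complex.exp_ne_zero _

/-- **The pole of the L-function of a diagonal hypersurface.** -/
theorem diag_pole {m N : ℕ} (hm : 0 < m) (hN : Even N) (hN2 : 2 ≤ N) (r : Fin N → ℤ)
    (hr : ∀ i, r i ≠ 0) (S : Finset Nat.Primes)
    (hS : ∀ p : Nat.Primes, ((p : ℕ) ∣ m ∨ ∃ i, ((p : ℕ) : ℤ) ∣ r i) → p ∈ S)
    (P : Nat.Primes → Polynomial ℂ)
    (hP : ∀ p ∈ S, (P p).eval (((p : ℕ) : ℂ) ^ (-((N / 2 : ℕ) : ℂ))) ≠ 0) :
    (∀ p ∉ S, ∀ s : ℂ, ((N / 2 : ℕ) : ℝ) < s.re → Summable fun k : ℕ =>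
      (trace m r (GaloisField p (k + 1)) : ℂ) *
        ((p : ℕ) : ℂ) ^ (-(((k + 1 : ℕ) : ℂ) * s)) / ((k + 1 : ℕ) : ℂ)) ∧
    (∀ s : ℂ, ((N / 2 : ℕ) : ℝ) < s.re → Multipliable fun p : Nat.Primes =>
      if p ∈ S then ((P p).eval (((p : ℕ) : ℂ) ^ (-s)))⁻¹ else localFactor m r p s) ∧
    ∃ G : ℂ → ℂ, AnalyticAt ℂ G ((N / 2 : ℕ) : ℂ) ∧ G ((N / 2 : ℕ) : ℂ) ≠ 0 ∧
      ∀ᶠ s : ℂ in 𝓝 ((N / 2 : ℕ) : ℂ), ((N / 2 : ℕ) : ℝ) < s.re →
        LFunction m r S P s * (s - ((N / 2 : ℕ) : ℂ)) ^ (rho m r) = G s := by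
  classical
  obtain ⟨n, hn⟩ := id hN
  have hn1 : 1 ≤ N / 2 := by omega
  set a : ℂ := ((N / 2 - 1 : ℕ) : ℂ) with ha
  have ha1 : ((N / 2 : ℕ) : ℂ) = a + 1 := by
    rw [ha, Nat.cast_sub hn1]
    push_cast
    ring
  have hare : a.re = ((N / 2 : ℕ) : ℝ) - 1 := by
    rw [ha, Complex.natCast_re, Nat.cast_sub hn1]
    push_cast
    ring
  have hgood : ∀ p : Nat.Primes, p ∉ S → ∀ i, ¬ ((p : ℕ) : ℤ) ∣ r i :=
    fun p hp i hi => hp (hS p (Or.inr ⟨i, hi⟩))
  set S0 : Finset ℕ := S.image (fun p : Nat.Primes => (p : ℕ)) with hS0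
  have hmem0 : ∀ p : Nat.Primes, (p : ℕ) ∈ S0 ↔ p ∈ S := by
    intro p
    rw [hS0, mem_image]
    constructor
    · rintro ⟨p', h1, h2⟩
      have h3 : p' = p := Subtype.ext h2
      rwa [← h3]
    · intro h
      exact ⟨p, h, rfl⟩
  obtain ⟨S', hSS, hmul, G, hG, hG1, hGL⟩ := core_diag hm hN hN2 r hr S0 (fun p hp =>
    ⟨fun h => hp ((hmem0 p).2 (hS p (Or.inl h))),
      fun i hi => hp ((hmem0 p).2 (hS p (Or.inr ⟨i, hi⟩)))⟩)
  let S1 : Finset Nat.Primes := S'.subtype Nat.Prime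
  have hS1 : ∀ p : Nat.Primes, p ∈ S1 ↔ (p : ℕ) ∈ S' := fun p => mem_subtype
  let fac : Nat.Primes → ℂ → ℂ := fun p s =>
    if p ∈ S then ((P p).eval (((p : ℕ) : ℂ) ^ (-s)))⁻¹ else localFactor m r p s
  have hprod : ∀ s : ℂ, ((N / 2 : ℕ) : ℝ) < s.re → HasProd (fun p => fac p s)
      ((∏ p ∈ S1, fac p s) * ∏' p : Nat.Primes, if (p : ℕ) ∈ S' then (1 : ℂ) else
        Complex.exp (TT (nt m r p) (((p : ℕ) : ℂ) ^ (-(s - a))))) := by
    intro s hs
    have hs' : 1 < (s - a).re := by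
      rw [Complex.sub_re, hare]
      linarith
    have h1 := (hmul (s - a) hs').hasProd
    have h2 : HasProd (fun p : Nat.Primes => if (p : ℕ) ∈ S' then fac p s else 1)
        (∏ p ∈ S1, fac p s) := by
      have h3 : ∏ p ∈ S1, fac p s = ∏ p ∈ S1, (if (p : ℕ) ∈ S' then fac p s else 1) :=
        prod_congr rfl fun p hp => by rw [if_pos ((hS1 p).1 hp)]
      rw [h3]
      apply hasProd_prod_of_ne_finset_one
      intro p hp
      rw [if_neg fun h => hp ((hS1 p).2 h)]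
    refine (h2.mul h1).congr_fun fun p => ?_
    by_cases hp : (p : ℕ) ∈ S'
    · rw [if_pos hp, if_pos hp, mul_one]
    · rw [if_neg hp, if_neg hp, one_mul]
      have hpS : p ∉ S := fun h => hp (hSS ((hmem0 p).2 h))
      show (if p ∈ S then ((P p).eval (((p : ℕ) : ℂ) ^ (-s)))⁻¹ else localFactor m r p s) = _
      rw [if_neg hpS, local_eq]
  refine ⟨?_, fun s hs => (hprod s hs).multipliable, ?_⟩
  · intro p hp s hs
    have h1 : ∀ k, 1 ≤ k → ‖nt m r p k‖ ≤ 1 + (m : ℝ) ^ N :=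
      fun k hk => nt_bound hm hN hN2 r p (hgood p hp) hk
    have hs' : 3 / 4 ≤ (s - a).re := by
      rw [Complex.sub_re, hare]
      linarith
    have h2 := TT_summable h1 (x := ((p : ℕ) : ℂ) ^ (-(s - a)))
      (lt_of_le_of_lt ((norm_p p hs').trans (par_le p.2.two_le)) (by norm_num))
    exact h2.congr fun k => (term_eq r p s k).symm
  · refine ⟨fun s => (∏ p ∈ S1, fac p s) * G (s - a), ?_, ?_, ?_⟩
    · refine AnalyticAt.fun_mul (Finset.analyticAt_fun_prod _ fun p _ => ?_) ?_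
      · by_cases hp : p ∈ S
        · have h1 : fac p = fun s => ((P p).eval (((p : ℕ) : ℂ) ^ (-s)))⁻¹ := by
            funext s
            exact if_pos hp
          rw [h1]
          refine AnalyticAt.inv ?_ (hP p hp)
          have h2 : Differentiable ℂ (fun s : ℂ => (P p).eval (((p : ℕ) : ℂ) ^ (-s))) := by
            have h3 := diff_par p 0
            simp only [sub_zero] at h3
            exact (P p).differentiable.comp h3
          exact h2.analyticAt _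
        · have h1 : fac p = localFactor m r p := by
            funext s
            exact if_neg hp
          rw [h1]
          exact analyticAt_local hm hN hN2 r p (hgood p hp)
      · have h1 : AnalyticAt ℂ (fun s : ℂ => s - a) ((N / 2 : ℕ) : ℂ) := by fun_prop
        have h2 : AnalyticAt ℂ G (((N / 2 : ℕ) : ℂ) - a) := by
          rw [ha1, add_sub_cancel_left]
          exact hG
        exact AnalyticAt.fun_comp h2 h1
    · refine mul_ne_zero (prod_ne_zero_iff.2 fun p _ => ?_) ?_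
      · by_cases hp : p ∈ S
        · have h1 : fac p ((N / 2 : ℕ) : ℂ) =
            ((P p).eval (((p : ℕ) : ℂ) ^ (-((N / 2 : ℕ) : ℂ))))⁻¹ := if_pos hp
          rw [h1]
          exact inv_ne_zero (hP p hp)
        · have h1 : fac p ((N / 2 : ℕ) : ℂ) = localFactor m r p ((N / 2 : ℕ) : ℂ) := if_neg hp
          rw [h1]
          exact local_ne r p _
      · rw [ha1, add_sub_cancel_left]
        exact hG1
    · have hcont : Tendsto (fun s : ℂ => s - a) (𝓝 ((N / 2 : ℕ) : ℂ)) (𝓝 1) := by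
        have h1 : Continuous (fun s : ℂ => s - a) := by fun_prop
        have h2 := h1.tendsto ((N / 2 : ℕ) : ℂ)
        simp only [ha1, add_sub_cancel_left] at h2
        rw [ha1]
        exact h2
      filter_upwards [hcont.eventually hGL] with s hs hs2
      have hs' : 1 < (s - a).re := by
        rw [Complex.sub_re, hare]
        linarith
      have h1 := hs hs'
      have h2 : LFunction m r S P s = (∏ p ∈ S1, fac p s) *
          ∏' p : Nat.Primes, if (p : ℕ) ∈ S' then (1 : ℂ) else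
            Complex.exp (TT (nt m r p) (((p : ℕ) : ℂ) ^ (-(s - a)))) := (hprod s hs2).tprod_eq
      rw [h2, ← h1, ha1]
      ring

end Pool.Agent.L0h11
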