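import Mathlib
import Pool.Agent.L0h11.Ve
import Pool.Agent.L0h11.Nx

/-!
# Hypersurfaces given by invertible polynomials over the fields of rational functions: definitions

The polynomials are sums of blocks, in separate variables, of degree `m`. A block is a chain
`c_0 * x_0 ^ (m - 1) * x_1 + ... + c_(r-2) * x_(r-2) ^ (m - 1) * x_(r-1) + c_(r-1) * x_(r-1) ^ m`
(for `r = 1` this is `c_0 * x_0 ^ m`) or a loop
`c_0 * x_0 ^ (m - 1) * x_1 + ... + c_(r-2) * x_(r-2) ^ (m - 1) * x_(r-1) + c_(r-1) * x_(r-1) ^ (m - 1) * x_0`.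
-/

set_option autoImplicit false

namespace Pool.Agent.L0h11

/-- A hypersurface `X` of degree `m ≥ 3` and even dimension `N - 2` over the field `ℚ(t_1, ..., t_n)`: the
sum of the blocks `j < l`, the block `j` being the loop (if `loop j` holds) or the chain of length
`len j`, in the `N = ∑ len j` variables `(j, i)`, `i < len j`; the coefficients `c` are nonzero elements
of `ℤ[t_1, ..., t_n]`. At least one block has a length greater than one, i.e. `X` is not diagonal in
these coordinates. -/
structure InvertibleOver (n : ℕ) where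
  l : ℕ
  m : ℕ
  len : Fin l → ℕ
  loop : Fin l → Bool
  c : (Σ j : Fin l, Fin (len j)) → MvPolynomial (Fin n) ℤ
  three_le : 3 ≤ m
  len_pos : ∀ j, 0 < len j
  c_ne : ∀ x, c x ≠ 0
  not_diag : ∃ j, 2 ≤ len j
  even : Even (∑ j, len j)

namespace InvertibleOver

variable {n : ℕ} (X : InvertibleOver n)

/-- the set of the variables -/
abbrev Idx : Type := Σ j : Fin X.l, Fin (X.len j)

/-- the number of the variables -/
def N : ℕ := ∑ j, X.len j

/-- the successor of a variable in its block -/
def next (x : X.Idx) : X.Idx := ⟨x.1, nx (X.loop x.1) x.2⟩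

/-- the equation of `X` -/
noncomputable def eqn : MvPolynomial X.Idx (MvPolynomial (Fin n) ℤ) :=
  ∑ x, MvPolynomial.C (X.c x) * MvPolynomial.X x ^ (X.m - 1) * MvPolynomial.X (X.next x)

/-- The least common multiple `D` of the determinants (up to the sign) of the matrices of the
exponents of the blocks: `m * (m - 1) ^ (r - 1)` for a chain and `|(1 - m) ^ r - 1|` for a loop of
length `r`. -/
def D : ℕ := Finset.univ.lcm fun j =>
  if X.loop j then ((1 - (X.m : ℤ)) ^ X.len j - 1).natAbs else X.m * (X.m - 1) ^ (X.len j - 1)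

/-- The open subscheme `N₁ ≠ 0` of the affine space over `ℤ` is nonempty and at its closed points `D` and
the coefficients are not zero, so that the fibres of `X` are smooth. -/
def IsModel (N₁ : MvPolynomial (Fin n) ℤ) : Prop :=
  N₁ ≠ 0 ∧ ∀ y : MaximalSpectrum (MvPolynomial (Fin n) ℤ), N₁ ∉ y.asIdeal →
    ((X.D : ℕ) : MvPolynomial (Fin n) ℤ) ∉ y.asIdeal ∧ ∀ x, X.c x ∉ y.asIdeal

/-- The trace on the cohomology `H ^ (N - 2)` of the fibre of `X` at `y` of the power of the Frobenius
element with the field of definition with `q` elements, by the trace formula: the number of points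
minus the sum of the `q ^ j` with `0 ≤ j ≤ N - 2` and `j ≠ N / 2 - 1`. -/
noncomputable def trace (y : MaximalSpectrum (MvPolynomial (Fin n) ℤ)) (q : ℕ) : ℝ :=
  fibrePoints X.eqn y q - ∑ j ∈ (Finset.range (X.N - 1)).erase (X.N / 2 - 1), (q : ℝ) ^ j

/-- The Euler factor `det (1 - Frob_y * N(y) ^ (-s) | H ^ (N - 2) (X)) ^ (-1)`, as the exponential of the
sum over `l ≥ 1` (here `l + 1`) of the traces of the `l`-th powers. -/
noncomputable def localFactor (y : MaximalSpectrum (MvPolynomial (Fin n) ℤ)) (s : ℂ) : ℂ :=
  Complex.exp (∑' l : ℕ, (X.trace y (pointNorm y ^ (l + 1)) : ℂ) *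
    (pointNorm y : ℂ) ^ (-(((l + 1 : ℕ) : ℂ) * s)) / ((l + 1 : ℕ) : ℂ))

/-- The L-function of `H ^ (N - 2) (X)`, the Euler product over the closed points of the open subscheme
`N₁ ≠ 0` of the affine space over `ℤ`. -/
noncomputable def LFunction (N₁ : MvPolynomial (Fin n) ℤ) (s : ℂ) : ℂ :=
  ∏' y : {y : MaximalSpectrum (MvPolynomial (Fin n) ℤ) // N₁ ∉ y.asIdeal}, X.localFactor y.1 s

/-- extension by zero -/
def ext (J : Finset X.Idx) {M : ℕ} (b : {x // x ∈ J} → ZMod M) (x : X.Idx) : ZMod M :=
  if h : x ∈ J then b ⟨x, h⟩ else 0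

/-- The lines of exact level `M` with the support `J`: the families `b` of nonzero residues modulo `M`,
indexed by the variables in `J`, with sum zero, such that for the extension `b'` of `b` by zero and
for all variables `y` the sum of `(m - 1) * b' y` and of the `b' x` with `next x = y` is zero, and
which do not come from a proper divisor of `M`. -/
def IsLine (J : Finset X.Idx) (M : ℕ) (b : {x // x ∈ J} → ZMod M) : Prop :=
  ((∀ x, b x ≠ 0) ∧ ∑ x, b x = 0 ∧ ∀ y, ((X.m - 1 : ℕ) : ZMod M) * X.ext J b y +
    ∑ x ∈ Finset.univ.filter (fun x => X.next x = y), X.ext J b x = 0) ∧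
  ∀ k : ℕ, (∀ x, (k : ZMod M) * b x = 0) → M ∣ k

/-- the coefficients in the support -/
def coeff (J : Finset X.Idx) : {x // x ∈ J} → MvPolynomial (Fin n) ℤ := fun x => X.c x.1

/-- The multiplicity of the lines with the support `J` in `H ^ (N - 2) (X)`: zero if a block contains an
odd number of variables outside `J`; otherwise `2 ^ a`, where `a` is the number of the loops without
variables in `J`. -/
def mult (J : Finset X.Idx) : ℕ :=
  ∏ j, mu (X.loop j) (X.len j) (Finset.univ.filter fun i => (⟨j, i⟩ : X.Idx) ∉ J).card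

/-- The number of the Galois orbits of lines in `H ^ (N - 2) (X)(N / 2 - 1)` with trivial Galois action:
the additional `1` is for the class of the intersection of `N / 2 - 1` hyperplanes; the Galois group of
`ℚ(ζ_M)/ℚ` acts freely on the lines of exact level `M`, and the Galois group of
`ℚ(ζ_M)(t_1, ..., t_n)` acts trivially on the line of `b` if and only if
`RationalOver M b (X.coeff J)` holds. -/
noncomputable def rho : ℕ :=
  1 + ∑ J : Finset X.Idx, X.mult J * ∑ M ∈ X.D.divisors, Nat.card {b : {x // x ∈ J} → ZMod M //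
    X.IsLine J M b ∧ RationalOver M b (X.coeff J)} / M.totient

end InvertibleOver

end Pool.Agent.L0h11
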