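import Mathlib
import Pool.Agent.L0h11.Vj
import Pool.Agent.L0h11.Vi
import Pool.Agent.L0h11.Vq2

/-!
# Hypersurfaces given by invertible polynomials over the fields of rational functions
-/

set_option autoImplicit false
set_option linter.unusedSectionVars false

namespace Pool.Agent.L0h11

open Finset Filter Topology
open Pool.Agent.TH958.An

namespace InvertibleOver

variable {n : ℕ} (X : InvertibleOver n)

/-- the hypersurface with the coefficients `1` -/
abbrev shape : Delsarte where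
  l := X.l
  m := X.m
  len := X.len
  loop := X.loop
  c _ := 1
  three_le := X.three_le
  len_pos := X.len_pos
  c_ne _ := one_ne_zero
  not_diag := X.not_diag
  even := X.even

lemma D_pos : 0 < X.D := X.shape.D_pos

lemma isLine_iff {J : Finset X.Idx} {M : ℕ} (b : {x // x ∈ J} → ZMod M) :
    X.IsLine J M b ↔ (X.shape.sys J).A M b ∧ IsPrm M b := Iff.rfl

lemma rho_eq : X.rho = famRhoF X.shape.sys X.mult X.coeff X.D 1 := rfl

/-- the points of the fibres -/
lemma fibre_eq {F : Type} [Field F] [Fintype F] (φ : MvPolynomial (Fin n) ℤ →+* F) :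
    fibrePoints X.eqn (ptOf φ) (Fintype.card F) =
      ((X.shape.coneD (fun x => φ (X.c x)) : ℝ) - 1) / ((Fintype.card F : ℝ) - 1) := by
  classical
  rw [fibrePoints_eq]
  congr 2
  have h1 : ∀ x : X.Idx → F, MvPolynomial.eval₂ φ x X.eqn =
      ∑ y, φ (X.c y) * x y ^ (X.m - 1) * x (X.next y) := by
    intro x
    unfold eqn
    rw [MvPolynomial.eval₂_sum]
    refine Finset.sum_congr rfl fun i _ => ?_
    rw [MvPolynomial.eval₂_mul, MvPolynomial.eval₂_mul, MvPolynomial.eval₂_C,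
      MvPolynomial.eval₂_pow, MvPolynomial.eval₂_X, MvPolynomial.eval₂_X]
  unfold Delsarte.coneD
  rw [Nat.card_congr (Equiv.subtypeEquivRight fun x => by rw [h1 x]), Nat.card_eq_fintype_card]
  congr!

/-- **the trace formula** -/
theorem trFF {N₁ : MvPolynomial (Fin n) ℤ} (hN : X.IsModel N₁) (F : Type) [Field F] :
    TrFF X.shape.sys X.mult X.coeff X.D 1 (X.N / 2 - 1) N₁ X.trace F := by
  intro _
  classical
  obtain ⟨d, hd0, w, hw, e, ψ, hd, he, hψ, htr⟩ := X.shape.trFF (F := F)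
  refine ⟨d, hd0, w, hw, e, ψ, hd, he, hψ, ?_⟩
  intro φ hφ
  have hy := hN.2 (ptOf φ) (fun h => hφ ((mem_ptOf φ N₁).1 h))
  have hc : ∀ x, φ (X.c x) ≠ 0 := fun x h => hy.2 x ((mem_ptOf φ _).2 h)
  unfold trace
  rw [X.fibre_eq]
  exact htr _ hc

/-- **The pole of the L-function of an invertible hypersurface over `ℚ(t_1, ..., t_n)`.** -/
theorem pole {N₁ : MvPolynomial (Fin n) ℤ} (hN : X.IsModel N₁) :
    (∀ y : MaximalSpectrum (MvPolynomial (Fin n) ℤ), N₁ ∉ y.asIdeal →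
      ∀ s : ℂ, ((X.N / 2 - 1 : ℕ) : ℝ) < s.re →
      Summable fun l : ℕ => (X.trace y (pointNorm y ^ (l + 1)) : ℂ) *
        (pointNorm y : ℂ) ^ (-(((l + 1 : ℕ) : ℂ) * s)) / ((l + 1 : ℕ) : ℂ)) ∧
    (∀ s : ℂ, ((X.N / 2 + n : ℕ) : ℝ) < s.re → Multipliable
      fun y : {y : MaximalSpectrum (MvPolynomial (Fin n) ℤ) // N₁ ∉ y.asIdeal} =>
        X.localFactor y.1 s) ∧
    ∃ G : ℂ → ℂ, AnalyticAt ℂ G ((X.N / 2 + n : ℕ) : ℂ) ∧ G ((X.N / 2 + n : ℕ) : ℂ) ≠ 0 ∧
      ∀ᶠ s : ℂ in 𝓝 ((X.N / 2 + n : ℕ) : ℂ), ((X.N / 2 + n : ℕ) : ℝ) < s.re →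
        X.LFunction N₁ s * (s - ((X.N / 2 + n : ℕ) : ℂ)) ^ X.rho = G s := by
  have h1 := famF_pole (n := n) (sys := X.shape.sys) (mult := X.mult) (co := X.coeff)
    (D := X.D) (a := 1) (k := X.N / 2 - 1) (N₁ := N₁) (tr := X.trace)
    (fun J x => X.c_ne _) (fun J hJ => by
      rw [Fintype.card_coe]
      exact X.shape.even_of_mult hJ) X.D_pos hN.1
    (fun F _ => X.trFF hN F) X.localFactor (fun y s => rfl)
  rw [← rho_eq] at h1
  have h2 := X.shape.N_two
  have h3 : X.N / 2 - 1 + n + 1 = X.N / 2 + n := by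
    have : 2 ≤ X.N := h2
    omega
  rw [h3] at h1
  exact h1

end InvertibleOver

end Pool.Agent.L0h11
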